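import Pool.Agent.Lib.MP_6a3dac_ag.W3.G1b

/-!
# Rings of invariants of automorphisms of order three: the two cases
-/

set_option autoImplicit false
set_option linter.unusedSectionVars false
set_option linter.unusedVariables false

namespace Pool.Agent.Lib.MP_6a3dac_ag.W3

open Pool.Agent.Lib.MP_6a3dac_ag IsLocalRing

variable {D : Type} [CommRing D] [IsDomain D] [IsLocalRing D] {τ : D →+* D}

-- BEGIN G1c1
/-- TASK G1c. As in the ramified case of `isRegularLocalRing_fixedRing` in QWInv.lean. First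
`z ∉ 𝔪 ^ 2` (`hzsq` there: for `x ∈ 𝔪 ^ 2`, `τ x - x = c * (τ z - z)` with `c ∈ 𝔪`; `τ 𝔪 ⊆ 𝔪` since
`τ³ = 1`; for `x = z` this gives `1 = c`, contradiction). Let `N = z * τ z * τ (τ z)`,
`S = z τ z + z τ² z + τ z τ² z`, `T = z + τ z + τ² z` in the ring of invariants,
`z ^ 3 = T z ^ 2 - S z + N`. `N ≠ 0`, `N ∈ 𝔪₀` (`Dom.mem_maximalIdeal`, `dom_fixedRing`). The map
`ψ : fixedRing τ → D ⧸ (z)` is surjective (`h.dec`) with kernel `(N)`: if `x = q z`,
`q = b₀ + b₁ z + b₂ z ^ 2`, then `x = b₂ N + (b₀ - b₂ S) z + (b₁ + b₂ T) z ^ 2`, so `x = b₂ N` by `h.uniq`.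
`isRegularLocalRing_quotient hD hz hzsq`, `isRegularLocalRing_of_quotient`,
`IsRegularLocalRing.of_ringEquiv` exactly as there. `IsNoetherianRing (fixedRing τ)` is
`isNoetherianRing_of_comap_map` with `h.pure`. -/
theorem regular_fixed_ram (hD : IsRegularLocalRing D) (hτ : ∀ z, τ (τ (τ z)) = z) {z : D}
    (h : Dec3 τ z) (hz : z ∈ maximalIdeal D) (hz0 : τ z - z ≠ 0)
    (hI : ∀ x, ∃ c, τ x - x = c * (τ z - z)) : IsRegularLocalRing (fixedRing τ) := by
  classical
  let φ : fixedRing τ →+* D := (fixedRing τ).subtype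
  have hloc : IsLocalRing (fixedRing τ) := (dom_fixedRing τ).isLocalRing
  have hmem : ∀ a : fixedRing τ, a ∈ maximalIdeal (fixedRing τ) ↔ (a : D) ∈ maximalIdeal D :=
    (dom_fixedRing τ).mem_maximalIdeal
  have hinvm : ∀ z : D, z ∈ maximalIdeal D → τ z ∈ maximalIdeal D := by
    intro z hz
    rw [IsLocalRing.mem_maximalIdeal, mem_nonunits_iff] at hz ⊢
    intro hu
    apply hz
    have := (hu.map τ).map τ
    rwa [hτ] at this
  have hNoeth : IsNoetherianRing (fixedRing τ) := isNoetherianRing_of_comap_map φ h.pure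
  have hzsq : z ∉ maximalIdeal D ^ 2 := by
    intro hz2
    have key : ∀ x ∈ maximalIdeal D ^ 2, ∃ c ∈ maximalIdeal D, τ x - x = c * (τ z - z) := by
      intro x hx
      rw [pow_two] at hx
      induction hx using Submodule.mul_induction_on' with
      | mem_mul_mem a ha b hb =>
        obtain ⟨c₁, hc₁⟩ := hI a
        obtain ⟨c₂, hc₂⟩ := hI b
        refine ⟨τ a * c₂ + b * c₁, Ideal.add_mem _ (Ideal.mul_mem_right _ _ (hinvm a ha))
          (Ideal.mul_mem_right _ _ hb), ?_⟩
        rw [map_mul]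
        linear_combination (τ a) * hc₂ + b * hc₁
      | add a _ b _ ha hb =>
        obtain ⟨c₁, hc₁, h1⟩ := ha
        obtain ⟨c₂, hc₂, h2⟩ := hb
        refine ⟨c₁ + c₂, Ideal.add_mem _ hc₁ hc₂, ?_⟩
        rw [map_add]
        linear_combination h1 + h2
    obtain ⟨c', hc', h1⟩ := key z hz2
    have h2 : (1 - c') * (τ z - z) = 0 := by linear_combination h1
    rcases mul_eq_zero.mp h2 with h3 | h3
    · rw [sub_eq_zero] at h3
      rw [← h3] at hc'
      exact (maximalIdeal.isMaximal D).ne_top ((Ideal.eq_top_iff_one _).mpr hc')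
    · exact hz0 h3
  have hzne : z ≠ 0 := by
    rintro h0
    exact hzsq (h0 ▸ Ideal.zero_mem _)
  have hτ1 : τ z ≠ 0 := by
    intro h0
    apply hzne
    rw [← hτ z, h0, map_zero, map_zero]
  have hτ2 : τ (τ z) ≠ 0 := by
    intro h0
    apply hzne
    rw [← hτ z, h0, map_zero]
  -- norm and traces
  let N : fixedRing τ := ⟨z * τ z * τ (τ z), by
    rw [mem_fixedRing, map_mul, map_mul, hτ]; ring⟩
  let Sy : fixedRing τ := ⟨z * τ z + z * τ (τ z) + τ z * τ (τ z), by
    rw [mem_fixedRing, map_add, map_add, map_mul, map_mul, map_mul, hτ]; ring⟩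
  let Tr : fixedRing τ := ⟨z + τ z + τ (τ z), by
    rw [mem_fixedRing, map_add, map_add, hτ]; ring⟩
  have hN0 : N ≠ 0 := fun h0 => mul_ne_zero (mul_ne_zero hzne hτ1) hτ2 (congrArg Subtype.val h0)
  have hNm : N ∈ maximalIdeal (fixedRing τ) := by
    rw [hmem]
    exact Ideal.mul_mem_right _ _ (Ideal.mul_mem_right _ _ hz)
  have hregq := isRegularLocalRing_quotient hD hz hzsq
  -- comparison of the quotients
  let ψ : fixedRing τ →+* D ⧸ Ideal.span {z} := (Ideal.Quotient.mk _).comp φ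
  have hψs : Function.Surjective ψ := by
    intro x
    obtain ⟨x, rfl⟩ := Ideal.Quotient.mk_surjective x
    obtain ⟨a, b, c, hab⟩ := h.dec x
    refine ⟨a, ?_⟩
    change Ideal.Quotient.mk _ (a : D) = _
    rw [← sub_eq_zero, ← map_sub, Ideal.Quotient.eq_zero_iff_mem, hab]
    rw [Ideal.mem_span_singleton']
    exact ⟨-b - c * z, by ring⟩
  have hψk : RingHom.ker ψ = Ideal.span {N} := by
    apply le_antisymm
    · intro x hx
      rw [RingHom.mem_ker] at hx
      change Ideal.Quotient.mk _ (x : D) = 0 at hx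
      rw [Ideal.Quotient.eq_zero_iff_mem, Ideal.mem_span_singleton'] at hx
      obtain ⟨q, hq⟩ := hx
      obtain ⟨b₀, b₁, b₂, hab⟩ := h.dec q
      rw [Ideal.mem_span_singleton']
      refine ⟨b₂, ?_⟩
      have h1 := (h.uniq (b₂ * N - x) (b₀ - b₂ * Sy) (b₁ + b₂ * Tr) (by
        push_cast
        rw [← hq, hab]
        simp only [N, Sy, Tr]
        ring)).1
      exact sub_eq_zero.mp h1
    · rw [Ideal.span_le, Set.singleton_subset_iff]
      change ψ N = 0
      change Ideal.Quotient.mk _ (z * τ z * τ (τ z)) = 0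
      rw [Ideal.Quotient.eq_zero_iff_mem]
      exact Ideal.mul_mem_right _ _ (Ideal.mul_mem_right _ _ (Ideal.mem_span_singleton_self z))
  apply isRegularLocalRing_of_quotient hNm (mem_nonZeroDivisors_of_ne_zero hN0)
  exact IsRegularLocalRing.of_ringEquiv ((Ideal.quotEquivOfEq hψk.symm).trans
    (RingHom.quotientKerEquivOfSurjective hψs)).symm
-- END G1c1

-- BEGIN G1c2
/-- TASK G1c. Here the maximal ideal of `D` is generated by that of `D₀ = fixedRing τ`
(`isRegularLocalRing_of_comap_map` as at the end of `isRegularLocalRing_fixedRing` in QWInv.lean).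
Fact (F): if `a + b y ∈ 𝔪` with `a, b ∈ D₀` then `b ∈ 𝔪₀` (otherwise `b b' = 1` and
`y - (-(a b')) = b' (a + b y) ∈ 𝔪`, excluded by `hy`) and so `a ∈ 𝔪₀`.
Let `x = a + b y + c y ^ 2 ∈ 𝔪`. If `c ∈ 𝔪₀` then `a + b y ∈ 𝔪`, done by (F). If `c` is a unit, multiply
by its inverse (an element of `D₀`): we may assume `c = 1`, `g = y ^ 2 + b y + a ∈ 𝔪`. With
`T, S, N ∈ D₀` the elementary symmetric functions of `y, τ y, τ² y`, `y ^ 3 - T y ^ 2 + S y - N = 0`. Put
`r = T + b`, `r₁ = S - a + r b`, `r₀ = r a - N`; then `(y - r) g + (r₁ y + r₀) = 0` (it is the cubic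
equation; check with `ring`). So `r₁ y + r₀ ∈ 𝔪`, and `r₁, r₀ ∈ 𝔪₀` by (F). As `y - r` is a unit of
`D` (`hy r`), `g = -(r₁ y + r₀) (y - r)⁻¹ ∈ 𝔪₀ D`, so by `h.exists_of_mem_map` `g = a' + b' y + c' y ^ 2`
with coefficients in `𝔪₀`, and `1 = c' ∈ 𝔪₀` by `h.uniq`: contradiction. -/
theorem regular_fixed_unram (hD : IsRegularLocalRing D) (hτ : ∀ z, τ (τ (τ z)) = z) {y : D}
    (h : Dec3 τ y) (hy : ∀ c : fixedRing τ, y - c ∉ maximalIdeal D) :
    IsRegularLocalRing (fixedRing τ) := by
  classical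
  let φ : fixedRing τ →+* D := (fixedRing τ).subtype
  have hloc : IsLocalRing (fixedRing τ) := (dom_fixedRing τ).isLocalRing
  have hmem : ∀ a : fixedRing τ, a ∈ maximalIdeal (fixedRing τ) ↔ (a : D) ∈ maximalIdeal D :=
    (dom_fixedRing τ).mem_maximalIdeal
  have hNoeth : IsNoetherianRing (fixedRing τ) := isNoetherianRing_of_comap_map φ h.pure
  -- the fact (F)
  have hF : ∀ a b : fixedRing τ, (a : D) + b * y ∈ maximalIdeal D →
      a ∈ maximalIdeal (fixedRing τ) ∧ b ∈ maximalIdeal (fixedRing τ) := by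
    intro a b hab
    have hb : b ∈ maximalIdeal (fixedRing τ) := by
      by_contra hb
      rw [IsLocalRing.mem_maximalIdeal, mem_nonunits_iff, not_not] at hb
      obtain ⟨b', hb'⟩ := hb.exists_right_inv
      have h1 : (b : D) * b' = 1 := congrArg Subtype.val hb'
      apply hy (-(a * b'))
      have h2 : y - ((-(a * b') : fixedRing τ) : D) = b' * (a + b * y) := by
        push_cast
        linear_combination (-y) * h1
      rw [h2]
      exact Ideal.mul_mem_left _ _ hab
    refine ⟨?_, hb⟩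
    rw [hmem]
    have h1 : (a : D) = (a + b * y) - b * y := by ring
    rw [h1]
    exact Ideal.sub_mem _ hab (Ideal.mul_mem_right _ _ ((hmem b).mp hb))
  let N : fixedRing τ := ⟨y * τ y * τ (τ y), by
    rw [mem_fixedRing, map_mul, map_mul, hτ]; ring⟩
  let Sy : fixedRing τ := ⟨y * τ y + y * τ (τ y) + τ y * τ (τ y), by
    rw [mem_fixedRing, map_add, map_add, map_mul, map_mul, map_mul, hτ]; ring⟩
  let Tr : fixedRing τ := ⟨y + τ y + τ (τ y), by
    rw [mem_fixedRing, map_add, map_add, hτ]; ring⟩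
  -- the leading coefficient
  have hG : ∀ a b : fixedRing τ, (a : D) + b * y + y ^ 2 ∉ maximalIdeal D := by
    intro a b hg
    let r : fixedRing τ := Tr + b
    let r₁ : fixedRing τ := Sy - a + r * b
    let r₀ : fixedRing τ := r * a - N
    have h1 : (y - r) * ((a : D) + b * y + y ^ 2) + ((r₀ : D) + r₁ * y) = 0 := by
      simp only [r₁, r₀, r]
      push_cast
      simp only [N, Sy, Tr]
      ring
    have h2 : (r₀ : D) + r₁ * y ∈ maximalIdeal D := by
      have h3 : (r₀ : D) + r₁ * y = -((y - r) * ((a : D) + b * y + y ^ 2)) := by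
        linear_combination h1
      rw [h3]
      exact (Ideal.neg_mem_iff _).2 (Ideal.mul_mem_left _ _ hg)
    obtain ⟨h3, h4⟩ := hF r₀ r₁ h2
    have hu : IsUnit (y - (r : D)) := by
      have h5 := hy r
      rw [IsLocalRing.mem_maximalIdeal, mem_nonunits_iff, not_not] at h5
      exact h5
    obtain ⟨w, hw⟩ := hu.exists_right_inv
    have h5 : (a : D) + b * y + y ^ 2 = -w * ((φ r₀) + (φ r₁) * y) := by
      change _ = -w * ((r₀ : D) + r₁ * y)
      linear_combination w * h1 - ((a : D) + b * y + y ^ 2) * hw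
    have h6 : (a : D) + b * y + y ^ 2 ∈ (maximalIdeal (fixedRing τ)).map φ := by
      rw [h5]
      exact Ideal.mul_mem_left _ _ (Ideal.add_mem _ (Ideal.mem_map_of_mem φ h3)
        (Ideal.mul_mem_right _ _ (Ideal.mem_map_of_mem φ h4)))
    obtain ⟨a', ha', b', hb', c', hc', h7⟩ := h.exists_of_mem_map _ h6
    have h8 := (h.uniq (a - a') (b - b') (1 - c') (by
      push_cast
      linear_combination h7)).2.2
    have h9 : (1 : fixedRing τ) = c' := sub_eq_zero.mp h8
    rw [← h9] at hc'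
    exact (maximalIdeal.isMaximal (fixedRing τ)).ne_top ((Ideal.eq_top_iff_one _).mpr hc')
  apply isRegularLocalRing_of_comap_map φ h.pure _ hD
  apply le_antisymm
  · rw [Ideal.map_le_iff_le_comap]
    intro a ha
    exact (hmem a).mp ha
  · intro x hx
    obtain ⟨a, b, c, hab⟩ := h.dec x
    have hc : c ∈ maximalIdeal (fixedRing τ) := by
      by_contra hc
      rw [IsLocalRing.mem_maximalIdeal, mem_nonunits_iff, not_not] at hc
      obtain ⟨c', hc'⟩ := hc.exists_right_inv
      have h1 : (c : D) * c' = 1 := congrArg Subtype.val hc'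
      apply hG (a * c') (b * c')
      have h2 : ((a * c' : fixedRing τ) : D) + ((b * c' : fixedRing τ) : D) * y + y ^ 2 = c' * x := by
        rw [hab]
        push_cast
        linear_combination (-y ^ 2) * h1
      rw [h2]
      exact Ideal.mul_mem_left _ _ hx
    have h1 : (a : D) + b * y ∈ maximalIdeal D := by
      have h2 : (a : D) + b * y = x - c * y ^ 2 := by rw [hab]; ring
      rw [h2]
      exact Ideal.sub_mem _ hx (Ideal.mul_mem_right _ _ ((hmem c).mp hc))
    obtain ⟨ha, hb⟩ := hF a b h1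
    rw [hab]
    exact Ideal.add_mem _ (Ideal.add_mem _ (Ideal.mem_map_of_mem φ ha)
      (Ideal.mul_mem_right _ _ (Ideal.mem_map_of_mem φ hb)))
      (Ideal.mul_mem_right _ _ (Ideal.mem_map_of_mem φ hc))
-- END G1c2

/-- **Regularity of the ring of invariants of an automorphism of order three.** -/
theorem isRegularLocalRing_fixedRing3 (hD : IsRegularLocalRing D) (hτ : ∀ z, τ (τ (τ z)) = z)
    {y : D} (hy : τ y - y ≠ 0) (hI : ∀ z, ∃ c, τ z - z = c * (τ y - y)) :
    IsRegularLocalRing (fixedRing τ) := by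
  have h := dec3_of_principal hτ hy hI
  by_cases hc : ∃ c : fixedRing τ, y - c ∈ maximalIdeal D
  · obtain ⟨c, hc⟩ := hc
    have h1 : τ (y - c) - (y - c) = τ y - y := by
      rw [map_sub, show τ (c : D) = c from c.2]; ring
    exact regular_fixed_ram hD hτ (h.sub c) hc (by rw [h1]; exact hy) (by rw [h1]; exact hI)
  · push Not at hc
    exact regular_fixed_unram hD hτ h hc

end Pool.Agent.Lib.MP_6a3dac_ag.W3
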