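import Pool.Agent.Lib.MP_6a3dac_ag.W3.G4b
import Pool.Agent.Lib.MP_6a3dac_ag.QD.Arith

/-!
# The arithmetic of a ramified prime of a cyclic cubic extension
-/

set_option autoImplicit false
set_option linter.unusedSectionVars false
set_option linter.unusedVariables false

namespace Pool.Agent.Lib.MP_6a3dac_ag.W3

open Pool.Agent.Lib.MP_6a3dac_ag Pool.Agent.Lib.MP_6a3dac_ag.QD

variable {R O L M : Type} [CommRing R] [CommRing O] [Algebra R O] [Field L] [Algebra R L]
  [Algebra O L] [IsScalarTower R O L] [CommRing M] [Algebra L M] [Algebra R M]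
  [IsScalarTower R L M]
  {σ : O →+* O} (h : CubExt R O σ) (hRL : Function.Injective (algebraMap R L))
  {τ : M →+* M} (hτO : ∀ c, τ (oM O L M c) = oM O L M (σ c)) (p : Ideal R)

-- BEGIN G4c1
include h hRL hτO in
/-- TASK G4c. As `exists_inv_lamP'` in QWAbs.lean. -/
theorem exists_inv_lamP3 [hp : p.IsPrime] {n : R} (hn : n ∉ p) :
    ∃ u ∈ lamP O L M p, algebraMap R M n * u = 1 ∧ τ u = u := by
  obtain ⟨l, hl⟩ := exists_inv (L := L) (M := M) hRL hn
  refine ⟨algebraMap L M l, ⟨n, hn, 1, by rw [hl, map_one], l, rfl⟩, hl, ?_⟩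
  have h1 : algebraMap R M n * τ (algebraMap L M l) = 1 := by
    rw [← oM_algebraMap (O := O) (L := L) (M := M) n, ← h.fix, ← hτO, ← map_mul, oM_algebraMap,
      hl, map_one]
  calc τ (algebraMap L M l) = (algebraMap R M n * algebraMap L M l) * τ (algebraMap L M l) := by
        rw [hl, one_mul]
    _ = algebraMap L M l * (algebraMap R M n * τ (algebraMap L M l)) := by ring
    _ = algebraMap L M l := by rw [h1, mul_one]

include h hRL hτO in
/-- TASK G4c. `Λ = lamP O L M p` is stable: `n c = oM c'`, `n u = 1` with `u` as above,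
`c = u * oM c'`, so `τ c = u * oM (σ c')`. -/
theorem map_lamP3 [hp : p.IsPrime] {c : M} (hc : c ∈ lamP O L M p) : τ c ∈ lamP O L M p := by
  obtain ⟨n, hn, c', hc', -⟩ := hc
  obtain ⟨u, hu, hu1, hu2⟩ := exists_inv_lamP3 (M := M) h hRL hτO p hn
  have h3 : c = u * oM O L M c' := by
    linear_combination u * hc' - c * hu1
  rw [h3, map_mul, hu2, hτO]
  exact Subring.mul_mem _ hu (oM_mem_lamP p _)

include h hRL hτO in
/-- TASK G4c. At an unramified prime the augmentation ideals are trivial: `algebraMap R O n = ∑ a_i (σ c_i - c_i)`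
(`Submodule.mem_span_range_iff_exists_fun` or induction), the image in `F` of the left side is a unit of
the local ring `D`, so some `τF (ι (oM c_i)) - ι (oM c_i)` is a unit of `D`; `principal_of_unit`
(QWMain.lean). -/
theorem principal_of_unramAt3 [hp : p.IsPrime] {F : Type} [Field F] (ι : M →+* F) (τF : F →+* F)
    (hτF : ∀ m, τF (ι m) = ι (τ m)) (hU : UnramAt3 σ p) {D : Subring F} (hD : IsLocalRing D)
    (hlam : ∀ c ∈ lamP O L M p, ι c ∈ D) (hτD : ∀ z ∈ D, τF z ∈ D) : Principal τF D := by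
  obtain ⟨n, hn, hmem⟩ := hU
  obtain ⟨u, hu, hu1, -⟩ := exists_inv_lamP3 (M := M) h hRL hτO p hn
  -- one of the differences is a unit
  have key : ∃ c : O, IsUnit (⟨τF (ι (oM O L M c)) - ι (oM O L M c), D.sub_mem
      (hτD _ (hlam _ (oM_mem_lamP p c))) (hlam _ (oM_mem_lamP p c))⟩ : D) := by
    by_contra hcon
    push Not at hcon
    have h1 : ∀ x ∈ Ideal.span (Set.range fun c => σ c - c),
        (⟨ι (oM O L M x), hlam _ (oM_mem_lamP p x)⟩ : D) ∈ IsLocalRing.maximalIdeal D := by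
      intro x hx
      refine Submodule.span_induction (p := fun x _ =>
        (⟨ι (oM O L M x), hlam _ (oM_mem_lamP p x)⟩ : D) ∈ IsLocalRing.maximalIdeal D)
        ?_ ?_ ?_ ?_ hx
      · rintro _ ⟨c, rfl⟩
        rw [IsLocalRing.mem_maximalIdeal, mem_nonunits_iff]
        have h2 : (⟨ι (oM O L M (σ c - c)), hlam _ (oM_mem_lamP p (σ c - c))⟩ : D) =
            ⟨τF (ι (oM O L M c)) - ι (oM O L M c), D.sub_mem
              (hτD _ (hlam _ (oM_mem_lamP p c))) (hlam _ (oM_mem_lamP p c))⟩ := by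
          apply Subtype.ext
          change ι (oM O L M (σ c - c)) = τF (ι (oM O L M c)) - ι (oM O L M c)
          rw [hτF, hτO, ← map_sub, ← map_sub]
        rw [h2]
        exact hcon c
      · have h2 : (⟨ι (oM O L M 0), hlam _ (oM_mem_lamP p 0)⟩ : D) = 0 := by
          apply Subtype.ext
          change ι (oM O L M 0) = 0
          rw [map_zero, map_zero]
        rw [h2]
        exact Ideal.zero_mem _
      · intro x y _ _ hx hy
        have h2 : (⟨ι (oM O L M (x + y)), hlam _ (oM_mem_lamP p (x + y))⟩ : D) =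
            ⟨ι (oM O L M x), hlam _ (oM_mem_lamP p x)⟩ +
              ⟨ι (oM O L M y), hlam _ (oM_mem_lamP p y)⟩ := by
          apply Subtype.ext
          change ι (oM O L M (x + y)) = ι (oM O L M x) + ι (oM O L M y)
          rw [map_add, map_add]
        rw [h2]
        exact Ideal.add_mem _ hx hy
      · intro a x _ hx
        have h2 : (⟨ι (oM O L M (a • x)), hlam _ (oM_mem_lamP p (a • x))⟩ : D) =
            ⟨ι (oM O L M a), hlam _ (oM_mem_lamP p a)⟩ *
              ⟨ι (oM O L M x), hlam _ (oM_mem_lamP p x)⟩ := by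
          apply Subtype.ext
          change ι (oM O L M (a * x)) = ι (oM O L M a) * ι (oM O L M x)
          rw [map_mul, map_mul]
        rw [h2]
        exact Ideal.mul_mem_left _ _ hx
    have h2 := Ideal.mul_mem_right (⟨ι u, hlam _ hu⟩ : D) _ (h1 _ hmem)
    have h3 : (⟨ι (oM O L M (algebraMap R O n)), hlam _ (oM_mem_lamP p _)⟩ : D) *
        ⟨ι u, hlam _ hu⟩ = 1 := by
      apply Subtype.ext
      change ι (oM O L M (algebraMap R O n)) * ι u = 1
      rw [oM_algebraMap, ← map_mul, hu1, map_one]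
    rw [h3] at h2
    exact (IsLocalRing.maximalIdeal.isMaximal D).ne_top ((Ideal.eq_top_iff_one _).mpr h2)
  obtain ⟨c, hc⟩ := key
  obtain ⟨w, hw⟩ := hc.exists_right_inv
  exact principal_of_unit τF hτD (hlam _ (oM_mem_lamP p c)) w.2 (congrArg Subtype.val hw)
-- END G4c1

-- BEGIN G4c2
include h hRL hτO in
/-- TASK G4c. The proof is that of `exists_ram` in QD/Arith.lean (structure `Ram` there, unchanged); in
place of `arithHyp_ram` argue as in its proof (QWAbs.lean); inverses of elements `c' ∉ 𝔓` are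
`n * oM (σ c') * oM (σ (σ c')) / m` with `m = c' σ c' σ² c'`. `r1_unif` (QD/Arith.lean) can be used. -/
theorem exists_ram3 [hpm : p.IsMaximal] [IsDedekindDomain O] [Nontrivial M]
    (hOL : Function.Injective (algebraMap O L))
    [Finite (R ⧸ p)] (hp0 : p ≠ ⊥) (hU : ¬ UnramAt3 σ p) {𝔓 : Ideal O} [h𝔓 : 𝔓.IsPrime]
    (hp : 𝔓.comap (algebraMap R O) = p) : ∃ (ϖ : O) (s : ℕ), Ram O L M τ p ϖ s ∧
      Irreducible (algebraMap O (Localization.AtPrime 𝔓) ϖ) := by
  have hσ := h.sub_mem_of_not_unram hU hp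
  obtain ⟨ϖ, s, hs, hirr, h1, h2⟩ := h.exists_uniformizer hp0 hU hp
  have hoM : Function.Injective (oM O L M) := (algebraMap L M).injective.comp hOL
  have hϖ0 : ϖ ≠ 0 := by
    rintro rfl
    exact hirr.ne_zero (map_zero _)
  have hϖ𝔓 : ϖ ∈ 𝔓 := by
    have h5 : ¬ IsUnit (algebraMap O (Localization.AtPrime 𝔓) ϖ) := hirr.not_isUnit
    rw [IsLocalization.AtPrime.isUnit_to_map_iff (Localization.AtPrime 𝔓) 𝔓 ϖ] at h5
    exact not_not.1 h5
  refine ⟨ϖ, s, ⟨hϖ0, hs, ?_, ?_, ?_, ?_⟩, hirr⟩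
  · obtain ⟨ε, hε, n, hn, hεn⟩ := h1
    obtain ⟨u, hu, hu1, hu2⟩ := exists_inv_lamP3 (M := M) h hRL hτO p hn
    have hΔ : τ (oM O L M ϖ) - oM O L M ϖ = oM O L M ε * u * oM O L M ϖ ^ s := by
      have h3 := congrArg (oM O L M) hεn
      rw [map_mul, oM_algebraMap, map_sub, map_mul, map_pow, ← hτO] at h3
      linear_combination u * h3 - (τ (oM O L M ϖ) - oM O L M ϖ) * hu1
    obtain ⟨m, hm, hεm⟩ := h.exists_dvd hp hσ hε
    obtain ⟨v, hv, hv1, -⟩ := exists_inv_lamP3 (M := M) h hRL hτO p hm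
    refine ⟨oM O L M ε * u, Subring.mul_mem _ (oM_mem_lamP p _) hu,
      algebraMap R M n * oM O L M (σ ε) * oM O L M (σ (σ ε)) * v, Subring.mul_mem _
        (Subring.mul_mem _ (Subring.mul_mem _ ?_
        (oM_mem_lamP p _)) (oM_mem_lamP p _)) hv, hΔ, ?_⟩
    · rw [← oM_algebraMap (O := O) (L := L)]
      exact oM_mem_lamP p _
    · have h3 := congrArg (oM O L M) hεm
      rw [oM_algebraMap, map_mul, map_mul] at h3
      linear_combination (algebraMap R M m * v) * hu1 + hv1 - (u * algebraMap R M n * v) * h3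
  · rintro c ⟨n, hn, c', hc', -⟩
    obtain ⟨y, n', hn', hy⟩ := h2 c'
    obtain ⟨u, hu, hu1, hu2⟩ := exists_inv_lamP3 (M := M) h hRL hτO p hn
    obtain ⟨v, hv, hv1, -⟩ := exists_inv_lamP3 (M := M) h hRL hτO p hn'
    refine ⟨oM O L M y * u * v, Subring.mul_mem _ (Subring.mul_mem _ (oM_mem_lamP p _) hu) hv, ?_⟩
    have h3 : c = oM O L M c' * u := by
      linear_combination u * hc' - c * hu1
    have h4 := congrArg (oM O L M) hy
    rw [map_mul, oM_algebraMap, map_sub, map_mul, map_pow] at h4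
    rw [h3, map_mul, hτO, hu2]
    linear_combination (u * v) * h4 - (u * (oM O L M (σ c') - oM O L M c')) * hv1
  · rintro c ⟨n, hn, c', hc', -⟩
    obtain ⟨u, hu, hu1, -⟩ := exists_inv_lamP3 (M := M) h hRL hτO p hn
    by_cases hc𝔓 : c' ∈ 𝔓
    · right
      obtain ⟨t, ht, d, htd⟩ := r1_unif hirr hc𝔓
      obtain ⟨m, hm, hm2⟩ := h.exists_dvd hp hσ ht
      obtain ⟨w, hw, hw1, -⟩ := exists_inv_lamP3 (M := M) h hRL hτO p hm
      refine ⟨oM O L M d * oM O L M (σ t) * oM O L M (σ (σ t)) * w * u, Subring.mul_mem _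
        (Subring.mul_mem _ (Subring.mul_mem _ (Subring.mul_mem _ (oM_mem_lamP p _)
        (oM_mem_lamP p _)) (oM_mem_lamP p _)) hw) hu, ?_⟩
      have h3 := congrArg (oM O L M) htd
      rw [map_mul, map_mul] at h3
      have h4 := congrArg (oM O L M) hm2
      rw [oM_algebraMap, map_mul, map_mul] at h4
      linear_combination u * hc' - c * hu1 - (oM O L M c' * u) * hw1 + (oM O L M c' * u * w) * h4
        + (oM O L M (σ t) * oM O L M (σ (σ t)) * w * u) * h3
    · left
      obtain ⟨m, hm, hm2⟩ := h.exists_dvd hp hσ hc𝔓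
      obtain ⟨w, hw, hw1, -⟩ := exists_inv_lamP3 (M := M) h hRL hτO p hm
      refine ⟨algebraMap R M n * oM O L M (σ c') * oM O L M (σ (σ c')) * w, Subring.mul_mem _
        (Subring.mul_mem _ (Subring.mul_mem _ ?_ (oM_mem_lamP p _)) (oM_mem_lamP p _)) hw, ?_⟩
      · rw [← oM_algebraMap (O := O) (L := L)]
        exact oM_mem_lamP p _
      · have h4 := congrArg (oM O L M) hm2
        rw [oM_algebraMap, map_mul, map_mul] at h4
        linear_combination (oM O L M (σ c') * oM O L M (σ (σ c')) * w) * hc' - w * h4 + hw1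
  · rintro c ⟨n, hn, c', hc', -⟩ h3
    apply hn
    rw [← hp, Ideal.mem_comap]
    have h4 : algebraMap R O n = ϖ * c' := by
      apply hoM
      rw [oM_algebraMap, map_mul]
      linear_combination oM O L M ϖ * hc' - algebraMap R M n * h3
    rw [h4]
    exact 𝔓.mul_mem_right _ hϖ𝔓
-- END G4c2

end Pool.Agent.Lib.MP_6a3dac_ag.W3
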