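import Pool.Agent.Lib.MP_6a3dac_ag.W3.G5d
import Pool.Agent.Lib.MP_6a3dac_ag.QD.Around

/-!
# Local rings of the model: change of charts, and the local theorem in a field
-/

set_option autoImplicit false
set_option linter.unusedSectionVars false
set_option linter.unusedVariables false

namespace Pool.Agent.Lib.MP_6a3dac_ag.W3

open Pool.Agent.Lib.MP_6a3dac_ag Pool.Agent.Lib.MP_6a3dac_ag.QD IsLocalRing

section Chart

variable {M F I : Type} [CommRing M] [Field F] {ι : M →+* F} {x : I → M} {B : ℕ → Set M}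
  {Λ : Subring M} {r : ℕ} {D A : Subring F} {i i₀ : I} {β : ℕ → M} {τF : F →+* F}

-- BEGIN G5f1
/-- TASK G5f1. Change of the chart. `gen`: let `R'` be dominated and contain the `ι (x k) / ι (x i₀)`. Then
`ι (x i) / ι (x i₀) ∈ R'` has the inverse `ι (x i₀) / ι (x i) ∈ D`, so this inverse lies in `R'`, and
`ι (x k) / ι (x i) = (ι (x k) / ι (x i₀)) (ι (x i₀) / ι (x i))`. -/
theorem LocSit.chart (hD : LocSit ι x B Λ r D i β)
    (hu : ∃ w ∈ D, ι (x i₀) / ι (x i) * w = 1) : LocSit ι x B Λ r D i₀ β := by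
  obtain ⟨w, hw, h1⟩ := hu
  have hi := hD.ne
  have h0 : ι (x i₀) ≠ 0 := by
    intro h0
    rw [h0, zero_div, zero_mul] at h1
    exact zero_ne_one h1
  have hw' : w = ι (x i) / ι (x i₀) := by
    field_simp at h1 ⊢
    linear_combination h1
  rw [hw'] at hw
  refine ⟨hD.loc, hD.lam, h0, fun k => ?_, hD.β_mem, hD.β_ne, hD.ratio,
    fun R' hR' hdom hlam hco hr => hD.gen R' hR' hdom hlam (fun k => ?_) hr⟩
  · have h2 : ι (x k) / ι (x i₀) = ι (x k) / ι (x i) * (ι (x i) / ι (x i₀)) := by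
      field_simp
    rw [h2]
    exact D.mul_mem (hD.coord k) hw
  · have h2 : ι (x i₀) / ι (x i) ∈ R' :=
      hdom _ (hco i) _ (hD.coord i₀) (by field_simp)
    have h3 : ι (x k) / ι (x i) = ι (x k) / ι (x i₀) * (ι (x i₀) / ι (x i)) := by
      field_simp
    rw [h3]
    exact R'.mul_mem (hco k) h2

/-- TASK G5f1. Change of the chart (the inverse of `ι (x i₀) / ι (x i) ∈ A` lies in `A` by `hA.dom`;
`hD.ne` for `ι (x i) ≠ 0`). -/
theorem Around.chart (hD : LocSit ι x B Λ r D i β) (hA : Around ι x Λ D i A)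
    (hu : ∃ w ∈ D, ι (x i₀) / ι (x i) * w = 1) : Around ι x Λ D i₀ A := by
  obtain ⟨w, hw, h1⟩ := hu
  have hi := hD.ne
  have h0 : ι (x i₀) ≠ 0 := by
    intro h0
    rw [h0, zero_div, zero_mul] at h1
    exact zero_ne_one h1
  have hw' : w = ι (x i) / ι (x i₀) := by
    field_simp at h1 ⊢
    linear_combination h1
  have hwA : w ∈ A := hA.dom _ (hA.coord i₀) w hw h1
  rw [hw'] at hwA
  refine ⟨hA.le, hA.dom, hA.reg, hA.lam, fun k => ?_,
    fun N hN hdom hlam hco => hA.min N hN hdom hlam fun k => ?_⟩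
  · have h2 : ι (x k) / ι (x i₀) = ι (x k) / ι (x i) * (ι (x i) / ι (x i₀)) := by
      field_simp
    rw [h2]
    exact A.mul_mem (hA.coord k) hwA
  · have h2 : ι (x i₀) / ι (x i) ∈ N :=
      hdom _ (hco i) _ (hA.coord i₀) (by field_simp)
    have h3 : ι (x k) / ι (x i) = ι (x k) / ι (x i₀) * (ι (x i₀) / ι (x i)) := by
      field_simp
    rw [h3]
    exact N.mul_mem (hco k) h2
-- END G5f1

-- BEGIN G5f2
/-- TASK G5f2. Stability: `hA.min` for the ring `l6_N A τF` (QD/Around.lean), as in the proof of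
`stable_of_fixed` there (`hN`). -/
theorem Around.stable (hA : Around ι x Λ D i A)
    (h1 : ∀ c ∈ Λ, τF (ι c) ∈ A ∧ ∀ w ∈ A, (τF (ι c) - ι c) * w ≠ 1)
    (h2 : ∀ k, τF (ι (x k) / ι (x i)) ∈ A ∧
      ∀ w ∈ A, (τF (ι (x k) / ι (x i)) - ι (x k) / ι (x i)) * w ≠ 1) :
    (∀ a ∈ A, τF a ∈ A) ∧ ∀ a ∈ A, ∀ w ∈ A, (τF a - a) * w ≠ 1 := by
  have hreg := hA.reg
  have hnon : ∀ a : A, (∀ w ∈ A, (a : F) * w ≠ 1) → a ∈ maximalIdeal A := by
    intro a ha
    rw [mem_maximalIdeal, mem_nonunits_iff]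
    intro hu'
    obtain ⟨w, hw⟩ := hu'.exists_right_inv
    exact ha w w.2 (congrArg Subtype.val hw)
  have hunit : ∀ a b : A, a - b ∈ maximalIdeal A → IsUnit b → IsUnit a := by
    intro a b hab hb
    by_contra hcon
    have h1 := Ideal.sub_mem _ ((mem_maximalIdeal _).mpr hcon) hab
    rw [sub_sub_cancel, mem_maximalIdeal] at h1
    exact h1 hb
  have hN : A ≤ l6_N A τF := by
    refine hA.min _ ?_ ?_ ?_ ?_
    · rintro z ⟨hz, -⟩
      exact hz
    · rintro a ⟨ha, hτa, h1⟩ b hb hab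
      have hau : IsUnit (⟨a, ha⟩ : A) := IsUnit.of_mul_eq_one ⟨b, hb⟩ (Subtype.ext hab)
      have hτau : IsUnit (⟨τF a, hτa⟩ : A) := hunit _ _ h1 hau
      obtain ⟨w, hw⟩ := hτau.exists_right_inv
      have hw' : τF a * (w : F) = 1 := congrArg Subtype.val hw
      have hτab : τF a * τF b = 1 := by rw [← map_mul, hab, map_one]
      have hwb : τF b = w := by
        have ha0 : τF a ≠ 0 := left_ne_zero_of_mul_eq_one hw'
        exact mul_left_cancel₀ ha0 (by rw [hτab, hw'])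
      have hτb : τF b ∈ A := by
        rw [hwb]
        exact w.2
      refine ⟨hb, hτb, ?_⟩
      have h3 : (⟨τF b, hτb⟩ : A) - ⟨b, hb⟩ =
          -(⟨b, hb⟩ * ⟨τF b, hτb⟩) * ((⟨τF a, hτa⟩ : A) - ⟨a, ha⟩) := by
        apply Subtype.ext
        change τF b - b = -(b * τF b) * (τF a - a)
        linear_combination b * hτab - τF b * hab
      rw [h3]
      exact Ideal.mul_mem_left _ _ h1
    · intro c hc
      exact ⟨hA.lam c hc, (h1 c hc).1, hnon _ (h1 c hc).2⟩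
    · intro k
      exact ⟨hA.coord k, (h2 k).1, hnon _ (h2 k).2⟩
  refine ⟨fun a ha => (hN ha).2.1, fun a ha w hw h1 => ?_⟩
  obtain ⟨ha', hτa, h2⟩ := hN ha
  rw [mem_maximalIdeal] at h2
  exact h2 (IsUnit.of_mul_eq_one ⟨w, hw⟩ (Subtype.ext h1))

/-- The restriction of the automorphism. -/
def resA (τF : F →+* F) (A : Subring F) (hst : ∀ a ∈ A, τF a ∈ A) : A →+* A :=
  (τF.comp A.subtype).codRestrict A fun a => hst a a.2

omit [Field F] in
theorem resA_coe {F : Type} [Field F] {τF : F →+* F} {A : Subring F} (hst : ∀ a ∈ A, τF a ∈ A)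
    (a : A) : ((resA τF A hst a : A) : F) = τF a := rfl

/-- TASK G5f2. The augmentation ideal is generated by the differences of generators: `hA.min` for the ring of
the `z ∈ A` with `resA z - z ∈ J` (as `l6_N` in QD/Around.lean; for the inverse `b` of `a`:
`τ b - b = - b τ b (τ a - a)`). -/
theorem Around.diff_mem (hA : Around ι x Λ D i A) (hst : ∀ a ∈ A, τF a ∈ A) (J : Ideal A)
    (h1 : ∀ c (hc : c ∈ Λ), resA τF A hst ⟨ι c, hA.lam c hc⟩ - ⟨ι c, hA.lam c hc⟩ ∈ J)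
    (h2 : ∀ k, resA τF A hst ⟨ι (x k) / ι (x i), hA.coord k⟩ -
      ⟨ι (x k) / ι (x i), hA.coord k⟩ ∈ J) (a : A) : resA τF A hst a - a ∈ J := by
  obtain ⟨N', hN'⟩ : ∃ N' : Subring A, N' = RingHom.eqLocus
      ((Ideal.Quotient.mk J).comp (resA τF A hst)) (Ideal.Quotient.mk J) := ⟨_, rfl⟩
  have hmem : ∀ y : A, y ∈ N' ↔ resA τF A hst y - y ∈ J := by
    intro y
    rw [hN', RingHom.mem_eqLocus, ← Ideal.Quotient.eq]
    rfl
  have hle : A ≤ N'.map A.subtype := by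
    refine hA.min _ ?_ ?_ ?_ ?_
    · rintro _ ⟨y, -, rfl⟩
      exact y.2
    · rintro _ ⟨y, hy, rfl⟩ b hb hab
      refine ⟨⟨b, hb⟩, ?_, rfl⟩
      have hy' := (hmem y).1 hy
      have h3 : y * ⟨b, hb⟩ = 1 := Subtype.ext hab
      have h4 : resA τF A hst y * resA τF A hst ⟨b, hb⟩ = 1 := by
        rw [← map_mul, h3, map_one]
      refine (hmem _).2 ?_
      have h5 : resA τF A hst ⟨b, hb⟩ - ⟨b, hb⟩ =
          -(⟨b, hb⟩ * resA τF A hst ⟨b, hb⟩) * (resA τF A hst y - y) := by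
        linear_combination (⟨b, hb⟩ : A) * h4 - resA τF A hst ⟨b, hb⟩ * h3
      rw [h5]
      exact Ideal.mul_mem_left _ _ hy'
    · intro c hc
      exact ⟨⟨ι c, hA.lam c hc⟩, (hmem _).2 (h1 c hc), rfl⟩
    · intro k
      exact ⟨⟨ι (x k) / ι (x i), hA.coord k⟩, (hmem _).2 (h2 k), rfl⟩
  obtain ⟨y, hy, hya⟩ := hle a.2
  have h3 : y = a := Subtype.ext hya
  rw [← h3]
  exact (hmem y).1 hy
-- END G5f2

end Chart

section InField

variable {F : Type} [Field F] {D A : Subring F} {τF : F →+* F}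

-- BEGIN G5f3
/-- TASK G5f3. The quotients by a generator of the square. `u = b ^ 2 / c ∈ D` (`b ^ 2` is a combination of
products of two elements of `G`, by `hc`), and `c / b ^ 2 ∈ R'` (`c` is a combination of products of
two elements of `G`, by `hb`), so `b ^ 2 / c ∈ R'` (`hR`), `y / c = (y / b ^ 2) (b ^ 2 / c)`.
(`Submodule.mul_induction_on'`, `Submodule.span_induction`; `R'`-multiples of `b ^ 2` form an ideal of `A`.) -/
theorem sq_ratio {R' : Subring F} (hAR : A ≤ R') (hR : ∀ a ∈ R', ∀ b ∈ D, a * b = 1 → b ∈ R')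
    (hAD : A ≤ D) {G : Set A} {b c : A} (hb0 : (b : F) ≠ 0) (hc0 : (c : F) ≠ 0)
    (hbI : b ∈ Ideal.span G) (hcI : c ∈ Ideal.span G ^ 2)
    (hb : ∀ y ∈ Ideal.span G, (y : F) / b ∈ R')
    (hc : ∀ y ∈ G, ∀ y' ∈ G, ((y : F) * y') / c ∈ D) :
    ∀ y ∈ Ideal.span G ^ 2, (y : F) / c ∈ R' := by
  -- the quotients by `b ^ 2`
  have h1 : ∀ y ∈ Ideal.span G ^ 2, (y : F) / (b : F) ^ 2 ∈ R' := by
    intro y hy
    rw [pow_two] at hy
    refine Submodule.mul_induction_on hy (fun m hm n hn => ?_) (fun m n hm hn => ?_)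
    · have h2 : ((m * n : A) : F) / (b : F) ^ 2 = ((m : F) / b) * ((n : F) / b) := by
        rw [Subring.coe_mul]
        field_simp
      rw [h2]
      exact R'.mul_mem (hb m hm) (hb n hn)
    · have h2 : ((m + n : A) : F) / (b : F) ^ 2 =
          (m : F) / (b : F) ^ 2 + (n : F) / (b : F) ^ 2 := by
        rw [Subring.coe_add, add_div]
      rw [h2]
      exact R'.add_mem hm hn
  -- the products of two elements of the ideal
  have h3 : ∀ y' ∈ G, ∀ y ∈ Ideal.span G, ((y : F) * y') / c ∈ D := by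
    intro y' hy' y hy
    refine Submodule.span_induction (p := fun (y : A) _ => ((y : F) * y') / c ∈ D)
      (fun x hx => hc x hx y' hy') ?_ ?_ ?_ hy
    · have h4 : (((0 : A) : F) * (y' : F)) / c = 0 := by
        rw [Subring.coe_zero, zero_mul, zero_div]
      rw [h4]
      exact D.zero_mem
    · intro x z _ _ hx hz
      have h4 : (((x + z : A) : F) * (y' : F)) / c = ((x : F) * y') / c + ((z : F) * y') / c := by
        rw [Subring.coe_add, add_mul, add_div]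
      rw [h4]
      exact D.add_mem hx hz
    · intro r x _ hx
      have h4 : (((r • x : A) : F) * (y' : F)) / c = (r : F) * (((x : F) * y') / c) := by
        rw [smul_eq_mul, Subring.coe_mul]
        ring
      rw [h4]
      exact D.mul_mem (hAD r.2) hx
  have h5 : ∀ y ∈ Ideal.span G, ∀ y' ∈ Ideal.span G, ((y : F) * y') / c ∈ D := by
    intro y hy y' hy'
    refine Submodule.span_induction (p := fun (y' : A) _ => ((y : F) * y') / c ∈ D)
      (fun x hx => h3 x hx y hy) ?_ ?_ ?_ hy'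
    · have h4 : ((y : F) * ((0 : A) : F)) / c = 0 := by
        rw [Subring.coe_zero, mul_zero, zero_div]
      rw [h4]
      exact D.zero_mem
    · intro x z _ _ hx hz
      have h4 : ((y : F) * ((x + z : A) : F)) / c = ((y : F) * x) / c + ((y : F) * z) / c := by
        rw [Subring.coe_add, mul_add, add_div]
      rw [h4]
      exact D.add_mem hx hz
    · intro r x _ hx
      have h4 : ((y : F) * ((r • x : A) : F)) / c = (r : F) * (((y : F) * x) / c) := by
        rw [smul_eq_mul, Subring.coe_mul]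
        ring
      rw [h4]
      exact D.mul_mem (hAD r.2) hx
  have h6 : (b : F) ^ 2 / c ∈ R' := by
    refine hR _ (h1 c hcI) _ ?_ ?_
    · rw [pow_two]
      exact h5 b hbI b hbI
    · field_simp
  intro y hy
  have h7 : (y : F) / c = ((y : F) / (b : F) ^ 2) * ((b : F) ^ 2 / c) := by
    field_simp
  rw [h7]
  exact R'.mul_mem (h1 y hy) h6
-- END G5f3

-- BEGIN G5f4
/-- TASK G5f4. `local_tame_type3` (G5d) for subrings of a field. As in the proof of `local_tame` in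
QD/Around.lean let `A' = A.comap D.subtype` (isomorphic to `A`), `mk`, `hext` as there; transport the data
along the isomorphism `A' ≃+* A` (`τA' = e.symm ∘ τA ∘ e`, `G₁' = e ⁻¹' G₁`, `kT G₁' G₂'` is the preimage of
`kT G₁ G₂`: `Ideal.comap` of a product / power under a ring isomorphism, `Ideal.map_span`, `Ideal.map_mul`,
`Ideal.map_pow`, `Ideal.map_sup`). `hbd`, `hkd` are given for generators: use `kT_le` and `mulId`-like ideals. The
end (`hDτ`) as in `local_tame`. -/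
theorem local_tame_field (hloc : IsLocalRing D) (hAD : A ≤ D)
    (hdom : ∀ a ∈ A, ∀ b ∈ D, a * b = 1 → b ∈ A) [IsRegularLocalRing A]
    (hst : ∀ a ∈ A, τF a ∈ A) {η η' ϖ : A} (h : TEta (resA τF A hst) η η' ϖ)
    (hϖ : ϖ ∈ maximalIdeal A) (htriv : ∀ a, resA τF A hst a - a ∈ maximalIdeal A)
    {G₁ G₂ : Set A} (hG₁ : ∀ y ∈ G₁, resA τF A hst y = η * y)
    (hG₂ : ∀ y ∈ G₂, resA τF A hst y = η ^ 2 * y)
    (hG : ∀ a, resA τF A hst a - a ∈ Ideal.span (G₁ ∪ G₂))
    {b : A} (hb0 : (b : F) ≠ 0) (hbm : b ∈ Ideal.span (G₁ ∪ G₂))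
    (hbd : ∀ y ∈ G₁ ∪ G₂, (y : F) / b ∈ D) {k : A} (hk0 : (k : F) ≠ 0)
    (hkm : k ∈ kT G₁ G₂) (hkd₁ : ∀ y ∈ G₁, ∀ y' ∈ G₂, ((y : F) * y') / k ∈ D)
    (hkd₂ : ∀ y ∈ G₁, ∀ y' ∈ G₁, ∀ y'' ∈ G₁, ((y : F) * y' * y'') / k ∈ D)
    (hkd₃ : ∀ y ∈ G₂, ∀ y' ∈ G₂, ∀ y'' ∈ G₂, ((y : F) * y' * y'') / k ∈ D)
    (hgen : ∀ R' : Subring F, R' ≤ D → (∀ a ∈ R', ∀ b ∈ D, a * b = 1 → b ∈ R') → A ≤ R' →
      (∀ y ∈ Ideal.span (G₁ ∪ G₂), (y : F) / b ∈ R') → (∀ y ∈ kT G₁ G₂, (y : F) / k ∈ R') →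
      D ≤ R') :
    IsRegularLocalRing D ∧ ((∀ z ∈ D, τF z ∈ D) → Principal τF D) := by
  classical
  -- the subring `A'` of `D`
  obtain ⟨A', hA'⟩ : ∃ A' : Subring D, A' = A.comap D.subtype := ⟨_, rfl⟩
  have hmem : ∀ z : D, z ∈ A' ↔ (z : F) ∈ A := by
    intro z
    rw [hA']
    rfl
  let E : A →+* A' := (Subring.inclusion hAD).codRestrict A' fun a => (hmem _).2 a.2
  have hE : ∀ a : A, (((E a : A') : D) : F) = a := fun _ => rfl
  have hext : ∀ a b : A', (((a : A') : D) : F) = ((b : D) : F) → a = b := fun a b hab =>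
    Subtype.ext (Subtype.ext hab)
  have hEinj : Function.Injective E := fun a b hab => by
    apply Subtype.ext
    rw [← hE a, ← hE b, hab]
  have hEsurj : Function.Surjective E := fun a => ⟨⟨((a : D) : F), (hmem _).1 a.2⟩, hext _ _ rfl⟩
  let e : A ≃+* A' := RingEquiv.ofBijective E ⟨hEinj, hEsurj⟩
  have he : ∀ a, e a = E a := fun _ => rfl
  have hregA' : IsRegularLocalRing A' := IsRegularLocalRing.of_ringEquiv e
  let τA : A' →+* A' := E.comp ((resA τF A hst).comp (e.symm : A' →+* A))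
  have hτE : ∀ a, τA (E a) = E (resA τF A hst a) := by
    intro a
    change E (resA τF A hst (e.symm (e a))) = _
    rw [e.symm_apply_apply]
  have hunit : ∀ a : A, IsUnit (E a) ↔ IsUnit a := fun a => isUnit_map_iff e a
  have hmax : ∀ a : A, a ∈ maximalIdeal A → E a ∈ maximalIdeal A' := by
    intro a ha
    rw [IsLocalRing.mem_maximalIdeal, mem_nonunits_iff] at ha ⊢
    rwa [hunit]
  have h' : TEta τA (E η) (E η') (E ϖ) := by
    refine ⟨fun a => ?_, ?_, ?_, ?_, ?_, ?_, ?_, ?_, ?_⟩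
    · obtain ⟨a, rfl⟩ := hEsurj a
      rw [hτE, hτE, hτE, h.cube]
    · rw [hτE, hτE, ← map_mul, ← map_mul, h.norm, map_one]
    · rw [← map_mul, h.inv, map_one]
    · rw [← map_one E, ← map_sub]; exact h.sub.map E
    · rw [← map_one E, ← map_add]; exact h.add.map E
    · obtain ⟨a, ha⟩ := h.quad
      exact ⟨E a, by rw [← map_pow, ← map_add, ← map_one E, ← map_add, ha, map_mul]⟩
    · rw [hτE, h.unif, map_mul]
    · have h3 := h.three.map E
      rwa [map_ofNat] at h3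
    · obtain ⟨a, ha⟩ := h.map
      exact ⟨E a, by rw [hτE, ← map_sub, ha, map_mul]⟩
  have hspan : Ideal.span (E '' G₁ ∪ E '' G₂) = (Ideal.span (G₁ ∪ G₂)).map E := by
    rw [Ideal.map_span, Set.image_union]
  have hkT : kT (E '' G₁) (E '' G₂) = (kT G₁ G₂).map E := by
    unfold kT
    rw [Ideal.map_sup, Ideal.map_sup, Ideal.map_mul, Ideal.map_pow, Ideal.map_pow, Ideal.map_span,
      Ideal.map_span]
  have hmap : ∀ (I : Ideal A) (y : A'), y ∈ I.map E → ∃ x ∈ I, E x = y := fun I y hy =>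
    (Ideal.mem_map_iff_of_surjective E hEsurj).1 hy
  have hbI : Ideal.span (G₁ ∪ G₂) ≤ mulId D hAD (b : F) := by
    rw [Ideal.span_le]
    intro y hy
    exact ⟨_, hbd y hy, by field_simp⟩
  have hkI : kT G₁ G₂ ≤ mulId D hAD (k : F) := by
    refine kT_le (fun y hy y' hy' => ⟨_, hkd₁ y hy y' hy', ?_⟩)
      (fun y hy y' hy' y'' hy'' => ⟨_, hkd₂ y hy y' hy' y'' hy'', ?_⟩)
      (fun y hy y' hy' y'' hy'' => ⟨_, hkd₃ y hy y' hy' y'' hy'', ?_⟩)
    · push_cast
      field_simp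
    · push_cast
      field_simp
    · push_cast
      field_simp
  have hdvd : ∀ {p y : A} {q : F} (hq : q ∈ D), (y : F) = (p : F) * q →
      ((E p : A') : D) * ⟨q, hq⟩ = ((E y : A') : D) := by
    intro p y q hq hy
    apply Subtype.ext
    change (p : F) * q = y
    exact hy.symm
  have hdomA' : Dom A' := by
    intro a ha c hac
    rw [hmem] at ha ⊢
    exact hdom _ ha _ c.2 (congrArg Subtype.val hac)
  have hmain := local_tame_type3 (D := D) (A := A') (τA := τA) (η := E η) (η' := E η')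
    (ϖ := E ϖ) h' hdomA' (hmax ϖ hϖ) ?_ (G₁ := E '' G₁) (G₂ := E '' G₂) ?_ ?_ ?_
    (b := E b) ?_ ?_ ?_ (k := E k) ?_ ?_ ?_ ?_
  · obtain ⟨hm1, hm2⟩ := hmain
    refine ⟨hm1, fun hDτ => ?_⟩
    let τD : D →+* D := (τF.comp D.subtype).codRestrict D fun z => hDτ z z.2
    obtain ⟨y, hy1, hy2⟩ := hm2 τD (fun a => by
      obtain ⟨a, rfl⟩ := hEsurj a
      rw [hτE]
      exact Subtype.ext rfl)
    refine ⟨y, y.2, fun h0 => hy1 (Subtype.ext h0), fun z hz => ?_⟩
    obtain ⟨c, hc⟩ := hy2 ⟨z, hz⟩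
    exact ⟨c, c.2, congrArg Subtype.val hc⟩
  · intro a
    obtain ⟨a, rfl⟩ := hEsurj a
    rw [hτE, ← map_sub]
    exact hmax _ (htriv a)
  · rintro _ ⟨y, hy, rfl⟩
    rw [hτE, hG₁ y hy, map_mul]
  · rintro _ ⟨y, hy, rfl⟩
    rw [hτE, hG₂ y hy, map_mul, map_pow]
  · intro a
    obtain ⟨a, rfl⟩ := hEsurj a
    rw [hτE, ← map_sub, hspan]
    exact Ideal.mem_map_of_mem E (hG a)
  · exact fun h0 => hb0 (congrArg Subtype.val h0)
  · rw [hspan]
    exact Ideal.mem_map_of_mem E hbm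
  · intro y hy
    rw [hspan] at hy
    obtain ⟨x, hx, rfl⟩ := hmap _ _ hy
    obtain ⟨q, hq, hyq⟩ := hbI hx
    exact ⟨⟨q, hq⟩, (hdvd hq hyq).symm⟩
  · exact fun h0 => hk0 (congrArg Subtype.val h0)
  · rw [hkT]
    exact Ideal.mem_map_of_mem E hkm
  · intro y hy
    rw [hkT] at hy
    obtain ⟨x, hx, rfl⟩ := hmap _ _ hy
    obtain ⟨q, hq, hyq⟩ := hkI hx
    exact ⟨⟨q, hq⟩, (hdvd hq hyq).symm⟩
  · intro R' hRdom hAR hR1 hR2
    rw [eq_top_iff]
    rintro ⟨z, hz⟩ -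
    have h4 := hgen (R'.map D.subtype) ?_ ?_ ?_ ?_ ?_ hz
    · obtain ⟨w, hw, hwz⟩ := h4
      have h5 : w = ⟨z, hz⟩ := Subtype.ext hwz
      rwa [← h5]
    · rintro _ ⟨w, -, rfl⟩
      exact w.2
    · rintro _ ⟨a, ha, rfl⟩ c hc hac
      exact ⟨⟨c, hc⟩, hRdom a ha ⟨c, hc⟩ (Subtype.ext hac), rfl⟩
    · intro a ha
      exact ⟨⟨a, hAD ha⟩, hAR ((hmem _).2 ha), rfl⟩
    · intro y hy
      obtain ⟨q, hq, hyq⟩ := hbI hy
      refine ⟨⟨q, hq⟩, hR1 (E y) ?_ _ (hdvd hq hyq), ?_⟩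
      · rw [hspan]
        exact Ideal.mem_map_of_mem E hy
      · change q = (y : F) / b
        rw [hyq]
        field_simp
    · intro y hy
      obtain ⟨q, hq, hyq⟩ := hkI hy
      refine ⟨⟨q, hq⟩, hR2 (E y) ?_ _ (hdvd hq hyq), ?_⟩
      · rw [hkT]
        exact Ideal.mem_map_of_mem E hy
      · change q = (y : F) / k
        rw [hyq]
        field_simp
-- END G5f4

end InField

end Pool.Agent.Lib.MP_6a3dac_ag.W3
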