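import Pool.Agent.Lib.MP_6a3dac_ag.W3.G5e
import Pool.Agent.Lib.MP_6a3dac_ag.W3.G5f

/-!
# The local theorem at a tamely ramified prime, order three
-/

set_option autoImplicit false
set_option linter.unusedSectionVars false
set_option linter.unusedVariables false

namespace Pool.Agent.Lib.MP_6a3dac_ag.W3

open Pool.Agent.Lib.MP_6a3dac_ag Pool.Agent.Lib.MP_6a3dac_ag.QD IsLocalRing

section

variable {M F I : Type} [CommRing M] [Field F] {ι : M →+* F} (hι : Function.Injective ι)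
  {x : I → M} {Λ : Subring M} {D A : Subring F} {i : I} {β : ℕ → M}
  {τ : M →+* M} {τF : F →+* F} (hτ : ∀ m, τ (τ (τ m)) = m) (hτF : ∀ m, τF (ι m) = ι (τ m))
  (hτF3 : ∀ z, τF (τF (τF z)) = z) (hstar : ∀ l, ∃ l', τ (x l) = x l') {η η' ϖ : M}
  (h : TLam τ Λ η η' ϖ)

-- BEGIN G5g1
include h in
/-- TASK G5g1. The constants in `TEta.three_eq_aux` (G5a) can be taken in `Λ`: `τ η' - η' = b ϖ` with `b ∈ Λ` by
`h.diff`, `η' ^ 2 + η' + 1 = q ϖ` with `q = η' ^ 2 * c`, `c` from `h.quad`; `τ η' ∈ Λ` by `h.diff`. -/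
theorem TLam.three_eq : ∃ c₁ ∈ Λ, ∃ c₂ ∈ Λ, ∀ a, 3 * a =
    tw τ 1 a + tw τ η' a + tw τ (η' ^ 2) a + (c₁ * τ a + c₂ * τ (τ a)) * ϖ := by
  obtain ⟨b, hbm, hb⟩ := h.diff η' h.mem'
  obtain ⟨c, hcm, hc⟩ := h.quad
  have hq : η' ^ 2 + η' + 1 = (η' ^ 2 * c) * ϖ := by
    linear_combination η' ^ 2 * hc - (η * η' + 1 + η') * h.inv
  have hqm : η' ^ 2 * c ∈ Λ := Λ.mul_mem (Λ.pow_mem h.mem' 2) hcm
  have hτm : τ η' ∈ Λ := by
    have h1 : τ η' = η' + b * ϖ := by linear_combination hb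
    rw [h1]
    exact Λ.add_mem h.mem' (Λ.mul_mem hbm h.ϖmem)
  refine ⟨-(η' ^ 2 * c), Λ.neg_mem hqm,
    -((η' ^ 2 * c) * (1 - η' + η' ^ 2) + η' * b + η' ^ 2 * (τ η' + η') * b), ?_,
    fun a => TEta.three_eq_aux hb hq a⟩
  refine Λ.neg_mem (Λ.add_mem (Λ.add_mem ?_ (Λ.mul_mem h.mem' hbm)) ?_)
  · exact Λ.mul_mem hqm (Λ.add_mem (Λ.sub_mem Λ.one_mem h.mem') (Λ.pow_mem h.mem' 2))
  · exact Λ.mul_mem (Λ.mul_mem (Λ.pow_mem h.mem' 2) (Λ.add_mem hτm h.mem')) hbm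

/-- TASK G5g1. The data in the ring `A`. `sub`, `add`, `three`: the inverses lie in `A`; the identities are
images of identities in `M` (`Subtype.ext`, `resA_coe`, `hτF`, `map_mul`, ...). -/
theorem TLam.teta (hA : Around ι x Λ D i A) (hτF : ∀ m, τF (ι m) = ι (τ m))
    (hτF3 : ∀ z, τF (τF (τF z)) = z) (hst : ∀ a ∈ A, τF a ∈ A) :
    TEta (resA τF A hst) ⟨ι η, hA.lam η h.mem⟩ ⟨ι η', hA.lam η' h.mem'⟩
      ⟨ι ϖ, hA.lam ϖ h.ϖmem⟩ := by
  obtain ⟨c1, m1, h1⟩ := h.sub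
  obtain ⟨c2, m2, h2⟩ := h.add
  obtain ⟨c3, m3, h3⟩ := h.quad
  obtain ⟨c4, m4, h4⟩ := h.three
  obtain ⟨c5, m5, h5⟩ := h.diff η h.mem
  exact
    { cube := fun a => Subtype.ext (hτF3 a)
      norm := by
        apply Subtype.ext
        change ι η * τF (ι η) * τF (τF (ι η)) = 1
        rw [hτF, hτF, ← map_mul, ← map_mul, h.norm, map_one]
      inv := by
        apply Subtype.ext
        change ι η * ι η' = 1
        rw [← map_mul, h.inv, map_one]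
      sub := IsUnit.of_mul_eq_one ⟨ι c1, hA.lam c1 m1⟩ (by
        apply Subtype.ext
        change (ι η - 1) * ι c1 = 1
        rw [← map_one ι, ← map_sub, ← map_mul, h1])
      add := IsUnit.of_mul_eq_one ⟨ι c2, hA.lam c2 m2⟩ (by
        apply Subtype.ext
        change (ι η + 1) * ι c2 = 1
        rw [← map_one ι, ← map_add, ← map_mul, h2])
      quad := ⟨⟨ι c3, hA.lam c3 m3⟩, by
        apply Subtype.ext
        change ι η ^ 2 + ι η + 1 = ι c3 * ι ϖ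
        rw [← map_one ι, ← map_pow, ← map_add, ← map_add, ← map_mul, h3]⟩
      unif := by
        apply Subtype.ext
        change τF (ι ϖ) = ι η * ι ϖ
        rw [hτF, h.unif, map_mul]
      three := IsUnit.of_mul_eq_one ⟨ι c4, hA.lam c4 m4⟩ (by
        apply Subtype.ext
        change (3 : F) * ι c4 = 1
        have h6 := congrArg ι h4
        rw [map_mul, map_ofNat, map_one] at h6
        exact h6)
      map := ⟨⟨ι c5, hA.lam c5 m5⟩, by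
        apply Subtype.ext
        change τF (ι η) - ι η = ι c5 * ι ϖ
        rw [hτF, ← map_sub, ← map_mul, h5]⟩ }

/-- The forms divided by `x i` lie in every subring containing `Λ` and the coordinates. -/
theorem g5g1_form (h : TLam τ Λ η η' ϖ) {S : Subring F} (hlam : ∀ c ∈ Λ, ι c ∈ S)
    (hco : ∀ k, ι (x k) / ι (x i) ∈ S) (hstar : ∀ l, ∃ l', τ (x l) = x l') {l : M}
    (hl : l ∈ tL1 x τ η' ϖ ∪ tL2 x τ η') : ι l / ι (x i) ∈ S := by
  have hτΛ : ∀ θ ∈ Λ, τ θ ∈ Λ := by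
    intro θ hθ
    obtain ⟨d, hd, h1⟩ := h.diff θ hθ
    have h2 : τ θ = θ + d * ϖ := by linear_combination h1
    rw [h2]
    exact Λ.add_mem hθ (Λ.mul_mem hd h.ϖmem)
  have htw : ∀ θ ∈ Λ, ∀ k, ι (tw τ θ (x k)) / ι (x i) ∈ S := by
    intro θ hθ k
    obtain ⟨k', hk'⟩ := hstar k
    obtain ⟨k'', hk''⟩ := hstar k'
    have h1 : ι (tw τ θ (x k)) / ι (x i) = ι (x k) / ι (x i) + ι θ * (ι (x k') / ι (x i)) +
        ι θ * ι (τ θ) * (ι (x k'') / ι (x i)) := by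
      unfold tw
      rw [hk', hk'']
      simp only [map_add, map_mul]
      ring
    rw [h1]
    exact S.add_mem (S.add_mem (hco k) (S.mul_mem (hlam θ hθ) (hco k')))
      (S.mul_mem (S.mul_mem (hlam θ hθ) (hlam _ (hτΛ θ hθ))) (hco k''))
  rcases hl with ⟨k, rfl | rfl⟩ | ⟨k, rfl⟩
  · exact htw η' h.mem' k
  · rw [map_mul, mul_div_assoc]
    exact S.mul_mem (hlam ϖ h.ϖmem) (hco k)
  · exact htw (η' ^ 2) (Λ.pow_mem h.mem' 2) k

include h in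
/-- TASK G5g1. The forms divided by `x i` lie in `A` (`hstar`: `τ (x k) = x k'`, `τ (τ (x k)) = x k''`; `τ θ ∈ Λ` for
`θ ∈ Λ` by `h.diff`). -/
theorem form_mem (hA : Around ι x Λ D i A) (hstar : ∀ l, ∃ l', τ (x l) = x l') {l : M}
    (hl : l ∈ tL1 x τ η' ϖ ∪ tL2 x τ η') : ι l / ι (x i) ∈ A :=
  g5g1_form h hA.lam hA.coord hstar hl
-- END G5g1

-- BEGIN G5g2
include h hstar in
/-- TASK G5g2. All elements `ι b / ι (x i) ^ 3`, `b ∈ tB j`, `j = 1, 2, 3`, lie in `A` (`form_mem`, `hA.coord`). -/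
theorem tB_mem (hA : Around ι x Λ D i A) (hi : ι (x i) ≠ 0) :
    ∀ j ∈ Finset.Icc 1 3, ∀ b ∈ tB x τ η' ϖ j, ι b / ι (x i) ^ 3 ∈ A := by
  have hf : ∀ l ∈ tL1 x τ η' ϖ ∪ tL2 x τ η', ι l / ι (x i) ∈ A := fun l hl =>
    g5g1_form h hA.lam hA.coord hstar hl
  have h3 : ∀ a b c : M, ι (a * b * c) / ι (x i) ^ 3 = ι a / ι (x i) * (ι b / ι (x i)) * (ι c / ι (x i)) := by
    intro a b c
    rw [map_mul, map_mul]
    field_simp
  intro j hj b hb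
  obtain ⟨h1, h2⟩ := Finset.mem_Icc.mp hj
  have hj3 : j = 1 ∨ j = 2 ∨ j = 3 := by omega
  rcases hj3 with rfl | rfl | rfl
  · obtain ⟨l, hl, a, c, rfl⟩ := hb
    rw [← mul_assoc, h3]
    exact A.mul_mem (A.mul_mem (hf l hl) (hA.coord a)) (hA.coord c)
  · obtain ⟨l, hl, l', hl', a, rfl⟩ := hb
    rw [h3]
    exact A.mul_mem (A.mul_mem (hf l hl) (hf l' hl')) (hA.coord a)
  · rcases hb with ⟨l, hl, l', hl', a, rfl⟩ | ⟨l, hl, l', hl', l'', hl'', rfl⟩ |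
      ⟨l, hl, l', hl', l'', hl'', rfl⟩
    · rw [h3]
      exact A.mul_mem (A.mul_mem (hf l (Or.inl hl)) (hf l' (Or.inr hl'))) (hA.coord a)
    · rw [h3]
      exact A.mul_mem (A.mul_mem (hf l (Or.inl hl)) (hf l' (Or.inl hl'))) (hf l'' (Or.inl hl''))
    · rw [h3]
      exact A.mul_mem (A.mul_mem (hf l (Or.inr hl)) (hf l' (Or.inr hl'))) (hf l'' (Or.inr hl''))

include h hstar in
/-- TASK G5g2. If a form is a unit of `D` then `D = A`: `eq_of_units` (QD/Around.lean) with `δ = 3`, for `j = 1`: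
`l x_i x_i`, `j = 2`: `l l x_i`, `j = 3`: `l l l`; the inverses are powers of `w`. -/
theorem eq_of_form (hD : LocSit ι x (tB x τ η' ϖ) Λ 3 D i β) (hA : Around ι x Λ D i A)
    {l : M} (hl : l ∈ tL1 x τ η' ϖ ∪ tL2 x τ η') (hw : ∃ w ∈ D, ι l / ι (x i) * w = 1) :
    D = A := by
  obtain ⟨w, hwD, hw⟩ := hw
  have hne := hD.ne
  have h3 : ∀ a b c : M, ι (a * b * c) / ι (x i) ^ 3 = ι a / ι (x i) * (ι b / ι (x i)) * (ι c / ι (x i)) := by
    intro a b c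
    rw [map_mul, map_mul]
    field_simp
  have hxx : ι (x i) / ι (x i) = 1 := div_self hne
  refine eq_of_units hD hA (δ := 3) (tB_mem hstar h hA hne) ?_
  intro j hj
  obtain ⟨h1, h2⟩ := Finset.mem_Icc.mp hj
  have hj3 : j = 1 ∨ j = 2 ∨ j = 3 := by omega
  rcases hj3 with rfl | rfl | rfl
  · refine ⟨l * (x i * x i), ⟨l, hl, i, i, rfl⟩, w, hwD, ?_⟩
    rw [← mul_assoc, h3, hxx]
    linear_combination hw
  · refine ⟨l * l * x i, ⟨l, hl, l, hl, i, rfl⟩, w ^ 2, D.pow_mem hwD 2, ?_⟩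
    rw [h3, hxx]
    linear_combination (ι l / ι (x i) * w + 1) * hw
  · refine ⟨l * l * l, ?_, w ^ 3, D.pow_mem hwD 3, ?_⟩
    · rcases hl with hl | hl
      · exact Or.inr (Or.inl ⟨l, hl, l, hl, l, hl, rfl⟩)
      · exact Or.inr (Or.inr ⟨l, hl, l, hl, l, hl, rfl⟩)
    · rw [h3]
      linear_combination ((ι l / ι (x i) * w) ^ 2 + ι l / ι (x i) * w + 1) * hw
-- END G5g2

variable (hseg : ∀ i, ∃ a b c, τ (x a) = x a ∧ x i * τ (x i) * τ (τ (x i)) = x a * (x b * x c))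

-- BEGIN G5g3
include hτF hτF3 hstar hseg in
/-- TASK G5g3. If `D` is stable there is a chart with `τ (x a) = x a`. Let `τ (x i) = x i'`,
`ρ = ι (x i') / ι (x i) ∈ D`. Then `τF ρ, τF (τF ρ) ∈ D` and `ρ * τF ρ * τF (τF ρ) = 1`, so `ρ` is a unit of `D`, and
`(ι (x a) / ι (x i)) * ((ι (x b) / ι (x i)) * (ι (x c) / ι (x i))) = ρ ^ 2 * τF ρ`
(`ι (τ (τ (x i))) / ι (x i) = ρ * τF ρ`), whose inverse is `τF ρ * τF (τF ρ) ^ 2`. (The conjugates of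
`ι (x i) ≠ 0` are not zero.) -/
theorem exists_chart_of_stable {B : ℕ → Set M} {r : ℕ} (hD : LocSit ι x B Λ r D i β)
    (hDτ : ∀ z ∈ D, τF z ∈ D) :
    ∃ a, τ (x a) = x a ∧ ∃ w ∈ D, ι (x a) / ι (x i) * w = 1 := by
  obtain ⟨a, b, c, ha, habc⟩ := hseg i
  obtain ⟨i', hi'⟩ := hstar i
  have hX := hD.ne
  have hX1 : ι (τ (x i)) = τF (ι (x i)) := (hτF _).symm
  have hX2 : ι (τ (τ (x i))) = τF (τF (ι (x i))) := by rw [← hτF, hX1]
  have hn1 : τF (ι (x i)) ≠ 0 := (map_ne_zero τF).mpr hX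
  have hn2 : τF (τF (ι (x i))) ≠ 0 := (map_ne_zero τF).mpr hn1
  obtain ⟨X, hXd⟩ : ∃ X, X = ι (x i) := ⟨_, rfl⟩
  obtain ⟨X1, hX1d⟩ : ∃ X1, X1 = τF (ι (x i)) := ⟨_, rfl⟩
  obtain ⟨X2, hX2d⟩ : ∃ X2, X2 = τF (τF (ι (x i))) := ⟨_, rfl⟩
  have hρ : X1 / X ∈ D := by
    rw [hX1d, hXd, ← hX1, hi']
    exact hD.coord i'
  have hρ1 : X2 / X1 ∈ D := by
    have h1 := hDτ _ hρ
    rw [map_div₀, hX1d, hXd, ← hX2d, ← hX1d] at h1
    exact h1
  have hρ2 : X / X2 ∈ D := by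
    have h1 := hDτ _ hρ1
    rw [map_div₀, hX1d, hX2d, hτF3, ← hX2d, ← hXd] at h1
    exact h1
  have hprod : ι (x a) * (ι (x b) * ι (x c)) = X * X1 * X2 := by
    rw [← map_mul, ← map_mul, ← habc, map_mul, map_mul, hX1, hX2, hXd, hX1d, hX2d]
  rw [← hXd] at hX
  rw [← hX1d] at hn1
  rw [← hX2d] at hn2
  refine ⟨a, ha, (ι (x b) / X) * (ι (x c) / X) * ((X2 / X1) * (X / X2) ^ 2), ?_, ?_⟩
  · refine D.mul_mem (D.mul_mem ?_ ?_) (D.mul_mem hρ1 (D.pow_mem hρ2 2))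
    · rw [hXd]
      exact hD.coord b
    · rw [hXd]
      exact hD.coord c
  · rw [← hXd]
    field_simp
    linear_combination hprod

/-- the norm of `η'` -/
theorem g5g3_norm (h : TLam τ Λ η η' ϖ) : η' * τ η' * τ (τ η') = 1 := by
  have h1 := h.inv
  have h2 : τ η * τ η' = 1 := by rw [← map_mul, h1, map_one]
  have h3 : τ (τ η) * τ (τ η') = 1 := by rw [← map_mul, h2, map_one]
  have h4 := h.norm
  have h5 : (η * η') * (τ η * τ η') * (τ (τ η) * τ (τ η')) = 1 := by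
    rw [h1, h2, h3]
    ring
  linear_combination h5 - (η' * τ η' * τ (τ η')) * h4

include h hτF hτF3 hstar hseg in
/-- TASK G5g3. If a form is a unit and `D` is stable, the augmentation ideal is `D`. By
`exists_chart_of_stable` and `LocSit.chart` (G5f) we may assume `τ (x i) = x i` (the form stays a unit:
`ι l / ι (x a) = (ι l / ι (x i)) (ι (x i) / ι (x a))`). For `l = tw τ η' (x k)`, `z = ι l / ι (x i)`:
`τF z = ι η * z` (`tw_eig`, `h.norm`, `h.inv`), so `τF z - z = (ι η - 1) z` is a unit; `principal_of_unit`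
(QWMain.lean). For `l = ϖ x_k`: `ι ϖ` is a unit of `D`, `z = ι ϖ`. For `l = tw τ (η' ^ 2) (x k)`:
`τF z - z = ((ι η) ^ 2 - 1) z`. -/
theorem principal_of_form (hD : LocSit ι x (tB x τ η' ϖ) Λ 3 D i β)
    {l : M} (hl : l ∈ tL1 x τ η' ϖ ∪ tL2 x τ η') (hw : ∃ w ∈ D, ι l / ι (x i) * w = 1)
    (hDτ : ∀ z ∈ D, τF z ∈ D) : Principal τF D := by
  obtain ⟨a, ha, u, huD, hu⟩ := exists_chart_of_stable hτF hτF3 hstar hseg hD hDτ
  have hD' := LocSit.chart hD ⟨u, huD, hu⟩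
  obtain ⟨w, hwD, hw⟩ := hw
  have hne := hD.ne
  have hne' := hD'.ne
  -- the form in the new chart
  obtain ⟨X, hX⟩ : ∃ X, X = ι (x a) := ⟨_, rfl⟩
  have hX0 : X ≠ 0 := hX ▸ hne'
  have hXτ : τF X = X := by
    rw [hX, hτF, ha]
  have hzD : ι l / X ∈ D := by
    rw [hX]
    exact g5g1_form h hD'.lam hD'.coord hstar hl
  have hw' : ι l / X * (w * (X / ι (x i))) = 1 := by
    have h1 : ι l / X * (w * (X / ι (x i))) = ι l / ι (x i) * w := by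
      field_simp
    rw [h1, hw]
  have hw'D : w * (X / ι (x i)) ∈ D := by
    rw [hX]
    exact D.mul_mem hwD (hD.coord a)
  obtain ⟨c1, m1, h1⟩ := h.sub
  obtain ⟨c2, m2, h2⟩ := h.add
  have e1 : (ι η - 1) * ι c1 = 1 := by
    rw [← map_one ι, ← map_sub, ← map_mul, h1]
  have e2 : (ι η + 1) * ι c2 = 1 := by
    rw [← map_one ι, ← map_add, ← map_mul, h2]
  have hinv : ι η' * ι η = 1 := by
    rw [← map_mul, mul_comm, h.inv, map_one]
  have hnorm : ι η' * τF (ι η') * τF (τF (ι η')) = 1 := by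
    rw [hτF, hτF, ← map_mul, ← map_mul, g5g3_norm h, map_one]
  have htw : ∀ θ k, ι (tw τ θ (x k)) = tw τF (ι θ) (ι (x k)) := fun θ k =>
    map_tw ι (fun m => (hτF m).symm) θ (x k)
  rcases hl with ⟨k, rfl | rfl⟩ | ⟨k, rfl⟩
  · have e3 : τF (ι (tw τ η' (x k)) / X) = ι η * (ι (tw τ η' (x k)) / X) := by
      rw [map_div₀, hXτ, htw, tw_eig hτF3 hnorm hinv, mul_div_assoc]
    refine principal_of_unit τF hDτ hzD (D.mul_mem (hD.lam c1 m1) hw'D) ?_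
    rw [e3]
    linear_combination (ι (tw τ η' (x k)) / X * (w * (X / ι (x i)))) * e1 + hw'
  · have e4 : ι ϖ * ((ι (x k) / X) * (w * (X / ι (x i)))) = 1 := by
      rw [map_mul, mul_div_assoc] at hw'
      linear_combination hw'
    have hkD : ι (x k) / X ∈ D := by
      rw [hX]
      exact hD'.coord k
    refine principal_of_unit τF hDτ (hD.lam ϖ h.ϖmem)
      (D.mul_mem (hD.lam c1 m1) (D.mul_mem hkD hw'D)) ?_
    rw [hτF, h.unif, map_mul]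
    linear_combination (ι ϖ * ((ι (x k) / X) * (w * (X / ι (x i))))) * e1 + e4
  · have hnorm2 : ι (η' ^ 2) * τF (ι (η' ^ 2)) * τF (τF (ι (η' ^ 2))) = 1 := by
      simp only [map_pow]
      linear_combination (ι η' * τF (ι η') * τF (τF (ι η')) + 1) * hnorm
    have hinv2 : ι (η' ^ 2) * ι η ^ 2 = 1 := by
      rw [map_pow, ← mul_pow, hinv, one_pow]
    have e3 : τF (ι (tw τ (η' ^ 2) (x k)) / X) = ι η ^ 2 * (ι (tw τ (η' ^ 2) (x k)) / X) := by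
      rw [map_div₀, hXτ, htw, tw_eig hτF3 hnorm2 hinv2, mul_div_assoc]
    refine principal_of_unit τF hDτ hzD (D.mul_mem (D.mul_mem (hD.lam c1 m1) (hD.lam c2 m2)) hw'D) ?_
    rw [e3]
    linear_combination (ι (tw τ (η' ^ 2) (x k)) / X * (w * (X / ι (x i)))) *
      ((ι η + 1) * ι c2) * e1 + (ι (tw τ (η' ^ 2) (x k)) / X * (w * (X / ι (x i)))) * e2 + hw'
-- END G5g3

-- BEGIN G5g4
include hτ hτF hstar h in
/-- If no form is a unit, the coordinates of `x k` and `τ (x k)` agree modulo the maximal ideal. -/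
theorem g5g4_diff {B : ℕ → Set M} {r : ℕ} (hD : LocSit ι x B Λ r D i β)
    (hL : ∀ l ∈ tL1 x τ η' ϖ ∪ tL2 x τ η', ∀ w ∈ D, ι l / ι (x i) * w ≠ 1) (k k' : I)
    (hk : τ (x k) = x k') :
    haveI := hD.loc
    (⟨ι (x k') / ι (x i), hD.coord k'⟩ : D) - ⟨ι (x k) / ι (x i), hD.coord k⟩ ∈ maximalIdeal D := by
  have hloc := hD.loc
  have hX := hD.ne
  obtain ⟨k'', hk'⟩ := hstar k'
  have hfm : ∀ l (hl : l ∈ tL1 x τ η' ϖ ∪ tL2 x τ η'),
      (⟨ι l / ι (x i), g5g1_form h hD.lam hD.coord hstar hl⟩ : D) ∈ maximalIdeal D := by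
    intro l hl
    rw [mem_maximalIdeal]
    intro hu
    obtain ⟨r, hr⟩ := hu.exists_right_inv
    exact hL l hl r r.2 (congrArg (fun z : D => (z : F)) hr)
  have t1 : ∀ k, tw τ η' (x k) ∈ tL1 x τ η' ϖ ∪ tL2 x τ η' := fun k => Or.inl ⟨k, Or.inl rfl⟩
  have t2 : ∀ k, tw τ (η' ^ 2) (x k) ∈ tL1 x τ η' ϖ ∪ tL2 x τ η' := fun k => Or.inr ⟨k, rfl⟩
  have hϖ : (⟨ι ϖ, hD.lam ϖ h.ϖmem⟩ : D) ∈ maximalIdeal D := by
    have h1 := hfm (ϖ * x i) (Or.inl ⟨i, Or.inr rfl⟩)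
    have h2 : (⟨ι (ϖ * x i) / ι (x i), g5g1_form h hD.lam hD.coord hstar
        (Or.inl ⟨i, Or.inr rfl⟩)⟩ : D) = ⟨ι ϖ, hD.lam ϖ h.ϖmem⟩ := by
      apply Subtype.ext
      change ι (ϖ * x i) / ι (x i) = ι ϖ
      rw [map_mul, mul_div_assoc, div_self hX, mul_one]
    rwa [h2] at h1
  obtain ⟨c₁, m₁, c₂, m₂, hc⟩ := h.three_eq
  obtain ⟨c₃, m₃, h3⟩ := h.three
  have e1 := hc (x k)
  have e2 := hc (x k')
  have hkk : τ (τ (x k')) = x k := by rw [← hk, hτ]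
  have e3 : τ (x k'') = x k := by rw [← hk', hkk]
  rw [hk, hk', tw_one, hk, hk'] at e1
  rw [hk', e3, tw_one, hk', e3] at e2
  have e4 := congrArg ι e1
  have e5 := congrArg ι e2
  simp only [map_add, map_mul, map_ofNat] at e4 e5
  have e6 : (3 : F) * ι c₃ = 1 := by
    have h6 := congrArg ι h3
    rw [map_mul, map_ofNat, map_one] at h6
    exact h6
  have key : (⟨ι (x k') / ι (x i), hD.coord k'⟩ : D) - ⟨ι (x k) / ι (x i), hD.coord k⟩ =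
      ⟨ι c₃, hD.lam c₃ m₃⟩ *
        ((⟨ι (tw τ η' (x k')) / ι (x i), g5g1_form h hD.lam hD.coord hstar (t1 k')⟩ : D) -
          ⟨ι (tw τ η' (x k)) / ι (x i), g5g1_form h hD.lam hD.coord hstar (t1 k)⟩ +
          (⟨ι (tw τ (η' ^ 2) (x k')) / ι (x i), g5g1_form h hD.lam hD.coord hstar (t2 k')⟩ -
            ⟨ι (tw τ (η' ^ 2) (x k)) / ι (x i), g5g1_form h hD.lam hD.coord hstar (t2 k)⟩) +
          (⟨ι c₁, hD.lam c₁ m₁⟩ * (⟨ι (x k'') / ι (x i), hD.coord k''⟩ - ⟨ι (x k') / ι (x i), hD.coord k'⟩) +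
            ⟨ι c₂, hD.lam c₂ m₂⟩ * (⟨ι (x k) / ι (x i), hD.coord k⟩ - ⟨ι (x k'') / ι (x i), hD.coord k''⟩)) *
            ⟨ι ϖ, hD.lam ϖ h.ϖmem⟩) := by
    apply Subtype.ext
    change ι (x k') / ι (x i) - ι (x k) / ι (x i) = ι c₃ *
      (ι (tw τ η' (x k')) / ι (x i) - ι (tw τ η' (x k)) / ι (x i) +
        (ι (tw τ (η' ^ 2) (x k')) / ι (x i) - ι (tw τ (η' ^ 2) (x k)) / ι (x i)) +
        (ι c₁ * (ι (x k'') / ι (x i) - ι (x k') / ι (x i)) +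
          ι c₂ * (ι (x k) / ι (x i) - ι (x k'') / ι (x i))) * ι ϖ)
    field_simp
    linear_combination -(ι (x k') - ι (x k)) * e6 + ι c₃ * (e5 - e4)
  rw [key]
  refine Ideal.mul_mem_left _ _ (Ideal.add_mem _ (Ideal.add_mem _
    (Ideal.sub_mem _ (hfm _ (t1 k')) (hfm _ (t1 k))) (Ideal.sub_mem _ (hfm _ (t2 k')) (hfm _ (t2 k))))
    (Ideal.mul_mem_left _ _ hϖ))

include hτ hτF hstar h hseg in
/-- TASK G5g4. If no form is a unit there is a chart with `τ (x a) = x a`. All the `ι l / ι (x i)`, `l` a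
form, and `ι ϖ` (`ϖ x_i / x_i`) lie in the maximal ideal of `D`. `h.three_eq` for `a = x k` and for
`a = x k' = τ (x k)`: the traces `tw τ 1` of both are equal, so
`3 (ι (x k') / ι (x i) - ι (x k) / ι (x i))` lies in the maximal ideal, and `3` is a unit:
`ι (τ (x k)) / ι (x i) - ι (x k) / ι (x i) ∈ 𝔪`. For `k = i`, `k = i'` (`x i' = τ (x i)`): `ι (τ (x i)) / ι (x i)` and
`ι (τ (τ (x i))) / ι (x i)` are `1` modulo `𝔪`, so `(ι (x a) / ι (x i)) * ((ι (x b) / ι (x i)) * (ι (x c) / ι (x i)))`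
is a unit. -/
theorem exists_chart_of_fixed {B : ℕ → Set M} {r : ℕ} (hD : LocSit ι x B Λ r D i β)
    (hL : ∀ l ∈ tL1 x τ η' ϖ ∪ tL2 x τ η', ∀ w ∈ D, ι l / ι (x i) * w ≠ 1) :
    ∃ a, τ (x a) = x a ∧ ∃ w ∈ D, ι (x a) / ι (x i) * w = 1 := by
  obtain ⟨a, b, c, ha, habc⟩ := hseg i
  have hloc := hD.loc
  have hX := hD.ne
  obtain ⟨i', hi'⟩ := hstar i
  obtain ⟨i'', hi''⟩ := hstar i'
  have h1 := g5g4_diff hτ hτF hstar h hD hL i i' hi'
  have h2 := g5g4_diff hτ hτF hstar h hD hL i' i'' hi''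
  have hone : (⟨ι (x i) / ι (x i), hD.coord i⟩ : D) = 1 := Subtype.ext (div_self hX)
  obtain ⟨u, hu⟩ : ∃ u : D, u = ⟨ι (x i') / ι (x i), hD.coord i'⟩ := ⟨_, rfl⟩
  obtain ⟨v, hv⟩ : ∃ v : D, v = ⟨ι (x i'') / ι (x i), hD.coord i''⟩ := ⟨_, rfl⟩
  rw [hone, ← hu] at h1
  rw [← hu, ← hv] at h2
  have hunit : ∀ z : D, z - 1 ∈ maximalIdeal D → IsUnit z := by
    intro z hz
    by_contra hcon
    have h4 : z ∈ maximalIdeal D := (mem_maximalIdeal z).mpr hcon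
    have h5 : (1 : D) ∈ maximalIdeal D := by
      have h6 := Ideal.sub_mem _ h4 hz
      have h7 : z - (z - 1) = 1 := by ring
      rwa [h7] at h6
    exact (Ideal.ne_top_iff_one _).mp (maximalIdeal.isMaximal D).ne_top h5
  have h3 : v - 1 ∈ maximalIdeal D := by
    have h6 := Ideal.add_mem _ h2 h1
    have h7 : v - u + (u - 1) = v - 1 := by ring
    rwa [h7] at h6
  obtain ⟨r, hr⟩ := (hunit u h1).exists_right_inv
  obtain ⟨s, hs⟩ := (hunit v h3).exists_right_inv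
  have hprod : ι (x i) * ι (x i') * ι (x i'') = ι (x a) * (ι (x b) * ι (x c)) := by
    rw [← map_mul, ← map_mul, ← map_mul, ← map_mul, ← habc, hi', hi'']
  have hr' : ι (x i') / ι (x i) * (r : F) = 1 := by
    have h8 := congrArg (fun z : D => (z : F)) hr
    rw [hu] at h8
    exact h8
  have hs' : ι (x i'') / ι (x i) * (s : F) = 1 := by
    have h8 := congrArg (fun z : D => (z : F)) hs
    rw [hv] at h8
    exact h8
  refine ⟨a, ha, (ι (x b) / ι (x i)) * (ι (x c) / ι (x i)) * ((r : F) * s),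
    D.mul_mem (D.mul_mem (hD.coord b) (hD.coord c)) (D.mul_mem r.2 s.2), ?_⟩
  have h9 : ι (x a) / ι (x i) * ((ι (x b) / ι (x i)) * (ι (x c) / ι (x i)) * ((r : F) * s)) =
      (ι (x i') / ι (x i) * (r : F)) * (ι (x i'') / ι (x i) * (s : F)) := by
    field_simp
    linear_combination -((r : F) * s) * hprod
  rw [h9, hr', hs', one_mul]
-- END G5g4

-- BEGIN G5g5
/-- Nonunits of a subring. -/
def g5g5_Nu {F : Type} [Field F] (D : Subring F) (z : F) : Prop := z ∈ D ∧ ∀ w ∈ D, z * w ≠ 1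

theorem g5g5_iff {F : Type} [Field F] {D : Subring F} [IsLocalRing D] {z : F} (hz : z ∈ D) :
    g5g5_Nu D z ↔ (⟨z, hz⟩ : D) ∈ maximalIdeal D := by
  rw [mem_maximalIdeal, mem_nonunits_iff]
  constructor
  · rintro ⟨-, h⟩ hu
    obtain ⟨w, hw⟩ := hu.exists_right_inv
    exact h w w.2 (congrArg Subtype.val hw)
  · intro h
    refine ⟨hz, fun w hw h1 => h ?_⟩
    exact IsUnit.of_mul_eq_one ⟨w, hw⟩ (Subtype.ext h1)

theorem g5g5_add {F : Type} [Field F] {D : Subring F} (hD : IsLocalRing D) {a b : F}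
    (ha : g5g5_Nu D a) (hb : g5g5_Nu D b) : g5g5_Nu D (a + b) := by
  rw [g5g5_iff (D.add_mem ha.1 hb.1)]
  exact Ideal.add_mem _ ((g5g5_iff ha.1).1 ha) ((g5g5_iff hb.1).1 hb)

theorem g5g5_sub {F : Type} [Field F] {D : Subring F} (hD : IsLocalRing D) {a b : F}
    (ha : g5g5_Nu D a) (hb : g5g5_Nu D b) : g5g5_Nu D (a - b) := by
  rw [g5g5_iff (D.sub_mem ha.1 hb.1)]
  exact Ideal.sub_mem _ ((g5g5_iff ha.1).1 ha) ((g5g5_iff hb.1).1 hb)

theorem g5g5_mul {F : Type} [Field F] {D : Subring F} (hD : IsLocalRing D) {a c : F}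
    (hc : c ∈ D) (ha : g5g5_Nu D a) : g5g5_Nu D (c * a) := by
  rw [g5g5_iff (D.mul_mem hc ha.1)]
  exact Ideal.mul_mem_left _ (⟨c, hc⟩ : D) ((g5g5_iff ha.1).1 ha)

include hτ hτF hstar h in
/-- TASK G5g5. In a chart with `τ (x i) = x i`, if no form is a unit, `A` is stable and the action on its residue
field is trivial: `Around.stable` (G5f). For `c ∈ Λ`: `τ c - c = d ϖ`. For `f = ι (x k) / ι (x i)`:
`τF f = ι (x k') / ι (x i)`, and `τF f - f` is a nonunit as in `exists_chart_of_fixed` (all elements lie in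
`A ≤ D`; an element of `A` which is a unit of `A` is a unit of `D`). -/
theorem stable_of_forms {B : ℕ → Set M} {r : ℕ} (hD : LocSit ι x B Λ r D i β)
    (hA : Around ι x Λ D i A) (hi : τ (x i) = x i)
    (hL : ∀ l ∈ tL1 x τ η' ϖ ∪ tL2 x τ η', ∀ w ∈ D, ι l / ι (x i) * w ≠ 1) :
    (∀ a ∈ A, τF a ∈ A) ∧ ∀ a ∈ A, ∀ w ∈ A, (τF a - a) * w ≠ 1 := by
  have hloc := hD.loc
  have hi0 := hD.ne
  have hform : ∀ l ∈ tL1 x τ η' ϖ ∪ tL2 x τ η', g5g5_Nu D (ι l / ι (x i)) := fun l hl =>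
    ⟨hA.le (form_mem h hA hstar hl), hL l hl⟩
  have hϖ : g5g5_Nu D (ι ϖ) := by
    have h1 := hform (ϖ * x i) (Or.inl ⟨i, Or.inr rfl⟩)
    rwa [map_mul, mul_div_assoc, div_self hi0, mul_one] at h1
  refine Around.stable hA ?_ ?_
  · intro c hc
    obtain ⟨d, hd, hcd⟩ := h.diff c hc
    have h1 : τF (ι c) = ι c + ι d * ι ϖ := by
      rw [hτF, ← map_mul, ← hcd, map_sub]
      ring
    refine ⟨?_, fun w hw => ?_⟩
    · rw [h1]
      exact A.add_mem (hA.lam c hc) (A.mul_mem (hA.lam d hd) (hA.lam ϖ h.ϖmem))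
    · have h2 : τF (ι c) - ι c = ι d * ι ϖ := by rw [h1]; ring
      rw [h2]
      exact (g5g5_mul hloc (hA.le (hA.lam d hd)) hϖ).2 w (hA.le hw)
  · intro k
    obtain ⟨k₁, hk₁⟩ := hstar k
    obtain ⟨k₂, hk₂⟩ := hstar k₁
    have hk₃ : τ (x k₂) = x k := by rw [← hk₂, ← hk₁, hτ]
    have h1 : τF (ι (x k) / ι (x i)) = ι (x k₁) / ι (x i) := by
      rw [map_div₀, hτF, hτF, hk₁, hi]
    rw [h1]
    refine ⟨hA.coord k₁, fun w hw => ?_⟩
    obtain ⟨c₁, hc₁, c₂, hc₂, hc⟩ := h.three_eq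
    have e1 := hc (x k)
    have e2 := hc (x k₁)
    have e3 : tw τ 1 (x k₁) = tw τ 1 (x k) := by
      rw [tw_one, tw_one, hk₂, hk₃, hk₁, hk₂]
      ring
    rw [e3, hk₂, hk₃] at e2
    rw [hk₁, hk₂] at e1
    obtain ⟨c₃, hc₃, e4⟩ := h.three
    have e5 : x k₁ - x k = c₃ * ((tw τ η' (x k₁) - tw τ η' (x k)) +
        (tw τ (η' ^ 2) (x k₁) - tw τ (η' ^ 2) (x k)) +
        (c₁ * (x k₂ - x k₁) + c₂ * (x k - x k₂)) * ϖ) := by
      linear_combination c₃ * e2 - c₃ * e1 - (x k₁ - x k) * e4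
    have e6 : ι (x k₁) / ι (x i) - ι (x k) / ι (x i) = ι c₃ *
        (((ι (tw τ η' (x k₁)) / ι (x i) - ι (tw τ η' (x k)) / ι (x i)) +
        (ι (tw τ (η' ^ 2) (x k₁)) / ι (x i) - ι (tw τ (η' ^ 2) (x k)) / ι (x i))) +
        (ι c₁ * (ι (x k₂) / ι (x i) - ι (x k₁) / ι (x i)) +
          ι c₂ * (ι (x k) / ι (x i) - ι (x k₂) / ι (x i))) * ι ϖ) := by
      have e7 := congrArg ι e5
      simp only [map_sub, map_mul, map_add] at e7
      rw [← sub_div, e7]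
      ring
    have hΛD : ∀ c ∈ Λ, ι c ∈ D := hD.lam
    have hcD : ∀ k, ι (x k) / ι (x i) ∈ D := hD.coord
    have h1' : ∀ k, g5g5_Nu D (ι (tw τ η' (x k)) / ι (x i)) := fun k =>
      hform _ (Or.inl ⟨k, Or.inl rfl⟩)
    have h2' : ∀ k, g5g5_Nu D (ι (tw τ (η' ^ 2) (x k)) / ι (x i)) := fun k =>
      hform _ (Or.inr ⟨k, rfl⟩)
    have e8 : g5g5_Nu D (ι (x k₁) / ι (x i) - ι (x k) / ι (x i)) := by
      rw [e6]
      refine g5g5_mul hloc (hΛD _ hc₃) (g5g5_add hloc (g5g5_add hloc (g5g5_sub hloc (h1' _) (h1' _))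
        (g5g5_sub hloc (h2' _) (h2' _))) (g5g5_mul hloc ?_ hϖ))
      exact D.add_mem (D.mul_mem (hΛD _ hc₁) (D.sub_mem (hcD _) (hcD _)))
        (D.mul_mem (hΛD _ hc₂) (D.sub_mem (hcD _) (hcD _)))
    exact e8.2 w (hA.le hw)
-- END G5g5

/-- The eigenvectors of the first kind in `A`. -/
def gA1 (ι : M →+* F) (x : I → M) (τ : M →+* M) (η' ϖ : M) (A : Subring F) (i : I) : Set A :=
  {y | (y : F) = ι ϖ ∨ ∃ k, (y : F) = ι (tw τ η' (x k)) / ι (x i)}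

/-- The eigenvectors of the second kind in `A`. -/
def gA2 (ι : M →+* F) (x : I → M) (τ : M →+* M) (η' : M) (A : Subring F) (i : I) : Set A :=
  {y | ∃ k, (y : F) = ι (tw τ (η' ^ 2) (x k)) / ι (x i)}

-- BEGIN G5g6
include h hτ hτF in
/-- TASK G5g6. The eigenvectors (`tw_eig`, `τ (x i) = x i`, `h.unif`). -/
theorem gA1_eig (hA : Around ι x Λ D i A) (hst : ∀ a ∈ A, τF a ∈ A) (hi : τ (x i) = x i) :
    ∀ y ∈ gA1 ι x τ η' ϖ A i, resA τF A hst y = ⟨ι η, hA.lam η h.mem⟩ * y := by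
  intro y hy
  apply Subtype.ext
  rw [resA_coe]
  change τF (y : F) = ι η * y
  rcases hy with hy | ⟨k, hy⟩
  · rw [hy, hτF, h.unif, map_mul]
  · rw [hy, map_div₀, hτF, hτF, hi, (h.teta_self hτ).tw1, map_mul]
    ring

include h hτ hτF in
/-- TASK G5g6. -/
theorem gA2_eig (hA : Around ι x Λ D i A) (hst : ∀ a ∈ A, τF a ∈ A) (hi : τ (x i) = x i) :
    ∀ y ∈ gA2 ι x τ η' A i, resA τF A hst y = ⟨ι η, hA.lam η h.mem⟩ ^ 2 * y := by
  intro y hy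
  apply Subtype.ext
  rw [resA_coe]
  change τF (y : F) = ι η ^ 2 * y
  obtain ⟨k, hy⟩ := hy
  rw [hy, map_div₀, hτF, hτF, hi, (h.teta_self hτ).tw2, map_mul, map_pow]
  ring

include h hτF hτF3 in
/-- TASK G5g6. The augmentation ideal of `A`: `Around.diff_mem` (G5f). For `c ∈ Λ` the difference is
`ι d ι ϖ`. For the coordinate `f = ι (x k) / ι (x i)`: `TEta.three_sub` (G5a) for `TLam.teta`, where
`tw _ η' f` is the element `ι (tw τ η' (x k)) / ι (x i)` of `gA1` (`map_tw`, `τ (x i) = x i`), and similarly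
for `η' ^ 2`; `3` is a unit of `A`. -/
theorem diff_gA (hA : Around ι x Λ D i A) (hst : ∀ a ∈ A, τF a ∈ A) (hi : τ (x i) = x i)
    (hi0 : ι (x i) ≠ 0) (a : A) :
    resA τF A hst a - a ∈ Ideal.span (gA1 ι x τ η' ϖ A i ∪ gA2 ι x τ η' A i) := by
  have hT := TLam.teta h hA hτF hτF3 hst
  have hϖJ : (⟨ι ϖ, hA.lam ϖ h.ϖmem⟩ : A) ∈
      Ideal.span (gA1 ι x τ η' ϖ A i ∪ gA2 ι x τ η' A i) :=
    Ideal.subset_span (Or.inl (Or.inl rfl))
  refine Around.diff_mem hA hst _ ?_ ?_ a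
  · intro c hc
    obtain ⟨d, hd, hcd⟩ := h.diff c hc
    have h1 : resA τF A hst ⟨ι c, hA.lam c hc⟩ - ⟨ι c, hA.lam c hc⟩ =
        ⟨ι d, hA.lam d hd⟩ * ⟨ι ϖ, hA.lam ϖ h.ϖmem⟩ := by
      apply Subtype.ext
      change τF (ι c) - ι c = ι d * ι ϖ
      rw [hτF, ← map_sub, hcd, map_mul]
    rw [h1]
    exact Ideal.mul_mem_left _ _ hϖJ
  · intro k
    have htw : ∀ (θ : M) (hθ : ι θ ∈ A), (((tw (resA τF A hst) (⟨ι θ, hθ⟩ : A)
        ⟨ι (x k) / ι (x i), hA.coord k⟩ : A)) : F) = ι (tw τ θ (x k)) / ι (x i) := by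
      intro θ hθ
      have h0 := map_tw (τ := resA τF A hst) (τ' := τF) A.subtype (fun a => rfl) (⟨ι θ, hθ⟩ : A)
        ⟨ι (x k) / ι (x i), hA.coord k⟩
      refine Eq.trans h0 ?_
      change tw τF (ι θ) (ι (x k) / ι (x i)) = _
      simp only [tw, map_div₀, hτF, hi, map_add, map_mul]
      field_simp
    obtain ⟨c, hc⟩ := hT.three_sub ⟨ι (x k) / ι (x i), hA.coord k⟩
    obtain ⟨u, hu⟩ := hT.three.exists_left_inv
    have h1 : resA τF A hst ⟨ι (x k) / ι (x i), hA.coord k⟩ -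
        ⟨ι (x k) / ι (x i), hA.coord k⟩ = u * (3 * (resA τF A hst
          ⟨ι (x k) / ι (x i), hA.coord k⟩ - ⟨ι (x k) / ι (x i), hA.coord k⟩)) := by
      rw [← mul_assoc, hu, one_mul]
    rw [h1, hc]
    refine Ideal.mul_mem_left _ _ (Ideal.add_mem _ (Ideal.add_mem _ (Ideal.mul_mem_left _ _ ?_)
      (Ideal.mul_mem_left _ _ ?_)) (Ideal.mul_mem_left _ _ hϖJ))
    · exact Ideal.subset_span (Or.inl (Or.inr ⟨k, htw η' (hA.lam η' h.mem')⟩))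
    · refine Ideal.subset_span (Or.inr ⟨k, ?_⟩)
      rw [← htw (η' ^ 2) (hA.lam _ (Λ.pow_mem h.mem' 2))]
      congr 2
      apply Subtype.ext
      change ι η' ^ 2 = ι (η' ^ 2)
      rw [map_pow]
-- END G5g6

-- BEGIN G5g7
theorem g5g7_L1 (hA : Around ι x Λ D i A) (hϖ : ϖ ∈ Λ) {l : M} (hl : l ∈ tL1 x τ η' ϖ) (y : A)
    (hy : (y : F) = ι l / ι (x i)) : y ∈ Ideal.span (gA1 ι x τ η' ϖ A i) := by
  obtain ⟨k, rfl | rfl⟩ := hl
  · exact Ideal.subset_span (Or.inr ⟨k, hy⟩)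
  · have h1 : y = ⟨ι (x k) / ι (x i), hA.coord k⟩ * ⟨ι ϖ, hA.lam ϖ hϖ⟩ := by
      apply Subtype.ext
      change (y : F) = ι (x k) / ι (x i) * ι ϖ
      rw [hy, map_mul]
      ring
    rw [h1]
    exact Ideal.mul_mem_left _ _ (Ideal.subset_span (Or.inl rfl))

theorem g5g7_L2 {l : M} (hl : l ∈ tL2 x τ η') (y : A)
    (hy : (y : F) = ι l / ι (x i)) : y ∈ Ideal.span (gA2 ι x τ η' A i) := by
  obtain ⟨k, rfl⟩ := hl
  exact Ideal.subset_span ⟨k, hy⟩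

theorem g5g7_L (hA : Around ι x Λ D i A) (hϖ : ϖ ∈ Λ) {l : M}
    (hl : l ∈ tL1 x τ η' ϖ ∪ tL2 x τ η') (y : A)
    (hy : (y : F) = ι l / ι (x i)) :
    y ∈ Ideal.span (gA1 ι x τ η' ϖ A i ∪ gA2 ι x τ η' A i) := by
  rcases hl with hl | hl
  · exact Ideal.span_mono Set.subset_union_left (g5g7_L1 hA hϖ hl y hy)
  · exact Ideal.span_mono Set.subset_union_right (g5g7_L2 hl y hy)

include h hstar in
/-- TASK G5g7. The elements of `tB 1`, `tB 2`, `tB 3` divided by `x i ^ 3` lie in the ideals (products of elements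
of `gA1`, `gA2`, and of coordinates; `ϖ x_k / x_i = ϖ (x_k / x_i)`). -/
theorem tB_sub (hA : Around ι x Λ D i A) (hi0 : ι (x i) ≠ 0) (y : A) :
    (∀ b ∈ tB x τ η' ϖ 1, (y : F) = ι b / ι (x i) ^ 3 →
      y ∈ Ideal.span (gA1 ι x τ η' ϖ A i ∪ gA2 ι x τ η' A i)) ∧
    (∀ b ∈ tB x τ η' ϖ 2, (y : F) = ι b / ι (x i) ^ 3 →
      y ∈ Ideal.span (gA1 ι x τ η' ϖ A i ∪ gA2 ι x τ η' A i) ^ 2) ∧
    (∀ b ∈ tB x τ η' ϖ 3, (y : F) = ι b / ι (x i) ^ 3 →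
      y ∈ kT (gA1 ι x τ η' ϖ A i) (gA2 ι x τ η' A i)) := by
  have hf : ∀ l ∈ tL1 x τ η' ϖ ∪ tL2 x τ η', ∃ z : A, (z : F) = ι l / ι (x i) := fun l hl =>
    ⟨⟨_, form_mem h hA hstar hl⟩, rfl⟩
  have hc : ∀ k, ∃ z : A, (z : F) = ι (x k) / ι (x i) := fun k => ⟨⟨_, hA.coord k⟩, rfl⟩
  refine ⟨?_, ?_, ?_⟩
  · rintro b ⟨l, hl, i', k, rfl⟩ hy
    obtain ⟨z, hz⟩ := hf l hl
    obtain ⟨z₁, hz₁⟩ := hc i'
    obtain ⟨z₂, hz₂⟩ := hc k
    have h1 : y = z₁ * z₂ * z := by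
      apply Subtype.ext
      push_cast
      rw [hy, hz, hz₁, hz₂, map_mul, map_mul]
      field_simp
    rw [h1]
    exact Ideal.mul_mem_left _ _ (g5g7_L hA h.ϖmem hl z hz)
  · rintro b ⟨l, hl, l', hl', i', rfl⟩ hy
    obtain ⟨z, hz⟩ := hf l hl
    obtain ⟨z', hz'⟩ := hf l' hl'
    obtain ⟨z₁, hz₁⟩ := hc i'
    have h1 : y = z₁ * (z * z') := by
      apply Subtype.ext
      push_cast
      rw [hy, hz, hz₁, hz', map_mul, map_mul]
      field_simp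
    rw [h1, pow_two]
    exact Ideal.mul_mem_left _ _ (Ideal.mul_mem_mul (g5g7_L hA h.ϖmem hl z hz)
      (g5g7_L hA h.ϖmem hl' z' hz'))
  · rintro b (⟨l, hl, l', hl', i', rfl⟩ | ⟨l, hl, l', hl', l'', hl'', rfl⟩ |
      ⟨l, hl, l', hl', l'', hl'', rfl⟩) hy
    · obtain ⟨z, hz⟩ := hf l (Or.inl hl)
      obtain ⟨z', hz'⟩ := hf l' (Or.inr hl')
      obtain ⟨z₁, hz₁⟩ := hc i'
      have h1 : y = z₁ * (z * z') := by
        apply Subtype.ext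
        push_cast
        rw [hy, hz, hz₁, hz', map_mul, map_mul]
        field_simp
      rw [h1]
      exact Ideal.mul_mem_left _ _ (mul_mem_kT (g5g7_L1 hA h.ϖmem hl z hz) (g5g7_L2 hl' z' hz'))
    · obtain ⟨z, hz⟩ := hf l (Or.inl hl)
      obtain ⟨z', hz'⟩ := hf l' (Or.inl hl')
      obtain ⟨z'', hz''⟩ := hf l'' (Or.inl hl'')
      have h1 : y = z * z' * z'' := by
        apply Subtype.ext
        push_cast
        rw [hy, hz, hz', hz'', map_mul, map_mul]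
        field_simp
      rw [h1]
      exact cube_mem_kT (g5g7_L1 hA h.ϖmem hl z hz) (g5g7_L1 hA h.ϖmem hl' z' hz')
        (g5g7_L1 hA h.ϖmem hl'' z'' hz'')
    · obtain ⟨z, hz⟩ := hf l (Or.inr hl)
      obtain ⟨z', hz'⟩ := hf l' (Or.inr hl')
      obtain ⟨z'', hz''⟩ := hf l'' (Or.inr hl'')
      have h1 : y = z * z' * z'' := by
        apply Subtype.ext
        push_cast
        rw [hy, hz, hz', hz'', map_mul, map_mul]
        field_simp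
      rw [h1]
      exact cube_mem_kT' (g5g7_L2 hl z hz) (g5g7_L2 hl' z' hz') (g5g7_L2 hl'' z'' hz'')

/-- TASK G5g7. Conversely the generators are of this form (`ϖ = ϖ x_i / x_i`). -/
theorem tB_sup (hi0 : ι (x i) ≠ 0) :
    (∀ y ∈ gA1 ι x τ η' ϖ A i, ∃ l ∈ tL1 x τ η' ϖ, (y : F) = ι l / ι (x i)) ∧
    (∀ y ∈ gA2 ι x τ η' A i, ∃ l ∈ tL2 x τ η', (y : F) = ι l / ι (x i)) := by
  refine ⟨?_, ?_⟩
  · rintro y (hy | ⟨k, hy⟩)
    · refine ⟨ϖ * x i, ⟨i, Or.inr rfl⟩, ?_⟩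
      rw [hy, map_mul]
      field_simp
    · exact ⟨_, ⟨k, Or.inl rfl⟩, hy⟩
  · rintro y ⟨k, hy⟩
    exact ⟨_, ⟨k, rfl⟩, hy⟩
-- END G5g7

-- BEGIN G5g8
include hι h hτ hτF hτF3 hstar in
/-- TASK G5g8. **The fixed points.** `local_tame_field` (G5f) with `G₁ = gA1`, `G₂ = gA2`,
`b = ι (β 1) / ι (x i) ^ 3`, `k = ι (β 3) / ι (x i) ^ 3` (in `A` by `tB_mem`, in the ideals by `tB_sub`),
`TLam.teta`, `gA1_eig`, `gA2_eig`, `diff_gA`. `hbd`, `hkd`: by `tB_sup` the elements are `ι b' / ι (x i) ^ 3` with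
`b' = l (x_i x_i) ∈ tB 1`, `b' = l l' x_i`, `l l' l'' ∈ tB 3`; `hD.ratio`. `hgen`: `hD.gen`; the quotients for `j = 1`, `3` by
`tB_sub`, for `j = 2` by `sq_ratio` (G5f) with `c = ι (β 2) / ι (x i) ^ 3`. -/
theorem local_tame_fixed (hD : LocSit ι x (tB x τ η' ϖ) Λ 3 D i β) (hA : Around ι x Λ D i A)
    (hi : τ (x i) = x i)
    (hL : ∀ l ∈ tL1 x τ η' ϖ ∪ tL2 x τ η', ∀ w ∈ D, ι l / ι (x i) * w ≠ 1) :
    IsRegularLocalRing D ∧ ((∀ z ∈ D, τF z ∈ D) → Principal τF D) := by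
  obtain ⟨hst, hnu⟩ := stable_of_forms hτ hτF hstar h hD hA hi hL
  have hreg := hA.reg
  have hi0 := hD.ne
  have m1 : (1 : ℕ) ∈ Finset.Icc 1 3 := by simp
  have m2 : (2 : ℕ) ∈ Finset.Icc 1 3 := by simp
  have m3 : (3 : ℕ) ∈ Finset.Icc 1 3 := by simp
  have hmem := tB_mem hstar h hA hi0
  have hsub := fun y : A => tB_sub hstar h hA hi0 y
  obtain ⟨hs1, hs2⟩ := tB_sup (x := x) (τ := τ) (η' := η') (ϖ := ϖ) (A := A) hi0
  have hs : ∀ y ∈ gA1 ι x τ η' ϖ A i ∪ gA2 ι x τ η' A i, ∃ l ∈ tL1 x τ η' ϖ ∪ tL2 x τ η',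
      (y : F) = ι l / ι (x i) := by
    rintro y (hy | hy)
    · obtain ⟨l, hl, h1⟩ := hs1 y hy
      exact ⟨l, Or.inl hl, h1⟩
    · obtain ⟨l, hl, h1⟩ := hs2 y hy
      exact ⟨l, Or.inr hl, h1⟩
  have hβ1 := hD.β_mem 1 m1
  have hβ2 := hD.β_mem 2 m2
  have hβ3 := hD.β_mem 3 m3
  have hn1 := hD.β_ne 1 m1
  have hn2 := hD.β_ne 2 m2
  have hn3 := hD.β_ne 3 m3
  obtain ⟨b, hb⟩ : ∃ b : A, (b : F) = ι (β 1) / ι (x i) ^ 3 := ⟨⟨_, hmem 1 m1 _ hβ1⟩, rfl⟩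
  obtain ⟨c, hc⟩ : ∃ b : A, (b : F) = ι (β 2) / ι (x i) ^ 3 := ⟨⟨_, hmem 2 m2 _ hβ2⟩, rfl⟩
  obtain ⟨k, hk⟩ : ∃ b : A, (b : F) = ι (β 3) / ι (x i) ^ 3 := ⟨⟨_, hmem 3 m3 _ hβ3⟩, rfl⟩
  have hb0 : (b : F) ≠ 0 := by rw [hb]; exact div_ne_zero hn1 (pow_ne_zero 3 hi0)
  have hc0 : (c : F) ≠ 0 := by rw [hc]; exact div_ne_zero hn2 (pow_ne_zero 3 hi0)
  have hk0 : (k : F) ≠ 0 := by rw [hk]; exact div_ne_zero hn3 (pow_ne_zero 3 hi0)
  have hbI := (hsub b).1 _ hβ1 hb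
  have hcI := (hsub c).2.1 _ hβ2 hc
  have hkI := (hsub k).2.2 _ hβ3 hk
  refine local_tame_field (A := A) hD.loc hA.le hA.dom hst (TLam.teta h hA hτF hτF3 hst) ?_ ?_
    (G₁ := gA1 ι x τ η' ϖ A i) (G₂ := gA2 ι x τ η' A i)
    (gA1_eig hτ hτF h hA hst hi) (gA2_eig hτ hτF h hA hst hi)
    (diff_gA hτF hτF3 h hA hst hi hi0) hb0 hbI ?_ hk0 hkI ?_ ?_ ?_ ?_
  · refine (g5g5_iff (hA.lam ϖ h.ϖmem)).1 ⟨hA.lam ϖ h.ϖmem, fun w hw h1 => ?_⟩
    refine hL (ϖ * x i) (Or.inl ⟨i, Or.inr rfl⟩) w (hA.le hw) ?_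
    rw [map_mul, mul_div_assoc, div_self hi0, mul_one]
    exact h1
  · intro a
    have h1 : τF (a : F) - a ∈ A := A.sub_mem (hst a a.2) a.2
    exact (g5g5_iff h1).1 ⟨h1, fun w hw => hnu a a.2 w hw⟩
  · intro y hy
    obtain ⟨l, hl, h1⟩ := hs y hy
    have h2 := hD.ratio 1 m1 (l * (x i * x i)) ⟨l, hl, i, i, rfl⟩
    have h3 : (y : F) / b = ι (l * (x i * x i)) / ι (β 1) := by
      rw [h1, hb, map_mul, map_mul]
      field_simp
    rw [h3]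
    exact h2
  · intro y hy y' hy'
    obtain ⟨l, hl, h1⟩ := hs1 y hy
    obtain ⟨l', hl', h1'⟩ := hs2 y' hy'
    have h2 := hD.ratio 3 m3 (l * l' * x i) (Or.inl ⟨l, hl, l', hl', i, rfl⟩)
    have h3 : ((y : F) * y') / k = ι (l * l' * x i) / ι (β 3) := by
      rw [h1, h1', hk, map_mul, map_mul]
      field_simp
    rw [h3]
    exact h2
  · intro y hy y' hy' y'' hy''
    obtain ⟨l, hl, h1⟩ := hs1 y hy
    obtain ⟨l', hl', h1'⟩ := hs1 y' hy'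
    obtain ⟨l'', hl'', h1''⟩ := hs1 y'' hy''
    have h2 := hD.ratio 3 m3 (l * l' * l'') (Or.inr (Or.inl ⟨l, hl, l', hl', l'', hl'', rfl⟩))
    have h3 : ((y : F) * y' * y'') / k = ι (l * l' * l'') / ι (β 3) := by
      rw [h1, h1', h1'', hk, map_mul, map_mul]
      field_simp
    rw [h3]
    exact h2
  · intro y hy y' hy' y'' hy''
    obtain ⟨l, hl, h1⟩ := hs2 y hy
    obtain ⟨l', hl', h1'⟩ := hs2 y' hy'
    obtain ⟨l'', hl'', h1''⟩ := hs2 y'' hy''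
    have h2 := hD.ratio 3 m3 (l * l' * l'') (Or.inr (Or.inr ⟨l, hl, l', hl', l'', hl'', rfl⟩))
    have h3 : ((y : F) * y' * y'') / k = ι (l * l' * l'') / ι (β 3) := by
      rw [h1, h1', h1'', hk, map_mul, map_mul]
      field_simp
    rw [h3]
    exact h2
  · intro R' hR'D hR' hAR hR1 hR3
    refine hD.gen R' hR'D hR' (fun c hc => hAR (hA.lam c hc)) (fun k => hAR (hA.coord k)) ?_
    have key : ∀ j ∈ Finset.Icc 1 3, ∀ b' ∈ tB x τ η' ϖ j, ∀ d : F, d = ι (β j) / ι (x i) ^ 3 →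
        ι b' / ι (x i) ^ 3 / d ∈ R' → ι b' / ι (β j) ∈ R' := by
      intro j hj b' hb' d hd h1
      have h2 := hD.β_ne j hj
      have h3 : ι b' / ι (β j) = ι b' / ι (x i) ^ 3 / d := by
        rw [hd]
        field_simp
      rw [h3]
      exact h1
    intro j hj b' hb'
    have hj' : j = 1 ∨ j = 2 ∨ j = 3 := by
      rw [Finset.mem_Icc] at hj
      omega
    rcases hj' with rfl | rfl | rfl
    · exact key 1 hj b' hb' _ hb (hR1 ⟨_, hmem 1 hj b' hb'⟩ ((hsub _).1 b' hb' rfl))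
    · refine key 2 hj b' hb' _ hc (sq_ratio hAR hR' hA.le hb0 hc0 hbI hcI hR1 ?_
        ⟨_, hmem 2 hj b' hb'⟩ ((hsub _).2.1 b' hb' rfl))
      intro y hy y' hy'
      obtain ⟨l, hl, h1⟩ := hs y hy
      obtain ⟨l', hl', h1'⟩ := hs y' hy'
      have h2 := hD.ratio 2 m2 (l * l' * x i) ⟨l, hl, l', hl', i, rfl⟩
      have h3 : ((y : F) * y') / c = ι (l * l' * x i) / ι (β 2) := by
        rw [h1, h1', hc, map_mul, map_mul]
        field_simp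
      rw [h3]
      exact h2
    · exact key 3 hj b' hb' _ hk (hR3 ⟨_, hmem 3 hj b' hb'⟩ ((hsub _).2.2 b' hb' rfl))
-- END G5g8

include hι h hτ hτF hτF3 hstar hseg in
/-- **The local theorem at a tamely ramified prime**, order three. -/
theorem local_tame3 (hD : LocSit ι x (tB x τ η' ϖ) Λ 3 D i β) (hA : Around ι x Λ D i A) :
    IsRegularLocalRing D ∧ ((∀ z ∈ D, τF z ∈ D) → Principal τF D) := by
  by_cases hL : ∃ l ∈ tL1 x τ η' ϖ ∪ tL2 x τ η', ∃ w ∈ D, ι l / ι (x i) * w = 1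
  · obtain ⟨l, hl, hw⟩ := hL
    refine ⟨?_, fun hDτ => principal_of_form hτF hτF3 hstar h hseg hD hl hw hDτ⟩
    rw [eq_of_form hstar h hD hA hl hw]
    exact hA.reg
  · push Not at hL
    obtain ⟨a, ha, hw⟩ := exists_chart_of_fixed hτ hτF hstar h hseg hD hL
    refine local_tame_fixed hι hτ hτF hτF3 hstar h (LocSit.chart hD hw) (Around.chart hD hA hw) ha ?_
    intro l hl w' hw' h1
    obtain ⟨w, hwD, h2⟩ := hw
    have hi0 := hD.ne
    have ha0 : ι (x a) ≠ 0 := by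
      intro h3
      rw [h3, zero_div, zero_mul] at h2
      exact zero_ne_one h2
    refine hL l hl (w * w') (D.mul_mem hwD hw') ?_
    have h3 : w = ι (x i) / ι (x a) := by
      field_simp at h2 ⊢
      linear_combination h2
    rw [← h1, h3]
    field_simp

end

end Pool.Agent.Lib.MP_6a3dac_ag.W3
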