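import Pool.Agent.Lib.MP_6a3dac_ag.W3.G4c
import Pool.Agent.Lib.MP_6a3dac_ag.W3.G5g

/-!
# Tamely ramified primes of a cyclic cubic extension: the centres and the local theorem
-/

set_option autoImplicit false
set_option linter.unusedSectionVars false
set_option linter.unusedVariables false

namespace Pool.Agent.Lib.MP_6a3dac_ag.W3

open Pool.Agent.Lib.MP_6a3dac_ag Pool.Agent.Lib.MP_6a3dac_ag.QD

variable {R O L M F I : Type} [CommRing R] [CommRing O] [IsDedekindDomain O] [Algebra R O]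
  [Field L] [Algebra R L] [Algebra O L] [IsScalarTower R O L] [CommRing M] [IsDomain M]
  [Algebra L M] [Algebra R M] [IsScalarTower R L M] {ℳ : ℕ → Submodule L M} [GradedAlgebra ℳ]
  [Field F] [Finite I]

/-- **The centres at a tamely ramified prime.** -/
theorem exists_cent_tame3 {σ : O →+* O} (h : CubExt R O σ)
    (hOL : Function.Injective (algebraMap O L)) {τ : M →+* M}
    (hτO : ∀ c, τ (oM O L M c) = oM O L M (σ c)) (hτ : ∀ m, τ (τ (τ m)) = m)
    (hτgr : ∀ n m, m ∈ ℳ n → τ m ∈ ℳ n) {ι : M →+* F} (hι : Function.Injective ι) {τF : F →+* F}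
    (hτF : ∀ m, τF (ι m) = ι (τ m)) (hτF3 : ∀ z, τF (τF (τF z)) = z) {x : I → M}
    (hxdeg : ∀ i, x i ∈ ℳ 1) (hstar : ∀ l, ∃ l', τ (x l) = x l')
    (hseg : ∀ i, ∃ a b c, τ (x a) = x a ∧ x i * τ (x i) * τ (τ (x i)) = x a * (x b * x c))
    (p : Ideal R) [hpm : p.IsMaximal] [Finite (R ⧸ p)] (hp0 : p ≠ ⊥) (hU : ¬ UnramAt3 σ p)
    (h3 : ∃ c ∈ lamP O L M p, (3 : M) * c = 1) :
    ∃ (ϖ : O) (δ r : ℕ) (B : ℕ → Set M), Cent ℳ x τ p ϖ δ r B ∧
      ∀ (D A : Subring F) (i : I) (β : ℕ → M), LocSit ι x B (lamP O L M p) r D i β →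
        Around ι x (lamP O L M p) D i A →
          IsRegularLocalRing D ∧ ((∀ z ∈ D, τF z ∈ D) → Principal τF D) := by
  have hRL : Function.Injective (algebraMap R L) := by
    rw [IsScalarTower.algebraMap_eq R O L]
    exact hOL.comp h.inj
  obtain ⟨𝔓, h𝔓, hp⟩ := h.exists_prime_over p
  obtain ⟨ϖ, s, hR, -⟩ := exists_ram3 (L := L) (M := M) h hRL hτO p hOL hp0 hU hp
  have hϖ : oM O L M ϖ ≠ 0 := by
    intro h0
    have h1 : algebraMap L M (algebraMap O L ϖ) = 0 := h0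
    rw [map_eq_zero_iff _ (algebraMap L M).injective, map_eq_zero_iff _ hOL] at h1
    exact hR.ϖ0 h1
  obtain rfl : s = 1 := Ram.eq_one3 hR hϖ hτ h3
  obtain ⟨η, η', hT⟩ := Ram.exists_tlam hR hϖ hτ h3
  exact ⟨ϖ, 3, 3, tB x τ η' (oM O L M ϖ), cent_tB hT hR.ϖ0 hτ hτgr hxdeg hstar,
    fun D A i β hD hA => local_tame3 hι hτ hτF hτF3 hstar hT hseg hD hA⟩

end Pool.Agent.Lib.MP_6a3dac_ag.W3
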