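import Pool.Agent.Lib.MP_6a3dac_ag.W3.T1

/-!
# The multihomogeneous coordinate ring is a domain
-/

set_option autoImplicit false

namespace Pool.Agent.Lib.MP_6a3dac_ag.W3

open MvPolynomial TensorProduct Pool.Agent.Lib.MP_6a3dac_ag

section Dom

variable {O N : Type} [CommRing O] [Field N] {n : ℕ} (𝔟 : Ideal (MvPolynomial (Fin n) O))

/-- The ideal is geometrically prime. -/
def GeomPrime : Prop :=
  ∀ (k : Type) [Field k] (φ : O →+* k), Function.Injective φ →
    (𝔟.map (MvPolynomial.map φ)).IsPrime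

variable {𝔟}

theorem isDomain_tensor (hgeom : GeomPrime 𝔟) (ψ₀ : O →+* N) (hψ : Function.Injective ψ₀)
    (A : Type) [CommRing A] [IsDomain A] [Algebra N A] :
    IsDomain ((MvPolynomial (Fin n) N ⧸ 𝔟.map (MvPolynomial.map ψ₀)) ⊗[N] A) := by
  let S := MvPolynomial (Fin n) N ⧸ 𝔟.map (MvPolynomial.map ψ₀)
  obtain ⟨γ, hγ⟩ := exists_injective_tensor (A := S) (FractionRing A) ψ₀ 𝔟
    (Ideal.Quotient.mkₐ N (𝔟.map (MvPolynomial.map ψ₀))) (Ideal.Quotient.mkₐ_surjective N _)
    (Ideal.Quotient.mkₐ_ker N _)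
  have hp : (𝔟.map (MvPolynomial.map ((algebraMap N (FractionRing A)).comp ψ₀))).IsPrime :=
    hgeom (FractionRing A) _ ((algebraMap N (FractionRing A)).injective.comp hψ)
  have h1 : IsDomain (S ⊗[N] FractionRing A) := hγ.isDomain γ
  let lin : S ⊗[N] A →ₐ[N] S ⊗[N] (FractionRing A) :=
    Algebra.TensorProduct.map (AlgHom.id N _) (IsScalarTower.toAlgHom N A (FractionRing A))
  have hlin : Function.Injective lin :=
    injective_map_id _ (IsFractionRing.injective A (FractionRing A))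
  exact hlin.isDomain lin.toRingHom

theorem exists_injective_option {Φ : Type} (𝔟 : Ideal (MvPolynomial (Fin n) O))
    (ψ : Option Φ → O →+* N) :
    ∃ γ : MultRing ψ 𝔟 →+* (MvPolynomial (Fin n) N ⧸ 𝔟.map (MvPolynomial.map (ψ none))) ⊗[N]
      MultRing (fun φ => ψ (some φ)) 𝔟, Function.Injective γ := by
  obtain ⟨I, hI⟩ : ∃ I, I = 𝔟.map (MvPolynomial.map (ψ none)) := ⟨_, rfl⟩
  rw [← hI]
  let T := (MvPolynomial (Fin n) N ⧸ I) ⊗[N] MultRing (fun φ => ψ (some φ)) 𝔟
  let incL : (MvPolynomial (Fin n) N ⧸ I) →ₐ[N] T := Algebra.TensorProduct.includeLeft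
  let incR : MultRing (fun φ => ψ (some φ)) 𝔟 →ₐ[N] T := Algebra.TensorProduct.includeRight
  let η : Option Φ → Fin n → T := fun φ k =>
    match φ with
    | none => incL (Ideal.Quotient.mk _ (X k))
    | some φ => incR (cl _ 𝔟 φ k)
  obtain ⟨α, hα⟩ := exists_theta ψ 𝔟 (T := T) η (by
    rintro (_ | φ) f hf
    · have h : eval₂Hom ((algebraMap N T).comp (ψ none)) (η none) =
          (incL.toRingHom.comp (Ideal.Quotient.mk I)).comp (MvPolynomial.map (ψ none)) := by
        apply MvPolynomial.ringHom_ext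
        · intro r
          simp only [coe_eval₂Hom, eval₂_C, RingHom.comp_apply, map_C]
          exact (incL.commutes (ψ none r)).symm
        · intro i
          simp only [coe_eval₂Hom, eval₂_X, RingHom.comp_apply, map_X]
          rfl
      have h2 := RingHom.congr_fun h f
      rw [coe_eval₂Hom] at h2
      rw [h2, RingHom.comp_apply, RingHom.comp_apply]
      have h3 : Ideal.Quotient.mk I (MvPolynomial.map (ψ none) f) = 0 := by
        rw [Ideal.Quotient.eq_zero_iff_mem, hI]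
        exact Ideal.mem_map_of_mem _ hf
      rw [h3, map_zero]
    · have h : eval₂Hom ((algebraMap N T).comp (ψ (some φ))) (η (some φ)) =
          (incR.toRingHom.comp (Ideal.Quotient.mk _)).comp (fHom (fun φ => ψ (some φ)) n φ) := by
        apply MvPolynomial.ringHom_ext
        · intro r
          simp only [coe_eval₂Hom, eval₂_C, RingHom.comp_apply, fHom_C]
          exact (incR.commutes (ψ (some φ) r)).symm
        · intro i
          simp only [coe_eval₂Hom, eval₂_X, RingHom.comp_apply, fHom_X]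
          rfl
      have h2 := RingHom.congr_fun h f
      rw [coe_eval₂Hom] at h2
      rw [h2, RingHom.comp_apply, RingHom.comp_apply]
      have h3 : Ideal.Quotient.mk (multIdeal (fun φ => ψ (some φ)) 𝔟)
          (fHom (fun φ => ψ (some φ)) n φ f) = 0 := by
        rw [Ideal.Quotient.eq_zero_iff_mem]
        exact fHom_mem _ 𝔟 hf _
      rw [h3, map_zero])
  obtain ⟨b, hb⟩ := exists_theta (fun φ => ψ (some φ)) 𝔟 (T := MultRing ψ 𝔟)
    (fun φ k => cl ψ 𝔟 (some φ) k) (by
      intro φ f hf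
      have h : eval₂Hom ((algebraMap N (MultRing ψ 𝔟)).comp (ψ (some φ)))
          (fun k => cl ψ 𝔟 (some φ) k) =
          (Ideal.Quotient.mk (multIdeal ψ 𝔟)).comp (fHom ψ n (some φ)) := by
        apply MvPolynomial.ringHom_ext
        · intro r
          simp only [coe_eval₂Hom, eval₂_C, RingHom.comp_apply, fHom_C]
          rfl
        · intro i
          simp only [coe_eval₂Hom, eval₂_X, RingHom.comp_apply, fHom_X]
          rfl
      have h2 := RingHom.congr_fun h f
      rw [coe_eval₂Hom] at h2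
      rw [h2, RingHom.comp_apply, Ideal.Quotient.eq_zero_iff_mem]
      exact fHom_mem _ 𝔟 hf _)
  let a₀ : MvPolynomial (Fin n) N →ₐ[N] MultRing ψ 𝔟 :=
    (Ideal.Quotient.mkₐ N (multIdeal ψ 𝔟)).comp (rename fun i => (none, i))
  let a : (MvPolynomial (Fin n) N ⧸ I) →ₐ[N] MultRing ψ 𝔟 :=
    Ideal.Quotient.liftₐ _ a₀ (by
      have h1 : I ≤ RingHom.ker a₀ := by
        rw [hI, Ideal.map_le_iff_le_comap]
        intro f hf
        change Ideal.Quotient.mk _ (rename (fun i => (none, i)) (MvPolynomial.map (ψ none) f)) = 0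
        rw [Ideal.Quotient.eq_zero_iff_mem, ← fHom_eq]
        exact fHom_mem ψ 𝔟 hf _
      exact fun g hg => h1 hg)
  have ha : ∀ k, a (Ideal.Quotient.mk _ (X k)) = cl ψ 𝔟 none k := by
    intro k
    change Ideal.Quotient.mk _ (rename (fun i => (none, i)) (X k)) = _
    rw [rename_X]
    rfl
  let β := Algebra.TensorProduct.productMap a b
  refine ⟨α.toRingHom, Function.HasLeftInverse.injective ⟨β, fun z => ?_⟩⟩
  have h5 : (β.toRingHom.comp α.toRingHom) = RingHom.id _ := by
    apply multRing_hom_ext ψ 𝔟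
    · intro c
      change β (α (algebraMap N _ c)) = algebraMap N _ c
      rw [α.commutes, β.commutes]
    · rintro (_ | φ) k
      · change β (α (cl ψ 𝔟 none k)) = _
        rw [hα]
        change Algebra.TensorProduct.productMap a b ((Ideal.Quotient.mk I (X k)) ⊗ₜ 1) = _
        rw [Algebra.TensorProduct.productMap_apply_tmul, ha, map_one, mul_one]
        rfl
      · change β (α (cl ψ 𝔟 (some φ) k)) = _
        rw [hα]
        change Algebra.TensorProduct.productMap a b (1 ⊗ₜ cl _ 𝔟 φ k) = _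
        rw [Algebra.TensorProduct.productMap_apply_tmul, hb, map_one, one_mul]
        rfl
  exact RingHom.congr_fun h5 z

theorem exists_injective_equiv {Φ Φ' : Type} (e : Φ ≃ Φ') (𝔟 : Ideal (MvPolynomial (Fin n) O))
    (ψ : Φ' → O →+* N) :
    ∃ γ : MultRing ψ 𝔟 →+* MultRing (fun φ => ψ (e φ)) 𝔟, Function.Injective γ := by
  have key : ∀ {Φ₁ : Type} (ψ₁ : Φ₁ → O →+* N) (ψ' : O →+* N) (φ : Φ₁), ψ₁ φ = ψ' → ∀ f ∈ 𝔟,
      eval₂ ((algebraMap N (MultRing ψ₁ 𝔟)).comp ψ') (fun k => cl ψ₁ 𝔟 φ k) f = 0 := by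
    rintro Φ₁ ψ₁ _ φ rfl f hf
    have h : eval₂Hom ((algebraMap N (MultRing ψ₁ 𝔟)).comp (ψ₁ φ)) (fun k => cl ψ₁ 𝔟 φ k) =
        (Ideal.Quotient.mk (multIdeal ψ₁ 𝔟)).comp (fHom ψ₁ n φ) := by
      apply MvPolynomial.ringHom_ext
      · intro r
        simp only [coe_eval₂Hom, eval₂_C, RingHom.comp_apply, fHom_C]
        rfl
      · intro i
        simp only [coe_eval₂Hom, eval₂_X, RingHom.comp_apply, fHom_X]
        rfl
    have h2 := RingHom.congr_fun h f
    rw [coe_eval₂Hom] at h2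
    rw [h2, RingHom.comp_apply, Ideal.Quotient.eq_zero_iff_mem]
    exact fHom_mem _ 𝔟 hf _
  obtain ⟨α, hα⟩ := exists_theta ψ 𝔟 (T := MultRing (fun φ => ψ (e φ)) 𝔟)
    (fun φ k => cl _ 𝔟 (e.symm φ) k) (fun φ => key _ _ _ (by simp))
  obtain ⟨β, hβ⟩ := exists_theta (fun φ => ψ (e φ)) 𝔟 (T := MultRing ψ 𝔟)
    (fun φ k => cl _ 𝔟 (e φ) k) (fun φ => key _ _ _ rfl)
  refine ⟨α.toRingHom, Function.HasLeftInverse.injective ⟨β, fun z => ?_⟩⟩
  have h5 : (β.toRingHom.comp α.toRingHom) = RingHom.id _ := by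
    apply multRing_hom_ext ψ 𝔟
    · intro c
      change β (α (algebraMap N _ c)) = algebraMap N _ c
      rw [α.commutes, β.commutes]
    · intro φ k
      change β (α (cl ψ 𝔟 φ k)) = cl ψ 𝔟 φ k
      rw [hα, hβ, Equiv.apply_symm_apply]
  exact RingHom.congr_fun h5 z

/-- **The multihomogeneous coordinate ring is a domain.** -/
theorem isDomain_multRing (hgeom : GeomPrime 𝔟) {Φ : Type} [Finite Φ] (ψ : Φ → O →+* N)
    (hψ : ∀ φ, Function.Injective (ψ φ)) : IsDomain (MultRing ψ 𝔟) := by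
  revert ψ
  refine Finite.induction_empty_option (P := fun Φ : Type => ∀ ψ : Φ → O →+* N,
    (∀ φ, Function.Injective (ψ φ)) → IsDomain (MultRing ψ 𝔟)) ?_ ?_ ?_ Φ
  · intro α β e h ψ hψ
    obtain ⟨γ, hγ⟩ := exists_injective_equiv e 𝔟 ψ
    have := h (fun φ => ψ (e φ)) fun φ => hψ _
    exact hγ.isDomain γ
  · intro ψ hψ
    have h1 : multIdeal ψ 𝔟 = ⊥ := by
      rw [multIdeal, iSup_of_empty]
    have h2 : (multIdeal ψ 𝔟).IsPrime := by
      rw [h1]
      exact Ideal.isPrime_bot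
    exact Ideal.Quotient.isDomain _
  · intro α _ h ψ hψ
    obtain ⟨γ, hγ⟩ := exists_injective_option 𝔟 ψ
    have := h (fun φ => ψ (some φ)) fun φ => hψ _
    have := isDomain_tensor hgeom (ψ none) (hψ none) (MultRing (fun φ => ψ (some φ)) 𝔟)
    exact hγ.isDomain γ

end Dom

end Pool.Agent.Lib.MP_6a3dac_ag.W3
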