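import Pool.Agent.Lib.MP_6a3dac_ag.W3.T3f

/-!
# The local structure of the product of the conjugates at a ramified prime
-/

set_option autoImplicit false
set_option linter.unusedSectionVars false
set_option linter.unusedVariables false

namespace Pool.Agent.Lib.MP_6a3dac_ag.W3

open MvPolynomial TensorProduct Pool.Agent.Lib.MP_6a3dac_ag IsLocalRing CategoryTheory Limits
  AlgebraicGeometry

attribute [local instance] MvPolynomial.gradedAlgebra

section Delta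

variable {R S : Type} [CommRing R] [CommRing S] [Algebra R S] {σS : S →+* S} {p : Ideal R}
  {𝔓 : Ideal S} [𝔓.IsPrime] (hp𝔓 : 𝔓.comap (algebraMap R S) = p) (h𝔓σ : ∀ c, σS c - c ∈ 𝔓)
  (hcc : 𝔓 = 𝔓.comap σS) {ϖ : S} {r : ℕ}
  (hdiv : ∀ c, ∃ y, ∃ m, m ∉ p ∧ algebraMap R S m * (σS c - c) = y * ϖ ^ r)

include h𝔓σ in
theorem comap_eq_self : 𝔓 = 𝔓.comap σS := by
  ext c
  rw [Ideal.mem_comap]
  constructor
  · intro hc
    have := 𝔓.add_mem (h𝔓σ c) hc
    rwa [sub_add_cancel] at this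
  · intro hc
    have := 𝔓.sub_mem hc (h𝔓σ c)
    rwa [sub_sub_cancel] at this

include hp𝔓 hdiv in
/-- The differences in the localization. -/
theorem delta_loc (c : Localization.AtPrime 𝔓) : ∃ y, Localization.localRingHom 𝔓 𝔓 σS hcc c - c =
    y * (algebraMap S (Localization.AtPrime 𝔓) ϖ) ^ r := by
  obtain ⟨s, hs⟩ : ∃ s, s = Localization.localRingHom 𝔓 𝔓 σS hcc := ⟨_, rfl⟩
  rw [← hs]
  have hsO' : ∀ c, s (algebraMap S _ c) = algebraMap S _ (σS c) := fun c => by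
    rw [hs, Localization.localRingHom_to_map]
  obtain ⟨α, t, hc⟩ := IsLocalization.exists_mk'_eq 𝔓.primeCompl c
  have h1 : c * algebraMap S (Localization.AtPrime 𝔓) t = algebraMap S _ α := by
    rw [← hc]
    exact IsLocalization.mk'_spec _ _ _
  have h2 : s c * algebraMap S (Localization.AtPrime 𝔓) (σS t) = algebraMap S _ (σS α) := by
    rw [← hsO', ← map_mul, h1, hsO']
  obtain ⟨y₁, m₁, hm₁, h3⟩ := hdiv α
  obtain ⟨y₂, m₂, hm₂, h4⟩ := hdiv t
  have h5 := congrArg (algebraMap S (Localization.AtPrime 𝔓)) h3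
  have h6 := congrArg (algebraMap S (Localization.AtPrime 𝔓)) h4
  rw [map_mul, map_sub, map_mul, map_pow] at h5 h6
  have hu : ∀ e : S, e ∉ 𝔓 → IsUnit (algebraMap S (Localization.AtPrime 𝔓) e) := fun e he =>
    IsLocalization.map_units (M := 𝔓.primeCompl) _ ⟨e, he⟩
  have hR : ∀ m : R, m ∉ p → algebraMap R S m ∉ 𝔓 := fun m hm => by rwa [← hp𝔓] at hm
  have hσt : σS t ∉ 𝔓 := fun h0 => t.2 (hcc.symm.le (Ideal.mem_comap.mpr h0))
  obtain ⟨v, hv⟩ := ((((hu _ (hR m₁ hm₁)).mul (hu _ (hR m₂ hm₂))).mul (hu _ t.2)).mul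
    (hu _ hσt)).exists_left_inv
  refine ⟨v * (algebraMap S _ (algebraMap R S m₂) * algebraMap S _ y₁ * algebraMap S _ t -
    algebraMap S _ (algebraMap R S m₁) * algebraMap S _ α * algebraMap S _ y₂), ?_⟩
  linear_combination (-(s c - c)) * hv + (v * algebraMap S _ (algebraMap R S m₁) *
    algebraMap S _ (algebraMap R S m₂) * algebraMap S _ (t : S)) * h2 -
    (v * algebraMap S _ (algebraMap R S m₁) * algebraMap S _ (algebraMap R S m₂) *
      algebraMap S _ (σS t)) * h1 + (v * algebraMap S _ (algebraMap R S m₂) *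
      algebraMap S _ (t : S)) * h5 - (v * algebraMap S _ (algebraMap R S m₁) *
      algebraMap S _ α) * h6

include hp𝔓 hdiv hcc in
theorem delta_loc₂ (hc2 : 𝔓 = 𝔓.comap (σS.comp σS)) (c : Localization.AtPrime 𝔓) :
    ∃ y, Localization.localRingHom 𝔓 𝔓 (σS.comp σS) hc2 c - c =
      y * (algebraMap S (Localization.AtPrime 𝔓) ϖ) ^ r := by
  have h1 : Localization.localRingHom 𝔓 𝔓 (σS.comp σS) hc2 =
      (Localization.localRingHom 𝔓 𝔓 σS hcc).comp (Localization.localRingHom 𝔓 𝔓 σS hcc) := by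
    apply IsLocalization.ringHom_ext 𝔓.primeCompl
    ext c
    rw [RingHom.comp_apply, RingHom.comp_apply, RingHom.comp_apply,
      Localization.localRingHom_to_map, Localization.localRingHom_to_map,
      Localization.localRingHom_to_map]
    rfl
  obtain ⟨y, hy⟩ := delta_loc hp𝔓 hcc hdiv c
  obtain ⟨z, hz⟩ := delta_loc hp𝔓 hcc hdiv (Localization.localRingHom 𝔓 𝔓 σS hcc c)
  refine ⟨z + y, ?_⟩
  rw [h1, RingHom.comp_apply]
  linear_combination hz + hy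

end Delta

theorem eq_zero_of_flat {O' B : Type} [CommRing O'] [IsDomain O'] [CommRing B] [Algebra O' B]
    [Module.Flat O' B] {ϖ : O'} (h : ϖ ≠ 0) {b : B} (hb : algebraMap O' B ϖ * b = 0) : b = 0 := by
  have h1 := Module.Flat.isSMulRegular_of_nonZeroDivisors (M := B)
    (mem_nonZeroDivisors_of_ne_zero h)
  apply h1
  change ϖ • b = ϖ • 0
  rw [smul_zero, Algebra.smul_def, hb]

section Em

variable {O' B F : Type} [CommRing O'] [CommRing B] [Algebra O' B] [Field F] [Algebra O' F]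
  {s₀ s₁ s₂ : O' →+* O'} (f₀ : Tw s₀ B →ₐ[O'] F) (f₁ : Tw s₁ B →ₐ[O'] F) (f₂ : Tw s₂ B →ₐ[O'] F)

theorem prodF_em₀ (b : B) : prodF f₀ (prodF f₁ f₂) (em₀ s₀ s₁ s₂ b) = f₀ (toTw s₀ B b) := by
  rw [em₀_apply, prodF_tmul, map_one, mul_one]

theorem prodF_em₁ (b : B) : prodF f₀ (prodF f₁ f₂) (em₁ s₀ s₁ s₂ b) = f₁ (toTw s₁ B b) := by
  rw [em₁_apply, prodF_tmul, prodF_tmul, map_one, map_one, mul_one, one_mul]

theorem prodF_em₂ (b : B) : prodF f₀ (prodF f₁ f₂) (em₂ s₀ s₁ s₂ b) = f₂ (toTw s₂ B b) := by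
  rw [em₂_apply, prodF_tmul, prodF_tmul, map_one, map_one, one_mul, one_mul]

end Em

section Main

variable {R O S L F : Type} [CommRing R] [CommRing O] [CommRing S] [IsDomain S] [Algebra R S]
  [Algebra O S] [Field L] [Algebra R L] [Algebra S L] [Algebra O L] [IsScalarTower R S L]
  [IsScalarTower O S L] [IsFractionRing S L] {n : ℕ} {σ : L →+* L}
  {𝔞 : HomogeneousIdeal (homogeneousSubmodule (Fin n) O)} [Field F] [Algebra L F]
  [Algebra S F] [IsScalarTower S L F]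
  (ιP : MultRing (psi3 O σ) 𝔞.toIdeal →ₐ[L] F) (hιP : Function.Injective ιP)
  {τF : F →+* F} (hτF3 : ∀ z, τF (τF (τF z)) = z)
  (hτx : ∀ j k, τF (ιP (cl (psi3 O σ) 𝔞.toIdeal j k)) = ιP (cl (psi3 O σ) 𝔞.toIdeal (rot j) k))
  (hτL : ∀ c : L, τF (algebraMap L F c) = algebraMap L F (σ c))
  {σS : S →+* S} (hσS : ∀ c, algebraMap S L (σS c) = σ (algebraMap S L c))
  (hσS3 : ∀ c, σS (σS (σS c)) = c) (hRS : Function.Injective (algebraMap R S))
  (hfl : Flat (projTo O (coordGr 𝔞)))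

include hιP hτF3 hτx hτL hσS hσS3 hRS hfl in
/-- **The local structure of the product of the conjugates at a ramified prime.** -/
theorem strAt_weil3 (p : Ideal R) [p.IsPrime] {𝔓 : Ideal S} [h𝔓 : 𝔓.IsPrime]
    (hp𝔓 : 𝔓.comap (algebraMap R S) = p) (h𝔓σ : ∀ c, σS c - c ∈ 𝔓)
    (hunitS : ∀ s, s ∉ 𝔓 → ∃ m, m ∉ p ∧ ∃ t, algebraMap R S m = s * t)
    {ϖ : S} {m : ℕ} (hmax : (Ideal.span {algebraMap S (Localization.AtPrime 𝔓) ϖ}).IsMaximal)
    (hϖ0 : ϖ ≠ 0)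
    (hdiv : ∀ c, ∃ y, ∃ m', m' ∉ p ∧ algebraMap R S m' * (σS c - c) = y * ϖ ^ (m + 1)) {a : Fin n}
    (hreg : IsRegularRing (LocChart 𝔞 𝔓 a))
    (hsm : Algebra.Smooth (Localization.AtPrime 𝔓) (LocChart 𝔞 𝔓 a))
    (D : Subring F) (hloc : IsLocalRing D)
    (hΛD : ∀ c ∈ lamP S L (segAlg (psi3 O σ) 𝔞.toIdeal) p, segMap₃ ιP c ∈ D)
    (hx0 : segMap₃ ιP (xx₃ 𝔞.toIdeal (psi3 O σ) ![a, a, a]) ≠ 0)
    (hcoord : ∀ k, segMap₃ ιP (xx₃ 𝔞.toIdeal (psi3 O σ) k) /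
      segMap₃ ιP (xx₃ 𝔞.toIdeal (psi3 O σ) ![a, a, a]) ∈ D)
    (hϖD : ∀ w ∈ D, segMap₃ ιP (oM S L (segAlg (psi3 O σ) 𝔞.toIdeal) ϖ) * w ≠ 1)
    (hd : ∀ k, ∀ w ∈ D, (τF (segMap₃ ιP (xx₃ 𝔞.toIdeal (psi3 O σ) k) /
      segMap₃ ιP (xx₃ 𝔞.toIdeal (psi3 O σ) ![a, a, a])) -
      segMap₃ ιP (xx₃ 𝔞.toIdeal (psi3 O σ) k) /
      segMap₃ ιP (xx₃ 𝔞.toIdeal (psi3 O σ) ![a, a, a])) * w ≠ 1) :
    StrAt (segMap₃ ιP) τF (xx₃ 𝔞.toIdeal (psi3 O σ))
      (lamP S L (segAlg (psi3 O σ) 𝔞.toIdeal) p) (oM S L (segAlg (psi3 O σ) 𝔞.toIdeal) ϖ) m D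
      ![a, a, a] := by
  have hSL : Function.Injective (algebraMap S L) := IsFractionRing.injective S L
  have hSF : Function.Injective (algebraMap S F) := by
    rw [IsScalarTower.algebraMap_eq S L F]
    exact (algebraMap L F).injective.comp hSL
  have hS : ∀ c : S, algebraMap S F c ∈ D := fun c => by
    rw [← segMap₃_oM ιP]
    exact hΛD _ (oM_mem_lamP p c)
  have hunit : ∀ s, s ∉ 𝔓 → ∃ w ∈ D, algebraMap S F s * w = 1 := by
    intro s hs
    obtain ⟨m', hmp, t, hm⟩ := hunitS s hs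
    obtain ⟨w, hw, hmw⟩ := unit_of_notMem ιP hRS hΛD m' hmp
    refine ⟨algebraMap S F t * w, D.mul_mem (hS _) hw, ?_⟩
    rw [← mul_assoc, ← map_mul, ← hm, hmw]
  have hcc : 𝔓 = 𝔓.comap σS := comap_eq_self h𝔓σ
  have hc2 : 𝔓 = 𝔓.comap (σS.comp σS) := by
    rw [← Ideal.comap_comap, ← hcc, ← hcc]
  have hτS := tauF_algebraMap (F := F) hτL hσS
  -- the localization
  let := locAlg S L 𝔓
  have := locAlg_tower S L 𝔓
  let : Algebra (Localization.AtPrime 𝔓) F :=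
    ((algebraMap L F).comp (algebraMap (Localization.AtPrime 𝔓) L)).toAlgebra
  have : IsScalarTower (Localization.AtPrime 𝔓) L F := IsScalarTower.of_algebraMap_eq' rfl
  have hT0 : IsScalarTower S (Localization.AtPrime 𝔓) F :=
    IsScalarTower.of_algebraMap_eq fun c => by
      change _ = algebraMap L F (algebraMap _ L (algebraMap S _ c))
      rw [← IsScalarTower.algebraMap_apply S (Localization.AtPrime 𝔓) L,
        ← IsScalarTower.algebraMap_apply]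
  let : Algebra O F := ((algebraMap L F).comp (algebraMap O L)).toAlgebra
  have hO1 : IsScalarTower O L F := IsScalarTower.of_algebraMap_eq' rfl
  have hO2 : IsScalarTower O S F := IsScalarTower.of_algebraMap_eq fun c => by
    rw [IsScalarTower.algebraMap_apply S L F, ← IsScalarTower.algebraMap_apply O S L,
      ← IsScalarTower.algebraMap_apply]
  obtain ⟨x, hxdef⟩ : ∃ x : Fin n → F, x = fun k => ιP (cl (psi3 O σ) 𝔞.toIdeal 0 k) := ⟨_, rfl⟩
  have hx1 : ∀ k, τF (x k) = ιP (cl (psi3 O σ) 𝔞.toIdeal 1 k) := fun k => by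
    rw [hxdef]
    exact hτx 0 k
  have hx2 : ∀ k, (τF.comp τF) (x k) = ιP (cl (psi3 O σ) 𝔞.toIdeal 2 k) := fun k => by
    rw [RingHom.comp_apply, hx1]
    exact hτx 1 k
  have hx0' := hx0
  rw [segMap₃_xx, segX, map_prod, Fin.prod_univ_three, ← hx1, ← hx2] at hx0'
  have hn0 : x a ≠ 0 := by
    rw [hxdef]
    exact left_ne_zero_of_mul (left_ne_zero_of_mul hx0')
  have hxrel : ∀ f ∈ 𝔞.toIdeal, eval₂ (algebraMap O F) x f = 0 := fun f hf => by
    rw [hxdef]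
    exact eval_cl_zero ιP hf
  obtain ⟨ρ, hρ⟩ := exists_rho 𝔞 x hxrel a hn0
  -- the factors
  have H₀ := factor_conj (F := F) (θ := RingHom.id S) (θ' := RingHom.id S) (𝔓 := 𝔓) (𝔔 := 𝔓) rfl
    rfl (fun _ => rfl) (fun _ => rfl) (RingHom.id F) (fun _ => rfl)
    ((algebraMap S (Localization.AtPrime 𝔓)).comp (algebraMap O S)) (fun _ => rfl)
    (x := x) (x' := fun k => ιP (cl (psi3 O σ) 𝔞.toIdeal 0 k)) (fun k => by rw [hxdef]; rfl)
    ρ hρ hfl hreg
  have H₁ := factor_conj (F := F) (θ := σS.comp σS) (θ' := σS) (𝔓 := 𝔓) (𝔔 := 𝔓)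
    hc2 hcc (fun c => hσS3 c) (fun c => hσS3 c) τF
    (fun c => by rw [hτS]; exact congrArg _ (hσS3 c))
    ((algebraMap S (Localization.AtPrime 𝔓)).comp (σS.comp (algebraMap O S))) (fun _ => rfl)
    (x := x) (x' := fun k => ιP (cl (psi3 O σ) 𝔞.toIdeal 1 k)) hx1
    ρ hρ hfl hreg
  have H₂ := factor_conj (F := F) (θ := σS) (θ' := σS.comp σS) (𝔓 := 𝔓) (𝔔 := 𝔓)
    hcc hc2 (fun c => hσS3 c) (fun c => hσS3 c) (τF.comp τF)
    (fun c => by rw [RingHom.comp_apply, hτS, hτS]; exact congrArg _ (hσS3 c))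
    ((algebraMap S (Localization.AtPrime 𝔓)).comp ((σS.comp σS).comp (algebraMap O S)))
    (fun _ => rfl)
    (x := x) (x' := fun k => ιP (cl (psi3 O σ) 𝔞.toIdeal 2 k)) hx2
    ρ hρ hfl hreg
  have hSLoc : ∀ c : S, algebraMap (Localization.AtPrime 𝔓) L (algebraMap S _ c) =
      algebraMap S L c := fun c => (IsScalarTower.algebraMap_apply S _ L c).symm
  have hOSL : ∀ c : O, algebraMap S L (algebraMap O S c) = algebraMap O L c := fun c =>
    (IsScalarTower.algebraMap_apply O S L c).symm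
  have hb₁ := localRingHom_bijective (θ := σS.comp σS) (θ' := σS) hc2 hcc hσS3 hσS3
  have hb₂ := localRingHom_bijective (θ := σS) (θ' := σS.comp σS) hcc hc2 hσS3 hσS3
  have hψ₀ : ∀ c, algebraMap (Localization.AtPrime 𝔓) L
      (((algebraMap S (Localization.AtPrime 𝔓)).comp (algebraMap O S)) c) = psi3 O σ 0 c := by
    intro c
    rw [RingHom.comp_apply, hSLoc, hOSL]
    rfl
  have hψ₁ : ∀ c, algebraMap (Localization.AtPrime 𝔓) L
      (((algebraMap S (Localization.AtPrime 𝔓)).comp (σS.comp (algebraMap O S))) c) =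
        psi3 O σ 1 c := by
    intro c
    rw [RingHom.comp_apply, RingHom.comp_apply, hSLoc, hσS, hOSL]
    rfl
  have hψ₂ : ∀ c, algebraMap (Localization.AtPrime 𝔓) L
      (((algebraMap S (Localization.AtPrime 𝔓)).comp ((σS.comp σS).comp (algebraMap O S))) c) =
        psi3 O σ 2 c := by
    intro c
    rw [RingHom.comp_apply, RingHom.comp_apply, RingHom.comp_apply, hSLoc, hσS, hσS, hOSL]
    rfl
  have hinj := triple_inj H₀ H₁ H₂ hψ₀ hψ₁ hψ₂ (locAlg_injective S L 𝔓) hιP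
  have hsm₁ := smooth_tw _ hb₁ (LocChart 𝔞 𝔓 a)
  have hsm₂ := smooth_tw _ hb₂ (LocChart 𝔞 𝔓 a)
  have key := triple_around H₀ H₁ H₂ hψ₀ hψ₁ hψ₂ (locAlg_injective S L 𝔓) hιP
    (Or.inl ⟨hsm₁, hsm₂⟩) (Λ := lamP S L (segAlg (psi3 O σ) 𝔞.toIdeal) p) (D := D)
    (fun m hm => exists_of_mem_lamP₃ ιP hp𝔓 hSF hm) (fun c => exists_lamP_of_loc ιP hunit c)
    (algebraMap_mem_of_units hS hunit) hx0 hcoord
  have hξ : Algebra.adjoin (Localization.AtPrime 𝔓)
      (Set.range fun k => (1 ⊗ₜ chartX 𝔞 a k : LocChart 𝔞 𝔓 a)) = ⊤ :=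
    adjoin_baseChange _ (adjoin_chartX 𝔞 a)
  have hone : (1 ⊗ₜ chartX 𝔞 a a : LocChart 𝔞 𝔓 a) = 1 := by
    rw [chartX_self]
    rfl
  have hflC := flat_chartRing 𝔞 a hfl
  have hflB : Module.Flat (Localization.AtPrime 𝔓) (LocChart 𝔞 𝔓 a) := inferInstance
  have hSloc : Function.Injective (algebraMap S (Localization.AtPrime 𝔓)) :=
    IsLocalization.injective _ (Ideal.primeCompl_le_nonZeroDivisors 𝔓)
  have hϖ0' : algebraMap S (Localization.AtPrime 𝔓) ϖ ≠ 0 := by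
    rw [Ne, map_eq_zero_iff _ hSloc]
    exact hϖ0
  refine strAt_of_chart (s₀ := Localization.localRingHom 𝔓 𝔓 (RingHom.id S) rfl)
    (s₁ := Localization.localRingHom 𝔓 𝔓 (σS.comp σS) hc2)
    (s₂ := Localization.localRingHom 𝔓 𝔓 σS hcc) (B := LocChart 𝔞 𝔓 a) (n := m)
    (ϖ := algebraMap S (Localization.AtPrime 𝔓) ϖ)
    (ξ := fun k => (1 ⊗ₜ chartX 𝔞 a k : LocChart 𝔞 𝔓 a)) (fun c => ?_) hb₁ hb₂
    (delta_loc₂ hp𝔓 hcc hdiv hc2) (delta_loc hp𝔓 hcc hdiv) hξ hinj (fun b => ?_) (fun b => ?_)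
    (fun b => ?_) key (fun k => (k 0, k 1, k 2)) (fun k => ?_) (fun l => ![l, a, a])
    (fun l => ![a, l, a]) (fun l => ?_) (fun l => ?_) ?_ hϖD ?_ hd hmax ?_
  · rw [show Localization.localRingHom 𝔓 𝔓 (RingHom.id S) rfl = RingHom.id _ from
      Localization.localRingHom_id 𝔓]
    rfl
  · change τF (prodF _ (prodF _ _) _) = prodF _ (prodF _ _) _
    rw [prodF_em₀, prodF_em₁]
    rfl
  · change τF (prodF _ (prodF _ _) _) = prodF _ (prodF _ _) _
    rw [prodF_em₁, prodF_em₂]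
    rfl
  · change τF (prodF _ (prodF _ _) _) = prodF _ (prodF _ _) _
    rw [prodF_em₂, prodF_em₀]
    exact hτF3 _
  · rw [← em_mul]
    exact (coord_eq H₀ H₁ H₂ hx0).symm
  · have h1 := (coord_eq H₀ H₁ H₂ (k := ![l, a, a]) hx0).symm
    rw [tripX] at h1
    simp only [Matrix.cons_val_zero, Matrix.cons_val_one, Matrix.cons_val] at h1
    rw [h1, em_mul, hone, map_one, map_one, mul_one, mul_one]
    rfl
  · have h1 := (coord_eq H₀ H₁ H₂ (k := ![a, l, a]) hx0).symm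
    rw [tripX] at h1
    simp only [Matrix.cons_val_zero, Matrix.cons_val_one, Matrix.cons_val] at h1
    rw [h1, em_mul, hone, map_one, map_one, one_mul, mul_one]
    rfl
  · change prodF _ (prodF _ _) _ = _
    rw [AlgHom.commutes, segMap₃_oM, ← IsScalarTower.algebraMap_apply]
  · rw [segMap₃_oM, Ne, map_eq_zero_iff _ hSF]
    exact hϖ0
  · exact fun b hb => eq_zero_of_flat hϖ0' hb

end Main

end Pool.Agent.Lib.MP_6a3dac_ag.W3
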