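import Pool.Agent.Lib.MP_6a3dac_ag.W3.T1

/-!
# Gradings of the multihomogeneous coordinate ring and its subalgebras
-/

set_option autoImplicit false

namespace Pool.Agent.Lib.MP_6a3dac_ag.W3

open MvPolynomial Pool.Agent.Lib.MP_6a3dac_ag

attribute [local instance] MvPolynomial.gradedAlgebra

section Abs

variable {K A : Type} [CommRing K] [CommRing A] [Algebra K A] (𝒜 : ℕ → Submodule K A)
  [GradedAlgebra 𝒜]

/-- A graded algebra whose components vanish in the degrees which are not multiples of `m`. -/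
theorem isInternal_divide {m : ℕ} (hm : 0 < m)
    (h : ∀ (a : A) (i : ℕ), ¬ m ∣ i → (DirectSum.decompose 𝒜 a i : A) = 0) :
    DirectSum.IsInternal fun k => 𝒜 (m * k) := by
  classical
  have key : ∀ (x : DirectSum ℕ fun k => 𝒜 (m * k)) (j : ℕ),
      (DirectSum.decompose 𝒜 (DirectSum.coeAddMonoidHom (fun k => 𝒜 (m * k)) x) (m * j) : A) =
        x j := by
    intro x j
    induction x using DirectSum.induction_on with
    | zero => simp
    | of i s =>
      rw [DirectSum.coeAddMonoidHom_of]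
      by_cases hij : i = j
      · subst hij
        rw [DirectSum.decompose_of_mem_same 𝒜 s.2, DirectSum.of_eq_same]
      · rw [DirectSum.decompose_of_mem_ne 𝒜 s.2 (fun h0 => hij (Nat.eq_of_mul_eq_mul_left hm h0)),
          DirectSum.of_eq_of_ne _ _ _ (Ne.symm hij)]
        simp
    | add x y hx hy =>
      rw [map_add, DirectSum.decompose_add, DirectSum.add_apply, DirectSum.add_apply,
        Submodule.coe_add, Submodule.coe_add, hx, hy]
  constructor
  · intro x y hxy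
    ext j
    rw [← key x j, ← key y j]
    change DirectSum.coeAddMonoidHom _ x = DirectSum.coeAddMonoidHom _ y at hxy
    rw [hxy]
  · intro a
    refine ⟨∑ i ∈ (DirectSum.decompose 𝒜 a).support, if hi : m ∣ i then
      DirectSum.of (fun k => 𝒜 (m * k)) (i / m) ⟨DirectSum.decompose 𝒜 a i, by
        rw [Nat.mul_div_cancel' hi]
        exact (DirectSum.decompose 𝒜 a i).2⟩ else 0, ?_⟩
    rw [map_sum]
    conv_rhs => rw [← DirectSum.sum_support_decompose 𝒜 a]
    refine Finset.sum_congr rfl fun i _ => ?_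
    split_ifs with hi
    · rw [DirectSum.coeAddMonoidHom_of]
    · rw [map_zero, h a i hi]

/-- An algebra generated by elements of degree `m` lives in degrees which are multiples of `m`. -/
theorem decompose_ndvd_adjoin {R : Type} [CommRing R] [Algebra R K] [Algebra R A]
    [IsScalarTower R K A] {m : ℕ} {s : Set A} (hs : ∀ x ∈ s, x ∈ 𝒜 m) {x : A}
    (hx : x ∈ Algebra.adjoin R s) : ∀ i, ¬ m ∣ i → (DirectSum.decompose 𝒜 x i : A) = 0 := by
  classical
  induction hx using Algebra.adjoin_induction with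
  | mem x hx =>
    intro i hi
    refine DirectSum.decompose_of_mem_ne _ (hs x hx) ?_
    rintro rfl
    exact hi dvd_rfl
  | algebraMap r =>
    intro i hi
    rw [IsScalarTower.algebraMap_apply R K A]
    refine DirectSum.decompose_of_mem_ne _ (SetLike.algebraMap_mem_graded _ _) ?_
    rintro rfl
    exact hi (dvd_zero _)
  | add x y _ _ hx hy =>
    intro i hi
    rw [DirectSum.decompose_add, DirectSum.add_apply, Submodule.coe_add, hx i hi, hy i hi,
      add_zero]
  | mul x y _ _ hx hy =>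
    intro i hi
    conv_lhs => rw [← DirectSum.sum_support_decompose 𝒜 x]
    rw [Finset.sum_mul, DirectSum.decompose_sum, DFinsupp.finsetSum_apply,
      AddSubmonoidClass.coe_finsetSum]
    refine Finset.sum_eq_zero fun j _ => ?_
    rw [DirectSum.coe_decompose_mul_of_left_mem _ _ (DirectSum.decompose _ x j).2]
    split_ifs with hji
    · by_cases hj : m ∣ j
      · rw [hy (i - j) (fun h => hi (by
          have := dvd_add h hj
          rwa [Nat.sub_add_cancel hji] at this)), mul_zero]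
      · rw [hx j hj, zero_mul]
    · rfl

end Abs

section Mult

variable {O N : Type} [CommRing O] [CommRing N] {Φ : Type} {n : ℕ} (ψ : Φ → O →+* N)
  (𝔟 : Ideal (MvPolynomial (Fin n) O))

theorem isHomogeneous_multIdeal (h𝔟 : 𝔟.IsHomogeneous (homogeneousSubmodule (Fin n) O)) :
    (multIdeal ψ 𝔟).IsHomogeneous (homogeneousSubmodule (Φ × Fin n) N) := by
  classical
  have h1 : multIdeal ψ 𝔟 = Ideal.span (⋃ φ, fHom ψ n φ ''
      {f | f ∈ 𝔟 ∧ ∃ i, f ∈ homogeneousSubmodule (Fin n) O i}) := by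
    apply le_antisymm
    · apply multIdeal_le
      intro φ f hf
      rw [← DirectSum.sum_support_decompose (homogeneousSubmodule (Fin n) O) f, map_sum]
      refine Ideal.sum_mem _ fun i _ => Ideal.subset_span ?_
      rw [Set.mem_iUnion]
      exact ⟨φ, _, ⟨h𝔟 i hf, i, (DirectSum.decompose _ f i).2⟩, rfl⟩
    · rw [Ideal.span_le]
      intro z hz
      rw [Set.mem_iUnion] at hz
      obtain ⟨φ, f, ⟨hf, -⟩, rfl⟩ := hz
      exact fHom_mem ψ 𝔟 hf φ
  rw [h1]
  apply Ideal.homogeneous_span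
  intro z hz
  rw [Set.mem_iUnion] at hz
  obtain ⟨φ, f, ⟨-, i, hi⟩, rfl⟩ := hz
  refine ⟨i, ?_⟩
  rw [fHom_eq]
  exact (IsHomogeneous.map hi _).rename_isHomogeneous

/-- The grading by the total degree. -/
noncomputable def multGr : ℕ → Submodule N (MultRing ψ 𝔟) :=
  quotGr (homogeneousSubmodule (Φ × Fin n) N) (multIdeal ψ 𝔟)

/-- The graded algebra structure. -/
@[reducible]
noncomputable def multGradedAlgebra (h𝔟 : 𝔟.IsHomogeneous (homogeneousSubmodule (Fin n) O)) :
    GradedAlgebra (multGr ψ 𝔟) :=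
  { (isInternal_quotGr _ _ (isHomogeneous_multIdeal ψ 𝔟 h𝔟)).chooseDecomposition,
    quotGr_gradedMonoid _ _ with }

theorem gradedMonoid_multGr : SetLike.GradedMonoid (multGr ψ 𝔟) := quotGr_gradedMonoid _ _

theorem cl_mem (φ : Φ) (k : Fin n) : cl ψ 𝔟 φ k ∈ multGr ψ 𝔟 1 :=
  ⟨X (φ, k), isHomogeneous_X _ _, rfl⟩

theorem segX_mem_multGr [Fintype Φ] (k : Φ → Fin n) :
    segX ψ 𝔟 k ∈ multGr ψ 𝔟 (Fintype.card Φ) := by
  refine ⟨∏ φ, X (φ, k φ), ?_, ?_⟩
  · have := IsHomogeneous.prod (R := N) (Finset.univ : Finset Φ)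
      (fun φ => (X (φ, k φ) : MvPolynomial (Φ × Fin n) N)) (fun _ => 1)
      (fun φ _ => isHomogeneous_X _ _)
    rw [Finset.sum_const, Finset.card_univ, smul_eq_mul, mul_one] at this
    exact this
  · change Ideal.Quotient.mk _ _ = _
    rw [map_prod]
    rfl

section Graded

variable [GradedAlgebra (multGr ψ 𝔟)] [Fintype Φ]

theorem isHomog_segAlg : IsHomog (multGr ψ 𝔟) (segAlg ψ 𝔟) := by
  refine isHomog_adjoin (R := N) _ ?_
  rintro x ⟨k, rfl⟩
  exact ⟨_, segX_mem_multGr _ _ _⟩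

theorem decompose_ndvd_segAlg {x : MultRing ψ 𝔟} (hx : x ∈ segAlg ψ 𝔟) (i : ℕ)
    (hi : ¬ Fintype.card Φ ∣ i) :
    (DirectSum.decompose (multGr ψ 𝔟) x i : MultRing ψ 𝔟) = 0 := by
  refine decompose_ndvd_adjoin (R := N) _ ?_ hx i hi
  rintro x ⟨k, rfl⟩
  exact segX_mem_multGr _ _ _

end Graded

/-- The grading of the Segre algebra. -/
noncomputable def segGr [Fintype Φ] (k : ℕ) : Submodule N (segAlg ψ 𝔟) :=
  (multGr ψ 𝔟 (Fintype.card Φ * k)).comap (segAlg ψ 𝔟).val.toLinearMap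

theorem mem_segGr [Fintype Φ] {k : ℕ} {z : segAlg ψ 𝔟} :
    z ∈ segGr ψ 𝔟 k ↔ (z : MultRing ψ 𝔟) ∈ multGr ψ 𝔟 (Fintype.card Φ * k) := Iff.rfl

/-- The gradings of the homogeneous subalgebras of the Segre algebra. -/
theorem isInternal_of_isHomog_seg {K : Type} [CommRing K] [Algebra K N] [Fintype Φ] [Nonempty Φ]
    [GradedAlgebra (multGr ψ 𝔟)] {A₀ : Subalgebra K (MultRing ψ 𝔟)}
    (h : IsHomog (multGr ψ 𝔟) A₀) (hle : ∀ z ∈ A₀, z ∈ segAlg ψ 𝔟) :
    DirectSum.IsInternal fun k =>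
      ((multGr ψ 𝔟 (Fintype.card Φ * k)).restrictScalars K).comap A₀.val.toLinearMap := by
  let := subGradedAlgebra (R := K) (multGr ψ 𝔟) h
  refine isInternal_divide (subGr (multGr ψ 𝔟) A₀) Fintype.card_pos ?_
  intro a i hi
  apply Subtype.ext
  rw [coe_decompose_subGr (R := K) _ h a i]
  exact decompose_ndvd_segAlg ψ 𝔟 (hle _ a.2) i hi

theorem isInternal_segGr [Fintype Φ] [Nonempty Φ] [GradedAlgebra (multGr ψ 𝔟)] :
    DirectSum.IsInternal (segGr ψ 𝔟) :=
  isInternal_of_isHomog_seg ψ 𝔟 (K := N) (isHomog_segAlg ψ 𝔟) fun _ hz => hz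

theorem gradedMonoid_segGr [Fintype Φ] : SetLike.GradedMonoid (segGr ψ 𝔟) where
  one_mem := by
    have := gradedMonoid_multGr ψ 𝔟
    rw [mem_segGr, mul_zero]
    exact SetLike.GradedOne.one_mem (A := multGr ψ 𝔟)
  mul_mem i j a b ha hb := by
    have := gradedMonoid_multGr ψ 𝔟
    rw [mem_segGr] at *
    rw [mul_add]
    exact SetLike.mul_mem_graded (A := multGr ψ 𝔟) ha hb

/-- The graded algebra structure of the Segre algebra. -/
@[reducible]
noncomputable def segGradedAlgebra [Fintype Φ] [Nonempty Φ]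
    (h𝔟 : 𝔟.IsHomogeneous (homogeneousSubmodule (Fin n) O)) : GradedAlgebra (segGr ψ 𝔟) :=
  letI := multGradedAlgebra ψ 𝔟 h𝔟
  { (isInternal_segGr ψ 𝔟).chooseDecomposition, gradedMonoid_segGr ψ 𝔟 with }

theorem segX_mem_segGr [Fintype Φ] (k : Φ → Fin n) :
    (⟨segX ψ 𝔟 k, segX_mem ψ 𝔟 k⟩ : segAlg ψ 𝔟) ∈ segGr ψ 𝔟 1 := by
  rw [mem_segGr, mul_one]
  exact segX_mem_multGr _ _ _

theorem adjoin_segX_eq_top [Fintype Φ] : Algebra.adjoin N
    (Set.range fun k => (⟨segX ψ 𝔟 k, segX_mem ψ 𝔟 k⟩ : segAlg ψ 𝔟)) = ⊤ := by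
  have h1 : (((↑) : segAlg ψ 𝔟 → MultRing ψ 𝔟) ⁻¹' (Set.range (segX ψ 𝔟))) =
      Set.range fun k => (⟨segX ψ 𝔟 k, segX_mem ψ 𝔟 k⟩ : segAlg ψ 𝔟) := by
    ext z
    constructor
    · rintro ⟨k, hk⟩
      exact ⟨k, Subtype.ext hk⟩
    · rintro ⟨k, rfl⟩
      exact ⟨k, rfl⟩
  rw [← h1]
  exact Algebra.adjoin_adjoin_coe_preimage

section Perm

variable {ψ} {s : N →+* N} {π : Φ → Φ} (hs : ∀ φ c, s (ψ φ c) = ψ (π φ) c)

theorem permRing_mem_multGr {z : MultRing ψ 𝔟} {k : ℕ} (hz : z ∈ multGr ψ 𝔟 k) :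
    permRing 𝔟 hs z ∈ multGr ψ 𝔟 k := by
  obtain ⟨P, hP, rfl⟩ := hz
  refine ⟨permPoly s π n P, ?_, ?_⟩
  · have h1 : permPoly s π n P = rename (fun i : Φ × Fin n => (π i.1, i.2))
        (MvPolynomial.map s P) := by
      have h : permPoly s π n = ((rename (fun i : Φ × Fin n => (π i.1, i.2)) :
          MvPolynomial (Φ × Fin n) N →ₐ[N] _).toRingHom).comp (MvPolynomial.map s) := by
        apply MvPolynomial.ringHom_ext
        · intro r
          rw [permPoly_C]
          simp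
        · intro i
          rw [permPoly_X]
          simp
      rw [h]
      rfl
    rw [h1]
    exact (IsHomogeneous.map hP _).rename_isHomogeneous
  · exact (permRing_mk 𝔟 hs P).symm

theorem permSeg_mem_segGr [Fintype Φ] (hπ : Function.Bijective π) {z : segAlg ψ 𝔟} {k : ℕ}
    (hz : z ∈ segGr ψ 𝔟 k) : permSeg 𝔟 hs hπ z ∈ segGr ψ 𝔟 k :=
  permRing_mem_multGr 𝔟 hs hz

theorem permRing_decompose [GradedAlgebra (multGr ψ 𝔟)] (z : MultRing ψ 𝔟) (i : ℕ) :
    (DirectSum.decompose (multGr ψ 𝔟) (permRing 𝔟 hs z) i : MultRing ψ 𝔟) =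
      permRing 𝔟 hs (DirectSum.decompose (multGr ψ 𝔟) z i) := by
  classical
  conv_lhs => rw [← DirectSum.sum_support_decompose (multGr ψ 𝔟) z, map_sum,
    DirectSum.decompose_sum, DFinsupp.finsetSum_apply, AddSubmonoidClass.coe_finsetSum]
  have h1 : ∀ k ∈ (DirectSum.decompose (multGr ψ 𝔟) z).support,
      (DirectSum.decompose (multGr ψ 𝔟)
        (permRing 𝔟 hs (DirectSum.decompose (multGr ψ 𝔟) z k)) i : MultRing ψ 𝔟) =
        if k = i then permRing 𝔟 hs (DirectSum.decompose (multGr ψ 𝔟) z i) else 0 := by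
    intro k _
    have hk := permRing_mem_multGr 𝔟 hs (DirectSum.decompose (multGr ψ 𝔟) z k).2
    split_ifs with hki
    · subst hki
      rw [DirectSum.decompose_of_mem_same _ hk]
    · rw [DirectSum.decompose_of_mem_ne _ hk hki]
  rw [Finset.sum_congr rfl h1, Finset.sum_ite_eq']
  split_ifs with h2
  · rfl
  · rw [DFinsupp.notMem_support_iff] at h2
    rw [h2]
    simp

end Perm

/-- The subalgebra of the elements of the Segre algebra which are invariant under a family of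
maps commuting with the components is homogeneous. -/
theorem isHomog_invariants {K : Type} [CommRing K] [Algebra K N] [Fintype Φ]
    [GradedAlgebra (multGr ψ 𝔟)] (A₀ : Subalgebra K (MultRing ψ 𝔟))
    {Γ : Type} (t : Γ → MultRing ψ 𝔟 →+* MultRing ψ 𝔟)
    (ht : ∀ g z i, (DirectSum.decompose (multGr ψ 𝔟) (t g z) i : MultRing ψ 𝔟) =
      t g (DirectSum.decompose (multGr ψ 𝔟) z i))
    (hA₀ : ∀ z, z ∈ A₀ ↔ z ∈ segAlg ψ 𝔟 ∧ ∀ g, t g z = z) : IsHomog (multGr ψ 𝔟) A₀ := by
  intro z hz i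
  rw [hA₀] at hz ⊢
  refine ⟨isHomog_segAlg ψ 𝔟 z hz.1 i, fun g => ?_⟩
  rw [← ht, hz.2 g]

end Mult

end Pool.Agent.Lib.MP_6a3dac_ag.W3
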