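import Pool.Agent.Lib.MP_6a3dac_ag.W3.T3c
import Pool.Agent.Lib.MP_6a3dac_ag.Mg.G029
import Pool.Agent.Lib.MP_6a3dac_ag.Mg.G005
import Pool.Agent.Lib.MP_6a3dac_ag.Mg.G002

/-!
# The triple product of the twists of an algebra around the diagonal
-/

set_option autoImplicit false
set_option linter.unusedSectionVars false

namespace Pool.Agent.Lib.MP_6a3dac_ag.W3

open IsLocalRing TensorProduct Pool.Agent.Lib.MP_6a3dac_ag

section Defs

variable {O' : Type} [CommRing O'] (s₀ s₁ s₂ : O' →+* O') (B : Type) [CommRing B] [Algebra O' B]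

/-- The triple product of the twists. -/
abbrev G3 : Type := Tw s₀ B ⊗[O'] (Tw s₁ B ⊗[O'] Tw s₂ B)

variable {B}

/-- The first embedding. -/
noncomputable def em₀ : B →+* G3 s₀ s₁ s₂ B :=
  (Algebra.TensorProduct.includeLeft : Tw s₀ B →ₐ[O'] G3 s₀ s₁ s₂ B).toRingHom.comp
    (toTw s₀ B).toRingHom

/-- The second embedding. -/
noncomputable def em₁ : B →+* G3 s₀ s₁ s₂ B :=
  ((Algebra.TensorProduct.includeRight : (Tw s₁ B ⊗[O'] Tw s₂ B) →ₐ[O'] G3 s₀ s₁ s₂ B).comp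
    (Algebra.TensorProduct.includeLeft : Tw s₁ B →ₐ[O'] (Tw s₁ B ⊗[O'] Tw s₂ B))).toRingHom.comp
      (toTw s₁ B).toRingHom

/-- The third embedding. -/
noncomputable def em₂ : B →+* G3 s₀ s₁ s₂ B :=
  ((Algebra.TensorProduct.includeRight : (Tw s₁ B ⊗[O'] Tw s₂ B) →ₐ[O'] G3 s₀ s₁ s₂ B).comp
    (Algebra.TensorProduct.includeRight : Tw s₂ B →ₐ[O'] (Tw s₁ B ⊗[O'] Tw s₂ B))).toRingHom.comp
      (toTw s₂ B).toRingHom

variable {s₀ s₁ s₂}

theorem em₀_apply (b : B) : em₀ s₀ s₁ s₂ b = toTw s₀ B b ⊗ₜ 1 := rfl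

theorem em₁_apply (b : B) : em₁ s₀ s₁ s₂ b = 1 ⊗ₜ (toTw s₁ B b ⊗ₜ 1) := rfl

theorem em₂_apply (b : B) : em₂ s₀ s₁ s₂ b = 1 ⊗ₜ (1 ⊗ₜ toTw s₂ B b) := rfl

theorem em_mul (b₀ b₁ b₂ : B) : (toTw s₀ B b₀ ⊗ₜ (toTw s₁ B b₁ ⊗ₜ toTw s₂ B b₂) :
    G3 s₀ s₁ s₂ B) = em₀ s₀ s₁ s₂ b₀ * (em₁ s₀ s₁ s₂ b₁ * em₂ s₀ s₁ s₂ b₂) := by
  rw [em₀_apply, em₁_apply, em₂_apply, Algebra.TensorProduct.tmul_mul_tmul,
    Algebra.TensorProduct.tmul_mul_tmul, Algebra.TensorProduct.tmul_mul_tmul, mul_one, one_mul,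
    mul_one, one_mul, mul_one]

theorem em₀_algebraMap (c : O') : em₀ s₀ s₁ s₂ (algebraMap O' B (s₀ c)) =
    algebraMap O' (G3 s₀ s₁ s₂ B) c := by
  change (Algebra.TensorProduct.includeLeft : Tw s₀ B →ₐ[O'] G3 s₀ s₁ s₂ B)
    (algebraMap O' (Tw s₀ B) c) = _
  rw [AlgHom.commutes]

theorem em₁_algebraMap (c : O') : em₁ s₀ s₁ s₂ (algebraMap O' B (s₁ c)) =
    algebraMap O' (G3 s₀ s₁ s₂ B) c := by
  change ((Algebra.TensorProduct.includeRight : (Tw s₁ B ⊗[O'] Tw s₂ B) →ₐ[O'] G3 s₀ s₁ s₂ B).comp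
    (Algebra.TensorProduct.includeLeft : Tw s₁ B →ₐ[O'] (Tw s₁ B ⊗[O'] Tw s₂ B)))
    (algebraMap O' (Tw s₁ B) c) = _
  rw [AlgHom.commutes]

theorem em₂_algebraMap (c : O') : em₂ s₀ s₁ s₂ (algebraMap O' B (s₂ c)) =
    algebraMap O' (G3 s₀ s₁ s₂ B) c := by
  change ((Algebra.TensorProduct.includeRight : (Tw s₁ B ⊗[O'] Tw s₂ B) →ₐ[O'] G3 s₀ s₁ s₂ B).comp
    (Algebra.TensorProduct.includeRight : Tw s₂ B →ₐ[O'] (Tw s₁ B ⊗[O'] Tw s₂ B)))
    (algebraMap O' (Tw s₂ B) c) = _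
  rw [AlgHom.commutes]

/-- A subring which contains the images of the three embeddings is everything. -/
theorem g3_induction (U : Subring (G3 s₀ s₁ s₂ B)) (h₀ : ∀ b, em₀ s₀ s₁ s₂ b ∈ U)
    (h₁ : ∀ b, em₁ s₀ s₁ s₂ b ∈ U) (h₂ : ∀ b, em₂ s₀ s₁ s₂ b ∈ U) (t : G3 s₀ s₁ s₂ B) :
    t ∈ U := by
  induction t using TensorProduct.induction_on with
  | zero => exact U.zero_mem
  | tmul b₀ t' =>
    obtain ⟨b₀, rfl⟩ := (toTw s₀ B).surjective b₀
    induction t' using TensorProduct.induction_on with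
    | zero =>
      rw [TensorProduct.tmul_zero]
      exact U.zero_mem
    | tmul b₁ b₂ =>
      obtain ⟨b₁, rfl⟩ := (toTw s₁ B).surjective b₁
      obtain ⟨b₂, rfl⟩ := (toTw s₂ B).surjective b₂
      rw [em_mul]
      exact U.mul_mem (h₀ _) (U.mul_mem (h₁ _) (h₂ _))
    | add x y hx hy =>
      rw [TensorProduct.tmul_add]
      exact U.add_mem hx hy
  | add x y hx hy => exact U.add_mem hx hy

end Defs

section Diag

variable {O' B ν : Type} [CommRing O'] [CommRing B] [Algebra O' B] {s₀ s₁ s₂ : O' →+* O'}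
  (hs₀ : ∀ c, s₀ c = c) (hb₁ : Function.Bijective s₁) (hb₂ : Function.Bijective s₂)
  {ϖ : O'} {r : ℕ} (hΔ₁ : ∀ c, ∃ y, s₁ c - c = y * ϖ ^ r) (hΔ₂ : ∀ c, ∃ y, s₂ c - c = y * ϖ ^ r)
  {ξ : ν → B} (hξ : Algebra.adjoin O' (Set.range ξ) = ⊤)

variable (s₀ s₁ s₂ ξ) in
/-- The equations of the diagonal. -/
def dZ : Set (G3 s₀ s₁ s₂ B) :=
  (Set.range fun l => em₁ s₀ s₁ s₂ (ξ l) - em₀ s₀ s₁ s₂ (ξ l)) ∪
    Set.range fun l => em₂ s₀ s₁ s₂ (ξ l) - em₁ s₀ s₁ s₂ (ξ l)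

include hs₀ in
theorem algebraMap_em₀ (c : O') : algebraMap O' (G3 s₀ s₁ s₂ B) c =
    em₀ s₀ s₁ s₂ (algebraMap O' B c) := by
  rw [← em₀_algebraMap, hs₀]

include hb₁ hb₂ hξ in
/-- Modulo the equations of the diagonal every element comes from the first factor. -/
theorem exists_sub_mem₃ (t : G3 s₀ s₁ s₂ B) :
    ∃ b : B, t - em₀ s₀ s₁ s₂ b ∈ Ideal.span (dZ s₀ s₁ s₂ ξ) := by
  obtain ⟨I, hI⟩ : ∃ I, I = Ideal.span (dZ s₀ s₁ s₂ ξ) := ⟨_, rfl⟩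
  rw [← hI]
  let U : Subring (G3 s₀ s₁ s₂ B) :=
    { carrier := {t | ∃ b : B, t - em₀ s₀ s₁ s₂ b ∈ I}
      mul_mem' := by
        rintro s t ⟨b, hb⟩ ⟨c, hc⟩
        refine ⟨b * c, ?_⟩
        have h1 : s * t - em₀ s₀ s₁ s₂ (b * c) = (s - em₀ s₀ s₁ s₂ b) * t +
            em₀ s₀ s₁ s₂ b * (t - em₀ s₀ s₁ s₂ c) := by
          rw [map_mul]
          ring
        rw [h1]
        exact I.add_mem (I.mul_mem_right _ hb) (I.mul_mem_left _ hc)
      one_mem' := ⟨1, by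
        rw [map_one, sub_self]
        exact I.zero_mem⟩
      add_mem' := by
        rintro s t ⟨b, hb⟩ ⟨c, hc⟩
        refine ⟨b + c, ?_⟩
        rw [map_add, add_sub_add_comm]
        exact I.add_mem hb hc
      zero_mem' := ⟨0, by
        rw [map_zero, sub_self]
        exact I.zero_mem⟩
      neg_mem' := by
        rintro s ⟨b, hb⟩
        refine ⟨-b, ?_⟩
        rw [map_neg, sub_neg_eq_add, neg_add_eq_sub, ← neg_sub]
        exact I.neg_mem hb }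
  have h0 : ∀ b : B, em₀ s₀ s₁ s₂ b ∈ U := fun b => ⟨b, by rw [sub_self]; exact I.zero_mem⟩
  have hc : ∀ c : O', algebraMap O' (G3 s₀ s₁ s₂ B) c ∈ U := fun c => by
    rw [← em₀_algebraMap]
    exact h0 _
  have hZ1 : ∀ l, em₁ s₀ s₁ s₂ (ξ l) - em₀ s₀ s₁ s₂ (ξ l) ∈ I := fun l => by
    rw [hI]
    exact Ideal.subset_span (Or.inl ⟨l, rfl⟩)
  have hZ2 : ∀ l, em₂ s₀ s₁ s₂ (ξ l) - em₁ s₀ s₁ s₂ (ξ l) ∈ I := fun l => by
    rw [hI]
    exact Ideal.subset_span (Or.inr ⟨l, rfl⟩)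
  have h1 : ∀ b : B, em₁ s₀ s₁ s₂ b ∈ U := by
    intro b
    have hb : b ∈ Algebra.adjoin O' (Set.range ξ) := by rw [hξ]; exact Algebra.mem_top
    induction hb using Algebra.adjoin_induction with
    | mem b hb =>
      obtain ⟨l, rfl⟩ := hb
      exact ⟨ξ l, hZ1 l⟩
    | algebraMap c =>
      obtain ⟨c, rfl⟩ := hb₁.2 c
      rw [em₁_algebraMap]
      exact hc c
    | add a b _ _ ha hb =>
      rw [map_add]
      exact U.add_mem ha hb
    | mul a b _ _ ha hb =>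
      rw [map_mul]
      exact U.mul_mem ha hb
  have h2 : ∀ b : B, em₂ s₀ s₁ s₂ b ∈ U := by
    intro b
    have hb : b ∈ Algebra.adjoin O' (Set.range ξ) := by rw [hξ]; exact Algebra.mem_top
    induction hb using Algebra.adjoin_induction with
    | mem b hb =>
      obtain ⟨l, rfl⟩ := hb
      refine ⟨ξ l, ?_⟩
      rw [← sub_add_sub_cancel _ (em₁ s₀ s₁ s₂ (ξ l))]
      exact I.add_mem (hZ2 l) (hZ1 l)
    | algebraMap c =>
      obtain ⟨c, rfl⟩ := hb₂.2 c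
      rw [em₂_algebraMap]
      exact hc c
    | add a b _ _ ha hb =>
      rw [map_add]
      exact U.add_mem ha hb
    | mul a b _ _ ha hb =>
      rw [map_mul]
      exact U.mul_mem ha hb
  exact g3_induction U h0 h1 h2 t

/-- The map of a twist to the quotient modulo `ϖ ^ m`. -/
theorem exists_twq {s : O' →+* O'} (hΔ : ∀ c, ∃ y, s c - c = y * ϖ ^ r) {m : ℕ} (hm : m ≤ r) :
    ∃ q : Tw s B →ₐ[O'] B ⧸ Ideal.span {algebraMap O' B ϖ ^ m}, ∀ b,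
      q (toTw s B b) = Ideal.Quotient.mk _ b := by
  let q : Tw s B →ₐ[O'] B ⧸ Ideal.span {algebraMap O' B ϖ ^ m} :=
    { (Ideal.Quotient.mk (Ideal.span {algebraMap O' B ϖ ^ m})).comp
        (toTw s B).symm.toRingHom with
      commutes' := by
        intro c
        change Ideal.Quotient.mk _ (algebraMap O' B (s c)) = Ideal.Quotient.mk _ (algebraMap O' B c)
        rw [Ideal.Quotient.mk_eq_mk_iff_sub_mem, ← map_sub]
        obtain ⟨y, hy⟩ := hΔ c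
        rw [hy, map_mul, map_pow, ← Nat.add_sub_cancel' hm, pow_add]
        exact Ideal.mul_mem_left _ _ (Ideal.mul_mem_right _ _ (Ideal.mem_span_singleton_self _)) }
  exact ⟨q, fun b => rfl⟩

include hs₀ hΔ₁ hΔ₂ in
/-- The map to the diagonal modulo `ϖ ^ m`. -/
theorem exists_diag₃ {m : ℕ} (hm : m ≤ r) :
    ∃ π : G3 s₀ s₁ s₂ B →+* B ⧸ Ideal.span {algebraMap O' B ϖ ^ m},
      (∀ b, π (em₀ s₀ s₁ s₂ b) = Ideal.Quotient.mk _ b) ∧
      (∀ b, π (em₁ s₀ s₁ s₂ b) = Ideal.Quotient.mk _ b) ∧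
      ∀ b, π (em₂ s₀ s₁ s₂ b) = Ideal.Quotient.mk _ b := by
  have hΔ₀ : ∀ c, ∃ y, s₀ c - c = y * ϖ ^ r := fun c => ⟨0, by rw [hs₀, sub_self, zero_mul]⟩
  obtain ⟨q₀, hq₀⟩ := exists_twq (B := B) hΔ₀ hm
  obtain ⟨q₁, hq₁⟩ := exists_twq (B := B) hΔ₁ hm
  obtain ⟨q₂, hq₂⟩ := exists_twq (B := B) hΔ₂ hm
  obtain ⟨π, hπ⟩ : ∃ π, π = Algebra.TensorProduct.productMap q₀
    (Algebra.TensorProduct.productMap q₁ q₂) := ⟨_, rfl⟩
  refine ⟨π.toRingHom, fun b => ?_, fun b => ?_, fun b => ?_⟩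
  · change π (toTw s₀ B b ⊗ₜ 1) = _
    rw [hπ, Algebra.TensorProduct.productMap_apply_tmul, map_one, mul_one, hq₀]
  · change π (1 ⊗ₜ (toTw s₁ B b ⊗ₜ 1)) = _
    rw [hπ, Algebra.TensorProduct.productMap_apply_tmul,
      Algebra.TensorProduct.productMap_apply_tmul, map_one, map_one, mul_one, one_mul, hq₁]
  · change π (1 ⊗ₜ (1 ⊗ₜ toTw s₂ B b)) = _
    rw [hπ, Algebra.TensorProduct.productMap_apply_tmul,
      Algebra.TensorProduct.productMap_apply_tmul, map_one, map_one, one_mul, one_mul, hq₂]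

include hs₀ hb₁ hb₂ hξ in
/-- The kernel of the map to the diagonal. -/
theorem diag_ker₃ {m : ℕ} (π : G3 s₀ s₁ s₂ B →+* B ⧸ Ideal.span {algebraMap O' B ϖ ^ m})
    (h0 : ∀ b, π (em₀ s₀ s₁ s₂ b) = Ideal.Quotient.mk _ b)
    (h1 : ∀ b, π (em₁ s₀ s₁ s₂ b) = Ideal.Quotient.mk _ b)
    (h2 : ∀ b, π (em₂ s₀ s₁ s₂ b) = Ideal.Quotient.mk _ b) (t : G3 s₀ s₁ s₂ B) :
    π t = 0 ↔ t ∈ Ideal.span (insert (algebraMap O' (G3 s₀ s₁ s₂ B) ϖ ^ m)
      (dZ s₀ s₁ s₂ ξ)) := by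
  have hπZ : ∀ t ∈ Ideal.span (dZ s₀ s₁ s₂ ξ), π t = 0 := by
    intro t ht
    have hle : Ideal.span (dZ s₀ s₁ s₂ ξ) ≤ RingHom.ker π := by
      rw [Ideal.span_le]
      rintro _ (⟨l, rfl⟩ | ⟨l, rfl⟩)
      · change π (_ - _) = 0
        rw [map_sub, h1, h0, sub_self]
      · change π (_ - _) = 0
        rw [map_sub, h2, h1, sub_self]
    exact hle ht
  constructor
  · intro ht
    obtain ⟨b, hb⟩ := exists_sub_mem₃ (s₀ := s₀) hb₁ hb₂ hξ t
    have h3 := hπZ _ hb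
    rw [map_sub, ht, zero_sub, neg_eq_zero, h0, Ideal.Quotient.eq_zero_iff_mem,
      Ideal.mem_span_singleton'] at h3
    obtain ⟨b', hb'⟩ := h3
    have h4 : t = (t - em₀ s₀ s₁ s₂ b) + em₀ s₀ s₁ s₂ b' *
        algebraMap O' (G3 s₀ s₁ s₂ B) ϖ ^ m := by
      rw [algebraMap_em₀ hs₀, ← map_pow, ← map_mul, hb']
      ring
    rw [h4]
    exact Ideal.add_mem _ (Ideal.span_mono (Set.subset_insert _ _) hb)
      (Ideal.mul_mem_left _ _ (Ideal.subset_span (Set.mem_insert _ _)))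
  · intro ht
    have hle : Ideal.span (insert (algebraMap O' (G3 s₀ s₁ s₂ B) ϖ ^ m) (dZ s₀ s₁ s₂ ξ)) ≤
        RingHom.ker π := by
      rw [Ideal.span_le]
      rintro t (rfl | ht)
      · have e1 : algebraMap O' (G3 s₀ s₁ s₂ B) ϖ ^ m = em₀ s₀ s₁ s₂ (algebraMap O' B ϖ ^ m) := by
          rw [map_pow, algebraMap_em₀ hs₀]
        change π _ = 0
        rw [e1, h0, Ideal.Quotient.eq_zero_iff_mem]
        exact Ideal.mem_span_singleton_self _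
      · exact hπZ t (Ideal.subset_span ht)
    exact hle ht

include hs₀ hb₁ hb₂ hΔ₁ hΔ₂ hξ in
/-- Flatness of the diagonal over the thickened special fibre. -/
theorem diag_flat₃ (hr : 1 ≤ r) (htf : ∀ b : B, algebraMap O' B ϖ * b = 0 → b = 0)
    (a : G3 s₀ s₁ s₂ B)
    (ha : algebraMap O' (G3 s₀ s₁ s₂ B) ϖ * a ∈
      Ideal.span (insert (algebraMap O' (G3 s₀ s₁ s₂ B) ϖ ^ r) (dZ s₀ s₁ s₂ ξ))) :
    a ∈ Ideal.span (insert (algebraMap O' (G3 s₀ s₁ s₂ B) ϖ ^ (r - 1)) (dZ s₀ s₁ s₂ ξ)) := by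
  obtain ⟨π, h0, h1, h2⟩ := exists_diag₃ (B := B) hs₀ hΔ₁ hΔ₂ le_rfl
  have hker := diag_ker₃ hs₀ hb₁ hb₂ hξ π h0 h1 h2
  obtain ⟨b, hb⟩ := exists_sub_mem₃ (s₀ := s₀) hb₁ hb₂ hξ a
  have h3 : π (a - em₀ s₀ s₁ s₂ b) = 0 := by
    rw [hker]
    exact Ideal.span_mono (Set.subset_insert _ _) hb
  rw [map_sub, h0, sub_eq_zero] at h3
  rw [← hker, map_mul, h3, algebraMap_em₀ hs₀, h0, ← map_mul,
    Ideal.Quotient.eq_zero_iff_mem, Ideal.mem_span_singleton'] at ha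
  obtain ⟨b', hb'⟩ := ha
  obtain ⟨r', rfl⟩ : ∃ r', r = r' + 1 := ⟨r - 1, by omega⟩
  have h4 : b = b' * algebraMap O' B ϖ ^ r' := by
    rw [← sub_eq_zero]
    apply htf
    rw [mul_sub, ← hb', pow_succ]
    ring
  have h5 : a = (a - em₀ s₀ s₁ s₂ b) + em₀ s₀ s₁ s₂ b' *
      algebraMap O' (G3 s₀ s₁ s₂ B) ϖ ^ r' := by
    rw [algebraMap_em₀ hs₀, ← map_pow, ← map_mul, ← h4]
    ring
  rw [Nat.add_sub_cancel, h5]
  exact Ideal.add_mem _ (Ideal.span_mono (Set.subset_insert _ _) hb)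
    (Ideal.mul_mem_left _ _ (Ideal.subset_span (Set.mem_insert _ _)))

end Diag

section Loc

/-- Flatness of the localization. -/
theorem flat_loc {G A : Type} [CommRing G] [CommRing A] [Algebra G A] (𝔮 : Ideal G) [𝔮.IsPrime]
    [IsLocalization.AtPrime A 𝔮] {a : G} {Z : Set G} {r : ℕ}
    (h : ∀ x, a * x ∈ Ideal.span (insert (a ^ r) Z) → x ∈ Ideal.span (insert (a ^ (r - 1)) Z))
    (x : A) (hx : algebraMap G A a * x ∈
      Ideal.span (insert (algebraMap G A a ^ r) (algebraMap G A '' Z))) :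
    x ∈ Ideal.span (insert (algebraMap G A a ^ (r - 1)) (algebraMap G A '' Z)) := by
  have hmap : ∀ j, Ideal.span (insert (algebraMap G A a ^ j) (algebraMap G A '' Z)) =
      (Ideal.span (insert (a ^ j) Z)).map (algebraMap G A) := by
    intro j
    rw [Ideal.map_span, Set.image_insert_eq, map_pow]
  rw [hmap] at hx ⊢
  obtain ⟨t, s, rfl⟩ := IsLocalization.exists_mk'_eq 𝔮.primeCompl x
  have h1 : algebraMap G A (a * t) ∈ (Ideal.span (insert (a ^ r) Z)).map (algebraMap G A) := by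
    have h2 : algebraMap G A (a * t) = algebraMap G A s *
        (algebraMap G A a * IsLocalization.mk' A t s) := by
      rw [map_mul]
      have h3 := IsLocalization.mk'_spec A t s
      linear_combination (-(algebraMap G A a)) * h3
    rw [h2]
    exact Ideal.mul_mem_left _ _ hx
  rw [IsLocalization.algebraMap_mem_map_algebraMap_iff 𝔮.primeCompl] at h1
  obtain ⟨m, hm, h2⟩ := h1
  have h3 : a * (m * t) ∈ Ideal.span (insert (a ^ r) Z) := by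
    have h4 : a * (m * t) = m * (a * t) := by ring
    rw [h4]
    exact h2
  have h5 := Ideal.mem_map_of_mem (algebraMap G A) (h _ h3)
  have hm' : IsUnit (algebraMap G A m) := IsLocalization.map_units A (⟨m, hm⟩ : 𝔮.primeCompl)
  have hs' : IsUnit (algebraMap G A s) := IsLocalization.map_units A s
  obtain ⟨w, hw⟩ := hm'.exists_left_inv
  obtain ⟨w', hw'⟩ := hs'.exists_left_inv
  have h6 : IsLocalization.mk' A t s = (w * w') * algebraMap G A (m * t) := by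
    have h7 := IsLocalization.mk'_spec A t s
    rw [map_mul, ← h7]
    linear_combination (-(IsLocalization.mk' A t s)) * hw' - (algebraMap G A s * w' *
      IsLocalization.mk' A t s) * hw
  rw [h6]
  exact Ideal.mul_mem_left _ _ h5

end Loc

end Pool.Agent.Lib.MP_6a3dac_ag.W3
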