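import Pool.Agent.Lib.MP_6a3dac_ag.W3.T2b

/-!
# The charts of the product of the conjugates at the primes of the base
-/

set_option autoImplicit false
set_option linter.unusedSectionVars false
set_option linter.unusedVariables false

namespace Pool.Agent.Lib.MP_6a3dac_ag.W3

open MvPolynomial TensorProduct Pool.Agent.Lib.MP_6a3dac_ag IsLocalRing CategoryTheory Limits
  AlgebraicGeometry

attribute [local instance] MvPolynomial.gradedAlgebra

section Rho

variable {O F : Type} [CommRing O] [Field F] [Algebra O F] {n : ℕ}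
  (𝔞 : HomogeneousIdeal (homogeneousSubmodule (Fin n) O))

/-- The map of a chart ring to a field. -/
theorem exists_rho (x : Fin n → F) (hx : ∀ f ∈ 𝔞.toIdeal, eval₂ (algebraMap O F) x f = 0)
    (a : Fin n) (ha : x a ≠ 0) :
    ∃ ρ : ChartRing 𝔞 a →ₐ[O] F, ∀ k, ρ (chartX 𝔞 a k) * x a = x k := by
  let g : CoordQuot 𝔞 →+* F := Ideal.Quotient.lift _ (eval₂Hom (algebraMap O F) x) hx
  have hgX : ∀ k, g (sCl 𝔞 k) = x k := by
    intro k
    change eval₂Hom (algebraMap O F) x (X k) = _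
    rw [coe_eval₂Hom, eval₂_X]
  have hgC : ∀ c : O, g (algebraMap O (CoordQuot 𝔞) c) = algebraMap O F c := by
    intro c
    change eval₂Hom (algebraMap O F) x (C c) = _
    rw [coe_eval₂Hom, eval₂_C]
  have hu : IsUnit (g (sCl 𝔞 a)) := by
    rw [hgX]
    exact ha.isUnit
  let g' : Localization.Away (sCl 𝔞 a) →+* F := IsLocalization.Away.lift (sCl 𝔞 a) hu
  have hg' : ∀ z, g' (algebraMap _ _ z) = g z := fun z => IsLocalization.Away.lift_eq _ hu z
  let ρ : ChartRing 𝔞 a →ₐ[O] F :=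
    { g'.comp (chartVal 𝔞 a) with
      commutes' := fun c => by
        change g' (chartVal 𝔞 a (algebraMap O (ChartRing 𝔞 a) c)) = _
        rw [chartVal_algebraMap, hg', hgC] }
  refine ⟨ρ, fun k => ?_⟩
  change g' (chartVal 𝔞 a (chartX 𝔞 a k)) * x a = x k
  rw [chartVal_chartX', map_mul, hg', hgX, ← hgX a, ← hg' (sCl 𝔞 a), mul_right_comm, ← map_mul,
    invS_mul, map_one, one_mul]

end Rho

section Tw

variable {O O' O'' F : Type} [CommRing O] [CommRing O'] [CommRing O''] [Field F] [Algebra O F]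
  [Algebra O' F] [Algebra O'' F] [Algebra O O''] [IsScalarTower O O'' F] {n : ℕ}
  {𝔞 : HomogeneousIdeal (homogeneousSubmodule (Fin n) O)}

/-- The chart of a conjugate. -/
theorem factor_tw {s : O' →+* O''} (hs : Function.Bijective s) (t : F →+* F)
    (hsF : ∀ c, t (algebraMap O'' F (s c)) = algebraMap O' F c) (h : O →+* O')
    (hh : ∀ c, s (h c) = algebraMap O O'' c) {x x' : Fin n → F} (hx : ∀ k, t (x k) = x' k)
    {a : Fin n} (ρ : ChartRing 𝔞 a →ₐ[O] F) (hρ : ∀ k, ρ (chartX 𝔞 a k) * x a = x k)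
    (hfl : Flat (projTo O (coordGr 𝔞)))
    (hreg : IsRegularRing (O'' ⊗[O] ChartRing 𝔞 a)) :
    Factor 𝔞.toIdeal h x' a (B := Tw s (O'' ⊗[O] ChartRing 𝔞 a))
      (fun k => toTw s (O'' ⊗[O] ChartRing 𝔞 a) (1 ⊗ₜ chartX 𝔞 a k)) (twMap ρ t s hsF) := by
  have hflC := flat_chartRing 𝔞 a hfl
  refine ⟨?_, ?_, ?_, ?_, ?_, ?_⟩
  · rw [chartX_self]
    rfl
  · exact adjoin_tw s hs _ _ (adjoin_baseChange _ (adjoin_chartX 𝔞 a))
  · intro g hg
    have h1 : toTw s (O'' ⊗[O] ChartRing 𝔞 a)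
        ((Algebra.TensorProduct.includeRight : ChartRing 𝔞 a →ₐ[O] O'' ⊗[O] ChartRing 𝔞 a)
          (aeval (chartX 𝔞 a) g)) = 0 := by
      rw [aeval_chartX 𝔞 a hg, map_zero, map_zero]
    rw [← h1]
    change _ = ((toTw s (O'' ⊗[O] ChartRing 𝔞 a)).toRingHom.comp
      (Algebra.TensorProduct.includeRight : ChartRing 𝔞 a →ₐ[O] O'' ⊗[O] ChartRing 𝔞 a).toRingHom)
        (eval₂ (algebraMap O (ChartRing 𝔞 a)) (chartX 𝔞 a) g)
    rw [eval₂_comp_left]
    congr 1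
    ext c
    change algebraMap O' (Tw s (O'' ⊗[O] ChartRing 𝔞 a)) (h c) = toTw s (O'' ⊗[O] ChartRing 𝔞 a)
      (1 ⊗ₜ algebraMap O (ChartRing 𝔞 a) c)
    rw [algebraMap_tw, hh, one_tmul_algebraMap]
  · have : Module.Flat O'' (O'' ⊗[O] ChartRing 𝔞 a) := inferInstance
    exact flat_tw s hs _
  · exact IsRegularRing.of_ringEquiv (toTw s (O'' ⊗[O] ChartRing 𝔞 a))
  · intro k
    change t (locMap O'' ρ (1 ⊗ₜ chartX 𝔞 a k)) * x' a = x' k
    rw [locMap_tmul, map_one, one_mul, ← hx, ← map_mul, hρ, hx]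

end Tw

section Psi

variable {O L : Type} [CommRing O] [Field L] [Algebra O L]

variable (O) in
/-- The three conjugates of the inclusion. -/
def psi3 (σ : L →+* L) : Fin 3 → O →+* L :=
  ![algebraMap O L, σ.comp (algebraMap O L), (σ.comp σ).comp (algebraMap O L)]

theorem psi3_zero (σ : L →+* L) (c : O) : psi3 O σ 0 c = algebraMap O L c := rfl

theorem psi3_one (σ : L →+* L) (c : O) : psi3 O σ 1 c = σ (algebraMap O L c) := rfl

theorem psi3_two (σ : L →+* L) (c : O) : psi3 O σ 2 c = σ (σ (algebraMap O L c)) := rfl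

theorem psi3_injective (σ : L →+* L) (hOL : Function.Injective (algebraMap O L)) (φ : Fin 3) :
    Function.Injective (psi3 O σ φ) := by
  have h3 : φ = 0 ∨ φ = 1 ∨ φ = 2 := by omega
  rcases h3 with rfl | rfl | rfl
  · exact hOL
  · exact σ.injective.comp hOL
  · exact (σ.injective.comp σ.injective).comp hOL

/-- The rotation of the factors. -/
def rot (φ : Fin 3) : Fin 3 := φ + 1

theorem rot_bijective : Function.Bijective rot := by
  decide

variable {σ : L →+* L} (hσ3 : ∀ c, σ (σ (σ c)) = c)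

include hσ3 in
theorem psi3_rot (φ : Fin 3) (c : O) : σ (psi3 O σ φ c) = psi3 O σ (rot φ) c := by
  have h3 : φ = 0 ∨ φ = 1 ∨ φ = 2 := by omega
  rcases h3 with rfl | rfl | rfl
  · rfl
  · rfl
  · exact hσ3 _

end Psi

section Main

variable {R O S L F : Type} [CommRing R] [CommRing O] [CommRing S] [IsDomain S] [Algebra R S]
  [Algebra O S] [Field L] [Algebra R L] [Algebra S L] [Algebra O L] [IsScalarTower R S L]
  [IsScalarTower O S L] [IsFractionRing S L] {n : ℕ} {σ : L →+* L}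
  {𝔞 : HomogeneousIdeal (homogeneousSubmodule (Fin n) O)} [Field F] [Algebra L F]
  [Algebra S F] [IsScalarTower S L F]
  (ιP : MultRing (psi3 O σ) 𝔞.toIdeal →ₐ[L] F) (hιP : Function.Injective ιP)
  {τF : F →+* F}
  (hτx : ∀ j k, τF (ιP (cl (psi3 O σ) 𝔞.toIdeal j k)) = ιP (cl (psi3 O σ) 𝔞.toIdeal (rot j) k))
  (hτL : ∀ c : L, τF (algebraMap L F c) = algebraMap L F (σ c))
  {σS : S →+* S} (hσS : ∀ c, algebraMap S L (σS c) = σ (algebraMap S L c))
  (hσS3 : ∀ c, σS (σS (σS c)) = c)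

section Aux

variable {O' : Type} [CommRing O'] [Algebra S O'] [Algebra O' F] [IsScalarTower S O' F]
  {𝔓 : Ideal S} [𝔓.IsPrime] [IsLocalization.AtPrime O' 𝔓]

theorem segMap₃_algebraMap (l : L) :
    segMap₃ ιP (algebraMap L (segAlg (psi3 O σ) 𝔞.toIdeal) l) = algebraMap L F l :=
  ιP.commutes l

theorem segMap₃_oM (c : S) :
    segMap₃ ιP (oM S L (segAlg (psi3 O σ) 𝔞.toIdeal) c) = algebraMap S F c := by
  rw [oM, RingHom.comp_apply, segMap₃_algebraMap, ← IsScalarTower.algebraMap_apply]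

theorem exists_of_mem_lamP₃ {p : Ideal R} [p.IsPrime] (hp𝔓 : 𝔓.comap (algebraMap R S) = p)
    (hSF : Function.Injective (algebraMap S F)) {m : segAlg (psi3 O σ) 𝔞.toIdeal}
    (hm : m ∈ lamP S L (segAlg (psi3 O σ) 𝔞.toIdeal) p) :
    ∃ c : O', algebraMap O' F c = segMap₃ ιP m := by
  obtain ⟨n, hn, c, hc, l, rfl⟩ := hm
  have hn' : algebraMap R S n ∉ 𝔓 := by rwa [← hp𝔓] at hn
  refine ⟨IsLocalization.mk' O' c (⟨algebraMap R S n, hn'⟩ : 𝔓.primeCompl), ?_⟩
  have h1 := congrArg (algebraMap O' F) (IsLocalization.mk'_spec O' c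
    (⟨algebraMap R S n, hn'⟩ : 𝔓.primeCompl))
  rw [map_mul, ← IsScalarTower.algebraMap_apply S O' F,
    ← IsScalarTower.algebraMap_apply S O' F] at h1
  have h2 := congrArg (segMap₃ ιP) hc
  rw [map_mul, segMap₃_oM, ← oM_algebraMap (O := S) (L := L), segMap₃_oM] at h2
  have h3 : algebraMap S F (algebraMap R S n) ≠ 0 := by
    rw [Ne, map_eq_zero_iff _ hSF]
    intro h0
    apply hn'
    rw [h0]
    exact 𝔓.zero_mem
  apply mul_right_cancel₀ h3
  rw [h1, ← h2, mul_comm]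

theorem exists_lamP_of_loc {p : Ideal R} [p.IsPrime] {D : Subring F}
    (hunit : ∀ s, s ∉ 𝔓 → ∃ w ∈ D, algebraMap S F s * w = 1) (c : O') :
    ∃ m ∈ lamP S L (segAlg (psi3 O σ) 𝔞.toIdeal) p,
      ∃ s ∈ lamP S L (segAlg (psi3 O σ) 𝔞.toIdeal) p, (∃ w ∈ D, segMap₃ ιP s * w = 1) ∧
      algebraMap O' F c * segMap₃ ιP s = segMap₃ ιP m := by
  obtain ⟨a, s, rfl⟩ := IsLocalization.exists_mk'_eq 𝔓.primeCompl c
  refine ⟨_, oM_mem_lamP p a, _, oM_mem_lamP p (s : S), ?_, ?_⟩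
  · rw [segMap₃_oM]
    exact hunit s s.2
  · rw [segMap₃_oM, segMap₃_oM]
    have h1 := congrArg (algebraMap O' F) (IsLocalization.mk'_spec O' a s)
    rwa [map_mul, ← IsScalarTower.algebraMap_apply S O' F,
      ← IsScalarTower.algebraMap_apply S O' F] at h1

end Aux

end Main

section Hom

variable {S F : Type} [CommRing S] [Field F] [Algebra S F] {𝔓 𝔔 : Ideal S} [𝔓.IsPrime]
  [𝔔.IsPrime] {θ θ' : S →+* S} (h1 : 𝔓 = 𝔔.comap θ)

theorem localRingHom_comp_id (h2 : 𝔔 = 𝔓.comap θ') (hθ : ∀ c, θ' (θ c) = c)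
    (c : Localization.AtPrime 𝔓) :
    Localization.localRingHom 𝔔 𝔓 θ' h2 (Localization.localRingHom 𝔓 𝔔 θ h1 c) = c := by
  have h3 : (Localization.localRingHom 𝔔 𝔓 θ' h2).comp (Localization.localRingHom 𝔓 𝔔 θ h1) =
      RingHom.id _ := by
    apply IsLocalization.ringHom_ext 𝔓.primeCompl
    ext c
    rw [RingHom.comp_apply, RingHom.comp_apply, Localization.localRingHom_to_map,
      Localization.localRingHom_to_map, hθ]
    rfl
  exact RingHom.congr_fun h3 c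

theorem localRingHom_bijective (h2 : 𝔔 = 𝔓.comap θ') (hθ : ∀ c, θ' (θ c) = c)
    (hθ' : ∀ c, θ (θ' c) = c) : Function.Bijective (Localization.localRingHom 𝔓 𝔔 θ h1) :=
  Function.bijective_iff_has_inverse.mpr ⟨Localization.localRingHom 𝔔 𝔓 θ' h2,
    localRingHom_comp_id h1 h2 hθ, localRingHom_comp_id h2 h1 hθ'⟩

theorem localRingHom_field [Algebra (Localization.AtPrime 𝔓) F]
    [IsScalarTower S (Localization.AtPrime 𝔓) F] [Algebra (Localization.AtPrime 𝔔) F]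
    [IsScalarTower S (Localization.AtPrime 𝔔) F] (t : F →+* F)
    (ht : ∀ c, t (algebraMap S F (θ c)) = algebraMap S F c) (c : Localization.AtPrime 𝔓) :
    t (algebraMap (Localization.AtPrime 𝔔) F (Localization.localRingHom 𝔓 𝔔 θ h1 c)) =
      algebraMap (Localization.AtPrime 𝔓) F c := by
  have h3 : (t.comp (algebraMap (Localization.AtPrime 𝔔) F)).comp
      (Localization.localRingHom 𝔓 𝔔 θ h1) = algebraMap (Localization.AtPrime 𝔓) F := by
    apply IsLocalization.ringHom_ext 𝔓.primeCompl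
    ext c
    rw [RingHom.comp_apply, RingHom.comp_apply, RingHom.comp_apply, RingHom.comp_apply,
      Localization.localRingHom_to_map,
      ← IsScalarTower.algebraMap_apply S (Localization.AtPrime 𝔔) F,
      ← IsScalarTower.algebraMap_apply S (Localization.AtPrime 𝔓) F, ht]
  exact RingHom.congr_fun h3 c

end Hom

section Main

variable {R O S L F : Type} [CommRing R] [CommRing O] [CommRing S] [IsDomain S] [Algebra R S]
  [Algebra O S] [Field L] [Algebra R L] [Algebra S L] [Algebra O L] [IsScalarTower R S L]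
  [IsScalarTower O S L] [IsFractionRing S L] {n : ℕ} {σ : L →+* L}
  {𝔞 : HomogeneousIdeal (homogeneousSubmodule (Fin n) O)} [Field F] [Algebra L F]
  [Algebra S F] [IsScalarTower S L F]
  (ιP : MultRing (psi3 O σ) 𝔞.toIdeal →ₐ[L] F) (hιP : Function.Injective ιP)
  {τF : F →+* F}
  (hτx : ∀ j k, τF (ιP (cl (psi3 O σ) 𝔞.toIdeal j k)) = ιP (cl (psi3 O σ) 𝔞.toIdeal (rot j) k))
  (hτL : ∀ c : L, τF (algebraMap L F c) = algebraMap L F (σ c))
  {σS : S →+* S} (hσS : ∀ c, algebraMap S L (σS c) = σ (algebraMap S L c))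
  (hσS3 : ∀ c, σS (σS (σS c)) = c)

omit [IsFractionRing S L] in
/-- The relations of the coordinates. -/
theorem eval_cl_zero [Algebra O F] [IsScalarTower O L F] {f : MvPolynomial (Fin n) O}
    (hf : f ∈ 𝔞.toIdeal) :
    eval₂ (algebraMap O F) (fun k => ιP (cl (psi3 O σ) 𝔞.toIdeal 0 k)) f = 0 := by
  have h1 : (eval₂Hom (algebraMap O F) fun k => ιP (cl (psi3 O σ) 𝔞.toIdeal 0 k)) =
      ((ιP : MultRing (psi3 O σ) 𝔞.toIdeal →+* F).comp (Ideal.Quotient.mk _)).comp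
        (fHom (psi3 O σ) n 0) := by
    apply MvPolynomial.ringHom_ext
    · intro c
      rw [coe_eval₂Hom, eval₂_C, RingHom.comp_apply, RingHom.comp_apply, fHom_C]
      change _ = ιP (algebraMap L _ (psi3 O σ 0 c))
      rw [AlgHom.commutes, psi3_zero, ← IsScalarTower.algebraMap_apply]
    · intro k
      rw [coe_eval₂Hom, eval₂_X, RingHom.comp_apply, RingHom.comp_apply, fHom_X]
      rfl
  have h2 := RingHom.congr_fun h1 f
  rw [RingHom.comp_apply, RingHom.comp_apply, Ideal.Quotient.eq_zero_iff_mem.mpr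
    (fHom_mem (psi3 O σ) 𝔞.toIdeal hf 0), map_zero] at h2
  exact h2

include hτL hσS in
theorem tauF_algebraMap (c : S) : τF (algebraMap S F c) = algebraMap S F (σS c) := by
  rw [IsScalarTower.algebraMap_apply S L F, hτL, ← hσS, ← IsScalarTower.algebraMap_apply]

/-- The chart ring over the localization of `S` at `𝔓`. -/
abbrev LocChart {O : Type} [CommRing O] {n : ℕ}
    (𝔞 : HomogeneousIdeal (homogeneousSubmodule (Fin n) O)) {S : Type} [CommRing S] [Algebra O S]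
    (𝔓 : Ideal S) [𝔓.IsPrime] (a : Fin n) : Type :=
  Localization.AtPrime 𝔓 ⊗[O] ChartRing 𝔞 a

include hσS3 in
theorem comap_three (𝔓 : Ideal S) : 𝔓 = (𝔓.comap σS).comap (σS.comp σS) := by
  ext c
  rw [Ideal.mem_comap, Ideal.mem_comap, RingHom.comp_apply, hσS3]

include hσS3 in
theorem comap_three' (𝔓 : Ideal S) : 𝔓 = (𝔓.comap (σS.comp σS)).comap σS := by
  ext c
  rw [Ideal.mem_comap, Ideal.mem_comap, RingHom.comp_apply, hσS3]

theorem comap_ne_bot {S : Type} [CommRing S] {θ θ' : S →+* S} (hθ : ∀ c, θ (θ' c) = c)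
    {𝔓 : Ideal S} (h𝔓 : 𝔓 ≠ ⊥) : 𝔓.comap θ ≠ ⊥ := by
  intro h0
  apply h𝔓
  rw [eq_bot_iff]
  intro c hc
  have h1 : θ' c ∈ 𝔓.comap θ := by
    rw [Ideal.mem_comap, hθ]
    exact hc
  rw [h0, Ideal.mem_bot] at h1
  rw [← hθ c, h1, map_zero]
  exact Ideal.zero_mem _

theorem towerLoc {O S F : Type} [CommRing O] [CommRing S] [Algebra O S] [Field F] [Algebra S F]
    [Algebra O F] [IsScalarTower O S F] (𝔔 : Ideal S) [𝔔.IsPrime]
    [Algebra (Localization.AtPrime 𝔔) F] [IsScalarTower S (Localization.AtPrime 𝔔) F] :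
    IsScalarTower O (Localization.AtPrime 𝔔) F :=
  IsScalarTower.of_algebraMap_eq fun c => by
    rw [IsScalarTower.algebraMap_apply O S (Localization.AtPrime 𝔔),
      ← IsScalarTower.algebraMap_apply S (Localization.AtPrime 𝔔) F,
      ← IsScalarTower.algebraMap_apply]

/-- The charts of the conjugates. -/
theorem factor_conj {O S F : Type} [CommRing O] [CommRing S] [Algebra O S] [Field F] [Algebra S F]
    [Algebra O F] [IsScalarTower O S F] {n : ℕ}
    {𝔞 : HomogeneousIdeal (homogeneousSubmodule (Fin n) O)} {𝔓 𝔔 : Ideal S} [𝔓.IsPrime]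
    [𝔔.IsPrime] {θ θ' : S →+* S} (h1 : 𝔓 = 𝔔.comap θ) (h2 : 𝔔 = 𝔓.comap θ')
    (hθ : ∀ c, θ' (θ c) = c) (hθ' : ∀ c, θ (θ' c) = c) [Algebra (Localization.AtPrime 𝔓) F]
    [IsScalarTower S (Localization.AtPrime 𝔓) F] [Algebra (Localization.AtPrime 𝔔) F]
    [IsScalarTower S (Localization.AtPrime 𝔔) F] (t : F →+* F)
    (ht : ∀ c, t (algebraMap S F (θ c)) = algebraMap S F c) (h : O →+* Localization.AtPrime 𝔓)
    (hh : ∀ c, h c = algebraMap S _ (θ' (algebraMap O S c))) {x x' : Fin n → F}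
    (hx : ∀ k, t (x k) = x' k) {a : Fin n} (ρ : ChartRing 𝔞 a →ₐ[O] F)
    (hρ : ∀ k, ρ (chartX 𝔞 a k) * x a = x k) (hfl : Flat (projTo O (coordGr 𝔞)))
    (hreg : IsRegularRing (LocChart 𝔞 𝔔 a)) :
    haveI : IsScalarTower O (Localization.AtPrime 𝔔) F := towerLoc 𝔔
    Factor 𝔞.toIdeal h x' a (B := Tw (Localization.localRingHom 𝔓 𝔔 θ h1) (LocChart 𝔞 𝔔 a))
      (fun k => toTw (Localization.localRingHom 𝔓 𝔔 θ h1) (LocChart 𝔞 𝔔 a)
        (1 ⊗ₜ chartX 𝔞 a k)) (twMap ρ t _ (localRingHom_field h1 t ht)) := by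
  have : IsScalarTower O (Localization.AtPrime 𝔔) F := towerLoc 𝔔
  refine factor_tw (localRingHom_bijective h1 h2 hθ hθ') t (localRingHom_field h1 t ht) h
    (fun c => ?_) hx ρ hρ hfl hreg
  rw [hh, Localization.localRingHom_to_map, hθ']
  exact (IsScalarTower.algebraMap_apply O S _ c).symm

/-- The smoothness of two of the three conjugates. -/
def TwoSmooth {O : Type} [CommRing O] {n : ℕ}
    (𝔞 : HomogeneousIdeal (homogeneousSubmodule (Fin n) O)) {S : Type} [CommRing S] [Algebra O S]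
    (σS : S →+* S) (𝔓 : Ideal S) [𝔓.IsPrime] : Prop :=
  let Sm : ∀ (𝔔 : Ideal S) [𝔔.IsPrime], Prop := fun 𝔔 _ =>
    ∀ a, Algebra.Smooth (Localization.AtPrime 𝔔) (LocChart 𝔞 𝔔 a)
  (Sm (𝔓.comap σS) ∧ Sm (𝔓.comap (σS.comp σS))) ∨ (Sm 𝔓 ∧ Sm (𝔓.comap (σS.comp σS))) ∨
    (Sm 𝔓 ∧ Sm (𝔓.comap σS))

variable (hRS : Function.Injective (algebraMap R S)) (hint : Algebra.IsIntegral R S)
  (hfl : Flat (projTo O (coordGr 𝔞)))
  (hreg : ∀ (𝔓 : Ideal S) [𝔓.IsPrime], 𝔓 ≠ ⊥ → ∀ a, IsRegularRing (LocChart 𝔞 𝔓 a))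
  (hsm : ∀ (𝔓 : Ideal S) [𝔓.IsPrime], 𝔓 ≠ ⊥ → TwoSmooth 𝔞 σS 𝔓)

include hRS in
theorem unit_of_notMem {p : Ideal R} [p.IsPrime] {D : Subring F}
    (hΛD : ∀ c ∈ lamP S L (segAlg (psi3 O σ) 𝔞.toIdeal) p, segMap₃ ιP c ∈ D) (m : R)
    (hmp : m ∉ p) : ∃ w ∈ D, algebraMap S F (algebraMap R S m) * w = 1 := by
  have hSL : Function.Injective (algebraMap S L) := IsFractionRing.injective S L
  have hRL : Function.Injective (algebraMap R L) := by
    rw [IsScalarTower.algebraMap_eq R S L]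
    exact hSL.comp hRS
  obtain ⟨l, hl⟩ := exists_inv (L := L) (M := segAlg (psi3 O σ) 𝔞.toIdeal) hRL hmp
  have h1 : algebraMap L (segAlg (psi3 O σ) 𝔞.toIdeal) l ∈
      lamP S L (segAlg (psi3 O σ) 𝔞.toIdeal) p :=
    ⟨m, hmp, 1, by rw [hl, map_one], l, rfl⟩
  have h2 := congrArg (segMap₃ ιP) hl
  rw [map_mul, ← oM_algebraMap (O := S) (L := L), segMap₃_oM, map_one] at h2
  exact ⟨_, hΛD _ h1, h2⟩

include hRS hint in
/-- The prime of `S` below the local ring `D`. -/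
theorem exists_prime_loc {p : Ideal R} [p.IsPrime] (hp0 : p ≠ ⊥) {D : Subring F}
    [IsLocalRing D]
    (hΛD : ∀ c ∈ lamP S L (segAlg (psi3 O σ) 𝔞.toIdeal) p, segMap₃ ιP c ∈ D) :
    ∃ 𝔓 : Ideal S, 𝔓.IsPrime ∧ 𝔓 ≠ ⊥ ∧ 𝔓.comap (algebraMap R S) = p ∧
      ∀ s, s ∉ 𝔓 → ∃ w ∈ D, algebraMap S F s * w = 1 := by
  have hS : ∀ c : S, algebraMap S F c ∈ D := fun c => by
    rw [← segMap₃_oM ιP]
    exact hΛD _ (oM_mem_lamP p c)
  let f : S →+* D := (algebraMap S F).codRestrict D hS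
  have hunit0 : ∀ c : S, c ∉ (IsLocalRing.maximalIdeal D).comap f →
      ∃ w ∈ D, algebraMap S F c * w = 1 := by
    intro c hc
    rw [Ideal.mem_comap, IsLocalRing.mem_maximalIdeal, mem_nonunits_iff, not_not] at hc
    obtain ⟨w, hw⟩ := hc.exists_right_inv
    exact ⟨w, w.2, congrArg Subtype.val hw⟩
  have hle : ((IsLocalRing.maximalIdeal D).comap f).comap (algebraMap R S) ≤ p := by
    intro m hm
    by_contra hmp
    obtain ⟨w, hw, h2⟩ := unit_of_notMem ιP hRS hΛD m hmp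
    rw [Ideal.mem_comap, Ideal.mem_comap, IsLocalRing.mem_maximalIdeal, mem_nonunits_iff] at hm
    exact hm (IsUnit.of_mul_eq_one ⟨w, hw⟩ (Subtype.ext h2))
  obtain ⟨𝔓, h𝔓0, h𝔓, hp𝔓⟩ := Ideal.exists_ideal_over_prime_of_isIntegral p
    ((IsLocalRing.maximalIdeal D).comap f) hle
  refine ⟨𝔓, h𝔓, ?_, hp𝔓, fun s hs => hunit0 s fun hs' => hs (h𝔓0 hs')⟩
  rintro rfl
  apply hp0
  rw [← hp𝔓, eq_bot_iff]
  intro m hm
  rw [Ideal.mem_comap, Ideal.mem_bot, map_eq_zero_iff _ hRS] at hm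
  rw [hm]
  exact Ideal.zero_mem _

include hιP hτx hτL hσS hσS3 hRS hint hfl hreg hsm in
/-- **The local rings of the product of the conjugates.** -/
theorem exists_around_weil3 (p : Ideal R) [p.IsPrime] (hp0 : p ≠ ⊥) (i : Fin 3 → Fin n)
    (D : Subring F) (hloc : IsLocalRing D)
    (hΛD : ∀ c ∈ lamP S L (segAlg (psi3 O σ) 𝔞.toIdeal) p, segMap₃ ιP c ∈ D)
    (hx0 : segMap₃ ιP (xx₃ 𝔞.toIdeal (psi3 O σ) i) ≠ 0)
    (hcoord : ∀ k, segMap₃ ιP (xx₃ 𝔞.toIdeal (psi3 O σ) k) /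
      segMap₃ ιP (xx₃ 𝔞.toIdeal (psi3 O σ) i) ∈ D) :
    ∃ A, QD.Around (segMap₃ ιP) (xx₃ 𝔞.toIdeal (psi3 O σ))
      (lamP S L (segAlg (psi3 O σ) 𝔞.toIdeal) p) D i A := by
  have hSL : Function.Injective (algebraMap S L) := IsFractionRing.injective S L
  have hSF : Function.Injective (algebraMap S F) := by
    rw [IsScalarTower.algebraMap_eq S L F]
    exact (algebraMap L F).injective.comp hSL
  have hS : ∀ c : S, algebraMap S F c ∈ D := fun c => by
    rw [← segMap₃_oM ιP]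
    exact hΛD _ (oM_mem_lamP p c)
  obtain ⟨𝔓, h𝔓, h𝔓ne, hp𝔓, hunit⟩ := exists_prime_loc ιP hRS hint hp0 hΛD
  have hτS := tauF_algebraMap (F := F) hτL hσS
  -- the localizations
  let := locAlg S L 𝔓
  have := locAlg_tower S L 𝔓
  let := locAlg S L (𝔓.comap σS)
  have := locAlg_tower S L (𝔓.comap σS)
  let := locAlg S L (𝔓.comap (σS.comp σS))
  have := locAlg_tower S L (𝔓.comap (σS.comp σS))
  let : Algebra (Localization.AtPrime 𝔓) F :=
    ((algebraMap L F).comp (algebraMap (Localization.AtPrime 𝔓) L)).toAlgebra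
  let : Algebra (Localization.AtPrime (𝔓.comap σS)) F :=
    ((algebraMap L F).comp (algebraMap (Localization.AtPrime (𝔓.comap σS)) L)).toAlgebra
  let : Algebra (Localization.AtPrime (𝔓.comap (σS.comp σS))) F :=
    ((algebraMap L F).comp (algebraMap (Localization.AtPrime (𝔓.comap (σS.comp σS))) L)).toAlgebra
  have : IsScalarTower (Localization.AtPrime 𝔓) L F := IsScalarTower.of_algebraMap_eq' rfl
  have hT0 : IsScalarTower S (Localization.AtPrime 𝔓) F :=
    IsScalarTower.of_algebraMap_eq fun c => by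
      change _ = algebraMap L F (algebraMap _ L (algebraMap S _ c))
      rw [← IsScalarTower.algebraMap_apply S (Localization.AtPrime 𝔓) L,
        ← IsScalarTower.algebraMap_apply]
  have hT1 : IsScalarTower S (Localization.AtPrime (𝔓.comap σS)) F :=
    IsScalarTower.of_algebraMap_eq fun c => by
      change _ = algebraMap L F (algebraMap _ L (algebraMap S _ c))
      rw [← IsScalarTower.algebraMap_apply S (Localization.AtPrime (𝔓.comap σS)) L,
        ← IsScalarTower.algebraMap_apply]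
  have hT2 : IsScalarTower S (Localization.AtPrime (𝔓.comap (σS.comp σS))) F :=
    IsScalarTower.of_algebraMap_eq fun c => by
      change _ = algebraMap L F (algebraMap _ L (algebraMap S _ c))
      rw [← IsScalarTower.algebraMap_apply S (Localization.AtPrime (𝔓.comap (σS.comp σS))) L,
        ← IsScalarTower.algebraMap_apply]
  let : Algebra O F := ((algebraMap L F).comp (algebraMap O L)).toAlgebra
  have hO1 : IsScalarTower O L F := IsScalarTower.of_algebraMap_eq' rfl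
  have hO2 : IsScalarTower O S F := IsScalarTower.of_algebraMap_eq fun c => by
    rw [IsScalarTower.algebraMap_apply S L F, ← IsScalarTower.algebraMap_apply O S L,
      ← IsScalarTower.algebraMap_apply]
  obtain ⟨x, hxdef⟩ : ∃ x : Fin n → F, x = fun k => ιP (cl (psi3 O σ) 𝔞.toIdeal 0 k) := ⟨_, rfl⟩
  have hx1 : ∀ k, τF (x k) = ιP (cl (psi3 O σ) 𝔞.toIdeal 1 k) := fun k => by
    rw [hxdef]
    exact hτx 0 k
  have hx2 : ∀ k, (τF.comp τF) (x k) = ιP (cl (psi3 O σ) 𝔞.toIdeal 2 k) := fun k => by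
    rw [RingHom.comp_apply, hx1]
    exact hτx 1 k
  have hx0' := hx0
  rw [segMap₃_xx, segX, map_prod, Fin.prod_univ_three, ← hx1, ← hx2] at hx0'
  have hn0 : x (i 0) ≠ 0 := by
    rw [hxdef]
    exact left_ne_zero_of_mul (left_ne_zero_of_mul hx0')
  have hn1 : x (i 1) ≠ 0 := fun h0 => right_ne_zero_of_mul (left_ne_zero_of_mul hx0') (by
    rw [h0, map_zero])
  have hn2 : x (i 2) ≠ 0 := fun h0 => right_ne_zero_of_mul hx0' (by rw [h0, map_zero])
  have hxrel : ∀ f ∈ 𝔞.toIdeal, eval₂ (algebraMap O F) x f = 0 := fun f hf => by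
    rw [hxdef]
    exact eval_cl_zero ιP hf
  obtain ⟨ρ₀, hρ₀⟩ := exists_rho 𝔞 x hxrel (i 0) hn0
  obtain ⟨ρ₁, hρ₁⟩ := exists_rho 𝔞 x hxrel (i 1) hn1
  obtain ⟨ρ₂, hρ₂⟩ := exists_rho 𝔞 x hxrel (i 2) hn2
  -- the factors
  have H₀ := factor_conj (F := F) (θ := RingHom.id S) (θ' := RingHom.id S) (𝔓 := 𝔓) (𝔔 := 𝔓) rfl
    rfl (fun _ => rfl) (fun _ => rfl) (RingHom.id F) (fun _ => rfl)
    ((algebraMap S (Localization.AtPrime 𝔓)).comp (algebraMap O S)) (fun _ => rfl)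
    (x := x) (x' := fun k => ιP (cl (psi3 O σ) 𝔞.toIdeal 0 k)) (fun k => by rw [hxdef]; rfl)
    ρ₀ hρ₀ hfl (hreg 𝔓 h𝔓ne _)
  have hne1 : 𝔓.comap σS ≠ ⊥ := comap_ne_bot (θ' := σS.comp σS) (fun c => hσS3 c) h𝔓ne
  have hne2 : 𝔓.comap (σS.comp σS) ≠ ⊥ := comap_ne_bot (θ' := σS) (fun c => hσS3 c) h𝔓ne
  have H₁ := factor_conj (F := F) (θ := σS.comp σS) (θ' := σS) (𝔓 := 𝔓) (𝔔 := 𝔓.comap σS)
    (comap_three hσS3 𝔓) rfl (fun c => hσS3 c) (fun c => hσS3 c) τF
    (fun c => by rw [hτS]; exact congrArg _ (hσS3 c))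
    ((algebraMap S (Localization.AtPrime 𝔓)).comp (σS.comp (algebraMap O S))) (fun _ => rfl)
    (x := x) (x' := fun k => ιP (cl (psi3 O σ) 𝔞.toIdeal 1 k)) hx1
    ρ₁ hρ₁ hfl (hreg _ hne1 _)
  have H₂ := factor_conj (F := F) (θ := σS) (θ' := σS.comp σS) (𝔓 := 𝔓)
    (𝔔 := 𝔓.comap (σS.comp σS))
    (comap_three' hσS3 𝔓) rfl (fun c => hσS3 c) (fun c => hσS3 c) (τF.comp τF)
    (fun c => by rw [RingHom.comp_apply, hτS, hτS]; exact congrArg _ (hσS3 c))
    ((algebraMap S (Localization.AtPrime 𝔓)).comp ((σS.comp σS).comp (algebraMap O S)))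
    (fun _ => rfl)
    (x := x) (x' := fun k => ιP (cl (psi3 O σ) 𝔞.toIdeal 2 k)) hx2
    ρ₂ hρ₂ hfl (hreg _ hne2 _)
  have hi : ![i 0, i 1, i 2] = i := by
    funext j
    fin_cases j <;> rfl
  have hSLoc : ∀ c : S, algebraMap (Localization.AtPrime 𝔓) L (algebraMap S _ c) =
      algebraMap S L c := fun c => (IsScalarTower.algebraMap_apply S _ L c).symm
  have hOSL : ∀ c : O, algebraMap S L (algebraMap O S c) = algebraMap O L c := fun c =>
    (IsScalarTower.algebraMap_apply O S L c).symm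
  have hx0'' : ιP (segX (psi3 O σ) 𝔞.toIdeal ![i 0, i 1, i 2]) ≠ 0 := by
    rw [hi]
    exact hx0
  have hcoord' : ∀ k, segMap₃ ιP (xx₃ 𝔞.toIdeal (psi3 O σ) k) /
      segMap₃ ιP (xx₃ 𝔞.toIdeal (psi3 O σ) ![i 0, i 1, i 2]) ∈ D := by
    rw [hi]
    exact hcoord
  have key := triple_around H₀ H₁ H₂ (fun c => ?_) (fun c => ?_) (fun c => ?_)
    (locAlg_injective S L 𝔓) hιP ?_ (Λ := lamP S L (segAlg (psi3 O σ) 𝔞.toIdeal) p) (D := D)
    (fun m hm => exists_of_mem_lamP₃ ιP hp𝔓 hSF hm) (fun c => exists_lamP_of_loc ιP hunit c)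
    (algebraMap_mem_of_units hS hunit) hx0'' hcoord'
  · rw [hi] at key
    exact ⟨_, key⟩
  · change algebraMap (Localization.AtPrime 𝔓) L (algebraMap S _ (algebraMap O S c)) = _
    rw [hSLoc, hOSL]
    rfl
  · change algebraMap (Localization.AtPrime 𝔓) L (algebraMap S _ (σS (algebraMap O S c))) = _
    rw [hSLoc, hσS, hOSL]
    rfl
  · change algebraMap (Localization.AtPrime 𝔓) L (algebraMap S _ (σS (σS (algebraMap O S c)))) = _
    rw [hSLoc, hσS, hσS, hOSL]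
    rfl
  · rcases hsm 𝔓 h𝔓ne with ⟨s1, s2⟩ | ⟨s1, s2⟩ | ⟨s1, s2⟩
    · have := s1 (i 1)
      have := s2 (i 2)
      exact Or.inl ⟨smooth_tw _ (localRingHom_bijective (θ := σS.comp σS) (θ' := σS)
          (comap_three hσS3 𝔓) rfl hσS3 hσS3) _,
        smooth_tw _ (localRingHom_bijective (θ := σS) (θ' := σS.comp σS)
          (comap_three' hσS3 𝔓) rfl hσS3 hσS3) _⟩
    · have := s1 (i 0)
      have := s2 (i 2)
      exact Or.inr (Or.inl ⟨smooth_tw _ (localRingHom_bijective (θ := RingHom.id S)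
          (θ' := RingHom.id S) (𝔓 := 𝔓) (𝔔 := 𝔓) rfl rfl (fun _ => rfl) (fun _ => rfl)) _,
        smooth_tw _ (localRingHom_bijective (θ := σS) (θ' := σS.comp σS)
          (comap_three' hσS3 𝔓) rfl hσS3 hσS3) _⟩)
    · have := s1 (i 0)
      have := s2 (i 1)
      exact Or.inr (Or.inr ⟨smooth_tw _ (localRingHom_bijective (θ := RingHom.id S)
          (θ' := RingHom.id S) (𝔓 := 𝔓) (𝔔 := 𝔓) rfl rfl (fun _ => rfl) (fun _ => rfl)) _,
        smooth_tw _ (localRingHom_bijective (θ := σS.comp σS) (θ' := σS)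
          (comap_three hσS3 𝔓) rfl hσS3 hσS3) _⟩)

end Main

end Pool.Agent.Lib.MP_6a3dac_ag.W3
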