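import Pool.Agent.Lib.MP_6a3dac_ag.W3.Main
import Pool.Agent.Lib.MP_6a3dac_ag.Mg.G003

/-!
# The local theorem over a fixed local ring inside a field
-/

set_option autoImplicit false
set_option linter.unusedSectionVars false
set_option linter.unusedVariables false

namespace Pool.Agent.Lib.MP_6a3dac_ag.W3

open IsLocalRing
open Pool.Agent.Lib.MP_6a3dac_ag Pool.Agent.Lib.MP_6a3dac_ag.QD

/-- The `f k` are different members of a regular system of parameters of the regular local ring `A`. -/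
structure PartRSP (A : Type) [CommRing A] [IsLocalRing A] {κ : Type} (f : κ → A) : Prop where
  inj : Function.Injective f
  ex : ∃ T : Finset A, (∀ k, f k ∈ T) ∧ Ideal.span (T : Set A) = maximalIdeal A ∧
    T.card ≤ (maximalIdeal A).spanFinrank

/-- The automorphism of the field, on the data of the local ring `A`; the coefficients lie in `A`. -/
structure FTau {F : Type} [Field F] (A : Subring F) {J : Type} (τF : F →+* F) (ϖ c a : A)
    (u tu : J → A) (n : ℕ) (ε κ l μ : A) : Prop where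
  unif : τF ϖ = ϖ + ε * (ϖ : F) ^ (n + 1)
  ha : a = 1 + ϖ ^ n * κ
  map_u : ∀ j, τF (u j) = tu j
  map_v : ∀ j, τF ((tu j : F) - a * u j) = ((tu j : F) - a * u j) * (1 + (ϖ : F) ^ n * l)
  map_s : ∀ j, τF ((tu j : F) - a * u j - c * (ϖ : F) ^ n * u j) =
    ((tu j : F) - a * u j - c * (ϖ : F) ^ n * u j) * (1 + (ϖ : F) ^ n * μ)
  unit : IsUnit ε
  hκ : ∃ b : A, κ = (n + 1) * ε + b * ϖ
  hl : ∃ b : A, l = (2 * n + 2) * ε + b * ϖ
  hμ : ∃ b : A, μ = (1 - n) * ε + b * ϖ
  hc : ∃ b : A, c = ε + b * ϖ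
  three : ∃ b : A, (3 : A) = b * ϖ
  aug : ∀ z : A, ∃ y ∈ Ideal.span (insert (ϖ ^ (n + 1)) (Set.range u ∪ Set.range tu)),
    τF z - z = (y : F)
  ex_u : ∀ j, ∃ z : A, τF z - z = (u j : F)

section Transport

variable {A A' : Type} [CommRing A] [CommRing A'] (f : A ≃+* A') {J : Type}

-- BEGIN Q1
theorem q1_range {K : Type} (g : K → A) :
    Ideal.span (Set.range fun k => f (g k)) = (Ideal.span (Set.range g)).map (f : A →+* A') := by
  rw [Ideal.map_span, ← Set.range_comp]
  rfl

theorem q1_single {a : A} {a' : A'} (h : a' = f a) :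
    Ideal.span {a'} = (Ideal.span {a}).map (f : A →+* A') := by
  rw [Ideal.map_span, Set.image_singleton, h]
  rfl

theorem q1_aI (ϖ : A) (u : J → A) (k : ℕ) :
    aI (f ϖ) (fun j => f (u j)) k = (aI ϖ u k).map (f : A →+* A') := by
  unfold aI
  rw [Ideal.map_span, Set.image_insert_eq, ← Set.range_comp]
  congr 2
  exact (map_pow f ϖ k).symm

theorem q1_kI (ϖ : A) (u v : J → A) (l : ℕ) :
    kI (f ϖ) (fun j => f (u j)) (fun j => f (v j)) l = (kI ϖ u v l).map (f : A →+* A') := by
  unfold kI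
  rw [Ideal.map_sup, Ideal.map_mul, q1_aI, q1_aI, q1_range]

theorem q1_mI (u v : J → A) :
    mI (fun j => f (u j)) (fun j => f (v j)) = (mI u v).map (f : A →+* A') := by
  unfold mI
  rw [← q1_range]
  congr 2
  funext p
  rw [map_sub, map_mul, map_mul]

theorem q1_rI (ϖ : A) (u v : J → A) (m : ℕ) :
    rI (f ϖ) (fun j => f (u j)) (fun j => f (v j)) m = (rI ϖ u v m).map (f : A →+* A') := by
  unfold rI
  rw [Ideal.map_sup, Ideal.map_pow, Ideal.map_mul, Ideal.map_sup, Ideal.map_sup, Ideal.map_pow,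
    Ideal.map_mul, q1_kI, q1_aI, q1_mI, q1_range, q1_single f (map_pow f ϖ m).symm,
    q1_single f (map_pow f ϖ (m + 1)).symm]

theorem q1_sI (ϖ c : A) (u v : J → A) (n : ℕ) :
    sI (f ϖ) (fun j => f (u j)) (fun j => f (v j)) (f c) n =
      (sI ϖ u v c n).map (f : A →+* A') := by
  unfold sI
  rw [Ideal.map_sup, Ideal.map_sup, Ideal.map_sup, Ideal.map_pow, Ideal.map_mul, q1_range,
    q1_single f (map_pow f ϖ (n + 1)).symm, q1_single f (map_pow f ϖ (2 * n + 1)).symm,
    ← q1_range f (fun j => v j - c * ϖ ^ n * u j)]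
  congr 5
  funext j
  rw [map_sub, map_mul, map_mul, map_pow]

/-- TASK Q1. Transport of the ideals along an isomorphism; the model is K1 of QD/Link.lean (`k1_span_insert` etc., `Ideal.map_sup`,
`Ideal.map_mul`, `Ideal.map_pow`, `Ideal.map_span`; unfold `cenI`, `kI`, `rI`, `mI`, `sI`, `aI`). -/
theorem map_cenI (ϖ c : A) (u v : J → A) (n j : ℕ) :
    cenI (f ϖ) (fun j => f (u j)) (fun j => f (v j)) (f c) n j =
      (cenI ϖ u v c n j).map (f : A →+* A') := by
  unfold cenI
  split_ifs
  · exact q1_kI f ϖ u v _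
  · exact q1_rI f ϖ u v _
  · exact q1_sI f ϖ c u v n
-- END Q1

-- BEGIN Q2
theorem q2_map_max {A A' : Type} [CommRing A] [IsLocalRing A] [CommRing A'] [IsLocalRing A']
    (f : A ≃+* A') : (maximalIdeal A).map (f : A →+* A') = maximalIdeal A' := by
  apply le_antisymm
  · rw [Ideal.map_le_iff_le_comap]
    intro x hx
    rw [Ideal.mem_comap, IsLocalRing.mem_maximalIdeal, mem_nonunits_iff]
    intro h1
    rw [IsLocalRing.mem_maximalIdeal, mem_nonunits_iff] at hx
    apply hx
    have h2 := h1.map (f.symm : A' →+* A)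
    simpa using h2
  · intro y hy
    have h1 : f.symm y ∈ maximalIdeal A := by
      rw [IsLocalRing.mem_maximalIdeal, mem_nonunits_iff]
      intro h2
      rw [IsLocalRing.mem_maximalIdeal, mem_nonunits_iff] at hy
      apply hy
      have h3 := h2.map (f : A →+* A')
      simpa using h3
    have h4 := Ideal.mem_map_of_mem (f : A →+* A') h1
    simpa using h4

/-- TASK Q2 (first statement). Transport of a part of a regular system of parameters. -/
theorem PartRSP.map {A A' : Type} [CommRing A] [IsLocalRing A] [CommRing A'] [IsLocalRing A']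
    (f : A ≃+* A') {κ : Type} {g : κ → A} (h : PartRSP A g) : PartRSP A' (fun k => f (g k)) := by
  classical
  obtain ⟨hinj, T, hT1, hT2, hT3⟩ := h
  refine ⟨fun k l hkl => hinj (f.injective hkl), T.image f, ?_, ?_, ?_⟩
  · exact fun k => Finset.mem_image_of_mem f (hT1 k)
  · rw [← q2_map_max f, ← hT2, Ideal.map_span, Finset.coe_image]
    rfl
  · refine Finset.card_image_le.trans (hT3.trans (le_of_eq ?_))
    rw [← q2_map_max f]
    exact (Ideal.spanFinrank_map_eq_of_ringEquiv f (maximalIdeal A)).symm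

/-- TASK Q2 (second statement). `RSP.of_span` (QWStruct.lean) with the finite set `T`. -/
theorem PartRSP.prs {D : Type} [CommRing D] [IsDomain D] [IsLocalRing D] {A : Subring D}
    (hA : Dom A) [IsLocalRing A] (hreg : IsRegularLocalRing A) {κ : Type} {g : κ → A} (h : PartRSP A g) :
    PRS A (fun k => (g k : D)) := by
  classical
  obtain ⟨hinj, T, hT1, hT2, hT3⟩ := h
  refine ⟨T.image Subtype.val, RSP.of_span hA hreg T hT2 hT3, fun k => (g k).2, fun k _ => ?_,
    fun k l _ hkl => hinj (Subtype.ext hkl)⟩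
  exact Finset.mem_image_of_mem Subtype.val (hT1 k)
-- END Q2

end Transport

-- BEGIN Q3
/-- TASK Q3. The hypotheses of the local theorem: `prs` from `PartRSP.prs` and `PRS.lin` (A2): the family `fam ϖ u tu` is replaced by `fam ϖ u (tu - a u)`:
`T` = the indices `some (inr j)`, `g (some (inr j)) = some (inl j)`, coefficients `1`, `- a`. -/
theorem WHyp.of_part {D : Type} [CommRing D] [IsDomain D] [IsLocalRing D] {A : Subring D}
    (hA : Dom A) [IsLocalRing A] (hreg : IsRegularLocalRing A) {J : Type} [Fintype J] [DecidableEq J]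
    {ϖ c a : A} {u tu : J → A} {n : ℕ} (hP : PartRSP A (fam ϖ u tu)) (hn : 1 ≤ n) (hc : IsUnit c)
    (hϖ : (ϖ : D) ∈ maximalIdeal D) (hu : ∀ j, (u j : D) ∈ maximalIdeal D)
    (htu : ∀ j, (tu j : D) ∈ maximalIdeal D) :
    WHyp A ϖ c u (fun j => tu j - a * u j) n := by
  classical
  have h0 := PartRSP.prs hA hreg hP
  have hprs : PRS A (fam (ϖ : D) (fun j => (u j : D))
      fun j => (((fun j => tu j - a * u j) j : A) : D)) := by
    refine PRS.lin h0 (Finset.univ.image fun j : J => (some (Sum.inr j) : Option (J ⊕ J)))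
      (fun k => k.elim none (Sum.elim (fun j => some (Sum.inl j)) fun j => some (Sum.inl j)))
      ?_ (fun _ => 1) (fun _ => -(a : D)) ?_ ?_ ?_ ?_ ?_
    · intro k hk hk'
      obtain ⟨j, -, rfl⟩ := Finset.mem_image.1 hk
      obtain ⟨j', -, h1⟩ := Finset.mem_image.1 hk'
      change some (Sum.inr j') = some (Sum.inl j) at h1
      simp at h1
    · exact fun k _ => ⟨A.one_mem, isUnit_one⟩
    · exact fun k _ => A.neg_mem a.2
    · intro k hk
      obtain ⟨j, -, rfl⟩ := Finset.mem_image.1 hk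
      exact ⟨htu j, hu j⟩
    · intro k hk
      obtain ⟨j, -, rfl⟩ := Finset.mem_image.1 hk
      change (((tu j - a * u j : A)) : D) = 1 * (tu j : D) + -(a : D) * (u j : D)
      push_cast
      ring
    · intro k hk
      rcases k with _ | (j | j)
      · rfl
      · rfl
      · exact absurd (Finset.mem_image_of_mem _ (Finset.mem_univ j)) hk
  refine ⟨hprs, hϖ, hu, fun j => ?_, hn, hc.map A.subtype⟩
  have h1 : (((tu j - a * u j : A)) : D) = (tu j : D) - (a : D) * (u j : D) := by
    push_cast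
    rfl
  rw [h1]
  exact Ideal.sub_mem _ (htu j) (Ideal.mul_mem_left _ _ (hu j))
-- END Q3

section Sit

variable {F : Type} [Field F] {A : Subring F} [IsRegularLocalRing A] {J : Type} [Fintype J]
  [DecidableEq J] {ϖ c a : A} {u tu : J → A} {n : ℕ}

-- BEGIN Q4
/-- The isomorphism with the subring of the larger ring. -/
def q4_equiv (A D : Subring F) (hle : A ≤ D) : A ≃+* A.comap D.subtype where
  toFun a := ⟨⟨a, hle a.2⟩, a.2⟩
  invFun a := ⟨((a : D) : F), a.2⟩
  left_inv _ := rfl
  right_inv _ := rfl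
  map_mul' _ _ := rfl
  map_add' _ _ := rfl

/-- The structure `WTau` for the restriction of the automorphism to a stable local ring `D`; `f` is the isomorphism of `A`
with the subring of `D`. -/
theorem q4_wtau {τF : F →+* F} {ε κ l μ : A} (hτ : FTau A τF ϖ c a u tu n ε κ l μ) {D : Subring F}
    (f : A ≃+* A.comap D.subtype) (hf1 : ∀ a : A, ((f a : D) : F) = a)
    (hf2 : ∀ a : A.comap D.subtype, ((f.symm a : A) : F) = ((a : D) : F))
    (hstab : ∀ y ∈ D, τF y ∈ D) :
    WTau (τF.restrict D D hstab) (f ϖ) (f c) (fun j => f (u j)) (fun j => f (tu j - a * u j)) n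
      (f ε : D) (f κ : D) (f l : D) (f μ : D) := by
  have hτD : ∀ d : D, ((τF.restrict D D hstab d : D) : F) = τF d := fun d => rfl
  have hfv : ∀ j, ((f (tu j - a * u j) : D) : F) = (tu j : F) - a * u j := by
    intro j
    rw [hf1]
    rfl
  have hcoe : ∀ {x y z : A}, (∃ b : A, x = y * ε + b * z) →
      ∃ b : D, (f x : D) = (f y : D) * (f ε : D) + b * (f z : D) := by
    rintro x y z ⟨b, rfl⟩
    refine ⟨(f b : D), ?_⟩
    rw [map_add, map_mul, map_mul]
    rfl
  constructor
  · apply Subtype.ext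
    change τF ((f ϖ : D) : F) = ((f ϖ : D) : F) + ((f ε : D) : F) * ((f ϖ : D) : F) ^ (n + 1)
    rw [hf1, hf1]
    exact hτ.unif
  · intro j
    apply Subtype.ext
    change τF ((f (u j) : D) : F) = ((f (u j) : D) : F) + ((f ϖ : D) : F) ^ n * ((f κ : D) : F) *
      ((f (u j) : D) : F) + ((f (tu j - a * u j) : D) : F)
    rw [hfv, hf1, hf1, hf1, hτ.map_u]
    have h1 : (a : F) = 1 + (ϖ : F) ^ n * κ := by
      rw [hτ.ha]
      rfl
    rw [h1]
    ring
  · intro j
    apply Subtype.ext
    change τF ((f (tu j - a * u j) : D) : F) = ((f (tu j - a * u j) : D) : F) +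
      ((f ϖ : D) : F) ^ n * ((f l : D) : F) * ((f (tu j - a * u j) : D) : F)
    rw [hfv, hf1, hf1, hτ.map_v]
    ring
  · intro j
    apply Subtype.ext
    change τF (((f (tu j - a * u j) : D) : F) - ((f c : D) : F) * ((f ϖ : D) : F) ^ n *
      ((f (u j) : D) : F)) = (((f (tu j - a * u j) : D) : F) - ((f c : D) : F) *
        ((f ϖ : D) : F) ^ n * ((f (u j) : D) : F)) * (1 + ((f ϖ : D) : F) ^ n * ((f μ : D) : F))
    rw [hfv, hf1, hf1, hf1, hf1]
    exact hτ.map_s j
  · exact (hτ.unit.map f).map (A.comap D.subtype).subtype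
  · obtain ⟨b, hb⟩ := hτ.hκ
    refine ⟨(f b : D), ?_⟩
    rw [hb, map_add, map_mul, map_mul, map_add, map_natCast, map_one]
    rfl
  · obtain ⟨b, hb⟩ := hτ.hl
    refine ⟨(f b : D), ?_⟩
    rw [hb, map_add, map_mul, map_mul, map_add, map_mul, map_natCast, map_ofNat]
    rfl
  · obtain ⟨b, hb⟩ := hτ.hμ
    refine ⟨(f b : D), ?_⟩
    rw [hb, map_add, map_mul, map_mul, map_sub, map_natCast, map_one]
    rfl
  · obtain ⟨b, hb⟩ := hτ.hc
    refine ⟨(f b : D), ?_⟩
    rw [hb, map_add, map_mul]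
    rfl
  · obtain ⟨b, hb⟩ := hτ.three
    refine ⟨(f b : D), ?_⟩
    have h1 := congrArg (fun x => ((f x : A.comap D.subtype) : D)) hb
    simp only [map_ofNat, map_mul] at h1
    exact h1
  · intro z
    obtain ⟨y, hy, hzy⟩ := hτ.aug (f.symm z)
    have h3 : (τF.restrict D D hstab) (z : D) - (z : D) =
        ((A.comap D.subtype).subtype.comp (f : A →+* A.comap D.subtype)) y := by
      apply Subtype.ext
      change τF ((z : D) : F) - ((z : D) : F) = ((f y : D) : F)
      rw [hf1, ← hzy, hf2]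
    rw [h3]
    set I : Ideal D := Ideal.span (insert (((f ϖ : A.comap D.subtype) : D) ^ (n + 1))
      (Set.range (fun j => ((f (u j) : A.comap D.subtype) : D)) ∪
        Set.range fun j => ((f (tu j - a * u j) : A.comap D.subtype) : D))) with hI
    have h4 : Ideal.span (insert (ϖ ^ (n + 1)) (Set.range u ∪ Set.range tu)) ≤
        I.comap ((A.comap D.subtype).subtype.comp (f : A →+* A.comap D.subtype)) := by
      rw [Ideal.span_le]
      have hu : ∀ j, ((f (u j) : A.comap D.subtype) : D) ∈ I := fun j =>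
        Ideal.subset_span (Set.mem_insert_of_mem _ (Or.inl ⟨j, rfl⟩))
      rintro x (rfl | ⟨j, rfl⟩ | ⟨j, rfl⟩)
      · change ((f (ϖ ^ (n + 1)) : A.comap D.subtype) : D) ∈ I
        rw [map_pow]
        exact Ideal.subset_span (Set.mem_insert _ _)
      · exact hu j
      · change ((f (tu j) : A.comap D.subtype) : D) ∈ I
        have h5 : ((f (tu j) : A.comap D.subtype) : D) =
            ((f (tu j - a * u j) : A.comap D.subtype) : D) +
              ((f a : A.comap D.subtype) : D) * ((f (u j) : A.comap D.subtype) : D) := by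
          rw [map_sub, map_mul]
          change _ = ((f (tu j) : A.comap D.subtype) : D) -
            ((f a : A.comap D.subtype) : D) * ((f (u j) : A.comap D.subtype) : D) +
              ((f a : A.comap D.subtype) : D) * ((f (u j) : A.comap D.subtype) : D)
          ring
        rw [h5]
        exact I.add_mem (Ideal.subset_span (Set.mem_insert_of_mem _ (Or.inr ⟨j, rfl⟩)))
          (I.mul_mem_left _ (hu j))
    exact h4 hy

/-- TASK Q4. **The local theorem over a fixed local ring inside a field.** The model is `wild_sit` (K5 in QD/Link.lean; `k5_equiv`). Apply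
`w3_local_main` (W3/Main.lean) to the local domain `D` and its subring `A' = A.comap D.subtype`, with the data transported along the isomorphism
`A ≃+* A'` (`PartRSP.map`, `WHyp.of_part`, `map_cenI`, `IsRegularLocalRing.of_ringEquiv`; `Blow` from the hypotheses on `b`). For a stable `D` the
structure `WTau` for the restriction of `τF`: the constants are the images of `ε`, `κ`, `l`, `μ` in `D`; `map_u`: `τ u = tu = u + ϖ ^ n κ u + (tu - a u)`;
`aug`: `tu_j = (tu_j - a u_j) + a u_j`. -/
theorem wild_sit3 (hP : PartRSP A (fam ϖ u tu)) (hn : 1 ≤ n) (hc : IsUnit c) (τF : F →+* F)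
    {ε κ l μ : A} (hτ : FTau A τF ϖ c a u tu n ε κ l μ) (D : Subring F) (hD : IsLocalRing D)
    (hle : A ≤ D) (hdom : ∀ a ∈ A, ∀ b ∈ D, a * b = 1 → b ∈ A)
    (hϖD : ∀ w ∈ D, (ϖ : F) * w ≠ 1) (huD : ∀ j, ∀ w ∈ D, (u j : F) * w ≠ 1)
    (htuD : ∀ j, ∀ w ∈ D, (tu j : F) * w ≠ 1) (b : ℕ → A)
    (hb0 : ∀ j ≤ 3 * n + 2, (b j : F) ≠ 0)
    (hbm : ∀ j ≤ 3 * n + 2, b j ∈ cenI ϖ u (fun j => tu j - a * u j) c n j)
    (hbd : ∀ j ≤ 3 * n + 2, ∀ y ∈ cenI ϖ u (fun j => tu j - a * u j) c n j, (y : F) / b j ∈ D)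
    (hgen : ∀ R' : Subring F, R' ≤ D → (∀ a ∈ R', ∀ b ∈ D, a * b = 1 → b ∈ R') → A ≤ R' →
      (∀ j ≤ 3 * n + 2, ∀ y ∈ cenI ϖ u (fun j => tu j - a * u j) c n j, (y : F) / b j ∈ R') →
      D ≤ R') :
    IsRegularLocalRing D ∧ ((∀ y ∈ D, τF y ∈ D) → Principal τF D) := by
  obtain ⟨f, hf⟩ : ∃ f : A ≃+* A.comap D.subtype, f = q4_equiv A D hle := ⟨_, rfl⟩
  have hf1 : ∀ a : A, ((f a : D) : F) = a := by
    rw [hf]
    exact fun a => rfl
  have hf2 : ∀ a : A.comap D.subtype, ((f.symm a : A) : F) = ((a : D) : F) := by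
    rw [hf]
    exact fun a => rfl
  have hR : IsRegularLocalRing (A.comap D.subtype) := IsRegularLocalRing.of_ringEquiv f
  have hdom' : Dom (A.comap D.subtype) := by
    intro a ha c hac
    exact hdom a ha c c.2 (congrArg Subtype.val hac)
  have hmax : ∀ z : D, (∀ w ∈ D, (z : F) * w ≠ 1) → z ∈ maximalIdeal D := by
    intro z hz
    rw [mem_maximalIdeal, mem_nonunits_iff]
    intro h
    obtain ⟨w, hw⟩ := h.exists_right_inv
    exact hz w w.2 (congrArg Subtype.val hw)
  have hP' : PartRSP (A.comap D.subtype) (fam (f ϖ) (fun j => f (u j)) (fun j => f (tu j))) := by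
    have h1 := hP.map f
    have h2 : (fun k => f (fam ϖ u tu k)) = fam (f ϖ) (fun j => f (u j)) (fun j => f (tu j)) := by
      funext k
      rcases k with _ | j | j <;> rfl
    rwa [h2] at h1
  have hW : WHyp (A.comap D.subtype) (f ϖ) (f c) (fun j => f (u j))
      (fun j => f (tu j - a * u j)) n := by
    have h1 := WHyp.of_part hdom' hR hP' hn (hc.map f)
      (hmax _ (by rw [hf1]; exact hϖD)) (fun j => hmax _ (by rw [hf1]; exact huD j))
      (a := f a) (fun j => hmax _ (by rw [hf1]; exact htuD j))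
    have h2 : (fun j => f (tu j) - f a * f (u j)) = fun j => f (tu j - a * u j) := by
      funext j
      rw [map_sub, map_mul]
    rwa [h2] at h1
  have hcen : ∀ j, cenI (f ϖ) (fun j => f (u j)) (fun j => f (tu j - a * u j)) (f c) n j =
      (cenI ϖ u (fun j => tu j - a * u j) c n j).map (f : A →+* A.comap D.subtype) :=
    map_cenI f ϖ c u (fun j => tu j - a * u j) n
  have hB : Blow (f ϖ) (f c) (fun j => f (u j)) (fun j => f (tu j - a * u j)) n
      (fun j => f (b j)) := by
    constructor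
    · intro j hj h0
      refine hb0 j hj ?_
      rw [← hf1]
      exact congrArg Subtype.val h0
    · intro j hj
      rw [hcen]
      exact Ideal.mem_map_of_mem _ (hbm j hj)
    · intro j hj y hy
      rw [hcen] at hy
      obtain ⟨y', hy', rfl⟩ := (Ideal.mem_map_iff_of_surjective
        (f : A →+* A.comap D.subtype) f.surjective).1 hy
      refine ⟨⟨(y' : F) / b j, hbd j hj y' hy'⟩, Subtype.ext ?_⟩
      change ((f y' : D) : F) = ((f (b j) : D) : F) * ((y' : F) / b j)
      rw [hf1, hf1, mul_div_cancel₀ _ (hb0 j hj)]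
    · intro R' hdR hAR hR'
      rw [eq_top_iff]
      rintro ⟨w, hw⟩ -
      have h3 := hgen (R'.map D.subtype) ?_ ?_ ?_ ?_ hw
      · obtain ⟨w', hw', h4⟩ := h3
        have h5 : w' = ⟨w, hw⟩ := Subtype.ext h4
        rwa [← h5]
      · rintro _ ⟨w', -, rfl⟩
        exact w'.2
      · rintro _ ⟨a, ha, rfl⟩ c hc hac
        exact ⟨⟨c, hc⟩, hdR a ha ⟨c, hc⟩ (Subtype.ext hac), rfl⟩
      · intro a ha
        exact ⟨⟨a, hle ha⟩, hAR ha, rfl⟩
      · intro j hj y hy
        refine ⟨⟨(y : F) / b j, hbd j hj y hy⟩, hR' j hj (f y) ?_ _ ?_, rfl⟩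
        · rw [hcen]
          exact Ideal.mem_map_of_mem _ hy
        · apply Subtype.ext
          change ((f (b j) : D) : F) * ((y : F) / b j) = ((f y : D) : F)
          rw [hf1, hf1, mul_div_cancel₀ _ (hb0 j hj)]
  have h12 := w3_local_main hW hB
  refine ⟨h12.1, fun hstab => ?_⟩
  obtain ⟨y, hy0, hy⟩ := h12.2 (τF.restrict D D hstab) (f ε : D) (f κ : D) (f l : D) (f μ : D)
    (q4_wtau hτ f hf1 hf2 hstab) (fun j => by
      obtain ⟨z, hz⟩ := hτ.ex_u j
      refine ⟨(f z : D), Subtype.ext ?_⟩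
      change τF ((f z : D) : F) - ((f z : D) : F) = ((f (u j) : D) : F)
      rw [hf1, hf1]
      exact hz)
  refine ⟨y, y.2, fun h0 => hy0 (Subtype.ext h0), fun w hw => ?_⟩
  obtain ⟨c, hc⟩ := hy ⟨w, hw⟩
  exact ⟨c, c.2, congrArg Subtype.val hc⟩
-- END Q4

end Sit

end Pool.Agent.Lib.MP_6a3dac_ag.W3
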