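import Pool.Agent.Lib.MP_6a3dac_ag.W3.Chart
import Pool.Agent.Lib.MP_6a3dac_ag.W3.Sit
import Pool.Agent.Lib.MP_6a3dac_ag.QD.Around

/-!
# The centre at a wildly ramified prime
-/

set_option autoImplicit false
set_option linter.unusedSectionVars false
set_option linter.unusedVariables false

namespace Pool.Agent.Lib.MP_6a3dac_ag.W3

open IsLocalRing
open Pool.Agent.Lib.MP_6a3dac_ag Pool.Agent.Lib.MP_6a3dac_ag.QD

/-- The structure of the regular local ring `A` of the triple product at the centre of `D`, in the chart `i`, if all differences of the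
coordinates are in the maximal ideal: `ϖ` and some differences `u_j`, `τ u_j` are part of a regular system of parameters, and all differences
of the coordinates are in the ideal generated by these `u_j`, `τ u_j` and `ϖ ^ (n + 1)`. -/
def StrAt {M F I : Type} [CommRing M] [Field F] (ι : M →+* F) (τF : F →+* F) (x : I → M)
    (Λ : Subring M) (ϖ : M) (n : ℕ) (D : Subring F) (i : I) : Prop :=
  ∃ (A : Subring F) (_ : IsLocalRing A) (J : Type) (_ : Fintype J) (_ : DecidableEq J) (e : J → I)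
    (ϖA : A) (u tu : J → A), Around ι x Λ D i A ∧ (ϖA : F) = ι ϖ ∧
    (∀ j, (u j : F) = τF (ι (x (e j)) / ι (x i)) - ι (x (e j)) / ι (x i)) ∧
    (∀ j, (tu j : F) = τF (u j)) ∧ PartRSP A (fam ϖA u tu) ∧
    ∀ k, ∃ y ∈ Ideal.span (insert (ϖA ^ (n + 1)) (Set.range u ∪ Set.range tu)),
      (y : F) = τF (ι (x k) / ι (x i)) - ι (x k) / ι (x i)

section Stab

variable {M F I : Type} [CommRing M] [Field F] {ι : M →+* F} {x : I → M} {Λ : Subring M}
  {D A : Subring F} {i : I} {τF : F →+* F}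

-- BEGIN W1
/-- The elements of a subring whose differences lie in the ideal `Q`. -/
def w1_N (A : Subring F) (τF : F →+* F) (Q : Ideal A) : Subring F where
  carrier := {z | z ∈ A ∧ ∃ y ∈ Q, (y : F) = τF z - z}
  mul_mem' := by
    rintro a b ⟨ha, y, hy, h1⟩ ⟨hb, z, hz, h2⟩
    refine ⟨A.mul_mem ha hb, y * (⟨b, hb⟩ + z) + ⟨a, ha⟩ * z,
      Ideal.add_mem _ (Ideal.mul_mem_right _ _ hy) (Ideal.mul_mem_left _ _ hz), ?_⟩
    change (y : F) * (b + (z : F)) + a * (z : F) = τF (a * b) - a * b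
    rw [map_mul, h1, h2]
    ring
  one_mem' := ⟨A.one_mem, 0, Ideal.zero_mem _, by
    change (0 : F) = τF 1 - 1
    rw [map_one, sub_self]⟩
  add_mem' := by
    rintro a b ⟨ha, y, hy, h1⟩ ⟨hb, z, hz, h2⟩
    refine ⟨A.add_mem ha hb, y + z, Ideal.add_mem _ hy hz, ?_⟩
    change (y : F) + (z : F) = τF (a + b) - (a + b)
    rw [map_add, h1, h2]
    ring
  zero_mem' := ⟨A.zero_mem, 0, Ideal.zero_mem _, by
    change (0 : F) = τF 0 - 0
    rw [map_zero, sub_self]⟩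
  neg_mem' := by
    rintro a ⟨ha, y, hy, h1⟩
    refine ⟨A.neg_mem ha, -y, (Ideal.neg_mem_iff _).2 hy, ?_⟩
    change -(y : F) = τF (-a) - -a
    rw [map_neg, h1]
    ring

/-- TASK W1. Let `N` be the set of the `z ∈ A` such that `τF z ∈ A` and `τF z - z ∈ Q`, an ideal contained in the maximal ideal of `A`. It is a subring
(`τ (a b) - a b = (τ a - a) τ b + a (τ b - b)`), and if `a ∈ N`, `b ∈ A`, `a b = 1` then `τ a = a + q` is a unit of `A` (`a` is a unit of `A`, `q` is in the maximal ideal),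
its inverse is `τ b`, and `τ b - b = - (τ a - a) b τ b`. It contains `ι c`, `c ∈ Λ`, and the coordinates. `Around.min`. The model is `l6_N` in
QD/Around.lean. -/
theorem aug_of_around [IsLocalRing A] (hA : Around ι x Λ D i A) {Q : Ideal A}
    (hQ : Q ≤ maximalIdeal A) (h1 : ∀ c ∈ Λ, ∃ y ∈ Q, (y : F) = τF (ι c) - ι c)
    (h2 : ∀ k, ∃ y ∈ Q, (y : F) = τF (ι (x k) / ι (x i)) - ι (x k) / ι (x i)) (z : A) :
    ∃ y ∈ Q, (y : F) = τF z - z := by
  have hN : A ≤ w1_N A τF Q := by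
    refine hA.min _ ?_ ?_ ?_ ?_
    · rintro z ⟨hz, -⟩
      exact hz
    · rintro a ⟨ha, y, hy, h1⟩ b hb hab
      have hau : IsUnit (⟨a, ha⟩ : A) := IsUnit.of_mul_eq_one ⟨b, hb⟩ (Subtype.ext hab)
      have hτau : IsUnit ((⟨a, ha⟩ : A) + y) := by
        by_contra hcon
        have h3 := Ideal.sub_mem _ ((IsLocalRing.mem_maximalIdeal _).mpr hcon) (hQ hy)
        rw [add_sub_cancel_right, IsLocalRing.mem_maximalIdeal] at h3
        exact h3 hau
      obtain ⟨w, hw⟩ := hτau.exists_right_inv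
      have hw' : (a + (y : F)) * (w : F) = 1 := congrArg Subtype.val hw
      have hτa : a + (y : F) = τF a := by rw [h1]; ring
      rw [hτa] at hw'
      have hτab : τF a * τF b = 1 := by rw [← map_mul, hab, map_one]
      have hwb : τF b = w := by
        have ha0 : τF a ≠ 0 := left_ne_zero_of_mul_eq_one hw'
        exact mul_left_cancel₀ ha0 (by rw [hτab, hw'])
      refine ⟨hb, -(⟨b, hb⟩ * w) * y, Ideal.mul_mem_left _ _ hy, ?_⟩
      change -(b * (w : F)) * (y : F) = τF b - b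
      rw [← hwb, h1]
      linear_combination τF b * hab - b * hτab
    · intro c hc
      exact ⟨hA.lam c hc, h1 c hc⟩
    · intro k
      exact ⟨hA.coord k, h2 k⟩
  exact (hN z.2).2
-- END W1

/-- Members of a regular system of parameters are in the maximal ideal. -/
theorem PartRSP.mem {A : Type} [CommRing A] [IsLocalRing A] {κ : Type} {f : κ → A}
    (h : PartRSP A f) (k : κ) : f k ∈ maximalIdeal A := by
  obtain ⟨T, h1, h2, -⟩ := h.ex
  rw [← h2]
  exact Ideal.subset_span (h1 k)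

end Stab

section Local

variable {M F I : Type} [CommRing M] [Field F] {ι : M →+* F}
  {x : I → M} {τ : M →+* M} {τF : F →+* F} {Λ : Subring M}
  {ϖ ε c κ l μ : M} {n : ℕ} (hC : Cst Λ τ ϖ ε c κ l μ n) (hτ3 : ∀ m, τ (τ (τ m)) = m)
  (hτF3 : ∀ z, τF (τF (τF z)) = z)
  (hτF : ∀ m, τF (ι m) = ι (τ m))
  {D A : Subring F} [IsLocalRing A] {i : I} (hA : Around ι x Λ D i A) (hi : τ (x i) = x i)
  (h0 : ι (x i) ≠ 0) {J : Type} [Fintype J] [DecidableEq J] {e : J → I}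
  {ϖA εA cA κA lA μA : A} (hϖ : (ϖA : F) = ι ϖ) (hε : (εA : F) = ι ε) (hc : (cA : F) = ι c)
  (hκ : (κA : F) = ι κ) (hl : (lA : F) = ι l) (hμ : (μA : F) = ι μ) {u tu : J → A}
  (hu : ∀ j, (u j : F) = τF (ι (x (e j)) / ι (x i)) - ι (x (e j)) / ι (x i))
  (htu : ∀ j, (tu j : F) = τF (u j)) (hP : PartRSP A (fam ϖA u tu))
  (hspan : ∀ k, ∃ y ∈ Ideal.span (insert (ϖA ^ (n + 1)) (Set.range u ∪ Set.range tu)),
    (y : F) = τF (ι (x k) / ι (x i)) - ι (x k) / ι (x i))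

-- BEGIN W2
include hC hτF hA hϖ hP hspan in
/-- TASK W2. All differences of elements of `A` are in the ideal: `aug_of_around` (W1). `Q ≤ maximalIdeal A` by `PartRSP.mem` (`fam_none`, `fam_inl`, `fam_inr`);
constants: `hC.diff`. -/
theorem aug_at (z : A) :
    ∃ y ∈ Ideal.span (insert (ϖA ^ (n + 1)) (Set.range u ∪ Set.range tu)), τF z - z = (y : F) := by
  have hmem := hP.mem
  have hQ : Ideal.span (insert (ϖA ^ (n + 1)) (Set.range u ∪ Set.range tu)) ≤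
      maximalIdeal A := by
    rw [Ideal.span_le]
    rintro y (rfl | ⟨j, rfl⟩ | ⟨j, rfl⟩)
    · exact Ideal.pow_mem_of_mem _ (hmem none) _ (Nat.succ_pos n)
    · exact hmem (some (Sum.inl j))
    · exact hmem (some (Sum.inr j))
  have h1 : ∀ c ∈ Λ, ∃ y ∈ Ideal.span (insert (ϖA ^ (n + 1)) (Set.range u ∪ Set.range tu)),
      (y : F) = τF (ι c) - ι c := by
    intro c hc
    obtain ⟨d, hd, hcd⟩ := hC.diff c hc
    refine ⟨⟨ι d, hA.lam d hd⟩ * ϖA ^ (n + 1), Ideal.mul_mem_left _ _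
      (Ideal.subset_span (Set.mem_insert _ _)), ?_⟩
    rw [hτF, ← map_sub, hcd, map_mul, map_pow, ← hϖ]
    rfl
  obtain ⟨y, hy, hyz⟩ := aug_of_around hA hQ h1 hspan z
  exact ⟨y, hy, hyz.symm⟩
-- END W2

-- BEGIN W3
include hC hτF3 hτF hA hϖ hε hc hκ hl hμ hu htu hP hspan in
/-- TASK W3. The data `FTau` (W3/Sit.lean). The relations of the constants (`hC`) are transported by `ι` to elements of `A`: an equation in `A` is checked in `F`
(`Subtype.ext`), the witnesses in `Λ` give elements of `A` by `hA.lam`. `map_v`, `map_s`: `eigen_of_trace` (K1, W3/Cst.lean) in `F` for the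
automorphism `τF` (`hτF3`), since `u_j = τF w - w` has trace zero. `aug`: W2. `ex_u`: the coordinates (`hA.coord`). -/
theorem ftau_at : FTau A τF ϖA cA (1 + ϖA ^ n * κA) u tu n εA κA lA μA := by
  have htr : ∀ j, (u j : F) + τF (u j) + τF (τF (u j)) = 0 := by
    intro j
    rw [hu j, map_sub, map_sub, hτF3]
    ring
  have ha1 : ((1 + ϖA ^ n * κA : A) : F) = ι (1 + ϖ ^ n * κ) := by
    push_cast
    rw [map_add, map_mul, map_pow, map_one, hϖ, hκ]
  have hl1 : (1 : F) + (ϖA : F) ^ n * (lA : F) = ι (1 + ϖ ^ n * l) := by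
    rw [map_add, map_mul, map_pow, map_one, hϖ, hl]
  have hμ1 : (1 : F) + (ϖA : F) ^ n * (μA : F) = ι (1 + ϖ ^ n * μ) := by
    rw [map_add, map_mul, map_pow, map_one, hϖ, hμ]
  have hb1 : ι (1 + ϖ ^ n * κ + c * ϖ ^ n) =
      ((1 + ϖA ^ n * κA : A) : F) + (cA : F) * (ϖA : F) ^ n := by
    rw [ha1, map_add, map_mul, map_pow, hc, hϖ]
  refine ⟨?_, rfl, fun j => (htu j).symm, ?_, ?_, ?_, ?_, ?_, ?_, ?_, ?_, ?_, ?_⟩
  · rw [hϖ, hτF, hC.unif, map_add, map_mul, map_pow, hε]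
  · intro j
    have h1 : 1 + ι (1 + ϖ ^ n * κ) + ι (1 + ϖ ^ n * κ) * τF (ι (1 + ϖ ^ n * κ)) = 0 := by
      rw [hτF, ← map_mul, ← map_one ι, ← map_add, ← map_add, hC.tr, map_zero]
    have h2 : ι (1 + ϖ ^ n * κ) * ι (1 + ϖ ^ n * l) = 1 := by
      rw [← map_mul, hC.hl, map_one]
    have h3 := eigen_of_trace h1 h2 (htr j)
    rw [htu j, hl1, ha1, h3]
    ring
  · intro j
    have h1 : 1 + ι (1 + ϖ ^ n * κ + c * ϖ ^ n) + ι (1 + ϖ ^ n * κ + c * ϖ ^ n) *
        τF (ι (1 + ϖ ^ n * κ + c * ϖ ^ n)) = 0 := by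
      rw [hτF, ← map_mul, ← map_one ι, ← map_add, ← map_add, hC.trs, map_zero]
    have h2 : ι (1 + ϖ ^ n * κ + c * ϖ ^ n) * ι (1 + ϖ ^ n * μ) = 1 := by
      rw [← map_mul, hC.hμ, map_one]
    have h3 := eigen_of_trace h1 h2 (htr j)
    have h4 : (tu j : F) - ((1 + ϖA ^ n * κA : A) : F) * (u j : F) -
        (cA : F) * (ϖA : F) ^ n * (u j : F) =
        τF (u j) - ι (1 + ϖ ^ n * κ + c * ϖ ^ n) * (u j : F) := by
      rw [hb1, htu j]
      ring
    rw [h4, hμ1, h3]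
    ring
  · obtain ⟨ε', hε', h1⟩ := hC.unit
    refine IsUnit.of_mul_eq_one ⟨ι ε', hA.lam ε' hε'⟩ (Subtype.ext ?_)
    rw [Subring.coe_mul, hε, ← map_mul, h1, map_one, Subring.coe_one]
  · obtain ⟨a, ha, h1⟩ := hC.cκ
    refine ⟨⟨ι a, hA.lam a ha⟩, Subtype.ext ?_⟩
    push_cast
    rw [hκ, h1, hε, hϖ]
    simp only [map_add, map_mul, map_natCast, map_one]
  · obtain ⟨a, ha, h1⟩ := hC.cl
    refine ⟨⟨ι a, hA.lam a ha⟩, Subtype.ext ?_⟩
    push_cast
    rw [hl, h1, hε, hϖ]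
    have h2 : ((2 : A) : F) = 2 := rfl
    rw [h2]
    simp only [map_add, map_mul, map_natCast, map_ofNat]
  · obtain ⟨a, ha, h1⟩ := hC.cμ
    refine ⟨⟨ι a, hA.lam a ha⟩, Subtype.ext ?_⟩
    push_cast
    rw [hμ, h1, hε, hϖ]
    simp only [map_add, map_mul, map_natCast, map_one, map_sub]
  · obtain ⟨a, ha, h1⟩ := hC.cc
    refine ⟨⟨ι a, hA.lam a ha⟩, Subtype.ext ?_⟩
    push_cast
    rw [hc, h1, hε, hϖ]
    simp only [map_add, map_mul]
  · obtain ⟨a, ha, h1⟩ := hC.three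
    refine ⟨⟨ι a, hA.lam a ha⟩, Subtype.ext ?_⟩
    have h2 : (3 : F) = ι a * ι ϖ := by
      rw [← map_mul, ← h1, map_ofNat]
    rw [Subring.coe_mul, hϖ]
    change ((3 : A) : F) = ι a * ι ϖ
    rw [← h2]
    norm_cast
  · exact fun z => aug_at hC hτF hA hϖ hP hspan z
  · intro j
    exact ⟨⟨ι (x (e j)) / ι (x i), hA.coord (e j)⟩, (hu j).symm⟩
-- END W3

-- BEGIN W4
include hC hτF3 hτF hA hi h0 hϖ hε hκ hl hu htu hP hspan in
/-- TASK W4. The expansion of all differences (`Sub`, W3/Same.lean): `sub_of_tau` (S5) for the restriction of `τF` to `A` (stable by W2), `f k` the coordinate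
`x k / x i`, `u k` = `uK k`, `v k` = `vK k`. `τF (ι (x k) / ι (x i)) = ι (τ (x k)) / ι (x i)` (`hi`). `τ v = (1 + ϖ ^ n l) v`: `eigen_of_trace`, `hC.tr`, `hC.hl`.
`hI` from W2: `tu j = vK (e j) + (1 + ϖ ^ n κ) u j`. -/
theorem sub_at {uK vK : I → A} (huK : ∀ k, (uK k : F) = ι (lF x τ k) / ι (x i))
    (hvK : ∀ k, (vK k : F) = ι (vF x τ (1 + ϖ ^ n * κ) k) / ι (x i)) :
    Sub ϖA uK vK e n := by
  have hst : ∀ z : A, τF z ∈ A := by
    intro z
    obtain ⟨y, -, hy⟩ := aug_at hC hτF hA hϖ hP hspan z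
    have h1 : τF z = (z : F) + (y : F) := by rw [← hy]; ring
    rw [h1]
    exact A.add_mem z.2 y.2
  obtain ⟨τA, hτA⟩ : ∃ τA : A →+* A, ∀ z : A, ((τA z : A) : F) = τF z :=
    ⟨(τF.comp A.subtype).codRestrict A fun z => hst z, fun z => rfl⟩
  have hτi : τF (ι (x i)) = ι (x i) := by rw [hτF, hi]
  have ha1 : ((1 + ϖA ^ n * κA : A) : F) = ι (1 + ϖ ^ n * κ) := by
    push_cast
    rw [map_add, map_mul, map_pow, map_one, hϖ, hκ]
  have hl1 : ((1 + ϖA ^ n * lA : A) : F) = ι (1 + ϖ ^ n * l) := by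
    push_cast
    rw [map_add, map_mul, map_pow, map_one, hϖ, hl]
  have huf : ∀ k, uK k = τA ⟨ι (x k) / ι (x i), hA.coord k⟩ - ⟨ι (x k) / ι (x i), hA.coord k⟩ := by
    intro k
    apply Subtype.ext
    rw [AddSubgroupClass.coe_sub, hτA, huK k]
    change _ = τF (ι (x k) / ι (x i)) - ι (x k) / ι (x i)
    rw [map_div₀, hτi, hτF, lF, map_sub, sub_div]
  have hvf : ∀ k, vK k = τA (uK k) - (1 + ϖA ^ n * κA) * uK k := by
    intro k
    apply Subtype.ext
    rw [AddSubgroupClass.coe_sub, hτA, Subring.coe_mul, ha1, huK k, hvK k, map_div₀, hτi, hτF, vF, map_sub,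
      map_mul, sub_div, mul_div_assoc]
  refine sub_of_tau (ε := εA) (κ := κA) (l := lA)
    (f := fun k => ⟨ι (x k) / ι (x i), hA.coord k⟩) τA hC.pos ?_ huf hvf ?_ ?_ ?_
  · apply Subtype.ext
    rw [hτA]
    push_cast
    rw [hϖ, hτF, hC.unif, map_add, map_mul, map_pow, hε]
  · intro k
    apply Subtype.ext
    have h1 : 1 + ι (1 + ϖ ^ n * κ) + ι (1 + ϖ ^ n * κ) * τF (ι (1 + ϖ ^ n * κ)) = 0 := by
      rw [hτF, ← map_mul, ← map_one ι, ← map_add, ← map_add, hC.tr, map_zero]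
    have h2 : ι (1 + ϖ ^ n * κ) * ι (1 + ϖ ^ n * l) = 1 := by
      rw [← map_mul, hC.hl, map_one]
    have h4 : (uK k : F) + τF (uK k) + τF (τF (uK k)) = 0 := by
      have h5 := congrArg (Subtype.val : A → F) (huf k)
      rw [AddSubgroupClass.coe_sub, hτA] at h5
      rw [h5, map_sub, map_sub, hτF3]
      ring
    have h3 := eigen_of_trace h1 h2 h4
    have h6 := congrArg (Subtype.val : A → F) (hvf k)
    rw [AddSubgroupClass.coe_sub, hτA, Subring.coe_mul, ha1] at h6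
    rw [hτA, h6, h3, Subring.coe_mul, hl1, h6]
  · obtain ⟨a, ha, h1⟩ := hC.cκ
    refine ⟨⟨ι a, hA.lam a ha⟩, Subtype.ext ?_⟩
    push_cast
    rw [hκ, h1, hε, hϖ]
    simp only [map_add, map_mul, map_natCast, map_one]
  · intro z
    obtain ⟨y, hy, hzy⟩ := aug_at hC hτF hA hϖ hP hspan z
    have h1 : τA z - z = y := by
      apply Subtype.ext
      rw [AddSubgroupClass.coe_sub, hτA]
      exact hzy
    rw [h1]
    have hue : ∀ j, u j = uK (e j) := by
      intro j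
      rw [huf]
      apply Subtype.ext
      rw [AddSubgroupClass.coe_sub, hτA]
      exact hu j
    have htue : ∀ j, tu j = vK (e j) + (1 + ϖA ^ n * κA) * uK (e j) := by
      intro j
      rw [hvf]
      apply Subtype.ext
      have h2 : tu j = τA (u j) := Subtype.ext (by rw [htu, hτA])
      rw [h2, hue]
      ring_nf
    refine (Ideal.span_le.2 ?_ : Ideal.span (insert (ϖA ^ (n + 1))
      (Set.range u ∪ Set.range tu)) ≤ _) hy
    have hU : ∀ j, uK (e j) ∈ Ideal.span (Set.range fun j => uK (e j)) ⊔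
        Ideal.span (Set.range fun j => vK (e j)) ⊔ Ideal.span {ϖA ^ (n + 1)} := fun j =>
      Ideal.mem_sup_left (Ideal.mem_sup_left (Ideal.subset_span ⟨j, rfl⟩))
    have hV : ∀ j, vK (e j) ∈ Ideal.span (Set.range fun j => uK (e j)) ⊔
        Ideal.span (Set.range fun j => vK (e j)) ⊔ Ideal.span {ϖA ^ (n + 1)} := fun j =>
      Ideal.mem_sup_left (Ideal.mem_sup_right (Ideal.subset_span ⟨j, rfl⟩))
    rintro _ (rfl | ⟨j, rfl⟩ | ⟨j, rfl⟩)
    · exact Ideal.mem_sup_right (Ideal.mem_span_singleton_self _)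
    · rw [hue]
      exact hU j
    · rw [htue]
      exact Ideal.add_mem _ (hV j) (Ideal.mul_mem_left _ _ (hU j))
-- END W4

variable {β : ℕ → M}

-- BEGIN W5
include hτF hA h0 hϖ hc in
/-- TASK W5. The elements `b j' = β (idxW n j') / x i ^ 4` of `A` and the ideals of the chart. `idl (BW j) 4 = cenW j` (`idl_BW`, H7), `cenI j' = cenW (idxW n j')` (H6). `ne`: `hD.β_ne`,
`idxW_mem`. `mem`: generator. Third: `y` is in the ideal generated by the fractions `ι b / ι (x i) ^ 4`, `b ∈ BW j`, and `ι b / ι (β j) ∈ D` (`hD.ratio`);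
`Submodule.span_induction`, `A ≤ D`. Fourth: `hD.gen`; for `j` with `cenW j = ⊤` (`exists_idxW`): `1` is in the ideal, so (as in the third statement) the inverse of
`ι (β j) / ι (x i) ^ 4` is in `D`, hence in `A` (`hA.dom`), so `ι b / ι (β j) ∈ A ≤ R'`. -/
theorem exists_b (hD : LocSit ι x (BW x τ ϖ (1 + ϖ ^ n * κ) c n) Λ (5 * n + 4) D i β)
    {uK vK : I → A} (huK : ∀ k, (uK k : F) = ι (lF x τ k) / ι (x i))
    (hvK : ∀ k, (vK k : F) = ι (vF x τ (1 + ϖ ^ n * κ) k) / ι (x i)) :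
    ∃ b : ℕ → A, (∀ j ≤ 3 * n + 2, (b j : F) ≠ 0) ∧
      (∀ j ≤ 3 * n + 2, b j ∈ cenI ϖA uK vK cA n j) ∧
      (∀ j ≤ 3 * n + 2, ∀ y ∈ cenI ϖA uK vK cA n j, (y : F) / b j ∈ D) ∧
      ∀ R' : Subring F, R' ≤ D → (∀ a ∈ R', ∀ b ∈ D, a * b = 1 → b ∈ R') → A ≤ R' →
        (∀ j ≤ 3 * n + 2, ∀ y ∈ cenI ϖA uK vK cA n j, (y : F) / b j ∈ R') → D ≤ R' := by
  have hInt := fun j => intS_BW h0 hA.coord hϖ hc huK hvK j (n := n)
  have hIdl := fun j => idl_BW h0 hA.coord hϖ hc huK hvK j (n := n)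
  have h04 : ι (x i) ^ 4 ≠ 0 := pow_ne_zero 4 h0
  -- the ideals of the chart, divided by the generator
  have hdiv : ∀ j ∈ Finset.Icc 1 (5 * n + 4), ∀ y ∈ cenW ϖA uK vK cA n j,
      (y : F) / (ι (β j) / ι (x i) ^ 4) ∈ D := by
    intro j hj y hy
    rw [← hIdl j, idl] at hy
    induction hy using Submodule.span_induction with
    | mem y hy =>
      obtain ⟨b, hb, h1⟩ := hy
      have h2 : (y : F) / (ι (β j) / ι (x i) ^ 4) = ι b / ι (β j) := by
        have := hD.β_ne j hj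
        rw [h1]
        field_simp
      rw [h2]
      exact hD.ratio j hj b hb
    | zero => rw [Subring.coe_zero, zero_div]; exact D.zero_mem
    | add y z _ _ h1 h2 =>
      rw [Subring.coe_add, add_div]
      exact D.add_mem h1 h2
    | smul a y _ h1 =>
      rw [smul_eq_mul, Subring.coe_mul, mul_div_assoc]
      exact D.mul_mem (hA.le a.2) h1
  have hex : ∀ j : ℕ, ∃ b : A, j ≤ 3 * n + 2 → (b : F) = ι (β (idxW n j)) / ι (x i) ^ 4 := by
    intro j
    by_cases hj : j ≤ 3 * n + 2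
    · exact ⟨⟨_, hInt _ _ (hD.β_mem _ (idxW_mem hj))⟩, fun _ => rfl⟩
    · exact ⟨0, fun h => absurd h hj⟩
  choose b hb using hex
  refine ⟨b, ?_, ?_, ?_, ?_⟩
  · intro j hj
    rw [hb j hj]
    exact div_ne_zero (hD.β_ne _ (idxW_mem hj)) h04
  · intro j hj
    rw [cenI_eq_cenW _ _ _ _ hj, ← hIdl, idl]
    exact Ideal.subset_span ⟨_, hD.β_mem _ (idxW_mem hj), hb j hj⟩
  · intro j hj y hy
    rw [cenI_eq_cenW _ _ _ _ hj] at hy
    rw [hb j hj]
    exact hdiv _ (idxW_mem hj) y hy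
  · intro R' hR' hdom hAR hyR
    refine hD.gen R' hR' hdom (fun c hc => hAR (hA.lam c hc)) (fun k => hAR (hA.coord k)) ?_
    intro j hj b' hb'
    rcases exists_idxW ϖA uK vK cA hj with htop | ⟨j', hj', rfl⟩
    · -- the trivial ideals
      have hone : (1 : A) ∈ cenW ϖA uK vK cA n j := by rw [htop]; exact Submodule.mem_top
      have h1 := hdiv j hj 1 hone
      have hβ0 := hD.β_ne j hj
      have hβA := hInt j _ (hD.β_mem j hj)
      have h2 : ι (β j) / ι (x i) ^ 4 * (((1 : A) : F) / (ι (β j) / ι (x i) ^ 4)) = 1 := by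
        rw [Subring.coe_one]
        field_simp
      have h3 := hA.dom _ hβA _ h1 h2
      have h4 : ι b' / ι (β j) = ι b' / ι (x i) ^ 4 * (((1 : A) : F) / (ι (β j) / ι (x i) ^ 4)) := by
        rw [Subring.coe_one]
        field_simp
      rw [h4]
      exact hAR (A.mul_mem (hInt j _ hb') h3)
    · have hmem : (⟨ι b' / ι (x i) ^ 4, hInt _ _ hb'⟩ : A) ∈ cenI ϖA uK vK cA n j' := by
        rw [cenI_eq_cenW _ _ _ _ hj', ← hIdl, idl]
        exact Ideal.subset_span ⟨_, hb', rfl⟩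
      have h1 := hyR j' hj' _ hmem
      have h2 : ((⟨ι b' / ι (x i) ^ 4, hInt _ _ hb'⟩ : A) : F) / (b j' : F) =
          ι b' / ι (β (idxW n j')) := by
        have hβ0 := hD.β_ne _ hj
        rw [hb j' hj']
        change ι b' / ι (x i) ^ 4 / _ = _
        field_simp
      rwa [h2] at h1
-- END W5

end Local

section Chart

variable {M F I : Type} [CommRing M] [Field F] {ι : M →+* F} {x : I → M} {τ : M →+* M}
  {τF : F →+* F} {B : ℕ → Set M} {Λ : Subring M} {r : ℕ} {D A : Subring F} {i : I} {β : ℕ → M}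

-- BEGIN W6
theorem w6_unit {A : Subring F} [IsLocalRing A] (hA : Around ι x Λ D i A) {y : A}
    (hy : y ∈ maximalIdeal A) : ∀ w ∈ D, (y : F) * w ≠ 1 := by
  intro w hw h1
  have hwA := hA.dom (y : F) y.2 w hw h1
  have h2 : IsUnit y := by
    refine IsUnit.of_mul_eq_one (⟨w, hwA⟩ : A) (Subtype.ext ?_)
    exact h1
  exact (mem_maximalIdeal _).1 hy h2

/-- TASK W6. **The local theorem at a fixed chart.** Take the data of `hS`; the constants are elements of `A` (`Around.lam`), `uK k`, `vK k` exist since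
`lF x τ k = x k' - x k` (`hstar`) and `vF k = lF k' - a lF k`. W3 gives `FTau`, W4 gives `Sub`, so `cenI` for `uK`, `vK` is `cenI` for `u = uK ∘ e`,
`tu - a u = vK ∘ e` (`Sub.cenI_eq`); W5 gives `b`; `wild_sit3` (Q4). The nonunits: `PartRSP.mem` and `Around.dom`. `Around.reg`. `c` is a unit: `hC.unitc`. -/
theorem wild_fixed {ϖ ε c κ l μ : M} {n : ℕ} (hC : Cst Λ τ ϖ ε c κ l μ n)
    (hτ3 : ∀ m, τ (τ (τ m)) = m) (hτF3 : ∀ z, τF (τF (τF z)) = z)
    (hτF : ∀ m, τF (ι m) = ι (τ m)) (hstar : ∀ l, ∃ l', τ (x l) = x l') (hi : τ (x i) = x i)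
    (hD : LocSit ι x (BW x τ ϖ (1 + ϖ ^ n * κ) c n) Λ (5 * n + 4) D i β)
    (hS : StrAt ι τF x Λ ϖ n D i) :
    IsRegularLocalRing D ∧ ((∀ y ∈ D, τF y ∈ D) → Principal τF D) := by
  obtain ⟨A, hAloc, J, hJf, hJd, e, ϖA, u, tu, hA, hϖ, hu, htu, hP, hspan⟩ := hS
  have h0 : ι (x i) ≠ 0 := hD.ne
  have hreg : IsRegularLocalRing A := hA.reg
  obtain ⟨εA, hε⟩ : ∃ y : A, (y : F) = ι ε := ⟨⟨ι ε, hA.lam ε hC.mε⟩, rfl⟩
  obtain ⟨cA, hc⟩ : ∃ y : A, (y : F) = ι c := ⟨⟨ι c, hA.lam c hC.mc⟩, rfl⟩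
  obtain ⟨κA, hκ⟩ : ∃ y : A, (y : F) = ι κ := ⟨⟨ι κ, hA.lam κ hC.mκ⟩, rfl⟩
  obtain ⟨lA, hl⟩ : ∃ y : A, (y : F) = ι l := ⟨⟨ι l, hA.lam l hC.ml⟩, rfl⟩
  obtain ⟨μA, hμ⟩ : ∃ y : A, (y : F) = ι μ := ⟨⟨ι μ, hA.lam μ hC.mμ⟩, rfl⟩
  have haA : ((1 + ϖA ^ n * κA : A) : F) = ι (1 + ϖ ^ n * κ) := by
    have h1 : ((1 + ϖA ^ n * κA : A) : F) = 1 + (ϖA : F) ^ n * (κA : F) := rfl
    rw [h1, map_add, map_one, map_mul, map_pow, hϖ, hκ]
  -- the families
  have hexu : ∀ k, ∃ y : A, (y : F) = ι (lF x τ k) / ι (x i) := by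
    intro k
    obtain ⟨k', hk'⟩ := hstar k
    refine ⟨⟨ι (x k') / ι (x i) - ι (x k) / ι (x i), A.sub_mem (hA.coord k') (hA.coord k)⟩, ?_⟩
    change ι (x k') / ι (x i) - ι (x k) / ι (x i) = ι (lF x τ k) / ι (x i)
    unfold lF
    rw [hk', map_sub, sub_div]
  choose uK huK using hexu
  have hexv : ∀ k, ∃ y : A, (y : F) = ι (vF x τ (1 + ϖ ^ n * κ) k) / ι (x i) := by
    intro k
    obtain ⟨k', hk'⟩ := hstar k
    refine ⟨uK k' - (1 + ϖA ^ n * κA) * uK k, ?_⟩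
    have h1 : ((uK k' - (1 + ϖA ^ n * κA) * uK k : A) : F) =
      (uK k' : F) - ((1 + ϖA ^ n * κA : A) : F) * (uK k : F) := rfl
    have h2 : τ (lF x τ k) = lF x τ k' := by
      unfold lF
      rw [map_sub, hk']
    rw [h1, haA, huK, huK]
    unfold vF
    rw [h2, map_sub, map_mul]
    ring
  choose vK hvK using hexv
  have hquot : ∀ m : M, τF (ι m / ι (x i)) = ι (τ m) / ι (x i) := by
    intro m
    rw [map_div₀, hτF, hτF, hi]
  have hue : (fun j => uK (e j)) = u := by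
    funext j
    apply Subtype.ext
    rw [huK, hu, hquot]
    unfold lF
    rw [map_sub, sub_div]
  have hve : (fun j => vK (e j)) = fun j => tu j - (1 + ϖA ^ n * κA) * u j := by
    funext j
    apply Subtype.ext
    have h1 : ((tu j - (1 + ϖA ^ n * κA) * u j : A) : F) =
      (tu j : F) - ((1 + ϖA ^ n * κA : A) : F) * (u j : F) := rfl
    have h2 : (u j : F) = ι (lF x τ (e j)) / ι (x i) := by rw [← huK, ← hue]
    rw [h1, haA, hvK, htu, h2, hquot]
    unfold vF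
    rw [map_sub, map_mul]
    ring
  have hT := ftau_at hC hτF3 hτF hA hϖ hε hc hκ hl hμ hu htu hP hspan
  have hSub := sub_at hC hτF3 hτF hA hi h0 hϖ hε hκ hl hu htu hP hspan huK hvK
  have hcen : ∀ j, cenI ϖA uK vK cA n j =
      cenI ϖA u (fun j => tu j - (1 + ϖA ^ n * κA) * u j) cA n j := by
    intro j
    rw [hSub.cenI_eq hC.pos cA j, hue, hve]
  obtain ⟨b, hb1, hb2, hb3, hb4⟩ := exists_b hτF hA h0 hϖ hc hD huK hvK
  have hcu : IsUnit cA := by
    obtain ⟨c', hc', hcc⟩ := hC.unitc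
    refine IsUnit.of_mul_eq_one (⟨ι c', hA.lam c' hc'⟩ : A) (Subtype.ext ?_)
    change (cA : F) * ι c' = 1
    rw [hc, ← map_mul, hcc, map_one]
  simp only [hcen] at hb2 hb3 hb4
  exact wild_sit3 hP hC.pos hcu τF hT D hD.loc hA.le hA.dom
    (w6_unit hA (hP.mem none))
    (fun j => w6_unit hA (hP.mem (some (Sum.inl j))))
    (fun j => w6_unit hA (hP.mem (some (Sum.inr j)))) b hb1 hb2 hb3 hb4
-- END W6

-- BEGIN W7
/-- TASK W7. Change of the chart: `x j / x k = (x j / x i) w` with `w` the inverse of `x k / x i`; `gen`: `R'` contains `x i / x k`, whose inverse `x k / x i` is in `D`, so `R'`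
contains it. -/
theorem LocSit.change (hD : LocSit ι x B Λ r D i β) {k : I}
    (hk : ∃ w ∈ D, ι (x k) / ι (x i) * w = 1) : LocSit ι x B Λ r D k β := by
  obtain ⟨w, hw, hkw⟩ := hk
  have hxi := hD.ne
  have hxk : ι (x k) ≠ 0 := by
    intro h
    rw [h, zero_div, zero_mul] at hkw
    exact zero_ne_one hkw
  have hw' : w = ι (x i) / ι (x k) := by
    field_simp at hkw ⊢
    linear_combination hkw
  have hcoord : ∀ j, ι (x j) / ι (x k) ∈ D := by
    intro j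
    have h1 : ι (x j) / ι (x k) = ι (x j) / ι (x i) * w := by
      rw [hw']; field_simp
    rw [h1]
    exact D.mul_mem (hD.coord j) hw
  refine ⟨hD.loc, hD.lam, hxk, hcoord, hD.β_mem, hD.β_ne, hD.ratio, ?_⟩
  intro R' hR' hinv hlam hc hratio
  refine hD.gen R' hR' hinv hlam (fun j => ?_) hratio
  have h2 : ι (x k) / ι (x i) ∈ R' := by
    refine hinv _ (hc i) _ (hD.coord k) ?_
    field_simp
  have h3 : ι (x j) / ι (x i) = ι (x j) / ι (x k) * (ι (x k) / ι (x i)) := by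
    field_simp
  rw [h3]
  exact R'.mul_mem (hc j) h2
-- END W7

-- BEGIN W8
/-- difference of a nonunit and a unit -/
theorem w8_sub {D : Subring F} [IsLocalRing D] {a b : F} (ha : a ∈ D) (hb : b ∈ D)
    (h1 : ¬ ∃ w ∈ D, a * w = 1) (h2 : ∃ w ∈ D, b * w = 1) : ∃ w ∈ D, (a - b) * w = 1 := by
  have hunit : ∀ z : D, (∃ w ∈ D, (z : F) * w = 1) ↔ IsUnit z := by
    intro z
    constructor
    · rintro ⟨w, hw, hzw⟩
      exact IsUnit.of_mul_eq_one ⟨w, hw⟩ (Subtype.ext hzw)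
    · intro hz
      obtain ⟨w, hw⟩ := hz.exists_right_inv
      exact ⟨w, w.2, congrArg Subtype.val hw⟩
  by_contra hcon
  have h3 : ¬ IsUnit ((⟨a, ha⟩ : D) - ⟨b, hb⟩) := fun h => hcon ((hunit _).2 h)
  have h4 : ¬ IsUnit (⟨a, ha⟩ : D) := fun h => h1 ((hunit _).2 h)
  have h5 : (⟨b, hb⟩ : D) ∈ maximalIdeal D := by
    have h6 := Ideal.sub_mem (maximalIdeal D) ((mem_maximalIdeal _).2 h4)
      ((mem_maximalIdeal _).2 h3)
    rwa [sub_sub_cancel] at h6
  exact (mem_maximalIdeal _).1 h5 ((hunit _).1 h2)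

/-- the fixed coordinate -/
theorem w8_fixed {I₀ : Set I} (hD : LocSit ι x B Λ r D i β) {i' i'' : I}
    (hi' : τ (x i) = x i') (hi'' : τ (x i') = x i'')
    (hseg : ∀ i, ∃ a b c, a ∈ I₀ ∧ x i * τ (x i) * τ (τ (x i)) = x a * x b * x c)
    (h1 : ∃ w ∈ D, ι (x i') / ι (x i) * w = 1) (h2 : ∃ w ∈ D, ι (x i'') / ι (x i) * w = 1) :
    ∃ a ∈ I₀, ∃ w ∈ D, ι (x a) / ι (x i) * w = 1 := by
  obtain ⟨w₁, hw₁, e1⟩ := h1
  obtain ⟨w₂, hw₂, e2⟩ := h2
  obtain ⟨a, b, c, ha, habc⟩ := hseg i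
  have h0 := hD.ne
  refine ⟨a, ha, ι (x b) / ι (x i) * (ι (x c) / ι (x i)) * (w₁ * w₂),
    D.mul_mem (D.mul_mem (hD.coord b) (hD.coord c)) (D.mul_mem hw₁ hw₂), ?_⟩
  rw [hi', hi''] at habc
  have h3 : ι (x i) * ι (x i') * ι (x i'') = ι (x a) * ι (x b) * ι (x c) := by
    rw [← map_mul, ← map_mul, habc, map_mul, map_mul]
  have h4 : ι (x a) / ι (x i) * (ι (x b) / ι (x i) * (ι (x c) / ι (x i)) * (w₁ * w₂)) =
      (ι (x a) * ι (x b) * ι (x c)) / (ι (x i) * ι (x i) * ι (x i)) * (w₁ * w₂) := by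
    field_simp
  rw [h4, ← h3]
  have h5 : ι (x i) * ι (x i') * ι (x i'') / (ι (x i) * ι (x i) * ι (x i)) * (w₁ * w₂) =
      (ι (x i') / ι (x i) * w₁) * (ι (x i'') / ι (x i) * w₂) := by
    field_simp
  rw [h5, e1, e2, one_mul]

/-- TASK W8 (first statement). Let `τ (x i) = x i'`, `τ (x i') = x i''`. If `x i' / x i`, `x i'' / x i` are units of `D` then so is `(x a / x i) (x b / x i) (x c / x i)`, hence `x a / x i`.
If `x i' / x i` is not a unit then `(x i' - x i) / x i` is one; otherwise `x i'' / x i` is not a unit and `(x i'' - x i') / x i` is one. -/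
theorem exists_fixed_or {I₀ : Set I} (hD : LocSit ι x B Λ r D i β)
    (hstar : ∀ l, ∃ l', τ (x l) = x l')
    (hseg : ∀ i, ∃ a b c, a ∈ I₀ ∧ x i * τ (x i) * τ (τ (x i)) = x a * x b * x c) :
    (∃ a ∈ I₀, ∃ w ∈ D, ι (x a) / ι (x i) * w = 1) ∨
      ∃ k, ∃ w ∈ D, ι (lF x τ k) / ι (x i) * w = 1 := by
  have hloc := hD.loc
  obtain ⟨i', hi'⟩ := hstar i
  obtain ⟨i'', hi''⟩ := hstar i'
  have h0 := hD.ne
  by_cases h1 : ∃ w ∈ D, ι (x i') / ι (x i) * w = 1
  · by_cases h2 : ∃ w ∈ D, ι (x i'') / ι (x i) * w = 1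
    · exact Or.inl (w8_fixed hD hi' hi'' hseg h1 h2)
    · obtain ⟨w, hw, h3⟩ := w8_sub (hD.coord i'') (hD.coord i') h2 h1
      refine Or.inr ⟨i', w, hw, ?_⟩
      rw [← h3, lF, hi'', map_sub, sub_div]
  · obtain ⟨w, hw, h3⟩ := w8_sub (hD.coord i') D.one_mem h1 ⟨1, D.one_mem, one_mul 1⟩
    refine Or.inr ⟨i, w, hw, ?_⟩
    rw [← h3, lF, hi', map_sub, sub_div, div_self h0]

/-- Second statement. If `D` is stable: `τF (x i'' / x i) = x i / x i'`, as `τ ^ 3 = 1`, so `x i' / x i` is a unit, and similarly `x i'' / x i`. -/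
theorem exists_fixed_of_stable {I₀ : Set I} (hD : LocSit ι x B Λ r D i β)
    (hι : Function.Injective ι) (hτ3 : ∀ m, τ (τ (τ m)) = m)
    (hτF : ∀ m, τF (ι m) = ι (τ m)) (hstar : ∀ l, ∃ l', τ (x l) = x l')
    (hseg : ∀ i, ∃ a b c, a ∈ I₀ ∧ x i * τ (x i) * τ (τ (x i)) = x a * x b * x c)
    (hDτ : ∀ z ∈ D, τF z ∈ D) : ∃ a ∈ I₀, ∃ w ∈ D, ι (x a) / ι (x i) * w = 1 := by
  obtain ⟨i', hi'⟩ := hstar i
  obtain ⟨i'', hi''⟩ := hstar i'
  have h0 := hD.ne
  have hi3 : τ (x i'') = x i := by rw [← hi'', ← hi', hτ3]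
  have h0' : ι (x i') ≠ 0 := by
    rw [← hi', ← hτF]
    exact (map_ne_zero τF).mpr h0
  have h0'' : ι (x i'') ≠ 0 := by
    rw [← hi'', ← hτF]
    exact (map_ne_zero τF).mpr h0'
  refine w8_fixed hD hi' hi'' hseg ⟨ι (x i) / ι (x i'), ?_, ?_⟩ ⟨ι (x i) / ι (x i''), ?_, ?_⟩
  · have h1 := hDτ _ (hD.coord i'')
    rwa [map_div₀, hτF, hτF, hi3, hi'] at h1
  · field_simp
  · have h1 := hDτ _ (hDτ _ (hD.coord i'))
    rwa [map_div₀, hτF, hτF, hi', hi'', map_div₀, hτF, hτF, hi3, hi''] at h1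
  · field_simp
-- END W8

-- BEGIN W9
/-- TASK W9. If `ϖ` or some difference is a unit then the centre is trivial: `eq_of_units` (L4, QD/Around.lean) with `δ = 4`. `hBA`: `intS_BW` (H7; `ϖ`, `c` are in `A` by `hA.lam`;
`lF k = x k' - x k`, `vF k = lF k' - a lF k`). `hu`: if `ϖ` is a unit: `ϖ ^ j * (x i * x i * x i * x i)`. If `lF k / x i` is a unit: `K_l`: `lF k * lF k * (x i * x i)`, `⊤`: `x i ^ 4`,
`R_m`: `(lF k * lF k) * (lF k * lF k)` in `KS * KS`, last: `lF k * lF k * (x i * x i)`. -/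
theorem eq_of_not_fixed {ϖ a c : M} {n : ℕ} (hϖ : ϖ ∈ Λ) (ha : a ∈ Λ) (hc : c ∈ Λ)
    (hstar : ∀ l, ∃ l', τ (x l) = x l')
    (hD : LocSit ι x (BW x τ ϖ a c n) Λ (5 * n + 4) D i β) (hA : Around ι x Λ D i A)
    (hun : (∃ w ∈ D, ι ϖ * w = 1) ∨ ∃ k, ∃ w ∈ D, ι (lF x τ k) / ι (x i) * w = 1) : D = A := by
  classical
  have h0 := hD.ne
  have hlF : ∀ k, ι (lF x τ k) / ι (x i) ∈ A := by
    intro k
    obtain ⟨k', hk'⟩ := hstar k
    rw [lF, hk', map_sub, sub_div]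
    exact A.sub_mem (hA.coord k') (hA.coord k)
  have hvF : ∀ k, ι (vF x τ a k) / ι (x i) ∈ A := by
    intro k
    obtain ⟨k', hk'⟩ := hstar k
    have h1 : τ (lF x τ k) = lF x τ k' := by
      rw [lF, lF, map_sub, hk']
    rw [vF, h1, map_sub, sub_div, map_mul, mul_div_assoc]
    exact A.sub_mem (hlF k') (A.mul_mem (hA.lam a ha) (hlF k))
  refine eq_of_units hD hA (δ := 4) ?_ ?_
  · intro j _
    exact intS_BW h0 hA.coord (ϖA := ⟨ι ϖ, hA.lam ϖ hϖ⟩) rfl (cA := ⟨ι c, hA.lam c hc⟩) rfl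
      (u := fun k => ⟨_, hlF k⟩) (fun _ => rfl) (v := fun k => ⟨_, hvF k⟩) (fun _ => rfl) j
  · intro j _
    rcases hun with ⟨w, hw, h1⟩ | ⟨k, w, hw, h1⟩
    · refine ⟨ϖ ^ j * (x i * x i * x i * x i), Or.inr ?_, w ^ j, D.pow_mem hw j, ?_⟩
      · exact Set.mul_mem_mul rfl (Set.mul_mem_mul (Set.mul_mem_mul (Set.mul_mem_mul ⟨i, rfl⟩
          ⟨i, rfl⟩) ⟨i, rfl⟩) ⟨i, rfl⟩)
      · have h2 : ι (ϖ ^ j * (x i * x i * x i * x i)) / ι (x i) ^ 4 = ι ϖ ^ j := by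
          simp only [map_mul, map_pow]
          field_simp
        rw [h2, ← mul_pow, h1, one_pow]
    · have hx1 : x i ∈ XS x := ⟨i, rfl⟩
      have hL : lF x τ k ∈ LS x τ := ⟨k, rfl⟩
      have hAS : ∀ m, lF x τ k ∈ AS x τ ϖ m := fun m => Or.inr hL
      have hKS : ∀ m, lF x τ k * lF x τ k ∈ KS x τ ϖ a m := fun m =>
        Or.inl (Set.mul_mem_mul (hAS _) (hAS _))
      have h2 : ι (lF x τ k * lF x τ k * (x i * x i)) / ι (x i) ^ 4 * w ^ 2 = 1 := by
        have h3 : ι (lF x τ k * lF x τ k * (x i * x i)) / ι (x i) ^ 4 * w ^ 2 =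
            (ι (lF x τ k) / ι (x i) * w) ^ 2 := by
          simp only [map_mul]
          field_simp
        rw [h3, h1, one_pow]
      have h4 : ι (lF x τ k * lF x τ k * (lF x τ k * lF x τ k)) / ι (x i) ^ 4 * w ^ 4 = 1 := by
        have h3 : ι (lF x τ k * lF x τ k * (lF x τ k * lF x τ k)) / ι (x i) ^ 4 * w ^ 4 =
            (ι (lF x τ k) / ι (x i) * w) ^ 4 := by
          simp only [map_mul]
          field_simp
        rw [h3, h1, one_pow]
      have h5 : ι (x i * x i * x i * x i) / ι (x i) ^ 4 * 1 = 1 := by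
        simp only [map_mul]
        field_simp
      by_cases c1 : j ≤ 2 * n + 2
      · refine ⟨_, Or.inl ?_, w ^ 2, D.pow_mem hw 2, h2⟩
        rw [if_pos c1]
        exact Set.mul_mem_mul (hKS j) (Set.mul_mem_mul hx1 hx1)
      · by_cases c2 : j < 4 * n + 4
        · refine ⟨_, Or.inl ?_, 1, D.one_mem, h5⟩
          rw [if_neg c1, if_pos c2]
          exact Set.mul_mem_mul (Set.mul_mem_mul (Set.mul_mem_mul hx1 hx1) hx1) hx1
        · by_cases c3 : j < 5 * n + 4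
          · refine ⟨_, Or.inl ?_, w ^ 4, D.pow_mem hw 4, h4⟩
            rw [if_neg c1, if_neg c2, if_pos c3]
            exact Or.inl (Set.mul_mem_mul (hKS _) (hKS _))
          · refine ⟨_, Or.inl ?_, w ^ 2, D.pow_mem hw 2, h2⟩
            rw [if_neg c1, if_neg c2, if_neg c3]
            exact Or.inl (Or.inl (Or.inr (Set.mul_mem_mul (Set.mul_mem_mul hL hL)
              (Set.mul_mem_mul hx1 hx1))))
-- END W9

end Chart

section Final

variable {R O L M F I : Type} [CommRing R] [CommRing O] [Algebra R O] [Field L] [Algebra R L]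
  [Algebra O L] [IsScalarTower R O L] [CommRing M] [IsDomain M] [Algebra L M] [Algebra R M]
  [IsScalarTower R L M] (ℳ : ℕ → Submodule L M) [GradedAlgebra ℳ] [Field F] [Finite I]

-- BEGIN W10
/-- TASK W10. **The centre at a wildly ramified prime.** `exists_cst` (K5) gives the constants, `centW` (D6) the first part with `B = BW x τ ϖ (1 + ϖ ^ n κ) c n`, `δ = 4`, `r = 5 n + 4`.
Let `D` be given. If `ι ϖ` is a unit of `D`: `eq_of_not_fixed` (W9) with `hAr`, `Around.reg`; `principal_of_unit` (QWMain.lean) with `y = ι ϖ`: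
`τ ϖ - ϖ = ε ϖ ^ (n + 1)`. Otherwise `exists_fixed_or` (W8). If there is `a ∈ I₀` with `x a / x i` a unit: change the chart (W7). If some `lF k / x a` is a unit then W9 for the chart `a`, and for stable `D`
`principal_of_unit` with `y = x k / x a`, `τF y - y = lF k / x a`. Otherwise `hStr` and `wild_fixed` (W6). If there is no such `a` then some `lF k / x i` is a unit, and W9; `D` is not stable (W8, second statement). -/
theorem exists_cent_wild {I₀ : Set I} (hOL : Function.Injective (algebraMap O L))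
    {ι : M →+* F} (hι : Function.Injective ι) {x : I → M} {τ : M →+* M} {τF : F →+* F}
    (hτ3 : ∀ m, τ (τ (τ m)) = m) (hτF3 : ∀ z, τF (τF (τF z)) = z)
    (hτF : ∀ m, τF (ι m) = ι (τ m)) (hx : ∀ i, x i ∈ ℳ 1)
    (hτgr : ∀ k m, m ∈ ℳ k → τ m ∈ ℳ k) (hstar : ∀ l, ∃ l', τ (x l) = x l')
    (hI₀ : ∀ a ∈ I₀, τ (x a) = x a)
    (hseg : ∀ i, ∃ a b c, a ∈ I₀ ∧ x i * τ (x i) * τ (τ (x i)) = x a * x b * x c)
    {p : Ideal R} [p.IsPrime] {ϖ : O} {n : ℕ} (hRam : Ram O L M τ p ϖ (n + 1)) (hn : 1 ≤ n)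
    (h3 : ∃ a ∈ lamP O L M p, (3 : M) = a * oM O L M ϖ)
    (hAr : ∀ (D : Subring F) (i : I), IsLocalRing D → (∀ c ∈ lamP O L M p, ι c ∈ D) →
      ι (x i) ≠ 0 → (∀ k, ι (x k) / ι (x i) ∈ D) →
      ∃ A, Around ι x (lamP O L M p) D i A)
    (hStr : ∀ (D : Subring F) (i : I), i ∈ I₀ → IsLocalRing D → (∀ c ∈ lamP O L M p, ι c ∈ D) →
      ι (x i) ≠ 0 → (∀ k, ι (x k) / ι (x i) ∈ D) → (∀ w ∈ D, ι (oM O L M ϖ) * w ≠ 1) →
      (∀ k, ∀ w ∈ D, (τF (ι (x k) / ι (x i)) - ι (x k) / ι (x i)) * w ≠ 1) →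
      StrAt ι τF x (lamP O L M p) (oM O L M ϖ) n D i) :
    ∃ (δ r : ℕ) (B : ℕ → Set M), Cent ℳ x τ p ϖ δ r B ∧
      ∀ (D : Subring F) (i : I) (β : ℕ → M), LocSit ι x B (lamP O L M p) r D i β →
        IsRegularLocalRing D ∧ ((∀ z ∈ D, τF z ∈ D) → Principal τF D) := by
  obtain ⟨ε, c, κ, l, μ, hC⟩ := exists_cst hRam hn hτ3 hOL h3
  refine ⟨4, 5 * n + 4, BW x τ (oM O L M ϖ) (1 + oM O L M ϖ ^ n * κ) c n,
    centW ℳ hC hRam.ϖ0 hτ3 hx hτgr hstar, ?_⟩
  intro D i β hD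
  have haΛ : 1 + oM O L M ϖ ^ n * κ ∈ lamP O L M p :=
    Subring.add_mem _ (Subring.one_mem _) (Subring.mul_mem _ (Subring.pow_mem _ hC.mϖ n) hC.mκ)
  by_cases hϖD : ∃ w ∈ D, ι (oM O L M ϖ) * w = 1
  · obtain ⟨A, hA⟩ := hAr D i hD.loc hD.lam hD.ne hD.coord
    have h1 : D = A := eq_of_not_fixed hC.mϖ haΛ hC.mc hstar hD hA (Or.inl hϖD)
    refine ⟨by rw [h1]; exact hA.reg, fun hDτ => ?_⟩
    obtain ⟨w, hw, hw1⟩ := hϖD
    obtain ⟨ε', hε', hεε⟩ := hC.unit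
    refine principal_of_unit τF hDτ (hD.lam _ hC.mϖ)
      (D.mul_mem (hD.lam ε' hε') (D.pow_mem hw (n + 1))) ?_
    rw [hτF, hC.unif, map_add, map_mul, map_pow]
    have h5 : ι ε * ι ε' = 1 := by rw [← map_mul, hεε, map_one]
    have h6 : ι (oM O L M ϖ) ^ (n + 1) * w ^ (n + 1) = 1 := by rw [← mul_pow, hw1, one_pow]
    linear_combination (ι (oM O L M ϖ) ^ (n + 1) * w ^ (n + 1)) * h5 + h6
  · by_cases hex : ∃ a ∈ I₀, ∃ w ∈ D, ι (x a) / ι (x i) * w = 1
    · obtain ⟨a, ha, hun⟩ := hex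
      have hD' := W3.LocSit.change hD hun
      have hdiff : ∀ k, τF (ι (x k) / ι (x a)) - ι (x k) / ι (x a) =
          ι (lF x τ k) / ι (x a) := by
        intro k
        rw [map_div₀, hτF, hτF, hI₀ a ha, lF, map_sub, sub_div]
      by_cases hl : ∃ k, ∃ w ∈ D, ι (lF x τ k) / ι (x a) * w = 1
      · obtain ⟨A, hA⟩ := hAr D a hD'.loc hD'.lam hD'.ne hD'.coord
        have h1 : D = A := eq_of_not_fixed hC.mϖ haΛ hC.mc hstar hD' hA (Or.inr hl)
        refine ⟨by rw [h1]; exact hA.reg, fun hDτ => ?_⟩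
        obtain ⟨k, w, hw, hw1⟩ := hl
        refine principal_of_unit τF hDτ (hD'.coord k) hw ?_
        rw [hdiff, hw1]
      · push Not at hϖD hl
        have hS := hStr D a ha hD'.loc hD'.lam hD'.ne hD'.coord hϖD
          (fun k w hw => by rw [hdiff]; exact hl k w hw)
        exact wild_fixed hC hτ3 hτF3 hτF hstar (hI₀ a ha) hD' hS
    · obtain ⟨A, hA⟩ := hAr D i hD.loc hD.lam hD.ne hD.coord
      have hun := (exists_fixed_or (I₀ := I₀) hD hstar hseg).resolve_left hex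
      have h1 : D = A := eq_of_not_fixed hC.mϖ haΛ hC.mc hstar hD hA (Or.inr hun)
      exact ⟨by rw [h1]; exact hA.reg, fun hDτ => absurd
        (exists_fixed_of_stable (I₀ := I₀) hD hι hτ3 hτF hstar hseg hDτ) hex⟩
-- END W10

end Final

end Pool.Agent.Lib.MP_6a3dac_ag.W3
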