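import Pool.Agent.Lib.MP_6a3dac_ag.W3.T3e
import Pool.Agent.Lib.MP_6a3dac_ag.W3.T2c
import Pool.Agent.Lib.MP_6a3dac_ag.W3.Wild

/-!
# The local structure at a ramified prime, in the field
-/

set_option autoImplicit false
set_option linter.unusedSectionVars false
set_option linter.unusedVariables false

namespace Pool.Agent.Lib.MP_6a3dac_ag.W3

open IsLocalRing TensorProduct Pool.Agent.Lib.MP_6a3dac_ag

section LocF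

variable {G F : Type} [CommRing G] [Field F] {φ : G →+* F} {D : Subring F} {hφ : ∀ g, φ g ∈ D}

/-- The map to the local ring. -/
def toLocF (φ : G →+* F) (D : Subring F) (hφ : ∀ g, φ g ∈ D) : G →+* locF φ D hφ :=
  φ.codRestrict (locF φ D hφ) map_mem_locF

theorem coe_toLocF (g : G) : (toLocF φ D hφ g : F) = φ g := rfl

theorem mem_maximalIdeal_locF [IsLocalRing (locF φ D hφ)] {z : locF φ D hφ} :
    z ∈ maximalIdeal (locF φ D hφ) ↔ ∀ w ∈ D, (z : F) * w ≠ 1 := by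
  rw [IsLocalRing.mem_maximalIdeal, mem_nonunits_iff]
  constructor
  · intro h w hw hzw
    exact h (IsUnit.of_mul_eq_one ⟨w, locF_dom z.2 hw hzw⟩ (Subtype.ext hzw))
  · intro h hu
    obtain ⟨w, hw⟩ := hu.exists_right_inv
    exact h w (locF_le w.2) (congrArg Subtype.val hw)

theorem isLocalization_locF [IsLocalRing D] (hφi : Function.Injective φ) :
    letI := (toLocF φ D hφ).toAlgebra
    IsLocalization.AtPrime (locF φ D hφ) ((maximalIdeal D).comap (φ.codRestrict D hφ)) := by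
  let := (toLocF φ D hφ).toAlgebra
  have hmem : ∀ s, s ∈ ((maximalIdeal D).comap (φ.codRestrict D hφ)).primeCompl ↔
      ∃ w ∈ D, φ s * w = 1 := by
    intro s
    rw [Ideal.mem_primeCompl_iff, Ideal.mem_comap, IsLocalRing.mem_maximalIdeal,
      mem_nonunits_iff, not_not]
    constructor
    · intro hu
      obtain ⟨w, hw⟩ := hu.exists_right_inv
      exact ⟨w, w.2, congrArg Subtype.val hw⟩
    · rintro ⟨w, hw, h⟩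
      exact IsUnit.of_mul_eq_one ⟨w, hw⟩ (Subtype.ext h)
  refine ⟨⟨?_, ?_, ?_⟩⟩
  · rintro ⟨s, hs⟩
    obtain ⟨w, hw, h⟩ := (hmem s).mp hs
    exact IsUnit.of_mul_eq_one ⟨w, locF_dom (map_mem_locF s) hw h⟩ (Subtype.ext h)
  · rintro ⟨z, hz⟩
    obtain ⟨hzD, a, s, hs, h1⟩ := mem_locF.mp hz
    exact ⟨⟨a, ⟨s, (hmem s).mpr hs⟩⟩, Subtype.ext h1⟩
  · intro a b hab
    refine ⟨1, ?_⟩
    have : φ a = φ b := congrArg Subtype.val hab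
    rw [hφi this]

end LocF

section Str

variable {O' B F M I ν : Type} [CommRing O'] [CommRing B] [Algebra O' B] [Field F] [CommRing M]
  {s₀ s₁ s₂ : O' →+* O'}
  (hs₀ : ∀ c, s₀ c = c) (hb₁ : Function.Bijective s₁) (hb₂ : Function.Bijective s₂)
  {ϖ : O'} {n : ℕ} (hΔ₁ : ∀ c, ∃ y, s₁ c - c = y * ϖ ^ (n + 1))
  (hΔ₂ : ∀ c, ∃ y, s₂ c - c = y * ϖ ^ (n + 1))
  {ξ : ν → B} (hξ : Algebra.adjoin O' (Set.range ξ) = ⊤)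
  {φ : G3 s₀ s₁ s₂ B →+* F} (hφi : Function.Injective φ) {D : Subring F} [IsLocalRing D]
  {hφ : ∀ g, φ g ∈ D} {τF : F →+* F}
  (hτ0 : ∀ b, τF (φ (em₀ s₀ s₁ s₂ b)) = φ (em₁ s₀ s₁ s₂ b))
  (hτ1 : ∀ b, τF (φ (em₁ s₀ s₁ s₂ b)) = φ (em₂ s₀ s₁ s₂ b))
  (hτ2 : ∀ b, τF (φ (em₂ s₀ s₁ s₂ b)) = φ (em₀ s₀ s₁ s₂ b))
  {ι : M →+* F} {x : I → M} {Λ : Subring M} {i : I} {ϖM : M}
  (hA : QD.Around ι x Λ D i (locF φ D hφ)) (idx : I → ν × ν × ν)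
  (hx : ∀ k, ι (x k) / ι (x i) = φ (em₀ s₀ s₁ s₂ (ξ (idx k).1) * (em₁ s₀ s₁ s₂ (ξ (idx k).2.1) *
    em₂ s₀ s₁ s₂ (ξ (idx k).2.2))))
  (e e' : ν → I) (he : ∀ l, ι (x (e l)) / ι (x i) = φ (em₀ s₀ s₁ s₂ (ξ l)))
  (he' : ∀ l, ι (x (e' l)) / ι (x i) = φ (em₁ s₀ s₁ s₂ (ξ l)))
  (hϖ : φ (algebraMap O' _ ϖ) = ι ϖM) (hϖD : ∀ w ∈ D, ι ϖM * w ≠ 1) (hϖ0 : ι ϖM ≠ 0)
  (hd : ∀ k, ∀ w ∈ D, (τF (ι (x k) / ι (x i)) - ι (x k) / ι (x i)) * w ≠ 1)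

include hs₀ hb₁ hb₂ hΔ₁ hΔ₂ hξ hφi hτ0 hτ1 hτ2 hA hx he he' hϖ hϖD hϖ0 hd in
/-- **The local structure at a ramified prime.** -/
theorem strAt_of_chart [Finite ν] [Algebra.Smooth O' B] (hmax : (Ideal.span {ϖ}).IsMaximal)
    (htf : ∀ b : B, algebraMap O' B ϖ * b = 0 → b = 0) :
    StrAt ι τF x Λ ϖM n D i := by
  classical
  have hreg : IsRegularLocalRing (locF φ D hφ) := hA.reg
  let := (toLocF φ D hφ).toAlgebra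
  have hloc := isLocalization_locF (hφ := hφ) hφi
  have c0 : ∀ b, (gA₀ s₀ s₁ s₂ (locF φ D hφ) b : F) = φ (em₀ s₀ s₁ s₂ b) := fun b => rfl
  have c1 : ∀ b, (gA₁ s₀ s₁ s₂ (locF φ D hφ) b : F) = φ (em₁ s₀ s₁ s₂ b) := fun b => rfl
  have c2 : ∀ b, (gA₂ s₀ s₁ s₂ (locF φ D hφ) b : F) = φ (em₂ s₀ s₁ s₂ b) := fun b => rfl
  obtain ⟨ϖA, hϖA⟩ : ∃ ϖA : locF φ D hφ, algebraMap (G3 s₀ s₁ s₂ B) (locF φ D hφ)
    (algebraMap O' _ ϖ) = ϖA := ⟨_, rfl⟩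
  have hϖAF : (ϖA : F) = ι ϖM := by
    rw [← hϖA, ← hϖ]
    rfl
  have hϖm : ϖA ∈ maximalIdeal (locF φ D hφ) := by
    rw [mem_maximalIdeal_locF, hϖAF]
    exact hϖD
  have hϖnz : ϖA ∈ nonZeroDivisors (locF φ D hφ) := by
    apply mem_nonZeroDivisors_of_ne_zero
    intro h0
    apply hϖ0
    rw [← hϖAF, h0]
    rfl
  have hd₁ : ∀ l, gA₁ s₀ s₁ s₂ (locF φ D hφ) (ξ l) - gA₀ s₀ s₁ s₂ (locF φ D hφ) (ξ l) ∈
      maximalIdeal (locF φ D hφ) := by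
    intro l
    rw [mem_maximalIdeal_locF, AddSubgroupClass.coe_sub, c1, c0, ← hτ0, ← he]
    exact hd (e l)
  have hd₂ : ∀ l, gA₂ s₀ s₁ s₂ (locF φ D hφ) (ξ l) - gA₁ s₀ s₁ s₂ (locF φ D hφ) (ξ l) ∈
      maximalIdeal (locF φ D hφ) := by
    intro l
    rw [mem_maximalIdeal_locF, AddSubgroupClass.coe_sub, c1, c2, ← hτ1, ← he']
    exact hd (e' l)
  obtain ⟨J, hJf, hind, hsp1, hsp2⟩ := exists_struct₃ hs₀ hb₁ hb₂ (Nat.succ_pos n) hΔ₁ hΔ₂ hξ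
    ((maximalIdeal D).comap (φ.codRestrict D hφ)) hϖA hϖm hd₁ hd₂ hmax hϖnz htf
  refine ⟨locF φ D hφ, inferInstance, J, hJf, inferInstance, fun j => e j, ϖA,
    fun j => gA₁ s₀ s₁ s₂ (locF φ D hφ) (ξ j) - gA₀ s₀ s₁ s₂ (locF φ D hφ) (ξ j),
    fun j => gA₂ s₀ s₁ s₂ (locF φ D hφ) (ξ j) - gA₁ s₀ s₁ s₂ (locF φ D hφ) (ξ j), hA, hϖAF,
    fun j => ?_, fun j => ?_, ?_, fun k => ?_⟩
  · rw [AddSubgroupClass.coe_sub, c1, c0, he, hτ0]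
  · rw [AddSubgroupClass.coe_sub, AddSubgroupClass.coe_sub, c0, c1, c2, map_sub, hτ0, hτ1]
  · obtain ⟨h1, h2⟩ := exists_par_of_indep (A := locF φ D hφ) (κ := Option (J ⊕ J))
      (f := fam ϖA
        (fun j => gA₁ s₀ s₁ s₂ (locF φ D hφ) (ξ j) - gA₀ s₀ s₁ s₂ (locF φ D hφ) (ξ j))
        (fun j => gA₂ s₀ s₁ s₂ (locF φ D hφ) (ξ j) - gA₁ s₀ s₁ s₂ (locF φ D hφ) (ξ j)))
      (by
        rintro (_ | j | j)
        · exact hϖm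
        · exact hd₁ j
        · exact hd₂ j) (by
        intro c hc
        rw [Fintype.sum_option, Fintype.sum_sum_type] at hc
        simp only [fam_none, fam_inl, fam_inr] at hc
        rw [← add_assoc] at hc
        obtain ⟨q0, q1, q2⟩ := hind (c none) (fun j => c (some (Sum.inl j)))
          (fun j => c (some (Sum.inr j))) hc
        rintro (_ | j | j)
        · exact q0
        · exact q1 j
        · exact q2 j)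
    exact ⟨h1, h2⟩
  · obtain ⟨Q, hQ⟩ : ∃ Q : Ideal (locF φ D hφ), Q = Ideal.span (insert (ϖA ^ (n + 1))
        ((Set.range fun j : J =>
          gA₁ s₀ s₁ s₂ (locF φ D hφ) (ξ j) - gA₀ s₀ s₁ s₂ (locF φ D hφ) (ξ j)) ∪
          Set.range fun j : J =>
            gA₂ s₀ s₁ s₂ (locF φ D hφ) (ξ j) - gA₁ s₀ s₁ s₂ (locF φ D hφ) (ξ j))) := ⟨_, rfl⟩
    rw [← hQ] at hsp1 hsp2 ⊢
    obtain ⟨⟨k₀, k₁, k₂⟩, hk⟩ : ∃ p, p = idx k := ⟨_, rfl⟩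
    obtain ⟨z, hz⟩ : ∃ z, z = gA₁ s₀ s₁ s₂ (locF φ D hφ) (ξ k₀) *
      (gA₂ s₀ s₁ s₂ (locF φ D hφ) (ξ k₁) * gA₀ s₀ s₁ s₂ (locF φ D hφ) (ξ k₂)) -
      gA₀ s₀ s₁ s₂ (locF φ D hφ) (ξ k₀) *
      (gA₁ s₀ s₁ s₂ (locF φ D hφ) (ξ k₁) * gA₂ s₀ s₁ s₂ (locF φ D hφ) (ξ k₂)) := ⟨_, rfl⟩
    refine ⟨z, ?_, ?_⟩
    · have h1 : z = (gA₁ s₀ s₁ s₂ (locF φ D hφ) (ξ k₀) - gA₀ s₀ s₁ s₂ (locF φ D hφ) (ξ k₀)) *
          (gA₂ s₀ s₁ s₂ (locF φ D hφ) (ξ k₁) * gA₀ s₀ s₁ s₂ (locF φ D hφ) (ξ k₂)) +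
          (gA₂ s₀ s₁ s₂ (locF φ D hφ) (ξ k₁) - gA₁ s₀ s₁ s₂ (locF φ D hφ) (ξ k₁)) *
          (gA₀ s₀ s₁ s₂ (locF φ D hφ) (ξ k₀) * gA₀ s₀ s₁ s₂ (locF φ D hφ) (ξ k₂)) -
          ((gA₂ s₀ s₁ s₂ (locF φ D hφ) (ξ k₂) - gA₁ s₀ s₁ s₂ (locF φ D hφ) (ξ k₂)) +
          (gA₁ s₀ s₁ s₂ (locF φ D hφ) (ξ k₂) - gA₀ s₀ s₁ s₂ (locF φ D hφ) (ξ k₂))) *
          (gA₀ s₀ s₁ s₂ (locF φ D hφ) (ξ k₀) * gA₁ s₀ s₁ s₂ (locF φ D hφ) (ξ k₁)) := by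
        rw [hz]
        ring
      rw [h1]
      exact Q.sub_mem (Q.add_mem (Q.mul_mem_right _ (hsp1 _)) (Q.mul_mem_right _ (hsp2 _)))
        (Q.mul_mem_right _ (Q.add_mem (hsp2 _) (hsp1 _)))
    · rw [hz, hx, ← hk, map_mul, map_mul, map_mul, map_mul, hτ0, hτ1, hτ2]
      rfl

end Str

end Pool.Agent.Lib.MP_6a3dac_ag.W3
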