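import Pool.Agent.Lib.MP_6a3dac_ag.W3.Cst
import Pool.Agent.Lib.MP_6a3dac_ag.QD.Gens

/-!
# The homogeneous generators of the centre
-/

set_option autoImplicit false
set_option linter.unusedSectionVars false
set_option linter.unusedVariables false

namespace Pool.Agent.Lib.MP_6a3dac_ag.W3

open Pool.Agent.Lib.MP_6a3dac_ag Pool.Agent.Lib.MP_6a3dac_ag.QD
open scoped Pointwise

section Sets

variable {M I : Type} [CommRing M] (x : I → M) (τ : M →+* M) (ϖ a c : M) (n : ℕ)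

/-- The linear forms `τ x_k - x_k`. -/
def lF (k : I) : M := τ (x k) - x k

/-- The linear forms `τ ℓ_k - a ℓ_k`. -/
def vF (k : I) : M := τ (lF x τ k) - a * lF x τ k

/-- The linear forms `τ ℓ_k - a ℓ_k - c ϖ ^ n ℓ_k`. -/
def sF (k : I) : M := vF x τ a k - c * ϖ ^ n * lF x τ k

/-- The coordinates. -/
def XS : Set M := Set.range x

def LS : Set M := Set.range (lF x τ)

def VS : Set M := Set.range (vF x τ a)

def SS : Set M := Set.range (sF x τ ϖ a c n)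

def MS : Set M := Set.range fun q : I × I =>
  lF x τ q.1 * vF x τ a q.2 - lF x τ q.2 * vF x τ a q.1

/-- Degree `1`. -/
def AS (k : ℕ) : Set M := ({ϖ ^ k} : Set M) * XS x ∪ LS x τ

/-- Degree `2`. -/
def KS (l : ℕ) : Set M := AS x τ ϖ (l / 2) * AS x τ ϖ ((l + 1) / 2) ∪ VS x τ a * XS x

/-- Degree `4`. -/
def RS (m : ℕ) : Set M :=
  KS x τ ϖ a (2 * m + 2) * KS x τ ϖ a (2 * m + 2) ∪ ({ϖ ^ m} : Set M) *
    ((AS x τ ϖ (m + 1) * AS x τ ϖ (m + 1) * AS x τ ϖ (m + 1) * XS x ∪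
      ({ϖ ^ (m + 1)} : Set M) * (VS x τ a * (XS x * XS x * XS x))) ∪ MS x τ a * (XS x * XS x))

/-- Degree `4`. -/
def ZS : Set M :=
  ((SS x τ ϖ a c n * (XS x * XS x * XS x) ∪ LS x τ * LS x τ * (XS x * XS x)) ∪
    ({ϖ ^ (n + 1)} : Set M) * (LS x τ * (XS x * XS x * XS x))) ∪
    ({ϖ ^ (2 * n + 1)} : Set M) * (XS x * XS x * XS x * XS x)

/-- The generators of the ideals of the centre. -/
def BW (j : ℕ) : Set M :=
  (if j ≤ 2 * n + 2 then KS x τ ϖ a j * (XS x * XS x) else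
    if j < 4 * n + 4 then XS x * XS x * XS x * XS x else
      if j < 5 * n + 4 then RS x τ ϖ a (j - (4 * n + 4)) else ZS x τ ϖ a c n) ∪
    ({ϖ ^ j} : Set M) * (XS x * XS x * XS x * XS x)

end Sets

section Star

variable {M I : Type} [CommRing M] {Λ : Subring M} {x : I → M} {τ : M →+* M} {ϖ a c : M} {n : ℕ}

/-- The set `S` is stable under `τ` up to constants. -/
def StarS (Λ : Subring M) (τ : M →+* M) (S : Set M) : Prop :=
  ∀ b ∈ S, ∃ d ∈ Λ, ∃ b' ∈ S, τ b = d * b'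

-- BEGIN D1
/-- TASK D1 (three statements). -/
theorem StarS.mul {S T : Set M} (hS : StarS Λ τ S) (hT : StarS Λ τ T) : StarS Λ τ (S * T) := by
  rintro _ ⟨a, ha, b, hb, rfl⟩
  obtain ⟨d, hd, a', ha', h1⟩ := hS a ha
  obtain ⟨e, he, b', hb', h2⟩ := hT b hb
  refine ⟨d * e, Λ.mul_mem hd he, a' * b', Set.mul_mem_mul ha' hb', ?_⟩
  change τ (a * b) = _
  rw [map_mul, h1, h2]
  ring

theorem StarS.union {S T : Set M} (hS : StarS Λ τ S) (hT : StarS Λ τ T) :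
    StarS Λ τ (S ∪ T) := by
  rintro b (hb | hb)
  · obtain ⟨d, hd, b', hb', h⟩ := hS b hb
    exact ⟨d, hd, b', Or.inl hb', h⟩
  · obtain ⟨d, hd, b', hb', h⟩ := hT b hb
    exact ⟨d, hd, b', Or.inr hb', h⟩

theorem starS_singleton {η : M} (hη : η ∈ Λ) (h : τ ϖ = η * ϖ) (k : ℕ) :
    StarS Λ τ ({ϖ ^ k} : Set M) := by
  rintro _ rfl
  exact ⟨η ^ k, Λ.pow_mem hη k, ϖ ^ k, rfl, by rw [map_pow, h, mul_pow]⟩
-- END D1

-- BEGIN D2
/-- TASK D2 (five statements). `x k ↦ x k'` gives `ℓ_k ↦ ℓ_{k'}` (`τ (τ (x k)) - τ (x k)`). For `v`, `s`: `eigen_of_trace` (K1); the trace of `ℓ_k` is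
`0` by `τ ^ 3 = 1`; `sF k = τ ℓ_k - (a + c ϖ ^ n) ℓ_k`. -/
theorem starS_X (hstar : ∀ l, ∃ l', τ (x l) = x l') : StarS Λ τ (XS x) := by
  rintro _ ⟨k, rfl⟩
  obtain ⟨k', hk'⟩ := hstar k
  exact ⟨1, Λ.one_mem, x k', ⟨k', rfl⟩, by rw [hk', one_mul]⟩

theorem starS_L (hstar : ∀ l, ∃ l', τ (x l) = x l') : StarS Λ τ (LS x τ) := by
  rintro _ ⟨k, rfl⟩
  obtain ⟨k', hk'⟩ := hstar k
  exact ⟨1, Λ.one_mem, lF x τ k', ⟨k', rfl⟩, by rw [one_mul, lF, lF, map_sub, hk']⟩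

theorem tau_vF (hτ3 : ∀ m, τ (τ (τ m)) = m) {a' : M} (ha : 1 + a + a * τ a = 0)
    (haa : a * a' = 1) (k : I) : τ (vF x τ a k) = a' * vF x τ a k := by
  refine eigen_of_trace ha haa ?_
  unfold lF
  rw [map_sub, map_sub, hτ3]
  ring

theorem tau_sF (hτ3 : ∀ m, τ (τ (τ m)) = m) {b' : M}
    (hb : 1 + (a + c * ϖ ^ n) + (a + c * ϖ ^ n) * τ (a + c * ϖ ^ n) = 0)
    (hbb : (a + c * ϖ ^ n) * b' = 1) (k : I) :
    τ (sF x τ ϖ a c n k) = b' * sF x τ ϖ a c n k := by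
  have h1 : sF x τ ϖ a c n k = τ (lF x τ k) - (a + c * ϖ ^ n) * lF x τ k := by
    unfold sF vF
    ring
  rw [h1]
  refine eigen_of_trace hb hbb ?_
  unfold lF
  rw [map_sub, map_sub, hτ3]
  ring

/-- The minors are invariant: `τ ℓ_k = a ℓ_k + v_k`, `τ v_k = a' v_k`, `a a' = 1`. -/
theorem tau_minor (hτ3 : ∀ m, τ (τ (τ m)) = m) {a' : M} (ha : 1 + a + a * τ a = 0)
    (haa : a * a' = 1) (k l : I) :
    τ (lF x τ k * vF x τ a l - lF x τ l * vF x τ a k) =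
      lF x τ k * vF x τ a l - lF x τ l * vF x τ a k := by
  have h1 : ∀ k, τ (lF x τ k) = a * lF x τ k + vF x τ a k := by
    intro k
    unfold vF
    ring
  rw [map_sub, map_mul, map_mul, tau_vF hτ3 ha haa, tau_vF hτ3 ha haa, h1, h1]
  linear_combination (lF x τ k * vF x τ a l - lF x τ l * vF x τ a k) * haa
-- END D2

-- BEGIN D3
/-- TASK D3. All sets of generators are stable up to constants: D1, D2, by the structure of the definitions (`split_ifs`). -/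
theorem starS_BW (hstar : ∀ l, ∃ l', τ (x l) = x l') (hτ3 : ∀ m, τ (τ (τ m)) = m)
    {η a' b' : M} (hη : η ∈ Λ) (hϖ : τ ϖ = η * ϖ) (ha' : a' ∈ Λ) (hb' : b' ∈ Λ)
    (ha : 1 + a + a * τ a = 0) (haa : a * a' = 1)
    (hb : 1 + (a + c * ϖ ^ n) + (a + c * ϖ ^ n) * τ (a + c * ϖ ^ n) = 0)
    (hbb : (a + c * ϖ ^ n) * b' = 1) (j : ℕ) : StarS Λ τ (BW x τ ϖ a c n j) := by
  have hX : StarS Λ τ (XS x) := starS_X hstar
  have hL : StarS Λ τ (LS x τ) := starS_L hstar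
  have hP : ∀ k, StarS Λ τ ({ϖ ^ k} : Set M) := fun k => starS_singleton hη hϖ k
  have hV : StarS Λ τ (VS x τ a) := by
    rintro _ ⟨k, rfl⟩
    exact ⟨a', ha', vF x τ a k, ⟨k, rfl⟩, tau_vF hτ3 ha haa k⟩
  have hS : StarS Λ τ (SS x τ ϖ a c n) := by
    rintro _ ⟨k, rfl⟩
    exact ⟨b', hb', sF x τ ϖ a c n k, ⟨k, rfl⟩, tau_sF hτ3 hb hbb k⟩
  have hM : StarS Λ τ (MS x τ a) := by
    rintro _ ⟨⟨k, l⟩, rfl⟩
    exact ⟨1, Λ.one_mem, _, ⟨(k, l), rfl⟩, by rw [one_mul]; exact tau_minor hτ3 ha haa k l⟩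
  have hA : ∀ k, StarS Λ τ (AS x τ ϖ k) := fun k => ((hP k).mul hX).union hL
  have hK : ∀ k, StarS Λ τ (KS x τ ϖ a k) := fun k =>
    ((hA _).mul (hA _)).union (hV.mul hX)
  have hR : ∀ k, StarS Λ τ (RS x τ ϖ a k) := fun k =>
    ((hK _).mul (hK _)).union ((hP _).mul (((((hA _).mul (hA _)).mul (hA _)).mul hX).union
      ((hP _).mul (hV.mul ((hX.mul hX).mul hX))) |>.union (hM.mul (hX.mul hX))))
  have hZ : StarS Λ τ (ZS x τ ϖ a c n) :=
    (((hS.mul ((hX.mul hX).mul hX)).union ((hL.mul hL).mul (hX.mul hX))).union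
      ((hP _).mul (hL.mul ((hX.mul hX).mul hX)))).union
      ((hP _).mul (((hX.mul hX).mul hX).mul hX))
  refine StarS.union ?_ ((hP _).mul (((hX.mul hX).mul hX).mul hX))
  split_ifs
  · exact (hK _).mul (hX.mul hX)
  · exact ((hX.mul hX).mul hX).mul hX
  · exact hR _
  · exact hZ
-- END D3

-- BEGIN D4
/-- TASK D4. The sets are finite: `Set.Finite.mul`, `Set.Finite.union`, `Set.finite_range`. -/
theorem finite_BW [Finite I] (j : ℕ) : (BW x τ ϖ a c n j).Finite := by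
  have hX : (XS x).Finite := Set.finite_range _
  have hL : (LS x τ).Finite := Set.finite_range _
  have hV : (VS x τ a).Finite := Set.finite_range _
  have hS : (SS x τ ϖ a c n).Finite := Set.finite_range _
  have hM : (MS x τ a).Finite := Set.finite_range _
  have h1 : ∀ k : ℕ, ({ϖ ^ k} : Set M).Finite := fun k => Set.finite_singleton _
  have hA : ∀ k, (AS x τ ϖ k).Finite := fun k => ((h1 k).mul hX).union hL
  have hK : ∀ l, (KS x τ ϖ a l).Finite := fun l => ((hA _).mul (hA _)).union (hV.mul hX)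
  have hR : ∀ m, (RS x τ ϖ a m).Finite := fun m =>
    ((hK _).mul (hK _)).union ((h1 m).mul ((((((hA _).mul (hA _)).mul (hA _)).mul hX).union
      ((h1 _).mul (hV.mul ((hX.mul hX).mul hX)))).union (hM.mul (hX.mul hX))))
  have hZ : (ZS x τ ϖ a c n).Finite :=
    (((hS.mul ((hX.mul hX).mul hX)).union ((hL.mul hL).mul (hX.mul hX))).union
      ((h1 _).mul (hL.mul ((hX.mul hX).mul hX)))).union ((h1 _).mul (((hX.mul hX).mul hX).mul hX))
  have hX4 : (XS x * XS x * XS x * XS x).Finite := ((hX.mul hX).mul hX).mul hX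
  unfold BW
  refine Set.Finite.union ?_ ((h1 j).mul hX4)
  split_ifs
  · exact (hK j).mul (hX.mul hX)
  · exact hX4
  · exact hR _
  · exact hZ
-- END D4

end Star

section Deg

variable {L M I : Type} [Field L] [CommRing M] [Algebra L M] {ℳ : ℕ → Submodule L M}
  [GradedAlgebra ℳ] {x : I → M} {τ : M →+* M} {ϖ a c : M} {n : ℕ}

/-- All elements of `S` are homogeneous of degree `d`. -/
def DegS (ℳ : ℕ → Submodule L M) (d : ℕ) (S : Set M) : Prop := ∀ b ∈ S, b ∈ ℳ d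

-- BEGIN D5
/-- TASK D5 (three statements). `SetLike.mul_mem_graded`. -/
theorem DegS.mul {d e : ℕ} {S T : Set M} (hS : DegS ℳ d S) (hT : DegS ℳ e T) :
    DegS ℳ (d + e) (S * T) := by
  rintro _ ⟨a, ha, b, hb, rfl⟩
  exact SetLike.mul_mem_graded (hS a ha) (hT b hb)

theorem DegS.union {d : ℕ} {S T : Set M} (hS : DegS ℳ d S) (hT : DegS ℳ d T) :
    DegS ℳ d (S ∪ T) := by
  rintro b (hb | hb)
  · exact hS b hb
  · exact hT b hb

/-- All generators have degree `4`: `ϖ`, `a`, `c` have degree `0`, the `x k`, `ℓ_k`, `v_k`, `s_k` degree `1`, the minors degree `2`. -/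
theorem deg_BW (hx : ∀ i, x i ∈ ℳ 1) (hτ : ∀ k m, m ∈ ℳ k → τ m ∈ ℳ k) (hϖ : ϖ ∈ ℳ 0)
    (ha : a ∈ ℳ 0) (hc : c ∈ ℳ 0) (j : ℕ) : DegS ℳ 4 (BW x τ ϖ a c n j) := by
  have h0 : ∀ k m m', m ∈ ℳ 0 → m' ∈ ℳ k → m * m' ∈ ℳ k := by
    intro k m m' h h'
    have := SetLike.mul_mem_graded h h'
    rwa [zero_add] at this
  have hp : ∀ k : ℕ, ϖ ^ k ∈ ℳ 0 := by
    intro k
    have := SetLike.pow_mem_graded k hϖ
    rwa [smul_zero] at this
  have hl : ∀ k, lF x τ k ∈ ℳ 1 := fun k => (ℳ 1).sub_mem (hτ 1 _ (hx k)) (hx k)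
  have hv : ∀ k, vF x τ a k ∈ ℳ 1 := fun k =>
    (ℳ 1).sub_mem (hτ 1 _ (hl k)) (h0 1 _ _ ha (hl k))
  have hs : ∀ k, sF x τ ϖ a c n k ∈ ℳ 1 := fun k =>
    (ℳ 1).sub_mem (hv k) (h0 1 _ _ (h0 0 _ _ hc (hp n)) (hl k))
  have hX : DegS ℳ 1 (XS x) := by rintro _ ⟨k, rfl⟩; exact hx k
  have hL : DegS ℳ 1 (LS x τ) := by rintro _ ⟨k, rfl⟩; exact hl k
  have hV : DegS ℳ 1 (VS x τ a) := by rintro _ ⟨k, rfl⟩; exact hv k
  have hS : DegS ℳ 1 (SS x τ ϖ a c n) := by rintro _ ⟨k, rfl⟩; exact hs k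
  have hM : DegS ℳ 2 (MS x τ a) := by
    rintro _ ⟨⟨k, l⟩, rfl⟩
    exact (ℳ 2).sub_mem (SetLike.mul_mem_graded (hl k) (hv l))
      (SetLike.mul_mem_graded (hl l) (hv k))
  have hP : ∀ (k d : ℕ) {S : Set M}, DegS ℳ d S → DegS ℳ d (({ϖ ^ k} : Set M) * S) := by
    rintro k d S hS _ ⟨_, rfl, b, hb, rfl⟩
    exact h0 d _ _ (hp k) (hS b hb)
  have hX2 : DegS ℳ 2 (XS x * XS x) := hX.mul hX
  have hX3 : DegS ℳ 3 (XS x * XS x * XS x) := hX2.mul hX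
  have hX4 : DegS ℳ 4 (XS x * XS x * XS x * XS x) := hX3.mul hX
  have hA : ∀ k, DegS ℳ 1 (AS x τ ϖ k) := fun k => (hP k 1 hX).union hL
  have hK : ∀ k, DegS ℳ 2 (KS x τ ϖ a k) := fun k =>
    DegS.union ((hA _).mul (hA _)) (hV.mul hX)
  have hR : ∀ k, DegS ℳ 4 (RS x τ ϖ a k) := by
    intro k
    refine DegS.union ((hK _).mul (hK _)) (hP _ 4 (DegS.union (DegS.union ?_ ?_) ?_))
    · exact (DegS.mul (d := 1 + 1) ((hA _).mul (hA _)) (hA _)).mul hX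
    · exact hP _ 4 (DegS.mul (d := 1) (e := 3) hV hX3)
    · exact DegS.mul (d := 2) (e := 2) hM hX2
  have hZ : DegS ℳ 4 (ZS x τ ϖ a c n) := by
    refine DegS.union (DegS.union (DegS.union ?_ ?_) ?_) (hP _ 4 hX4)
    · exact DegS.mul (d := 1) (e := 3) hS hX3
    · exact DegS.mul (d := 1 + 1) (e := 2) (hL.mul hL) hX2
    · exact hP _ 4 (DegS.mul (d := 1) (e := 3) hL hX3)
  refine DegS.union ?_ (hP _ 4 hX4)
  split_ifs
  · exact DegS.mul (d := 2) (e := 2) (hK _) hX2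
  · exact hX4
  · exact hR _
  · exact hZ
-- END D5

end Deg

section CentW

variable {R O L M I : Type} [CommRing R] [CommRing O] [Algebra R O] [Field L] [Algebra R L]
  [Algebra O L] [IsScalarTower R O L] [CommRing M] [Algebra L M] [Algebra R M]
  [IsScalarTower R L M] (ℳ : ℕ → Submodule L M) [GradedAlgebra ℳ]

-- BEGIN D6
/-- TASK D6. The centre satisfies the hypotheses of the abstract theorem (`Cent`, QD/Gens.lean) with `δ = 4`, `r = 5 n + 4`: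
`fin`: D4; `deg`: D5 (`lamP_deg`, `oM_deg` in QWGens.lean for the constants); `pow`: the second part of `BW` (`x i ^ 4 = x i * x i * x i * x i`); `η`: `1 + ε ϖ ^ n`; `star`: D3
with `a' = 1 + ϖ ^ n l`, `b' = 1 + ϖ ^ n μ` (`hC.tr`, `hC.trs`, `hC.hl`, `hC.hμ`). -/
theorem centW [Finite I] {x : I → M} {τ : M →+* M} {p : Ideal R} [p.IsPrime] {ϖ : O} {n : ℕ}
    {ε c κ l μ : M} (hC : Cst (lamP O L M p) τ (oM O L M ϖ) ε c κ l μ n) (hϖ : ϖ ≠ 0)
    (hτ3 : ∀ m, τ (τ (τ m)) = m) (hx : ∀ i, x i ∈ ℳ 1) (hτ : ∀ k m, m ∈ ℳ k → τ m ∈ ℳ k)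
    (hstar : ∀ l, ∃ l', τ (x l) = x l') :
    Cent ℳ x τ p ϖ 4 (5 * n + 4)
      (BW x τ (oM O L M ϖ) (1 + oM O L M ϖ ^ n * κ) c n) := by
  have hη : τ (oM O L M ϖ) = (1 + ε * oM O L M ϖ ^ n) * oM O L M ϖ := by
    rw [hC.unif]; ring
  have hηm : (1 + ε * oM O L M ϖ ^ n) ∈ lamP O L M p :=
    Subring.add_mem _ (Subring.one_mem _) (Subring.mul_mem _ hC.mε (Subring.pow_mem _ hC.mϖ n))
  refine ⟨hϖ, by norm_num, fun j => finite_BW j, fun j => ?_, fun j i => ?_,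
    ⟨1 + ε * oM O L M ϖ ^ n, hηm, hη⟩, fun j => ?_⟩
  · refine deg_BW hx hτ (oM_deg ℳ ϖ) ?_ (lamP_deg p hC.mc) j
    exact lamP_deg p (Subring.add_mem _ (Subring.one_mem _)
      (Subring.mul_mem _ (Subring.pow_mem _ hC.mϖ n) hC.mκ))
  · refine Or.inr ⟨_, rfl, x i * x i * x i * x i, ?_, ?_⟩
    · exact Set.mul_mem_mul (Set.mul_mem_mul (Set.mul_mem_mul ⟨i, rfl⟩ ⟨i, rfl⟩) ⟨i, rfl⟩) ⟨i, rfl⟩
    · change _ * (x i * x i * x i * x i) = _
      ring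
  · exact starS_BW (Λ := lamP O L M p) hstar hτ3 hηm hη
      (Subring.add_mem _ (Subring.one_mem _)
        (Subring.mul_mem _ (Subring.pow_mem _ hC.mϖ n) hC.ml))
      (Subring.add_mem _ (Subring.one_mem _)
        (Subring.mul_mem _ (Subring.pow_mem _ hC.mϖ n) hC.mμ))
      hC.tr hC.hl hC.trs hC.hμ j
-- END D6

end CentW

end Pool.Agent.Lib.MP_6a3dac_ag.W3
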