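import Pool.Agent.Lib.MP_6a3dac_ag.W3.Prs

/-!
# The ideals which are blown up, and the hypotheses of the local theorem
-/

set_option autoImplicit false
set_option linter.unusedSectionVars false
set_option linter.unusedVariables false

namespace Pool.Agent.Lib.MP_6a3dac_ag.W3

open IsLocalRing
open Pool.Agent.Lib.MP_6a3dac_ag Pool.Agent.Lib.MP_6a3dac_ag.QD

section Fam

/-- A family with three kinds of members. -/
def fam {X J : Type} (p : X) (a b : J → X) : Option (J ⊕ J) → X := fun o => o.elim p (Sum.elim a b)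

@[simp] theorem fam_none {X J : Type} (p : X) (a b : J → X) : fam p a b none = p := rfl

@[simp] theorem fam_inl {X J : Type} (p : X) (a b : J → X) (j : J) :
    fam p a b (some (Sum.inl j)) = a j := rfl

@[simp] theorem fam_inr {X J : Type} (p : X) (a b : J → X) (j : J) :
    fam p a b (some (Sum.inr j)) = b j := rfl

end Fam

section Ideals

variable {A : Type} [CommRing A] {J : Type} (ϖ : A) (u v : J → A)

/-- The ideal `(ϖ ^ k, u_j)`. -/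
def aI (k : ℕ) : Ideal A := Ideal.span (insert (ϖ ^ k) (Set.range u))

/-- The ideal `K_l`. -/
def kI (l : ℕ) : Ideal A :=
  aI ϖ u (l / 2) * aI ϖ u ((l + 1) / 2) ⊔ Ideal.span (Set.range v)

/-- The ideal of the minors. -/
def mI : Ideal A := Ideal.span (Set.range fun p : J × J => u p.1 * v p.2 - u p.2 * v p.1)

/-- The ideal `R_m`. -/
def rI (m : ℕ) : Ideal A :=
  kI ϖ u v (2 * m + 2) ^ 2 ⊔ Ideal.span {ϖ ^ m} *
    (aI ϖ u (m + 1) ^ 3 ⊔ Ideal.span {ϖ ^ (m + 1)} * Ideal.span (Set.range v) ⊔ mI u v)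

/-- The ideal `R*`. -/
def sI (c : A) (n : ℕ) : Ideal A :=
  Ideal.span (Set.range fun j => v j - c * ϖ ^ n * u j) ⊔ Ideal.span (Set.range u) ^ 2 ⊔
    Ideal.span {ϖ ^ (n + 1)} * Ideal.span (Set.range u) ⊔ Ideal.span {ϖ ^ (2 * n + 1)}

/-- All the ideals, `j ≤ 3 n + 2`. -/
def cenI (c : A) (n j : ℕ) : Ideal A :=
  if j < 2 * n + 2 then kI ϖ u v (j + 1) else
    if j < 3 * n + 2 then rI ϖ u v (j - (2 * n + 2)) else sI ϖ u v c n

end Ideals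

section Mem

variable {A : Type} [CommRing A] {J : Type} (ϖ : A) (u v : J → A)

-- BEGIN B1
/-- TASK B1 (all statements of this block). Elements of the ideals: `Ideal.subset_span`, `Ideal.mul_mem_mul`,
`Ideal.mem_sup_left`, `Ideal.mem_sup_right` (`Submodule.mem_sup_left`), `Ideal.pow_mem_pow`. -/
theorem pow_mem_aI {k l : ℕ} (h : k ≤ l) : ϖ ^ l ∈ aI ϖ u k := by
  obtain ⟨d, rfl⟩ := Nat.exists_eq_add_of_le h
  rw [pow_add]
  exact Ideal.mul_mem_right _ _ (Ideal.subset_span (Set.mem_insert _ _))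

theorem u_mem_aI (k : ℕ) (j : J) : u j ∈ aI ϖ u k :=
  Ideal.subset_span (Set.mem_insert_of_mem _ ⟨j, rfl⟩)

theorem aI_anti {k l : ℕ} (h : k ≤ l) : aI ϖ u l ≤ aI ϖ u k := by
  refine Ideal.span_le.2 ?_
  rintro x (rfl | ⟨j, rfl⟩)
  · exact pow_mem_aI ϖ u h
  · exact u_mem_aI ϖ u k j

theorem v_mem_kI (l : ℕ) (j : J) : v j ∈ kI ϖ u v l :=
  Ideal.mem_sup_right (Ideal.subset_span ⟨j, rfl⟩)

theorem b1_mul_mem_kI (l : ℕ) {a b : A} (ha : a ∈ aI ϖ u (l / 2))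
    (hb : b ∈ aI ϖ u ((l + 1) / 2)) : a * b ∈ kI ϖ u v l :=
  Ideal.mem_sup_left (Ideal.mul_mem_mul ha hb)

theorem pow_mem_kI (l : ℕ) : ϖ ^ l ∈ kI ϖ u v l := by
  have h1 := b1_mul_mem_kI ϖ u v l (pow_mem_aI ϖ u (le_refl (l / 2)))
    (pow_mem_aI ϖ u (le_refl ((l + 1) / 2)))
  rw [← pow_add] at h1
  have h2 : l / 2 + (l + 1) / 2 = l := by omega
  rwa [h2] at h1

theorem uu_mem_kI (l : ℕ) (j k : J) : u j * u k ∈ kI ϖ u v l :=
  b1_mul_mem_kI ϖ u v l (u_mem_aI ϖ u _ j) (u_mem_aI ϖ u _ k)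

theorem pu_mem_kI (l : ℕ) (j : J) : ϖ ^ (l / 2) * u j ∈ kI ϖ u v l :=
  b1_mul_mem_kI ϖ u v l (pow_mem_aI ϖ u (le_refl (l / 2))) (u_mem_aI ϖ u _ j)

theorem kI_anti {k l : ℕ} (h : k ≤ l) : kI ϖ u v l ≤ kI ϖ u v k :=
  sup_le_sup (Ideal.mul_mono (aI_anti ϖ u (by omega)) (aI_anti ϖ u (by omega))) le_rfl

theorem sq_mem_rI (m : ℕ) {a b : A} (ha : a ∈ kI ϖ u v (2 * m + 2)) (hb : b ∈ kI ϖ u v (2 * m + 2)) :
    a * b ∈ rI ϖ u v m := by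
  refine Ideal.mem_sup_left ?_
  rw [sq]
  exact Ideal.mul_mem_mul ha hb

theorem b1_mem_rI (m : ℕ) {x : A} (hx : x ∈ aI ϖ u (m + 1) ^ 3 ⊔
    Ideal.span {ϖ ^ (m + 1)} * Ideal.span (Set.range v) ⊔ mI u v) :
    ϖ ^ m * x ∈ rI ϖ u v m :=
  Ideal.mem_sup_right (Ideal.mul_mem_mul (Ideal.mem_span_singleton_self _) hx)

theorem cube_mem_rI (m : ℕ) {a b c : A} (ha : a ∈ aI ϖ u (m + 1)) (hb : b ∈ aI ϖ u (m + 1))
    (hc : c ∈ aI ϖ u (m + 1)) : ϖ ^ m * (a * b * c) ∈ rI ϖ u v m := by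
  refine b1_mem_rI ϖ u v m (Ideal.mem_sup_left (Ideal.mem_sup_left ?_))
  rw [pow_succ, sq]
  exact Ideal.mul_mem_mul (Ideal.mul_mem_mul ha hb) hc

theorem pv_mem_rI (m : ℕ) (j : J) : ϖ ^ m * (ϖ ^ (m + 1) * v j) ∈ rI ϖ u v m :=
  b1_mem_rI ϖ u v m (Ideal.mem_sup_left (Ideal.mem_sup_right
    (Ideal.mul_mem_mul (Ideal.mem_span_singleton_self _) (Ideal.subset_span ⟨j, rfl⟩))))

theorem minor_mem_rI (m : ℕ) (j k : J) : ϖ ^ m * (u j * v k - u k * v j) ∈ rI ϖ u v m :=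
  b1_mem_rI ϖ u v m (Ideal.mem_sup_right (Ideal.subset_span ⟨(j, k), rfl⟩))

theorem s_mem_sI (c : A) (n : ℕ) (j : J) : v j - c * ϖ ^ n * u j ∈ sI ϖ u v c n :=
  Ideal.mem_sup_left (Ideal.mem_sup_left (Ideal.mem_sup_left (Ideal.subset_span ⟨j, rfl⟩)))

theorem uu_mem_sI (c : A) (n : ℕ) (j k : J) : u j * u k ∈ sI ϖ u v c n := by
  refine Ideal.mem_sup_left (Ideal.mem_sup_left (Ideal.mem_sup_right ?_))
  rw [sq]
  exact Ideal.mul_mem_mul (Ideal.subset_span ⟨j, rfl⟩) (Ideal.subset_span ⟨k, rfl⟩)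

theorem pu_mem_sI (c : A) (n : ℕ) (j : J) : ϖ ^ (n + 1) * u j ∈ sI ϖ u v c n :=
  Ideal.mem_sup_left (Ideal.mem_sup_right
    (Ideal.mul_mem_mul (Ideal.mem_span_singleton_self _) (Ideal.subset_span ⟨j, rfl⟩)))

theorem pow_mem_sI (c : A) (n : ℕ) : ϖ ^ (2 * n + 1) ∈ sI ϖ u v c n :=
  Ideal.mem_sup_right (Ideal.mem_span_singleton_self _)
-- END B1

end Mem

section Pr

variable {D : Type} [CommRing D] [IsDomain D] [IsLocalRing D] {A R : Subring D} {J : Type}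
  {ϖ : A} {u v : J → A}

-- BEGIN B2
/-- TASK B2 (all statements of this block). `mulId R hA p` (QD/ChDcl.lean) is the ideal of the `y : A` with
`y = p q`, `q ∈ R`. `Ideal.span_le`, `mul_le_mulId`, `pow_le_mulId`, `mulId_mono`. -/
theorem aI_le (hA : A ≤ R) {k : ℕ} {p : D} (h1 : ∃ q ∈ R, (ϖ : D) ^ k = p * q)
    (h2 : ∀ j, ∃ q ∈ R, (u j : D) = p * q) : aI ϖ u k ≤ mulId R hA p := by
  refine Ideal.span_le.2 ?_
  rintro x (rfl | ⟨j, rfl⟩)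
  · obtain ⟨q, hq, h⟩ := h1
    exact ⟨q, hq, by rw [Subring.coe_pow]; exact h⟩
  · exact h2 j

/-- Multiples. -/
theorem b2_mem_mul (hA : A ≤ R) {p : D} {a b : A} (h : ∃ q ∈ R, (a : D) * b = p * q) :
    a * b ∈ mulId R hA p := by
  obtain ⟨q, hq, h⟩ := h
  exact ⟨q, hq, by rw [Subring.coe_mul]; exact h⟩

/-- The product of two spans. -/
theorem b2_span_mul (hA : A ≤ R) {p : D} {S T : Set A}
    (h : ∀ a ∈ S, ∀ b ∈ T, a * b ∈ mulId R hA p) :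
    Ideal.span S * Ideal.span T ≤ mulId R hA p := by
  rw [Ideal.span_mul_span', Ideal.span_le]
  rintro _ ⟨a, ha, b, hb, rfl⟩
  exact h a ha b hb

theorem kI_le (hA : A ≤ R) {l : ℕ} {p p₁ p₂ c : D} (h1 : aI ϖ u (l / 2) ≤ mulId R hA p₁)
    (h2 : aI ϖ u ((l + 1) / 2) ≤ mulId R hA p₂) (hc : c ∈ R) (h3 : p₁ * p₂ = p * c)
    (h4 : ∀ j, ∃ q ∈ R, (v j : D) = p * q) : kI ϖ u v l ≤ mulId R hA p := by
  refine sup_le ((mul_le_mulId h1 h2).trans (mulId_mono hc h3)) (Ideal.span_le.2 ?_)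
  rintro _ ⟨j, rfl⟩
  exact h4 j

theorem rI_le (hA : A ≤ R) {m : ℕ} {p p₁ p₂ c₁ c₂ : D}
    (h1 : kI ϖ u v (2 * m + 2) ≤ mulId R hA p₁) (hc₁ : c₁ ∈ R) (h2 : p₁ ^ 2 = p * c₁)
    (h3 : aI ϖ u (m + 1) ≤ mulId R hA p₂) (hc₂ : c₂ ∈ R) (h4 : (ϖ : D) ^ m * p₂ ^ 3 = p * c₂)
    (h5 : ∀ j, ∃ q ∈ R, (ϖ : D) ^ m * ((ϖ : D) ^ (m + 1) * v j) = p * q)
    (h6 : ∀ j k, ∃ q ∈ R, (ϖ : D) ^ m * ((u j : D) * v k - u k * v j) = p * q) :
    rI ϖ u v m ≤ mulId R hA p := by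
  refine sup_le ((pow_le_mulId h1 2).trans (mulId_mono hc₁ h2)) ?_
  rw [Ideal.mul_sup, Ideal.mul_sup]
  refine sup_le (sup_le ?_ ?_) ?_
  · have h7 : Ideal.span {ϖ ^ m} ≤ mulId R hA ((ϖ : D) ^ m) := by
      rw [Ideal.span_le, Set.singleton_subset_iff]
      exact ⟨1, R.one_mem, by rw [Subring.coe_pow, mul_one]⟩
    exact (mul_le_mulId h7 (pow_le_mulId h3 3)).trans (mulId_mono hc₂ h4)
  · rw [← mul_assoc, Ideal.span_singleton_mul_span_singleton]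
    refine b2_span_mul hA ?_
    rintro _ rfl _ ⟨j, rfl⟩
    obtain ⟨q, hq, h⟩ := h5 j
    refine ⟨q, hq, ?_⟩
    rw [← h]
    push_cast
    ring
  · refine b2_span_mul hA ?_
    rintro _ rfl _ ⟨⟨j, k⟩, rfl⟩
    obtain ⟨q, hq, h⟩ := h6 j k
    refine ⟨q, hq, ?_⟩
    rw [← h]
    push_cast
    rfl

theorem sI_le (hA : A ≤ R) {c : A} {n : ℕ} {p : D}
    (h1 : ∀ j, ∃ q ∈ R, (v j : D) - c * (ϖ : D) ^ n * u j = p * q)
    (h2 : ∀ j k, ∃ q ∈ R, (u j : D) * u k = p * q)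
    (h3 : ∀ j, ∃ q ∈ R, (ϖ : D) ^ (n + 1) * u j = p * q)
    (h4 : ∃ q ∈ R, (ϖ : D) ^ (2 * n + 1) = p * q) : sI ϖ u v c n ≤ mulId R hA p := by
  refine sup_le (sup_le (sup_le ?_ ?_) ?_) ?_
  · rw [Ideal.span_le]
    rintro _ ⟨j, rfl⟩
    obtain ⟨q, hq, h⟩ := h1 j
    refine ⟨q, hq, ?_⟩
    rw [← h]
    push_cast
    rfl
  · rw [sq]
    refine b2_span_mul hA ?_
    rintro _ ⟨j, rfl⟩ _ ⟨k, rfl⟩
    exact b2_mem_mul hA (h2 j k)
  · refine b2_span_mul hA ?_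
    rintro _ rfl _ ⟨j, rfl⟩
    obtain ⟨q, hq, h⟩ := h3 j
    refine ⟨q, hq, ?_⟩
    rw [← h]
    push_cast
    rfl
  · rw [Ideal.span_le, Set.singleton_subset_iff]
    obtain ⟨q, hq, h⟩ := h4
    exact ⟨q, hq, by rw [Subring.coe_pow]; exact h⟩

/-- `I.map A.subtype` is an ideal of `D`; `p = (p ω) ω⁻¹`. -/
theorem pr_of_le (hA : A ≤ R) {I : Ideal A} {p ω : D} (h1 : I ≤ mulId R hA p) (hω : IsUnit ω)
    {y : A} (hy : y ∈ I) (h2 : (y : D) = p * ω) : Pr R I p := by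
  refine ⟨fun z hz => h1 hz, ?_⟩
  obtain ⟨ω', hω'⟩ := hω.exists_right_inv
  have h3 : p = ω' * (y : D) := by
    rw [h2]
    linear_combination (-p) * hω'
  rw [h3]
  exact Ideal.mul_mem_left _ _ (Ideal.mem_map_of_mem A.subtype hy)
-- END B2

end Pr

section Hyp

variable {D : Type} [CommRing D] [IsDomain D] [IsLocalRing D]

/-- The regular local ring `A`: `ϖ`, `u_j`, `v_j` are part of a regular system of parameters, and
`c` is the unit which appears in the last ideal. -/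
structure WHyp (A : Subring D) {J : Type} [Fintype J] [DecidableEq J] (ϖ c : A) (u v : J → A)
    (n : ℕ) : Prop where
  prs : PRS A (fam (ϖ : D) (fun j => (u j : D)) fun j => (v j : D))
  unif : (ϖ : D) ∈ maximalIdeal D
  mem_u : ∀ j, (u j : D) ∈ maximalIdeal D
  mem_v : ∀ j, (v j : D) ∈ maximalIdeal D
  pos : 1 ≤ n
  unit : IsUnit (c : D)

/-- The automorphism. The coefficients are only relevant modulo `ϖ`. -/
structure WTau {A : Subring D} {J : Type} (τ : D →+* D) (ϖ c : A) (u v : J → A) (n : ℕ)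
    (ε κ l μ : D) : Prop where
  unif : τ ϖ = ϖ + ε * (ϖ : D) ^ (n + 1)
  map_u : ∀ j, τ (u j) = u j + (ϖ : D) ^ n * κ * u j + v j
  map_v : ∀ j, τ (v j) = v j + (ϖ : D) ^ n * l * v j
  map_s : ∀ j, τ ((v j : D) - c * (ϖ : D) ^ n * u j) =
    ((v j : D) - c * (ϖ : D) ^ n * u j) * (1 + (ϖ : D) ^ n * μ)
  unit : IsUnit ε
  hκ : ∃ a, κ = (n + 1) * ε + a * ϖ
  hl : ∃ a, l = (2 * n + 2) * ε + a * ϖ
  hμ : ∃ a, μ = (1 - n) * ε + a * ϖ
  hc : ∃ a, (c : D) = ε + a * ϖ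
  three : ∃ a, (3 : D) = a * ϖ
  aug : ∀ a : A, τ a - a ∈ Ideal.span
    (insert ((ϖ : D) ^ (n + 1)) (Set.range (fun j => (u j : D)) ∪ Set.range fun j => (v j : D)))

end Hyp

end Pool.Agent.Lib.MP_6a3dac_ag.W3
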