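import Pool.Agent.Lib.MP_6a3dac_ag.W3.Tau

/-!
# The levels: `ϖ ^ i ∣ u_j`, `ϖ ^ (2 i) ∣ v_j`; the last level, and the unit case
-/

set_option autoImplicit false
set_option linter.unusedSectionVars false
set_option linter.unusedVariables false

namespace Pool.Agent.Lib.MP_6a3dac_ag.W3

open IsLocalRing
open Pool.Agent.Lib.MP_6a3dac_ag Pool.Agent.Lib.MP_6a3dac_ag.QD

variable {D : Type} [CommRing D] [IsDomain D] [IsLocalRing D] {A : Subring D} {J : Type}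
  [Fintype J] [DecidableEq J] {ϖ c : A} {u v : J → A} {n : ℕ}

theorem WHyp.unif_ne_zero (h : WHyp A ϖ c u v n) : (ϖ : D) ≠ 0 := h.prs.ne_zero none

theorem WHyp.u_ne_zero (h : WHyp A ϖ c u v n) (j : J) : (u j : D) ≠ 0 :=
  h.prs.ne_zero (some (Sum.inl j))

theorem WHyp.v_ne_zero (h : WHyp A ϖ c u v n) (j : J) : (v j : D) ≠ 0 :=
  h.prs.ne_zero (some (Sum.inr j))

/-- The level `i`. -/
structure Lev (ϖ : A) (u v : J → A) (i : ℕ) (u' v' : J → D) : Prop where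
  eu : ∀ j, (ϖ : D) ^ i * u' j = u j
  ev : ∀ j, (ϖ : D) ^ (2 * i) * v' j = v j

/-- The elements adjoined at a level. -/
def levSet (u' v' : J → D) : Set D := Set.range u' ∪ Set.range v'

section Lev

variable {i : ℕ} {u' v' : J → D} (hL : Lev ϖ u v i u' v') {R : Subring D} (hA : A ≤ R)

-- BEGIN L1
include hL hA in
/-- TASK L1 (first statement). `K_l` for `l ≤ 2 i` is generated by `ϖ ^ l`. `kI_le` with `p₁ = ϖ ^ (l / 2)`,
`p₂ = ϖ ^ ((l + 1) / 2)`, `c = 1` (`l / 2 + (l + 1) / 2 = l`), `aI_le`: `u_j = ϖ ^ i u'_j` and `l / 2, (l + 1) / 2 ≤ i`;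
then `pr_of_le` with `ω = 1`, `pow_mem_kI`. -/
theorem Lev.pr_kI (hu : ∀ j, u' j ∈ R) (hv : ∀ j, v' j ∈ R) {l : ℕ} (hl : l ≤ 2 * i) :
    Pr R (kI ϖ u v l) ((ϖ : D) ^ l) := by
  have hw : (ϖ : D) ∈ R := hA ϖ.2
  have ha : ∀ k, k ≤ i → aI ϖ u k ≤ mulId R hA ((ϖ : D) ^ k) := by
    intro k hk
    obtain ⟨d, rfl⟩ := Nat.exists_eq_add_of_le hk
    refine aI_le hA ⟨1, R.one_mem, by rw [mul_one]⟩ fun j =>
      ⟨(ϖ : D) ^ d * u' j, R.mul_mem (R.pow_mem hw _) (hu j), ?_⟩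
    rw [← hL.eu j]
    ring
  refine pr_of_le hA (ω := 1) (kI_le hA (ha (l / 2) (by omega)) (ha ((l + 1) / 2) (by omega))
    R.one_mem ?_ fun j => ?_) isUnit_one (pow_mem_kI ϖ u v l) ?_
  · rw [mul_one, ← pow_add]
    congr 1
    omega
  · obtain ⟨d, hd⟩ := Nat.exists_eq_add_of_le hl
    refine ⟨(ϖ : D) ^ d * v' j, R.mul_mem (R.pow_mem hw _) (hv j), ?_⟩
    rw [← hL.ev j, hd]
    ring
  · rw [mul_one, Subring.coe_pow]

include hL hA in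
/-- TASK L1 (second statement). `R_m` for `m < i` is generated by `ϖ ^ (4 m + 3)`. `rI_le` with
`p₁ = ϖ ^ (2 m + 2)`, `c₁ = ϖ`, `p₂ = ϖ ^ (m + 1)`, `c₂ = 1`; the elements `ϖ ^ m ϖ ^ (m + 1) v_j` and
`ϖ ^ m (u_j v_k - u_k v_j)` are divisible by `ϖ ^ (4 m + 3)` as `v = ϖ ^ (2 i) v'`, `u = ϖ ^ i u'`,
`m + 1 ≤ i`. Membership: `cube_mem_rI` with `ϖ ^ (m + 1)` three times. -/
theorem Lev.pr_rI (hu : ∀ j, u' j ∈ R) (hv : ∀ j, v' j ∈ R) {m : ℕ} (hm : m < i) :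
    Pr R (rI ϖ u v m) ((ϖ : D) ^ (4 * m + 3)) := by
  have hw : (ϖ : D) ∈ R := hA ϖ.2
  have h1 : kI ϖ u v (2 * m + 2) ≤ mulId R hA ((ϖ : D) ^ (2 * m + 2)) := fun y hy =>
    (hL.pr_kI hA hu hv (l := 2 * m + 2) (by omega)).1 y hy
  obtain ⟨d, rfl⟩ := Nat.exists_eq_add_of_lt hm
  have h3 : aI ϖ u (m + 1) ≤ mulId R hA ((ϖ : D) ^ (m + 1)) := by
    refine aI_le hA ⟨1, R.one_mem, by rw [mul_one]⟩ fun j =>
      ⟨(ϖ : D) ^ d * u' j, R.mul_mem (R.pow_mem hw _) (hu j), ?_⟩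
    rw [← hL.eu j]
    ring
  refine pr_of_le hA (ω := 1) (rI_le hA h1 hw ?_ h3 R.one_mem ?_ (fun j => ?_) fun j k => ?_)
    isUnit_one (cube_mem_rI ϖ u v m (pow_mem_aI ϖ u le_rfl) (pow_mem_aI ϖ u le_rfl)
      (pow_mem_aI ϖ u le_rfl)) ?_
  · ring
  · ring
  · refine ⟨(ϖ : D) ^ (2 * d) * v' j, R.mul_mem (R.pow_mem hw _) (hv j), ?_⟩
    rw [← hL.ev j]
    ring
  · refine ⟨(ϖ : D) ^ (3 * d) * (u' j * v' k - u' k * v' j),
      R.mul_mem (R.pow_mem hw _) (R.sub_mem (R.mul_mem (hu j) (hv k)) (R.mul_mem (hu k) (hv j))), ?_⟩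
    rw [← hL.ev j, ← hL.ev k, ← hL.eu j, ← hL.eu k]
    ring
  · simp only [Subring.coe_mul, Subring.coe_pow]
    ring
-- END L1

-- BEGIN L2
include hL hA in
/-- TASK L2 (first statement). The last ideal at the last level. -/
theorem Lev.pr_sI (hu : ∀ j, u' j ∈ R) (hv : ∀ j, v' j ∈ R) (hi : i = n + 1) :
    Pr R (sI ϖ u v c n) ((ϖ : D) ^ (2 * n + 1)) := by
  subst hi
  have hϖR : (ϖ : D) ∈ R := hA ϖ.2
  have hcR : (c : D) ∈ R := hA c.2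
  have h1 : sI ϖ u v c n ≤ mulId R hA ((ϖ : D) ^ (2 * n + 1)) := by
    refine sI_le hA ?_ ?_ ?_ ?_
    · intro j
      refine ⟨(ϖ : D) * v' j - c * u' j, R.sub_mem (R.mul_mem hϖR (hv j)) (R.mul_mem hcR (hu j)), ?_⟩
      rw [← hL.ev j, ← hL.eu j]
      ring
    · intro j k
      refine ⟨(ϖ : D) * (u' j * u' k), R.mul_mem hϖR (R.mul_mem (hu j) (hu k)), ?_⟩
      rw [← hL.eu j, ← hL.eu k]
      ring
    · intro j
      refine ⟨(ϖ : D) * u' j, R.mul_mem hϖR (hu j), ?_⟩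
      rw [← hL.eu j]
      ring
    · exact ⟨1, R.one_mem, (mul_one _).symm⟩
  exact pr_of_le hA h1 isUnit_one (pow_mem_sI ϖ u v c n) (by simp)

include hL in
/-- TASK L2 (second statement). The ring of a level. `PRS.blow` (A3) with the family `fam ϖ u v`, `k₀ = none`,
`w = fam ϖ u' v'` and `e = fam 0 (fun _ => i) (fun _ => 2 * i)`; the ring `dcl (A ∪ range w)` is
`dcl (A ∪ levSet u' v')` since `ϖ ∈ A` (`c2_absorb`, `dcl_mono`, `le_antisymm`, `dcl_le`). -/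
theorem Lev.prs (h : WHyp A ϖ c u v n) :
    PRS (dcl ((A : Set D) ∪ levSet u' v')) (fam (ϖ : D) u' v') := by
  have h1 := PRS.blow (w := fam (ϖ : D) u' v') (e := fam 0 (fun _ => i) (fun _ => 2 * i)) (k₀ := none)
    h.prs h.unif rfl (by
      rintro (_ | j | j)
      · simp
      · exact hL.eu j
      · exact hL.ev j)
  have h2 : dcl ((A : Set D) ∪ Set.range (fam (ϖ : D) u' v')) = dcl ((A : Set D) ∪ levSet u' v') := by
    apply le_antisymm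
    · refine dcl_le (dom_dcl _) ?_
      rintro z (hz | ⟨o, rfl⟩)
      · exact subset_dcl _ (Or.inl hz)
      · rcases o with _ | j | j
        · exact subset_dcl _ (Or.inl ϖ.2)
        · exact subset_dcl _ (Or.inr (Or.inl ⟨j, rfl⟩))
        · exact subset_dcl _ (Or.inr (Or.inr ⟨j, rfl⟩))
    · refine dcl_le (dom_dcl _) ?_
      rintro z (hz | ⟨j, rfl⟩ | ⟨j, rfl⟩)
      · exact subset_dcl _ (Or.inl hz)
      · exact subset_dcl _ (Or.inr ⟨some (Sum.inl j), rfl⟩)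
      · exact subset_dcl _ (Or.inr ⟨some (Sum.inr j), rfl⟩)
  rw [h2] at h1
  exact h1
-- END L2

-- BEGIN L3
include hL in
/-- TASK L3. The augmentation ideal at the last level `i = n + 1` is `(ϖ ^ (n + 1))`: `principal_of` (T1) with `y = ϖ`,
`c = ϖ ^ (n + 1)`, `t = ε`. `diff_of_dcl` (QD/ChDcl.lean, after `htop`) reduces to the elements of `A`
(`WTau.aug_dvd`: `u_j = ϖ ^ (n + 1) u'_j`, `v_j = ϖ ^ (2 n + 2) v'_j`) and to `u'_j`, `v'_j`: T3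
(`level_u` with `i = n + 1`, `k = 2 * (n + 1)`; `level_v`): the coefficients `κ'`, `l'` are multiples of `ϖ`
there (`n + 1 - i = 0`, `2 n + 2 - 2 i = 0`; push the casts). -/
theorem Lev.principal (h : WHyp A ϖ c u v n) (hi : i = n + 1) {τ : D →+* D} {ε κ l μ : D}
    (hτ : WTau τ ϖ c u v n ε κ l μ) (htop : dcl ((A : Set D) ∪ levSet u' v') = ⊤) :
    ∃ y, τ y - y ≠ 0 ∧ ∀ w, ∃ a, τ w - w = a * (τ y - y) := by
  subst hi
  have h0 : (ϖ : D) ≠ 0 := h.unif_ne_zero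
  have hy : τ (ϖ : D) - ϖ = (ϖ : D) ^ (n + 1) * ε := by
    rw [hτ.unif]
    ring
  refine principal_of (pow_ne_zero (n + 1) h0) hτ.unit hy ?_
  have hA : ∀ a : A, ∃ b, τ a - a = b * (ϖ : D) ^ (n + 1) := by
    intro a
    refine hτ.aug_dvd ⟨1, (one_mul _).symm⟩ ?_ ?_ a
    · intro j
      exact ⟨u' j, by rw [← hL.eu j]; ring⟩
    · intro j
      exact ⟨(ϖ : D) ^ (n + 1) * v' j, by rw [← hL.ev j]; ring⟩
  have hd : ∀ z ∈ dcl ((A : Set D) ∪ levSet u' v'), ∃ a, τ z - z = a * (ϖ : D) ^ (n + 1) := by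
    apply diff_of_dcl
    rintro z (hz | ⟨j, rfl⟩ | ⟨j, rfl⟩)
    · exact hA ⟨z, hz⟩
    · obtain ⟨ω, κ', hω, hωu, ⟨a, ha⟩, h1⟩ := hτ.level_u h.pos h.unif h0 (i := n + 1) (k := 2 * (n + 1))
        (by omega) hL.eu hL.ev
      rw [h1 j]
      have e1 : 2 * (n + 1) - (n + 1) = n + 1 := by omega
      rw [e1]
      refine ⟨u' j * a + ω * v' j, ?_⟩
      rw [ha]
      push_cast
      ring
    · obtain ⟨l', ⟨a, ha⟩, h1⟩ := hτ.level_v h.pos h.unif h0 (k := 2 * (n + 1)) hL.ev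
      rw [h1 j]
      refine ⟨v' j * a, ?_⟩
      rw [ha]
      push_cast
      ring
  intro w
  exact hd w (by rw [htop]; trivial)
-- END L3

end Lev

section Unit

variable {i : ℕ} {u' v' : J → D} (hL : Lev ϖ u v i u' v') {R : Subring D} (hA : A ≤ R)
  (hi : i ≤ n) (hun : ∃ j, IsUnit (u' j) ∨ IsUnit (v' j))

-- BEGIN L4
include hL hA in
theorem l4_aI (hu : ∀ j, u' j ∈ R) {k : ℕ} (hk : i ≤ k) :
    aI ϖ u k ≤ mulId R hA ((ϖ : D) ^ i) := by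
  refine aI_le hA ⟨(ϖ : D) ^ (k - i), R.pow_mem (hA ϖ.2) _, ?_⟩ (fun j => ⟨u' j, hu j, (hL.eu j).symm⟩)
  rw [← pow_add, Nat.add_sub_cancel' hk]

include hL hA hun in
/-- TASK L4 (three statements). A unit among the `u'_j`, `v'_j`. `K_l`, `2 i ≤ l`: `p = ϖ ^ (2 i)`, `kI_le` with
`p₁ = p₂ = ϖ ^ i`. Membership (`pr_of_le`): `u_j u_j = ϖ ^ (2 i) u'_j ^ 2`, or `v_j = ϖ ^ (2 i) v'_j`. -/
theorem Lev.unit_kI (hu : ∀ j, u' j ∈ R) (hv : ∀ j, v' j ∈ R) {l : ℕ} (hl : 2 * i ≤ l) :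
    Pr R (kI ϖ u v l) ((ϖ : D) ^ (2 * i)) := by
  have hle : kI ϖ u v l ≤ mulId R hA ((ϖ : D) ^ (2 * i)) := by
    refine kI_le hA (p₁ := (ϖ : D) ^ i) (p₂ := (ϖ : D) ^ i) (c := 1) ?_ ?_ R.one_mem ?_ ?_
    · exact l4_aI hL hA hu (by omega)
    · exact l4_aI hL hA hu (by omega)
    · rw [mul_one, ← pow_add, two_mul]
    · intro j
      exact ⟨v' j, hv j, (hL.ev j).symm⟩
  obtain ⟨j, hj | hj⟩ := hun
  · refine pr_of_le hA hle (hj.pow 2) (uu_mem_kI ϖ u v l j j) ?_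
    rw [Subring.coe_mul, ← hL.eu j]
    ring
  · refine pr_of_le hA hle hj (v_mem_kI ϖ u v l j) ?_
    rw [hL.ev j]

include hL hA hun in
/-- `R_m`, `i ≤ m`: `p = ϖ ^ (4 i)`, `rI_le` with `p₁ = ϖ ^ (2 i)`, `p₂ = ϖ ^ i`. Membership: `sq_mem_rI`. -/
theorem Lev.unit_rI (hu : ∀ j, u' j ∈ R) (hv : ∀ j, v' j ∈ R) {m : ℕ} (hm : i ≤ m) :
    Pr R (rI ϖ u v m) ((ϖ : D) ^ (4 * i)) := by
  obtain ⟨d, rfl⟩ := Nat.exists_eq_add_of_le hm
  have hle : rI ϖ u v (i + d) ≤ mulId R hA ((ϖ : D) ^ (4 * i)) := by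
    refine rI_le hA (p₁ := (ϖ : D) ^ (2 * i)) (c₁ := 1) (p₂ := (ϖ : D) ^ i) (c₂ := (ϖ : D) ^ d)
      (Lev.unit_kI hL hA hun hu hv (by omega)).1 R.one_mem ?_ ?_ (R.pow_mem (hA ϖ.2) _) ?_ ?_ ?_
    · ring
    · exact l4_aI hL hA hu (by omega)
    · ring
    · intro j
      refine ⟨(ϖ : D) ^ (2 * d + 1) * v' j, R.mul_mem (R.pow_mem (hA ϖ.2) _) (hv j), ?_⟩
      rw [← hL.ev j]
      ring
    · intro j k
      refine ⟨(ϖ : D) ^ d * (u' j * v' k - u' k * v' j), R.mul_mem (R.pow_mem (hA ϖ.2) _)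
        (R.sub_mem (R.mul_mem (hu j) (hv k)) (R.mul_mem (hu k) (hv j))), ?_⟩
      rw [← hL.ev j, ← hL.ev k, ← hL.eu j, ← hL.eu k]
      ring
  obtain ⟨j, hj | hj⟩ := hun
  · refine pr_of_le hA hle (hj.pow 4) (sq_mem_rI ϖ u v (i + d)
      (uu_mem_kI ϖ u v (2 * (i + d) + 2) j j) (uu_mem_kI ϖ u v (2 * (i + d) + 2) j j)) ?_
    rw [Subring.coe_mul, Subring.coe_mul, ← hL.eu j]
    ring
  · refine pr_of_le hA hle (hj.pow 2) (sq_mem_rI ϖ u v (i + d)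
      (v_mem_kI ϖ u v (2 * (i + d) + 2) j) (v_mem_kI ϖ u v (2 * (i + d) + 2) j)) ?_
    rw [Subring.coe_mul, ← hL.ev j]
    ring

include hL hA hi hun in
/-- `p = ϖ ^ (2 i)`. Membership: `u_j u_j` if some `u'_j` is a unit; otherwise `v'_j` is a unit, `u'_j` is not, and
`v_j - c ϖ ^ n u_j = ϖ ^ (2 i) (v'_j - c ϖ ^ (n - i) u'_j)`, a unit multiple (`isUnit_add_of`). -/
theorem Lev.unit_sI (hu : ∀ j, u' j ∈ R) (hv : ∀ j, v' j ∈ R) :
    Pr R (sI ϖ u v c n) ((ϖ : D) ^ (2 * i)) := by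
  obtain ⟨d, rfl⟩ := Nat.exists_eq_add_of_le hi
  have hle : sI ϖ u v c (i + d) ≤ mulId R hA ((ϖ : D) ^ (2 * i)) := by
    refine sI_le hA ?_ ?_ ?_ ?_
    · intro j
      refine ⟨v' j - c * (ϖ : D) ^ d * u' j, R.sub_mem (hv j)
        (R.mul_mem (R.mul_mem (hA c.2) (R.pow_mem (hA ϖ.2) _)) (hu j)), ?_⟩
      rw [← hL.ev j, ← hL.eu j]
      ring
    · intro j k
      refine ⟨u' j * u' k, R.mul_mem (hu j) (hu k), ?_⟩
      rw [← hL.eu j, ← hL.eu k]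
      ring
    · intro j
      refine ⟨(ϖ : D) ^ (d + 1) * u' j, R.mul_mem (R.pow_mem (hA ϖ.2) _) (hu j), ?_⟩
      rw [← hL.eu j]
      ring
    · refine ⟨(ϖ : D) ^ (2 * d + 1), R.pow_mem (hA ϖ.2) _, ?_⟩
      ring
  obtain ⟨j, hj⟩ := hun
  by_cases hju : IsUnit (u' j)
  · refine pr_of_le hA hle (hju.pow 2) (uu_mem_sI ϖ u v c (i + d) j j) ?_
    rw [Subring.coe_mul, ← hL.eu j]
    ring
  · have hjv : IsUnit (v' j) := hj.resolve_left hju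
    have hmem : u' j ∈ maximalIdeal D := (mem_maximalIdeal (u' j)).mpr hju
    have hun2 : IsUnit (v' j + (-(c * (ϖ : D) ^ d)) * u' j) :=
      isUnit_add_of hjv (Ideal.mul_mem_left _ _ hmem)
    refine pr_of_le hA hle hun2 (s_mem_sI ϖ u v c (i + d) j) ?_
    rw [AddSubgroupClass.coe_sub, Subring.coe_mul, Subring.coe_mul, Subring.coe_pow, ← hL.ev j, ← hL.eu j]
    ring
-- END L4

-- BEGIN L5
include hL hi hun in
/-- TASK L5. The augmentation ideal is `(ϖ ^ i)`. If some `u'_j` is a unit then `y` with `τ y - y = ϖ ^ i * unit` exists: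
`hx` gives `x ∈ D` with `τ x - x = u_j = ϖ ^ i u'_j`. Otherwise `v'_j` is a unit and `u'_j` in the maximal ideal: `y = u'_j`,
`τ u'_j - u'_j = ϖ ^ n κ' u'_j + ω ϖ ^ i v'_j = ϖ ^ i (ω v'_j + ϖ ^ (n - i) κ' u'_j)` (T3, `k = 2 i`). All differences
are multiples of `ϖ ^ i` (`diff_of_dcl`, `WTau.aug_dvd`, T3; `i ≤ n`). -/
theorem Lev.unit_principal (h : WHyp A ϖ c u v n) {τ : D →+* D} {ε κ l μ : D}
    (hτ : WTau τ ϖ c u v n ε κ l μ) (hx : ∀ j, ∃ x, τ x - x = u j)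
    (htop : dcl ((A : Set D) ∪ levSet u' v') = ⊤) :
    ∃ y, τ y - y ≠ 0 ∧ ∀ w, ∃ a, τ w - w = a * (τ y - y) := by
  have hpos := h.pos
  obtain ⟨d, rfl⟩ := Nat.exists_eq_add_of_le hi
  obtain ⟨ω₀, κ', _, hωu₀, _, hU⟩ := hτ.level_u hpos h.unif h.unif_ne_zero (i := i) (k := 2 * i)
    (by omega) hL.eu hL.ev
  have hωu : IsUnit (ω₀ : D) := by
    first
      | exact hωu₀
      | exact hωu₀.map A.subtype
  obtain ⟨ω, hω⟩ : ∃ ω : D, ω = (ω₀ : D) := ⟨_, rfl⟩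
  rw [← hω] at hωu hU
  obtain ⟨l', _, hV⟩ := hτ.level_v hpos h.unif h.unif_ne_zero (k := 2 * i) hL.ev
  have hne : (ϖ : D) ^ i ≠ 0 := pow_ne_zero _ h.unif_ne_zero
  have h2i : 2 * i - i = i := by omega
  have hU' : ∀ j, τ (u' j) - u' j = (ϖ : D) ^ i * (ω * v' j + (ϖ : D) ^ d * κ' * u' j) := by
    intro j
    rw [hU j, h2i]
    ring
  have hall : ∀ w, ∃ a, τ w - w = a * (ϖ : D) ^ i := by
    intro w
    have hw : w ∈ dcl ((A : Set D) ∪ levSet u' v') := by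
      rw [htop]
      exact Subring.mem_top w
    refine diff_of_dcl (fun z hz => ?_) w hw
    rcases hz with hz | ⟨j, rfl⟩ | ⟨j, rfl⟩
    · refine hτ.aug_dvd ⟨(ϖ : D) ^ (d + 1), by ring⟩ (fun j => ⟨u' j, ?_⟩)
        (fun j => ⟨v' j * (ϖ : D) ^ i, ?_⟩) ⟨z, hz⟩
      · rw [← hL.eu j]
        ring
      · rw [← hL.ev j]
        ring
    · exact ⟨ω * v' j + (ϖ : D) ^ d * κ' * u' j, by rw [hU' j]; ring⟩
    · refine ⟨v' j * (ϖ : D) ^ d * l', ?_⟩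
      rw [hV j]
      ring
  obtain ⟨j, hj⟩ := hun
  by_cases hju : IsUnit (u' j)
  · obtain ⟨x, hx'⟩ := hx j
    exact principal_of hne hju (hx'.trans (hL.eu j).symm) hall
  · have hjv : IsUnit (v' j) := hj.resolve_left hju
    have hmem : u' j ∈ maximalIdeal D := (mem_maximalIdeal (u' j)).mpr hju
    have hun2 : IsUnit (ω * v' j + (ϖ : D) ^ d * κ' * u' j) :=
      isUnit_add_of (hωu.mul hjv) (Ideal.mul_mem_left _ _ hmem)
    exact principal_of hne hun2 (hU' j) hall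
-- END L5

end Unit

end Pool.Agent.Lib.MP_6a3dac_ag.W3
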