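import Pool.Agent.Lib.MP_6a3dac_ag.W3.CaseL

/-!
# The case in which `ϖ` divides all `u'_j`, `v'_j`
-/

set_option autoImplicit false
set_option linter.unusedSectionVars false
set_option linter.unusedVariables false

namespace Pool.Agent.Lib.MP_6a3dac_ag.W3

open IsLocalRing
open Pool.Agent.Lib.MP_6a3dac_ag Pool.Agent.Lib.MP_6a3dac_ag.QD

variable {D : Type} [CommRing D] [IsDomain D] [IsLocalRing D] {A : Subring D} {J : Type}
  [Fintype J] [DecidableEq J] {ϖ c : A} {u v : J → A} {n : ℕ}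

/-- Case P: `u = ϖ ^ (i + 1) u'`, `v = ϖ ^ (2 i + 1) v'`, and `t = v' m` divides `v' = t V` and `ϖ = t P`, `P` in the
maximal ideal (`t` may be a unit). -/
structure PHyp (ϖ : A) (u v : J → A) (n i : ℕ) (u' v' : J → D) (m : J) (V : J → D) (P : D) :
    Prop where
  le : i ≤ n
  eu : ∀ j, (ϖ : D) ^ (i + 1) * u' j = u j
  ev : ∀ j, (ϖ : D) ^ (2 * i + 1) * v' j = v j
  eV : ∀ j, v' m * V j = v' j
  eP : v' m * P = ϖ
  mP : P ∈ maximalIdeal D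

/-- The elements adjoined in case P. -/
def pSet (u' v' V : J → D) (P : D) : Set D := levSet u' v' ∪ (Set.range V ∪ {P})

variable {i : ℕ} {u' v' : J → D} {m : J} {V : J → D} {P : D}

theorem PHyp.t_ne_zero (h : WHyp A ϖ c u v n) (hP : PHyp ϖ u v n i u' v' m V P) : v' m ≠ 0 := by
  intro h0
  apply h.unif_ne_zero
  rw [← hP.eP, h0, zero_mul]

theorem PHyp.V_self (h : WHyp A ϖ c u v n) (hP : PHyp ϖ u v n i u' v' m V P) : V m = 1 := by
  apply mul_left_cancel₀ (hP.t_ne_zero h)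
  rw [hP.eV, mul_one]

/-- The level. -/
theorem PHyp.lev (hP : PHyp ϖ u v n i u' v' m V P) :
    Lev ϖ u v i (fun j => ϖ * u' j) (fun j => ϖ * v' j) := by
  refine ⟨fun j => ?_, fun j => ?_⟩
  · rw [← hP.eu j]
    ring
  · rw [← hP.ev j]
    ring

section Pr

variable {R : Subring D} (hA : A ≤ R) (hR : pSet u' v' V P ⊆ R)

-- BEGIN P1
include hA hR in
/-- TASK P1 (four statements). `K_l` for `l ≤ 2 i`: `Lev.pr_kI` (L1) for `hP.lev` (`ϖ` lies in `A ≤ R`). -/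
theorem PHyp.pr_kI_le (hP : PHyp ϖ u v n i u' v' m V P) {l : ℕ} (hl : l ≤ 2 * i) :
    Pr R (kI ϖ u v l) ((ϖ : D) ^ l) := by
  exact hP.lev.pr_kI hA (fun j => R.mul_mem (hA ϖ.2) (hR (Or.inl (Or.inl ⟨j, rfl⟩))))
    (fun j => R.mul_mem (hA ϖ.2) (hR (Or.inl (Or.inr ⟨j, rfl⟩)))) hl

include hA hR in
/-- `K_{2 i + 1}`: `p = ϖ ^ (2 i + 1)`: `kI_le` with `p₁ = ϖ ^ i`, `p₂ = ϖ ^ (i + 1)` (`aI_le`: `u_j = ϖ ^ (i + 1) u'_j`),
`v_j = ϖ ^ (2 i + 1) v'_j`. Membership: `pow_mem_kI`. -/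
theorem PHyp.pr_kI_one (hP : PHyp ϖ u v n i u' v' m V P) :
    Pr R (kI ϖ u v (2 * i + 1)) ((ϖ : D) ^ (2 * i + 1)) := by
  have hw : (ϖ : D) ∈ R := hA ϖ.2
  have hu : ∀ j, u' j ∈ R := fun j => hR (Or.inl (Or.inl ⟨j, rfl⟩))
  have hv : ∀ j, v' j ∈ R := fun j => hR (Or.inl (Or.inr ⟨j, rfl⟩))
  have ha : ∀ k, k ≤ i + 1 → aI ϖ u k ≤ mulId R hA ((ϖ : D) ^ k) := by
    intro k hk
    obtain ⟨d, hd⟩ := Nat.exists_eq_add_of_le hk
    refine aI_le hA ⟨1, R.one_mem, by rw [mul_one]⟩ fun j =>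
      ⟨(ϖ : D) ^ d * u' j, R.mul_mem (R.pow_mem hw _) (hu j), ?_⟩
    rw [← hP.eu j, hd]
    ring
  have e1 : (2 * i + 1) / 2 = i := by omega
  have e2 : (2 * i + 1 + 1) / 2 = i + 1 := by omega
  refine pr_of_le hA (ω := 1) (kI_le hA (l := 2 * i + 1) (p₁ := (ϖ : D) ^ i)
    (p₂ := (ϖ : D) ^ (i + 1)) (c := 1) (by rw [e1]; exact ha i (by omega))
    (by rw [e2]; exact ha (i + 1) le_rfl) R.one_mem ?_ fun j => ?_) isUnit_one
    (pow_mem_kI ϖ u v (2 * i + 1)) ?_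
  · ring
  · exact ⟨v' j, hv j, (hP.ev j).symm⟩
  · rw [mul_one, Subring.coe_pow]

include hA hR in
/-- `K_l`, `l ≥ 2 i + 2`: `p = ϖ ^ (2 i + 1) t`, `t = v' m`: `kI_le` with `p₁ = p₂ = ϖ ^ (i + 1)`,
`p₁ p₂ = ϖ ^ (2 i + 1) t P`, `v_j = ϖ ^ (2 i + 1) t V_j`. Membership: `v_m`. -/
theorem PHyp.pr_kI_ge (hP : PHyp ϖ u v n i u' v' m V P) {l : ℕ} (hl : 2 * i + 2 ≤ l) :
    Pr R (kI ϖ u v l) ((ϖ : D) ^ (2 * i + 1) * v' m) := by
  have hw : (ϖ : D) ∈ R := hA ϖ.2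
  have hu : ∀ j, u' j ∈ R := fun j => hR (Or.inl (Or.inl ⟨j, rfl⟩))
  have hV : ∀ j, V j ∈ R := fun j => hR (Or.inr (Or.inl ⟨j, rfl⟩))
  have hPR : P ∈ R := hR (Or.inr (Or.inr rfl))
  have ha : ∀ k, i + 1 ≤ k → aI ϖ u k ≤ mulId R hA ((ϖ : D) ^ (i + 1)) := by
    intro k hk
    obtain ⟨d, hd⟩ := Nat.exists_eq_add_of_le hk
    refine aI_le hA ⟨(ϖ : D) ^ d, R.pow_mem hw _, by rw [hd]; ring⟩ fun j =>
      ⟨u' j, hu j, (hP.eu j).symm⟩
  refine pr_of_le hA (ω := 1) (kI_le hA (p₁ := (ϖ : D) ^ (i + 1))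
    (p₂ := (ϖ : D) ^ (i + 1)) (c := P) (ha _ (by omega))
    (ha _ (by omega)) hPR ?_ fun j => ?_) isUnit_one
    (v_mem_kI ϖ u v l m) ?_
  · linear_combination (-(ϖ : D) ^ (2 * i + 1)) * hP.eP
  · exact ⟨V j, hV j, by rw [← hP.ev j, ← hP.eV j]; ring⟩
  · rw [mul_one, hP.ev m]

include hA hR in
/-- `R_k` for `k < i`: `Lev.pr_rI` (L1) for `hP.lev`. -/
theorem PHyp.pr_rI_lt (hP : PHyp ϖ u v n i u' v' m V P) {k : ℕ} (hk : k < i) :
    Pr R (rI ϖ u v k) ((ϖ : D) ^ (4 * k + 3)) := by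
  exact hP.lev.pr_rI hA (fun j => R.mul_mem (hA ϖ.2) (hR (Or.inl (Or.inl ⟨j, rfl⟩))))
    (fun j => R.mul_mem (hA ϖ.2) (hR (Or.inl (Or.inr ⟨j, rfl⟩)))) hk
-- END P1

-- BEGIN P2
include hA hR in
/-- TASK P2 (two statements). `R_i`: `p = ϖ ^ (4 i + 2) t`: `rI_le` with `p₁ = ϖ ^ (2 i + 1) t`, `p₂ = ϖ ^ (i + 1)`:
`ϖ ^ i p₂ ^ 3 = ϖ ^ (4 i + 3) = p P`, `ϖ ^ i ϖ ^ (i + 1) v_j = p V_j`, the minors are
`ϖ ^ i ϖ ^ (i + 1) ϖ ^ (2 i + 1) t (u'_j V_k - u'_k V_j)`. Membership: `pv_mem_rI` with `v_m`. -/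
theorem PHyp.pr_rI_eq (hP : PHyp ϖ u v n i u' v' m V P) :
    Pr R (rI ϖ u v i) ((ϖ : D) ^ (4 * i + 2) * v' m) := by
  have hu : ∀ j, u' j ∈ R := fun j => hR (Or.inl (Or.inl ⟨j, rfl⟩))
  have hv : ∀ j, v' j ∈ R := fun j => hR (Or.inl (Or.inr ⟨j, rfl⟩))
  have hV : ∀ j, V j ∈ R := fun j => hR (Or.inr (Or.inl ⟨j, rfl⟩))
  have hPR : P ∈ R := hR (Or.inr (Or.inr rfl))
  have hle : rI ϖ u v i ≤ mulId R hA ((ϖ : D) ^ (4 * i + 2) * v' m) := by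
    refine rI_le hA (p₁ := (ϖ : D) ^ (2 * i + 1) * v' m) (p₂ := (ϖ : D) ^ (i + 1)) (c₁ := v' m) (c₂ := P)
      (fun y hy => (hP.pr_kI_ge hA hR (l := 2 * i + 2) le_rfl).1 y hy) (hv m) (by ring) ?_ hPR ?_ ?_ ?_
    · exact aI_le hA ⟨1, R.one_mem, by ring⟩ (fun j => ⟨u' j, hu j, (hP.eu j).symm⟩)
    · linear_combination (-(ϖ : D) ^ (4 * i + 2)) * hP.eP
    · intro j
      refine ⟨V j, hV j, ?_⟩
      rw [← hP.ev j, ← hP.eV j]
      ring
    · intro j k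
      refine ⟨u' j * V k - u' k * V j, R.sub_mem (R.mul_mem (hu j) (hV k)) (R.mul_mem (hu k) (hV j)), ?_⟩
      rw [← hP.ev j, ← hP.ev k, ← hP.eV j, ← hP.eV k, ← hP.eu j, ← hP.eu k]
      ring
  refine pr_of_le hA hle isUnit_one (pv_mem_rI ϖ u v i m) ?_
  rw [Subring.coe_mul, Subring.coe_mul, Subring.coe_pow, Subring.coe_pow, ← hP.ev m]
  ring

include hA hR in
/-- `R_k`, `k ≥ i + 1`: `p = ϖ ^ (4 i + 2) t ^ 2`: `rI_le` with `p₁ = ϖ ^ (2 i + 1) t`, `p₂ = ϖ ^ (i + 1)`; `ϖ ^ (k - i)` and `ϖ ^ 2` are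
multiples of `t P = ϖ`, `(t P) ^ 2`. Membership: `v_m v_m` (`sq_mem_rI`). -/
theorem PHyp.pr_rI_gt (hP : PHyp ϖ u v n i u' v' m V P) {k : ℕ} (hk : i + 1 ≤ k) :
    Pr R (rI ϖ u v k) ((ϖ : D) ^ (4 * i + 2) * v' m ^ 2) := by
  obtain ⟨d, rfl⟩ := Nat.exists_eq_add_of_le hk
  have hu : ∀ j, u' j ∈ R := fun j => hR (Or.inl (Or.inl ⟨j, rfl⟩))
  have hV : ∀ j, V j ∈ R := fun j => hR (Or.inr (Or.inl ⟨j, rfl⟩))
  have hPR : P ∈ R := hR (Or.inr (Or.inr rfl))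
  have hϖ : (ϖ : D) ∈ R := hA ϖ.2
  have hle : rI ϖ u v (i + 1 + d) ≤ mulId R hA ((ϖ : D) ^ (4 * i + 2) * v' m ^ 2) := by
    refine rI_le hA (p₁ := (ϖ : D) ^ (2 * i + 1) * v' m) (p₂ := (ϖ : D) ^ (i + 1)) (c₁ := 1)
      (c₂ := P ^ 2 * (ϖ : D) ^ d)
      (fun y hy => (hP.pr_kI_ge hA hR (l := 2 * (i + 1 + d) + 2) (by omega)).1 y hy) R.one_mem (by ring) ?_
      (R.mul_mem (R.pow_mem hPR 2) (R.pow_mem hϖ d)) ?_ ?_ ?_
    · exact aI_le hA ⟨(ϖ : D) ^ (1 + d), R.pow_mem hϖ _, by ring⟩ (fun j => ⟨u' j, hu j, (hP.eu j).symm⟩)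
    · linear_combination (-(ϖ : D) ^ (4 * i + 2 + d) * ((ϖ : D) + v' m * P)) * hP.eP
    · intro j
      refine ⟨P * (ϖ : D) ^ (1 + 2 * d) * V j, R.mul_mem (R.mul_mem hPR (R.pow_mem hϖ _)) (hV j), ?_⟩
      rw [← hP.ev j, ← hP.eV j]
      linear_combination (-(ϖ : D) ^ (4 * i + 3 + 2 * d) * v' m * V j) * hP.eP
    · intro j k
      refine ⟨P * (ϖ : D) ^ d * (u' j * V k - u' k * V j), R.mul_mem (R.mul_mem hPR (R.pow_mem hϖ _))
        (R.sub_mem (R.mul_mem (hu j) (hV k)) (R.mul_mem (hu k) (hV j))), ?_⟩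
      rw [← hP.ev j, ← hP.ev k, ← hP.eV j, ← hP.eV k, ← hP.eu j, ← hP.eu k]
      linear_combination (-(ϖ : D) ^ (4 * i + 2 + d) * v' m * (u' j * V k - u' k * V j)) * hP.eP
  refine pr_of_le hA hle isUnit_one (sq_mem_rI ϖ u v _ (v_mem_kI ϖ u v _ m) (v_mem_kI ϖ u v _ m)) ?_
  rw [Subring.coe_mul, ← hP.ev m]
  ring
-- END P2

-- BEGIN P3
include hA hR in
/-- TASK P3 (two statements). The last ideal for `i < n`: `p = ϖ ^ (2 i + 1) t`: `sI_le`: `ϖ ^ (n + i + 1) = ϖ ^ (2 i + 1) t P ϖ ^ (n - i - 1)`,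
`v_j - c ϖ ^ n u_j = p (V_j - c ϖ ^ (n - i - 1) P u'_j)`, and the others are multiples of `ϖ ^ (2 i + 2) = p P`. Membership (`pr_of_le`):
`v_m - c ϖ ^ n u_m = p (1 - c ϖ ^ (n - i - 1) P u'_m)`, a unit multiple since `P` is in the maximal ideal and `V_m = 1`. -/
theorem PHyp.pr_sI_lt (h : WHyp A ϖ c u v n) (hP : PHyp ϖ u v n i u' v' m V P) (hi : i < n) :
    Pr R (sI ϖ u v c n) ((ϖ : D) ^ (2 * i + 1) * v' m) := by
  have hw : (ϖ : D) ∈ R := hA ϖ.2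
  have hu : ∀ j, u' j ∈ R := fun j => hR (Or.inl (Or.inl ⟨j, rfl⟩))
  have hV : ∀ j, V j ∈ R := fun j => hR (Or.inr (Or.inl ⟨j, rfl⟩))
  have hPR : P ∈ R := hR (Or.inr (Or.inr rfl))
  have hc : (c : D) ∈ R := hA c.2
  obtain ⟨d, rfl⟩ := Nat.exists_eq_add_of_lt hi
  have eP := hP.eP
  have key : ∀ j, (v j : D) - c * (ϖ : D) ^ (i + d + 1) * u j =
      (ϖ : D) ^ (2 * i + 1) * v' m * (V j - c * (ϖ : D) ^ d * P * u' j) := by
    intro j
    rw [← hP.ev j, ← hP.eV j, ← hP.eu j]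
    linear_combination ((ϖ : D) ^ (2 * i + 1) * c * (ϖ : D) ^ d * u' j) * eP
  refine pr_of_le hA (ω := 1 + P * (-(c * (ϖ : D) ^ d * u' m))) (sI_le hA (fun j => ?_)
    (fun j k => ?_) (fun j => ?_) ?_) (isUnit_one_add_mul hP.mP _) (s_mem_sI ϖ u v c _ m) ?_
  · exact ⟨_, R.sub_mem (hV j) (R.mul_mem (R.mul_mem (R.mul_mem hc (R.pow_mem hw _)) hPR) (hu j)),
      key j⟩
  · refine ⟨P * (u' j * u' k), R.mul_mem hPR (R.mul_mem (hu j) (hu k)), ?_⟩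
    rw [← hP.eu j, ← hP.eu k]
    linear_combination (-(ϖ : D) ^ (2 * i + 1) * u' j * u' k) * eP
  · refine ⟨P * ((ϖ : D) ^ (d + 1) * u' j), R.mul_mem hPR (R.mul_mem (R.pow_mem hw _) (hu j)), ?_⟩
    rw [← hP.eu j]
    linear_combination (-(ϖ : D) ^ (2 * i + 1) * (ϖ : D) ^ (d + 1) * u' j) * eP
  · refine ⟨P * (ϖ : D) ^ (2 * d + 1), R.mul_mem hPR (R.pow_mem hw _), ?_⟩
    linear_combination (-(ϖ : D) ^ (2 * i + 1) * (ϖ : D) ^ (2 * d + 1)) * eP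
  · have e1 : (((v m - c * ϖ ^ (i + d + 1) * u m : A)) : D) =
        (v m : D) - c * (ϖ : D) ^ (i + d + 1) * u m := by
      push_cast
      rfl
    rw [e1, key m, hP.V_self h]
    ring

include hA hR in
/-- `i = n`: `p = ϖ ^ (2 n + 1)`. Membership: `pow_mem_sI`. -/
theorem PHyp.pr_sI_eq (hP : PHyp ϖ u v n i u' v' m V P) (hi : i = n) :
    Pr R (sI ϖ u v c n) ((ϖ : D) ^ (2 * n + 1)) := by
  have hw : (ϖ : D) ∈ R := hA ϖ.2
  have hu : ∀ j, u' j ∈ R := fun j => hR (Or.inl (Or.inl ⟨j, rfl⟩))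
  have hv : ∀ j, v' j ∈ R := fun j => hR (Or.inl (Or.inr ⟨j, rfl⟩))
  have hc : (c : D) ∈ R := hA c.2
  subst hi
  refine pr_of_le hA (ω := 1) (sI_le hA (fun j => ?_)
    (fun j k => ?_) (fun j => ?_) ?_) isUnit_one (pow_mem_sI ϖ u v c i) ?_
  · refine ⟨v' j - c * u' j, R.sub_mem (hv j) (R.mul_mem hc (hu j)), ?_⟩
    rw [← hP.ev j, ← hP.eu j]
    ring
  · refine ⟨ϖ * (u' j * u' k), R.mul_mem hw (R.mul_mem (hu j) (hu k)), ?_⟩
    rw [← hP.eu j, ← hP.eu k]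
    ring
  · refine ⟨ϖ * u' j, R.mul_mem hw (hu j), ?_⟩
    rw [← hP.eu j]
    ring
  · exact ⟨1, R.one_mem, by rw [mul_one]⟩
  · rw [mul_one, Subring.coe_pow]
-- END P3

end Pr

-- BEGIN P4
/-- TASK P4. The ring of case P is regular. First `PRS.blow` (A3) for `A`, the family `fam ϖ u v`, `k₀ = none`, `w = fam ϖ u' v'`,
`e = fam 0 (fun _ => i + 1) (fun _ => 2 * i + 1)`: `PRS` of `fam ϖ u' v'` in `dcl (A ∪ levSet u' v')`. If `t = v' m` is a unit then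
`V_j = t⁻¹ v'_j`, `P = t⁻¹ ϖ` lie in this ring (`Dom`, `c2_absorb`). Otherwise `PRS.blow` with `k₀ = some (Sum.inr m)`,
`w = fam P u' (Function.update V m (v' m))`, `e = 1` on `none` and on `inr j`, `j ≠ m`, `e = 0` elsewhere (`dcl_dcl_range`). -/
theorem PHyp.prs (h : WHyp A ϖ c u v n) (hP : PHyp ϖ u v n i u' v' m V P) :
    ∃ (κ : Type) (f : κ → D), PRS (dcl ((A : Set D) ∪ pSet u' v' V P)) f := by
  have h1 : PRS (dcl ((A : Set D) ∪ Set.range (fam (ϖ : D) u' v'))) (fam (ϖ : D) u' v') := by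
    refine PRS.blow (e := fam 0 (fun _ => i + 1) (fun _ => 2 * i + 1)) (k₀ := none) h.prs h.unif rfl
      fun k => ?_
    rcases k with _ | j | j
    · simp
    · exact hP.eu j
    · exact hP.ev j
  have hAu : ∀ j, u' j ∈ dcl ((A : Set D) ∪ pSet u' v' V P) := fun j =>
    subset_dcl _ (Or.inr (Or.inl (Or.inl ⟨j, rfl⟩)))
  have hAv : ∀ j, v' j ∈ dcl ((A : Set D) ∪ pSet u' v' V P) := fun j =>
    subset_dcl _ (Or.inr (Or.inl (Or.inr ⟨j, rfl⟩)))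
  have hAV : ∀ j, V j ∈ dcl ((A : Set D) ∪ pSet u' v' V P) := fun j =>
    subset_dcl _ (Or.inr (Or.inr (Or.inl ⟨j, rfl⟩)))
  have hAP : P ∈ dcl ((A : Set D) ∪ pSet u' v' V P) :=
    subset_dcl _ (Or.inr (Or.inr (Or.inr rfl)))
  by_cases ht : IsUnit (v' m)
  · refine ⟨_, fam (ϖ : D) u' v', ?_⟩
    have e : dcl ((A : Set D) ∪ Set.range (fam (ϖ : D) u' v')) =
        dcl ((A : Set D) ∪ pSet u' v' V P) := by
      apply le_antisymm
      · refine dcl_le (dom_dcl _) ?_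
        rintro z (hz | ⟨o, rfl⟩)
        · exact subset_dcl _ (Or.inl hz)
        · rcases o with _ | j | j
          · exact subset_dcl _ (Or.inl ϖ.2)
          · exact hAu j
          · exact hAv j
      · have hu' : ∀ j, u' j ∈ dcl ((A : Set D) ∪ Set.range (fam (ϖ : D) u' v')) := fun j =>
          subset_dcl _ (Or.inr ⟨some (Sum.inl j), rfl⟩)
        have hv' : ∀ j, v' j ∈ dcl ((A : Set D) ∪ Set.range (fam (ϖ : D) u' v')) := fun j =>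
          subset_dcl _ (Or.inr ⟨some (Sum.inr j), rfl⟩)
        obtain ⟨s, hs⟩ := ht.exists_right_inv
        have hs' : s ∈ dcl ((A : Set D) ∪ Set.range (fam (ϖ : D) u' v')) :=
          dom_dcl _ (v' m) (hv' m) s hs
        refine dcl_le (dom_dcl _) ?_
        rintro z (hz | ((⟨j, rfl⟩ | ⟨j, rfl⟩) | (⟨j, rfl⟩ | hz)))
        · exact subset_dcl _ (Or.inl hz)
        · exact hu' j
        · exact hv' j
        · have e1 : V j = s * v' j := by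
            rw [← hP.eV j]
            linear_combination (-(V j)) * hs
          rw [e1]
          exact Subring.mul_mem _ hs' (hv' j)
        · rw [Set.mem_singleton_iff] at hz
          subst hz
          have e1 : z = s * ϖ := by
            rw [← hP.eP]
            linear_combination (-z) * hs
          rw [e1]
          exact Subring.mul_mem _ hs' (subset_dcl _ (Or.inl ϖ.2))
    rw [← e]
    exact h1
  · have h2 := PRS.blow (e := fam 1 (fun _ => 0) (fun j => if j = m then 0 else 1))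
      (w := fam P u' (fun j => if j = m then v' m else V j))
      (k₀ := some (Sum.inr m)) h1 ((mem_maximalIdeal _).2 ht) (by simp) (by
        intro k
        rcases k with _ | j | j
        · change v' m ^ 1 * P = ϖ
          rw [pow_one, hP.eP]
        · change v' m ^ 0 * u' j = u' j
          rw [pow_zero, one_mul]
        · change v' m ^ (if j = m then 0 else 1) * (if j = m then v' m else V j) = v' j
          by_cases hj : j = m
          · rw [if_pos hj, if_pos hj, hj, pow_zero, one_mul]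
          · rw [if_neg hj, if_neg hj, pow_one, hP.eV])
    refine ⟨_, fam P u' (fun j => if j = m then v' m else V j), ?_⟩
    have e : dcl (((dcl ((A : Set D) ∪ Set.range (fam (ϖ : D) u' v')) : Subring D) : Set D) ∪
        Set.range (fam P u' (fun j => if j = m then v' m else V j))) =
        dcl ((A : Set D) ∪ pSet u' v' V P) := by
      rw [dcl_union_dcl]
      apply le_antisymm
      · refine dcl_le (dom_dcl _) ?_
        rintro z ((hz | ⟨o, rfl⟩) | ⟨o, rfl⟩)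
        · exact subset_dcl _ (Or.inl hz)
        · rcases o with _ | j | j
          · exact subset_dcl _ (Or.inl ϖ.2)
          · exact hAu j
          · exact hAv j
        · rcases o with _ | j | j
          · exact hAP
          · exact hAu j
          · change (if j = m then v' m else V j) ∈ dcl ((A : Set D) ∪ pSet u' v' V P)
            split_ifs
            · exact hAv m
            · exact hAV j
      · refine dcl_le (dom_dcl _) ?_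
        rintro z (hz | ((⟨j, rfl⟩ | ⟨j, rfl⟩) | (⟨j, rfl⟩ | hz)))
        · exact subset_dcl _ (Or.inl (Or.inl hz))
        · exact subset_dcl _ (Or.inl (Or.inr ⟨some (Sum.inl j), rfl⟩))
        · exact subset_dcl _ (Or.inl (Or.inr ⟨some (Sum.inr j), rfl⟩))
        · by_cases hj : j = m
          · rw [hj, hP.V_self h]
            exact Subring.one_mem _
          · refine subset_dcl _ (Or.inr ⟨some (Sum.inr j), ?_⟩)
            change (if j = m then v' m else V j) = V j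
            rw [if_neg hj]
        · rw [Set.mem_singleton_iff] at hz
          subst hz
          exact subset_dcl _ (Or.inr ⟨none, rfl⟩)
    rw [← e]
    exact h2
-- END P4

section Tau

variable {τ : D →+* D} {ε κ l μ : D}

-- BEGIN P5
/-- TASK P5. The automorphism in case P. T3: `level_u` with exponents `i + 1 ≤ 2 i + 1`, `level_v` with `2 i + 1` (push the casts:
`n + 1 - (i + 1) = n - i`, `2 n + 2 - (2 i + 1) = 2 n + 1 - 2 i`). `t = v' m` has the eigenvalue `E = 1 + ϖ ^ n l'`, a unit,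
`H = E⁻¹`: `τ V_j = V_j`, `τ P = P (1 + ε ϖ ^ n) H` (apply `τ` to `t V_j = v'_j`, `t P = ϖ` and cancel `t`). -/
theorem PHyp.exists_tau (h : WHyp A ϖ c u v n) (hP : PHyp ϖ u v n i u' v' m V P)
    (hτ : WTau τ ϖ c u v n ε κ l μ) :
    ∃ ω κ' l' H : D, (∃ a, ω = 1 + a * ϖ) ∧ IsUnit ω ∧ (∃ a, κ' = (n - i) * ε + a * ϖ) ∧
      (∃ a, l' = (2 * n + 1 - 2 * i) * ε + a * ϖ) ∧ (1 + (ϖ : D) ^ n * l') * H = 1 ∧
      (∀ j, τ (u' j) - u' j = u' j * ((ϖ : D) ^ n * κ') + ω * (ϖ : D) ^ i * v' j) ∧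
      (∀ j, τ (v' j) - v' j = v' j * ((ϖ : D) ^ n * l')) ∧
      (∀ j, τ (V j) = V j) ∧
      τ P - P = P * ((ϖ : D) ^ n * (ε - l')) * H := by
  obtain ⟨ω, κ', h1, h2, ⟨a, ha⟩, h3⟩ := hτ.level_u h.pos h.unif h.unif_ne_zero (i := i + 1)
    (k := 2 * i + 1) (by omega) hP.eu hP.ev
  obtain ⟨l', ⟨b, hb⟩, h4⟩ := hτ.level_v h.pos h.unif h.unif_ne_zero (k := 2 * i + 1) hP.ev
  have hϖn : (ϖ : D) ^ n ∈ maximalIdeal D := Ideal.pow_mem_of_mem _ h.unif _ h.pos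
  have hE : IsUnit (1 + (ϖ : D) ^ n * l') := isUnit_one_add_mul hϖn l'
  have ht0 := hP.t_ne_zero h
  have h5 : τ ϖ = ϖ * (1 + (ϖ : D) ^ n * ε) := by rw [hτ.unif]; ring
  obtain ⟨H, -, hH, h6, h7⟩ := eigen_quot ht0 hP.eP (h4 m) h5 hE
  have e0 : 2 * i + 1 - (i + 1) = i := by omega
  refine ⟨ω, κ', l', H, h1, h2, ⟨a, ?_⟩, ⟨b, ?_⟩, hH, fun j => ?_, fun j => ?_, fun j => ?_, ?_⟩
  · rw [ha]
    push_cast
    ring
  · rw [hb]
    push_cast
    ring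
  · rw [h3 j, e0]
    ring
  · rw [h4 j]
    ring
  · obtain ⟨H', -, hH', h8, h9⟩ := eigen_quot ht0 (hP.eV j) (h4 m) (h4 j) hE
    rw [sub_self, mul_zero, zero_mul] at h9
    exact sub_eq_zero.1 h9
  · rw [h7]
    ring
-- END P5

-- BEGIN P6
/-- Elements divisible by `ϖ ^ i t P`. -/
theorem p6_aux (hP : PHyp ϖ u v n i u' v' m V P) {x : D} (hx : i < n ∨ ∃ a, x = a * (ϖ : D)) :
    ∃ b, (ϖ : D) ^ n * x = b * P * ((ϖ : D) ^ i * v' m) := by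
  have eP := hP.eP
  rcases hx with hi | ⟨a, rfl⟩
  · obtain ⟨d, rfl⟩ := Nat.exists_eq_add_of_le (Nat.succ_le_of_lt hi)
    refine ⟨(ϖ : D) ^ d * x, ?_⟩
    have h1 : (ϖ : D) ^ (i.succ + d) = (ϖ : D) ^ i * (ϖ : D) * (ϖ : D) ^ d := by
      rw [pow_add, Nat.succ_eq_add_one, pow_succ]
    rw [h1]
    linear_combination (-((ϖ : D) ^ i * (ϖ : D) ^ d * x)) * eP
  · obtain ⟨d, rfl⟩ := Nat.exists_eq_add_of_le hP.le
    refine ⟨(ϖ : D) ^ d * a, ?_⟩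
    rw [pow_add]
    linear_combination (-((ϖ : D) ^ i * (ϖ : D) ^ d * a)) * eP

/-- TASK P6. The augmentation ideal in case P is `(ϖ ^ i t)`, `t = v' m`, `y = u'_m` (`principal_of`, T1; `ϖ ^ i t ≠ 0`):
`τ u'_m - u'_m = ϖ ^ n κ' u'_m + ω ϖ ^ i t` and `ϖ ^ n κ' = ϖ ^ i t P b`: for `i < n` since `ϖ ^ n = ϖ ^ i (t P) ϖ ^ (n - i - 1)`, for `i = n`
since `κ' = a ϖ = a t P`; so `τ u'_m - u'_m = ϖ ^ i t (ω + P b u'_m)`, a unit multiple (`isUnit_add_of`, T1). All differences are multiples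
of `ϖ ^ i t`: `diff_of_dcl` on `A ∪ pSet`; `A`: `WTau.aug_dvd`: `ϖ ^ (n + 1) = ϖ ^ n t P`, `u_j = ϖ ^ i t P u'_j`, `v_j = ϖ ^ (2 i + 1) t V_j`;
`u'_j`, `v'_j = t V_j`, `V_j`: P5; `P`: P5, for `i < n` as before, for `i = n`: `ε - l' = a ϖ = a t P`. -/
theorem PHyp.principal (h : WHyp A ϖ c u v n) (hP : PHyp ϖ u v n i u' v' m V P)
    (hτ : WTau τ ϖ c u v n ε κ l μ) (htop : dcl ((A : Set D) ∪ pSet u' v' V P) = ⊤) :
    ∃ y, τ y - y ≠ 0 ∧ ∀ w, ∃ a, τ w - w = a * (τ y - y) := by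
  obtain ⟨ω, κ', l', H, -, hωu, ⟨aκ, hκ'⟩, ⟨al, hl'⟩, -, hu', hv', hV, hPt⟩ := hP.exists_tau h hτ
  have eP := hP.eP
  have hi := hP.le
  have hκ : i < n ∨ ∃ a, κ' = a * (ϖ : D) := by
    rcases Nat.lt_or_ge i n with h1 | h1
    · exact Or.inl h1
    · have h2 : i = n := le_antisymm hi h1
      refine Or.inr ⟨aκ, ?_⟩
      rw [hκ', h2]
      ring
  have hεl : i < n ∨ ∃ a, ε - l' = a * (ϖ : D) := by
    rcases Nat.lt_or_ge i n with h1 | h1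
    · exact Or.inl h1
    · have h2 : i = n := le_antisymm hi h1
      refine Or.inr ⟨-al, ?_⟩
      rw [hl', h2]
      ring
  obtain ⟨b, hb⟩ := p6_aux hP hκ
  obtain ⟨b', hb'⟩ := p6_aux hP hεl
  obtain ⟨b'', hb''⟩ := p6_aux hP (x := (ϖ : D)) (Or.inr ⟨1, by ring⟩)
  have hd0 : (ϖ : D) ^ i * v' m ≠ 0 :=
    mul_ne_zero (pow_ne_zero _ h.unif_ne_zero) (hP.t_ne_zero h)
  have hall : ∀ w, ∃ a, τ w - w = a * ((ϖ : D) ^ i * v' m) := by
    intro w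
    refine diff_of_dcl (S := (A : Set D) ∪ pSet u' v' V P) ?_ w (by rw [htop]; trivial)
    rintro z (hz | (⟨j, rfl⟩ | ⟨j, rfl⟩) | ⟨j, rfl⟩ | rfl)
    · refine hτ.aug_dvd ⟨b'' * P, ?_⟩ (fun j => ⟨P * u' j, ?_⟩)
        (fun j => ⟨(ϖ : D) ^ (i + 1) * V j, ?_⟩) ⟨z, hz⟩
      · rw [pow_succ]
        exact hb''
      · rw [← hP.eu j, pow_succ]
        linear_combination (-((ϖ : D) ^ i * u' j)) * eP
      · rw [← hP.ev j, ← hP.eV j]
        have h1 : (ϖ : D) ^ (2 * i + 1) = (ϖ : D) ^ i * (ϖ : D) ^ (i + 1) := by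
          rw [← pow_add]
          congr 1
          ring
        rw [h1]
        ring
    · refine ⟨b * P * u' j + ω * V j, ?_⟩
      rw [hu' j, ← hP.eV j]
      linear_combination u' j * hb
    · refine ⟨V j * (ϖ : D) ^ (n - i) * l', ?_⟩
      rw [hv' j, ← hP.eV j]
      have h1 : (ϖ : D) ^ n = (ϖ : D) ^ i * (ϖ : D) ^ (n - i) := by
        rw [← pow_add]
        congr 1
        omega
      rw [h1]
      ring
    · exact ⟨0, by rw [hV j]; ring⟩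
    · refine ⟨z * (b' * z) * H, ?_⟩
      rw [hPt]
      linear_combination (z * H) * hb'
  refine principal_of (c := (ϖ : D) ^ i * v' m) (y := u' m) (t := ω + P * (b * u' m)) hd0
    (isUnit_add_of hωu (Ideal.mul_mem_right _ _ hP.mP)) ?_ hall
  rw [hu' m]
  linear_combination u' m * hb
-- END P6

end Tau

end Pool.Agent.Lib.MP_6a3dac_ag.W3
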