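import Pool.Agent.Lib.MP_6a3dac_ag.W3.CaseL

/-!
# The case in which some `u'_m` divides everything
-/

set_option autoImplicit false
set_option linter.unusedSectionVars false
set_option linter.unusedVariables false

namespace Pool.Agent.Lib.MP_6a3dac_ag.W3

open IsLocalRing
open Pool.Agent.Lib.MP_6a3dac_ag Pool.Agent.Lib.MP_6a3dac_ag.QD

variable {D : Type} [CommRing D] [IsDomain D] [IsLocalRing D] {A : Subring D} {J : Type}
  [Fintype J] [DecidableEq J] {ϖ c : A} {u v : J → A} {n : ℕ}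

/-- Case U: with `w = u' m`: `u' = w U`, `v' = w W`, `ϖ = w P`; all `u'_j`, `v'_j`, `W_j` are in the maximal ideal. -/
structure UHyp (ϖ : A) (u v : J → A) (n i : ℕ) (u' v' : J → D) (m : J) (U W : J → D) (P : D) :
    Prop where
  lev : Lev ϖ u v i u' v'
  le : i ≤ n
  mu : ∀ j, u' j ∈ maximalIdeal D
  mv : ∀ j, v' j ∈ maximalIdeal D
  mW : ∀ j, W j ∈ maximalIdeal D
  eU : ∀ j, u' m * U j = u' j
  eW : ∀ j, u' m * W j = v' j
  eP : u' m * P = ϖ

/-- The elements adjoined in case U. -/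
def uSet (u' v' U W : J → D) (P : D) : Set D := levSet u' v' ∪ (Set.range U ∪ Set.range W ∪ {P})

variable {i : ℕ} {u' v' : J → D} {m : J} {U W : J → D} {P : D}

theorem UHyp.w_ne_zero (h : WHyp A ϖ c u v n) (hU : UHyp ϖ u v n i u' v' m U W P) : u' m ≠ 0 := by
  intro h0
  apply h.unif_ne_zero
  rw [← hU.eP, h0, zero_mul]

theorem UHyp.U_self (h : WHyp A ϖ c u v n) (hU : UHyp ϖ u v n i u' v' m U W P) : U m = 1 := by
  apply mul_left_cancel₀ (hU.w_ne_zero h)
  rw [hU.eU, mul_one]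

section Pr

variable {R : Subring D} (hA : A ≤ R) (hR : uSet u' v' U W P ⊆ R)

-- BEGIN U1
include hR in
theorem u1_mem_u (j : J) : u' j ∈ R := hR (Or.inl (Or.inl ⟨j, rfl⟩))

include hR in
theorem u1_mem_v (j : J) : v' j ∈ R := hR (Or.inl (Or.inr ⟨j, rfl⟩))

include hR in
theorem u1_mem_U (j : J) : U j ∈ R := hR (Or.inr (Or.inl (Or.inl ⟨j, rfl⟩)))

include hR in
theorem u1_mem_W (j : J) : W j ∈ R := hR (Or.inr (Or.inl (Or.inr ⟨j, rfl⟩)))

include hR in
theorem u1_mem_P : P ∈ R := hR (Or.inr (Or.inr rfl))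

include hA hR in
theorem u1_aI (hU : UHyp ϖ u v n i u' v' m U W P) {k : ℕ} (hk : i + 1 ≤ k) :
    aI ϖ u k ≤ mulId R hA ((ϖ : D) ^ i * u' m) := by
  obtain ⟨d, rfl⟩ := Nat.exists_eq_add_of_le hk
  apply aI_le hA
  · refine ⟨P * (ϖ : D) ^ d, R.mul_mem (u1_mem_P hR) (R.pow_mem (hA ϖ.2) d), ?_⟩
    linear_combination (-(ϖ : D) ^ i * (ϖ : D) ^ d) * hU.eP
  · intro j
    refine ⟨U j, u1_mem_U hR j, ?_⟩
    linear_combination -(hU.lev.eu j) - (ϖ : D) ^ i * hU.eU j

include hA hR in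
/-- TASK U1 (three statements). With `w = u' m`. `K_{2 i + 1}`: `p = ϖ ^ (2 i) w`: `kI_le` with `p₁ = ϖ ^ i`, `p₂ = ϖ ^ i w`, `v_j = ϖ ^ (2 i) w W_j`.
Membership: `ϖ ^ i u_m` (`pu_mem_kI`; `(2 i + 1) / 2 = i`). -/
theorem UHyp.pr_kI_one (hU : UHyp ϖ u v n i u' v' m U W P) :
    Pr R (kI ϖ u v (2 * i + 1)) ((ϖ : D) ^ (2 * i) * u' m) := by
  have e1 : (2 * i + 1) / 2 = i := by omega
  have e2 : (2 * i + 1 + 1) / 2 = i + 1 := by omega
  have hle : kI ϖ u v (2 * i + 1) ≤ mulId R hA ((ϖ : D) ^ (2 * i) * u' m) := by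
    apply kI_le hA (p₁ := (ϖ : D) ^ i) (p₂ := (ϖ : D) ^ i * u' m) (c := 1)
    · rw [e1]
      apply aI_le hA
      · exact ⟨1, R.one_mem, by ring⟩
      · intro j
        exact ⟨u' j, u1_mem_u hR j, (hU.lev.eu j).symm⟩
    · rw [e2]
      exact u1_aI hA hR hU le_rfl
    · exact R.one_mem
    · ring
    · intro j
      refine ⟨W j, u1_mem_W hR j, ?_⟩
      linear_combination -(hU.lev.ev j) - (ϖ : D) ^ (2 * i) * hU.eW j
  have hmem := pu_mem_kI ϖ u v (2 * i + 1) m
  rw [e1] at hmem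
  refine pr_of_le hA hle isUnit_one hmem ?_
  push_cast
  linear_combination (-(ϖ : D) ^ i) * hU.lev.eu m

include hA hR in
/-- `aI k ≤ (ϖ ^ i w)` for `k ≥ i + 1`. -/
theorem UHyp.aI_le (hU : UHyp ϖ u v n i u' v' m U W P) {k : ℕ} (hk : i + 1 ≤ k) :
    aI ϖ u k ≤ mulId R hA ((ϖ : D) ^ i * u' m) := u1_aI hA hR hU hk

include hA hR in
/-- The last ideal for `i = n`: `p = ϖ ^ (2 n) w`; `v_j - c ϖ ^ n u_j = ϖ ^ (2 n) w (W_j - c U_j)`, …, membership: `W_m - c U_m = W_m - c` is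
a unit, since `W_m` is in the maximal ideal. -/
theorem UHyp.pr_sI_eq (h : WHyp A ϖ c u v n) (hU : UHyp ϖ u v n i u' v' m U W P) (hi : i = n) :
    Pr R (sI ϖ u v c n) ((ϖ : D) ^ (2 * n) * u' m) := by
  subst hi
  have hle : sI ϖ u v c i ≤ mulId R hA ((ϖ : D) ^ (2 * i) * u' m) := by
    apply sI_le hA
    · intro j
      refine ⟨W j - c * U j, R.sub_mem (u1_mem_W hR j) (R.mul_mem (hA c.2) (u1_mem_U hR j)), ?_⟩
      linear_combination -(hU.lev.ev j) - (ϖ : D) ^ (2 * i) * hU.eW j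
        + (c : D) * (ϖ : D) ^ i * hU.lev.eu j + (c : D) * (ϖ : D) ^ (2 * i) * hU.eU j
    · intro j k
      refine ⟨U j * u' k, R.mul_mem (u1_mem_U hR j) (u1_mem_u hR k), ?_⟩
      linear_combination -(u k : D) * hU.lev.eu j - (ϖ : D) ^ i * u' j * hU.lev.eu k
        - (ϖ : D) ^ (2 * i) * u' k * hU.eU j
    · intro j
      refine ⟨U j * ϖ, R.mul_mem (u1_mem_U hR j) (hA ϖ.2), ?_⟩
      linear_combination -(ϖ : D) ^ (i + 1) * hU.lev.eu j
        - (ϖ : D) ^ (2 * i + 1) * hU.eU j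
    · refine ⟨P, u1_mem_P hR, ?_⟩
      linear_combination -(ϖ : D) ^ (2 * i) * hU.eP
  have hunit : IsUnit (-(c : D) + W m) := isUnit_add_of h.unit.neg (hU.mW m)
  refine pr_of_le hA hle hunit (s_mem_sI ϖ u v c i m) ?_
  push_cast
  linear_combination -(hU.lev.ev m) - (ϖ : D) ^ (2 * i) * hU.eW m
        + (c : D) * (ϖ : D) ^ i * hU.lev.eu m
-- END U1

end Pr

-- BEGIN U2
/-- TASK U2. The ring of case U is regular: from `Lev.prs` by `PRS.blow` (A3) with `k₀ = some (Sum.inl m)`,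
`w = fam P (Function.update U m (u' m)) W`, `e = 1` except `e k₀ = 0`. The ring is the same as `u' m ∈ levSet`, `U m = 1`. -/
theorem UHyp.prs (h : WHyp A ϖ c u v n) (hU : UHyp ϖ u v n i u' v' m U W P) :
    PRS (dcl ((A : Set D) ∪ uSet u' v' U W P)) (fam P (Function.update U m (u' m)) W) := by
  have h1 := hU.lev.prs h
  have h2 := PRS.blow (w := fam P (Function.update U m (u' m)) W)
    (e := fam 1 (Function.update (fun _ => 1) m 0) (fun _ => 1)) (k₀ := some (Sum.inl m)) h1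
    (by rw [fam_inl]; exact hU.mu m) (by rw [fam_inl, Function.update_self])
    (by
      rintro (_ | j | j)
      · simp only [fam_none, fam_inl, pow_one]
        exact hU.eP
      · simp only [fam_inl]
        rcases eq_or_ne j m with rfl | hj
        · simp only [Function.update_self, pow_zero, one_mul]
        · rw [Function.update_of_ne hj, Function.update_of_ne hj, pow_one]
          exact hU.eU j
      · simp only [fam_inl, fam_inr, pow_one]
        exact hU.eW j)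
  rw [dcl_dcl_range] at h2
  have e : dcl ((A : Set D) ∪ levSet u' v' ∪ Set.range (fam P (Function.update U m (u' m)) W))
      = dcl ((A : Set D) ∪ uSet u' v' U W P) := by
    apply le_antisymm
    · refine dcl_le (dom_dcl _) ?_
      rintro z ((hz | hz) | ⟨o, rfl⟩)
      · exact subset_dcl _ (Or.inl hz)
      · exact subset_dcl _ (Or.inr (Or.inl hz))
      · rcases o with _ | j | j
        · exact subset_dcl _ (Or.inr (Or.inr (Or.inr rfl)))
        · rw [fam_inl]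
          rcases eq_or_ne j m with rfl | hj
          · rw [Function.update_self]
            exact subset_dcl _ (Or.inr (Or.inl (Or.inl ⟨j, rfl⟩)))
          · rw [Function.update_of_ne hj]
            exact subset_dcl _ (Or.inr (Or.inr (Or.inl (Or.inl ⟨j, rfl⟩))))
        · exact subset_dcl _ (Or.inr (Or.inr (Or.inl (Or.inr ⟨j, rfl⟩))))
    · refine dcl_le (dom_dcl _) ?_
      rintro z (hz | hz | (⟨j, rfl⟩ | ⟨j, rfl⟩) | hz)
      · exact subset_dcl _ (Or.inl (Or.inl hz))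
      · exact subset_dcl _ (Or.inl (Or.inr hz))
      · rcases eq_or_ne j m with rfl | hj
        · rw [hU.U_self h]
          exact Subring.one_mem _
        · refine subset_dcl _ (Or.inr ⟨some (Sum.inl j), ?_⟩)
          rw [fam_inl, Function.update_of_ne hj]
      · exact subset_dcl _ (Or.inr ⟨some (Sum.inr j), rfl⟩)
      · rw [Set.mem_singleton_iff.mp hz]
        exact subset_dcl _ (Or.inr ⟨none, rfl⟩)
  rw [e] at h2
  exact h2
-- END U2

section Tau

variable {τ : D →+* D} {ε κ l μ : D}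

-- BEGIN U3
/-- TASK U3. The automorphism in case U. From T3 (`level_u`, `level_v` with `k = 2 i`): with
`ψ = 1 + ϖ ^ n κ' + ω ϖ ^ i W_m`: `τ (u'_m) = u'_m ψ` (as `v'_m = u'_m W_m`), a unit, `H = ψ⁻¹`. Apply `τ` to
`w U_j = u'_j`, `w W_j = v'_j`, `w P = ϖ` and cancel `w`. -/
theorem UHyp.exists_tau (h : WHyp A ϖ c u v n) (hU : UHyp ϖ u v n i u' v' m U W P)
    (hτ : WTau τ ϖ c u v n ε κ l μ) :
    ∃ ω κ' l' H : D, (∃ a, ω = 1 + a * ϖ) ∧ IsUnit ω ∧ (∃ a, κ' = (n + 1 - i) * ε + a * ϖ) ∧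
      (∃ a, l' = (2 * n + 2 - 2 * i) * ε + a * ϖ) ∧
      (1 + (ϖ : D) ^ n * κ' + ω * (ϖ : D) ^ i * W m) * H = 1 ∧ IsUnit H ∧
      (∀ j, τ (u' j) - u' j = u' j * ((ϖ : D) ^ n * κ') + ω * (ϖ : D) ^ i * v' j) ∧
      (∀ j, τ (v' j) - v' j = v' j * ((ϖ : D) ^ n * l')) ∧
      τ (u' m) - u' m = u' m * ((ϖ : D) ^ n * κ' + ω * (ϖ : D) ^ i * W m) ∧
      (∀ j, τ (U j) - U j = ω * (ϖ : D) ^ i * (W j - U j * W m) * H) ∧
      (∀ j, τ (W j) - W j = W j * ((ϖ : D) ^ n * (l' - κ') - ω * (ϖ : D) ^ i * W m) * H) ∧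
      τ P - P = P * ((ϖ : D) ^ n * (ε - κ') - ω * (ϖ : D) ^ i * W m) * H := by
  obtain ⟨ω, κ', hω, hωu, hκ', hu'⟩ := hτ.level_u h.pos h.unif h.unif_ne_zero
    (by omega : i ≤ 2 * i) hU.lev.eu hU.lev.ev
  obtain ⟨l', hl', hv'⟩ := hτ.level_v h.pos h.unif h.unif_ne_zero hU.lev.ev
  have ei : 2 * i - i = i := by omega
  rw [ei] at hu'
  have hw0 := hU.w_ne_zero h
  have hmax : (ϖ : D) ^ n * κ' + ω * (ϖ : D) ^ i * W m ∈ maximalIdeal D := by
    apply Ideal.add_mem
    · apply Ideal.mul_mem_right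
      exact Ideal.pow_mem_of_mem _ h.unif n h.pos
    · exact Ideal.mul_mem_left _ _ (hU.mW m)
  have hψ : IsUnit (1 + (ϖ : D) ^ n * κ' + ω * (ϖ : D) ^ i * W m) := by
    rw [add_assoc]
    exact isUnit_one_add hmax
  obtain ⟨H, hH⟩ := hψ.exists_right_inv
  have hHu : IsUnit H := IsUnit.of_mul_eq_one _ (by rw [mul_comm]; exact hH)
  have hwτ : τ (u' m) = u' m * (1 + (ϖ : D) ^ n * κ' + ω * (ϖ : D) ^ i * W m) := by
    rw [hu' m]
    linear_combination (-ω * (ϖ : D) ^ i) * hU.eW m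
  have key : ∀ x y f : D, u' m * x = y → τ y = u' m * f →
      τ x * (1 + (ϖ : D) ^ n * κ' + ω * (ϖ : D) ^ i * W m) = f := by
    intro x y f hxy hy
    apply mul_left_cancel₀ hw0
    have h3 : τ (u' m) * τ x = τ y := by rw [← map_mul, hxy]
    rw [hwτ, hy] at h3
    linear_combination h3
  have key2 : ∀ x f : D, τ x * (1 + (ϖ : D) ^ n * κ' + ω * (ϖ : D) ^ i * W m) = f →
      τ x - x = (f - x * (1 + (ϖ : D) ^ n * κ' + ω * (ϖ : D) ^ i * W m)) * H := by
    intro x f hx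
    linear_combination H * hx + (x - τ x) * hH
  have hω1 : ∃ a : D, (ω : D) = 1 + a * (ϖ : D) := by
    obtain ⟨a, ha⟩ := hω
    first
    | exact ⟨a, ha⟩
    | exact ⟨a, by rw [ha]; push_cast; rfl⟩
  have hω2 : IsUnit (ω : D) := by
    first
    | exact hωu
    | exact hωu.map A.subtype
  refine ⟨ω, κ', l', H, hω1, hω2, hκ', ?_, hH, hHu, ?_, ?_, ?_, ?_, ?_, ?_⟩
  · obtain ⟨a, ha⟩ := hl'
    refine ⟨a, ?_⟩
    rw [ha]
    push_cast
    ring
  · intro j
    rw [hu' j]; ring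
  · intro j
    rw [hv' j]; ring
  · rw [hwτ]; ring
  · intro j
    have h3 := key (U j) (u' j) (U j * (1 + (ϖ : D) ^ n * κ') + ω * (ϖ : D) ^ i * W j) (hU.eU j)
      (by
        rw [hu' j]
        linear_combination (-(1 + (ϖ : D) ^ n * κ')) * hU.eU j - ω * (ϖ : D) ^ i * hU.eW j)
    rw [key2 _ _ h3]; ring
  · intro j
    have h3 := key (W j) (v' j) (W j * (1 + (ϖ : D) ^ n * l')) (hU.eW j)
      (by
        rw [hv' j]
        linear_combination (-(1 + (ϖ : D) ^ n * l')) * hU.eW j)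
    rw [key2 _ _ h3]; ring
  · have h3 := key P ϖ (P * (1 + ε * (ϖ : D) ^ n)) hU.eP
      (by
        rw [hτ.unif]
        linear_combination (-(1 + ε * (ϖ : D) ^ n)) * hU.eP)
    rw [key2 _ _ h3]; ring
-- END U3

end Tau

section One

/-- Case U1: `w = u' m` divides all `W_j = w Z_j`. -/
structure U1Hyp (ϖ : A) (u v : J → A) (n i : ℕ) (u' v' : J → D) (m : J) (U W : J → D) (P : D)
    (Z : J → D) : Prop where
  hyp : UHyp ϖ u v n i u' v' m U W P
  eZ : ∀ j, u' m * Z j = W j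

variable {Z : J → D} {R : Subring D} (hA : A ≤ R) (hR : uSet u' v' U W P ⊆ R)
  (hZ : ∀ j, Z j ∈ R)

-- BEGIN U4
include hA hR hZ in
/-- TASK U4 (three statements). `K_l`, `l ≥ 2 i + 2`: `p = ϖ ^ (2 i) w ^ 2`: `kI_le` with `p₁ = p₂ = ϖ ^ i w` (`UHyp.aI_le`), `v_j = ϖ ^ (2 i) w ^ 2 Z_j`.
Membership: `u_m u_m`. -/
theorem U1Hyp.pr_kI (hU : U1Hyp ϖ u v n i u' v' m U W P Z) {l : ℕ} (hl : 2 * i + 2 ≤ l) :
    Pr R (kI ϖ u v l) ((ϖ : D) ^ (2 * i) * u' m ^ 2) := by
  have hle : kI ϖ u v l ≤ mulId R hA ((ϖ : D) ^ (2 * i) * u' m ^ 2) := by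
    apply kI_le hA (p₁ := (ϖ : D) ^ i * u' m) (p₂ := (ϖ : D) ^ i * u' m) (c := 1)
    · exact hU.hyp.aI_le hA hR (by omega)
    · exact hU.hyp.aI_le hA hR (by omega)
    · exact R.one_mem
    · ring
    · intro j
      refine ⟨Z j, hZ j, ?_⟩
      linear_combination -(hU.hyp.lev.ev j) - (ϖ : D) ^ (2 * i) * hU.hyp.eW j
        - (ϖ : D) ^ (2 * i) * u' m * hU.eZ j
  refine pr_of_le hA hle isUnit_one (uu_mem_kI ϖ u v l m m) ?_
  push_cast
  linear_combination (-((u m : D)) - (ϖ : D) ^ i * u' m) * hU.hyp.lev.eu m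

include hA hR hZ in
/-- `R_i`: `p = ϖ ^ (4 i) w ^ 3`: `rI_le` with `p₁ = ϖ ^ (2 i) w ^ 2`, `p₂ = ϖ ^ i w`; membership: `cube_mem_rI` with `u_m`. `R_k`, `k ≥ i + 1`:
`p = ϖ ^ (4 i) w ^ 4` (`ϖ ^ k` is a multiple of `ϖ ^ i w`); membership: `(u_m u_m) (u_m u_m)`, `sq_mem_rI`. -/
theorem U1Hyp.pr_rI (hU : U1Hyp ϖ u v n i u' v' m U W P Z) {k : ℕ} (hk : i ≤ k) :
    Pr R (rI ϖ u v k) ((ϖ : D) ^ (4 * i) * u' m ^ (if k = i then 3 else 4)) := by
  have hP : P ∈ R := u1_mem_P hR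
  have hu : ∀ j, (u j : D) = (ϖ : D) ^ i * u' m * U j := by
    intro j
    linear_combination -(hU.hyp.lev.eu j) - (ϖ : D) ^ i * hU.hyp.eU j
  have hv : ∀ j, (v j : D) = (ϖ : D) ^ (2 * i) * u' m ^ 2 * Z j := by
    intro j
    linear_combination -(hU.hyp.lev.ev j) - (ϖ : D) ^ (2 * i) * hU.hyp.eW j
        - (ϖ : D) ^ (2 * i) * u' m * hU.eZ j
  have hum : (u m : D) = (ϖ : D) ^ i * u' m := (hU.hyp.lev.eu m).symm
  have hw : u' m ∈ R := u1_mem_u hR m
  rcases eq_or_lt_of_le hk with rfl | hk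
  · rw [if_pos rfl]
    have hle : rI ϖ u v i ≤ mulId R hA ((ϖ : D) ^ (4 * i) * u' m ^ 3) := by
      apply rI_le hA (p₁ := (ϖ : D) ^ (2 * i) * u' m ^ 2) (p₂ := (ϖ : D) ^ i * u' m)
        (c₁ := u' m) (c₂ := 1)
      · exact (hU.pr_kI hA hR hZ le_rfl).1
      · exact hw
      · ring
      · exact hU.hyp.aI_le hA hR le_rfl
      · exact R.one_mem
      · ring
      · intro j
        refine ⟨P * Z j, R.mul_mem hP (hZ j), ?_⟩
        rw [hv j]
        linear_combination (-(ϖ : D) ^ (4 * i) * u' m ^ 2 * Z j) * hU.hyp.eP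
      · intro j k
        refine ⟨U j * Z k - U k * Z j, R.sub_mem (R.mul_mem (u1_mem_U hR j) (hZ k))
          (R.mul_mem (u1_mem_U hR k) (hZ j)), ?_⟩
        rw [hv j, hv k, hu j, hu k]
        ring
    refine pr_of_le hA hle isUnit_one
      (cube_mem_rI ϖ u v i (u_mem_aI ϖ u (i + 1) m) (u_mem_aI ϖ u (i + 1) m)
        (u_mem_aI ϖ u (i + 1) m)) ?_
    push_cast
    rw [hum]
    ring
  · rw [if_neg (by omega)]
    obtain ⟨d, rfl⟩ := Nat.exists_eq_add_of_lt hk
    have hϖ : (ϖ : D) ^ (i + d + 1) = (ϖ : D) ^ i * u' m * P * (ϖ : D) ^ d := by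
      linear_combination (-(ϖ : D) ^ i * (ϖ : D) ^ d) * hU.hyp.eP
    have hle : rI ϖ u v (i + d + 1) ≤ mulId R hA ((ϖ : D) ^ (4 * i) * u' m ^ 4) := by
      apply rI_le hA (p₁ := (ϖ : D) ^ (2 * i) * u' m ^ 2) (p₂ := (ϖ : D) ^ i * u' m)
        (c₁ := 1) (c₂ := P * (ϖ : D) ^ d)
      · exact (hU.pr_kI hA hR hZ (by omega)).1
      · exact R.one_mem
      · ring
      · exact hU.hyp.aI_le hA hR (by omega)
      · exact R.mul_mem hP (R.pow_mem (hA ϖ.2) d)
      · rw [hϖ]; ring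
      · intro j
        refine ⟨P ^ 2 * ((ϖ : D) ^ d) ^ 2 * ϖ * Z j, R.mul_mem (R.mul_mem (R.mul_mem
          (R.pow_mem hP 2) (R.pow_mem (R.pow_mem (hA ϖ.2) d) 2)) (hA ϖ.2)) (hZ j), ?_⟩
        rw [hv j, pow_succ (ϖ : D) (i + d + 1), hϖ]
        ring
      · intro j k
        refine ⟨P * (ϖ : D) ^ d * (U j * Z k - U k * Z j), R.mul_mem (R.mul_mem hP
          (R.pow_mem (hA ϖ.2) d)) (R.sub_mem (R.mul_mem (u1_mem_U hR j) (hZ k))
          (R.mul_mem (u1_mem_U hR k) (hZ j))), ?_⟩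
        rw [hv j, hv k, hu j, hu k, hϖ]
        ring
    refine pr_of_le hA hle isUnit_one
      (sq_mem_rI ϖ u v (i + d + 1) (uu_mem_kI ϖ u v _ m m) (uu_mem_kI ϖ u v _ m m)) ?_
    push_cast
    rw [hum]
    ring

include hA hR hZ in
/-- The last ideal for `i < n`: `p = ϖ ^ (2 i) w ^ 2`: `v_j - c ϖ ^ n u_j = ϖ ^ (2 i) w (w Z_j - c ϖ ^ (n - i) U_j)` and `ϖ ^ (n - i)` is a
multiple of `w`. Membership: `u_m u_m`. -/
theorem U1Hyp.pr_sI_lt (hU : U1Hyp ϖ u v n i u' v' m U W P Z) (hi : i < n) :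
    Pr R (sI ϖ u v c n) ((ϖ : D) ^ (2 * i) * u' m ^ 2) := by
  have hP : P ∈ R := u1_mem_P hR
  have hu : ∀ j, (u j : D) = (ϖ : D) ^ i * u' m * U j := by
    intro j
    linear_combination -(hU.hyp.lev.eu j) - (ϖ : D) ^ i * hU.hyp.eU j
  have hv : ∀ j, (v j : D) = (ϖ : D) ^ (2 * i) * u' m ^ 2 * Z j := by
    intro j
    linear_combination -(hU.hyp.lev.ev j) - (ϖ : D) ^ (2 * i) * hU.hyp.eW j
        - (ϖ : D) ^ (2 * i) * u' m * hU.eZ j
  have hum : (u m : D) = (ϖ : D) ^ i * u' m := (hU.hyp.lev.eu m).symm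
  obtain ⟨d, rfl⟩ := Nat.exists_eq_add_of_lt hi
  have hϖ : (ϖ : D) ^ (i + d + 1) = (ϖ : D) ^ i * u' m * P * (ϖ : D) ^ d := by
    linear_combination (-(ϖ : D) ^ i * (ϖ : D) ^ d) * hU.hyp.eP
  have hd : (ϖ : D) ^ d ∈ R := R.pow_mem (hA ϖ.2) d
  have hle : sI ϖ u v c (i + d + 1) ≤ mulId R hA ((ϖ : D) ^ (2 * i) * u' m ^ 2) := by
    apply sI_le hA
    · intro j
      refine ⟨Z j - c * P * (ϖ : D) ^ d * U j, R.sub_mem (hZ j) (R.mul_mem (R.mul_mem
        (R.mul_mem (hA c.2) hP) hd) (u1_mem_U hR j)), ?_⟩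
      rw [hv j, hu j, hϖ]
      ring
    · intro j k
      refine ⟨U j * U k, R.mul_mem (u1_mem_U hR j) (u1_mem_U hR k), ?_⟩
      rw [hu j, hu k]
      ring
    · intro j
      refine ⟨ϖ * P * (ϖ : D) ^ d * U j, R.mul_mem (R.mul_mem (R.mul_mem (hA ϖ.2) hP) hd)
        (u1_mem_U hR j), ?_⟩
      rw [hu j, pow_succ (ϖ : D) (i + d + 1), hϖ]
      ring
    · refine ⟨ϖ * P ^ 2 * ((ϖ : D) ^ d) ^ 2, R.mul_mem (R.mul_mem (hA ϖ.2) (R.pow_mem hP 2))
        (R.pow_mem hd 2), ?_⟩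
      have e : (ϖ : D) ^ (2 * (i + d + 1) + 1) = ((ϖ : D) ^ (i + d + 1)) ^ 2 * ϖ := by ring
      rw [e, hϖ]
      ring
  refine pr_of_le hA hle isUnit_one (uu_mem_sI ϖ u v c (i + d + 1) m m) ?_
  push_cast
  rw [hum]
  ring
-- END U4

-- BEGIN U5
/-- TASK U5. The ring of case U1: from `UHyp.prs` by `PRS.blow` with `k₀ = some (Sum.inl m)`, `e = 1` on the `inr j`, `e = 0` elsewhere. -/
theorem U1Hyp.prs (h : WHyp A ϖ c u v n) (hU : U1Hyp ϖ u v n i u' v' m U W P Z) :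
    ∃ (κ : Type) (f : κ → D), PRS (dcl ((A : Set D) ∪ (uSet u' v' U W P ∪ Set.range Z))) f := by
  refine ⟨Option (J ⊕ J), fam P (Function.update U m (u' m)) Z, ?_⟩
  have h1 := hU.hyp.prs h
  have h2 := PRS.blow (w := fam P (Function.update U m (u' m)) Z)
    (e := fam 0 (fun _ => 0) (fun _ => 1)) (k₀ := some (Sum.inl m)) h1
    (by rw [fam_inl, Function.update_self]; exact hU.hyp.mu m) (by rw [fam_inl])
    (by
      rintro (_ | j | j)
      · simp only [fam_none, pow_zero, one_mul]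
      · simp only [fam_inl, pow_zero, one_mul]
      · simp only [fam_inl, fam_inr, pow_one, Function.update_self]
        exact hU.eZ j)
  rw [dcl_dcl_range] at h2
  have e : dcl ((A : Set D) ∪ uSet u' v' U W P ∪ Set.range (fam P (Function.update U m (u' m)) Z))
      = dcl ((A : Set D) ∪ (uSet u' v' U W P ∪ Set.range Z)) := by
    apply le_antisymm
    · refine dcl_le (dom_dcl _) ?_
      rintro z ((hz | hz) | ⟨o, rfl⟩)
      · exact subset_dcl _ (Or.inl hz)
      · exact subset_dcl _ (Or.inr (Or.inl hz))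
      · rcases o with _ | j | j
        · exact subset_dcl _ (Or.inr (Or.inl (Or.inr (Or.inr rfl))))
        · rw [fam_inl]
          rcases eq_or_ne j m with rfl | hj
          · rw [Function.update_self]
            exact subset_dcl _ (Or.inr (Or.inl (Or.inl (Or.inl ⟨j, rfl⟩))))
          · rw [Function.update_of_ne hj]
            exact subset_dcl _ (Or.inr (Or.inl (Or.inr (Or.inl (Or.inl ⟨j, rfl⟩)))))
        · exact subset_dcl _ (Or.inr (Or.inr ⟨j, rfl⟩))
    · refine dcl_le (dom_dcl _) ?_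
      rintro z (hz | hz | ⟨j, rfl⟩)
      · exact subset_dcl _ (Or.inl (Or.inl hz))
      · exact subset_dcl _ (Or.inl (Or.inr hz))
      · exact subset_dcl _ (Or.inr ⟨some (Sum.inr j), rfl⟩)
  rw [e] at h2
  exact h2
-- END U5

-- BEGIN U6
/-- TASK U6. The augmentation ideal in case U1 is `(ϖ ^ i w)`: `hx` gives `y` with `τ y - y = u_m = ϖ ^ i w` (`principal_of` with
`t = 1`). All differences are multiples: `diff_of_dcl` on `A ∪ (uSet ∪ range Z)`. `A`: `WTau.aug_dvd`: `ϖ ^ (n + 1)`, `u_j = ϖ ^ i w U_j`,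
`v_j = ϖ ^ (2 i) w W_j`. By U3 and `W_j = w Z_j`: clear for `u'_j`, `v'_j`, `U_j`, `W_j`. `P`: `ϖ ^ n (ε - κ')`: for `i < n` it is a multiple of `ϖ ^ i ϖ = ϖ ^ i w P`; for
`i = n`, `ε - κ' = a ϖ`. `Z_j`: apply `τ` to `w Z_j = W_j`:
`(τ Z_j - Z_j) ψ ^ 2 = Z_j (1 + ϖ ^ n l' - ψ ^ 2)`, `ψ = 1 + ϖ ^ n κ' + ω ϖ ^ i w Z_m`, and `1 + ϖ ^ n l' - ψ ^ 2 =
ϖ ^ n (l' - 2 κ') + multiple of ϖ ^ (2 n) or of ϖ ^ i w`; for `i = n`, `l' - 2 κ' = (2 - 2) ε + a ϖ`; `2 n ≥ n + 1`, `ϖ = w P`. -/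
theorem U1Hyp.principal (h : WHyp A ϖ c u v n) (hU : U1Hyp ϖ u v n i u' v' m U W P Z)
    {τ : D →+* D} {ε κ l μ : D} (hτ : WTau τ ϖ c u v n ε κ l μ) (hx : ∀ j, ∃ x, τ x - x = u j)
    (htop : dcl ((A : Set D) ∪ (uSet u' v' U W P ∪ Set.range Z)) = ⊤) :
    ∃ y, τ y - y ≠ 0 ∧ ∀ w, ∃ a, τ w - w = a * (τ y - y) := by
  have hw0 := hU.hyp.w_ne_zero h
  obtain ⟨x, hx⟩ := hx m
  have hin : i ≤ n := hU.hyp.le
  obtain ⟨ω, κ', l', H, -, -, ⟨a₁, ha₁⟩, ⟨a₂, ha₂⟩, hH, -, h_u, h_v, h_w, h_U, h_W, h_P⟩ :=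
    hU.hyp.exists_tau h hτ
  have hc0 : (ϖ : D) ^ i * u' m ≠ 0 := mul_ne_zero (pow_ne_zero i h.unif_ne_zero) hw0
  -- multiples
  have hn : ∃ b, (ϖ : D) ^ n = b * (ϖ : D) ^ i := by
    obtain ⟨d, rfl⟩ := Nat.exists_eq_add_of_le hin
    exact ⟨(ϖ : D) ^ d, by ring⟩
  obtain ⟨b, hb⟩ := hn
  have hn1 : (ϖ : D) ^ (n + 1) = (b * P) * ((ϖ : D) ^ i * u' m) := by
    rw [pow_succ, hb]
    linear_combination (-b * (ϖ : D) ^ i) * hU.hyp.eP
  have hdiff : ∃ b₁, (ϖ : D) ^ n * (ε - κ') = b₁ * ((ϖ : D) ^ i * u' m) ∧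
      ∃ b₂, (ϖ : D) ^ n * (l' - 2 * κ') = b₂ * ((ϖ : D) ^ i * u' m) := by
    rcases eq_or_lt_of_le hin with rfl | hlt
    · refine ⟨-a₁ * (b * P), ?_, (a₂ - 2 * a₁) * (b * P), ?_⟩
      · rw [ha₁]
        linear_combination (-a₁) * hn1
      · rw [ha₁, ha₂]
        linear_combination (a₂ - 2 * a₁) * hn1
    · obtain ⟨d, hd⟩ := Nat.exists_eq_add_of_lt hlt
      have hϖ : (ϖ : D) ^ n = (P * (ϖ : D) ^ d) * ((ϖ : D) ^ i * u' m) := by
        rw [hd]
        linear_combination (-(ϖ : D) ^ i * (ϖ : D) ^ d) * hU.hyp.eP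
      exact ⟨P * (ϖ : D) ^ d * (ε - κ'), by rw [hϖ]; ring,
        P * (ϖ : D) ^ d * (l' - 2 * κ'), by rw [hϖ]; ring⟩
  obtain ⟨b₁, hb₁, b₂, hb₂⟩ := hdiff
  have h2n : (ϖ : D) ^ n * (ϖ : D) ^ n = ((ϖ : D) ^ (n - 1) * (b * P)) * ((ϖ : D) ^ i * u' m) := by
    obtain ⟨n', rfl⟩ : ∃ n', n = n' + 1 := ⟨n - 1, by have := h.pos; omega⟩
    rw [Nat.add_sub_cancel]
    linear_combination (ϖ : D) ^ n' * hn1
  have hall : ∀ w, ∃ a, τ w - w = a * ((ϖ : D) ^ i * u' m) := by
    intro w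
    have hmem : w ∈ dcl ((A : Set D) ∪ (uSet u' v' U W P ∪ Set.range Z)) := by
      rw [htop]; trivial
    refine diff_of_dcl ?_ w hmem
    rintro z (hz | (((⟨j, rfl⟩ | ⟨j, rfl⟩) | ((⟨j, rfl⟩ | ⟨j, rfl⟩) | hz)) | ⟨j, rfl⟩))
    · refine hτ.aug_dvd ⟨_, hn1⟩ (fun j => ⟨U j, ?_⟩) (fun j => ⟨(ϖ : D) ^ i * W j, ?_⟩) ⟨z, hz⟩
      · linear_combination -(hU.hyp.lev.eu j) - (ϖ : D) ^ i * hU.hyp.eU j
      · linear_combination -(hU.hyp.lev.ev j) - (ϖ : D) ^ (2 * i) * hU.hyp.eW j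
    · refine ⟨U j * (b * κ') + ω * W j, ?_⟩
      rw [h_u j, hb]
      linear_combination (-b * (ϖ : D) ^ i * κ') * hU.hyp.eU j
        - ω * (ϖ : D) ^ i * hU.hyp.eW j
    · refine ⟨W j * (b * l'), ?_⟩
      rw [h_v j, hb]
      linear_combination (-b * (ϖ : D) ^ i * l') * hU.hyp.eW j
    · refine ⟨ω * (Z j - U j * Z m) * H, ?_⟩
      rw [h_U j]
      linear_combination (-ω * (ϖ : D) ^ i * H) * hU.eZ j
        + ω * (ϖ : D) ^ i * H * U j * hU.eZ m
    · refine ⟨Z j * (b * (l' - κ') - ω * W m) * H, ?_⟩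
      rw [h_W j, hb]
      linear_combination (-(b * (ϖ : D) ^ i * (l' - κ') - ω * (ϖ : D) ^ i * W m) * H) * hU.eZ j
    · rw [Set.mem_singleton_iff.mp hz]
      refine ⟨P * (b₁ - ω * Z m) * H, ?_⟩
      rw [h_P]
      linear_combination P * H * hb₁ + (P * H * ω * (ϖ : D) ^ i) * hU.eZ m
    · -- `Z_j`
      have h1 : τ (u' m) = u' m * (1 + (ϖ : D) ^ n * κ' + ω * (ϖ : D) ^ i * W m) := by
        linear_combination h_w
      have h2 : τ (W j) * (1 + (ϖ : D) ^ n * κ' + ω * (ϖ : D) ^ i * W m)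
          = W j * (1 + (ϖ : D) ^ n * l') := by
        linear_combination (1 + (ϖ : D) ^ n * κ' + ω * (ϖ : D) ^ i * W m) * h_W j
          + W j * ((ϖ : D) ^ n * (l' - κ') - ω * (ϖ : D) ^ i * W m) * hH
      have h3 : τ (Z j) * (1 + (ϖ : D) ^ n * κ' + ω * (ϖ : D) ^ i * W m) ^ 2
          = Z j * (1 + (ϖ : D) ^ n * l') := by
        apply mul_left_cancel₀ hw0
        have h4 : τ (u' m) * τ (Z j) = τ (W j) := by rw [← map_mul, hU.eZ j]
        rw [h1] at h4
        linear_combination (1 + (ϖ : D) ^ n * κ' + ω * (ϖ : D) ^ i * W m) * h4 + h2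
          - (1 + (ϖ : D) ^ n * l') * hU.eZ j
      refine ⟨Z j * H ^ 2 * (b₂ - κ' ^ 2 * ((ϖ : D) ^ (n - 1) * (b * P)) - 2 * ω * Z m
        - 2 * (ϖ : D) ^ n * κ' * ω * Z m - ω * Z m * (ω * (ϖ : D) ^ i * W m)), ?_⟩
      linear_combination (exp := 1) H ^ 2 * h3 + (Z j * H ^ 2) * hb₂
        - (Z j * H ^ 2 * κ' ^ 2) * h2n
        + (Z j - τ (Z j)) * ((1 + (ϖ : D) ^ n * κ' + ω * (ϖ : D) ^ i * W m) * H + 1) * hH
        + (Z j * H ^ 2 * (2 * ω * (ϖ : D) ^ i + 2 * (ϖ : D) ^ n * κ' * ω * (ϖ : D) ^ i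
          + ω * (ϖ : D) ^ i * (ω * (ϖ : D) ^ i * W m))) * hU.eZ m
  refine principal_of hc0 isUnit_one (y := x) ?_ hall
  rw [hx, mul_one]
  exact (hU.hyp.lev.eu m).symm
-- END U6

end One

section Two

/-- Case U2: `t = W q` divides all `W_j = t V_j` and `w = u' m = t w'`, with `w'` in the maximal ideal. -/
structure U2Hyp (ϖ : A) (u v : J → A) (n i : ℕ) (u' v' : J → D) (m : J) (U W : J → D) (P : D)
    (q : J) (V : J → D) (w' : D) : Prop where
  hyp : UHyp ϖ u v n i u' v' m U W P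
  eV : ∀ j, W q * V j = W j
  ew : W q * w' = u' m
  mw : w' ∈ maximalIdeal D

/-- The elements adjoined in case U2. -/
def u2Set (u' v' U W : J → D) (P : D) (V : J → D) (w' : D) : Set D :=
  uSet u' v' U W P ∪ (Set.range V ∪ {w'})

variable {q : J} {V : J → D} {w' : D}

theorem U2Hyp.t_ne_zero (h : WHyp A ϖ c u v n) (hU : U2Hyp ϖ u v n i u' v' m U W P q V w') :
    W q ≠ 0 := by
  intro h0
  apply hU.hyp.w_ne_zero h
  rw [← hU.ew, h0, zero_mul]

theorem U2Hyp.V_self (h : WHyp A ϖ c u v n) (hU : U2Hyp ϖ u v n i u' v' m U W P q V w') :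
    V q = 1 := by
  apply mul_left_cancel₀ (hU.t_ne_zero h)
  rw [hU.eV, mul_one]

section Pr

variable {R : Subring D} (hA : A ≤ R) (hR : u2Set u' v' U W P V w' ⊆ R)

-- BEGIN U7
theorem u7_uSet_subset {u' v' U W : J → D} {P : D} {V : J → D} {w' : D} {R : Subring D}
    (hR : u2Set u' v' U W P V w' ⊆ R) : uSet u' v' U W P ⊆ R := fun x hx => hR (Or.inl hx)

theorem u7_v_eq (hU : U2Hyp ϖ u v n i u' v' m U W P q V w') (j : J) :
    (v j : D) = (ϖ : D) ^ (2 * i) * (u' m * W q) * V j := by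
  rw [← hU.hyp.lev.ev j, ← hU.hyp.eW j, ← hU.eV j]
  ring

theorem u7_u_eq (hU : U2Hyp ϖ u v n i u' v' m U W P q V w') (j : J) :
    (u j : D) = (ϖ : D) ^ i * (u' m * U j) := by
  rw [← hU.hyp.lev.eu j, ← hU.hyp.eU j]

include hA hR in
/-- TASK U7 (two statements). `K_l`, `l ≥ 2 i + 2`: `p = ϖ ^ (2 i) w t` (`w = u' m`, `t = W q`): `kI_le` with `p₁ = p₂ = ϖ ^ i w` (`UHyp.aI_le`),
`p₁ p₂ = p w'`, `v_j = ϖ ^ (2 i) w t V_j`. Membership: `v_q`. -/
theorem U2Hyp.pr_kI (h : WHyp A ϖ c u v n) (hU : U2Hyp ϖ u v n i u' v' m U W P q V w') {l : ℕ}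
    (hl : 2 * i + 2 ≤ l) : Pr R (kI ϖ u v l) ((ϖ : D) ^ (2 * i) * (u' m * W q)) := by
  have hR' := u7_uSet_subset hR
  have hV : ∀ j, V j ∈ R := fun j => hR (Or.inr (Or.inl ⟨j, rfl⟩))
  have hw' : w' ∈ R := hR (Or.inr (Or.inr rfl))
  have h1 : aI ϖ u (l / 2) ≤ mulId R hA ((ϖ : D) ^ i * u' m) :=
    UHyp.aI_le hA hR' hU.hyp (by omega)
  have h2 : aI ϖ u ((l + 1) / 2) ≤ mulId R hA ((ϖ : D) ^ i * u' m) :=
    UHyp.aI_le hA hR' hU.hyp (by omega)
  have h3 : kI ϖ u v l ≤ mulId R hA ((ϖ : D) ^ (2 * i) * (u' m * W q)) := by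
    refine kI_le hA h1 h2 hw' ?_ fun j => ⟨V j, hV j, u7_v_eq hU j⟩
    linear_combination (-((ϖ : D) ^ (2 * i) * u' m)) * hU.ew
  refine pr_of_le hA h3 isUnit_one (v_mem_kI ϖ u v l q) ?_
  rw [u7_v_eq hU q, U2Hyp.V_self h hU]

include hA hR in
/-- `R_k`, `k ≥ i + 1`: `p = ϖ ^ (4 i) w ^ 2 t ^ 2`; `rI_le` with `p₁ = ϖ ^ (2 i) w t`, `p₂ = ϖ ^ i w`; `ϖ ^ k` is a multiple of `ϖ ^ i w`, `w = t w'`.
Membership: `v_q v_q`. -/
theorem U2Hyp.pr_rI (h : WHyp A ϖ c u v n) (hU : U2Hyp ϖ u v n i u' v' m U W P q V w') {k : ℕ}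
    (hk : i + 1 ≤ k) : Pr R (rI ϖ u v k) ((ϖ : D) ^ (4 * i) * (u' m * W q) ^ 2) := by
  have hR' := u7_uSet_subset hR
  have hV : ∀ j, V j ∈ R := fun j => hR (Or.inr (Or.inl ⟨j, rfl⟩))
  have hw' : w' ∈ R := hR (Or.inr (Or.inr rfl))
  have hUR : ∀ j, U j ∈ R := fun j => hR' (Or.inr (Or.inl (Or.inl ⟨j, rfl⟩)))
  have hP : P ∈ R := hR' (Or.inr (Or.inr rfl))
  have hϖ : (ϖ : D) ∈ R := hA ϖ.2
  obtain ⟨d, rfl⟩ := Nat.exists_eq_add_of_le hk
  have h3 : kI ϖ u v (2 * (i + 1 + d) + 2) ≤ mulId R hA ((ϖ : D) ^ (2 * i) * (u' m * W q)) :=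
    (U2Hyp.pr_kI hA hR h hU (by omega)).1
  have hϖk : (ϖ : D) ^ (i + 1 + d) = (ϖ : D) ^ i * (u' m * P * (ϖ : D) ^ d) := by
    rw [hU.hyp.eP]; ring
  have h4 : rI ϖ u v (i + 1 + d) ≤ mulId R hA ((ϖ : D) ^ (4 * i) * (u' m * W q) ^ 2) := by
    refine rI_le hA h3 (c₁ := 1) R.one_mem (by ring) (UHyp.aI_le hA hR' hU.hyp (by omega))
      (c₂ := w' ^ 2 * P * (ϖ : D) ^ d)
      (R.mul_mem (R.mul_mem (R.pow_mem hw' 2) hP) (R.pow_mem hϖ d)) ?_ ?_ ?_
    · rw [hϖk]
      linear_combination (-((ϖ : D) ^ (4 * i) * u' m ^ 2 * P * (ϖ : D) ^ d *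
        (W q * w' + u' m))) * hU.ew
    · intro j
      refine ⟨w' * P ^ 2 * (ϖ : D) ^ (2 * d + 1) * V j, R.mul_mem (R.mul_mem (R.mul_mem hw'
        (R.pow_mem hP 2)) (R.pow_mem hϖ _)) (hV j), ?_⟩
      rw [pow_succ (ϖ : D) (i + 1 + d), hϖk, u7_v_eq hU j]
      linear_combination (-((ϖ : D) ^ (4 * i) * u' m ^ 2 * W q * P ^ 2 *
        (ϖ : D) ^ (2 * d + 1) * V j)) * hU.ew
    · intro j k
      refine ⟨w' * P * (ϖ : D) ^ d * (U j * V k - U k * V j), R.mul_mem (R.mul_mem (R.mul_mem hw'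
        hP) (R.pow_mem hϖ _)) (R.sub_mem (R.mul_mem (hUR j) (hV k)) (R.mul_mem (hUR k) (hV j))), ?_⟩
      rw [hϖk, u7_v_eq hU j, u7_v_eq hU k, u7_u_eq hU j, u7_u_eq hU k]
      linear_combination (-((ϖ : D) ^ (4 * i) * u' m ^ 2 * W q * P *
        (ϖ : D) ^ d * (U j * V k - U k * V j))) * hU.ew
  refine pr_of_le hA h4 isUnit_one (sq_mem_rI ϖ u v (i + 1 + d) (v_mem_kI ϖ u v _ q)
    (v_mem_kI ϖ u v _ q)) ?_
  rw [Subring.coe_mul, u7_v_eq hU q, U2Hyp.V_self h hU]
  ring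
-- END U7

-- BEGIN U8
theorem u8_mem {R : Subring D} (hR : u2Set u' v' U W P V w' ⊆ R) :
    uSet u' v' U W P ⊆ R ∧ (∀ j, U j ∈ R) ∧ (∀ j, W j ∈ R) ∧ P ∈ R ∧ (∀ j, V j ∈ R) ∧ w' ∈ R :=
  ⟨fun x hx => hR (Or.inl hx), fun j => hR (Or.inl (Or.inr (Or.inl (Or.inl ⟨j, rfl⟩)))),
    fun j => hR (Or.inl (Or.inr (Or.inl (Or.inr ⟨j, rfl⟩)))),
    hR (Or.inl (Or.inr (Or.inr rfl))), fun j => hR (Or.inr (Or.inl ⟨j, rfl⟩)),
    hR (Or.inr (Or.inr rfl))⟩

theorem u8_eu (hU : U2Hyp ϖ u v n i u' v' m U W P q V w') (j : J) :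
    (u j : D) = (ϖ : D) ^ i * u' m * U j := by
  rw [← hU.hyp.lev.eu j, ← hU.hyp.eU j]
  ring

theorem u8_ev (hU : U2Hyp ϖ u v n i u' v' m U W P q V w') (j : J) :
    (v j : D) = (ϖ : D) ^ (2 * i) * u' m * W q * V j := by
  rw [← hU.hyp.lev.ev j, ← hU.hyp.eW j, ← hU.eV j]
  ring

include hA hR in
/-- TASK U8 (three statements). `R_i ≤ (ϖ ^ (4 i) w ^ 2 t)`: `rI_le` with `p₁ = ϖ ^ (2 i) w t`, `p₂ = ϖ ^ i w`:
`ϖ ^ i (ϖ ^ i w) ^ 3 = p w'`, `ϖ ^ i ϖ ^ (i + 1) v_j = ϖ ^ (4 i) w ^ 2 t P V_j`, `ϖ ^ i (u_j v_k - u_k v_j) = ϖ ^ (4 i) w ^ 2 t (U_j V_k - U_k V_j)`. -/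
theorem U2Hyp.rI_le (h : WHyp A ϖ c u v n) (hU : U2Hyp ϖ u v n i u' v' m U W P q V w') :
    rI ϖ u v i ≤ mulId R hA ((ϖ : D) ^ (4 * i) * (u' m ^ 2 * W q)) := by
  obtain ⟨hR', mU, mW, mP, mV, mw⟩ := u8_mem hR
  have e1 : u' m * P = ϖ := hU.hyp.eP
  have e2 : W q * w' = u' m := hU.ew
  have h1 : kI ϖ u v (2 * i + 2) ≤ mulId R hA ((ϖ : D) ^ (2 * i) * (u' m * W q)) :=
    (U2Hyp.pr_kI hA hR h hU (le_refl _)).1
  have h3 : aI ϖ u (i + 1) ≤ mulId R hA ((ϖ : D) ^ i * u' m) :=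
    UHyp.aI_le hA hR' hU.hyp (le_refl _)
  apply Pool.Agent.Lib.MP_6a3dac_ag.W3.rI_le hA h1 (mW q) ?_ h3 mw ?_ ?_ ?_
  · have e3 : 4 * i = 2 * i + 2 * i := by ring
    rw [e3, pow_add]
    ring
  · have e3 : 4 * i = i + (i + i + i) := by ring
    rw [e3, pow_add, pow_add, pow_add]
    linear_combination (-((ϖ : D) ^ i * ((ϖ : D) ^ i * (ϖ : D) ^ i * (ϖ : D) ^ i) * u' m ^ 2)) * e2
  · intro j
    refine ⟨P * V j, R.mul_mem mP (mV j), ?_⟩
    rw [u8_ev hU j]
    have e3 : 4 * i = i + i + 2 * i := by ring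
    rw [e3, pow_add, pow_add, pow_succ]
    linear_combination (-((ϖ : D) ^ i * (ϖ : D) ^ i * (ϖ : D) ^ (2 * i) * u' m * W q * V j)) * e1
  · intro j k
    refine ⟨U j * V k - U k * V j,
      R.sub_mem (R.mul_mem (mU j) (mV k)) (R.mul_mem (mU k) (mV j)), ?_⟩
    rw [u8_ev hU j, u8_ev hU k, u8_eu hU j, u8_eu hU k]
    have e3 : 4 * i = i + i + 2 * i := by ring
    rw [e3, pow_add, pow_add]
    ring

include hA hR in
/-- If `P` or some `U_j V_k - U_k V_j` is a unit then `R_i = (ϖ ^ (4 i) w ^ 2 t)`: membership: `pv_mem_rI` with `v_q`, or `minor_mem_rI`. -/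
theorem U2Hyp.pr_rI_eq (h : WHyp A ϖ c u v n) (hU : U2Hyp ϖ u v n i u' v' m U W P q V w')
    (hun : IsUnit P ∨ ∃ j k, IsUnit (U j * V k - U k * V j)) :
    Pr R (rI ϖ u v i) ((ϖ : D) ^ (4 * i) * (u' m ^ 2 * W q)) := by
  have e1 : u' m * P = ϖ := hU.hyp.eP
  rcases hun with hP | ⟨j, k, hjk⟩
  · refine pr_of_le hA (U2Hyp.rI_le hA hR h hU) hP (pv_mem_rI ϖ u v i q) ?_
    push_cast
    rw [u8_ev hU q, hU.V_self h]
    have e3 : 4 * i = i + i + 2 * i := by ring
    rw [e3, pow_add, pow_add, pow_succ]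
    linear_combination (-((ϖ : D) ^ i * (ϖ : D) ^ i * (ϖ : D) ^ (2 * i) * u' m * W q)) * e1
  · refine pr_of_le hA (U2Hyp.rI_le hA hR h hU) hjk (minor_mem_rI ϖ u v i j k) ?_
    push_cast
    rw [u8_ev hU j, u8_ev hU k, u8_eu hU j, u8_eu hU k]
    have e3 : 4 * i = i + i + 2 * i := by ring
    rw [e3, pow_add, pow_add]
    ring

include hA hR in
/-- The last ideal for `i < n`: `p = ϖ ^ (2 i) w t`: `v_j - c ϖ ^ n u_j = ϖ ^ (2 i) w (t V_j - c ϖ ^ (n - i) U_j)`, `ϖ ^ (n - i) = t w' P ϖ ^ (n - i - 1)`.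
Membership: `v_q - c ϖ ^ n u_q = ϖ ^ (2 i) w t (1 - c w' P ϖ ^ (n - i - 1) U_q)`, a unit multiple. -/
theorem U2Hyp.pr_sI_lt (h : WHyp A ϖ c u v n) (hU : U2Hyp ϖ u v n i u' v' m U W P q V w')
    (hi : i < n) : Pr R (sI ϖ u v c n) ((ϖ : D) ^ (2 * i) * (u' m * W q)) := by
  obtain ⟨hR', mU, mW, mP, mV, mw⟩ := u8_mem hR
  have e1 : u' m * P = ϖ := hU.hyp.eP
  have e2 : W q * w' = u' m := hU.ew
  have mϖ : (ϖ : D) ∈ R := hA ϖ.2
  have mc : (c : D) ∈ R := hA c.2
  have e4 : (ϖ : D) = W q * w' * P := by rw [e2, e1]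
  obtain ⟨d, hd⟩ : ∃ d, n = i + 1 + d := ⟨n - (i + 1), by omega⟩
  have hs : ∀ j, (v j : D) - c * (ϖ : D) ^ n * u j
      = (ϖ : D) ^ (2 * i) * (u' m * W q) * (V j - c * (ϖ : D) ^ d * w' * P * U j) := by
    intro j
    rw [u8_ev hU j, u8_eu hU j, hd]
    have e5 : (ϖ : D) ^ (i + 1 + d) = (ϖ : D) ^ i * (ϖ : D) ^ d * (W q * w' * P) := by
      rw [← e4]
      ring
    have e6 : (ϖ : D) ^ (2 * i) = (ϖ : D) ^ i * (ϖ : D) ^ i := by
      rw [two_mul, pow_add]
    rw [e5, e6]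
    ring
  have hle : sI ϖ u v c n ≤ mulId R hA ((ϖ : D) ^ (2 * i) * (u' m * W q)) := by
    apply sI_le hA
    · intro j
      refine ⟨V j - c * (ϖ : D) ^ d * w' * P * U j, ?_, hs j⟩
      exact R.sub_mem (mV j) (R.mul_mem (R.mul_mem (R.mul_mem (R.mul_mem mc (R.pow_mem mϖ d)) mw) mP)
        (mU j))
    · intro j k
      refine ⟨w' * U j * U k, R.mul_mem (R.mul_mem mw (mU j)) (mU k), ?_⟩
      rw [u8_eu hU j, u8_eu hU k, two_mul, pow_add]
      linear_combination (-((ϖ : D) ^ i * (ϖ : D) ^ i * u' m * U j * U k)) * e2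
    · intro j
      refine ⟨w' * P * (ϖ : D) ^ (d + 1) * U j,
        R.mul_mem (R.mul_mem (R.mul_mem mw mP) (R.pow_mem mϖ _)) (mU j), ?_⟩
      rw [u8_eu hU j, hd]
      have e5 : (ϖ : D) ^ (i + 1 + d + 1) = (ϖ : D) ^ i * (ϖ : D) ^ (d + 1) * (W q * w' * P) := by
        rw [← e4]
        ring
      have e6 : (ϖ : D) ^ (2 * i) = (ϖ : D) ^ i * (ϖ : D) ^ i := by
        rw [two_mul, pow_add]
      rw [e5, e6]
      ring
    · refine ⟨P * w' * P * (ϖ : D) ^ (2 * d + 1),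
        R.mul_mem (R.mul_mem (R.mul_mem mP mw) mP) (R.pow_mem mϖ _), ?_⟩
      rw [hd]
      have e5 : (ϖ : D) ^ (2 * (i + 1 + d) + 1)
          = (ϖ : D) ^ (2 * i) * (ϖ : D) ^ (2 * d + 1) * ((u' m * P) * (W q * w' * P)) := by
        rw [← e4, e1]
        ring
      rw [e5]
      ring
  refine pr_of_le hA hle ?_ (s_mem_sI ϖ u v c n q) (ω := V q - c * (ϖ : D) ^ d * w' * P * U q) ?_
  · rw [hU.V_self h]
    by_contra hcon
    have h5 : 1 - (c : D) * (ϖ : D) ^ d * w' * P * U q ∈ maximalIdeal D := hcon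
    have h6 : (c : D) * (ϖ : D) ^ d * w' * P * U q ∈ maximalIdeal D := by
      have h7 : (c : D) * (ϖ : D) ^ d * w' * P * U q = ((c : D) * (ϖ : D) ^ d * P * U q) * w' := by
        ring
      rw [h7]
      exact Ideal.mul_mem_left _ _ hU.mw
    have h8 := Ideal.add_mem _ h5 h6
    rw [sub_add_cancel] at h8
    exact (Ideal.ne_top_iff_one _).mp (maximalIdeal.isMaximal D).ne_top h8
  · push_cast
    exact hs q
-- END U8

end Pr

-- BEGIN U9
/-- TASK U9. The ring of case U2: from `UHyp.prs` by `PRS.blow` with `k₀ = some (Sum.inr q)`, `e = 1` on `inl m` and the `inr j`, `j ≠ q`; `e = 0`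
elsewhere: the family `fam P (Function.update U m w') (Function.update V q (W q))`. -/
theorem U2Hyp.prs (h : WHyp A ϖ c u v n) (hU : U2Hyp ϖ u v n i u' v' m U W P q V w') :
    PRS (dcl ((A : Set D) ∪ u2Set u' v' U W P V w'))
      (fam P (Function.update U m w') (Function.update V q (W q))) := by
  have h0 := hU.hyp.prs h
  have h1 := PRS.blow (w := fam P (Function.update U m w') (Function.update V q (W q)))
    (e := fam 0 (Function.update (fun _ => 0) m 1) (Function.update (fun _ => 1) q 0))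
    (k₀ := some (Sum.inr q)) h0 (by rw [fam_inr]; exact hU.hyp.mW q) (by simp) (by
      rintro (_ | j | j)
      · simp
      · rw [fam_inr, fam_inl, fam_inl, fam_inl]
        by_cases hj : j = m
        · subst hj
          simp only [Function.update_self, pow_one]
          exact hU.ew
        · rw [Function.update_of_ne hj, Function.update_of_ne hj, Function.update_of_ne hj, pow_zero,
            one_mul]
      · rw [fam_inr, fam_inr, fam_inr, fam_inr]
        by_cases hj : j = q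
        · subst hj
          simp only [Function.update_self, pow_zero, one_mul]
        · rw [Function.update_of_ne hj, Function.update_of_ne hj, pow_one]
          exact hU.eV j)
  rw [dcl_dcl_range] at h1
  have h2 : dcl ((A : Set D) ∪ uSet u' v' U W P ∪
      Set.range (fam P (Function.update U m w') (Function.update V q (W q)))) =
      dcl ((A : Set D) ∪ u2Set u' v' U W P V w') := by
    apply le_antisymm
    · refine dcl_le (dom_dcl _) ?_
      rintro z ((hz | hz) | ⟨o, rfl⟩)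
      · exact subset_dcl _ (Or.inl hz)
      · exact subset_dcl _ (Or.inr (Or.inl hz))
      · rcases o with _ | j | j
        · exact subset_dcl _ (Or.inr (Or.inl (Or.inr (Or.inr rfl))))
        · rw [fam_inl]
          by_cases hj : j = m
          · subst hj
            rw [Function.update_self]
            exact subset_dcl _ (Or.inr (Or.inr (Or.inr rfl)))
          · rw [Function.update_of_ne hj]
            exact subset_dcl _ (Or.inr (Or.inl (Or.inr (Or.inl (Or.inl ⟨j, rfl⟩)))))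
        · rw [fam_inr]
          by_cases hj : j = q
          · subst hj
            rw [Function.update_self]
            exact subset_dcl _ (Or.inr (Or.inl (Or.inr (Or.inl (Or.inr ⟨j, rfl⟩)))))
          · rw [Function.update_of_ne hj]
            exact subset_dcl _ (Or.inr (Or.inr (Or.inl ⟨j, rfl⟩)))
    · refine dcl_le (dom_dcl _) ?_
      rintro z (hz | hz | ⟨j, rfl⟩ | hz)
      · exact subset_dcl _ (Or.inl (Or.inl hz))
      · exact subset_dcl _ (Or.inl (Or.inr hz))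
      · by_cases hj : j = q
        · rw [hj, hU.V_self h]
          exact Subring.one_mem _
        · refine subset_dcl _ (Or.inr ⟨some (Sum.inr j), ?_⟩)
          rw [fam_inr, Function.update_of_ne hj]
      · rw [Set.mem_singleton_iff.1 hz]
        refine subset_dcl _ (Or.inr ⟨some (Sum.inl m), ?_⟩)
        rw [fam_inl, Function.update_self]
  rw [h2] at h1
  exact h1
-- END U9

section Tau

variable {τ : D →+* D} {ε κ l μ : D}

-- BEGIN U10
/-- TASK U10. The automorphism in case U2, from U3 with `W_j = t V_j`, `t = W q`; `B = ω ϖ ^ i t V_m` is the main term;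
`ψ = 1 + ϖ ^ n κ' + B`, `H = ψ⁻¹`, `G = (1 + ϖ ^ n l')⁻¹`. `τ t = t (1 + ϖ ^ n l') H`, so `τ V_j = V_j` (apply `τ` to `t V_j = W_j`, cancel), and
`τ w' (1 + ϖ ^ n l') = w' ψ ^ 2` (apply `τ` to `t w' = w`). -/
theorem U2Hyp.exists_tau (h : WHyp A ϖ c u v n) (hU : U2Hyp ϖ u v n i u' v' m U W P q V w')
    (hτ : WTau τ ϖ c u v n ε κ l μ) :
    ∃ ω κ' l' H G B : D, IsUnit ω ∧ (∃ a, κ' = (n + 1 - i) * ε + a * ϖ) ∧
      (∃ a, l' = (2 * n + 2 - 2 * i) * ε + a * ϖ) ∧ B = ω * (ϖ : D) ^ i * (W q * V m) ∧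
      (1 + (ϖ : D) ^ n * κ' + B) * H = 1 ∧ IsUnit H ∧ (1 + (ϖ : D) ^ n * l') * G = 1 ∧
      (∀ j, τ (u' j) - u' j = u' j * ((ϖ : D) ^ n * κ') + ω * (ϖ : D) ^ i * v' j) ∧
      (∀ j, τ (v' j) - v' j = v' j * ((ϖ : D) ^ n * l')) ∧
      (∀ j, τ (U j) - U j = ω * (ϖ : D) ^ i * W q * (V j - U j * V m) * H) ∧
      (∀ j, τ (W j) - W j = W j * ((ϖ : D) ^ n * (l' - κ') - B) * H) ∧
      τ P - P = P * ((ϖ : D) ^ n * (ε - κ') - B) * H ∧
      (∀ j, τ (V j) = V j) ∧
      τ w' - w' = w' * (2 * ((ϖ : D) ^ n * κ' + B) + ((ϖ : D) ^ n * κ' + B) ^ 2 -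
        (ϖ : D) ^ n * l') * G := by
  obtain ⟨ω, κ', l', H, -, hω, hκ', hl', hH, hHu, e1, e2, e3, e4, e5, e6⟩ :=
    hU.hyp.exists_tau h hτ
  have ht0 := hU.t_ne_zero h
  have hn := h.pos
  have hϖn : (ϖ : D) ^ n ∈ maximalIdeal D := Ideal.pow_mem_of_mem _ h.unif n (by omega)
  have hu1 : IsUnit (1 + (ϖ : D) ^ n * l') := isUnit_one_add (Ideal.mul_mem_right _ _ hϖn)
  obtain ⟨G, hG⟩ := hu1.exists_right_inv
  set t := W q with ht
  have hWm : W m = t * V m := (hU.eV m).symm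
  set B := ω * (ϖ : D) ^ i * (t * V m) with hB
  have hH' : (1 + (ϖ : D) ^ n * κ' + B) * H = 1 := by
    rw [hB, ← hWm]
    exact hH
  -- the eigenvalue of the `W j`
  have hW : ∀ j, τ (W j) = W j * ((1 + (ϖ : D) ^ n * l') * H) := by
    intro j
    have h1 := e5 j
    rw [hWm] at h1
    linear_combination h1 - W j * hH'
  have hWun : (1 + (ϖ : D) ^ n * l') * H ≠ 0 := (hu1.mul hHu).ne_zero
  have hV : ∀ j, τ (V j) = V j := by
    intro j
    have h1 : τ t * τ (V j) = τ (W j) := by rw [← map_mul, hU.eV]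
    have h2 : τ t = t * ((1 + (ϖ : D) ^ n * l') * H) := hW q
    rw [h2, hW j, ← hU.eV j] at h1
    apply mul_left_cancel₀ (mul_ne_zero ht0 hWun)
    linear_combination h1
  have hw' : τ w' = w' * (1 + (ϖ : D) ^ n * κ' + B) ^ 2 * G := by
    have h1 : τ t * τ w' = τ (u' m) := by rw [← map_mul, hU.ew]
    have h2 : τ t = t * ((1 + (ϖ : D) ^ n * l') * H) := hW q
    have h3 : τ (u' m) = t * w' * (1 + (ϖ : D) ^ n * κ' + B) := by
      rw [hU.ew]
      have h4 := e3
      rw [hWm] at h4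
      linear_combination h4
    rw [h2, h3] at h1
    have h4 : (1 + (ϖ : D) ^ n * l') * H * τ w' = w' * (1 + (ϖ : D) ^ n * κ' + B) := by
      apply mul_left_cancel₀ ht0
      linear_combination h1
    linear_combination (1 + (ϖ : D) ^ n * κ' + B) * G * h4 -
      (1 + (ϖ : D) ^ n * l') * G * τ w' * hH' - τ w' * hG
  refine ⟨ω, κ', l', H, G, B, hω, hκ', hl', rfl, hH', hHu, hG, e1, e2, ?_, ?_, ?_, hV, ?_⟩
  · intro j
    rw [e4 j, hWm, ← hU.eV j]
    ring
  · intro j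
    have h1 := e5 j
    rw [hWm] at h1
    exact h1
  · have h1 := e6
    rw [hWm] at h1
    exact h1
  · rw [hw']
    linear_combination w' * hG
-- END U10

-- BEGIN U11
theorem u11_unit_sub {x y : D} (hx : IsUnit x) (hy : y ∈ maximalIdeal D) : IsUnit (x - y) := by
  rw [sub_eq_add_neg]
  exact isUnit_add_of hx (neg_mem hy)

theorem u11_dvd {x d : D} (hd : d ∣ x) : ∃ a, x = a * d := by
  obtain ⟨a, ha⟩ := hd
  exact ⟨a, by rw [ha, mul_comm]⟩

/-- TASK U11. The augmentation ideal in case U2 is `(ϖ ^ i t)`, `t = W q`, if `i = n`, or if `P` or some `U_j V_k - U_k V_j` is a unit.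
`i = n`: `y = t`: `τ t - t = ϖ ^ n t ((l' - κ') - ω t V_m) H`, `l' - κ' = 2 ε - ε + … = ε + a ϖ`. `i < n`: `ϖ ^ n` is a multiple of `ϖ ^ i ϖ = ϖ ^ i t w' P`.
If some `U_j V_k - U_k V_j` is a unit then some `V_j - U_j V_m` is a unit, as `U_j V_k - U_k V_j = U_j (V_k - U_k V_m) - U_k (V_j - U_j V_m)`:
`y = U_j`. If `P` is a unit but no `V_j - U_j V_m` is: `V_m` is a unit, since `V_q - U_q V_m = 1 - U_q V_m`; `y = P`:
`τ P - P = ϖ ^ i t (- ω V_m + multiple of w') P H`. All differences are multiples of `ϖ ^ i t` (U10; `A`: `WTau.aug_dvd`, `w = t w'`; for `P` and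
`w'` and `i = n`: `ε - κ' = a ϖ`, `2 κ' - l' = a ϖ`, `ϖ = t w' P`, `2 n ≥ n + 1`). -/
theorem U2Hyp.principal (h : WHyp A ϖ c u v n) (hU : U2Hyp ϖ u v n i u' v' m U W P q V w')
    (hτ : WTau τ ϖ c u v n ε κ l μ)
    (hun : i = n ∨ IsUnit P ∨ ∃ j k, IsUnit (U j * V k - U k * V j))
    (htop : dcl ((A : Set D) ∪ u2Set u' v' U W P V w') = ⊤) :
    ∃ y, τ y - y ≠ 0 ∧ ∀ w, ∃ a, τ w - w = a * (τ y - y) := by
  obtain ⟨ω, κ', l', H, G, B, hω, ⟨a₁, hκ'⟩, ⟨a₂, hl'⟩, hB, hH, hHu, hG, hu', hv', hUj, hWj, hP, hV, hw'⟩ :=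
    hU.exists_tau h hτ
  have hin := hU.hyp.le
  have hn := h.pos
  have hϖ0 := h.unif_ne_zero
  have ht0 := hU.t_ne_zero h
  have hd0 : (ϖ : D) ^ i * W q ≠ 0 := mul_ne_zero (pow_ne_zero _ hϖ0) ht0
  have eϖ : (ϖ : D) = W q * w' * P := by rw [hU.ew, hU.hyp.eP]
  have htm := hU.hyp.mW q
  -- divisibilities
  have hdpow1 : (ϖ : D) ^ i * W q ∣ (ϖ : D) ^ (n + 1) := by
    obtain ⟨d, rfl⟩ := Nat.exists_eq_add_of_le hin
    refine ⟨(ϖ : D) ^ d * (w' * P), ?_⟩
    have : (ϖ : D) ^ (i + d + 1) = (ϖ : D) ^ i * (ϖ : D) ^ d * ϖ := by ring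
    rw [this]
    nth_rw 3 [eϖ]
    ring
  have hdpow : i < n → (ϖ : D) ^ i * W q ∣ (ϖ : D) ^ n := by
    intro hlt
    obtain ⟨d, rfl⟩ := Nat.exists_eq_add_of_lt hlt
    refine ⟨(ϖ : D) ^ d * (w' * P), ?_⟩
    have : (ϖ : D) ^ (i + d + 1) = (ϖ : D) ^ i * (ϖ : D) ^ d * ϖ := by ring
    rw [this]
    nth_rw 3 [eϖ]
    ring
  have hpi : (ϖ : D) ^ i ∣ (ϖ : D) ^ n := pow_dvd_pow _ hin
  have hdt : ∀ x : D, (ϖ : D) ^ i ∣ x → (ϖ : D) ^ i * W q ∣ W q * x := by
    intro x hx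
    rw [mul_comm (W q) x]
    exact mul_dvd_mul_right hx _
  have hdB : (ϖ : D) ^ i * W q ∣ B := ⟨ω * V m, by rw [hB]; ring⟩
  have hdϖ : (ϖ : D) ^ i * W q ∣ (ϖ : D) ^ n * (ε - κ') := by
    rcases Nat.lt_or_ge i n with hlt | hge
    · exact (hdpow hlt).mul_right _
    · have hi : i = n := le_antisymm hin hge
      have e1 : (ϖ : D) ^ n * (ε - κ') = (ϖ : D) ^ (n + 1) * (-a₁) := by
        rw [hκ', hi]
        ring
      rw [e1]
      exact hdpow1.mul_right _
  have hd2 : (ϖ : D) ^ i * W q ∣ (ϖ : D) ^ n * (2 * κ' - l') := by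
    rcases Nat.lt_or_ge i n with hlt | hge
    · exact (hdpow hlt).mul_right _
    · have hi : i = n := le_antisymm hin hge
      have e1 : (ϖ : D) ^ n * (2 * κ' - l') = (ϖ : D) ^ (n + 1) * (2 * a₁ - a₂) := by
        rw [hκ', hl', hi]
        ring
      rw [e1]
      exact hdpow1.mul_right _
  have hd3 : (ϖ : D) ^ i * W q ∣ ((ϖ : D) ^ n) ^ 2 := by
    refine hdpow1.trans ?_
    rw [← pow_mul]
    exact pow_dvd_pow _ (by omega)
  -- all differences are multiples
  have hall : ∀ w, ∃ a, τ w - w = a * ((ϖ : D) ^ i * W q) := by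
    have h1 := diff_of_dcl (τ := τ) (S := (A : Set D) ∪ u2Set u' v' U W P V w')
      (h := (ϖ : D) ^ i * W q) ?_
    · intro w
      exact h1 w (by rw [htop]; trivial)
    · have hu2 : ∀ j, u' j = W q * w' * U j := fun j => by rw [hU.ew, hU.hyp.eU]
      have hv2 : ∀ j, v' j = W q * w' * W j := fun j => by rw [hU.ew, hU.hyp.eW]
      rintro z (hz | hz)
      · refine hτ.aug_dvd (d := (ϖ : D) ^ i * W q) ?_ ?_ ?_ ⟨z, hz⟩
        · exact u11_dvd hdpow1
        · intro j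
          exact ⟨w' * U j, by rw [← hU.hyp.lev.eu j, hu2 j]; ring⟩
        · intro j
          exact ⟨(ϖ : D) ^ i * w' * W j, by rw [← hU.hyp.lev.ev j, hv2 j]; ring⟩
      · rcases hz with ((((⟨j, rfl⟩ | ⟨j, rfl⟩) | ((⟨j, rfl⟩ | ⟨j, rfl⟩) | hz))) | (⟨j, rfl⟩ | hz))
        · apply u11_dvd
          rw [hu' j, hu2 j, hv2 j]
          apply dvd_add
          · have : W q * w' * U j * ((ϖ : D) ^ n * κ') = W q * ((ϖ : D) ^ n * (w' * U j * κ')) := by ring
            rw [this]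
            exact hdt _ (hpi.mul_right _)
          · exact ⟨ω * w' * W j, by ring⟩
        · apply u11_dvd
          rw [hv' j, hv2 j]
          have : W q * w' * W j * ((ϖ : D) ^ n * l') = W q * ((ϖ : D) ^ n * (w' * W j * l')) := by ring
          rw [this]
          exact hdt _ (hpi.mul_right _)
        · exact ⟨ω * (V j - U j * V m) * H, by rw [hUj j]; ring⟩
        · apply u11_dvd
          rw [hWj j, ← hU.eV j]
          have : W q * V j * ((ϖ : D) ^ n * (l' - κ') - B) * H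
              = W q * ((ϖ : D) ^ n * (V j * (l' - κ') * H)) - B * (W q * V j * H) := by ring
          rw [this]
          exact dvd_sub (hdt _ (hpi.mul_right _)) (hdB.mul_right _)
        · rw [Set.mem_singleton_iff] at hz
          subst hz
          apply u11_dvd
          rw [hP]
          exact ((dvd_sub hdϖ hdB).mul_left _).mul_right _
        · exact ⟨0, by rw [hV j]; ring⟩
        · rw [Set.mem_singleton_iff] at hz
          subst hz
          apply u11_dvd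
          rw [hw']
          apply Dvd.dvd.mul_right
          apply Dvd.dvd.mul_left
          have : 2 * ((ϖ : D) ^ n * κ' + B) + ((ϖ : D) ^ n * κ' + B) ^ 2 - (ϖ : D) ^ n * l'
              = (ϖ : D) ^ n * (2 * κ' - l') + ((ϖ : D) ^ n) ^ 2 * κ' ^ 2
                + B * (2 + 2 * ((ϖ : D) ^ n * κ') + B) := by ring
          rw [this]
          exact dvd_add (dvd_add hd2 (hd3.mul_right _)) (hdB.mul_right _)
  -- the case of a unit `V_j - U_j V_m`
  have caseA : (∃ j, IsUnit (V j - U j * V m)) →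
      ∃ y, τ y - y ≠ 0 ∧ ∀ w, ∃ a, τ w - w = a * (τ y - y) := by
    rintro ⟨j, hj⟩
    refine principal_of hd0 ((hω.mul hj).mul hHu) (y := U j) ?_ hall
    rw [hUj j]; ring
  by_cases hi : i = n
  · refine principal_of hd0 (t := ((ε + ϖ * (a₂ - a₁)) - W q * (ω * V m)) * H) ?_ (y := W q) ?_ hall
    · refine IsUnit.mul ?_ hHu
      refine u11_unit_sub (isUnit_add_of hτ.unit ?_) ?_
      · exact Ideal.mul_mem_right _ _ h.unif
      · exact Ideal.mul_mem_right _ _ htm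
    · rw [hWj q, hB, hκ', hl', hi]
      ring
  · have hlt : i < n := lt_of_le_of_ne hin hi
    rcases hun with hun | hun | ⟨j, k, hjk⟩
    · exact absurd hun hi
    · by_cases hA : ∃ j, IsUnit (V j - U j * V m)
      · exact caseA hA
      · push Not at hA
        have hVm : IsUnit (V m) := by
          have h2 := hA q
          rw [hU.V_self h] at h2
          have h3 : (1 - U q * V m) ∈ maximalIdeal D := (IsLocalRing.mem_maximalIdeal _).mpr h2
          have h4 : IsUnit (U q * V m) := by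
            have := u11_unit_sub (isUnit_one (M := D)) h3
            rwa [sub_sub_cancel] at this
          exact isUnit_of_mul_isUnit_right h4
        obtain ⟨d, hd⟩ := Nat.exists_eq_add_of_lt hlt
        refine principal_of hd0
          (t := (-(ω * V m) + w' * ((ϖ : D) ^ d * P * (ε - κ'))) * (P * H)) ?_ (y := P) ?_ hall
        · refine IsUnit.mul (isUnit_add_of (hω.mul hVm).neg ?_) (hun.mul hHu)
          exact Ideal.mul_mem_right _ _ hU.mw
        · have e1 : (ϖ : D) ^ n = (ϖ : D) ^ i * (ϖ : D) ^ d * (W q * w' * P) := by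
            rw [← eϖ, hd]; ring
          rw [hP, hB, e1]
          ring
    · apply caseA
      by_contra hA
      push Not at hA
      have h2 : ∀ j, V j - U j * V m ∈ maximalIdeal D :=
        fun j => (IsLocalRing.mem_maximalIdeal _).mpr (hA j)
      have h3 : U j * V k - U k * V j = U j * (V k - U k * V m) - U k * (V j - U j * V m) := by ring
      have h4 : U j * V k - U k * V j ∈ maximalIdeal D := by
        rw [h3]
        exact sub_mem (Ideal.mul_mem_left _ _ (h2 k)) (Ideal.mul_mem_left _ _ (h2 j))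
      exact (IsLocalRing.mem_maximalIdeal _).mp h4 hjk
-- END U11

end Tau

-- BEGIN U12
/-- TASK U12. In the remaining case one can take `q = m`. `V_m` is a unit, since `U_m V_q - U_q V_m = 1 - U_q V_m` is in the maximal ideal; let
`r V_m = 1`: `W_m = t V_m`, `V'_j = V_j r`, `w'' = w' r`; `V'_j - U_j = r (U_m V_j - U_j V_m)`. -/
theorem U2Hyp.change (h : WHyp A ϖ c u v n) (hU : U2Hyp ϖ u v n i u' v' m U W P q V w')
    (hm : ∀ j k, U j * V k - U k * V j ∈ maximalIdeal D) :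
    ∃ (V' : J → D) (w'' : D), U2Hyp ϖ u v n i u' v' m U W P m V' w'' ∧
      ∀ j, V' j - U j ∈ maximalIdeal D := by
  have hUm := hU.hyp.U_self h
  have hVq := hU.V_self h
  have h1 := hm m q
  rw [hUm, hVq, one_mul] at h1
  have hVm : IsUnit (V m) := by
    by_contra hnu
    have h2 : V m ∈ maximalIdeal D := (mem_maximalIdeal _).2 hnu
    have h3 : (1 : D) ∈ maximalIdeal D := by
      have h4 : (1 : D) = (1 - U q * V m) + U q * V m := by ring
      rw [h4]
      exact Ideal.add_mem _ h1 (Ideal.mul_mem_left _ _ h2)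
    exact (Ideal.ne_top_iff_one _).1 (maximalIdeal.isMaximal D).ne_top h3
  obtain ⟨r, hr⟩ := hVm.exists_right_inv
  refine ⟨fun j => V j * r, w' * r, ⟨hU.hyp, ?_, ?_, Ideal.mul_mem_right _ _ hU.mw⟩, ?_⟩
  · intro j
    rw [← hU.eV m, ← hU.eV j]
    linear_combination (W q * V j) * hr
  · rw [← hU.eV m, ← hU.ew]
    linear_combination (W q * w') * hr
  · intro j
    have h2 : V j * r - U j = r * (U m * V j - U j * V m) := by
      rw [hUm]
      linear_combination U j * hr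
    show V j * r - U j ∈ maximalIdeal D
    rw [h2]
    exact Ideal.mul_mem_left _ _ (hm m j)
-- END U12

end Two

section Deep

/-- The elements which become principal in the deep case. -/
def uG (U W V : J → D) (m : J) (P w' : D) : Option (Option (Option J)) → D := fun o =>
  o.elim w' fun o' => o'.elim (W m) fun o'' => o''.elim P fun j => V j - U j

/-- The deep case U: `i < n`, `q = m`, all `V_j - U_j` and `P` are in the maximal ideal, `g = uG o₀` divides all `uG o = g r_o`. -/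
structure UDHyp (ϖ : A) (u v : J → A) (n i : ℕ) (u' v' : J → D) (m : J) (U W : J → D) (P : D)
    (V : J → D) (w' : D) (o₀ : Option (Option (Option J))) (r : Option (Option (Option J)) → D) :
    Prop where
  hyp : U2Hyp ϖ u v n i u' v' m U W P m V w'
  lt : i < n
  mP : P ∈ maximalIdeal D
  mV : ∀ j, V j - U j ∈ maximalIdeal D
  ne : uG U W V m P w' o₀ ≠ 0
  eq : ∀ o, uG U W V m P w' o₀ * r o = uG U W V m P w' o

variable {V : J → D} {w' : D} {o₀ : Option (Option (Option J))}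
  {r : Option (Option (Option J)) → D}

-- BEGIN U13
/-- TASK U13. The ideal `R_i` in the deep case: `p = ϖ ^ (4 i) w ^ 2 t g`, `w = u' m`, `t = W m`, `g = uG o₀`. `rI_le` with `p₁ = ϖ ^ (2 i) w t`,
`p₂ = ϖ ^ i w`: `p₁ ^ 2 = ϖ ^ (4 i) w ^ 2 t t`; `ϖ ^ i p₂ ^ 3 = ϖ ^ (4 i) w ^ 2 t w'`; `ϖ ^ i ϖ ^ (i + 1) v_j = ϖ ^ (4 i) w ^ 2 t P V_j`; minors:
`ϖ ^ (4 i) w ^ 2 t (U_j V_k - U_k V_j)` and `U_j V_k - U_k V_j = U_j (V_k - U_k) - U_k (V_j - U_j)`. Membership: `g = w'`: `ϖ ^ i u_m ^ 3`; `g = t`: `v_m v_m`;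
`g = P`: `pv_mem_rI` with `v_m` (`V_m = 1`); `g = V_j - U_j`: `minor_mem_rI` with `u_m v_j - u_j v_m` (`U_m = V_m = 1`). -/
theorem UDHyp.pr_rI (h : WHyp A ϖ c u v n) (hD : UDHyp ϖ u v n i u' v' m U W P V w' o₀ r)
    {R : Subring D} (hA : A ≤ R) (hR : u2Set u' v' U W P V w' ⊆ R) (hr : ∀ o, r o ∈ R) :
    Pr R (rI ϖ u v i) ((ϖ : D) ^ (4 * i) * (u' m ^ 2 * W m) * uG U W V m P w' o₀) := by
  have hUm : U m = 1 := hD.hyp.hyp.U_self h
  have hVm : V m = 1 := hD.hyp.V_self h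
  have hR1 : uSet u' v' U W P ⊆ R := fun x hx => hR (Or.inl hx)
  have hVR : ∀ j, V j ∈ R := fun j => hR (Or.inr (Or.inl ⟨j, rfl⟩))
  have hUR : ∀ j, U j ∈ R := fun j => hR1 (Or.inr (Or.inl (Or.inl ⟨j, rfl⟩)))
  have e0 : uG U W V m P w' o₀ * r none = w' := hD.eq none
  have e1 : uG U W V m P w' o₀ * r (some none) = W m := hD.eq (some none)
  have e2 : uG U W V m P w' o₀ * r (some (some none)) = P := hD.eq (some (some none))
  have e3 : ∀ j, uG U W V m P w' o₀ * r (some (some (some j))) = V j - U j :=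
    fun j => hD.eq (some (some (some j)))
  have ew : W m * w' = u' m := hD.hyp.ew
  have eP : u' m * P = ϖ := hD.hyp.hyp.eP
  have eu : ∀ j, (u j : D) = (ϖ : D) ^ i * (u' m * U j) := fun j => by
    rw [hD.hyp.hyp.eU j, hD.hyp.hyp.lev.eu j]
  have ev : ∀ j, (v j : D) = (ϖ : D) ^ (2 * i) * (u' m * (W m * V j)) := fun j => by
    rw [hD.hyp.eV j, hD.hyp.hyp.eW j, hD.hyp.hyp.lev.ev j]
  have hle : rI ϖ u v i ≤ mulId R hA ((ϖ : D) ^ (4 * i) * (u' m ^ 2 * W m) * uG U W V m P w' o₀) := by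
    refine rI_le hA (p₁ := (ϖ : D) ^ (2 * i) * (u' m * W m)) (p₂ := (ϖ : D) ^ i * u' m)
      (c₁ := r (some none)) (c₂ := r none)
      (fun y hy => (U2Hyp.pr_kI hA hR h hD.hyp (l := 2 * i + 2) le_rfl).1 y hy) (hr _) ?_
      (UHyp.aI_le hA hR1 hD.hyp.hyp le_rfl) (hr _) ?_ ?_ ?_
    · linear_combination (-(ϖ : D) ^ (4 * i) * (u' m ^ 2 * W m)) * e1
    · linear_combination (-(ϖ : D) ^ (4 * i) * (u' m ^ 2 * W m)) * e0 - (ϖ : D) ^ (4 * i) * u' m ^ 2 * ew
    · intro j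
      refine ⟨r (some (some none)) * V j, R.mul_mem (hr _) (hVR j), ?_⟩
      rw [ev j]
      linear_combination (-(ϖ : D) ^ (4 * i) * (u' m ^ 2 * W m) * V j) * e2
        - (ϖ : D) ^ (4 * i) * (u' m * W m) * V j * eP
    · intro j k
      refine ⟨U j * r (some (some (some k))) - U k * r (some (some (some j))),
        R.sub_mem (R.mul_mem (hUR j) (hr _)) (R.mul_mem (hUR k) (hr _)), ?_⟩
      rw [ev j, ev k, eu j, eu k]
      linear_combination (-(ϖ : D) ^ (4 * i) * (u' m ^ 2 * W m) * U j) * e3 k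
        + (ϖ : D) ^ (4 * i) * (u' m ^ 2 * W m) * U k * e3 j
  rcases o₀ with _ | _ | _ | j
  · refine pr_of_le hA hle isUnit_one (cube_mem_rI ϖ u v i (u_mem_aI ϖ u _ m) (u_mem_aI ϖ u _ m)
      (u_mem_aI ϖ u _ m)) ?_
    have hg : uG U W V m P w' none = w' := rfl
    rw [hg]
    push_cast
    rw [eu m, hUm]
    linear_combination (-(ϖ : D) ^ (4 * i) * u' m ^ 2) * ew
  · refine pr_of_le hA hle isUnit_one (sq_mem_rI ϖ u v i (v_mem_kI ϖ u v _ m) (v_mem_kI ϖ u v _ m)) ?_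
    have hg : uG U W V m P w' (some none) = W m := rfl
    rw [hg]
    push_cast
    rw [ev m, hVm]
    ring
  · refine pr_of_le hA hle isUnit_one (pv_mem_rI ϖ u v i m) ?_
    have hg : uG U W V m P w' (some (some none)) = P := rfl
    rw [hg]
    push_cast
    rw [ev m, hVm]
    linear_combination (-(ϖ : D) ^ (4 * i) * (u' m * W m)) * eP
  · refine pr_of_le hA hle isUnit_one (minor_mem_rI ϖ u v i m j) ?_
    have hg : uG U W V m P w' (some (some (some j))) = V j - U j := rfl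
    rw [hg]
    push_cast
    rw [ev m, ev j, eu m, eu j, hUm, hVm]
    ring
-- END U13

-- BEGIN U14
/-- The index of `uG o` in the family after the first two steps. -/
def u14_idx (m : J) : Option (Option (Option J)) → Option (J ⊕ J) := fun o =>
  o.elim (some (Sum.inl m)) fun o' => o'.elim (some (Sum.inr m)) fun o'' =>
    o''.elim none fun j => some (Sum.inr j)

/-- The family after the first two steps. -/
def u14_fam (U W V : J → D) (m : J) (P w' : D) : Option (J ⊕ J) → D :=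
  fam P (Function.update U m w') (fun j => if j = m then W m else V j - U j)

theorem u14_fam_idx (hVm : V m = 1) (hUm : U m = 1) (o : Option (Option (Option J)))
    (ho : uG U W V m P w' o ≠ 0) :
    u14_fam U W V m P w' (u14_idx m o) = uG U W V m P w' o := by
  rcases o with _ | _ | _ | j
  · show Function.update U m w' m = w'
    rw [Function.update_self]
  · show (if m = m then W m else V m - U m) = W m
    rw [if_pos rfl]
  · rfl
  · show (if j = m then W m else V j - U j) = V j - U j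
    rw [if_neg]
    rintro rfl
    apply ho
    show V j - U j = 0
    rw [hVm, hUm, sub_self]

/-- The family at the end. -/
def u14_end (U W V : J → D) (m : J) (P w' : D) (o₀ : Option (Option (Option J)))
    (r : Option (Option (Option J)) → D) : Option (J ⊕ J) → D := fun k =>
  if k = u14_idx m o₀ then u14_fam U W V m P w' k else
    fam (r (some (some none))) (Function.update U m (r none))
      (fun j => if j = m then r (some none) else r (some (some (some j)))) k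

/-- TASK U14. The ring of the deep case U. Start with `UHyp.prs` (family `fam P (update U m (u' m)) W`). `PRS.lin` (A2): replace `W_j`, `j ≠ m`,
by `W_j - U_j W_m` (`T` = the `inr j`, `j ≠ m`, `g (inr j) = inr m`, coefficients `1`, `- U_j`; all `W_j` are in the maximal ideal). `PRS.blow` with
`k₀ = inr m` (`t = W m`), `e = 1` on `inl m` (giving `w'`) and on `inr j`, `j ≠ m` (giving `V_j - U_j`), `0` elsewhere. `PRS.blow` again with
`k₀` the index of `uG o₀`: `e = 1` on `none` (`P`), `inl m` (`w'`), `inr m` (`t`), `inr j` (`V_j - U_j`) other than `k₀`; `e = 0` on `k₀`, `inl j`, `j ≠ m`.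
For `o₀` the index of `V_m - U_m = 0`: impossible by `ne` (`U_m = V_m = 1`). -/
theorem UDHyp.prs (h : WHyp A ϖ c u v n) (hD : UDHyp ϖ u v n i u' v' m U W P V w' o₀ r) :
    ∃ (κ : Type) (f : κ → D),
      PRS (dcl ((A : Set D) ∪ (u2Set u' v' U W P V w' ∪ Set.range r))) f := by
  classical
  have hVm := hD.hyp.V_self h
  have hUm := hD.hyp.hyp.U_self h
  have h0 := hD.hyp.hyp.prs h
  have hUR : ∀ j, U j ∈ dcl ((A : Set D) ∪ uSet u' v' U W P) := fun j =>
    subset_dcl _ (Or.inr (Or.inr (Or.inl (Or.inl ⟨j, rfl⟩))))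
  -- the linear change
  have h1 : PRS (dcl ((A : Set D) ∪ uSet u' v' U W P))
      (fam P (Function.update U m (u' m)) (fun j => if j = m then W m else W j - U j * W m)) := by
    refine h0.lin ((Finset.univ.filter (fun j : J => j ≠ m)).image (fun j => some (Sum.inr j)))
      (fun _ => some (Sum.inr m)) ?_ (fun _ => 1)
      (fam (0 : D) (fun _ => 0) (fun j => - U j)) ?_ ?_ ?_ ?_ ?_
    · intro k _ hk
      rw [Finset.mem_image] at hk
      obtain ⟨j, hj, hjm⟩ := hk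
      rw [Finset.mem_filter] at hj
      exact hj.2 (Sum.inr_injective (Option.some_injective _ hjm))
    · intro k _
      exact ⟨Subring.one_mem _, isUnit_one⟩
    · intro k hk
      rw [Finset.mem_image] at hk
      obtain ⟨j, hj, rfl⟩ := hk
      exact neg_mem (hUR j)
    · intro k hk
      rw [Finset.mem_image] at hk
      obtain ⟨j, hj, rfl⟩ := hk
      exact ⟨hD.hyp.hyp.mW j, hD.hyp.hyp.mW m⟩
    · intro k hk
      rw [Finset.mem_image] at hk
      obtain ⟨j, hj, rfl⟩ := hk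
      rw [Finset.mem_filter] at hj
      show (if j = m then W m else W j - U j * W m) = 1 * W j + (- U j) * W m
      rw [if_neg hj.2]
      ring
    · intro k hk
      rcases k with _ | j | j
      · rfl
      · rfl
      · show (if j = m then W m else W j - U j * W m) = W j
        by_cases hj : j = m
        · rw [if_pos hj, hj]
        · exfalso
          apply hk
          rw [Finset.mem_image]
          exact ⟨j, by simp [hj], rfl⟩
  -- the first blow-up
  have h2 : PRS (dcl (((dcl ((A : Set D) ∪ uSet u' v' U W P) : Subring D) : Set D) ∪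
      Set.range (u14_fam U W V m P w'))) (u14_fam U W V m P w') := by
    refine h1.blow (k₀ := some (Sum.inr m)) (w := u14_fam U W V m P w')
      (e := fam (0 : ℕ) (fun j => if j = m then 1 else 0) (fun j => if j = m then 0 else 1)) ?_ ?_ ?_
    · show (if m = m then W m else W m - U m * W m) ∈ maximalIdeal D
      rw [if_pos rfl]
      exact hD.hyp.hyp.mW m
    · show (if m = m then 0 else 1) = 0
      rw [if_pos rfl]
    · intro k
      have e0 : fam P (Function.update U m (u' m))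
          (fun j => if j = m then W m else W j - U j * W m) (some (Sum.inr m)) = W m := by
        show (if m = m then W m else W m - U m * W m) = W m
        rw [if_pos rfl]
      rw [e0]
      rcases k with _ | j | j
      · show W m ^ 0 * P = P
        rw [pow_zero, one_mul]
      · show W m ^ (if j = m then 1 else 0) * Function.update U m w' j
          = Function.update U m (u' m) j
        by_cases hj : j = m
        · rw [if_pos hj, hj, Function.update_self, Function.update_self, pow_one, hD.hyp.ew]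
        · rw [if_neg hj, Function.update_of_ne hj, Function.update_of_ne hj, pow_zero, one_mul]
      · show W m ^ (if j = m then 0 else 1) * (if j = m then W m else V j - U j)
          = (if j = m then W m else W j - U j * W m)
        by_cases hj : j = m
        · rw [if_pos hj, if_pos hj, if_pos hj, pow_zero, one_mul]
        · rw [if_neg hj, if_neg hj, if_neg hj, pow_one, ← hD.hyp.eV j]
          ring
  -- the second blow-up
  have hidx : u14_fam U W V m P w' (u14_idx m o₀) = uG U W V m P w' o₀ :=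
    u14_fam_idx hVm hUm o₀ hD.ne
  have hg0 := hD.ne
  have hgm : uG U W V m P w' o₀ ∈ maximalIdeal D := by
    rcases o₀ with _ | _ | _ | j
    · exact hD.hyp.mw
    · exact hD.hyp.hyp.mW m
    · exact hD.mP
    · exact hD.mV j
  have h3 : PRS (dcl (((dcl (((dcl ((A : Set D) ∪ uSet u' v' U W P) : Subring D) : Set D) ∪
      Set.range (u14_fam U W V m P w')) : Subring D) : Set D) ∪
      Set.range (u14_end U W V m P w' o₀ r))) (u14_end U W V m P w' o₀ r) := by
    refine h2.blow (k₀ := u14_idx m o₀) (w := u14_end U W V m P w' o₀ r)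
      (e := fun k => if k = u14_idx m o₀ then 0 else
        fam (1 : ℕ) (fun j => if j = m then 1 else 0) (fun _ => 1) k) ?_ ?_ ?_
    · rw [hidx]; exact hgm
    · simp
    · intro k
      rw [hidx]
      unfold u14_end
      by_cases hk : k = u14_idx m o₀
      · rw [if_pos hk, if_pos hk, pow_zero, one_mul]
      · rw [if_neg hk, if_neg hk]
        rcases k with _ | j | j
        · show uG U W V m P w' o₀ ^ 1 * r (some (some none)) = P
          rw [pow_one]
          exact hD.eq (some (some none))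
        · show uG U W V m P w' o₀ ^ (if j = m then 1 else 0) * Function.update U m (r none) j
            = Function.update U m w' j
          by_cases hj : j = m
          · rw [if_pos hj, hj, Function.update_self, Function.update_self, pow_one]
            exact hD.eq none
          · rw [if_neg hj, Function.update_of_ne hj, Function.update_of_ne hj, pow_zero, one_mul]
        · show uG U W V m P w' o₀ ^ 1 * (if j = m then r (some none) else r (some (some (some j))))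
            = (if j = m then W m else V j - U j)
          rw [pow_one]
          by_cases hj : j = m
          · rw [if_pos hj, if_pos hj]
            exact hD.eq (some none)
          · rw [if_neg hj, if_neg hj]
            exact hD.eq (some (some (some j)))
  -- the ring
  rw [dcl_dcl_range, Set.union_assoc, dcl_union_dcl] at h3
  refine ⟨_, u14_end U W V m P w' o₀ r, ?_⟩
  have hring : dcl ((A : Set D) ∪ (u2Set u' v' U W P V w' ∪ Set.range r))
      = dcl (((A : Set D) ∪ uSet u' v' U W P) ∪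
        (Set.range (u14_fam U W V m P w') ∪ Set.range (u14_end U W V m P w' o₀ r))) := by
    set R₁ := dcl ((A : Set D) ∪ (u2Set u' v' U W P V w' ∪ Set.range r)) with hR₁
    set R₂ := dcl (((A : Set D) ∪ uSet u' v' U W P) ∪
        (Set.range (u14_fam U W V m P w') ∪ Set.range (u14_end U W V m P w' o₀ r))) with hR₂
    have a1 : (A : Set D) ⊆ R₁ := fun x hx => subset_dcl _ (Or.inl hx)
    have a2 : u2Set u' v' U W P V w' ⊆ R₁ := fun x hx => subset_dcl _ (Or.inr (Or.inl hx))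
    have a3 : ∀ o, r o ∈ R₁ := fun o => subset_dcl _ (Or.inr (Or.inr ⟨o, rfl⟩))
    have a4 : uSet u' v' U W P ⊆ R₁ := fun x hx => a2 (Or.inl hx)
    have aU : ∀ j, U j ∈ R₁ := fun j => a4 (Or.inr (Or.inl (Or.inl ⟨j, rfl⟩)))
    have aW : ∀ j, W j ∈ R₁ := fun j => a4 (Or.inr (Or.inl (Or.inr ⟨j, rfl⟩)))
    have aP : P ∈ R₁ := a4 (Or.inr (Or.inr rfl))
    have aV : ∀ j, V j ∈ R₁ := fun j => a2 (Or.inr (Or.inl ⟨j, rfl⟩))
    have aw : w' ∈ R₁ := a2 (Or.inr (Or.inr rfl))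
    have afam : ∀ k, u14_fam U W V m P w' k ∈ R₁ := by
      intro k
      rcases k with _ | j | j
      · exact aP
      · show Function.update U m w' j ∈ R₁
        by_cases hj : j = m
        · rw [hj, Function.update_self]; exact aw
        · rw [Function.update_of_ne hj]; exact aU j
      · show (if j = m then W m else V j - U j) ∈ R₁
        by_cases hj : j = m
        · rw [if_pos hj]; exact aW m
        · rw [if_neg hj]; exact sub_mem (aV j) (aU j)
    have aend : ∀ k, u14_end U W V m P w' o₀ r k ∈ R₁ := by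
      intro k
      unfold u14_end
      by_cases hk : k = u14_idx m o₀
      · rw [if_pos hk]; exact afam k
      · rw [if_neg hk]
        rcases k with _ | j | j
        · exact a3 _
        · show Function.update U m (r none) j ∈ R₁
          by_cases hj : j = m
          · rw [hj, Function.update_self]; exact a3 _
          · rw [Function.update_of_ne hj]; exact aU j
        · show (if j = m then r (some none) else r (some (some (some j)))) ∈ R₁
          by_cases hj : j = m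
          · rw [if_pos hj]; exact a3 _
          · rw [if_neg hj]; exact a3 _
    have b1 : (A : Set D) ⊆ R₂ := fun x hx => subset_dcl _ (Or.inl (Or.inl hx))
    have b2 : uSet u' v' U W P ⊆ R₂ := fun x hx => subset_dcl _ (Or.inl (Or.inr hx))
    have b3 : ∀ k, u14_fam U W V m P w' k ∈ R₂ := fun k =>
      subset_dcl _ (Or.inr (Or.inl ⟨k, rfl⟩))
    have b4 : ∀ k, u14_end U W V m P w' o₀ r k ∈ R₂ := fun k =>
      subset_dcl _ (Or.inr (Or.inr ⟨k, rfl⟩))
    have bU : ∀ j, U j ∈ R₂ := fun j => b2 (Or.inr (Or.inl (Or.inl ⟨j, rfl⟩)))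
    have bw : w' ∈ R₂ := by
      have := b3 (some (Sum.inl m))
      have e : u14_fam U W V m P w' (some (Sum.inl m)) = w' := by
        show Function.update U m w' m = w'
        rw [Function.update_self]
      rwa [e] at this
    have bV : ∀ j, V j ∈ R₂ := by
      intro j
      by_cases hj : j = m
      · rw [hj, hVm]; exact Subring.one_mem _
      · have := b3 (some (Sum.inr j))
        have e : u14_fam U W V m P w' (some (Sum.inr j)) = V j - U j := by
          show (if j = m then W m else V j - U j) = V j - U j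
          rw [if_neg hj]
        rw [e] at this
        have h5 := add_mem this (bU j)
        rwa [sub_add_cancel] at h5
    have br : ∀ o, r o ∈ R₂ := by
      intro o
      by_cases ho : uG U W V m P w' o = 0
      · have h5 : r o = 0 := by
          have h6 := hD.eq o
          rw [ho] at h6
          exact (mul_eq_zero.mp h6).resolve_left hg0
        rw [h5]; exact Subring.zero_mem _
      · by_cases hk : u14_idx m o = u14_idx m o₀
        · have h5 : uG U W V m P w' o = uG U W V m P w' o₀ := by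
            rw [← u14_fam_idx hVm hUm o ho, hk, hidx]
          have h6 : r o = 1 := by
            have h7 := hD.eq o
            rw [h5] at h7
            exact mul_left_cancel₀ hg0 (by rw [h7, mul_one])
          rw [h6]; exact Subring.one_mem _
        · have h5 := b4 (u14_idx m o)
          have e : u14_end U W V m P w' o₀ r (u14_idx m o) = r o := by
            unfold u14_end
            rw [if_neg hk]
            rcases o with _ | _ | _ | j
            · show Function.update U m (r none) m = r none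
              rw [Function.update_self]
            · show (if m = m then r (some none) else r (some (some (some m)))) = r (some none)
              rw [if_pos rfl]
            · rfl
            · show (if j = m then r (some none) else r (some (some (some j))))
                = r (some (some (some j)))
              rw [if_neg]
              rintro rfl
              apply ho
              show V j - U j = 0
              rw [hVm, hUm, sub_self]
          rwa [e] at h5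
    apply le_antisymm
    · refine dcl_le (dom_dcl _) ?_
      rintro z (hz | ((hz | (⟨j, rfl⟩ | hz)) | ⟨o, rfl⟩))
      · exact b1 hz
      · exact b2 hz
      · exact bV j
      · rw [Set.mem_singleton_iff] at hz
        rw [hz]; exact bw
      · exact br o
    · refine dcl_le (dom_dcl _) ?_
      rintro z ((hz | hz) | (⟨k, rfl⟩ | ⟨k, rfl⟩))
      · exact a1 hz
      · exact a4 hz
      · exact afam k
      · exact aend k
  rw [hring]
  exact h3
-- END U14

-- BEGIN U15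
/-- TASK U15. All `uG o` are eigenvectors with nearly the same eigenvalue `1 - B`, `B = ω ϖ ^ i t` (`t = W m`): `τ (uG o) = uG o (1 + ϖ ^ i t e_o)`,
`e_o = - ω + a w' + b t + d ϖ`. From U10 with `q = m`, `V_m = 1`: `ϖ ^ n = ϖ ^ i (t w' P) ϖ ^ (n - i - 1)`; `H = 1 - (ϖ ^ n κ' + B) H`, so
`H = 1 + b' t`; `G = 1 + b'' t`; for `w'`: `2 B + … = - B + 3 B + …`, `3 = a ϖ`. `V_j - U_j`: `τ V_j = V_j`, `τ U_j - U_j = ω ϖ ^ i t (V_j - U_j) H`. -/
theorem UDHyp.tau_uG (h : WHyp A ϖ c u v n) (hD : UDHyp ϖ u v n i u' v' m U W P V w' o₀ r)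
    {τ : D →+* D} {ε κ l μ : D} (hτ : WTau τ ϖ c u v n ε κ l μ) :
    ∃ ω, IsUnit ω ∧ ∀ o, ∃ e, (∃ a b d, e = - ω + a * w' + b * W m + d * ϖ) ∧
      τ (uG U W V m P w' o) = uG U W V m P w' o * (1 + (ϖ : D) ^ i * W m * e) := by
  obtain ⟨ω, κ', l', H, G, B, hω, -, -, hB, hH, hHu, hG, hu', hv', hUj, hWj, hP, hV, hw'⟩ :=
    hD.hyp.exists_tau h hτ
  have hVm := hD.hyp.V_self h
  obtain ⟨d, hd⟩ := Nat.exists_eq_add_of_lt hD.lt
  have eϖ : (ϖ : D) = W m * w' * P := by rw [hD.hyp.ew, hD.hyp.hyp.eP]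
  obtain ⟨a₃, h3⟩ := hτ.three
  have e1 : (ϖ : D) ^ n = (ϖ : D) ^ i * W m * (w' * (P * (ϖ : D) ^ d)) := by
    have : (ϖ : D) ^ n = (ϖ : D) ^ i * (ϖ : D) ^ d * (W m * w' * P) := by
      rw [← eϖ, hd]; ring
    rw [this]; ring
  obtain ⟨x, hx⟩ : ∃ x, x = P * (ϖ : D) ^ d := ⟨_, rfl⟩
  rw [← hx] at e1
  rw [hVm, mul_one] at hB
  have hB' : B = (ϖ : D) ^ i * W m * ω := by rw [hB]; ring
  have hH' : H = 1 - (ϖ : D) ^ i * W m * (w' * x * κ' + ω) * H := by
    have h2 := hH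
    rw [e1, hB'] at h2
    linear_combination h2
  have hG' : G = 1 - (ϖ : D) ^ i * W m * (w' * x * l') * G := by
    have h2 := hG
    rw [e1] at h2
    linear_combination h2
  refine ⟨ω, hω, fun o => ?_⟩
  rcases o with _ | _ | _ | j
  · -- `w'`
    refine ⟨(2 * ω + w' * x * (2 * κ' - l') + (w' * x * κ' + ω) ^ 2 * ((ϖ : D) ^ i * W m)) * G,
      ⟨x * (2 * κ' - l') * G, (w' * x * κ' + ω) ^ 2 * (ϖ : D) ^ i * G
        - 2 * ω * ((ϖ : D) ^ i * (w' * x * l') * G), a₃ * ω, ?_⟩, ?_⟩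
    · linear_combination (2 * ω) * hG' + ω * h3
    · show τ w' = w' * _
      have h2 : τ w' = w' + (τ w' - w') := by ring
      rw [h2, hw', e1, hB']
      ring
  · -- `W m`
    refine ⟨(w' * x * (l' - κ') - ω) * H,
      ⟨x * (l' - κ') * H, ω * ((ϖ : D) ^ i * (w' * x * κ' + ω) * H), 0, ?_⟩, ?_⟩
    · linear_combination (-ω) * hH'
    · show τ (W m) = W m * _
      have h2 : τ (W m) = W m + (τ (W m) - W m) := by ring
      rw [h2, hWj, e1, hB']
      ring
  · -- `P`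
    refine ⟨(w' * x * (ε - κ') - ω) * H,
      ⟨x * (ε - κ') * H, ω * ((ϖ : D) ^ i * (w' * x * κ' + ω) * H), 0, ?_⟩, ?_⟩
    · linear_combination (-ω) * hH'
    · show τ P = P * _
      have h2 : τ P = P + (τ P - P) := by ring
      rw [h2, hP, e1, hB']
      ring
  · -- `V_j - U_j`
    refine ⟨-ω * H, ⟨0, ω * ((ϖ : D) ^ i * (w' * x * κ' + ω) * H), 0, ?_⟩, ?_⟩
    · linear_combination (-ω) * hH'
    · show τ (V j - U j) = (V j - U j) * _
      have h2 : τ (U j) = U j + (τ (U j) - U j) := by ring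
      rw [map_sub, hV j, h2, hUj j, hVm]
      ring
-- END U15

-- BEGIN U16
theorem u16_dvd {x d : D} (hd : d ∣ x) : ∃ a, x = a * d := by
  obtain ⟨a, ha⟩ := hd
  exact ⟨a, by rw [ha, mul_comm]⟩

/-- TASK U16. The augmentation ideal in the deep case U is `(ϖ ^ i t g)`, `g = uG o₀`, `t = W m`, `y = g`, by U15 (`e_{o₀}` is a unit, since `w'`, `t`, `ϖ` are in the maximal
ideal). `diff_of_dcl` on `A ∪ (u2Set ∪ range r)`: `A`: `WTau.aug_dvd`: `ϖ ^ (n + 1)`, `u_j = ϖ ^ i t w' U_j`, `v_j = ϖ ^ (2 i) t w' t V_j`; by U10: `u'_j`, `v'_j`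
(multiples of `ϖ ^ i w = ϖ ^ i t w'`), `U_j` (`V_j - U_j V_m = V_j - U_j`), `V_j` (invariant), `W_j = t V_j`: from `τ t - t` (U15) and `τ V_j = V_j`; `P`, `w'`: U15.
`r_o`: `eigen_quot` (T1): `τ r_o - r_o = r_o ϖ ^ i t (e_o - e_{o₀}) h`, where `e_o - e_{o₀}` is a combination of `w'`, `t`, `ϖ = t w' P`, all multiples
of `g`. -/
theorem UDHyp.principal (h : WHyp A ϖ c u v n) (hD : UDHyp ϖ u v n i u' v' m U W P V w' o₀ r)
    {τ : D →+* D} {ε κ l μ : D} (hτ : WTau τ ϖ c u v n ε κ l μ)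
    (htop : dcl ((A : Set D) ∪ (u2Set u' v' U W P V w' ∪ Set.range r)) = ⊤) :
    ∃ y, τ y - y ≠ 0 ∧ ∀ w, ∃ a, τ w - w = a * (τ y - y) := by
  obtain ⟨ω, hω, hE⟩ := hD.tau_uG h hτ
  choose e he hτe using hE
  obtain ⟨ω', κ', l', H, G, B, hω', -, -, hB, hH, hHu, hG, hu', hv', hUj, hWj, hP, hV, hw'⟩ :=
    hD.hyp.exists_tau h hτ
  have hVm := hD.hyp.V_self h
  obtain ⟨k, hk⟩ := Nat.exists_eq_add_of_lt hD.lt
  have eϖ : (ϖ : D) = W m * w' * P := by rw [hD.hyp.ew, hD.hyp.hyp.eP]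
  have hϖ0 := h.unif_ne_zero
  have ht0 := hD.hyp.t_ne_zero h
  have htm := hD.hyp.hyp.mW m
  obtain ⟨g, hg⟩ : ∃ g, g = uG U W V m P w' o₀ := ⟨_, rfl⟩
  have hg0 : g ≠ 0 := by rw [hg]; exact hD.ne
  have hgr : ∀ o, g * r o = uG U W V m P w' o := fun o => by rw [hg]; exact hD.eq o
  have hdg0 : (ϖ : D) ^ i * W m * g ≠ 0 :=
    mul_ne_zero (mul_ne_zero (pow_ne_zero _ hϖ0) ht0) hg0
  -- multiples of `g`
  have gw' : g ∣ w' := ⟨r none, (hgr none).symm⟩
  have gt : g ∣ W m := ⟨r (some none), (hgr (some none)).symm⟩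
  have gP : g ∣ P := ⟨r (some (some none)), (hgr (some (some none))).symm⟩
  have gVU : ∀ j, g ∣ V j - U j := fun j =>
    ⟨r (some (some (some j))), (hgr (some (some (some j)))).symm⟩
  have gϖ : g ∣ (ϖ : D) := by rw [eϖ]; exact (gt.mul_right _).mul_right _
  have hunit : IsUnit (e o₀) := by
    obtain ⟨a, b, d, hh⟩ := he o₀
    rw [hh, add_assoc, add_assoc]
    refine isUnit_add_of hω.neg ?_
    exact add_mem (Ideal.mul_mem_left _ _ hD.hyp.mw)
      (add_mem (Ideal.mul_mem_left _ _ htm) (Ideal.mul_mem_left _ _ h.unif))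
  have hdiff : ∀ o, g ∣ e o - e o₀ := by
    intro o
    obtain ⟨a, b, d, hh⟩ := he o
    obtain ⟨a', b', d', hh'⟩ := he o₀
    have : e o - e o₀ = (a - a') * w' + (b - b') * W m + (d - d') * ϖ := by
      rw [hh, hh']; ring
    rw [this]
    exact dvd_add (dvd_add (gw'.mul_left _) (gt.mul_left _)) (gϖ.mul_left _)
  -- powers
  have hdpow : (ϖ : D) ^ i * W m * g ∣ (ϖ : D) ^ n := by
    have : (ϖ : D) ^ n = ((ϖ : D) ^ i * W m) * w' * (P * (ϖ : D) ^ k) := by
      have h2 : (ϖ : D) ^ n = (ϖ : D) ^ i * (ϖ : D) ^ k * (W m * w' * P) := by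
        rw [← eϖ, hk]; ring
      rw [h2]; ring
    rw [this]
    exact (mul_dvd_mul_left _ gw').mul_right _
  have hdw : (ϖ : D) ^ i * W m * g ∣ (ϖ : D) ^ i * (W m * w') := by
    rw [← mul_assoc]
    exact mul_dvd_mul_left _ gw'
  have hmul : ∀ x : D, g ∣ x → (ϖ : D) ^ i * W m * g ∣ (ϖ : D) ^ i * W m * x :=
    fun x hx => mul_dvd_mul_left _ hx
  have htaug : ∀ o, (ϖ : D) ^ i * W m * g ∣ τ (uG U W V m P w' o) - uG U W V m P w' o := by
    intro o
    rw [hτe o, ← hgr o]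
    exact ⟨r o * e o, by ring⟩
  have hall : ∀ w, ∃ a, τ w - w = a * ((ϖ : D) ^ i * W m * g) := by
    have h1 := diff_of_dcl (τ := τ) (S := (A : Set D) ∪ (u2Set u' v' U W P V w' ∪ Set.range r))
      (h := (ϖ : D) ^ i * W m * g) ?_
    · intro w
      exact h1 w (by rw [htop]; trivial)
    · have hu2 : ∀ j, u' j = W m * w' * U j := fun j => by rw [hD.hyp.ew, hD.hyp.hyp.eU]
      have hv2 : ∀ j, v' j = W m * w' * W j := fun j => by rw [hD.hyp.ew, hD.hyp.hyp.eW]
      rintro z (hz | hz)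
      · refine hτ.aug_dvd (d := (ϖ : D) ^ i * W m * g) ?_ ?_ ?_ ⟨z, hz⟩
        · apply u16_dvd
          rw [pow_succ]
          exact hdpow.mul_right _
        · intro j
          apply u16_dvd
          rw [← hD.hyp.hyp.lev.eu j, hu2 j]
          have : (ϖ : D) ^ i * (W m * w' * U j) = (ϖ : D) ^ i * (W m * w') * U j := by ring
          rw [this]
          exact hdw.mul_right _
        · intro j
          apply u16_dvd
          rw [← hD.hyp.hyp.lev.ev j, hv2 j]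
          have : (ϖ : D) ^ (2 * i) * (W m * w' * W j)
              = (ϖ : D) ^ i * (W m * w') * ((ϖ : D) ^ i * W j) := by ring
          rw [this]
          exact hdw.mul_right _
      · rcases hz with (((((⟨j, rfl⟩ | ⟨j, rfl⟩) | ((⟨j, rfl⟩ | ⟨j, rfl⟩) | hz))) |
          (⟨j, rfl⟩ | hz)) | ⟨o, rfl⟩)
        · apply u16_dvd
          rw [hu' j, hv2 j]
          apply dvd_add
          · exact (hdpow.mul_right _).mul_left _
          · have : ω' * (ϖ : D) ^ i * (W m * w' * W j) = (ϖ : D) ^ i * (W m * w') * (ω' * W j) := by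
              ring
            rw [this]
            exact hdw.mul_right _
        · apply u16_dvd
          rw [hv' j]
          exact (hdpow.mul_right _).mul_left _
        · apply u16_dvd
          rw [hUj j, hVm, mul_one]
          have : ω' * (ϖ : D) ^ i * W m * (V j - U j) * H
              = (ϖ : D) ^ i * W m * (V j - U j) * (ω' * H) := by ring
          rw [this]
          exact (hmul _ (gVU j)).mul_right _
        · apply u16_dvd
          have h2 := htaug (some none)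
          have h3 : uG U W V m P w' (some none) = W m := rfl
          rw [h3] at h2
          have : τ (W j) - W j = (τ (W m) - W m) * V j := by
            rw [← hD.hyp.eV j, map_mul, hV j]; ring
          rw [this]
          exact h2.mul_right _
        · rw [Set.mem_singleton_iff] at hz
          subst hz
          exact u16_dvd (htaug (some (some none)))
        · exact ⟨0, by rw [hV j]; ring⟩
        · rw [Set.mem_singleton_iff] at hz
          subst hz
          exact u16_dvd (htaug none)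
        · have h2 : IsUnit (1 + (ϖ : D) ^ i * W m * e o₀) := by
            have : (ϖ : D) ^ i * W m * e o₀ = W m * ((ϖ : D) ^ i * e o₀) := by ring
            rw [this]
            exact isUnit_one_add_mul htm _
          have h3 := hτe o₀
          rw [← hg] at h3
          obtain ⟨h', -, -, -, h4⟩ := eigen_quot hg0 (hgr o) h3 (hτe o) h2
          apply u16_dvd
          rw [h4]
          have : r o * ((ϖ : D) ^ i * W m * e o - (ϖ : D) ^ i * W m * e o₀) * h'
              = (ϖ : D) ^ i * W m * (e o - e o₀) * (r o * h') := by ring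
          rw [this]
          exact (hmul _ (hdiff o)).mul_right _
  refine principal_of hdg0 hunit (y := g) ?_ hall
  have h3 := hτe o₀
  rw [← hg] at h3
  rw [h3]
  ring
-- END U16

end Deep

end Pool.Agent.Lib.MP_6a3dac_ag.W3
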