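import Pool.Agent.Lib.MP_6a3dac_ag.W3.CaseL

/-!
# The case in which some `v'_m` divides everything
-/

set_option autoImplicit false
set_option linter.unusedSectionVars false
set_option linter.unusedVariables false

namespace Pool.Agent.Lib.MP_6a3dac_ag.W3

open IsLocalRing
open Pool.Agent.Lib.MP_6a3dac_ag Pool.Agent.Lib.MP_6a3dac_ag.QD

variable {D : Type} [CommRing D] [IsDomain D] [IsLocalRing D] {A : Subring D} {J : Type}
  [Fintype J] [DecidableEq J] {ϖ c : A} {u v : J → A} {n : ℕ}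

/-- Case V: with `t = v' m`: `u' = t U`, `v' = t V`, `ϖ = t P`; all `u'_j`, `v'_j` are in the maximal ideal. -/
structure VHyp (ϖ : A) (u v : J → A) (n i : ℕ) (u' v' : J → D) (m : J) (U V : J → D) (P : D) :
    Prop where
  lev : Lev ϖ u v i u' v'
  le : i ≤ n
  mu : ∀ j, u' j ∈ maximalIdeal D
  mv : ∀ j, v' j ∈ maximalIdeal D
  eU : ∀ j, v' m * U j = u' j
  eV : ∀ j, v' m * V j = v' j
  eP : v' m * P = ϖ

/-- The elements adjoined in case V. -/
def vSet (u' v' U V : J → D) (P : D) : Set D := levSet u' v' ∪ (Set.range U ∪ Set.range V ∪ {P})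

variable {i : ℕ} {u' v' : J → D} {m : J} {U V : J → D} {P : D}

theorem VHyp.t_ne_zero (h : WHyp A ϖ c u v n) (hV : VHyp ϖ u v n i u' v' m U V P) : v' m ≠ 0 := by
  intro h0
  apply h.unif_ne_zero
  rw [← hV.eP, h0, zero_mul]

theorem VHyp.V_self (h : WHyp A ϖ c u v n) (hV : VHyp ϖ u v n i u' v' m U V P) : V m = 1 := by
  apply mul_left_cancel₀ (hV.t_ne_zero h)
  rw [hV.eV, mul_one]

section Pr

variable {R : Subring D} (hA : A ≤ R) (hR : vSet u' v' U V P ⊆ R)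

-- BEGIN V1
include hA hR in
theorem v1_mem (hV : VHyp ϖ u v n i u' v' m U V P) :
    (ϖ : D) ∈ R ∧ (∀ j, u' j ∈ R) ∧ (∀ j, v' j ∈ R) ∧ (∀ j, U j ∈ R) ∧ (∀ j, V j ∈ R) ∧ P ∈ R :=
  ⟨hA ϖ.2, fun j => hR (Or.inl (Or.inl ⟨j, rfl⟩)), fun j => hR (Or.inl (Or.inr ⟨j, rfl⟩)),
    fun j => hR (Or.inr (Or.inl (Or.inl ⟨j, rfl⟩))), fun j => hR (Or.inr (Or.inl (Or.inr ⟨j, rfl⟩))),
    hR (Or.inr (Or.inr rfl))⟩

include hA hR in
theorem v1_aI (hV : VHyp ϖ u v n i u' v' m U V P) {k : ℕ} (hk : i + 1 ≤ k) :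
    aI ϖ u k ≤ mulId R hA ((ϖ : D) ^ i * v' m) := by
  obtain ⟨hϖ, hu', hv', hU, hVR, hP⟩ := v1_mem hA hR hV
  refine aI_le hA ?_ fun j => ⟨U j, hU j, ?_⟩
  · obtain ⟨d, rfl⟩ := Nat.exists_eq_add_of_le hk
    refine ⟨(ϖ : D) ^ d * P, R.mul_mem (R.pow_mem hϖ d) hP, ?_⟩
    have := hV.eP
    rw [pow_add, pow_add, pow_one]
    linear_combination (-(ϖ : D) ^ i * (ϖ : D) ^ d) * this
  · rw [← hV.lev.eu j, ← hV.eU j]
    ring

include hA hR in
theorem v1_kI_le (hV : VHyp ϖ u v n i u' v' m U V P) {l : ℕ} (hl : 2 * i + 1 ≤ l) :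
    kI ϖ u v l ≤ mulId R hA ((ϖ : D) ^ (2 * i) * v' m) := by
  obtain ⟨hϖ, hu', hv', hU, hVR, hP⟩ := v1_mem hA hR hV
  refine kI_le hA (p₁ := (ϖ : D) ^ i) (p₂ := (ϖ : D) ^ i * v' m) (c := 1) ?_
    (v1_aI hA hR hV (by omega)) R.one_mem (by rw [two_mul, pow_add]; ring) fun j => ⟨V j, hVR j, ?_⟩
  · refine aI_le hA ?_ fun j => ⟨u' j, hu' j, (hV.lev.eu j).symm⟩
    obtain ⟨d, hd⟩ := Nat.exists_eq_add_of_le (by omega : i ≤ l / 2)
    exact ⟨(ϖ : D) ^ d, R.pow_mem hϖ d, by rw [hd, pow_add]⟩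
  · rw [← hV.lev.ev j, ← hV.eV j]
    ring

include hA hR in
/-- TASK V1 (two statements). With `t = v' m` (in `R`): `p = ϖ ^ (2 i) t`: `kI_le` with `p₁ = ϖ ^ i`, `p₂ = ϖ ^ i t`,
`c = 1`: `l / 2 ≥ i`, `(l + 1) / 2 ≥ i + 1`, `u_j = ϖ ^ i t U_j`, `ϖ ^ k = ϖ ^ i ϖ ^ (k - i - 1) t P` for `k ≥ i + 1`. `v_j = ϖ ^ (2 i) t V_j`.
Membership: `v_m = ϖ ^ (2 i) t`. -/
theorem VHyp.pr_kI (hV : VHyp ϖ u v n i u' v' m U V P) {l : ℕ} (hl : 2 * i + 1 ≤ l) :
    Pr R (kI ϖ u v l) ((ϖ : D) ^ (2 * i) * v' m) := by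
  refine pr_of_le hA (v1_kI_le hA hR hV hl) isUnit_one (v_mem_kI ϖ u v l m) ?_
  rw [mul_one, hV.lev.ev m]

include hA hR in
/-- `p = ϖ ^ (4 i) t ^ 2`; `rI_le` with `p₁ = ϖ ^ (2 i) t`, `p₂ = ϖ ^ i t`; `ϖ ^ (k)` with `k ≥ 2 i + 1` is a multiple of
`ϖ ^ (2 i) t`; the minors are `ϖ ^ m' ϖ ^ (3 i) t ^ 2 (…)`, `m' ≥ i`. Membership: `v_m v_m` (`sq_mem_rI`, `v_mem_kI`). -/
theorem VHyp.pr_rI (hV : VHyp ϖ u v n i u' v' m U V P) {k : ℕ} (hk : i ≤ k) :
    Pr R (rI ϖ u v k) ((ϖ : D) ^ (4 * i) * v' m ^ 2) := by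
  obtain ⟨hϖ, hu', hv', hU, hVR, hP⟩ := v1_mem hA hR hV
  obtain ⟨d, rfl⟩ := Nat.exists_eq_add_of_le hk
  have hp : ∀ a b : ℕ, (ϖ : D) ^ (a * b) = ((ϖ : D) ^ b) ^ a := fun a b => by
    rw [mul_comm, pow_mul]
  refine pr_of_le hA (rI_le hA (p₁ := (ϖ : D) ^ (2 * i) * v' m) (p₂ := (ϖ : D) ^ i * v' m)
    (c₁ := 1) (c₂ := (ϖ : D) ^ d * v' m) (v1_kI_le hA hR hV (by omega)) R.one_mem ?_
    (v1_aI hA hR hV (by omega)) (R.mul_mem (R.pow_mem hϖ d) (hv' m)) ?_ ?_ ?_) isUnit_one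
    (sq_mem_rI ϖ u v (i + d) (v_mem_kI ϖ u v _ m) (v_mem_kI ϖ u v _ m)) ?_
  · rw [hp 2 i, hp 4 i]
    ring
  · rw [hp 4 i, pow_add]
    ring
  · intro j
    refine ⟨(ϖ : D) ^ d * (ϖ : D) ^ d * P * V j, R.mul_mem (R.mul_mem (R.mul_mem (R.pow_mem hϖ d)
      (R.pow_mem hϖ d)) hP) (hVR j), ?_⟩
    rw [← hV.lev.ev j, ← hV.eV j, hp 2 i, hp 4 i, pow_add, pow_add, pow_add, pow_one]
    linear_combination (-(((ϖ : D) ^ i) ^ 4 * (ϖ : D) ^ d * (ϖ : D) ^ d * v' m * V j)) * hV.eP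
  · intro j k
    refine ⟨(ϖ : D) ^ d * (U j * V k - U k * V j), R.mul_mem (R.pow_mem hϖ d)
      (R.sub_mem (R.mul_mem (hU j) (hVR k)) (R.mul_mem (hU k) (hVR j))), ?_⟩
    rw [← hV.lev.ev j, ← hV.eV j, ← hV.lev.ev k, ← hV.eV k, ← hV.lev.eu j, ← hV.eU j,
      ← hV.lev.eu k, ← hV.eU k, hp 2 i, hp 4 i, pow_add]
    ring
  · rw [Subring.coe_mul, ← hV.lev.ev m, hp 2 i, hp 4 i]
    ring
-- END V1

-- BEGIN V2
include hA hR in
theorem v2_mem (hV : VHyp ϖ u v n i u' v' m U V P) :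
    (ϖ : D) ∈ R ∧ (∀ j, u' j ∈ R) ∧ (∀ j, v' j ∈ R) ∧ (∀ j, U j ∈ R) ∧ (∀ j, V j ∈ R) ∧ P ∈ R :=
  ⟨hA ϖ.2, fun j => hR (Or.inl (Or.inl ⟨j, rfl⟩)), fun j => hR (Or.inl (Or.inr ⟨j, rfl⟩)),
    fun j => hR (Or.inr (Or.inl (Or.inl ⟨j, rfl⟩))), fun j => hR (Or.inr (Or.inl (Or.inr ⟨j, rfl⟩))),
    hR (Or.inr (Or.inr rfl))⟩

include hA hR in
/-- TASK V2 (three statements). The bound for the last ideal: all generators are multiples of `ϖ ^ (2 i) t`
(`v - c ϖ ^ n u = ϖ ^ (2 i) t (V - c ϖ ^ (n - i) U)`, …; `sI_le`). -/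
theorem VHyp.sI_le (hV : VHyp ϖ u v n i u' v' m U V P) :
    sI ϖ u v c n ≤ mulId R hA ((ϖ : D) ^ (2 * i) * v' m) := by
  obtain ⟨hϖ, hu', hv', hU, hVR, hP⟩ := v2_mem hA hR hV
  obtain ⟨d, hd⟩ := Nat.exists_eq_add_of_le hV.le
  have hp : ∀ a b : ℕ, (ϖ : D) ^ (a * b) = ((ϖ : D) ^ b) ^ a := fun a b => by
    rw [mul_comm, pow_mul]
  have hc : (c : D) ∈ R := hA c.2
  refine W3.sI_le hA ?_ ?_ ?_ ?_
  · intro j
    refine ⟨V j - c * (ϖ : D) ^ d * U j, R.sub_mem (hVR j) (R.mul_mem (R.mul_mem hc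
      (R.pow_mem hϖ d)) (hU j)), ?_⟩
    rw [← hV.lev.ev j, ← hV.eV j, ← hV.lev.eu j, ← hV.eU j, hp 2 i, hd, pow_add]
    ring
  · intro j k
    refine ⟨v' m * U j * U k, R.mul_mem (R.mul_mem (hv' m) (hU j)) (hU k), ?_⟩
    rw [← hV.lev.eu j, ← hV.eU j, ← hV.lev.eu k, ← hV.eU k, hp 2 i]
    ring
  · intro j
    refine ⟨(ϖ : D) ^ d * ϖ * U j, R.mul_mem (R.mul_mem (R.pow_mem hϖ d) hϖ) (hU j), ?_⟩
    rw [← hV.lev.eu j, ← hV.eU j, hp 2 i, hd, pow_add, pow_add, pow_one]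
    ring
  · refine ⟨(ϖ : D) ^ d * (ϖ : D) ^ d * P, R.mul_mem (R.mul_mem (R.pow_mem hϖ d)
      (R.pow_mem hϖ d)) hP, ?_⟩
    rw [hp 2 i, hd, pow_add, hp 2 (i + d), pow_add, pow_one]
    linear_combination (-(((ϖ : D) ^ i) ^ 2 * (ϖ : D) ^ d * (ϖ : D) ^ d)) * hV.eP

include hA hR in
/-- `i < n`: `v_m - c ϖ ^ n u_m = ϖ ^ (2 i) t (1 - c ϖ ^ (n - i) U_m)`, a unit multiple. -/
theorem VHyp.pr_sI_lt (h : WHyp A ϖ c u v n) (hV : VHyp ϖ u v n i u' v' m U V P) (hi : i < n) :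
    Pr R (sI ϖ u v c n) ((ϖ : D) ^ (2 * i) * v' m) := by
  obtain ⟨d, hd⟩ := Nat.exists_eq_add_of_le (Nat.succ_le_of_lt hi)
  have hp : ∀ a b : ℕ, (ϖ : D) ^ (a * b) = ((ϖ : D) ^ b) ^ a := fun a b => by
    rw [mul_comm, pow_mul]
  have hun : IsUnit (1 + (ϖ : D) * (-(c * (ϖ : D) ^ d * U m))) :=
    isUnit_one_add_mul h.unif _
  refine pr_of_le hA (VHyp.sI_le hA hR hV) hun (s_mem_sI ϖ u v c n m) ?_
  have hVm := hV.V_self h
  have e1 := hV.lev.ev m
  have e2 := hV.lev.eu m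
  have e3 := hV.eU m
  push_cast
  rw [← e1, ← e2, ← e3, hp 2 i, hd, Nat.succ_eq_add_one, pow_add, pow_add, pow_one]
  ring

include hA hR in
/-- `i = n` and one of `V_j - c U_j` and `P` is a unit: `v_j - c ϖ ^ n u_j = ϖ ^ (2 n) t (V_j - c U_j)`,
`ϖ ^ (2 n + 1) = ϖ ^ (2 n) t P`. -/
theorem VHyp.pr_sI_eq (h : WHyp A ϖ c u v n) (hV : VHyp ϖ u v n i u' v' m U V P) (hi : i = n)
    (hun : IsUnit P ∨ ∃ j, IsUnit (V j - c * U j)) :
    Pr R (sI ϖ u v c n) ((ϖ : D) ^ (2 * i) * v' m) := by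
  have hp : ∀ a b : ℕ, (ϖ : D) ^ (a * b) = ((ϖ : D) ^ b) ^ a := fun a b => by
    rw [mul_comm, pow_mul]
  rcases hun with hP | ⟨j, hj⟩
  · refine pr_of_le hA (VHyp.sI_le hA hR hV) hP (pow_mem_sI ϖ u v c n) ?_
    rw [hi]
    push_cast
    rw [pow_add, pow_one]
    linear_combination (-((ϖ : D) ^ (2 * n))) * hV.eP
  · refine pr_of_le hA (VHyp.sI_le hA hR hV) hj (s_mem_sI ϖ u v c n j) ?_
    have e1 := hV.lev.ev j
    have e2 := hV.lev.eu j
    have e3 := hV.eU j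
    have e4 := hV.eV j
    push_cast
    rw [← e1, ← e2, ← e3, ← e4, hi, hp 2 n]
    ring
-- END V2

end Pr

-- BEGIN V3
/-- TASK V3. The ring of case V is regular: from `Lev.prs` (the family `fam ϖ u' v'` in `dcl (A ∪ levSet u' v')`) by
`PRS.blow` with `k₀ = some (Sum.inr m)`, `w = fam P U (Function.update V m (v' m))` and `e = 1` except `e k₀ = 0`;
`dcl_dcl_range`, and the ring is the same as `v' m ∈ levSet` and `V m = 1`. -/
theorem VHyp.prs (h : WHyp A ϖ c u v n) (hV : VHyp ϖ u v n i u' v' m U V P) :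
    PRS (dcl ((A : Set D) ∪ vSet u' v' U V P)) (fam P U (Function.update V m (v' m))) := by
  classical
  have h1 := hV.lev.prs h
  have h2 := PRS.blow h1 (k₀ := some (Sum.inr m)) (w := fam P U (Function.update V m (v' m)))
    (e := fun k => if k = some (Sum.inr m) then 0 else 1) (hV.mv m) (if_pos rfl) (by
      intro k
      rcases k with _ | j | j
      · simp only [fam_none, fam_inr]
        rw [if_neg (by simp), pow_one, hV.eP]
      · simp only [fam_inl, fam_inr]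
        rw [if_neg (by simp), pow_one, hV.eU]
      · simp only [fam_inr]
        by_cases hj : j = m
        · subst hj
          rw [if_pos rfl, pow_zero, one_mul, Function.update_self]
        · rw [if_neg (by simpa using hj), pow_one, Function.update_of_ne hj, hV.eV])
  rw [dcl_dcl_range] at h2
  have hVm := hV.V_self h
  have heq : dcl ((A : Set D) ∪ levSet u' v' ∪ Set.range (fam P U (Function.update V m (v' m))))
      = dcl ((A : Set D) ∪ vSet u' v' U V P) := by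
    apply le_antisymm
    · refine dcl_le (dom_dcl _) ?_
      rintro z ((hz | hz) | ⟨k, rfl⟩)
      · exact subset_dcl _ (Or.inl hz)
      · exact subset_dcl _ (Or.inr (Or.inl hz))
      · rcases k with _ | j | j
        · exact subset_dcl _ (Or.inr (Or.inr (Or.inr rfl)))
        · exact subset_dcl _ (Or.inr (Or.inr (Or.inl (Or.inl ⟨j, rfl⟩))))
        · simp only [fam_inr]
          by_cases hj : j = m
          · subst hj
            rw [Function.update_self]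
            exact subset_dcl _ (Or.inr (Or.inl (Or.inr ⟨j, rfl⟩)))
          · rw [Function.update_of_ne hj]
            exact subset_dcl _ (Or.inr (Or.inr (Or.inl (Or.inr ⟨j, rfl⟩))))
    · refine dcl_le (dom_dcl _) ?_
      rintro z (hz | (hz | ((⟨j, rfl⟩ | ⟨j, rfl⟩) | hz)))
      · exact subset_dcl _ (Or.inl (Or.inl hz))
      · exact subset_dcl _ (Or.inl (Or.inr hz))
      · exact subset_dcl _ (Or.inr ⟨some (Sum.inl j), rfl⟩)
      · by_cases hj : j = m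
        · subst hj
          rw [hVm]
          exact (dcl _).one_mem
        · refine subset_dcl _ (Or.inr ⟨some (Sum.inr j), ?_⟩)
          rw [fam_inr, Function.update_of_ne hj]
      · rw [Set.mem_singleton_iff] at hz
        subst hz
        exact subset_dcl _ (Or.inr ⟨none, rfl⟩)
  rw [heq] at h2
  exact h2
-- END V3

section Tau

variable {τ : D →+* D} {ε κ l μ : D}

-- BEGIN V4
/-- TASK V4. The automorphism in case V. From T3 (`level_u`, `level_v` with `k = 2 i`) with the eigenvalue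
`1 + ϖ ^ n l'` of `t = v' m`; `E = 1 + ϖ ^ n l'` is a unit, `H = E⁻¹`:
`τ (V_j) = V_j`; `τ P = P (1 + ε ϖ ^ n) H`; `τ (U_j) = (U_j (1 + ϖ ^ n κ') + ω ϖ ^ i V_j) H` (apply `τ` to
`t V_j = v'_j` etc. and cancel `t`). `H = 1 + b ϖ` since `E H = 1`, `1 ≤ n`. -/
theorem VHyp.exists_tau (h : WHyp A ϖ c u v n) (hV : VHyp ϖ u v n i u' v' m U V P)
    (hτ : WTau τ ϖ c u v n ε κ l μ) :
    ∃ ω κ' l' H : D, (∃ a, ω = 1 + a * ϖ) ∧ IsUnit ω ∧ (∃ a, κ' = (n + 1 - i) * ε + a * ϖ) ∧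
      (∃ a, l' = (2 * n + 2 - 2 * i) * ε + a * ϖ) ∧ (1 + (ϖ : D) ^ n * l') * H = 1 ∧
      (∃ b, H = 1 + b * ϖ) ∧ IsUnit H ∧
      (∀ j, τ (u' j) - u' j = u' j * ((ϖ : D) ^ n * κ') + ω * (ϖ : D) ^ i * v' j) ∧
      (∀ j, τ (v' j) - v' j = v' j * ((ϖ : D) ^ n * l')) ∧
      (∀ j, τ (V j) = V j) ∧
      τ P - P = P * ((ϖ : D) ^ n * (ε - l')) * H ∧
      ∀ j, τ (U j) - U j = (U j * ((ϖ : D) ^ n * (κ' - l')) + ω * (ϖ : D) ^ i * V j) * H := by
  obtain ⟨ω, κ', hω, hωu, hκ', hu⟩ := hτ.level_u h.pos h.unif h.unif_ne_zero (i := i) (k := 2 * i)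
    (by omega) (u' := u') (v' := v') hV.lev.eu hV.lev.ev
  obtain ⟨l', hl', hv⟩ := hτ.level_v h.pos h.unif h.unif_ne_zero (k := 2 * i) (v' := v') hV.lev.ev
  obtain ⟨n', hn'⟩ := Nat.exists_eq_add_of_le h.pos
  have hE : IsUnit (1 + (ϖ : D) ^ n * l') := by
    have : (ϖ : D) ^ n * l' = (ϖ : D) * ((ϖ : D) ^ n' * l') := by
      rw [hn', pow_add, pow_one]
      ring
    rw [this]
    exact isUnit_one_add_mul h.unif _
  obtain ⟨H, hH⟩ := hE.exists_right_inv
  have ht0 := hV.t_ne_zero h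
  have hE0 : (1 + (ϖ : D) ^ n * l') ≠ 0 := hE.ne_zero
  have hcan : v' m * (1 + (ϖ : D) ^ n * l') ≠ 0 := mul_ne_zero ht0 hE0
  have h2i : 2 * i - i = i := by omega
  have hVt : ∀ j, τ (V j) = V j := by
    intro j
    have e1 := congrArg τ (hV.eV j)
    rw [map_mul, hv m, hv j, ← hV.eV j] at e1
    apply mul_left_cancel₀ hcan
    rw [e1]
    ring
  have hPt : (1 + (ϖ : D) ^ n * l') * τ P = P * (1 + ε * (ϖ : D) ^ n) := by
    have e1 := congrArg τ hV.eP
    rw [map_mul, hv m, hτ.unif] at e1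
    apply mul_left_cancel₀ ht0
    have e2 := hV.eP
    rw [pow_succ] at e1
    linear_combination e1 - (1 + ε * (ϖ : D) ^ n) * e2
  have hUt : ∀ j, (1 + (ϖ : D) ^ n * l') * τ (U j)
      = U j * (1 + (ϖ : D) ^ n * κ') + ω * (ϖ : D) ^ i * V j := by
    intro j
    have e1 := congrArg τ (hV.eU j)
    rw [map_mul, hv m, hu j, h2i] at e1
    apply mul_left_cancel₀ ht0
    have e2 := hV.eU j
    have e3 := hV.eV j
    linear_combination e1 - (1 + (ϖ : D) ^ n * κ') * e2 - ω * (ϖ : D) ^ i * e3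
  refine ⟨ω, κ', l', H, hω, hωu, hκ', ?_, hH, ?_, ?_, ?_, ?_, hVt, ?_, ?_⟩
  · obtain ⟨a, ha⟩ := hl'
    refine ⟨a, ?_⟩
    rw [ha]
    push_cast
    ring
  · refine ⟨-((ϖ : D) ^ n' * l' * H), ?_⟩
    have e : (ϖ : D) ^ n = (ϖ : D) * (ϖ : D) ^ n' := by rw [hn', pow_add, pow_one]
    rw [e] at hH
    linear_combination hH
  · exact IsUnit.of_mul_eq_one _ (by rw [mul_comm]; exact hH)
  · intro j
    rw [hu j, h2i]
    ring
  · intro j
    rw [hv j]
    ring
  · linear_combination H * hPt + (P - τ P) * hH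
  · intro j
    linear_combination H * hUt j + (U j - τ (U j)) * hH
-- END V4

-- BEGIN V5
/-- All differences are multiples of `ϖ ^ i`. -/
theorem v5_all (h : WHyp A ϖ c u v n) (hV : VHyp ϖ u v n i u' v' m U V P)
    (hτ : WTau τ ϖ c u v n ε κ l μ) {ω κ' l' H : D}
    (h1 : ∀ j, τ (u' j) - u' j = u' j * ((ϖ : D) ^ n * κ') + ω * (ϖ : D) ^ i * v' j)
    (h2 : ∀ j, τ (v' j) - v' j = v' j * ((ϖ : D) ^ n * l')) (h3 : ∀ j, τ (V j) = V j)
    (h4 : τ P - P = P * ((ϖ : D) ^ n * (ε - l')) * H)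
    (h5 : ∀ j, τ (U j) - U j = (U j * ((ϖ : D) ^ n * (κ' - l')) + ω * (ϖ : D) ^ i * V j) * H)
    (htop : dcl ((A : Set D) ∪ vSet u' v' U V P) = ⊤) (w : D) :
    ∃ a, τ w - w = a * (ϖ : D) ^ i := by
  obtain ⟨d, hd⟩ := Nat.exists_eq_add_of_le hV.le
  have hn : (ϖ : D) ^ n = (ϖ : D) ^ d * (ϖ : D) ^ i := by rw [hd, pow_add]; ring
  have hw : w ∈ dcl ((A : Set D) ∪ vSet u' v' U V P) := by rw [htop]; trivial
  refine diff_of_dcl ?_ w hw
  rintro z (hz | ((⟨j, rfl⟩ | ⟨j, rfl⟩) | ((⟨j, rfl⟩ | ⟨j, rfl⟩) | hz)))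
  · refine hτ.aug_dvd ⟨(ϖ : D) ^ d * ϖ, ?_⟩ (fun j => ⟨u' j, ?_⟩) (fun j => ⟨(ϖ : D) ^ i * v' j, ?_⟩)
      ⟨z, hz⟩
    · rw [pow_succ, hn]
      ring
    · rw [← hV.lev.eu j, mul_comm]
    · rw [← hV.lev.ev j, two_mul, pow_add]
      ring
  · refine ⟨u' j * ((ϖ : D) ^ d * κ') + ω * v' j, ?_⟩
    rw [h1, hn]
    ring
  · refine ⟨v' j * ((ϖ : D) ^ d * l'), ?_⟩
    rw [h2, hn]
    ring
  · refine ⟨(U j * ((ϖ : D) ^ d * (κ' - l')) + ω * V j) * H, ?_⟩
    rw [h5, hn]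
    ring
  · refine ⟨0, ?_⟩
    rw [h3]
    ring
  · rw [Set.mem_singleton_iff] at hz
    subst hz
    refine ⟨z * ((ϖ : D) ^ d * (ε - l')) * H, ?_⟩
    rw [h4, hn]
    ring

/-- TASK V5. The augmentation ideal in case V is `(ϖ ^ i)` in the following two cases: `i < n`: `y = U_m`,
`τ U_m - U_m = ϖ ^ i (ω + ϖ ^ (n - i) (κ' - l') U_m) H`. `i = n`: if `V_j - c U_j` is a unit then `y = U_j`:
`τ U_j - U_j = ϖ ^ n (ω V_j + (κ' - l') U_j) H` and `ω V_j + (κ' - l') U_j = (V_j - c U_j) + b ϖ` (`ω = 1 + a ϖ`,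
`κ' - l' = (n + 1 - n) ε - (2 n + 2 - 2 n) ε + … = - ε + …`, `c = ε + a ϖ`); if `P` is a unit then `y = P`:
`ε - l' = ε - 2 ε + … = - ε + b ϖ`. All differences are multiples of `ϖ ^ i` (`diff_of_dcl` on `A ∪ vSet`,
`WTau.aug_dvd`: `ϖ ^ (n + 1)`, `u_j = ϖ ^ i u'_j`, `v_j = ϖ ^ (2 i) v'_j`, and V4; `i ≤ n`). -/
theorem VHyp.principal (h : WHyp A ϖ c u v n) (hV : VHyp ϖ u v n i u' v' m U V P)
    (hτ : WTau τ ϖ c u v n ε κ l μ)
    (hun : i < n ∨ (i = n ∧ (IsUnit P ∨ ∃ j, IsUnit (V j - c * U j))))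
    (htop : dcl ((A : Set D) ∪ vSet u' v' U V P) = ⊤) :
    ∃ y, τ y - y ≠ 0 ∧ ∀ w, ∃ a, τ w - w = a * (τ y - y) := by
  obtain ⟨ω, κ', l', H, ⟨a, ha⟩, hωu, ⟨b, hb⟩, ⟨b', hb'⟩, hEH, ⟨b'', hb''⟩, hHu, h1, h2, h3, h4, h5⟩ :=
    hV.exists_tau h hτ
  have hall := v5_all h hV hτ h1 h2 h3 h4 h5 htop
  have hpow : (ϖ : D) ^ i ≠ 0 := pow_ne_zero _ h.unif_ne_zero
  have hmem : ∀ x : D, (ϖ : D) * x ∈ maximalIdeal D := fun x => Ideal.mul_mem_right x _ h.unif
  rcases hun with hlt | ⟨rfl, hP | ⟨j, hj⟩⟩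
  · obtain ⟨d, hd⟩ := Nat.exists_eq_add_of_le (Nat.succ_le_of_lt hlt)
    have hVm := hV.V_self h
    have ht : IsUnit ((ω + (ϖ : D) * ((ϖ : D) ^ d * (κ' - l') * U m)) * H) :=
      (isUnit_add_of hωu (hmem _)).mul hHu
    refine principal_of hpow ht (y := U m) ?_ hall
    rw [h5, hVm]
    have hn : (ϖ : D) ^ n = (ϖ : D) ^ i * ϖ * (ϖ : D) ^ d := by
      rw [hd, Nat.succ_eq_add_one, pow_add, pow_add, pow_one]
    rw [hn]
    ring
  · have ht : IsUnit (P * (-ε + (ϖ : D) * (-b')) * H) :=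
      (hP.mul (isUnit_add_of hτ.unit.neg (hmem _))).mul hHu
    refine principal_of hpow ht (y := P) ?_ hall
    rw [h4, hb']
    ring
  · obtain ⟨b₃, hc⟩ := hτ.hc
    have ht : IsUnit (((V j - c * U j) + (ϖ : D) * (a * V j + b₃ * U j + (b - b') * U j)) * H) :=
      (isUnit_add_of hj (hmem _)).mul hHu
    refine principal_of hpow ht (y := U j) ?_ hall
    rw [h5, hb, hb', ha, hc]
    ring
-- END V5

end Tau

section Deep

/-- The elements which become principal in the deep case. -/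
def vG (v' U V : J → D) (m : J) (P c : D) : Option (Option J) → D := fun o =>
  o.elim P fun o' => o'.elim (v' m) fun j => V j - c * U j

/-- The deep case V: `i = n`, all `V_j - c U_j` and `P` are in the maximal ideal, and `g = vG o₀` divides all `vG o = g q_o`. -/
structure VDHyp (ϖ c : A) (u v : J → A) (n : ℕ) (u' v' : J → D) (m : J) (U V : J → D) (P : D)
    (o₀ : Option (Option J)) (q : Option (Option J) → D) : Prop where
  hyp : VHyp ϖ u v n n u' v' m U V P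
  mP : P ∈ maximalIdeal D
  mS : ∀ j, V j - c * U j ∈ maximalIdeal D
  ne : vG v' U V m P c o₀ ≠ 0
  eq : ∀ o, vG v' U V m P c o₀ * q o = vG v' U V m P c o

variable {o₀ : Option (Option J)} {q : Option (Option J) → D}

-- BEGIN V6
/-- TASK V6. The last ideal in the deep case: `p = ϖ ^ (2 n) t g`, `g = vG o₀`. `v_j - c ϖ ^ n u_j = ϖ ^ (2 n) t (V_j - c U_j)`,
`u_j u_k = ϖ ^ (2 n) t ^ 2 U_j U_k`, `ϖ ^ (n + 1) u_j = ϖ ^ (2 n) t (t P) U_j`, `ϖ ^ (2 n + 1) = ϖ ^ (2 n) t P`; `t`, `P`, `V_j - c U_j` are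
multiples of `g` in `R`. Membership: `g = V_j - c U_j`: `s_mem_sI`; `g = P`: `pow_mem_sI`; `g = t`: `u_m u_m = ϖ ^ (2 n) t ^ 2 U_m ^ 2`
and `U_m` is a unit, since `1 - c U_m = V_m - c U_m` is in the maximal ideal (so `c U_m` is a unit). -/
theorem VDHyp.pr_sI (h : WHyp A ϖ c u v n) (hD : VDHyp ϖ c u v n u' v' m U V P o₀ q)
    {R : Subring D} (hA : A ≤ R) (hR : vSet u' v' U V P ⊆ R) (hq : ∀ o, q o ∈ R) :
    Pr R (sI ϖ u v c n) ((ϖ : D) ^ (2 * n) * v' m * vG v' U V m P c o₀) := by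
  have hV := hD.hyp
  have hϖ : (ϖ : D) ∈ R := hA ϖ.2
  have hv' : ∀ j, v' j ∈ R := fun j => hR (Or.inl (Or.inr ⟨j, rfl⟩))
  have hU : ∀ j, U j ∈ R := fun j => hR (Or.inr (Or.inl (Or.inl ⟨j, rfl⟩)))
  have hp : ∀ a b : ℕ, (ϖ : D) ^ (a * b) = ((ϖ : D) ^ b) ^ a := fun a b => by
    rw [mul_comm, pow_mul]
  have eP : vG v' U V m P c o₀ * q none = P := hD.eq none
  have et : vG v' U V m P c o₀ * q (some none) = v' m := hD.eq (some none)
  have es : ∀ j, vG v' U V m P c o₀ * q (some (some j)) = V j - c * U j :=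
    fun j => hD.eq (some (some j))
  have hle : sI ϖ u v c n ≤ mulId R hA ((ϖ : D) ^ (2 * n) * v' m * vG v' U V m P c o₀) := by
    refine W3.sI_le hA ?_ ?_ ?_ ?_
    · intro j
      refine ⟨q (some (some j)), hq _, ?_⟩
      rw [← hV.lev.ev j, ← hV.eV j, ← hV.lev.eu j, ← hV.eU j, hp 2 n]
      linear_combination (-(((ϖ : D) ^ n) ^ 2 * v' m)) * es j
    · intro j k
      refine ⟨q (some none) * U j * U k, R.mul_mem (R.mul_mem (hq _) (hU j)) (hU k), ?_⟩
      rw [← hV.lev.eu j, ← hV.eU j, ← hV.lev.eu k, ← hV.eU k, hp 2 n]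
      linear_combination (-(((ϖ : D) ^ n) ^ 2 * v' m * U j * U k)) * et
    · intro j
      refine ⟨q none * v' m * U j, R.mul_mem (R.mul_mem (hq _) (hv' m)) (hU j), ?_⟩
      rw [← hV.lev.eu j, ← hV.eU j, hp 2 n, pow_succ]
      linear_combination (-(((ϖ : D) ^ n) ^ 2 * v' m * v' m * U j)) * eP
        - (((ϖ : D) ^ n) ^ 2 * v' m * U j) * hV.eP
    · refine ⟨q none, hq _, ?_⟩
      rw [pow_succ]
      linear_combination (-((ϖ : D) ^ (2 * n) * v' m)) * eP - (ϖ : D) ^ (2 * n) * hV.eP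
  rcases o₀ with _ | _ | j
  · refine pr_of_le hA hle isUnit_one (pow_mem_sI ϖ u v c n) ?_
    push_cast
    rw [pow_succ, mul_one]
    change (ϖ : D) ^ (2 * n) * ϖ = (ϖ : D) ^ (2 * n) * v' m * P
    linear_combination (-((ϖ : D) ^ (2 * n))) * hV.eP
  · have hVm := hV.V_self h
    have hmem := hD.mS m
    rw [hVm] at hmem
    have hcU : IsUnit ((c : D) * U m) := by
      have h1 : (c : D) * U m = 1 + (-(1 - c * U m)) := by ring
      rw [h1]
      exact isUnit_one_add (Ideal.neg_mem_iff _ |>.mpr hmem)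
    have hUm : IsUnit (U m) := isUnit_of_mul_isUnit_right hcU
    refine pr_of_le hA hle (hUm.mul hUm) (uu_mem_sI ϖ u v c n m m) ?_
    change ((u m * u m : A) : D) = (ϖ : D) ^ (2 * n) * v' m * v' m * (U m * U m)
    rw [Subring.coe_mul, ← hV.lev.eu m, ← hV.eU m, hp 2 n]
    ring
  · refine pr_of_le hA hle isUnit_one (s_mem_sI ϖ u v c n j) ?_
    push_cast
    rw [mul_one]
    change (v j : D) - c * (ϖ : D) ^ n * u j = (ϖ : D) ^ (2 * n) * v' m * (V j - c * U j)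
    rw [← hV.lev.ev j, ← hV.eV j, ← hV.lev.eu j, ← hV.eU j, hp 2 n]
    ring
-- END V6

-- BEGIN V7
/-- The index of `vG o` in the family. -/
def v7_idx (m : J) : Option (Option J) → Option (J ⊕ J) := fun o =>
  o.elim none fun o' => o'.elim (some (Sum.inr m)) fun j => some (Sum.inl j)

/-- The family after the first blow-up. -/
def v7_w (v' U V : J → D) (m : J) (P c : D) : Option (J ⊕ J) → D :=
  fam P (fun j => V j - c * U j) (Function.update V m (v' m))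

theorem v7_w_idx (v' U V : J → D) (m : J) (P c : D) (o : Option (Option J)) :
    v7_w v' U V m P c (v7_idx m o) = vG v' U V m P c o := by
  rcases o with _ | _ | j
  · rfl
  · change Function.update V m (v' m) m = v' m
    rw [Function.update_self]
  · rfl

theorem v7_first (h : WHyp A ϖ c u v n) (hD : VDHyp ϖ c u v n u' v' m U V P o₀ q) :
    PRS (dcl ((A : Set D) ∪ levSet u' v' ∪ Set.range (v7_w v' U V m P c)))
      (v7_w v' U V m P c) := by
  classical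
  have hV := hD.hyp
  have h1 := hV.lev.prs h
  have h2 : PRS (dcl ((A : Set D) ∪ levSet u' v')) (fam (ϖ : D) (fun j => v' j - c * u' j) v') := by
    refine h1.lin (Finset.univ.image fun j : J => (some (Sum.inl j) : Option (J ⊕ J)))
      (fun k => match k with
        | some (Sum.inl j) => some (Sum.inr j)
        | k => k) ?_ (fun _ => -(c : D)) (fun _ => 1) ?_ ?_ ?_ ?_ ?_
    · intro k hk
      simp only [Finset.mem_image, Finset.mem_univ, true_and] at hk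
      obtain ⟨j, rfl⟩ := hk
      simp
    · intro k _
      exact ⟨(dcl _).neg_mem (subset_dcl _ (Or.inl c.2)), h.unit.neg⟩
    · intro k _
      exact (dcl _).one_mem
    · intro k hk
      simp only [Finset.mem_image, Finset.mem_univ, true_and] at hk
      obtain ⟨j, rfl⟩ := hk
      exact ⟨hV.mu j, hV.mv j⟩
    · intro k hk
      simp only [Finset.mem_image, Finset.mem_univ, true_and] at hk
      obtain ⟨j, rfl⟩ := hk
      simp only [fam_inl, fam_inr]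
      ring
    · intro k hk
      rcases k with _ | j | j
      · rfl
      · exfalso
        apply hk
        simp
      · rfl
  have h3 := PRS.blow h2 (k₀ := some (Sum.inr m)) (w := v7_w v' U V m P c)
    (e := fun k => if k = some (Sum.inr m) then 0 else 1) (hV.mv m) (if_pos rfl) (by
      intro k
      unfold v7_w
      rcases k with _ | j | j
      · simp only [fam_none, fam_inr]
        rw [if_neg (by simp), pow_one, hV.eP]
      · simp only [fam_inl, fam_inr]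
        rw [if_neg (by simp), pow_one, ← hV.eU j, ← hV.eV j]
        ring
      · simp only [fam_inr]
        by_cases hj : j = m
        · subst hj
          rw [if_pos rfl, pow_zero, one_mul, Function.update_self]
        · rw [if_neg (by simpa using hj), pow_one, Function.update_of_ne hj, hV.eV])
  rwa [dcl_dcl_range] at h3

/-- TASK V7. The ring of the deep case V. Start with `Lev.prs` for `i = n` (family `fam ϖ u' v'`). By `PRS.lin` (A2) replace `u'_j` by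
`v'_j - c u'_j` (`T` = the indices `inl j`, `g (inl j) = inr j`, coefficients `-c`, `1`; all `u'_j`, `v'_j` are in the maximal ideal). Then
`PRS.blow` with `k₀ = inr m`, `e = 1` elsewhere: the family `fam P (fun j => V j - c * U j) (Function.update V m (v' m))` in
`dcl (A ∪ vSet …)` (`U_j = c⁻¹ (V_j - (V_j - c U_j))`, `c⁻¹ ∈ A` by `Dom`). Then `PRS.blow` again with `k₀` the index of `vG o₀`
(`none` for `P`, `inr m` for `t = v' m`, `inl j`), `e = 1` on `none`, `inl j`, `inr m` other than `k₀`, `e = 0` on `k₀` and on `inr j`, `j ≠ m`. -/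
theorem VDHyp.prs (h : WHyp A ϖ c u v n) (hD : VDHyp ϖ c u v n u' v' m U V P o₀ q) :
    ∃ (κ : Type) (f : κ → D), PRS (dcl ((A : Set D) ∪ (vSet u' v' U V P ∪ Set.range q))) f := by
  classical
  have hV := hD.hyp
  have h1 := v7_first h hD
  have hgm : vG v' U V m P c o₀ ∈ maximalIdeal D := by
    rcases o₀ with _ | _ | j
    · exact hD.mP
    · exact hV.mv m
    · exact hD.mS j
  have hq0 : q o₀ = 1 := by
    apply mul_left_cancel₀ hD.ne
    rw [hD.eq o₀, mul_one]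
  let w := v7_w v' U V m P c
  let w2 : Option (J ⊕ J) → D := fun k =>
    if k = v7_idx m o₀ then w k else
      match k with
      | none => q none
      | some (Sum.inl j) => q (some (some j))
      | some (Sum.inr j) => if j = m then q (some none) else w (some (Sum.inr j))
  let e2 : Option (J ⊕ J) → ℕ := fun k =>
    if k = v7_idx m o₀ then 0 else
      match k with
      | none => 1
      | some (Sum.inl _) => 1
      | some (Sum.inr j) => if j = m then 1 else 0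
  have hw2 : ∀ o, o ≠ o₀ → w2 (v7_idx m o) = q o := by
    intro o ho
    have hne : v7_idx m o ≠ v7_idx m o₀ := by
      intro he
      apply ho
      rcases o with _ | _ | j <;> rcases o₀ with _ | _ | j' <;> simp_all [v7_idx]
    simp only [w2]
    rw [if_neg hne]
    rcases o with _ | _ | j
    · rfl
    · change (if m = m then q (some none) else w (some (Sum.inr m))) = q (some none)
      rw [if_pos rfl]
    · rfl
  have h2 := PRS.blow h1 (k₀ := v7_idx m o₀) (w := w2) (e := e2) (by rw [v7_w_idx]; exact hgm)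
    (if_pos rfl) (by
      intro k
      rw [v7_w_idx]
      simp only [w2, e2]
      by_cases hk : k = v7_idx m o₀
      · rw [if_pos hk, if_pos hk, pow_zero, one_mul]
      · rw [if_neg hk, if_neg hk]
        rcases k with _ | j | j
        · change vG v' U V m P c o₀ ^ 1 * q none = P
          rw [pow_one, hD.eq none]
          rfl
        · change vG v' U V m P c o₀ ^ 1 * q (some (some j)) = V j - c * U j
          rw [pow_one, hD.eq (some (some j))]
          rfl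
        · change vG v' U V m P c o₀ ^ (if j = m then 1 else 0) *
            (if j = m then q (some none) else w (some (Sum.inr j))) = w (some (Sum.inr j))
          by_cases hj : j = m
          · subst hj
            rw [if_pos rfl, if_pos rfl, pow_one, hD.eq (some none)]
            change v' j = Function.update V j (v' j) j
            rw [Function.update_self]
          · rw [if_neg hj, if_neg hj, pow_zero, one_mul])
  rw [dcl_dcl_range] at h2
  have hVm := hV.V_self h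
  have heq : dcl ((A : Set D) ∪ levSet u' v' ∪ Set.range (v7_w v' U V m P c) ∪ Set.range w2)
      = dcl ((A : Set D) ∪ (vSet u' v' U V P ∪ Set.range q)) := by
    apply le_antisymm
    · have hc : (c : D) ∈ dcl ((A : Set D) ∪ (vSet u' v' U V P ∪ Set.range q)) :=
        subset_dcl _ (Or.inl c.2)
      have hU : ∀ j, U j ∈ dcl ((A : Set D) ∪ (vSet u' v' U V P ∪ Set.range q)) := fun j =>
        subset_dcl _ (Or.inr (Or.inl (Or.inr (Or.inl (Or.inl ⟨j, rfl⟩)))))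
      have hVV : ∀ j, V j ∈ dcl ((A : Set D) ∪ (vSet u' v' U V P ∪ Set.range q)) := fun j =>
        subset_dcl _ (Or.inr (Or.inl (Or.inr (Or.inl (Or.inr ⟨j, rfl⟩)))))
      have hq : ∀ o, q o ∈ dcl ((A : Set D) ∪ (vSet u' v' U V P ∪ Set.range q)) := fun o =>
        subset_dcl _ (Or.inr (Or.inr ⟨o, rfl⟩))
      have hw : ∀ k, w k ∈ dcl ((A : Set D) ∪ (vSet u' v' U V P ∪ Set.range q)) := by
        intro k
        rcases k with _ | j | j
        · exact subset_dcl _ (Or.inr (Or.inl (Or.inr (Or.inr rfl))))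
        · exact (dcl _).sub_mem (hVV j) ((dcl _).mul_mem hc (hU j))
        · change Function.update V m (v' m) j ∈ _
          by_cases hj : j = m
          · subst hj
            rw [Function.update_self]
            exact subset_dcl _ (Or.inr (Or.inl (Or.inl (Or.inr ⟨j, rfl⟩))))
          · rw [Function.update_of_ne hj]
            exact hVV j
      refine dcl_le (dom_dcl _) ?_
      rintro z (((hz | hz) | ⟨k, rfl⟩) | ⟨k, rfl⟩)
      · exact subset_dcl _ (Or.inl hz)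
      · exact subset_dcl _ (Or.inr (Or.inl (Or.inl hz)))
      · exact hw k
      · simp only [w2]
        by_cases hk : k = v7_idx m o₀
        · rw [if_pos hk]
          exact hw k
        · rw [if_neg hk]
          rcases k with _ | j | j
          · exact hq none
          · exact hq _
          · change (if j = m then q (some none) else w (some (Sum.inr j))) ∈ _
            by_cases hj : j = m
            · rw [if_pos hj]
              exact hq _
            · rw [if_neg hj]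
              exact hw _
    · set R2 := dcl ((A : Set D) ∪ levSet u' v' ∪ Set.range (v7_w v' U V m P c) ∪ Set.range w2)
        with hR2
      have hwR : ∀ k, w k ∈ R2 := fun k => subset_dcl _ (Or.inl (Or.inr ⟨k, rfl⟩))
      have hw2R : ∀ k, w2 k ∈ R2 := fun k => subset_dcl _ (Or.inr ⟨k, rfl⟩)
      have hcR : (c : D) ∈ R2 := subset_dcl _ (Or.inl (Or.inl (Or.inl c.2)))
      obtain ⟨cb, hcb⟩ := h.unit.exists_right_inv
      have hcbR : cb ∈ R2 := dom_dcl _ _ hcR _ hcb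
      have hVR : ∀ j, V j ∈ R2 := by
        intro j
        by_cases hj : j = m
        · subst hj
          rw [hVm]
          exact R2.one_mem
        · have := hwR (some (Sum.inr j))
          change Function.update V m (v' m) j ∈ R2 at this
          rwa [Function.update_of_ne hj] at this
      have hUR : ∀ j, U j ∈ R2 := by
        intro j
        have h5 : V j - c * U j ∈ R2 := hwR (some (Sum.inl j))
        have h6 : cb * (V j - (V j - c * U j)) ∈ R2 :=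
          R2.mul_mem hcbR (R2.sub_mem (hVR j) h5)
        have h7 : cb * (V j - (V j - c * U j)) = U j := by
          linear_combination (U j) * hcb
        rwa [h7] at h6
      refine dcl_le (dom_dcl _) ?_
      rintro z (hz | ((hz | ((⟨j, rfl⟩ | ⟨j, rfl⟩) | hz)) | ⟨o, rfl⟩))
      · exact subset_dcl _ (Or.inl (Or.inl (Or.inl hz)))
      · exact subset_dcl _ (Or.inl (Or.inl (Or.inr hz)))
      · exact hUR j
      · exact hVR j
      · rw [Set.mem_singleton_iff] at hz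
        subst hz
        exact hwR none
      · by_cases ho : o = o₀
        · rw [ho, hq0]
          exact R2.one_mem
        · have h8 := hw2R (v7_idx m o)
          rwa [hw2 o ho] at h8
  rw [heq] at h2
  exact ⟨_, w2, h2⟩
-- END V7

-- BEGIN V8
/-- TASK V8. All `vG o` are eigenvectors with nearly the same eigenvalue: `τ (vG o) = vG o (1 + ϖ ^ n e_o)` with
`e_o = - ε + a ϖ`. `t = v' m`: `l' = 2 ε + a ϖ = - ε + 3 ε + …` (`i = n` in V4; `3 = a ϖ`). `P`: V4, `(ε - l') H`. `V_j - c U_j`: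
`t (V_j - c U_j) = v'_j - c u'_j` and T3 (`level_s`): the eigenvalue is `(1 + ϖ ^ n μ') H`, so
`e = (μ' - l') H`, `μ' = (1 - 3 n) ε + …`, `μ' - l' = (1 - 3 n - 2) ε + … = - ε - 3 n ε + …` (`eigen_quot`, T1). -/
theorem VDHyp.tau_vG (h : WHyp A ϖ c u v n) (hD : VDHyp ϖ c u v n u' v' m U V P o₀ q)
    {τ : D →+* D} {ε κ l μ : D} (hτ : WTau τ ϖ c u v n ε κ l μ) (o : Option (Option J)) :
    ∃ e, (∃ a, e = - ε + a * ϖ) ∧
      τ (vG v' U V m P c o) = vG v' U V m P c o * (1 + (ϖ : D) ^ n * e) := by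
  have hV := hD.hyp
  have hn := h.pos
  have hϖ := h.unif
  have hϖ0 := h.unif_ne_zero
  have ht0 := hV.t_ne_zero h
  obtain ⟨ω, κ', l', H, ⟨a1, ha1⟩, hω, ⟨a2, ha2⟩, ⟨a3, ha3⟩, hH, ⟨bH, hbH⟩, hHu, hu', hv', hVV, hP, hU⟩ :=
    hV.exists_tau h hτ
  obtain ⟨b3, hb3⟩ := hτ.three
  obtain ⟨K, hK⟩ : ∃ K, K = b3 * ε + a3 := ⟨_, rfl⟩
  have hl : l' = - ε + K * ϖ := by
    rw [ha3, hK]
    linear_combination ε * hb3
  rcases o with _ | _ | j
  · -- `P`
    refine ⟨(ε - l') * H, ⟨b3 * ε + 2 * ε * bH - K - K * bH * ϖ, ?_⟩, ?_⟩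
    · rw [hl, hbH]
      linear_combination ε * hb3
    · show τ P = P * (1 + (ϖ : D) ^ n * ((ε - l') * H))
      linear_combination hP
  · refine ⟨l', ⟨K, hl⟩, ?_⟩
    show τ (v' m) = v' m * (1 + (ϖ : D) ^ n * l')
    linear_combination hv' m
  · obtain ⟨μ', ⟨a4, ha4⟩, hμ'⟩ := hτ.level_s hn hϖ hϖ0 hV.lev.eu hV.lev.ev
    have hq : v' m * (V j - c * U j) = v' j - c * u' j := by
      rw [← hV.eU j, ← hV.eV j]
      ring
    have hx : τ (v' m) = v' m * (1 + (ϖ : D) ^ n * l') := by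
      linear_combination hv' m
    have hE : IsUnit (1 + (ϖ : D) ^ n * l') := IsUnit.of_mul_eq_one _ hH
    obtain ⟨η, hη, hη1, hη2, -⟩ := eigen_quot ht0 hq hx (hμ' j) hE
    obtain ⟨k, hk⟩ : ∃ k, n = k + 1 := ⟨n - 1, by omega⟩
    have hpow : (ϖ : D) ^ n = (ϖ : D) ^ k * ϖ := by rw [hk, pow_succ]
    obtain ⟨M, hM⟩ : ∃ M, M = b3 * ε * (1 - n) + a4 - K := ⟨_, rfl⟩
    have hμl : μ' - l' = - ε + M * ϖ := by
      rw [ha4, hl, hM]
      linear_combination ε * (1 - n) * hb3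
    have hη3 : η = 1 + (-((ϖ : D) ^ k * l' * η)) * ϖ := by
      have h5 := hη1
      rw [hpow] at h5
      linear_combination h5
    obtain ⟨b', hb'⟩ : ∃ b', b' = -((ϖ : D) ^ k * l' * η) := ⟨_, rfl⟩
    rw [← hb'] at hη3
    refine ⟨(μ' - l') * η, ⟨M - ε * b' + M * b' * ϖ, ?_⟩, ?_⟩
    · rw [hμl, hη3]
      ring
    · show τ (V j - c * U j) = (V j - c * U j) * (1 + (ϖ : D) ^ n * ((μ' - l') * η))
      rw [hη2]
      linear_combination (V j - c * U j) * hη1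
-- END V8

-- BEGIN V9
/-- TASK V9. The augmentation ideal in the deep case V is `(ϖ ^ n g)`, `g = vG o₀`, `y = g`. By V8. `diff_of_dcl` on
`A ∪ (vSet ∪ range q)`: `A`: `WTau.aug_dvd` with `d = ϖ ^ n g`: `ϖ ^ (n + 1) = ϖ ^ n t P`, `u_j = ϖ ^ n t U_j`, `v_j = ϖ ^ (2 n) t V_j`
(`t = g q`). `u'_j`, `v'_j`, `V_j`, `P`: V4. `U_j`: `τ U_j - U_j = ϖ ^ n ((κ' - l') U_j + ω V_j) H` and
`(κ' - l') U_j + ω V_j = (V_j - c U_j) + a ϖ` as in V5, `ϖ = t P`. `q_o`: `eigen_quot` (T1): `τ q_o - q_o = q_o ϖ ^ n (e_o - e_{o₀}) h`, and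
`e_o - e_{o₀} = a ϖ`, `ϖ = t P` is a multiple of `g`. -/
theorem VDHyp.principal (h : WHyp A ϖ c u v n) (hD : VDHyp ϖ c u v n u' v' m U V P o₀ q)
    {τ : D →+* D} {ε κ l μ : D} (hτ : WTau τ ϖ c u v n ε κ l μ)
    (htop : dcl ((A : Set D) ∪ (vSet u' v' U V P ∪ Set.range q)) = ⊤) :
    ∃ y, τ y - y ≠ 0 ∧ ∀ w, ∃ a, τ w - w = a * (τ y - y) := by
  have hV := hD.hyp
  have hn := h.pos
  have hϖ := h.unif
  have hϖ0 := h.unif_ne_zero
  have ht0 := hV.t_ne_zero h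
  obtain ⟨ω, κ', l', H, ⟨a1, ha1⟩, hω, ⟨a2, ha2⟩, ⟨a3, ha3⟩, hH, ⟨bH, hbH⟩, hHu, hu', hv', hVV, hP, hU⟩ :=
    hV.exists_tau h hτ
  obtain ⟨b3, hb3⟩ := hτ.three
  obtain ⟨a5, ha5⟩ := hτ.hc
  obtain ⟨g, hg⟩ : ∃ g, g = vG v' U V m (P : D) (c : D) o₀ := ⟨_, rfl⟩
  have hg0 : g ≠ 0 := hg ▸ hD.ne
  have hqP : P = g * q none := by rw [hg]; exact (hD.eq none).symm
  have hqt : v' m = g * q (some none) := by rw [hg]; exact (hD.eq (some none)).symm
  have hqs : ∀ j, V j - c * U j = g * q (some (some j)) := fun j => by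
    rw [hg]; exact (hD.eq (some (some j))).symm
  have hϖP : (ϖ : D) = v' m * P := hV.eP.symm
  obtain ⟨e₀, ⟨a₀, ha₀⟩, he₀⟩ := hD.tau_vG h hτ o₀
  rw [← hg] at he₀
  have he₀u : IsUnit e₀ := by
    rw [ha₀]
    exact isUnit_add_of hτ.unit.neg (Ideal.mul_mem_left _ _ hϖ)
  have hE₀ : IsUnit (1 + (ϖ : D) ^ n * e₀) := by
    apply isUnit_one_add
    apply Ideal.mul_mem_right
    exact Ideal.pow_mem_of_mem _ hϖ n (by omega)
  refine principal_of (c := (ϖ : D) ^ n * g) (y := g) (t := e₀) (mul_ne_zero (pow_ne_zero _ hϖ0) hg0) he₀u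
    (by rw [he₀]; ring) ?_
  intro w
  have hw : w ∈ dcl ((A : Set D) ∪ (vSet u' v' U V P ∪ Set.range q)) := by rw [htop]; trivial
  refine diff_of_dcl (S := (A : Set D) ∪ (vSet u' v' U V P ∪ Set.range q)) ?_ w hw
  intro z hz
  rcases hz with hz | (hz | ⟨o, rfl⟩)
  · obtain ⟨b, hb⟩ := hτ.aug_dvd (d := (ϖ : D) ^ n * g)
      ⟨v' m * q none, by
        have e1 : (ϖ : D) ^ (n + 1) = (ϖ : D) ^ n * (v' m * P) := by rw [← hϖP, pow_succ]
        rw [e1]
        nth_rewrite 1 [hqP]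
        ring⟩
      (fun j => ⟨q (some none) * U j, by
        rw [← hV.lev.eu j, ← hV.eU j]
        nth_rewrite 1 [hqt]
        ring⟩)
      (fun j => ⟨(ϖ : D) ^ n * q (some none) * V j, by
        rw [← hV.lev.ev j, ← hV.eV j, two_mul, pow_add]
        nth_rewrite 1 [hqt]
        ring⟩) ⟨z, hz⟩
    exact ⟨b, hb⟩
  · rcases hz with (⟨j, rfl⟩ | ⟨j, rfl⟩) | ((⟨j, rfl⟩ | ⟨j, rfl⟩) | hz)
    · refine ⟨q (some none) * (U j * κ' + ω * V j), ?_⟩
      rw [hu' j, ← hV.eU j, ← hV.eV j]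
      linear_combination (U j * κ' + ω * V j) * (ϖ : D) ^ n * hqt
    · refine ⟨q (some none) * V j * l', ?_⟩
      rw [hv' j, ← hV.eV j]
      linear_combination (V j * l') * (ϖ : D) ^ n * hqt
    · refine ⟨(q (some (some j)) + (a1 * V j + (a2 - a3 + b3 * 0) * U j + a5 * U j) * q (some none) * P) * H, ?_⟩
      rw [hU j]
      have e2 : (κ' - l') * U j + ω * V j = g * q (some (some j)) +
          (a1 * V j + (a2 - a3) * U j + a5 * U j) * ϖ := by
        rw [← hqs j, ha1, ha2, ha3, ha5]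
        ring
      have e3 : (ϖ : D) = g * q (some none) * P := by rw [← hqt]; exact hϖP
      have e4 : (κ' - l') * U j + ω * V j = g * q (some (some j)) +
          (a1 * V j + (a2 - a3) * U j + a5 * U j) * (g * q (some none) * P) := by
        rw [e2]
        linear_combination (a1 * V j + (a2 - a3) * U j + a5 * U j) * e3
      linear_combination (ϖ : D) ^ n * H * e4
    · exact ⟨0, by rw [hVV j]; ring⟩
    · have hz' : z = P := hz
      rw [hz']
      refine ⟨q none * (ε - l') * H, ?_⟩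
      rw [hP]
      linear_combination ((ϖ : D) ^ n * (ε - l') * H) * hqP
  · obtain ⟨e₁, ⟨a₁, ha₁⟩, he₁⟩ := hD.tau_vG h hτ o
    have hqo : g * q o = vG v' U V m P c o := by rw [hg]; exact hD.eq o
    obtain ⟨η, hη, hη1, hη2, hη3⟩ := eigen_quot hg0 hqo he₀ he₁ hE₀
    have e3 : (ϖ : D) = g * q (some none) * P := by rw [← hqt]; exact hϖP
    refine ⟨q o * (a₁ - a₀) * q (some none) * P * η, ?_⟩
    rw [hη3, ha₁, ha₀]
    linear_combination (q o * (a₁ - a₀) * (ϖ : D) ^ n * η) * e3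
-- END V9

end Deep

end Pool.Agent.Lib.MP_6a3dac_ag.W3
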