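import Pool.Agent.Lib.MP_6a3dac_ag.W3.Base

/-!
# The ideals do not depend on the choice of the generators
-/

set_option autoImplicit false
set_option linter.unusedSectionVars false
set_option linter.unusedVariables false

namespace Pool.Agent.Lib.MP_6a3dac_ag.W3

open IsLocalRing
open Pool.Agent.Lib.MP_6a3dac_ag Pool.Agent.Lib.MP_6a3dac_ag.QD

variable {A : Type} [CommRing A] {K J : Type} [Fintype J]

/-- The ideal of the errors: `(u ^ 2, ϖ ^ (n + 1) u, ϖ ^ (2 n + 2), u v, v ^ 2, ϖ ^ n v)`. -/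
def errI (ϖ : A) (u v : J → A) (n : ℕ) : Ideal A :=
  Ideal.span (Set.range u) * Ideal.span (Set.range u) ⊔
    Ideal.span {ϖ ^ (n + 1)} * Ideal.span (Set.range u) ⊔ Ideal.span {ϖ ^ (2 * n + 2)} ⊔
    (Ideal.span (Set.range u) ⊔ Ideal.span (Set.range v) ⊔ Ideal.span {ϖ ^ n}) *
      Ideal.span (Set.range v)

/-- The family `u`, `v` indexed by `K` is expressed by the subfamily `J → K`. -/
structure Sub (ϖ : A) (u v : K → A) (e : J → K) (n : ℕ) : Prop where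
  ex : ∀ k, ∃ a : J → A,
    u k - ∑ j, a j * u (e j) ∈ Ideal.span (Set.range fun j => v (e j)) ⊔ Ideal.span {ϖ ^ (n + 1)} ∧
    v k - ∑ j, a j * v (e j) ∈ errI ϖ (fun j => u (e j)) (fun j => v (e j)) n

section Eq

variable {ϖ : A} {u v : K → A} {e : J → K} {n : ℕ} (h : Sub ϖ u v e n)

-- BEGIN S1
/-- TASK S1 (first statement). The ideals of a subfamily are smaller (`Ideal.span_mono`, `Set.range_comp_subset_range`). -/
theorem aI_sub_le (k : ℕ) : aI ϖ (fun j => u (e j)) k ≤ aI ϖ u k :=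
  Ideal.span_mono (Set.insert_subset_insert (Set.range_comp_subset_range e u))

theorem kI_sub_le (l : ℕ) :
    kI ϖ (fun j => u (e j)) (fun j => v (e j)) l ≤ kI ϖ u v l :=
  sup_le_sup (Ideal.mul_mono (aI_sub_le _) (aI_sub_le _))
    (Ideal.span_mono (Set.range_comp_subset_range e v))

theorem rI_sub_le (m : ℕ) :
    rI ϖ (fun j => u (e j)) (fun j => v (e j)) m ≤ rI ϖ u v m := by
  refine sup_le_sup (Ideal.pow_right_mono (kI_sub_le _) 2) (Ideal.mul_mono le_rfl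
    (sup_le_sup (sup_le_sup (Ideal.pow_right_mono (aI_sub_le _) 3) (Ideal.mul_mono le_rfl
      (Ideal.span_mono (Set.range_comp_subset_range e v)))) (Ideal.span_mono ?_)))
  rintro _ ⟨⟨j, k⟩, rfl⟩
  exact ⟨(e j, e k), rfl⟩

theorem sI_sub_le (c : A) : sI ϖ (fun j => u (e j)) (fun j => v (e j)) c n ≤ sI ϖ u v c n := by
  refine sup_le_sup (sup_le_sup (sup_le_sup (Ideal.span_mono ?_) (Ideal.pow_right_mono
    (Ideal.span_mono (Set.range_comp_subset_range e u)) 2)) (Ideal.mul_mono le_rfl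
      (Ideal.span_mono (Set.range_comp_subset_range e u)))) le_rfl
  rintro _ ⟨j, rfl⟩
  exact ⟨e j, rfl⟩

/-- TASK S1 (fifth statement). The errors lie in `K_l` for `l ≤ 2 n + 2`: `u ^ 2 ≤ aI aI`; `ϖ ^ (n + 1) u`: `l / 2 ≤ n + 1`;
`ϖ ^ (2 n + 2)`: `pow_mem_kI`, `kI_anti`; the multiples of `v`. -/
theorem errI_le_kI {u v : J → A} {l : ℕ} (hl : l ≤ 2 * n + 2) : errI ϖ u v n ≤ kI ϖ u v l := by
  have hU : ∀ k, Ideal.span (Set.range u) ≤ aI ϖ u k := fun k =>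
    Ideal.span_mono (Set.subset_insert _ _)
  refine sup_le (sup_le (sup_le ?_ ?_) ?_) ?_
  · exact (Ideal.mul_mono (hU _) (hU _)).trans le_sup_left
  · refine (Ideal.mul_mono ?_ (hU _)).trans le_sup_left
    rw [Ideal.span_le, Set.singleton_subset_iff]
    exact pow_mem_aI ϖ u (by omega)
  · rw [Ideal.span_le, Set.singleton_subset_iff]
    exact kI_anti ϖ u v hl (pow_mem_kI ϖ u v _)
  · exact le_trans Ideal.mul_le_right le_sup_right
-- END S1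

-- BEGIN S2
include h in
/-- TASK S2 (first statement). All `u k` lie in the ideal generated by the `u (e j)`, `v (e j)` and `ϖ ^ k'`, `k' ≤ n + 1`. -/
theorem Sub.aI_le {k : ℕ} (hk : k ≤ n + 1) :
    aI ϖ u k ≤ aI ϖ (fun j => u (e j)) k ⊔ Ideal.span (Set.range fun j => v (e j)) := by
  refine Ideal.span_le.2 ?_
  rintro x (rfl | ⟨i, rfl⟩)
  · exact Ideal.mem_sup_left (pow_mem_aI ϖ _ (le_refl k))
  · obtain ⟨a, h1, -⟩ := h.ex i
    have h2 : u i = (u i - ∑ j, a j * u (e j)) + ∑ j, a j * u (e j) := by ring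
    show u i ∈ _
    rw [h2]
    refine Ideal.add_mem _ ?_ ?_
    · refine (sup_le le_sup_right ?_ : Ideal.span (Set.range fun j => v (e j)) ⊔
        Ideal.span {ϖ ^ (n + 1)} ≤ _) h1
      rw [Ideal.span_singleton_le_iff_mem]
      exact Ideal.mem_sup_left (pow_mem_aI ϖ _ hk)
    · exact Ideal.mem_sup_left (Ideal.sum_mem _ (fun j _ => Ideal.mul_mem_left _ _
        (u_mem_aI ϖ (fun j => u (e j)) k j)))

include h in
/-- TASK S2 (second statement). All `v k` lie in `K_l`, `l ≤ 2 n + 2` (`errI_le_kI`). -/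
theorem Sub.v_mem {l : ℕ} (hl : l ≤ 2 * n + 2) (k : K) :
    v k ∈ kI ϖ (fun j => u (e j)) (fun j => v (e j)) l := by
  obtain ⟨a, -, h1⟩ := h.ex k
  have h2 : v k = (v k - ∑ j, a j * v (e j)) + ∑ j, a j * v (e j) := by ring
  rw [h2]
  refine Ideal.add_mem _ (errI_le_kI hl h1) ?_
  exact Ideal.sum_mem _ (fun j _ => Ideal.mul_mem_left _ _
    (v_mem_kI ϖ (fun j => u (e j)) (fun j => v (e j)) l j))

include h in
/-- TASK S2 (third statement). `l / 2 ≤ n + 1`, `(l + 1) / 2 ≤ n + 1`; `(a + (v)) (a' + (v)) ≤ a a' + (v)`; `kI_sub_le`. -/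
theorem Sub.kI_eq {l : ℕ} (hl : l ≤ 2 * n + 2) :
    kI ϖ u v l = kI ϖ (fun j => u (e j)) (fun j => v (e j)) l := by
  refine le_antisymm ?_ (kI_sub_le l)
  have hV : Ideal.span (Set.range fun j => v (e j)) ≤
      kI ϖ (fun j => u (e j)) (fun j => v (e j)) l := le_sup_right
  have hAA : aI ϖ (fun j => u (e j)) (l / 2) * aI ϖ (fun j => u (e j)) ((l + 1) / 2) ≤
      kI ϖ (fun j => u (e j)) (fun j => v (e j)) l := le_sup_left
  refine sup_le ?_ ?_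
  · refine (Ideal.mul_mono (Sub.aI_le h (by omega)) (Sub.aI_le h (by omega))).trans ?_
    rw [Ideal.sup_mul, Ideal.mul_sup]
    refine sup_le (sup_le hAA ?_) ?_
    · exact Ideal.mul_le_right.trans hV
    · exact Ideal.mul_le_left.trans hV
  · refine Ideal.span_le.2 ?_
    rintro x ⟨i, rfl⟩
    exact Sub.v_mem h hl i
-- END S2

-- BEGIN S3
/-- the inclusions needed, for ideals -/
theorem s3_gen {a U V P Q E E' K' R : Ideal A} (hE : E = U * U ⊔ P * U ⊔ P * P ⊔ (U ⊔ V ⊔ E') * V)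
    (hUa : U ≤ a) (hPa : P ≤ a) (haa : a * a ≤ K') (hV : V ≤ K') (hKK : K' * K' ≤ R)
    (haaa : Q * (a * a * a) ≤ R) (hE'U : E' * U ≤ K') :
    Q * (U * E) ≤ R := by
  have h1 : U * (U * U) ≤ a * a * a := by
    rw [← mul_assoc]; exact Ideal.mul_mono (Ideal.mul_mono hUa hUa) hUa
  have h2 : U * (P * U) ≤ a * a * a := by
    rw [← mul_assoc]; exact Ideal.mul_mono (Ideal.mul_mono hUa hPa) hUa
  have h3 : U * (P * P) ≤ a * a * a := by
    rw [← mul_assoc]; exact Ideal.mul_mono (Ideal.mul_mono hUa hPa) hPa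
  have hUU : U * U ≤ K' := (Ideal.mul_mono hUa hUa).trans haa
  have h4 : U * ((U ⊔ V ⊔ E') * V) ≤ K' * K' := by
    have h5 : U * ((U ⊔ V ⊔ E') * V) = (U * (U ⊔ V ⊔ E')) * V := by rw [mul_assoc]
    rw [h5]
    refine Ideal.mul_mono ?_ hV
    rw [Ideal.mul_sup, Ideal.mul_sup]
    refine sup_le (sup_le hUU ?_) ?_
    · exact Ideal.mul_le_right.trans hV
    · rw [mul_comm]; exact hE'U
  rw [hE, Ideal.mul_sup, Ideal.mul_sup, Ideal.mul_sup, Ideal.mul_sup, Ideal.mul_sup, Ideal.mul_sup]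
  refine sup_le (sup_le (sup_le ?_ ?_) ?_) ?_
  · exact (Ideal.mul_mono le_rfl h1).trans haaa
  · exact (Ideal.mul_mono le_rfl h2).trans haaa
  · exact (Ideal.mul_mono le_rfl h3).trans haaa
  · exact Ideal.mul_le_right.trans (h4.trans hKK)

theorem s3_gen2 {a U V P Q Q' E E' R : Ideal A} (hE : E = U * U ⊔ P * U ⊔ P * P ⊔ (U ⊔ V ⊔ E') * V)
    (hUa : U ≤ a) (hPa : P ≤ a) (hQa : Q' ≤ a) (haaa : Q * (a * a * a) ≤ R)
    (hQV : Q * (Q' * V) ≤ R) :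
    Q * (Q' * E) ≤ R := by
  have h1 : Q' * (U * U) ≤ a * a * a := by
    rw [← mul_assoc]; exact Ideal.mul_mono (Ideal.mul_mono hQa hUa) hUa
  have h2 : Q' * (P * U) ≤ a * a * a := by
    rw [← mul_assoc]; exact Ideal.mul_mono (Ideal.mul_mono hQa hPa) hUa
  have h3 : Q' * (P * P) ≤ a * a * a := by
    rw [← mul_assoc]; exact Ideal.mul_mono (Ideal.mul_mono hQa hPa) hPa
  rw [hE, Ideal.mul_sup, Ideal.mul_sup, Ideal.mul_sup, Ideal.mul_sup, Ideal.mul_sup, Ideal.mul_sup]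
  refine sup_le (sup_le (sup_le ?_ ?_) ?_) ?_
  · exact (Ideal.mul_mono le_rfl h1).trans haaa
  · exact (Ideal.mul_mono le_rfl h2).trans haaa
  · exact (Ideal.mul_mono le_rfl h3).trans haaa
  · exact (Ideal.mul_mono le_rfl (Ideal.mul_mono le_rfl Ideal.mul_le_right)).trans hQV

theorem s3_cube {a V Q K' R : Ideal A} (haa : a * a ≤ K') (hV : V ≤ K') (hKK : K' * K' ≤ R)
    (haaa : Q * (a * a * a) ≤ R) : Q * (a ⊔ V) ^ 3 ≤ R := by
  have e1 : (a ⊔ V) * (a ⊔ V) ≤ a * a ⊔ a * V ⊔ V * V := by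
    rw [Ideal.sup_mul, Ideal.mul_sup, Ideal.mul_sup, mul_comm V a]
    exact sup_le (sup_le (le_sup_left.trans le_sup_left) (le_sup_right.trans le_sup_left))
      (sup_le (le_sup_right.trans le_sup_left) le_sup_right)
  have haaV : a * a * V ≤ K' * K' := Ideal.mul_mono haa hV
  have hVV : V * V ≤ K' * K' := Ideal.mul_mono hV hV
  have haVa : a * V * a ≤ K' * K' := by
    have : a * V * a = a * a * V := by rw [mul_assoc, mul_comm V a, ← mul_assoc]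
    rw [this]; exact haaV
  have h3 : (a ⊔ V) ^ 3 ≤ a * a * a ⊔ K' * K' := by
    have h4 : (a ⊔ V) ^ 3 = (a ⊔ V) * (a ⊔ V) * (a ⊔ V) := by rw [pow_succ, sq]
    rw [h4]
    refine (Ideal.mul_mono e1 le_rfl).trans ?_
    rw [Ideal.mul_sup, Ideal.sup_mul, Ideal.sup_mul, Ideal.sup_mul, Ideal.sup_mul]
    refine sup_le (sup_le (sup_le le_sup_left ?_) ?_) (sup_le (sup_le ?_ ?_) ?_)
    · exact haVa.trans le_sup_right
    · exact (Ideal.mul_le_left.trans hVV).trans le_sup_right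
    · exact haaV.trans le_sup_right
    · rw [mul_assoc]; exact (Ideal.mul_le_right.trans hVV).trans le_sup_right
    · exact (Ideal.mul_le_left.trans hVV).trans le_sup_right
  refine (Ideal.mul_mono le_rfl h3).trans ?_
  rw [Ideal.mul_sup]
  exact sup_le haaa (Ideal.mul_le_right.trans hKK)

include h in
/-- TASK S3. The ideals `R_m`, `m < n`. By `Sub.kI_eq` the squares are the same. Write `a = aI (m + 1)`, `V = (v_j)`, `U = (u_j)`, `K = K_{2 m + 2}` of the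
subfamily; `a ^ 2 ≤ K`, `V ≤ K`, `K ^ 2 ≤ R_m`, `ϖ ^ m a ^ 3 ≤ R_m`, `ϖ ^ (2 m + 1) V ≤ R_m`. `Sub.aI_le`: `ϖ ^ m (a + V) ^ 3 ≤ R_m` since
`a ^ 2 V ≤ K ^ 2`, `a V ^ 2 ≤ K ^ 2`, `V ^ 3 ≤ K ^ 2`. `ϖ ^ m ϖ ^ (m + 1) v_k`: `v_k ∈ V + errI`, and `ϖ ^ (2 m + 1) U ^ 2`, `ϖ ^ (2 m + 1) ϖ ^ (n + 1) U`,
`ϖ ^ (2 m + 1) ϖ ^ (2 n + 2)` are in `ϖ ^ m a ^ 3` (`m + 1 ≤ n + 1`). Minors: `u_k = ∑ a_j u_j + z_k`, `v_l = ∑ b_i v_i + w_l`, … with `z ∈ V + (ϖ ^ (n + 1))`,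
`w ∈ errI`: `u_k v_l - u_l v_k = ∑ a_j b_i (u_j v_i - u_i v_j) + (∑ a_j u_j) w_l + z_k (∑ b_i v_i) + z_k w_l - …`; `ϖ ^ m U errI ≤ R_m`:
`ϖ ^ m U ^ 3`, `ϖ ^ m ϖ ^ (n + 1) U ^ 2`, `ϖ ^ m ϖ ^ (2 n + 2) U` in `ϖ ^ m a ^ 3`; `U U V`, `U V V` in `K ^ 2`; `ϖ ^ n U V` in `K ^ 2` as `ϖ ^ n U ≤ ϖ ^ (m + 1) U ≤ K`
(`m < n`). `ϖ ^ m z_k V`: `V V`, `ϖ ^ m ϖ ^ (n + 1) V`. `ϖ ^ m z_k w_l`: `V errI ≤ K K`, `ϖ ^ m ϖ ^ (n + 1) errI` as above. -/
theorem Sub.rI_eq {m : ℕ} (hm : m < n) :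
    rI ϖ u v m = rI ϖ (fun j => u (e j)) (fun j => v (e j)) m := by
  refine le_antisymm ?_ (rI_sub_le m)
  obtain ⟨U, hU⟩ : ∃ U, U = Ideal.span (Set.range fun j => u (e j)) := ⟨_, rfl⟩
  obtain ⟨V, hV⟩ : ∃ V, V = Ideal.span (Set.range fun j => v (e j)) := ⟨_, rfl⟩
  obtain ⟨a, ha⟩ : ∃ a, a = aI ϖ (fun j => u (e j)) (m + 1) := ⟨_, rfl⟩
  obtain ⟨K', hK'⟩ : ∃ K', K' = kI ϖ (fun j => u (e j)) (fun j => v (e j)) (2 * m + 2) := ⟨_, rfl⟩
  obtain ⟨R, hR⟩ : ∃ R, R = rI ϖ (fun j => u (e j)) (fun j => v (e j)) m := ⟨_, rfl⟩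
  obtain ⟨E, hE⟩ : ∃ E, E = errI ϖ (fun j => u (e j)) (fun j => v (e j)) n := ⟨_, rfl⟩
  obtain ⟨Q, hQ⟩ : ∃ Q : Ideal A, Q = Ideal.span {ϖ ^ m} := ⟨_, rfl⟩
  obtain ⟨P, hP⟩ : ∃ P : Ideal A, P = Ideal.span {ϖ ^ (n + 1)} := ⟨_, rfl⟩
  obtain ⟨Q', hQ'⟩ : ∃ Q' : Ideal A, Q' = Ideal.span {ϖ ^ (m + 1)} := ⟨_, rfl⟩
  obtain ⟨E', hE'⟩ : ∃ E' : Ideal A, E' = Ideal.span {ϖ ^ n} := ⟨_, rfl⟩
  have hEdef : E = U * U ⊔ P * U ⊔ P * P ⊔ (U ⊔ V ⊔ E') * V := by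
    have h1 : Ideal.span {ϖ ^ (2 * n + 2)} = P * P := by
      rw [hP, Ideal.span_singleton_mul_span_singleton]
      congr 2
      ring
    rw [hE, hU, hV, ← h1, hP, hE']
    rfl
  have hUa : U ≤ a := by
    rw [hU, ha, Ideal.span_le]
    rintro _ ⟨j, rfl⟩
    exact u_mem_aI ϖ (fun j => u (e j)) _ j
  have hPa : P ≤ a := by
    rw [hP, ha, Ideal.span_singleton_le_iff_mem]
    exact pow_mem_aI ϖ _ (by omega)
  have hQa : Q' ≤ a := by
    rw [hQ', ha, Ideal.span_singleton_le_iff_mem]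
    exact pow_mem_aI ϖ _ le_rfl
  have haa : a * a ≤ K' := by
    rw [hK', ha]
    unfold kI
    have e1 : (2 * m + 2) / 2 = m + 1 := by omega
    have e2 : (2 * m + 2 + 1) / 2 = m + 1 := by omega
    rw [e1, e2]
    exact le_sup_left
  have hVK : V ≤ K' := by rw [hV, hK']; exact le_sup_right
  have hKK : K' * K' ≤ R := by
    rw [hK', hR, ← sq]; exact le_sup_left
  have haaa : Q * (a * a * a) ≤ R := by
    rw [hQ, ha, hR]
    refine le_trans ?_ le_sup_right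
    refine Ideal.mul_mono le_rfl (le_trans ?_ (le_sup_left.trans le_sup_left))
    rw [pow_succ, sq]
  have hQV : Q * (Q' * V) ≤ R := by
    rw [hQ, hQ', hV, hR]
    refine le_trans ?_ le_sup_right
    exact Ideal.mul_mono le_rfl (le_sup_right.trans le_sup_left)
  have hmI : ∀ i j, ϖ ^ m * (u (e i) * v (e j) - u (e j) * v (e i)) ∈ R := by
    intro i j
    rw [hR]
    exact minor_mem_rI ϖ (fun j => u (e j)) (fun j => v (e j)) m i j
  have hE'a : E' ≤ a := by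
    rw [hE', ha, Ideal.span_singleton_le_iff_mem]
    exact pow_mem_aI ϖ _ (by omega)
  have hE'U : E' * U ≤ K' := (Ideal.mul_mono hE'a hUa).trans haa
  have hEK : E ≤ K' := by rw [hE, hK']; exact errI_le_kI (by omega)
  have hQUE : Q * (U * E) ≤ R := s3_gen hEdef hUa hPa haa hVK hKK haaa hE'U
  have hQQE : Q * (Q' * E) ≤ R := s3_gen2 hEdef hUa hPa hQa haaa hQV
  have hPQ : P ≤ Q' := by
    rw [hP, hQ', Ideal.span_singleton_le_span_singleton]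
    exact pow_dvd_pow _ (by omega)
  have hQPE : Q * (P * E) ≤ R := (Ideal.mul_mono le_rfl (Ideal.mul_mono hPQ le_rfl)).trans hQQE
  have hQPV : Q * (P * V) ≤ R := (Ideal.mul_mono le_rfl (Ideal.mul_mono hPQ le_rfl)).trans hQV
  have hmQ : ϖ ^ m ∈ Q := by rw [hQ]; exact Ideal.mem_span_singleton_self _
  -- the decomposition
  have hex : ∀ k, ∃ a' : J → A, ∃ z w : A, z ∈ V ⊔ P ∧ w ∈ E ∧ u k = ∑ j, a' j * u (e j) + z ∧
      v k = ∑ j, a' j * v (e j) + w := by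
    intro k
    obtain ⟨a', h1, h2⟩ := h.ex k
    rw [← hV, ← hP] at h1
    rw [← hE] at h2
    exact ⟨a', _, _, h1, h2, by ring, by ring⟩
  have hsumU : ∀ a' : J → A, ∑ j, a' j * u (e j) ∈ U := by
    intro a'
    rw [hU]
    exact Ideal.sum_mem _ (fun j _ => Ideal.mul_mem_left _ _ (Ideal.subset_span ⟨j, rfl⟩))
  have hsumV : ∀ a' : J → A, ∑ j, a' j * v (e j) ∈ V := by
    intro a'
    rw [hV]
    exact Ideal.sum_mem _ (fun j _ => Ideal.mul_mem_left _ _ (Ideal.subset_span ⟨j, rfl⟩))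
  have hzV : ∀ z ∈ V ⊔ P, ∀ y ∈ V, ϖ ^ m * (z * y) ∈ R := by
    intro z hz y hy
    have h1 : ϖ ^ m * (z * y) ∈ Q * ((V ⊔ P) * V) :=
      Ideal.mul_mem_mul hmQ (Ideal.mul_mem_mul hz hy)
    refine (?_ : Q * ((V ⊔ P) * V) ≤ R) h1
    rw [Ideal.sup_mul, Ideal.mul_sup]
    exact sup_le (Ideal.mul_le_right.trans ((Ideal.mul_mono hVK hVK).trans hKK)) hQPV
  have hzE : ∀ z ∈ V ⊔ P, ∀ y ∈ E, ϖ ^ m * (z * y) ∈ R := by
    intro z hz y hy
    have h1 : ϖ ^ m * (z * y) ∈ Q * ((V ⊔ P) * E) :=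
      Ideal.mul_mem_mul hmQ (Ideal.mul_mem_mul hz hy)
    refine (?_ : Q * ((V ⊔ P) * E) ≤ R) h1
    rw [Ideal.sup_mul, Ideal.mul_sup]
    exact sup_le (Ideal.mul_le_right.trans ((Ideal.mul_mono hVK hEK).trans hKK)) hQPE
  have hUE : ∀ x ∈ U, ∀ y ∈ E, ϖ ^ m * (x * y) ∈ R := fun x hx y hy =>
    hQUE (Ideal.mul_mem_mul hmQ (Ideal.mul_mem_mul hx hy))
  have hAB : ∀ a' b' : J → A, ϖ ^ m * ((∑ j, a' j * u (e j)) * (∑ j, b' j * v (e j)) -
      (∑ j, b' j * u (e j)) * (∑ j, a' j * v (e j))) ∈ R := by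
    intro a' b'
    have h1 : (∑ j, a' j * u (e j)) * (∑ j, b' j * v (e j)) -
        (∑ j, b' j * u (e j)) * (∑ j, a' j * v (e j)) =
        ∑ i, ∑ j, a' i * b' j * (u (e i) * v (e j) - u (e j) * v (e i)) := by
      rw [Finset.sum_mul_sum, mul_comm (∑ j, b' j * u (e j)), Finset.sum_mul_sum,
        ← Finset.sum_sub_distrib]
      refine Finset.sum_congr rfl (fun i _ => ?_)
      rw [← Finset.sum_sub_distrib]
      exact Finset.sum_congr rfl (fun j _ => by ring)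
    rw [h1, Finset.mul_sum]
    refine Ideal.sum_mem _ (fun i _ => ?_)
    rw [Finset.mul_sum]
    refine Ideal.sum_mem _ (fun j _ => ?_)
    have h2 : ϖ ^ m * (a' i * b' j * (u (e i) * v (e j) - u (e j) * v (e i))) =
        (a' i * b' j) * (ϖ ^ m * (u (e i) * v (e j) - u (e j) * v (e i))) := by ring
    rw [h2]
    exact Ideal.mul_mem_left _ _ (hmI i j)
  rw [← hR]
  have hfirst : kI ϖ u v (2 * m + 2) ^ 2 ≤ R := by
    rw [Sub.kI_eq h (by omega), sq, ← hK']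
    exact hKK
  refine sup_le hfirst ?_
  rw [← hQ, Ideal.mul_sup, Ideal.mul_sup]
  refine sup_le (sup_le ?_ ?_) ?_
  · have h1 : aI ϖ u (m + 1) ≤ a ⊔ V := by
      rw [ha, hV]; exact Sub.aI_le h (by omega)
    exact (Ideal.mul_mono le_rfl (Ideal.pow_right_mono h1 3)).trans (s3_cube haa hVK hKK haaa)
  · have h1 : Ideal.span (Set.range v) ≤ V ⊔ E := by
      rw [Ideal.span_le]
      rintro _ ⟨k, rfl⟩
      obtain ⟨a', z, w, -, hw, -, h2⟩ := hex k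
      show v k ∈ V ⊔ E
      rw [h2]
      exact Ideal.add_mem _ (Ideal.mem_sup_left (hsumV a')) (Ideal.mem_sup_right hw)
    rw [← hQ']
    refine (Ideal.mul_mono le_rfl (Ideal.mul_mono le_rfl h1)).trans ?_
    rw [Ideal.mul_sup, Ideal.mul_sup]
    exact sup_le hQV hQQE
  · rw [hQ, mI, Ideal.span_mul_span', Ideal.span_le]
    rintro _ ⟨_, rfl, _, ⟨⟨k, l⟩, rfl⟩, rfl⟩
    obtain ⟨a', z, w, hz, hw, h1, h2⟩ := hex k
    obtain ⟨b', z', w', hz', hw', h3, h4⟩ := hex l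
    show ϖ ^ m * (u k * v l - u l * v k) ∈ R
    have h5 : ϖ ^ m * (u k * v l - u l * v k) =
        ϖ ^ m * ((∑ j, a' j * u (e j)) * (∑ j, b' j * v (e j)) -
          (∑ j, b' j * u (e j)) * (∑ j, a' j * v (e j))) +
        (ϖ ^ m * ((∑ j, a' j * u (e j)) * w') - ϖ ^ m * ((∑ j, b' j * u (e j)) * w)) +
        (ϖ ^ m * (z * ∑ j, b' j * v (e j)) - ϖ ^ m * (z' * ∑ j, a' j * v (e j))) +
        (ϖ ^ m * (z * w') - ϖ ^ m * (z' * w)) := by
      rw [h1, h2, h3, h4]; ring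
    rw [h5]
    refine Ideal.add_mem _ (Ideal.add_mem _ (Ideal.add_mem _ (hAB a' b') ?_) ?_) ?_
    · exact Ideal.sub_mem _ (hUE _ (hsumU a') _ hw') (hUE _ (hsumU b') _ hw)
    · exact Ideal.sub_mem _ (hzV _ hz _ (hsumV b')) (hzV _ hz' _ (hsumV a'))
    · exact Ideal.sub_mem _ (hzE _ hz _ hw') (hzE _ hz' _ hw)
-- END S3

-- BEGIN S4
section S4
variable {ϖ : A} {u v : J → A} {c : A} {n : ℕ}

theorem s4_pv (hn : 1 ≤ n) (j : J) : ϖ ^ n * v j ∈ sI ϖ u v c n := by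
  have h1 := Ideal.mul_mem_left (sI ϖ u v c n) (ϖ ^ n) (s_mem_sI ϖ u v c n j)
  have h2 := Ideal.mul_mem_left (sI ϖ u v c n) (c * ϖ ^ (n - 1)) (pu_mem_sI ϖ u v c n j)
  have h3 : ϖ ^ n * v j = ϖ ^ n * (v j - c * ϖ ^ n * u j) + c * ϖ ^ (n - 1) * (ϖ ^ (n + 1) * u j) := by
    obtain ⟨k, rfl⟩ : ∃ k, n = k + 1 := ⟨n - 1, by omega⟩
    simp only [Nat.add_sub_cancel]
    ring
  rw [h3]
  exact Ideal.add_mem _ h1 h2

theorem s4_uv (i j : J) : u i * v j ∈ sI ϖ u v c n := by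
  have h1 := Ideal.mul_mem_left (sI ϖ u v c n) (u i) (s_mem_sI ϖ u v c n j)
  have h2 := Ideal.mul_mem_left (sI ϖ u v c n) (c * ϖ ^ n) (uu_mem_sI ϖ u v c n i j)
  have h3 : u i * v j = u i * (v j - c * ϖ ^ n * u j) + c * ϖ ^ n * (u i * u j) := by ring
  rw [h3]
  exact Ideal.add_mem _ h1 h2

theorem s4_vv (i j : J) : v i * v j ∈ sI ϖ u v c n := by
  have h1 := Ideal.mul_mem_left (sI ϖ u v c n) (v i) (s_mem_sI ϖ u v c n j)
  have h2 := Ideal.mul_mem_left (sI ϖ u v c n) (c * ϖ ^ n) (s4_uv (ϖ := ϖ) (u := u) (v := v) (c := c) (n := n) j i)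
  have h3 : v i * v j = v i * (v j - c * ϖ ^ n * u j) + c * ϖ ^ n * (u j * v i) := by ring
  rw [h3]
  exact Ideal.add_mem _ h1 h2

theorem s4_UU : Ideal.span (Set.range u) * Ideal.span (Set.range u) ≤ sI ϖ u v c n := by
  rw [Ideal.span_mul_span', Ideal.span_le]
  rintro _ ⟨_, ⟨i, rfl⟩, _, ⟨j, rfl⟩, rfl⟩
  exact uu_mem_sI ϖ u v c n i j

theorem s4_UV : Ideal.span (Set.range u) * Ideal.span (Set.range v) ≤ sI ϖ u v c n := by
  rw [Ideal.span_mul_span', Ideal.span_le]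
  rintro _ ⟨_, ⟨i, rfl⟩, _, ⟨j, rfl⟩, rfl⟩
  exact s4_uv i j

theorem s4_VV : Ideal.span (Set.range v) * Ideal.span (Set.range v) ≤ sI ϖ u v c n := by
  rw [Ideal.span_mul_span', Ideal.span_le]
  rintro _ ⟨_, ⟨i, rfl⟩, _, ⟨j, rfl⟩, rfl⟩
  exact s4_vv i j

theorem s4_PV (hn : 1 ≤ n) : Ideal.span {ϖ ^ n} * Ideal.span (Set.range v) ≤ sI ϖ u v c n := by
  rw [Ideal.span_mul_span', Ideal.span_le]
  rintro _ ⟨_, rfl, _, ⟨j, rfl⟩, rfl⟩
  exact s4_pv hn j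

theorem s4_PU : Ideal.span {ϖ ^ (n + 1)} * Ideal.span (Set.range u) ≤ sI ϖ u v c n := by
  rw [Ideal.span_mul_span', Ideal.span_le]
  rintro _ ⟨_, rfl, _, ⟨j, rfl⟩, rfl⟩
  exact pu_mem_sI ϖ u v c n j

theorem s4_PPle : Ideal.span {ϖ ^ (n + 1)} ≤ Ideal.span {ϖ ^ n} := by
  rw [Ideal.span_singleton_le_span_singleton]
  exact ⟨ϖ, pow_succ _ _⟩

theorem s4_errI (hn : 1 ≤ n) : errI ϖ u v n ≤ sI ϖ u v c n := by
  unfold errI
  refine sup_le (sup_le (sup_le s4_UU s4_PU) ?_) ?_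
  · rw [Ideal.span_singleton_le_iff_mem]
    have h1 : ϖ ^ (2 * n + 2) = ϖ * ϖ ^ (2 * n + 1) := by ring
    rw [h1]
    exact Ideal.mul_mem_left _ _ (pow_mem_sI ϖ u v c n)
  · rw [Ideal.sup_mul, Ideal.sup_mul]
    exact sup_le (sup_le s4_UV s4_VV) (s4_PV hn)

theorem s4_gen {U V P S : Ideal A} (h1 : U * U ≤ S) (h2 : U * V ≤ S) (h3 : U * P ≤ S)
    (h4 : V * V ≤ S) (h5 : V * P ≤ S) (h6 : P * P ≤ S) :
    (U ⊔ V ⊔ P) * (U ⊔ V ⊔ P) ≤ S := by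
  have h2' : V * U ≤ S := by rw [mul_comm]; exact h2
  have h3' : P * U ≤ S := by rw [mul_comm]; exact h3
  have h5' : P * V ≤ S := by rw [mul_comm]; exact h5
  rw [Ideal.sup_mul, Ideal.sup_mul, Ideal.mul_sup, Ideal.mul_sup, Ideal.mul_sup, Ideal.mul_sup,
    Ideal.mul_sup, Ideal.mul_sup]
  exact sup_le (sup_le (sup_le (sup_le h1 h2) h3) (sup_le (sup_le h2' h4) h5))
    (sup_le (sup_le h3' h5') h6)

/-- the square of the ideal of all `u k` -/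
theorem s4_WW (hn : 1 ≤ n) :
    (Ideal.span (Set.range u) ⊔ Ideal.span (Set.range v) ⊔ Ideal.span {ϖ ^ (n + 1)}) *
      (Ideal.span (Set.range u) ⊔ Ideal.span (Set.range v) ⊔ Ideal.span {ϖ ^ (n + 1)}) ≤
        sI ϖ u v c n := by
  have hPP : Ideal.span {ϖ ^ (n + 1)} * Ideal.span {ϖ ^ (n + 1)} ≤ sI ϖ u v c n := by
    rw [Ideal.span_singleton_mul_span_singleton, Ideal.span_singleton_le_iff_mem]
    have h1 : ϖ ^ (n + 1) * ϖ ^ (n + 1) = ϖ * ϖ ^ (2 * n + 1) := by ring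
    rw [h1]
    exact Ideal.mul_mem_left _ _ (pow_mem_sI ϖ u v c n)
  have hVP : Ideal.span (Set.range v) * Ideal.span {ϖ ^ (n + 1)} ≤ sI ϖ u v c n := by
    rw [mul_comm]
    exact (Ideal.mul_mono s4_PPle le_rfl).trans (s4_PV hn)
  have hUP : Ideal.span (Set.range u) * Ideal.span {ϖ ^ (n + 1)} ≤ sI ϖ u v c n := by
    rw [mul_comm]; exact s4_PU
  exact s4_gen s4_UU s4_UV hUP s4_VV hVP hPP

end S4

include h in
/-- TASK S4. The last ideal `S` (of the subfamily; `s_j = v_j - c ϖ ^ n u_j`), `1 ≤ n`. `V ≤ (s_j) + ϖ ^ n U`, so `ϖ ^ n V ≤ S` (`ϖ ^ (2 n) U`, `2 n ≥ n + 1`),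
`U V ≤ S`, `V V ≤ S`, so `errI ≤ S`. `s_k = ∑ a_j s_j + (v_k - ∑ a_j v_j) - c ϖ ^ n (u_k - ∑ a_j u_j)` and `ϖ ^ n (V + (ϖ ^ (n + 1))) ≤ S`. `u_k u_l`: the ideal of all `u_k` is contained in
`U + V + (ϖ ^ (n + 1))`, and its square is in `S`: `ϖ ^ (n + 1) V ≤ S`. `ϖ ^ (n + 1) u_k`: the same. `sI_sub_le`. -/
theorem Sub.sI_eq (hn : 1 ≤ n) (c : A) :
    sI ϖ u v c n = sI ϖ (fun j => u (e j)) (fun j => v (e j)) c n := by
  refine le_antisymm ?_ (sI_sub_le c)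
  obtain ⟨U, hU⟩ : ∃ U, U = Ideal.span (Set.range fun j => u (e j)) := ⟨_, rfl⟩
  obtain ⟨V, hV⟩ : ∃ V, V = Ideal.span (Set.range fun j => v (e j)) := ⟨_, rfl⟩
  obtain ⟨S, hS⟩ : ∃ S, S = sI ϖ (fun j => u (e j)) (fun j => v (e j)) c n := ⟨_, rfl⟩
  have hWW : (U ⊔ V ⊔ Ideal.span {ϖ ^ (n + 1)}) * (U ⊔ V ⊔ Ideal.span {ϖ ^ (n + 1)}) ≤ S := by
    rw [hU, hV, hS]; exact s4_WW hn
  have herr : errI ϖ (fun j => u (e j)) (fun j => v (e j)) n ≤ S := by rw [hS]; exact s4_errI hn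
  have hPV : Ideal.span {ϖ ^ n} * V ≤ S := by rw [hV, hS]; exact s4_PV hn
  have hu : ∀ k, u k ∈ U ⊔ V ⊔ Ideal.span {ϖ ^ (n + 1)} := by
    intro k
    obtain ⟨a, h1, -⟩ := h.ex k
    rw [← hV] at h1
    have h2 : u k = ∑ j, a j * u (e j) + (u k - ∑ j, a j * u (e j)) := by ring
    rw [h2, sup_assoc]
    refine Ideal.add_mem _ (Ideal.mem_sup_left ?_) (Ideal.mem_sup_right h1)
    rw [hU]
    exact Ideal.sum_mem _ (fun j _ => Ideal.mul_mem_left _ _ (Ideal.subset_span ⟨j, rfl⟩))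
  rw [← hS]
  unfold sI
  refine sup_le (sup_le (sup_le ?_ ?_) ?_) ?_
  · refine Ideal.span_le.2 ?_
    rintro _ ⟨k, rfl⟩
    obtain ⟨a, h1, h2⟩ := h.ex k
    rw [← hV] at h1
    have h3 : ϖ ^ n * (u k - ∑ j, a j * u (e j)) ∈ S := by
      have h4 : ϖ ^ n * (u k - ∑ j, a j * u (e j)) ∈
          Ideal.span {ϖ ^ n} * (V ⊔ Ideal.span {ϖ ^ (n + 1)}) :=
        Ideal.mul_mem_mul (Ideal.mem_span_singleton_self _) h1
      refine (?_ : Ideal.span {ϖ ^ n} * (V ⊔ Ideal.span {ϖ ^ (n + 1)}) ≤ S) h4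
      rw [Ideal.mul_sup]
      refine sup_le hPV ?_
      rw [Ideal.span_singleton_mul_span_singleton, Ideal.span_singleton_le_iff_mem, hS]
      have h5 : ϖ ^ n * ϖ ^ (n + 1) = ϖ ^ (2 * n + 1) := by ring
      rw [h5]
      exact pow_mem_sI ϖ _ _ c n
    have h6 : ∑ j, a j * (v (e j) - c * ϖ ^ n * u (e j)) ∈ S := by
      rw [hS]
      exact Ideal.sum_mem _ (fun j _ => Ideal.mul_mem_left _ _
        (s_mem_sI ϖ (fun j => u (e j)) (fun j => v (e j)) c n j))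
    have h7 : v k - c * ϖ ^ n * u k = ∑ j, a j * (v (e j) - c * ϖ ^ n * u (e j)) +
        (v k - ∑ j, a j * v (e j)) - c * (ϖ ^ n * (u k - ∑ j, a j * u (e j))) := by
      have h8 : ∑ j, a j * (v (e j) - c * ϖ ^ n * u (e j)) =
          ∑ j, a j * v (e j) - c * ϖ ^ n * ∑ j, a j * u (e j) := by
        rw [Finset.mul_sum, ← Finset.sum_sub_distrib]
        exact Finset.sum_congr rfl (fun j _ => by ring)
      rw [h8]
      ring
    show v k - c * ϖ ^ n * u k ∈ S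
    rw [h7]
    exact Ideal.sub_mem _ (Ideal.add_mem _ h6 (herr h2)) (Ideal.mul_mem_left _ _ h3)
  · rw [sq, Ideal.span_mul_span', Ideal.span_le]
    rintro _ ⟨_, ⟨i, rfl⟩, _, ⟨j, rfl⟩, rfl⟩
    exact hWW (Ideal.mul_mem_mul (hu i) (hu j))
  · rw [Ideal.span_mul_span', Ideal.span_le]
    rintro _ ⟨_, rfl, _, ⟨j, rfl⟩, rfl⟩
    exact hWW (Ideal.mul_mem_mul (Ideal.mem_sup_right (Ideal.mem_span_singleton_self _)) (hu j))
  · rw [Ideal.span_singleton_le_iff_mem, hS]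
    exact pow_mem_sI ϖ _ _ c n
-- END S4

include h in
theorem Sub.cenI_eq (hn : 1 ≤ n) (c : A) (j : ℕ) :
    cenI ϖ u v c n j = cenI ϖ (fun j => u (e j)) (fun j => v (e j)) c n j := by
  unfold cenI
  split_ifs with h1 h2
  · exact h.kI_eq (by omega)
  · exact h.rI_eq (by omega)
  · exact h.sI_eq hn c

end Eq

section Tau

-- BEGIN S5
theorem s5_one_add_pow (x : A) (m : ℕ) : ∃ g : A, (1 + x) ^ m = 1 + m * x + x ^ 2 * g := by
  induction m with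
  | zero => exact ⟨0, by simp⟩
  | succ m ih =>
    obtain ⟨g, hg⟩ := ih
    refine ⟨g + x * g + m, ?_⟩
    rw [pow_succ, hg]
    push_cast
    ring

/-- TASK S5. The expansion comes from the automorphism. Let `U = (u (e j))`, `V = (v (e j))`, `I = U + V + (ϖ ^ (n + 1))`. `u k ∈ I` (`hI` for `f k`), so
`u k = ∑ a_j u_j + ∑ b_j v_j + d ϖ ^ (n + 1)`. `v k = τ (u k) - (1 + ϖ ^ n κ) u k = ∑ [τ a_j τ u_j - (1 + ϖ ^ n κ) a_j u_j] + ∑ [τ b_j τ v_j - (1 + ϖ ^ n κ) b_j v_j]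
+ [τ d τ ϖ ^ (n + 1) - (1 + ϖ ^ n κ) d ϖ ^ (n + 1)]`. With `τ u_j = (1 + ϖ ^ n κ) u_j + v_j` the first bracket is
`(τ a_j - a_j) τ u_j + a_j v_j`, and `(τ a_j - a_j) τ u_j ∈ I (U + V) ≤ errI`; second: `τ v_j = (1 + ϖ ^ n l) v_j`: `((τ b_j - b_j) (1 + ϖ ^ n l) + b_j ϖ ^ n (l - κ)) v_j ∈ (I + (ϖ ^ n)) V ≤ errI`
(`I ≤ U + V + (ϖ ^ n)`); third: `(τ d - d) τ ϖ ^ (n + 1) + d (τ ϖ ^ (n + 1) - (1 + ϖ ^ n κ) ϖ ^ (n + 1))`: `τ ϖ ^ (n + 1) = ϖ ^ (n + 1) (1 + ε ϖ ^ n) ^ (n + 1)` is a multiple of `ϖ ^ (n + 1)` and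
`(τ d - d) ϖ ^ (n + 1) ∈ I (ϖ ^ (n + 1)) ≤ errI`; `(1 + ε ϖ ^ n) ^ (n + 1) - 1 - ϖ ^ n κ` is a multiple of `ϖ ^ (n + 1)` (`cκ`; expand modulo `ϖ ^ (2 n)`, `1 ≤ n`). -/
theorem sub_of_tau {ϖ ε κ l : A} {u v f : K → A} {e : J → K} {n : ℕ} (τ : A →+* A) (hn : 1 ≤ n)
    (hϖ : τ ϖ = ϖ + ε * ϖ ^ (n + 1)) (hu : ∀ k, u k = τ (f k) - f k)
    (hv : ∀ k, v k = τ (u k) - (1 + ϖ ^ n * κ) * u k)
    (hτv : ∀ k, τ (v k) = (1 + ϖ ^ n * l) * v k) (hκ : ∃ a, κ = (n + 1) * ε + a * ϖ)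
    (hI : ∀ a, τ a - a ∈ Ideal.span (Set.range fun j => u (e j)) ⊔
      Ideal.span (Set.range fun j => v (e j)) ⊔ Ideal.span {ϖ ^ (n + 1)}) :
    Sub ϖ u v e n := by
  classical
  refine ⟨fun k => ?_⟩
  set U := Ideal.span (Set.range fun j => u (e j)) with hU
  set V := Ideal.span (Set.range fun j => v (e j)) with hV
  have hUm : ∀ j, u (e j) ∈ U := fun j => Ideal.subset_span ⟨j, rfl⟩
  have hVm : ∀ j, v (e j) ∈ V := fun j => Ideal.subset_span ⟨j, rfl⟩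
  have hPm : ϖ ^ (n + 1) ∈ Ideal.span {ϖ ^ (n + 1)} := Ideal.mem_span_singleton_self _
  -- the components of the ideal of the errors
  have E1 : U * U ≤ errI ϖ (fun j => u (e j)) (fun j => v (e j)) n :=
    le_sup_of_le_left (le_sup_of_le_left le_sup_left)
  have E2 : Ideal.span {ϖ ^ (n + 1)} * U ≤ errI ϖ (fun j => u (e j)) (fun j => v (e j)) n :=
    le_sup_of_le_left (le_sup_of_le_left le_sup_right)
  have E3 : ϖ ^ (2 * n + 2) ∈ errI ϖ (fun j => u (e j)) (fun j => v (e j)) n :=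
    Ideal.mem_sup_left (Ideal.mem_sup_right (Ideal.mem_span_singleton_self _))
  have E4 : (U ⊔ V ⊔ Ideal.span {ϖ ^ n}) * V ≤
      errI ϖ (fun j => u (e j)) (fun j => v (e j)) n := le_sup_right
  have hIle : U ⊔ V ⊔ Ideal.span {ϖ ^ (n + 1)} ≤ U ⊔ V ⊔ Ideal.span {ϖ ^ n} := by
    refine sup_le_sup le_rfl ?_
    rw [Ideal.span_le, Set.singleton_subset_iff]
    exact Ideal.mem_span_singleton.2 (pow_dvd_pow _ (Nat.le_succ n))
  have E5 : ∀ x ∈ U ⊔ V ⊔ Ideal.span {ϖ ^ (n + 1)}, ∀ y ∈ V,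
      x * y ∈ errI ϖ (fun j => u (e j)) (fun j => v (e j)) n := fun x hx y hy =>
    E4 (Ideal.mul_mem_mul (hIle hx) hy)
  have E6 : ∀ x ∈ U ⊔ V ⊔ Ideal.span {ϖ ^ (n + 1)}, ∀ y ∈ U,
      x * y ∈ errI ϖ (fun j => u (e j)) (fun j => v (e j)) n := by
    intro x hx y hy
    have h1 : (U ⊔ V ⊔ Ideal.span {ϖ ^ (n + 1)}) * U ≤
        errI ϖ (fun j => u (e j)) (fun j => v (e j)) n := by
      rw [Ideal.sup_mul, Ideal.sup_mul]
      refine sup_le (sup_le E1 ?_) E2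
      rw [mul_comm]
      exact (Ideal.mul_mono (le_sup_of_le_left le_sup_left) le_rfl).trans E4
    exact h1 (Ideal.mul_mem_mul hx hy)
  have E7 : ∀ x ∈ U ⊔ V ⊔ Ideal.span {ϖ ^ (n + 1)},
      x * ϖ ^ (n + 1) ∈ errI ϖ (fun j => u (e j)) (fun j => v (e j)) n := by
    intro x hx
    have h1 : (U ⊔ V ⊔ Ideal.span {ϖ ^ (n + 1)}) * Ideal.span {ϖ ^ (n + 1)} ≤
        errI ϖ (fun j => u (e j)) (fun j => v (e j)) n := by
      rw [Ideal.sup_mul, Ideal.sup_mul]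
      refine sup_le (sup_le ?_ ?_) ?_
      · rw [mul_comm]; exact E2
      · rw [mul_comm]
        refine (Ideal.mul_mono ?_ le_rfl).trans E4
        exact le_trans le_sup_right hIle
      · rw [Ideal.span_singleton_mul_span_singleton, Ideal.span_le, Set.singleton_subset_iff,
          ← pow_add]
        have : n + 1 + (n + 1) = 2 * n + 2 := by ring
        rw [this]
        exact E3
    exact h1 (Ideal.mul_mem_mul hx hPm)
  -- the expansion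
  have h1 := hI (f k)
  rw [← hu k] at h1
  obtain ⟨x, hx, z, hz, hxz⟩ := Submodule.mem_sup.1 h1
  obtain ⟨x1, hx1, x2, hx2, hx12⟩ := Submodule.mem_sup.1 hx
  obtain ⟨a, ha⟩ := (Ideal.mem_span_range_iff_exists_fun).1 hx1
  obtain ⟨b, hb⟩ := (Ideal.mem_span_range_iff_exists_fun).1 hx2
  obtain ⟨d, hd⟩ := Ideal.mem_span_singleton'.1 hz
  have huk : u k = ∑ j, a j * u (e j) + ∑ j, b j * v (e j) + d * ϖ ^ (n + 1) := by
    rw [← hxz, ← hx12, ← ha, ← hb, ← hd]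
  refine ⟨a, ?_, ?_⟩
  · have h2 : u k - ∑ j, a j * u (e j) = x2 + z := by
      rw [← hxz, ← hx12, ← ha]; ring
    rw [h2]
    exact Ideal.add_mem _ (Ideal.mem_sup_left hx2) (Ideal.mem_sup_right hz)
  · have hτu : ∀ j, τ (u (e j)) = (1 + ϖ ^ n * κ) * u (e j) + v (e j) := by
      intro j
      have := hv (e j)
      rw [this]; ring
    obtain ⟨g, hg⟩ := s5_one_add_pow (ε * ϖ ^ n) (n + 1)
    have hτϖ : τ (ϖ ^ (n + 1)) = ϖ ^ (n + 1) * (1 + ε * ϖ ^ n) ^ (n + 1) := by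
      rw [map_pow, hϖ, ← mul_pow]
      congr 1
      ring
    have key : v k - ∑ j, a j * v (e j) =
        (∑ j, (τ (a j) - a j) * ((1 + ϖ ^ n * κ) * u (e j) + v (e j))) +
        (∑ j, ((τ (b j) - b j) * (1 + ϖ ^ n * l) + b j * (ϖ ^ n * (l - κ))) * v (e j)) +
        ((τ d - d) * (ϖ ^ (n + 1) * (1 + ε * ϖ ^ n) ^ (n + 1)) +
          d * (ϖ ^ (n + 1) * (1 + ε * ϖ ^ n) ^ (n + 1) - (1 + ϖ ^ n * κ) * ϖ ^ (n + 1))) := by
      have e1 : (∑ j, (τ (a j) - a j) * ((1 + ϖ ^ n * κ) * u (e j) + v (e j))) =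
          ∑ j, τ (a j) * ((1 + ϖ ^ n * κ) * u (e j) + v (e j)) -
            (1 + ϖ ^ n * κ) * ∑ j, a j * u (e j) - ∑ j, a j * v (e j) := by
        rw [Finset.mul_sum, ← Finset.sum_sub_distrib, ← Finset.sum_sub_distrib]
        refine Finset.sum_congr rfl fun j _ => ?_
        ring
      have e2 : (∑ j, ((τ (b j) - b j) * (1 + ϖ ^ n * l) + b j * (ϖ ^ n * (l - κ))) * v (e j)) =
          ∑ j, τ (b j) * ((1 + ϖ ^ n * l) * v (e j)) -
            (1 + ϖ ^ n * κ) * ∑ j, b j * v (e j) := by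
        rw [Finset.mul_sum, ← Finset.sum_sub_distrib]
        refine Finset.sum_congr rfl fun j _ => ?_
        ring
      have e3 : τ (u k) = ∑ j, τ (a j) * ((1 + ϖ ^ n * κ) * u (e j) + v (e j)) +
          ∑ j, τ (b j) * ((1 + ϖ ^ n * l) * v (e j)) +
          τ d * (ϖ ^ (n + 1) * (1 + ε * ϖ ^ n) ^ (n + 1)) := by
        rw [huk, map_add, map_add, map_sum, map_sum, map_mul, hτϖ]
        congr 1
        congr 1
        · refine Finset.sum_congr rfl fun j _ => ?_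
          rw [map_mul, hτu]
        · refine Finset.sum_congr rfl fun j _ => ?_
          rw [map_mul, hτv]
      rw [hv k, e3, e1, e2, huk]
      generalize (1 + ε * ϖ ^ n) ^ (n + 1) = Q
      generalize ϖ ^ (n + 1) = Pw
      generalize ϖ ^ n = Rw
      generalize (∑ j, τ (a j) * ((1 + Rw * κ) * u (e j) + v (e j))) = S1
      generalize (∑ j, τ (b j) * ((1 + Rw * l) * v (e j))) = S2
      generalize (∑ j, a j * u (e j)) = S3
      generalize (∑ j, b j * v (e j)) = S4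
      generalize (∑ j, a j * v (e j)) = S5
      ring
    rw [key]
    have hτuUV : ∀ j, ∀ y ∈ U ⊔ V ⊔ Ideal.span {ϖ ^ (n + 1)},
        y * ((1 + ϖ ^ n * κ) * u (e j) + v (e j)) ∈
          errI ϖ (fun j => u (e j)) (fun j => v (e j)) n := by
      intro j y hy
      rw [mul_add]
      exact Ideal.add_mem _ (E6 _ hy _ (Ideal.mul_mem_left _ _ (hUm j))) (E5 _ hy _ (hVm j))
    refine Ideal.add_mem _ (Ideal.add_mem _ (sum_mem fun j _ => hτuUV j _ (hI _))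
      (sum_mem fun j _ => ?_)) (Ideal.add_mem _ ?_ ?_)
    · refine E4 (Ideal.mul_mem_mul (Ideal.add_mem _ (Ideal.mul_mem_right _ _ (hIle (hI _))) ?_)
        (hVm j))
      refine Ideal.mul_mem_left _ _ (Ideal.mem_sup_right (Ideal.mul_mem_right _ _
        (Ideal.mem_span_singleton_self _)))
    · rw [← mul_assoc]
      exact Ideal.mul_mem_right _ _ (E7 _ (hI _))
    · obtain ⟨a', ha'⟩ := hκ
      obtain ⟨n', rfl⟩ := Nat.exists_eq_add_of_le hn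
      have e4 : d * (ϖ ^ (1 + n' + 1) * (1 + ε * ϖ ^ (1 + n')) ^ (1 + n' + 1) -
          (1 + ϖ ^ (1 + n') * κ) * ϖ ^ (1 + n' + 1)) =
          d * (ε ^ 2 * ϖ ^ n' * g - a') * ϖ ^ (2 * (1 + n') + 2) := by
        rw [hg, ha']
        push_cast
        ring
      rw [e4]
      exact Ideal.mul_mem_left _ _ E3
-- END S5

end Tau

end Pool.Agent.Lib.MP_6a3dac_ag.W3
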