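import Pool.Agent.Lib.MP_6a3dac_ag.W3.BSet
import Pool.Agent.Lib.MP_6a3dac_ag.W3.Same

/-!
# The ideals of a chart
-/

set_option autoImplicit false
set_option linter.unusedSectionVars false
set_option linter.unusedVariables false

namespace Pool.Agent.Lib.MP_6a3dac_ag.W3

open IsLocalRing
open Pool.Agent.Lib.MP_6a3dac_ag Pool.Agent.Lib.MP_6a3dac_ag.QD
open scoped Pointwise

section Idl

variable {M F I : Type} [CommRing M] [Field F] (ι : M →+* F) (x : I → M) (i : I) (A : Subring F)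

/-- The ideal of `A` generated by the fractions of the elements of `S`, which are homogeneous of degree `d`. -/
def idl (S : Set M) (d : ℕ) : Ideal A :=
  Ideal.span {y : A | ∃ b ∈ S, (y : F) = ι b / ι (x i) ^ d}

/-- The fractions of the elements of `S` lie in `A`. -/
def IntS (S : Set M) (d : ℕ) : Prop := ∀ b ∈ S, ι b / ι (x i) ^ d ∈ A

variable {ι x i A}

-- BEGIN H1
/-- TASK H1 (six statements). -/
theorem IntS.mul {S T : Set M} {d e : ℕ} (hS : IntS ι x i A S d) (hT : IntS ι x i A T e) :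
    IntS ι x i A (S * T) (d + e) := by
  rintro _ ⟨s, hs, t, ht, rfl⟩
  change ι (s * t) / ι (x i) ^ (d + e) ∈ A
  rw [map_mul, pow_add, ← div_mul_div_comm]
  exact A.mul_mem (hS s hs) (hT t ht)

theorem IntS.union {S T : Set M} {d : ℕ} (hS : IntS ι x i A S d) (hT : IntS ι x i A T d) :
    IntS ι x i A (S ∪ T) d := by
  rintro b (hb | hb)
  · exact hS b hb
  · exact hT b hb

/-- `Ideal.span_mul_span'`; every element of the set of `S * T` is a product of elements of the sets of `S` and `T` (by `IntS`). -/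
theorem idl_mul {S T : Set M} {d e : ℕ} (hS : IntS ι x i A S d) (hT : IntS ι x i A T e) :
    idl ι x i A (S * T) (d + e) = idl ι x i A S d * idl ι x i A T e := by
  unfold idl
  rw [Ideal.span_mul_span']
  congr 1
  ext y
  constructor
  · rintro ⟨_, ⟨s, hs, t, ht, rfl⟩, hy⟩
    refine ⟨⟨_, hS s hs⟩, ⟨s, hs, rfl⟩, ⟨_, hT t ht⟩, ⟨t, ht, rfl⟩, ?_⟩
    apply Subtype.ext
    change ι s / ι (x i) ^ d * (ι t / ι (x i) ^ e) = (y : F)
    rw [hy]
    change _ = ι (s * t) / ι (x i) ^ (d + e)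
    rw [map_mul, pow_add, ← div_mul_div_comm]
  · rintro ⟨y₁, ⟨s, hs, h1⟩, y₂, ⟨t, ht, h2⟩, rfl⟩
    refine ⟨s * t, ⟨s, hs, t, ht, rfl⟩, ?_⟩
    change (y₁ : F) * (y₂ : F) = _
    rw [h1, h2, map_mul, pow_add, ← div_mul_div_comm]

theorem idl_union {S T : Set M} {d : ℕ} :
    idl ι x i A (S ∪ T) d = idl ι x i A S d ⊔ idl ι x i A T d := by
  unfold idl
  rw [← Ideal.span_union]
  congr 1
  ext y
  constructor
  · rintro ⟨b, hb | hb, hy⟩
    · exact Or.inl ⟨b, hb, hy⟩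
    · exact Or.inr ⟨b, hb, hy⟩
  · rintro (⟨b, hb, hy⟩ | ⟨b, hb, hy⟩)
    · exact ⟨b, Or.inl hb, hy⟩
    · exact ⟨b, Or.inr hb, hy⟩

theorem idl_singleton {b : M} {y : A} (hy : (y : F) = ι b) :
    idl ι x i A {b} 0 = Ideal.span {y} := by
  unfold idl
  congr 1
  ext z
  constructor
  · rintro ⟨b', rfl, hz⟩
    rw [pow_zero, div_one, ← hy] at hz
    exact Subtype.ext hz
  · rintro rfl
    exact ⟨b, rfl, by rw [pow_zero, div_one, hy]⟩

theorem idl_range {K : Type} {f : K → M} {g : K → A} {d : ℕ}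
    (hg : ∀ k, (g k : F) = ι (f k) / ι (x i) ^ d) :
    idl ι x i A (Set.range f) d = Ideal.span (Set.range g) := by
  unfold idl
  congr 1
  ext z
  constructor
  · rintro ⟨_, ⟨k, rfl⟩, hz⟩
    exact ⟨k, Subtype.ext (by rw [hg, hz])⟩
  · rintro ⟨k, rfl⟩
    exact ⟨f k, ⟨k, rfl⟩, hg k⟩
-- END H1

-- BEGIN H2
/-- TASK H2 (two statements). The coordinates generate the unit ideal: `x i / x i = 1`. -/
theorem idl_XS (h0 : ι (x i) ≠ 0) : idl ι x i A (XS x) 1 = ⊤ := by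
  rw [Ideal.eq_top_iff_one]
  refine Ideal.subset_span ⟨x i, ⟨i, rfl⟩, ?_⟩
  rw [pow_one, div_self h0]
  rfl

theorem intS_XS (h : ∀ k, ι (x k) / ι (x i) ∈ A) : IntS ι x i A (XS x) 1 := by
  rintro _ ⟨k, rfl⟩
  rw [pow_one]
  exact h k
-- END H2

section Centre

variable {τ : M →+* M} {ϖ a c : M} {n : ℕ} (h0 : ι (x i) ≠ 0) (hx : ∀ k, ι (x k) / ι (x i) ∈ A)
  {ϖA cA : A} (hϖ : (ϖA : F) = ι ϖ) (hc : (cA : F) = ι c) {u v : I → A}
  (hu : ∀ k, (u k : F) = ι (lF x τ k) / ι (x i)) (hv : ∀ k, (v k : F) = ι (vF x τ a k) / ι (x i))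

-- BEGIN H3
include hϖ in
theorem h3_int_pow (k : ℕ) : IntS ι x i A ({ϖ ^ k} : Set M) 0 := by
  rintro _ rfl
  rw [pow_zero, div_one, map_pow, ← hϖ]
  exact A.pow_mem ϖA.2 k

include hϖ in
theorem h3_idl_pow (k : ℕ) : idl ι x i A ({ϖ ^ k} : Set M) 0 = Ideal.span {ϖA ^ k} :=
  idl_singleton (by
    change (ϖA : F) ^ k = _
    rw [hϖ, map_pow])

include hu in
theorem h3_int_L : IntS ι x i A (LS x τ) 1 := by
  rintro _ ⟨k, rfl⟩
  rw [pow_one, ← hu k]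
  exact (u k).2

include hu in
theorem h3_idl_L : idl ι x i A (LS x τ) 1 = Ideal.span (Set.range u) :=
  idl_range fun k => by rw [pow_one, hu k]

include hv in
theorem h3_int_V : IntS ι x i A (VS x τ a) 1 := by
  rintro _ ⟨k, rfl⟩
  rw [pow_one, ← hv k]
  exact (v k).2

include hv in
theorem h3_idl_V : idl ι x i A (VS x τ a) 1 = Ideal.span (Set.range v) :=
  idl_range fun k => by rw [pow_one, hv k]

include h0 hx hϖ hu in
/-- TASK H3 (four statements). `aI` and `kI`; degrees `1`, `2`. -/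
theorem intS_AS (k : ℕ) : IntS ι x i A (AS x τ ϖ k) 1 :=
  ((h3_int_pow hϖ k).mul (intS_XS hx)).union (h3_int_L hu)

include h0 hx hϖ hu in
theorem idl_AS (k : ℕ) : idl ι x i A (AS x τ ϖ k) 1 = aI ϖA u k := by
  unfold AS aI
  rw [idl_union, h3_idl_L hu, Ideal.span_insert]
  congr 1
  have h1 := idl_mul (h3_int_pow (x := x) (i := i) hϖ k) (intS_XS hx)
  rw [h3_idl_pow hϖ, idl_XS h0, Ideal.mul_top] at h1
  exact h1

include h0 hx hϖ hu hv in
theorem intS_KS (l : ℕ) : IntS ι x i A (KS x τ ϖ a l) 2 :=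
  ((intS_AS h0 hx hϖ hu (l / 2)).mul (intS_AS h0 hx hϖ hu ((l + 1) / 2))).union
    ((h3_int_V hv).mul (intS_XS hx))

include h0 hx hϖ hu hv in
theorem idl_KS (l : ℕ) : idl ι x i A (KS x τ ϖ a l) 2 = kI ϖA u v l := by
  unfold KS kI
  rw [idl_union]
  congr 1
  · have h1 := idl_mul (intS_AS h0 hx hϖ hu (l / 2)) (intS_AS h0 hx hϖ hu ((l + 1) / 2))
    rw [idl_AS h0 hx hϖ hu, idl_AS h0 hx hϖ hu] at h1
    exact h1
  · have h1 := idl_mul (h3_int_V hv) (intS_XS hx)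
    rw [h3_idl_V hv, idl_XS h0, Ideal.mul_top] at h1
    exact h1
-- END H3

-- BEGIN H4
include hu hv in
theorem h4_minor (q : I × I) : ((u q.1 * v q.2 - u q.2 * v q.1 : A) : F) =
    ι (lF x τ q.1 * vF x τ a q.2 - lF x τ q.2 * vF x τ a q.1) / ι (x i) ^ 2 := by
  change (u q.1 : F) * (v q.2 : F) - (u q.2 : F) * (v q.1 : F) = _
  rw [hu, hu, hv, hv, map_sub, map_mul, map_mul, sub_div, pow_two, ← div_mul_div_comm,
    ← div_mul_div_comm]

include hu hv in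
theorem h4_int_M : IntS ι x i A (MS x τ a) 2 := by
  rintro _ ⟨q, rfl⟩
  rw [← h4_minor hu hv q]
  exact (u q.1 * v q.2 - u q.2 * v q.1 : A).2

include hu hv in
theorem h4_idl_M : idl ι x i A (MS x τ a) 2 = mI u v :=
  idl_range fun q => h4_minor hu hv q

include h0 hx in
theorem h4_XX : IntS ι x i A (XS x * XS x) 2 ∧ idl ι x i A (XS x * XS x) 2 = ⊤ := by
  refine ⟨(intS_XS hx).mul (intS_XS hx), ?_⟩
  have h1 := idl_mul (intS_XS hx) (intS_XS hx)
  rw [idl_XS h0, Ideal.mul_top] at h1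
  exact h1

include h0 hx in
theorem h4_XXX : IntS ι x i A (XS x * XS x * XS x) 3 ∧
    idl ι x i A (XS x * XS x * XS x) 3 = ⊤ := by
  obtain ⟨h1, h2⟩ := h4_XX (x := x) (i := i) h0 hx
  refine ⟨h1.mul (intS_XS hx), ?_⟩
  have h3 := idl_mul h1 (intS_XS hx)
  rw [h2, idl_XS h0, Ideal.mul_top] at h3
  exact h3

include h0 hx hϖ hu hv in
/-- TASK H4 (two statements). `rI`; degree `4`. `idl_mul`, `idl_union`, `idl_range` (for `MS`: the function of two indices, degree `2`), `idl_XS`; `pow_two`,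
`pow_three` for the powers in `rI`. -/
theorem intS_RS (m : ℕ) : IntS ι x i A (RS x τ ϖ a m) 4 := by
  have hK := intS_KS h0 hx hϖ hu hv (2 * m + 2)
  have hA := intS_AS h0 hx hϖ hu (m + 1)
  have h1 : IntS ι x i A (AS x τ ϖ (m + 1) * AS x τ ϖ (m + 1) * AS x τ ϖ (m + 1) * XS x) 4 :=
    ((hA.mul hA).mul hA).mul (intS_XS hx)
  have h2 : IntS ι x i A (({ϖ ^ (m + 1)} : Set M) * (VS x τ a * (XS x * XS x * XS x))) 4 :=
    (h3_int_pow hϖ (m + 1)).mul ((h3_int_V hv).mul (h4_XXX h0 hx).1)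
  have h3 : IntS ι x i A (MS x τ a * (XS x * XS x)) 4 := (h4_int_M hu hv).mul (h4_XX h0 hx).1
  exact (hK.mul hK).union ((h3_int_pow hϖ m).mul ((h1.union h2).union h3))

include h0 hx hϖ hu hv in
theorem idl_RS (m : ℕ) : idl ι x i A (RS x τ ϖ a m) 4 = rI ϖA u v m := by
  have hK := intS_KS h0 hx hϖ hu hv (2 * m + 2)
  have hA := intS_AS h0 hx hϖ hu (m + 1)
  have h1 : IntS ι x i A (AS x τ ϖ (m + 1) * AS x τ ϖ (m + 1) * AS x τ ϖ (m + 1) * XS x) 4 :=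
    ((hA.mul hA).mul hA).mul (intS_XS hx)
  have h2 : IntS ι x i A (({ϖ ^ (m + 1)} : Set M) * (VS x τ a * (XS x * XS x * XS x))) 4 :=
    (h3_int_pow hϖ (m + 1)).mul ((h3_int_V hv).mul (h4_XXX h0 hx).1)
  have h3 : IntS ι x i A (MS x τ a * (XS x * XS x)) 4 := (h4_int_M hu hv).mul (h4_XX h0 hx).1
  have e1 : idl ι x i A (KS x τ ϖ a (2 * m + 2) * KS x τ ϖ a (2 * m + 2)) 4 =
      kI ϖA u v (2 * m + 2) ^ 2 := by
    have h4 := idl_mul hK hK
    rw [idl_KS h0 hx hϖ hu hv] at h4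
    rw [pow_two (kI ϖA u v (2 * m + 2))]
    exact h4
  have e2 : idl ι x i A (AS x τ ϖ (m + 1) * AS x τ ϖ (m + 1) * AS x τ ϖ (m + 1) * XS x) 4 =
      aI ϖA u (m + 1) ^ 3 := by
    have h4 := idl_mul ((hA.mul hA).mul hA) (intS_XS hx)
    rw [idl_mul (hA.mul hA) hA, idl_mul hA hA, idl_AS h0 hx hϖ hu, idl_XS h0, Ideal.mul_top] at h4
    rw [pow_succ, pow_two]
    exact h4
  have e3 : idl ι x i A (({ϖ ^ (m + 1)} : Set M) * (VS x τ a * (XS x * XS x * XS x))) 4 =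
      Ideal.span {ϖA ^ (m + 1)} * Ideal.span (Set.range v) := by
    have h4 := idl_mul (h3_int_pow (x := x) (i := i) hϖ (m + 1))
      ((h3_int_V hv).mul (h4_XXX h0 hx).1)
    rw [idl_mul (h3_int_V hv) (h4_XXX h0 hx).1, h3_idl_pow hϖ, h3_idl_V hv, (h4_XXX h0 hx).2,
      Ideal.mul_top] at h4
    exact h4
  have e4 : idl ι x i A (MS x τ a * (XS x * XS x)) 4 = mI u v := by
    have h4 := idl_mul (h4_int_M hu hv) (h4_XX h0 hx).1
    rw [h4_idl_M hu hv, (h4_XX h0 hx).2, Ideal.mul_top] at h4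
    exact h4
  have e5 : idl ι x i A (({ϖ ^ m} : Set M) *
      ((AS x τ ϖ (m + 1) * AS x τ ϖ (m + 1) * AS x τ ϖ (m + 1) * XS x ∪
      ({ϖ ^ (m + 1)} : Set M) * (VS x τ a * (XS x * XS x * XS x))) ∪
        MS x τ a * (XS x * XS x))) 4 = Ideal.span {ϖA ^ m} *
    (aI ϖA u (m + 1) ^ 3 ⊔ Ideal.span {ϖA ^ (m + 1)} * Ideal.span (Set.range v) ⊔ mI u v) := by
    have h4 := idl_mul (h3_int_pow (x := x) (i := i) hϖ m) ((h1.union h2).union h3)
    rw [h3_idl_pow hϖ, idl_union, idl_union, e2, e3, e4] at h4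
    exact h4
  unfold RS rI
  rw [idl_union, e1, e5]
-- END H4

-- BEGIN H5
theorem h5_int3 (hx : ∀ k, ι (x k) / ι (x i) ∈ A) :
    IntS ι x i A (XS x * XS x * XS x) 3 :=
  ((intS_XS hx).mul (intS_XS hx)).mul (intS_XS hx)

theorem h5_int2 (hx : ∀ k, ι (x k) / ι (x i) ∈ A) : IntS ι x i A (XS x * XS x) 2 :=
  (intS_XS hx).mul (intS_XS hx)

theorem h5_int4 (hx : ∀ k, ι (x k) / ι (x i) ∈ A) :
    IntS ι x i A (XS x * XS x * XS x * XS x) 4 :=
  (h5_int3 hx).mul (intS_XS hx)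

theorem h5_top2 (h0 : ι (x i) ≠ 0) (hx : ∀ k, ι (x k) / ι (x i) ∈ A) :
    idl ι x i A (XS x * XS x) 2 = ⊤ := by
  change idl ι x i A (XS x * XS x) (1 + 1) = ⊤
  rw [idl_mul (intS_XS hx) (intS_XS hx), idl_XS h0, Ideal.mul_top]

theorem h5_top3 (h0 : ι (x i) ≠ 0) (hx : ∀ k, ι (x k) / ι (x i) ∈ A) :
    idl ι x i A (XS x * XS x * XS x) 3 = ⊤ := by
  change idl ι x i A (XS x * XS x * XS x) (2 + 1) = ⊤
  rw [idl_mul (h5_int2 hx) (intS_XS hx), idl_XS h0, h5_top2 h0 hx, Ideal.mul_top]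

theorem h5_top4 (h0 : ι (x i) ≠ 0) (hx : ∀ k, ι (x k) / ι (x i) ∈ A) :
    idl ι x i A (XS x * XS x * XS x * XS x) 4 = ⊤ := by
  change idl ι x i A (XS x * XS x * XS x * XS x) (3 + 1) = ⊤
  rw [idl_mul (h5_int3 hx) (intS_XS hx), idl_XS h0, h5_top3 h0 hx, Ideal.mul_top]

theorem h5_intP {ϖ : M} {ϖA : A} (hϖ : (ϖA : F) = ι ϖ) (k : ℕ) :
    IntS ι x i A ({ϖ ^ k} : Set M) 0 := by
  intro b hb
  rw [Set.mem_singleton_iff.1 hb, pow_zero, div_one, map_pow, ← hϖ]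
  exact A.pow_mem ϖA.2 k

theorem h5_idlP {ϖ : M} {ϖA : A} (hϖ : (ϖA : F) = ι ϖ) (k : ℕ) :
    idl ι x i A ({ϖ ^ k} : Set M) 0 = Ideal.span {ϖA ^ k} :=
  idl_singleton (by rw [map_pow, ← hϖ]; rfl)

theorem h5_sF {τ : M →+* M} {ϖ a c : M} {n : ℕ} {ϖA cA : A} (hϖ : (ϖA : F) = ι ϖ)
    (hc : (cA : F) = ι c) {u v : I → A} (hu : ∀ k, (u k : F) = ι (lF x τ k) / ι (x i))
    (hv : ∀ k, (v k : F) = ι (vF x τ a k) / ι (x i)) (k : I) :
    ((v k - cA * ϖA ^ n * u k : A) : F) = ι (sF x τ ϖ a c n k) / ι (x i) ^ 1 := by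
  have h1 : ((v k - cA * ϖA ^ n * u k : A) : F) = (v k : F) - (cA : F) * (ϖA : F) ^ n * (u k : F) :=
    rfl
  rw [h1, hv, hu, hc, hϖ]
  unfold sF
  rw [map_sub, map_mul, map_mul, map_pow, pow_one]
  ring

theorem h5_intL {τ : M →+* M} {u : I → A} (hu : ∀ k, (u k : F) = ι (lF x τ k) / ι (x i)) :
    IntS ι x i A (LS x τ) 1 := by
  rintro b ⟨k, rfl⟩
  rw [pow_one, ← hu]
  exact (u k).2

theorem h5_idlL {τ : M →+* M} {u : I → A} (hu : ∀ k, (u k : F) = ι (lF x τ k) / ι (x i)) :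
    idl ι x i A (LS x τ) 1 = Ideal.span (Set.range u) :=
  idl_range (fun k => by rw [pow_one]; exact hu k)

theorem h5_intS {τ : M →+* M} {ϖ a c : M} {n : ℕ} {ϖA cA : A} (hϖ : (ϖA : F) = ι ϖ)
    (hc : (cA : F) = ι c) {u v : I → A} (hu : ∀ k, (u k : F) = ι (lF x τ k) / ι (x i))
    (hv : ∀ k, (v k : F) = ι (vF x τ a k) / ι (x i)) :
    IntS ι x i A (SS x τ ϖ a c n) 1 := by
  rintro b ⟨k, rfl⟩
  rw [← h5_sF hϖ hc hu hv]
  exact (v k - cA * ϖA ^ n * u k).2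

theorem h5_idlS {τ : M →+* M} {ϖ a c : M} {n : ℕ} {ϖA cA : A} (hϖ : (ϖA : F) = ι ϖ)
    (hc : (cA : F) = ι c) {u v : I → A} (hu : ∀ k, (u k : F) = ι (lF x τ k) / ι (x i))
    (hv : ∀ k, (v k : F) = ι (vF x τ a k) / ι (x i)) :
    idl ι x i A (SS x τ ϖ a c n) 1 =
      Ideal.span (Set.range fun k => v k - cA * ϖA ^ n * u k) :=
  idl_range (fun k => h5_sF hϖ hc hu hv k)

include h0 hx hϖ hc hu hv in
/-- TASK H5 (two statements). `sI`; degree `4`. `sF k = vF k - c ϖ ^ n lF k`. -/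
theorem intS_ZS : IntS ι x i A (ZS x τ ϖ a c n) 4 := by
  refine IntS.union (IntS.union (IntS.union ?_ ?_) ?_) ?_
  · exact (h5_intS hϖ hc hu hv).mul (h5_int3 hx)
  · exact ((h5_intL hu).mul (h5_intL hu)).mul (h5_int2 hx)
  · exact (h5_intP hϖ _).mul ((h5_intL hu).mul (h5_int3 hx))
  · exact (h5_intP hϖ _).mul (h5_int4 hx)

include h0 hx hϖ hc hu hv in
theorem idl_ZS : idl ι x i A (ZS x τ ϖ a c n) 4 = sI ϖA u v cA n := by
  have e1 : idl ι x i A (SS x τ ϖ a c n * (XS x * XS x * XS x)) 4 =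
      Ideal.span (Set.range fun k => v k - cA * ϖA ^ n * u k) := by
    change idl ι x i A (SS x τ ϖ a c n * (XS x * XS x * XS x)) (1 + 3) = _
    rw [idl_mul (h5_intS hϖ hc hu hv) (h5_int3 hx), h5_top3 h0 hx, Ideal.mul_top,
      h5_idlS hϖ hc hu hv]
  have e2 : idl ι x i A (LS x τ * LS x τ * (XS x * XS x)) 4 = Ideal.span (Set.range u) ^ 2 := by
    change idl ι x i A (LS x τ * LS x τ * (XS x * XS x)) (1 + 1 + 2) = _
    rw [idl_mul ((h5_intL hu).mul (h5_intL hu)) (h5_int2 hx), idl_mul (h5_intL hu) (h5_intL hu),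
      h5_top2 h0 hx, Ideal.mul_top, h5_idlL hu, pow_two]
  have e3 : idl ι x i A (({ϖ ^ (n + 1)} : Set M) * (LS x τ * (XS x * XS x * XS x))) 4 =
      Ideal.span {ϖA ^ (n + 1)} * Ideal.span (Set.range u) := by
    change idl ι x i A (({ϖ ^ (n + 1)} : Set M) * (LS x τ * (XS x * XS x * XS x)))
      (0 + (1 + 3)) = _
    rw [idl_mul (h5_intP hϖ _) ((h5_intL hu).mul (h5_int3 hx)),
      idl_mul (h5_intL hu) (h5_int3 hx), h5_top3 h0 hx, Ideal.mul_top, h5_idlL hu, h5_idlP hϖ]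
  have e4 : idl ι x i A (({ϖ ^ (2 * n + 1)} : Set M) * (XS x * XS x * XS x * XS x)) 4 =
      Ideal.span {ϖA ^ (2 * n + 1)} := by
    change idl ι x i A (({ϖ ^ (2 * n + 1)} : Set M) * (XS x * XS x * XS x * XS x)) (0 + 4) = _
    rw [idl_mul (h5_intP hϖ _) (h5_int4 hx), h5_top4 h0 hx, Ideal.mul_top, h5_idlP hϖ]
  unfold ZS sI
  rw [idl_union, idl_union, idl_union, e1, e2, e3, e4]
-- END H5

/-- The ideals with the indices of `BW`. -/
def cenW {A : Type} [CommRing A] {J : Type} (ϖ : A) (u v : J → A) (c : A) (n j : ℕ) : Ideal A :=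
  if j ≤ 2 * n + 2 then kI ϖ u v j else
    if j < 4 * n + 4 then ⊤ else
      if j < 5 * n + 4 then rI ϖ u v (j - (4 * n + 4)) else sI ϖ u v c n

/-- The index of `cenI j` among the `BW`. -/
def idxW (n j : ℕ) : ℕ :=
  if j < 2 * n + 2 then j + 1 else if j < 3 * n + 2 then 2 * n + 2 + j else 5 * n + 4

-- BEGIN H6
/-- TASK H6 (four statements). `unfold idxW cenW cenI`, `split_ifs`, `omega`; for `rI` the indices agree: `2 n + 2 + j - (4 n + 4) = j - (2 n + 2)`. -/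
theorem cenI_eq_cenW {A : Type} [CommRing A] {J : Type} (ϖ : A) (u v : J → A) (c : A) {n j : ℕ}
    (hj : j ≤ 3 * n + 2) : cenI ϖ u v c n j = cenW ϖ u v c n (idxW n j) := by
  by_cases h1 : j < 2 * n + 2
  · have e1 : idxW n j = j + 1 := by unfold idxW; rw [if_pos h1]
    rw [e1]
    unfold cenI cenW
    rw [if_pos h1, if_pos (by omega)]
  · by_cases h2 : j < 3 * n + 2
    · have e1 : idxW n j = 2 * n + 2 + j := by unfold idxW; rw [if_neg h1, if_pos h2]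
      rw [e1]
      unfold cenI cenW
      rw [if_neg h1, if_pos h2, if_neg (by omega), if_neg (by omega), if_pos (by omega)]
      congr 1
      omega
    · have e1 : idxW n j = 5 * n + 4 := by unfold idxW; rw [if_neg h1, if_neg h2]
      rw [e1]
      unfold cenI cenW
      rw [if_neg h1, if_neg h2, if_neg (by omega), if_neg (by omega), if_neg (by omega)]

theorem idxW_mem {n j : ℕ} (hj : j ≤ 3 * n + 2) : idxW n j ∈ Finset.Icc 1 (5 * n + 4) := by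
  rw [Finset.mem_Icc]
  unfold idxW
  split_ifs <;> omega

theorem exists_idxW {A : Type} [CommRing A] {J : Type} (ϖ : A) (u v : J → A) (c : A) {n j : ℕ}
    (hj : j ∈ Finset.Icc 1 (5 * n + 4)) :
    cenW ϖ u v c n j = ⊤ ∨ ∃ j' ≤ 3 * n + 2, idxW n j' = j := by
  rw [Finset.mem_Icc] at hj
  by_cases h1 : j ≤ 2 * n + 2
  · refine Or.inr ⟨j - 1, by omega, ?_⟩
    unfold idxW
    rw [if_pos (by omega)]
    omega
  · by_cases h2 : j < 4 * n + 4
    · left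
      unfold cenW
      rw [if_neg h1, if_pos h2]
    · by_cases h3 : j < 5 * n + 4
      · refine Or.inr ⟨j - (2 * n + 2), by omega, ?_⟩
        unfold idxW
        rw [if_neg (by omega), if_pos (by omega)]
        omega
      · refine Or.inr ⟨3 * n + 2, le_rfl, ?_⟩
        unfold idxW
        rw [if_neg (by omega), if_neg (by omega)]
        omega

/-- `ϖ ^ j` lies in the ideal: `pow_mem_kI`; `ϖ ^ (4 m + 3) = ϖ ^ m (ϖ ^ (m + 1)) ^ 3` (`cube_mem_rI`, `pow_mem_aI`), and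
`4 n + 4 + m ≥ 4 m + 3` for `m < n`; `pow_mem_sI`. -/
theorem pow_mem_cenW {A : Type} [CommRing A] {J : Type} (ϖ : A) (u v : J → A) (c : A) (n j : ℕ) :
    ϖ ^ j ∈ cenW ϖ u v c n j := by
  unfold cenW
  split_ifs with h1 h2 h3
  · exact pow_mem_kI ϖ u v j
  · trivial
  · obtain ⟨m, rfl⟩ : ∃ m, j = 4 * n + 4 + m := ⟨j - (4 * n + 4), by omega⟩
    have e1 : 4 * n + 4 + m - (4 * n + 4) = m := by omega
    rw [e1]
    have e2 : ϖ ^ (4 * n + 4 + m) = ϖ ^ (4 * n + 4 + m - (4 * m + 3)) *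
        (ϖ ^ m * (ϖ ^ (m + 1) * ϖ ^ (m + 1) * ϖ ^ (m + 1))) := by
      rw [← pow_add, ← pow_add, ← pow_add, ← pow_add]
      congr 1
      omega
    rw [e2]
    exact Ideal.mul_mem_left _ _ (cube_mem_rI ϖ u v m (pow_mem_aI ϖ u le_rfl)
      (pow_mem_aI ϖ u le_rfl) (pow_mem_aI ϖ u le_rfl))
  · have e2 : ϖ ^ j = ϖ ^ (j - (2 * n + 1)) * ϖ ^ (2 * n + 1) := by
      rw [← pow_add]
      congr 1
      omega
    rw [e2]
    exact Ideal.mul_mem_left _ _ (pow_mem_sI ϖ u v c n)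
-- END H6

-- BEGIN H7
include hϖ in
theorem h7_intS_pow (k : ℕ) : IntS ι x i A ({ϖ ^ k} : Set M) 0 := by
  rintro b hb
  rw [Set.mem_singleton_iff.1 hb, pow_zero, div_one, map_pow, ← hϖ]
  exact A.pow_mem ϖA.2 k

include hϖ in
theorem h7_idl_pow (k : ℕ) : idl ι x i A ({ϖ ^ k} : Set M) 0 = Ideal.span {ϖA ^ k} := by
  refine idl_singleton ?_
  rw [map_pow, ← hϖ]
  rfl

include hx in
theorem h7_intS_X3 : IntS ι x i A (XS x * XS x * XS x) (1 + 1 + 1) :=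
  ((intS_XS hx).mul (intS_XS hx)).mul (intS_XS hx)

include hx in
theorem h7_intS_X4 : IntS ι x i A (XS x * XS x * XS x * XS x) 4 := by
  have h1 : IntS ι x i A (XS x * XS x * XS x * XS x) (1 + 1 + 1 + 1) :=
    (h7_intS_X3 hx).mul (intS_XS hx)
  have e : (1 + 1 + 1 + 1 : ℕ) = 4 := rfl
  rwa [e] at h1

include h0 hx in
theorem h7_idl_X2' : idl ι x i A (XS x * XS x) (1 + 1) = ⊤ := by
  rw [idl_mul (intS_XS hx) (intS_XS hx), idl_XS h0, Ideal.top_mul]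

include h0 hx in
theorem h7_idl_X2 : idl ι x i A (XS x * XS x) 2 = ⊤ := by
  have h1 := h7_idl_X2' h0 hx
  have e : (1 + 1 : ℕ) = 2 := rfl
  rwa [e] at h1

include h0 hx in
theorem h7_idl_X3 : idl ι x i A (XS x * XS x * XS x) (1 + 1 + 1) = ⊤ := by
  have i2 : IntS ι x i A (XS x * XS x) (1 + 1) := (intS_XS hx).mul (intS_XS hx)
  rw [idl_mul i2 (intS_XS hx), h7_idl_X2' h0 hx, idl_XS h0, Ideal.top_mul]

include h0 hx in
theorem h7_idl_X4 : idl ι x i A (XS x * XS x * XS x * XS x) 4 = ⊤ := by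
  have h1 : idl ι x i A (XS x * XS x * XS x * XS x) (1 + 1 + 1 + 1) = ⊤ := by
    rw [idl_mul (h7_intS_X3 hx) (intS_XS hx), h7_idl_X3 h0 hx, idl_XS h0, Ideal.top_mul]
  have e : (1 + 1 + 1 + 1 : ℕ) = 4 := rfl
  rwa [e] at h1

include h0 hx hϖ hc hu hv in
/-- TASK H7 (two statements). H1-H6. -/
theorem intS_BW (j : ℕ) : IntS ι x i A (BW x τ ϖ a c n j) 4 := by
  unfold BW
  refine IntS.union ?_ ?_
  · split_ifs
    · exact (intS_KS h0 hx hϖ hu hv j).mul ((intS_XS hx).mul (intS_XS hx))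
    · exact h7_intS_X4 hx
    · exact intS_RS h0 hx hϖ hu hv _
    · exact intS_ZS h0 hx hϖ hc hu hv
  · have h1 := (h7_intS_pow (x := x) (i := i) (A := A) hϖ j).mul (h7_intS_X4 hx)
    exact h1

include h0 hx hϖ hc hu hv in
theorem idl_BW (j : ℕ) : idl ι x i A (BW x τ ϖ a c n j) 4 = cenW ϖA u v cA n j := by
  have h1 : idl ι x i A (({ϖ ^ j} : Set M) * (XS x * XS x * XS x * XS x)) 4 =
      Ideal.span {ϖA ^ j} := by
    have h2 : idl ι x i A (({ϖ ^ j} : Set M) * (XS x * XS x * XS x * XS x)) (0 + 4) =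
      idl ι x i A ({ϖ ^ j} : Set M) 0 * idl ι x i A (XS x * XS x * XS x * XS x) 4 :=
      idl_mul (h7_intS_pow hϖ j) (h7_intS_X4 hx)
    rw [h7_idl_pow hϖ, h7_idl_X4 h0 hx, Ideal.mul_top, zero_add] at h2
    exact h2
  have h3 : idl ι x i A (if j ≤ 2 * n + 2 then KS x τ ϖ a j * (XS x * XS x) else
      if j < 4 * n + 4 then XS x * XS x * XS x * XS x else
      if j < 5 * n + 4 then RS x τ ϖ a (j - (4 * n + 4)) else ZS x τ ϖ a c n) 4 =
      cenW ϖA u v cA n j := by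
    unfold cenW
    split_ifs
    · have h2 : idl ι x i A (KS x τ ϖ a j * (XS x * XS x)) (2 + 2) =
        idl ι x i A (KS x τ ϖ a j) 2 * idl ι x i A (XS x * XS x) 2 :=
        idl_mul (intS_KS h0 hx hϖ hu hv j) ((intS_XS hx).mul (intS_XS hx))
      rw [h7_idl_X2 h0 hx, Ideal.mul_top, idl_KS h0 hx hϖ hu hv] at h2
      exact h2
    · exact h7_idl_X4 h0 hx
    · exact idl_RS h0 hx hϖ hu hv _
    · exact idl_ZS h0 hx hϖ hc hu hv
  unfold BW
  rw [idl_union, h3, h1, sup_eq_left, Ideal.span_singleton_le_iff_mem]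
  exact pow_mem_cenW _ _ _ _ _ _
-- END H7

end Centre

end Idl

end Pool.Agent.Lib.MP_6a3dac_ag.W3
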