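import Pool.Agent.Lib.MP_6a3dac_ag.QD.Arith

/-!
# The constants at a wildly ramified prime of a cyclic cubic extension
-/

set_option autoImplicit false
set_option linter.unusedSectionVars false
set_option linter.unusedVariables false

namespace Pool.Agent.Lib.MP_6a3dac_ag.W3

open Pool.Agent.Lib.MP_6a3dac_ag Pool.Agent.Lib.MP_6a3dac_ag.QD

/-- The constants which appear in the centre. With `a = 1 + ϖ ^ n κ`, `b = a + c ϖ ^ n` one has `1 + a + a τ a = 0`,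
`1 + b + b τ b = 0`; for an element `u` of trace zero `v = τ u - a u` and `s = τ u - b u = v - c ϖ ^ n u` are
eigenvectors, `τ v = a⁻¹ v`, `τ s = b⁻¹ s`. -/
structure Cst {M : Type} [CommRing M] (Λ : Subring M) (τ : M →+* M) (ϖ ε c κ l μ : M) (n : ℕ) :
    Prop where
  pos : 1 ≤ n
  mϖ : ϖ ∈ Λ
  mε : ε ∈ Λ
  mc : c ∈ Λ
  mκ : κ ∈ Λ
  ml : l ∈ Λ
  mμ : μ ∈ Λ
  unif : τ ϖ = ϖ + ε * ϖ ^ (n + 1)
  tr : 1 + (1 + ϖ ^ n * κ) + (1 + ϖ ^ n * κ) * τ (1 + ϖ ^ n * κ) = 0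
  trs : 1 + (1 + ϖ ^ n * κ + c * ϖ ^ n) +
    (1 + ϖ ^ n * κ + c * ϖ ^ n) * τ (1 + ϖ ^ n * κ + c * ϖ ^ n) = 0
  hl : (1 + ϖ ^ n * κ) * (1 + ϖ ^ n * l) = 1
  hμ : (1 + ϖ ^ n * κ + c * ϖ ^ n) * (1 + ϖ ^ n * μ) = 1
  unit : ∃ ε' ∈ Λ, ε * ε' = 1
  unitc : ∃ c' ∈ Λ, c * c' = 1
  cκ : ∃ a ∈ Λ, κ = (n + 1) * ε + a * ϖ
  cl : ∃ a ∈ Λ, l = (2 * n + 2) * ε + a * ϖ
  cμ : ∃ a ∈ Λ, μ = (1 - n) * ε + a * ϖ
  cc : ∃ a ∈ Λ, c = ε + a * ϖ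
  three : ∃ a ∈ Λ, (3 : M) = a * ϖ
  diff : ∀ z ∈ Λ, ∃ d ∈ Λ, τ z - z = d * ϖ ^ (n + 1)
  nonunit : ∀ z ∈ Λ, ϖ * z ≠ 1

section Eigen

variable {M : Type} [CommRing M] {τ : M →+* M}

-- BEGIN K1
/-- TASK K1. Eigenvectors: `τ v = τ (τ u) - τ a τ u = - u - (1 + τ a) τ u` and `a (1 + τ a) = - 1`, so `1 + τ a = - a'`. -/
theorem eigen_of_trace {a a' u : M} (ha : 1 + a + a * τ a = 0) (haa : a * a' = 1)
    (hu : u + τ u + τ (τ u) = 0) : τ (τ u - a * u) = a' * (τ u - a * u) := by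
  rw [map_sub, map_mul]
  linear_combination hu - a' * τ u * ha + ((1 + τ a) * τ u + u) * haa
-- END K1

end Eigen

section Exists

variable {R O L M : Type} [CommRing R] [CommRing O] [Algebra R O] [Field L] [Algebra R L]
  [Algebra O L] [IsScalarTower R O L] [CommRing M] [IsDomain M] [Algebra L M] [Algebra R M]
  [IsScalarTower R L M] {τ : M →+* M} {p : Ideal R} [hp : p.IsPrime] {ϖ : O} {n : ℕ}

-- BEGIN K2
/-- TASK K2 (first statement). `Λ = lamP O L M p`, `ϖ = oM O L M ϖ`. In the ring `Λ`: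
`(1 + ε ϖ ^ n) ^ k = 1 + ϖ ^ n ζ` with `ζ = k ε + a ϖ`, induction on `k` (`1 ≤ n`). -/
theorem exists_zeta3 {Λ : Subring M} {ϖ ε : M} (hϖ : ϖ ∈ Λ) (hε : ε ∈ Λ) (hn : 1 ≤ n) (k : ℕ) :
    ∃ ζ ∈ Λ, (1 + ε * ϖ ^ n) ^ k = 1 + ϖ ^ n * ζ ∧ ∃ a ∈ Λ, ζ = k * ε + a * ϖ := by
  obtain ⟨n', rfl⟩ : ∃ n', n = n' + 1 := ⟨n - 1, by omega⟩
  induction k with
  | zero =>
    exact ⟨0, Λ.zero_mem, by simp, 0, Λ.zero_mem, by simp⟩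
  | succ k ih =>
    obtain ⟨ζ, hζ, h1, a, ha, h2⟩ := ih
    refine ⟨ζ + ε + ζ * ε * ϖ ^ (n' + 1),
      Λ.add_mem (Λ.add_mem hζ hε) (Λ.mul_mem (Λ.mul_mem hζ hε) (Λ.pow_mem hϖ _)), ?_,
      a + ζ * ε * ϖ ^ n',
      Λ.add_mem ha (Λ.mul_mem (Λ.mul_mem hζ hε) (Λ.pow_mem hϖ _)), ?_⟩
    · rw [pow_succ (1 + ε * ϖ ^ (n' + 1)) k, h1]
      ring
    · have h3 : ζ + ε + ζ * ε * ϖ ^ (n' + 1) =
          (k * ε + a * ϖ) + ε + ζ * ε * ϖ ^ (n' + 1) := by rw [← h2]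
      rw [h3]
      push_cast
      ring

/-- TASK K2 (second statement). `1 + z ϖ` is a unit of `Λ`: by `h.dvr` it is one or `1 + z ϖ = ϖ c'`, and then
`ϖ (c' - z) = 1`, a contradiction to `h.nonunit`. -/
theorem isUnit_one_add_lam {s : ℕ} (h : Ram O L M τ p ϖ s) {z : M} (hz : z ∈ lamP O L M p) :
    ∃ w ∈ lamP O L M p, (1 + z * oM O L M ϖ) * w = 1 := by
  have hϖ : oM O L M ϖ ∈ lamP O L M p :=
    ⟨1, fun h1 => hp.ne_top ((Ideal.eq_top_iff_one _).mpr h1), ϖ, by rw [map_one, one_mul],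
      algebraMap O L ϖ, rfl⟩
  rcases h.dvr (1 + z * oM O L M ϖ)
    ((lamP O L M p).add_mem (lamP O L M p).one_mem ((lamP O L M p).mul_mem hz hϖ)) with h1 | h1
  · exact h1
  · obtain ⟨c', hc', h2⟩ := h1
    refine absurd ?_ (h.nonunit (c' - z) ((lamP O L M p).sub_mem hc' hz))
    rw [mul_sub, ← h2]
    ring
-- END K2

-- BEGIN K3
theorem k3_aux {M : Type} [CommRing M] [IsDomain M] {τ : M →+* M} {Λ : Subring M}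
    {P ε ε' d ζ a : M} {n : ℕ} (hn : 1 ≤ n) (hτ3 : ∀ m, τ (τ (τ m)) = m) (hP : P ∈ Λ)
    (hP0 : P ≠ 0) (hτΛ : ∀ c ∈ Λ, τ c ∈ Λ) (hε : ε ∈ Λ) (hε' : ε' ∈ Λ) (hd : d ∈ Λ)
    (h1 : τ P - P = ε * P ^ (n + 1)) (h2 : ε * ε' = 1) (h3 : τ ε - ε = d * P ^ (n + 1))
    (hζ : ζ ∈ Λ) (ha : a ∈ Λ) (h4 : (1 + ε * P ^ n) ^ (n + 1) = 1 + P ^ n * ζ)
    (h5 : ζ = (n + 1) * ε + a * P) :
    ∃ κ ∈ Λ, ∃ l ∈ Λ,
      (τ P - P) * (1 + P ^ n * κ) = τ (τ P - P) ∧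
      1 + (1 + P ^ n * κ) + (1 + P ^ n * κ) * τ (1 + P ^ n * κ) = 0 ∧
      (1 + P ^ n * κ) * (1 + P ^ n * l) = 1 ∧
      (∃ a ∈ Λ, κ = (n + 1) * ε + a * P) ∧
      ∃ a ∈ Λ, l = (2 * n + 2) * ε + a * P := by
  obtain ⟨m, rfl⟩ : ∃ m, n = m + 1 := ⟨n - 1, by omega⟩
  have hτP : τ P = P * (1 + ε * P ^ (m + 1)) := by
    have : τ P = P + ε * P ^ (m + 1 + 1) := by rw [← h1]; ring
    rw [this]; ring
  have hτε : τ ε = ε + d * P ^ (m + 1 + 1) := by rw [← h3]; ring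
  have hm0 : τ P - P ≠ 0 := by
    rw [h1]
    refine mul_ne_zero ?_ (pow_ne_zero _ hP0)
    rintro rfl
    simp at h2
  obtain ⟨κ, hκdef⟩ : ∃ κ, κ = ζ + ε' * d * P * (1 + P ^ (m + 1) * ζ) := ⟨_, rfl⟩
  have hκ : κ ∈ Λ := by
    rw [hκdef]
    exact Λ.add_mem hζ (Λ.mul_mem (Λ.mul_mem (Λ.mul_mem hε' hd) hP)
      (Λ.add_mem Λ.one_mem (Λ.mul_mem (Λ.pow_mem hP _) hζ)))
  have e1 : (τ P - P) * (1 + P ^ (m + 1) * κ) = τ (τ P - P) := by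
    have b1 : τ (τ P - P) = (ε + d * P ^ (m + 1 + 1)) * (P ^ (m + 1 + 1) *
        (1 + P ^ (m + 1) * ζ)) := by
      rw [h1, map_mul, map_pow, hτε, hτP, mul_pow, h4]
    rw [b1, h1, hκdef]
    linear_combination (P ^ (m + 1) * P ^ (m + 1 + 1) * d * P * (1 + P ^ (m + 1) * ζ)) * h2
  have e2 : 1 + (1 + P ^ (m + 1) * κ) + (1 + P ^ (m + 1) * κ) * τ (1 + P ^ (m + 1) * κ) = 0 := by
    obtain ⟨A, hA⟩ : ∃ A, A = 1 + P ^ (m + 1) * κ := ⟨_, rfl⟩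
    rw [← hA] at e1 ⊢
    have b1 : τ (τ P - P) * τ A = τ (τ (τ P - P)) := by rw [← map_mul, e1]
    have b2 : τ (τ (τ P - P)) = P - τ (τ P) := by rw [map_sub, map_sub, hτ3]
    have b3 : τ (τ P - P) = τ (τ P) - τ P := map_sub _ _ _
    have b4 : (τ P - P) * (1 + A + A * τ A) = 0 := by
      have : (τ P - P) * (1 + A + A * τ A) = (τ P - P) + (τ P - P) * A +
        ((τ P - P) * A) * τ A := by ring
      rw [this, e1, b1, b2, b3]; ring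
    exact (mul_eq_zero.1 b4).resolve_left hm0
  have hτκ : τ (P ^ (m + 1) * κ) = P * (P ^ m * ((1 + ε * P ^ (m + 1)) ^ (m + 1) * τ κ)) := by
    rw [map_mul, map_pow, hτP, mul_pow]; ring
  have hwΛ : P ^ m * ((1 + ε * P ^ (m + 1)) ^ (m + 1) * τ κ) ∈ Λ :=
    Λ.mul_mem (Λ.pow_mem hP _) (Λ.mul_mem (Λ.pow_mem (Λ.add_mem Λ.one_mem
      (Λ.mul_mem hε (Λ.pow_mem hP _))) _) (hτΛ κ hκ))
  have hκa : κ = ((m + 1 : ℕ) + 1) * ε + (a + ε' * d * (1 + P ^ (m + 1) * ζ)) * P := by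
    rw [hκdef]
    linear_combination h5
  have haΛ : a + ε' * d * (1 + P ^ (m + 1) * ζ) ∈ Λ :=
    Λ.add_mem ha (Λ.mul_mem (Λ.mul_mem hε' hd)
      (Λ.add_mem Λ.one_mem (Λ.mul_mem (Λ.pow_mem hP _) hζ)))
  have h2Λ : (2 : M) ∈ Λ := by
    have := Λ.add_mem Λ.one_mem Λ.one_mem
    rwa [one_add_one_eq_two] at this
  refine ⟨κ, hκ, κ * (2 + τ (P ^ (m + 1) * κ)), ?_, e1, e2, ?_, ⟨_, haΛ, hκa⟩, ?_⟩
  · rw [hτκ]
    exact Λ.mul_mem hκ (Λ.add_mem h2Λ (Λ.mul_mem hP hwΛ))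
  · rw [map_add, map_one] at e2
    linear_combination (P ^ (m + 1) * κ) * e2
  · refine ⟨2 * (a + ε' * d * (1 + P ^ (m + 1) * ζ)) +
      κ * (P ^ m * ((1 + ε * P ^ (m + 1)) ^ (m + 1) * τ κ)), ?_, ?_⟩
    · exact Λ.add_mem (Λ.mul_mem h2Λ haΛ) (Λ.mul_mem hκ hwΛ)
    · rw [hτκ]
      linear_combination 2 * hκa

/-- TASK K3. The constants `κ`, `l`. Let `μ₁ = τ ϖ - ϖ = ε ϖ ^ (n + 1)` (`ϖ` is `oM O L M ϖ`; `μ₁ ≠ 0`: `oM` is injective, `ε` is a unit),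
`τ ε = ε + d ϖ ^ (n + 1)` (`h.diff`), `(1 + ε ϖ ^ n) ^ (n + 1) = 1 + ϖ ^ n ζ` (K2),
`κ = ζ + ε' d ϖ (1 + ϖ ^ n ζ)`: then `μ₁ (1 + ϖ ^ n κ) = τ ε (ϖ + ε ϖ ^ (n + 1)) ^ (n + 1) = τ μ₁`. Multiply by `μ₁`:
`μ₁ (1 + a + a τ a) = μ₁ + τ μ₁ + τ (τ μ₁) = 0` (`hτ3`). `l = κ (2 + τ (ϖ ^ n κ))`: the relation is `3 + 2 x + τ x + x τ x = 0` for
`x = ϖ ^ n κ`, and `(1 + x) (1 + x (2 + τ x)) = 1`. `τ (ϖ ^ n κ)` is in `Λ` and a multiple of `ϖ` (`h.diff` and `1 ≤ n`). -/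
theorem exists_kappa (h : Ram O L M τ p ϖ (n + 1)) (hn : 1 ≤ n) (hτ3 : ∀ m, τ (τ (τ m)) = m)
    (hOL : Function.Injective (algebraMap O L)) {ε ε' : M} (hε : ε ∈ lamP O L M p)
    (hε' : ε' ∈ lamP O L M p) (h1 : τ (oM O L M ϖ) - oM O L M ϖ = ε * oM O L M ϖ ^ (n + 1))
    (h2 : ε * ε' = 1) :
    ∃ κ ∈ lamP O L M p, ∃ l ∈ lamP O L M p,
      (τ (oM O L M ϖ) - oM O L M ϖ) * (1 + oM O L M ϖ ^ n * κ) =
        τ (τ (oM O L M ϖ) - oM O L M ϖ) ∧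
      1 + (1 + oM O L M ϖ ^ n * κ) + (1 + oM O L M ϖ ^ n * κ) * τ (1 + oM O L M ϖ ^ n * κ) = 0 ∧
      (1 + oM O L M ϖ ^ n * κ) * (1 + oM O L M ϖ ^ n * l) = 1 ∧
      (∃ a ∈ lamP O L M p, κ = (n + 1) * ε + a * oM O L M ϖ) ∧
      ∃ a ∈ lamP O L M p, l = (2 * n + 2) * ε + a * oM O L M ϖ := by
  have hP0 : oM O L M ϖ ≠ 0 := by
    intro h0
    apply h.ϖ0
    apply hOL
    apply (algebraMap L M).injective
    rw [map_zero, map_zero]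
    exact h0
  obtain ⟨d, hd, hd1⟩ := h.diff ε hε
  obtain ⟨ζ, hζ, h4, a, ha, h5⟩ := exists_zeta3 (oM_mem_lamP (L := L) (M := M) p ϖ) hε hn (n + 1)
  refine k3_aux hn hτ3 (oM_mem_lamP p ϖ) hP0 (fun c hc => h.map_mem hc) hε hε' hd h1 h2 hd1 hζ ha
    h4 ?_
  rw [h5]
  push_cast
  rfl
-- END K3

-- BEGIN K4
theorem k4_aux {M : Type} [CommRing M] [IsDomain M] {τ : M →+* M} {Λ : Subring M}
    {P ε ε' d ζ κ l a₁ a₃ : M} {n : ℕ} (hn : 1 ≤ n) (hτ3 : ∀ m, τ (τ (τ m)) = m) (hP : P ∈ Λ)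
    (hP0 : P ≠ 0) (hε : ε ∈ Λ) (hd : d ∈ Λ) (hκ : κ ∈ Λ) (hl : l ∈ Λ)
    (h1 : τ P - P = ε * P ^ (n + 1)) (h2 : ε * ε' = 1) (h3 : τ ε - ε = d * P ^ (n + 1))
    (hζ : ζ ∈ Λ) (h4 : (1 + ε * P ^ n) ^ n = 1 + P ^ n * ζ)
    (hκ1 : (τ P - P) * (1 + P ^ n * κ) = τ (τ P - P))
    (hκl : (1 + P ^ n * κ) * (1 + P ^ n * l) = 1) (ha₁ : a₁ ∈ Λ)
    (hl2 : l = (2 * n + 2) * ε + a₁ * P) (ha₃ : a₃ ∈ Λ) (h33 : (3 : M) = a₃ * P)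
    (hinv : ∀ z ∈ Λ, ∃ w ∈ Λ, (1 + z * P) * w = 1) :
    ∃ c ∈ Λ, ∃ μ ∈ Λ,
      1 + (1 + P ^ n * κ + c * P ^ n) +
        (1 + P ^ n * κ + c * P ^ n) * τ (1 + P ^ n * κ + c * P ^ n) = 0 ∧
      (1 + P ^ n * κ + c * P ^ n) * (1 + P ^ n * μ) = 1 ∧
      (∃ a ∈ Λ, μ = (1 - n) * ε + a * P) ∧
      ∃ a ∈ Λ, c = ε + a * P := by
  obtain ⟨m, rfl⟩ : ∃ m, n = m + 1 := ⟨n - 1, by omega⟩
  have hinj : Function.Injective τ := by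
    intro x y hxy
    rw [← hτ3 x, ← hτ3 y, hxy]
  have hτP : τ P = P * (1 + ε * P ^ (m + 1)) := by
    have : τ P = P + ε * P ^ (m + 1 + 1) := by rw [← h1]; ring
    rw [this]; ring
  have hτε : τ ε = ε + d * P ^ (m + 1 + 1) := by rw [← h3]; ring
  have hm0 : τ P - P ≠ 0 := by
    rw [h1]
    refine mul_ne_zero ?_ (pow_ne_zero _ hP0)
    rintro rfl
    simp at h2
  have hPm : P ^ m ∈ Λ := Λ.pow_mem hP m
  have hPm1 : P ^ (m + 1) ∈ Λ := Λ.pow_mem hP _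
  obtain ⟨v, hv⟩ : ∃ v, v = d * P ^ (m + 1) * (1 + P ^ (m + 1) * ζ) + ε * P ^ m * ζ := ⟨_, rfl⟩
  have hvΛ : v ∈ Λ := by
    rw [hv]
    exact Λ.add_mem (Λ.mul_mem (Λ.mul_mem hd hPm1)
      (Λ.add_mem Λ.one_mem (Λ.mul_mem hPm1 hζ))) (Λ.mul_mem (Λ.mul_mem hε hPm) hζ)
  obtain ⟨w, hw⟩ : ∃ w, w = ε + P * v := ⟨_, rfl⟩
  have hwΛ : w ∈ Λ := by
    rw [hw]; exact Λ.add_mem hε (Λ.mul_mem hP hvΛ)
  obtain ⟨θ, hθ⟩ : ∃ θ, θ = 1 + ε * P ^ (m + 1) := ⟨_, rfl⟩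
  have hτθ : τ θ = 1 + P ^ (m + 1) * w := by
    rw [hθ, map_add, map_one, map_mul, map_pow, hτε, hτP, mul_pow, h4, hw, hv]
    ring
  obtain ⟨y, hy⟩ : ∃ y, y = -(ε + w + ε * w * P ^ (m + 1)) := ⟨_, rfl⟩
  have hyΛ : y ∈ Λ := by
    rw [hy]
    exact Λ.neg_mem (Λ.add_mem (Λ.add_mem hε hwΛ) (Λ.mul_mem (Λ.mul_mem hε hwΛ) hPm1))
  have hθτ : θ * τ θ = 1 - P ^ (m + 1) * y := by
    rw [hτθ, hθ, hy]; ring
  obtain ⟨g, hg, hg1⟩ := hinv (-(P ^ m * y)) (Λ.neg_mem (Λ.mul_mem hPm hyΛ))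
  have hg2 : θ * τ θ * g = 1 := by
    rw [hθτ]; linear_combination hg1
  have hg3 : g = 1 + P ^ m * y * g * P := by linear_combination hg1
  have h2Λ : (2 : M) ∈ Λ := by
    have := Λ.add_mem Λ.one_mem Λ.one_mem
    rwa [one_add_one_eq_two] at this
  have hy2 : y = -2 * ε + (-(v + ε * w * P ^ m)) * P := by
    rw [hy, hw]; ring
  have hy2Λ : -(v + ε * w * P ^ m) ∈ Λ :=
    Λ.neg_mem (Λ.add_mem hvΛ (Λ.mul_mem (Λ.mul_mem hε hwΛ) hPm))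
  obtain ⟨y2, hy2d⟩ : ∃ y2, y2 = -(v + ε * w * P ^ m) := ⟨_, rfl⟩
  rw [← hy2d] at hy2 hy2Λ
  obtain ⟨A, hA⟩ : ∃ A, A = 1 + P ^ (m + 1) * κ := ⟨_, rfl⟩
  have hAΛ : A ∈ Λ := by rw [hA]; exact Λ.add_mem Λ.one_mem (Λ.mul_mem hPm1 hκ)
  have hb : 1 + P ^ (m + 1) * κ + A * g * y * P ^ (m + 1) = A * g := by
    rw [← hA]
    linear_combination (-A) * hg2 + (A * g) * hθτ
  refine ⟨A * g * y, Λ.mul_mem (Λ.mul_mem hAΛ hg) hyΛ, l - y - P ^ (m + 1) * l * y,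
    Λ.sub_mem (Λ.sub_mem hl hyΛ) (Λ.mul_mem (Λ.mul_mem hPm1 hl) hyΛ), ?_, ?_, ?_, ?_⟩
  · rw [hb]
    have hH0 : (τ P - P) * τ (τ P) ≠ 0 := by
      refine mul_ne_zero hm0 ?_
      intro h0
      apply hP0
      apply hinj
      apply hinj
      rw [h0, map_zero, map_zero]
    have c1 : τ (τ P) = P * (θ * τ θ) := by
      rw [hτP, ← hθ, map_mul, hτP, ← hθ]; ring
    have c2 : (τ P - P) * τ (τ P) * (A * g) = τ ((τ P - P) * τ (τ P)) := by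
      rw [map_mul, hτ3, ← hκ1, c1, ← hA]
      linear_combination ((τ P - P) * A * P) * hg2
    have c3 : τ ((τ P - P) * τ (τ P)) * τ (A * g) = τ (τ ((τ P - P) * τ (τ P))) := by
      rw [← map_mul, c2]
    have c4 : (τ P - P) * τ (τ P) * (1 + A * g + A * g * τ (A * g)) = 0 := by
      have d1 : (τ P - P) * τ (τ P) * (1 + A * g + A * g * τ (A * g)) =
        (τ P - P) * τ (τ P) + (τ P - P) * τ (τ P) * (A * g) +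
          ((τ P - P) * τ (τ P) * (A * g)) * τ (A * g) := by ring
      rw [d1, c2, c3]
      simp only [map_mul, map_sub, hτ3]
      ring
    exact (mul_eq_zero.1 c4).resolve_left hH0
  · rw [hb]
    rw [← hA] at hκl
    linear_combination (g * (1 - P ^ (m + 1) * y)) * hκl + hg2 - g * hθτ
  · refine ⟨a₁ + a₃ * ((m + 1 : ℕ) + 1) * ε - y2 - P ^ m * l * y, ?_, ?_⟩
    · refine Λ.sub_mem (Λ.sub_mem (Λ.add_mem ha₁ (Λ.mul_mem (Λ.mul_mem ha₃ ?_) hε)) hy2Λ)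
        (Λ.mul_mem (Λ.mul_mem hPm hl) hyΛ)
      exact Λ.add_mem (natCast_mem Λ _) Λ.one_mem
    · linear_combination hl2 - hy2 + (((m + 1 : ℕ) + 1) * ε) * h33
  · refine ⟨-(a₃ * ε) + y2 + P ^ m * κ * g * y + P ^ m * y * g * y, ?_, ?_⟩
    · exact Λ.add_mem (Λ.add_mem (Λ.add_mem (Λ.neg_mem (Λ.mul_mem ha₃ hε)) hy2Λ)
        (Λ.mul_mem (Λ.mul_mem (Λ.mul_mem hPm hκ) hg) hyΛ))
        (Λ.mul_mem (Λ.mul_mem (Λ.mul_mem hPm hyΛ) hg) hyΛ)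
    · rw [hA]
      linear_combination y * hg3 + hy2 - ε * h33

/-- TASK K4. The constants `c`, `μ`. `θ = 1 + ε ϖ ^ n`, so `τ ϖ = ϖ θ`; `θ τ θ = 1 - ϖ ^ n y` with `y = - 2 ε + a₁ ϖ` in `Λ`
(`τ θ = 1 + τ ε (τ ϖ) ^ n`, `τ ε = ε + d ϖ ^ (n + 1)`, `(τ ϖ) ^ n = ϖ ^ n (1 + ε ϖ ^ n) ^ n`, K2). `g` = the inverse of `θ τ θ` in `Λ`
(K2, second statement, `1 ≤ n`), `a = 1 + ϖ ^ n κ`, `c = a g y`, so `b = a + c ϖ ^ n = a g (θ τ θ + ϖ ^ n y) = a g`, and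
`μ = l - y - ϖ ^ n l y`: `b (1 + ϖ ^ n μ) = a g (1 + ϖ ^ n l) (1 - ϖ ^ n y) = 1`. `c - ε` is a multiple of `ϖ` as `- 2 ε = ε - 3 ε` and
`3 = a ϖ` (`h3`); `μ`: `(2 n + 2) + 2 = (1 - n) + 3 (n + 1)`. The relation for `b`: with `H = μ₁ τ (τ ϖ)`, `μ₁ = τ ϖ - ϖ`:
`τ (τ ϖ) = ϖ θ τ θ`, so `H b = μ₁ ϖ a = τ μ₁ ϖ = τ H` (`hκ1`, `hτ3`), so `H (1 + b + b τ b) = H + τ H + τ (τ H) = 0`. -/
theorem exists_mu (h : Ram O L M τ p ϖ (n + 1)) (hn : 1 ≤ n) (hτ3 : ∀ m, τ (τ (τ m)) = m)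
    (hOL : Function.Injective (algebraMap O L)) {ε ε' κ l : M} (hε : ε ∈ lamP O L M p)
    (hε' : ε' ∈ lamP O L M p) (hκ : κ ∈ lamP O L M p) (hl : l ∈ lamP O L M p)
    (h1 : τ (oM O L M ϖ) - oM O L M ϖ = ε * oM O L M ϖ ^ (n + 1)) (h2 : ε * ε' = 1)
    (hκ1 : (τ (oM O L M ϖ) - oM O L M ϖ) * (1 + oM O L M ϖ ^ n * κ) =
        τ (τ (oM O L M ϖ) - oM O L M ϖ))
    (hκl : (1 + oM O L M ϖ ^ n * κ) * (1 + oM O L M ϖ ^ n * l) = 1)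
    (hl2 : ∃ a ∈ lamP O L M p, l = (2 * n + 2) * ε + a * oM O L M ϖ)
    (h3 : ∃ a ∈ lamP O L M p, (3 : M) = a * oM O L M ϖ) :
    ∃ c ∈ lamP O L M p, ∃ μ ∈ lamP O L M p,
      1 + (1 + oM O L M ϖ ^ n * κ + c * oM O L M ϖ ^ n) +
        (1 + oM O L M ϖ ^ n * κ + c * oM O L M ϖ ^ n) *
          τ (1 + oM O L M ϖ ^ n * κ + c * oM O L M ϖ ^ n) = 0 ∧
      (1 + oM O L M ϖ ^ n * κ + c * oM O L M ϖ ^ n) * (1 + oM O L M ϖ ^ n * μ) = 1 ∧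
      (∃ a ∈ lamP O L M p, μ = (1 - n) * ε + a * oM O L M ϖ) ∧
      ∃ a ∈ lamP O L M p, c = ε + a * oM O L M ϖ := by
  have hP0 : oM O L M ϖ ≠ 0 := by
    intro h0
    apply h.ϖ0
    apply hOL
    apply (algebraMap L M).injective
    rw [map_zero, map_zero]
    exact h0
  obtain ⟨d, hd, hd1⟩ := h.diff ε hε
  obtain ⟨ζ, hζ, h4, -⟩ := exists_zeta3 (oM_mem_lamP (L := L) (M := M) p ϖ) hε hn n
  obtain ⟨a₁, ha₁, hl2'⟩ := hl2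
  obtain ⟨a₃, ha₃, h33⟩ := h3
  exact k4_aux hn hτ3 (oM_mem_lamP p ϖ) hP0 hε hd hκ hl h1 h2 hd1 hζ h4 hκ1 hκl ha₁ hl2' ha₃ h33
    (fun z hz => isUnit_one_add_lam h hz)
-- END K4

-- BEGIN K5
/-- TASK K5 (first statement). If `3` is not a unit then the ramification is wild. With `s = 1`: `τ ϖ = (1 + ε) ϖ`, `μ₁ = ε ϖ`,
`τ ε = ε + d ϖ`, `μ₁ + τ μ₁ + τ (τ μ₁) = 0` gives after division by `ϖ` modulo `ϖ`: `ε (1 + (1 + ε) + (1 + ε) ^ 2) ∈ (ϖ)`, i.e.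
`ε (3 + 3 ε + ε ^ 2) ∈ (ϖ)`, so `ε ^ 3 ∈ (ϖ)`, a contradiction to `h.nonunit` as `ε` is a unit. -/
theorem two_le_of_three {s : ℕ} (h : Ram O L M τ p ϖ s) (hτ3 : ∀ m, τ (τ (τ m)) = m)
    (hOL : Function.Injective (algebraMap O L))
    (h3 : ∃ a ∈ lamP O L M p, (3 : M) = a * oM O L M ϖ) : 2 ≤ s := by
  by_contra hs
  have hs1 : s = 1 := by have := h.pos; omega
  subst hs1
  have hP0 : oM O L M ϖ ≠ 0 := by
    intro h0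
    apply h.ϖ0
    apply hOL
    apply (algebraMap L M).injective
    rw [map_zero, map_zero]
    exact h0
  have hP := oM_mem_lamP (L := L) (M := M) p ϖ
  obtain ⟨ε, hε, ε', hε', h1, h2⟩ := h.eps
  obtain ⟨d, hd, hd1⟩ := h.diff ε hε
  obtain ⟨d', hd', hd2⟩ := h.diff (τ ε) (h.map_mem hε)
  obtain ⟨a, ha, h33⟩ := h3
  obtain ⟨P, hPdef⟩ : ∃ P, P = oM O L M ϖ := ⟨_, rfl⟩
  have hnu := h.nonunit
  rw [← hPdef] at h1 hd1 hd2 h33 hP0 hP hnu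
  rw [pow_one] at h1 hd1 hd2
  have e1 : τ P = (1 + ε) * P := by linear_combination h1
  have e2 : τ ε = ε + d * P := by linear_combination hd1
  have e3 : τ (τ ε) = ε + (d + d') * P := by linear_combination hd2 + hd1
  -- the sum of the differences
  have e4 : τ (τ P) = (1 + ε + d * P) * ((1 + ε) * P) := by
    rw [e1, map_mul, map_add, map_one, e2, e1]
    ring
  have e5 : P = (1 + ε + (d + d') * P) * ((1 + ε + d * P) * ((1 + ε) * P)) := by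
    have : τ (τ (τ P)) = τ (τ (1 + ε)) * τ (τ P) := by
      conv_lhs => rw [e1]
      rw [map_mul, map_mul]
    rw [hτ3, map_add, map_one, map_add, map_one, e3, e4] at this
    linear_combination this
  have e6 : (1 : M) = (1 + ε + (d + d') * P) * ((1 + ε + d * P) * (1 + ε)) := by
    apply mul_right_cancel₀ hP0
    linear_combination e5
  refine hnu (-((ε + ε ^ 2) * a + (d + d') * ((1 + ε + d * P) * (1 + ε)) + d * (1 + ε) ^ 2) *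
    ε' ^ 3) ?_ ?_
  · have b1 : 1 + ε ∈ lamP O L M p := (lamP O L M p).add_mem (lamP O L M p).one_mem hε
    have b2 : d * P ∈ lamP O L M p := (lamP O L M p).mul_mem hd hP
    refine (lamP O L M p).mul_mem ((lamP O L M p).neg_mem ((lamP O L M p).add_mem
      ((lamP O L M p).add_mem ((lamP O L M p).mul_mem
        ((lamP O L M p).add_mem hε ((lamP O L M p).pow_mem hε 2)) ha) ?_) ?_))
      ((lamP O L M p).pow_mem hε' 3)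
    · exact (lamP O L M p).mul_mem ((lamP O L M p).add_mem hd hd')
        ((lamP O L M p).mul_mem ((lamP O L M p).add_mem b1 b2) b1)
    · exact (lamP O L M p).mul_mem hd ((lamP O L M p).pow_mem b1 2)
  · have e7 : ε ^ 3 = P * (-((ε + ε ^ 2) * a + (d + d') * ((1 + ε + d * P) * (1 + ε)) +
        d * (1 + ε) ^ 2)) := by
      linear_combination (-1 : M) * e6 - (ε + ε ^ 2) * h33
    have e8 : ε ^ 3 * ε' ^ 3 = 1 := by rw [← mul_pow, h2, one_pow]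
    linear_combination e8 - ε' ^ 3 * e7

/-- TASK K5 (second statement). The existence of the constants: K3, K4 and `h.eps`, `h.diff`, `h.nonunit`; `c` is a unit since
`c = ε + a ϖ = ε (1 + ε' a ϖ)` (K2). -/
theorem exists_cst (h : Ram O L M τ p ϖ (n + 1)) (hn : 1 ≤ n) (hτ3 : ∀ m, τ (τ (τ m)) = m)
    (hOL : Function.Injective (algebraMap O L))
    (h3 : ∃ a ∈ lamP O L M p, (3 : M) = a * oM O L M ϖ) :
    ∃ ε c κ l μ, Cst (lamP O L M p) τ (oM O L M ϖ) ε c κ l μ n := by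
  obtain ⟨ε, hε, ε', hε', h1, h2⟩ := h.eps
  obtain ⟨κ, hκ, l, hl, k1, k2, k3, k4, k5⟩ := exists_kappa h hn hτ3 hOL hε hε' h1 h2
  obtain ⟨c, hc, μ, hμ, m1, m2, m3, m4⟩ :=
    exists_mu h hn hτ3 hOL hε hε' hκ hl h1 h2 k1 k3 k5 h3
  refine ⟨ε, c, κ, l, μ, ⟨hn, oM_mem_lamP p ϖ, hε, hc, hκ, hl, hμ, ?_, k2, m1, k3, m2,
    ⟨ε', hε', h2⟩, ?_, k4, k5, m3, m4, h3, h.diff, h.nonunit⟩⟩
  · rw [← h1]; ring
  · obtain ⟨a, ha, hca⟩ := m4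
    obtain ⟨w, hw, hw1⟩ := isUnit_one_add_lam h ((lamP O L M p).mul_mem hε' ha)
    refine ⟨ε' * w, (lamP O L M p).mul_mem hε' hw, ?_⟩
    rw [hca]
    linear_combination hw1 + w * h2
-- END K5

end Exists

end Pool.Agent.Lib.MP_6a3dac_ag.W3
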