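import Pool.Agent.Lib.MP_6a3dac_ag.Mg.G006

/-!
# Rings of invariants of automorphisms of order three: decomposition
-/

set_option autoImplicit false
set_option linter.unusedSectionVars false
set_option linter.unusedVariables false

namespace Pool.Agent.Lib.MP_6a3dac_ag.W3

open Pool.Agent.Lib.MP_6a3dac_ag IsLocalRing

/-- `D` is free over the ring of invariants with the basis `1, y, y ^ 2`. -/
structure Dec3 {D : Type} [CommRing D] (τ : D →+* D) (y : D) : Prop where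
  dec : ∀ z, ∃ a b c : fixedRing τ, z = a + b * y + c * y ^ 2
  uniq : ∀ a b c : fixedRing τ, (a : D) + b * y + c * y ^ 2 = 0 → a = 0 ∧ b = 0 ∧ c = 0

variable {D : Type} [CommRing D] [IsDomain D] {τ : D →+* D}

-- BEGIN G1a
/-- TASK G1a. Divided differences (Newton interpolation). Let `y₀ = y`, `y₁ = τ y`, `y₂ = τ (τ y)` and
`h = y₁ - y₀`, `z_i` the conjugates of `z`. By `hI h`: `τ h = (1 + c') * h`, put `u = 1 + c'`; then
`y₂ - y₁ = τ h = u h`, `y₂ - y₀ = (1 + u) h`, `τ (τ h) = τ u * u * h` and the sum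
`h + τ h + τ (τ h) = 0` (telescoping), so `1 + u + u * τ u = 0` (cancel `h`); `h = τ³ h` gives
`u * τ u * τ (τ u) = 1`, so `u`, `τ u` and `1 + u = -(u * τ u)` are units of `D`.
For `z` let `a₁` with `z₁ - z₀ = a₁ * h` (`hI z`); apply `τ`: `z₂ - z₁ = τ a₁ * (y₂ - y₁)` and
`z₀ - z₂ = τ (τ a₁) * (y₀ - y₂)`. By `hI a₁` there is `a₂` with `τ a₁ - a₁ = a₂ * (y₂ - y₀)` (divide by the
unit `1 + u`). Claim `τ a₂ = a₂`: `τ a₂ * (y₀ - y₁) = τ (τ a₁) - τ a₁`; multiply `a₂` and `τ a₂` with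
`V = (y₁ - y₀) * (y₂ - y₁) * (y₀ - y₂) ≠ 0`, both give
`(z₁ - z₀) * (y₂ - y₁) - (z₂ - z₁) * (y₁ - y₀)` (use `mul_left_cancel₀` and `linear_combination`).
Then `c = a₂`, `b = a₁ - a₂ * (y₀ + y₁)`, `a = z - b * y - c * y ^ 2` are invariant:
`τ b - b = (τ a₁ - a₁) - a₂ * (y₂ - y₀) = 0`, and
`τ a - a = (z₁ - z₀) - b * (y₁ - y₀) - c * (y₁ ^ 2 - y₀ ^ 2) = h * (a₁ - b - c * (y₀ + y₁)) = 0`.
Uniqueness: apply `τ` to `a + b y + c y ^ 2 = 0` and subtract: `h * (b + c * (y₀ + y₁)) = 0`, so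
`b + c * (y₀ + y₁) = 0`; apply `τ` and subtract: `c * (y₂ - y₀) = 0`, so `c = 0`, `b = 0`, `a = 0`. -/
theorem dec3_of_principal (hτ : ∀ z, τ (τ (τ z)) = z) {y : D} (hy : τ y - y ≠ 0)
    (hI : ∀ z, ∃ c, τ z - z = c * (τ y - y)) : Dec3 τ y := by
  obtain ⟨y₁, hy₁⟩ : ∃ y₁, τ y = y₁ := ⟨_, rfl⟩
  obtain ⟨y₂, hy₂⟩ : ∃ y₂, τ y₁ = y₂ := ⟨_, rfl⟩
  have hy₃ : τ y₂ = y := by rw [← hy₂, ← hy₁]; exact hτ y
  rw [hy₁] at hy hI
  have n1 : y₂ - y₁ ≠ 0 := by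
    intro h0
    have h1 := congrArg τ h0
    rw [map_sub, hy₂, hy₃, map_zero] at h1
    apply hy
    linear_combination -h0 - h1
  have n2 : y - y₂ ≠ 0 := by
    intro h0
    have h1 := congrArg τ h0
    rw [map_sub, hy₃, hy₁, map_zero] at h1
    exact hy h1
  -- the unit
  obtain ⟨c', hc'⟩ := hI (y₁ - y)
  obtain ⟨u, hu⟩ : ∃ u, u = 1 + c' := ⟨_, rfl⟩
  have e1 : y₂ - y₁ = u * (y₁ - y) := by
    rw [map_sub, hy₁, hy₂] at hc'
    rw [hu]
    linear_combination hc'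
  have e2 : y - y₂ = τ u * (u * (y₁ - y)) := by
    have h1 := congrArg τ e1
    rw [map_sub, map_mul, map_sub, hy₁, hy₂, hy₃, e1] at h1
    exact h1
  have e3 : y₁ - y = τ (τ u) * (τ u * (u * (y₁ - y))) := by
    have h1 := congrArg τ e2
    rw [map_sub, map_mul, map_mul, map_sub, hy₁, hy₂, hy₃] at h1
    rw [← e1]
    exact h1
  have e4 : u * τ u * τ (τ u) = 1 := by
    apply mul_right_cancel₀ hy
    linear_combination -e3
  have e5 : 1 + u + u * τ u = 0 := by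
    apply mul_right_cancel₀ hy
    linear_combination -e1 - e2
  -- the coefficients
  have key : ∀ z, ∃ a₁ a₂, τ z - z = a₁ * (y₁ - y) ∧ τ a₁ - a₁ = a₂ * (y₂ - y) ∧ τ a₂ = a₂ := by
    intro z
    obtain ⟨z₁, hz₁⟩ : ∃ z₁, τ z = z₁ := ⟨_, rfl⟩
    obtain ⟨z₂, hz₂⟩ : ∃ z₂, τ z₁ = z₂ := ⟨_, rfl⟩
    have hz₃ : τ z₂ = z := by rw [← hz₂, ← hz₁]; exact hτ z
    obtain ⟨a₁, ha₁⟩ := hI z
    obtain ⟨k, hk⟩ := hI a₁
    obtain ⟨a₂, ha₂⟩ : ∃ a₂, a₂ = -(τ (τ u)) * k := ⟨_, rfl⟩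
    have f1 : τ a₁ - a₁ = a₂ * (y₂ - y) := by
      rw [hk, ha₂]
      linear_combination (-(k * (y₁ - y))) * e4 - (τ (τ u)) * k * e2
    have f2 : z₂ - z₁ = τ a₁ * (y₂ - y₁) := by
      have h1 := congrArg τ ha₁
      rw [map_sub, map_mul, map_sub, hz₁, hz₂, hy₁, hy₂] at h1
      exact h1
    have f3 : z - z₂ = τ (τ a₁) * (y - y₂) := by
      have h1 := congrArg τ f2
      rw [map_sub, map_mul, map_sub, hz₂, hz₃, hy₂, hy₃] at h1
      exact h1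
    have f4 : τ (τ a₁) - τ a₁ = τ a₂ * (y - y₁) := by
      have h1 := congrArg τ f1
      rw [map_sub, map_mul, map_sub, hy₃, hy₁] at h1
      exact h1
    rw [hz₁] at ha₁
    refine ⟨a₁, a₂, by rw [hz₁]; exact ha₁, f1, ?_⟩
    have hV : (y₁ - y) * (y₂ - y₁) * (y - y₂) ≠ 0 := mul_ne_zero (mul_ne_zero hy n1) n2
    apply mul_right_cancel₀ hV
    linear_combination (y₂ - y₁) * (y - y₂) * f4 + (y₂ - y₁) * f3 - (y - y₂) * f2 -
      (y₁ - y) * (y₂ - y₁) * f1 - (y₁ - y) * f2 + (y₂ - y₁) * ha₁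
  constructor
  · intro z
    obtain ⟨a₁, a₂, h1, h2, h3⟩ := key z
    have hb : τ (a₁ - a₂ * (y + y₁)) = a₁ - a₂ * (y + y₁) := by
      rw [map_sub, map_mul, map_add, hy₁, hy₂, h3]
      linear_combination h2
    have ha : τ (z - (a₁ - a₂ * (y + y₁)) * y - a₂ * y ^ 2) =
        z - (a₁ - a₂ * (y + y₁)) * y - a₂ * y ^ 2 := by
      rw [map_sub, map_sub, map_mul, hb, map_mul, map_pow, h3, hy₁]
      linear_combination h1
    refine ⟨⟨_, ha⟩, ⟨_, hb⟩, ⟨_, h3⟩, ?_⟩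
    change z = (z - (a₁ - a₂ * (y + y₁)) * y - a₂ * y ^ 2) + (a₁ - a₂ * (y + y₁)) * y + a₂ * y ^ 2
    ring
  · intro a b c h0
    have ha : τ (a : D) = a := a.2
    have hb : τ (b : D) = b := b.2
    have hc : τ (c : D) = c := c.2
    have h1 := congrArg τ h0
    rw [map_add, map_add, map_mul, map_mul, map_pow, ha, hb, hc, hy₁, map_zero] at h1
    have h2 : (b : D) + c * (y + y₁) = 0 := by
      apply mul_right_cancel₀ hy
      linear_combination h1 - h0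
    have h3 := congrArg τ h2
    rw [map_add, map_mul, map_add, hb, hc, hy₁, hy₂, map_zero] at h3
    have h4 : (c : D) = 0 := by
      apply mul_right_cancel₀ n2
      linear_combination h2 - h3
    have h5 : (b : D) = 0 := by
      rw [h4] at h2
      linear_combination h2
    have h6 : (a : D) = 0 := by
      rw [h4, h5] at h0
      linear_combination h0
    exact ⟨Subtype.ext h6, Subtype.ext h5, Subtype.ext h4⟩
-- END G1a

end Pool.Agent.Lib.MP_6a3dac_ag.W3
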