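import Pool.Agent.Lib.MP_6a3dac_ag.W3.G1a

/-!
# Rings of invariants of automorphisms of order three: purity
-/

set_option autoImplicit false
set_option linter.unusedSectionVars false
set_option linter.unusedVariables false

namespace Pool.Agent.Lib.MP_6a3dac_ag.W3

open Pool.Agent.Lib.MP_6a3dac_ag IsLocalRing

variable {D : Type} [CommRing D] {τ : D →+* D} {y : D}

-- BEGIN G1b
/-- TASK G1b. The elements of `J D` are the `a + b y + c y ^ 2` with `a, b, c ∈ J`
(`Submodule.span_induction` as in `isRegularLocalRing_fixedRing` in QWInv.lean, `key` of `hpure`: for the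
multiplication with `d = d₀ + d₁ y + d₂ y ^ 2` decompose also `y ^ 3` and `y ^ 4`). -/
theorem Dec3.exists_of_mem_map (h : Dec3 τ y) (J : Ideal (fixedRing τ)) {x : D}
    (hx : x ∈ J.map (fixedRing τ).subtype) :
    ∃ a ∈ J, ∃ b ∈ J, ∃ c ∈ J, x = (a : D) + b * y + c * y ^ 2 := by
  refine Submodule.span_induction (p := fun x _ => ∃ a ∈ J, ∃ b ∈ J, ∃ c ∈ J,
    x = (a : D) + b * y + c * y ^ 2) ?_ ?_ ?_ ?_ hx
  · rintro _ ⟨a, ha, rfl⟩
    exact ⟨a, ha, 0, J.zero_mem, 0, J.zero_mem, by simp⟩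
  · exact ⟨0, J.zero_mem, 0, J.zero_mem, 0, J.zero_mem, by simp⟩
  · rintro _ _ _ _ ⟨a, ha, b, hb, c, hc, rfl⟩ ⟨a', ha', b', hb', c', hc', rfl⟩
    exact ⟨a + a', J.add_mem ha ha', b + b', J.add_mem hb hb', c + c', J.add_mem hc hc', by
      push_cast; ring⟩
  · rintro d _ _ ⟨a, ha, b, hb, c, hc, rfl⟩
    obtain ⟨d₀, d₁, d₂, hd⟩ := h.dec d
    obtain ⟨e₀, e₁, e₂, he⟩ := h.dec (y ^ 3)
    obtain ⟨f₀, f₁, f₂, hf⟩ := h.dec (y ^ 4)
    have h1 : d₁ * c + d₂ * b ∈ J := J.add_mem (J.mul_mem_left _ hc) (J.mul_mem_left _ hb)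
    have h2 : d₂ * c ∈ J := J.mul_mem_left _ hc
    refine ⟨d₀ * a + (d₁ * c + d₂ * b) * e₀ + d₂ * c * f₀, ?_,
      d₀ * b + d₁ * a + (d₁ * c + d₂ * b) * e₁ + d₂ * c * f₁, ?_,
      d₀ * c + d₁ * b + d₂ * a + (d₁ * c + d₂ * b) * e₂ + d₂ * c * f₂, ?_, ?_⟩
    · exact J.add_mem (J.add_mem (J.mul_mem_left _ ha) (J.mul_mem_right _ h1))
        (J.mul_mem_right _ h2)
    · exact J.add_mem (J.add_mem (J.add_mem (J.mul_mem_left _ hb) (J.mul_mem_left _ ha))
        (J.mul_mem_right _ h1)) (J.mul_mem_right _ h2)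
    · exact J.add_mem (J.add_mem (J.add_mem (J.add_mem (J.mul_mem_left _ hc) (J.mul_mem_left _ hb))
        (J.mul_mem_left _ ha)) (J.mul_mem_right _ h1)) (J.mul_mem_right _ h2)
    · rw [smul_eq_mul, hd]
      push_cast
      linear_combination ((d₁ : D) * c + d₂ * b) * he + ((d₂ : D) * c) * hf

/-- TASK G1b. Purity: `x ∈ J D` with `x` invariant is `a + b y + c y ^ 2` with coefficients in `J`, so
`x = a ∈ J` by `h.uniq` (applied to `a - x`, `b`, `c`). -/
theorem Dec3.pure (h : Dec3 τ y) (J : Ideal (fixedRing τ)) :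
    (J.map (fixedRing τ).subtype).comap (fixedRing τ).subtype = J := by
  apply le_antisymm _ Ideal.le_comap_map
  intro x hx
  obtain ⟨a, ha, b, hb, c, hc, hab⟩ := h.exists_of_mem_map J hx
  change (x : D) = a + b * y + c * y ^ 2 at hab
  have h1 := (h.uniq (a - x) b c (by push_cast; rw [hab]; ring)).1
  have h2 : x = a := (sub_eq_zero.mp h1).symm
  rwa [h2]

/-- TASK G1b. Change of the basis. -/
theorem Dec3.sub (h : Dec3 τ y) (c : fixedRing τ) : Dec3 τ (y - c) := by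
  constructor
  · intro z
    obtain ⟨a, b, e, he⟩ := h.dec z
    refine ⟨a + b * c + e * c ^ 2, b + (e * c + e * c), e, ?_⟩
    rw [he]
    push_cast
    ring
  · intro a b e h0
    obtain ⟨h1, h2, h3⟩ := h.uniq (a - b * c + e * c ^ 2) (b - (e * c + e * c)) e (by
      push_cast
      linear_combination h0)
    subst h3
    have h4 : b = 0 := by linear_combination h2
    subst h4
    exact ⟨by linear_combination h1, rfl, rfl⟩
-- END G1b

end Pool.Agent.Lib.MP_6a3dac_ag.W3
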