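import Mathlib

/-!
# Ramification in cyclic cubic extensions of Dedekind domains: first properties
-/

set_option autoImplicit false
set_option linter.unusedSectionVars false
set_option linter.unusedVariables false

namespace Pool.Agent.Lib.MP_6a3dac_ag.W3

/-- An extension `O / R` with an automorphism `σ ≠ 1` of `O` of order three whose ring of invariants is
`R`. -/
structure CubExt (R O : Type) [CommRing R] [CommRing O] [Algebra R O] (σ : O →+* O) : Prop where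
  cube : ∀ c, σ (σ (σ c)) = c
  fix : ∀ r, σ (algebraMap R O r) = algebraMap R O r
  fixed : ∀ c, σ c = c → ∃ r, algebraMap R O r = c
  ne : ∃ c, σ c ≠ c
  inj : Function.Injective (algebraMap R O)

/-- The unramified case: the ideal generated by the differences meets `R ∖ p`. -/
def UnramAt3 {R O : Type} [CommRing R] [CommRing O] [Algebra R O] (σ : O →+* O) (p : Ideal R) :
    Prop :=
  ∃ n, n ∉ p ∧ algebraMap R O n ∈ Ideal.span (Set.range fun c => σ c - c)

namespace CubExt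

variable {R O : Type} [CommRing R] [CommRing O] [Algebra R O] {σ : O →+* O} (h : CubExt R O σ)
include h

theorem exists_norm (c : O) : ∃ n : R, algebraMap R O n = c * σ c * σ (σ c) :=
  h.fixed _ (by rw [map_mul, map_mul, h.cube]; ring)

theorem exists_trace (c : O) : ∃ n : R, algebraMap R O n = c + σ c + σ (σ c) :=
  h.fixed _ (by rw [map_add, map_add, h.cube]; ring)

theorem exists_second (c : O) : ∃ n : R, algebraMap R O n =
    c * σ c + c * σ (σ c) + σ c * σ (σ c) :=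
  h.fixed _ (by rw [map_add, map_add, map_mul, map_mul, map_mul, h.cube]; ring)

-- BEGIN G4a1
/-- TASK G4a. `c` is a root of `X ^ 3 - t X ^ 2 + s X - n` (`QuadExt.isIntegral` in QWArith.lean is the
model). -/
theorem isIntegral : Algebra.IsIntegral R O := by
  refine ⟨fun c => ?_⟩
  obtain ⟨n, hn⟩ := h.exists_norm c
  obtain ⟨s, hs⟩ := h.exists_second c
  obtain ⟨t, ht⟩ := h.exists_trace c
  refine ⟨Polynomial.X ^ 3 - Polynomial.C t * Polynomial.X ^ 2 + Polynomial.C s * Polynomial.X -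
    Polynomial.C n, ?_, ?_⟩
  · nontriviality R
    monicity!
  · rw [Polynomial.eval₂_sub, Polynomial.eval₂_add, Polynomial.eval₂_sub, Polynomial.eval₂_mul,
      Polynomial.eval₂_mul, Polynomial.eval₂_C, Polynomial.eval₂_C, Polynomial.eval₂_C,
      Polynomial.eval₂_X, Polynomial.eval₂_pow, Polynomial.eval₂_pow, Polynomial.eval₂_X,
      hn, hs, ht]
    ring

/-- TASK G4a. Elements outside a prime `𝔓` over `p` with `σ = 1` mod `𝔓` divide elements of `R ∖ p`. -/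
theorem exists_dvd {p : Ideal R} {𝔓 : Ideal O} [h𝔓 : 𝔓.IsPrime]
    (hp : 𝔓.comap (algebraMap R O) = p) (hσ : ∀ c, σ c - c ∈ 𝔓) {s : O} (hs : s ∉ 𝔓) :
    ∃ n, n ∉ p ∧ algebraMap R O n = s * σ s * σ (σ s) := by
  obtain ⟨n, hn⟩ := h.exists_norm s
  refine ⟨n, ?_, hn⟩
  have h1 : σ s ∉ 𝔓 := by
    intro hσs
    apply hs
    have := 𝔓.sub_mem hσs (hσ s)
    rwa [sub_sub_cancel] at this
  have h2 : σ (σ s) ∉ 𝔓 := by
    intro hσs
    apply h1
    have := 𝔓.sub_mem hσs (hσ (σ s))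
    rwa [sub_sub_cancel] at this
  rw [← hp, Ideal.mem_comap, hn]
  exact h𝔓.mul_notMem (h𝔓.mul_notMem hs h1) h2

/-- TASK G4a. Existence of primes over a given prime (`QuadExt.exists_prime_over`). -/
theorem exists_prime_over [IsDomain O] (p : Ideal R) [p.IsPrime] :
    ∃ 𝔓 : Ideal O, 𝔓.IsPrime ∧ 𝔓.comap (algebraMap R O) = p := by
  have := h.isIntegral
  obtain ⟨Q, -, h1, h2⟩ := Ideal.exists_ideal_over_prime_of_isIntegral p (⊥ : Ideal O) (by
    intro a ha
    rw [Ideal.mem_comap, Ideal.mem_bot] at ha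
    rw [h.inj (by rw [ha, map_zero] : algebraMap R O a = algebraMap R O 0)]
    exact p.zero_mem)
  exact ⟨Q, h1, h2⟩
-- END G4a1

-- BEGIN G4a2
/-- TASK G4a. In the ramified case, `σ` is trivial modulo the primes over `p`. Let `𝔡` be the ideal
generated by the differences. As `𝔡 ∩ R ⊆ p`, there is a prime `𝔓₀ ⊇ 𝔡` over `p`
(`Ideal.exists_ideal_over_prime_of_isIntegral p 𝔡`). Claim `𝔓 ≤ 𝔓₀`: for `c ∈ 𝔓` the norm `n` of `c`
lies in `𝔓 ∩ R = p ⊆ 𝔓₀`, so some conjugate of `c` lies in `𝔓₀`, and `c` is congruent to it modulo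
`𝔡 ⊆ 𝔓₀`. If `c ∈ 𝔓₀ ∖ 𝔓` then `𝔓 ∩ R < 𝔓₀ ∩ R` (`Ideal.comap_lt_comap_of_integral_mem_sdiff` or
a similar statement), but both are `p`. So `𝔓 = 𝔓₀`. -/
theorem sub_mem_of_not_unram {p : Ideal R} [hpp : p.IsPrime] (hU : ¬ UnramAt3 σ p) {𝔓 : Ideal O}
    [h𝔓 : 𝔓.IsPrime] (hp : 𝔓.comap (algebraMap R O) = p) (c : O) : σ c - c ∈ 𝔓 := by
  have hint := h.isIntegral
  obtain ⟨𝔡, h𝔡⟩ : ∃ 𝔡 : Ideal O, 𝔡 = Ideal.span (Set.range fun c => σ c - c) := ⟨_, rfl⟩
  have hd : ∀ c, σ c - c ∈ 𝔡 := fun c => by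
    rw [h𝔡]
    exact Ideal.subset_span ⟨c, rfl⟩
  obtain ⟨Q, hQ, hQp, hQc⟩ := Ideal.exists_ideal_over_prime_of_isIntegral p 𝔡 (by
    intro a ha
    by_contra hap
    exact hU ⟨a, hap, by rw [← h𝔡]; exact ha⟩)
  have hle : 𝔓 ≤ Q := by
    intro c hc
    obtain ⟨n, hn⟩ := h.exists_norm c
    have h1 : n ∈ p := by
      rw [← hp, Ideal.mem_comap, hn]
      exact 𝔓.mul_mem_right _ (𝔓.mul_mem_right _ hc)
    have h2 : c * σ c * σ (σ c) ∈ Q := by
      rw [← hn, ← Ideal.mem_comap, hQc]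
      exact h1
    have h3 : σ c ∈ Q → c ∈ Q := by
      intro h4
      have := Q.sub_mem h4 (hQ (hd c))
      rwa [sub_sub_cancel] at this
    rcases hQp.mem_or_mem h2 with h5 | h5
    · rcases hQp.mem_or_mem h5 with h6 | h6
      · exact h6
      · exact h3 h6
    · apply h3
      have := Q.sub_mem h5 (hQ (hd (σ c)))
      rwa [sub_sub_cancel] at this
  by_contra hcon
  have h4 : σ c - c ∈ Q := hQ (hd c)
  have h5 := Ideal.comap_lt_comap_of_integral_mem_sdiff (R := R) hle (x := σ c - c) ⟨h4, hcon⟩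
    (Algebra.IsIntegral.isIntegral _)
  rw [hp, hQc] at h5
  exact lt_irrefl _ h5
-- END G4a2

-- BEGIN G4a3
/-- TASK G4a. The residue extension is trivial in the ramified case. If `3 ∈ p`: the Frobenius of the
finite field `R ⧸ p` of characteristic three is bijective, take `a` with `a ^ 3 = n` mod `p`, `n` the norm
of `c`; then `(c - a) ^ 3 = c ^ 3 - a ^ 3 - 3 c a (c - a) ∈ 𝔓` as `c ^ 3 - c σ c σ² c ∈ 𝔓`. If
`3 ∉ p`: `a = t / 3`, `t` the trace of `c` (`QuadExt.exists_add_mem` in QWArith.lean is the model). -/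
theorem exists_add_mem {p : Ideal R} [hpm : p.IsMaximal] [Finite (R ⧸ p)] {𝔓 : Ideal O}
    [h𝔓 : 𝔓.IsPrime] (hp : 𝔓.comap (algebraMap R O) = p) (hσ : ∀ c, σ c - c ∈ 𝔓) (c : O) :
    ∃ a : R, c - algebraMap R O a ∈ 𝔓 := by
  obtain ⟨n, hn⟩ := h.exists_norm c
  obtain ⟨t, ht⟩ := h.exists_trace c
  have hpR : ∀ a : R, a ∈ p ↔ algebraMap R O a ∈ 𝔓 := fun a => by rw [← hp, Ideal.mem_comap]
  have hσ2 : σ (σ c) - c ∈ 𝔓 := by
    have h1 := 𝔓.add_mem (hσ (σ c)) (hσ c)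
    rwa [sub_add_sub_cancel] at h1
  by_cases h3 : (3 : R) ∈ p
  · -- residue characteristic three
    let := Ideal.Quotient.field p
    have h30 : ((3 : ℕ) : R ⧸ p) = 0 := by
      have h4 : ((3 : ℕ) : R ⧸ p) = Ideal.Quotient.mk p 3 := by
        rw [map_ofNat]
        norm_cast
      rw [h4]
      exact Ideal.Quotient.eq_zero_iff_mem.mpr h3
    have hchar : CharP (R ⧸ p) 3 := by
      have h4 := CharP.ringChar_of_prime_eq_zero (R := R ⧸ p) Nat.prime_three h30
      rw [← h4]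
      exact ringChar.charP _
    have hfact : Fact (Nat.Prime 3) := ⟨Nat.prime_three⟩
    have hfin : Finite (R ⧸ p) := inferInstance
    obtain ⟨m, hm⟩ : ∃ m : R ⧸ p, m ^ 3 = Ideal.Quotient.mk p n := by
      have hinj : Function.Injective (frobenius (R ⧸ p) 3) := frobenius_inj _ 3
      obtain ⟨m, hm⟩ := (Finite.injective_iff_surjective.mp hinj) (Ideal.Quotient.mk p n)
      exact ⟨m, hm⟩
    obtain ⟨a, rfl⟩ := Ideal.Quotient.mk_surjective m
    rw [← map_pow, Ideal.Quotient.mk_eq_mk_iff_sub_mem, hpR, map_sub, map_pow, hn] at hm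
    refine ⟨a, ?_⟩
    apply h𝔓.mem_of_pow_mem 3
    have h5 : (c - algebraMap R O a) ^ 3 = -(algebraMap R O a ^ 3 - c * σ c * σ (σ c)) -
        (c * σ (σ c)) * (σ c - c) - (c * c) * (σ (σ c) - c) -
        algebraMap R O 3 * (c * algebraMap R O a * (c - algebraMap R O a)) := by
      rw [map_ofNat]; ring
    rw [h5]
    exact 𝔓.sub_mem (𝔓.sub_mem (𝔓.sub_mem (𝔓.neg_mem hm) (𝔓.mul_mem_left _ (hσ c)))
      (𝔓.mul_mem_left _ hσ2)) (𝔓.mul_mem_right _ ((hpR 3).mp h3))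
  · obtain ⟨s, hs⟩ := Ideal.Quotient.exists_inv (I := p) (a := Ideal.Quotient.mk p 3) (by
      rwa [Ne, Ideal.Quotient.eq_zero_iff_mem])
    obtain ⟨s, rfl⟩ := Ideal.Quotient.mk_surjective s
    rw [← map_mul, ← map_one (Ideal.Quotient.mk p), Ideal.Quotient.mk_eq_mk_iff_sub_mem, hpR,
      map_sub, map_one, map_mul, map_ofNat] at hs
    refine ⟨s * t, ?_⟩
    have h5 : c - algebraMap R O (s * t) = -(c * (3 * algebraMap R O s - 1)) -
        algebraMap R O s * ((σ c - c) + (σ (σ c) - c)) := by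
      rw [map_mul, ht]; ring
    rw [h5]
    exact 𝔓.sub_mem (𝔓.neg_mem (𝔓.mul_mem_left _ hs))
      (𝔓.mul_mem_left _ (𝔓.add_mem (hσ c) hσ2))
-- END G4a3

-- BEGIN G4a4
/-- TASK G4a. All but finitely many primes are unramified: `d` is the norm of `σ c - c`, where
`σ c ≠ c`. -/
theorem exists_disc [IsDomain O] : ∃ d : R, d ≠ 0 ∧ ∀ p : Ideal R, d ∉ p → UnramAt3 σ p := by
  obtain ⟨c, hc⟩ := h.ne
  obtain ⟨n, hn⟩ := h.exists_norm (σ c - c)
  have hd : σ c - c ∈ Ideal.span (Set.range fun c => σ c - c) := Ideal.subset_span ⟨c, rfl⟩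
  refine ⟨n, ?_, fun p hp => ⟨n, hp, ?_⟩⟩
  · rintro rfl
    have h0 : σ c - c ≠ 0 := fun h0 => hc (sub_eq_zero.mp h0)
    have h1 : σ (σ c - c) ≠ 0 := by
      intro h1
      apply h0
      rw [← h.cube (σ c - c), h1, map_zero, map_zero]
    have h2 : σ (σ (σ c - c)) ≠ 0 := by
      intro h2
      apply h0
      rw [← h.cube (σ c - c), h2, map_zero]
    rw [map_zero] at hn
    exact mul_ne_zero (mul_ne_zero h0 h1) h2 hn.symm
  · rw [hn]
    exact Ideal.mul_mem_right _ _ (Ideal.mul_mem_right _ _ hd)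
-- END G4a4

end CubExt

end Pool.Agent.Lib.MP_6a3dac_ag.W3
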