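import Pool.Agent.Lib.MP_6a3dac_ag.W3.G4a

/-!
# Ramification in cyclic cubic extensions of Dedekind domains: uniformizers
-/

set_option autoImplicit false
set_option linter.unusedSectionVars false
set_option linter.unusedVariables false

namespace Pool.Agent.Lib.MP_6a3dac_ag.W3

namespace CubExt

variable {R O : Type} [CommRing R] [CommRing O] [Algebra R O] {σ : O →+* O} (h : CubExt R O σ)
include h

-- BEGIN G4b
/-- TASK G4b. **The structure of the ramified case.** The proof is that of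
`QuadExt.exists_uniformizer` in QWArith.lean, with `h.exists_dvd` (norms of three factors, in `hden` the
numerator is `a * (σ s * σ (σ s))`), `h.exists_add_mem`, `h.sub_mem_of_not_unram`. -/
theorem exists_uniformizer [IsDedekindDomain O] {p : Ideal R} [hpm : p.IsMaximal]
    [Finite (R ⧸ p)] (hp0 : p ≠ ⊥) (hU : ¬ UnramAt3 σ p)
    {𝔓 : Ideal O} [h𝔓 : 𝔓.IsPrime] (hp : 𝔓.comap (algebraMap R O) = p) :
    ∃ (ϖ : O) (r : ℕ), 1 ≤ r ∧ Irreducible (algebraMap O (Localization.AtPrime 𝔓) ϖ) ∧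
      (∃ ε, ε ∉ 𝔓 ∧ ∃ n, n ∉ p ∧ algebraMap R O n * (σ ϖ - ϖ) = ε * ϖ ^ r) ∧
      (∀ c, ∃ y, ∃ n, n ∉ p ∧ algebraMap R O n * (σ c - c) = y * ϖ ^ r) := by
  have hσ : ∀ c, σ c - c ∈ 𝔓 := h.sub_mem_of_not_unram hU hp
  have h𝔓0 : 𝔓 ≠ ⊥ := by
    rintro rfl
    apply hp0
    rw [← hp, eq_bot_iff]
    intro a ha
    rw [Ideal.mem_comap, Ideal.mem_bot] at ha
    exact h.inj (by rw [ha, map_zero])
  have hDVR : IsDiscreteValuationRing (Localization.AtPrime 𝔓) :=
    IsLocalization.AtPrime.isDiscreteValuationRing_of_dedekind_domain O h𝔓0 _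
  let O' := Localization.AtPrime 𝔓
  have hσ𝔓 : 𝔓.primeCompl ≤ 𝔓.primeCompl.comap σ := by
    intro s hs
    change σ s ∉ 𝔓
    intro hσs
    apply hs
    have := 𝔓.sub_mem hσs (hσ s)
    rwa [sub_sub_cancel] at this
  let σ' : O' →+* O' := IsLocalization.map O' σ hσ𝔓
  have hσ'c : ∀ c, σ' (algebraMap O O' c) = algebraMap O O' (σ c) := fun c =>
    IsLocalization.map_eq hσ𝔓 c
  have halg : Function.Injective (algebraMap O O') :=
    IsLocalization.injective O' (Ideal.primeCompl_le_nonZeroDivisors 𝔓)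
  -- clearing denominators
  have hden : ∀ z : O', ∃ (n : R) (a : O), n ∉ p ∧
      algebraMap O O' (algebraMap R O n) * z = algebraMap O O' a := by
    intro z
    obtain ⟨⟨a, s⟩, hz⟩ := IsLocalization.surj 𝔓.primeCompl z
    obtain ⟨n, hn, hns⟩ := h.exists_dvd hp hσ s.2
    refine ⟨n, a * (σ s * σ (σ s)), hn, ?_⟩
    rw [hns, map_mul, map_mul, map_mul, map_mul, ← hz]
    ring
  have hunit : ∀ s : O, IsUnit (algebraMap O O' s) ↔ s ∉ 𝔓 := fun s =>
    IsLocalization.AtPrime.isUnit_to_map_iff O' 𝔓 s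
  have hnp : ∀ n : R, n ∉ p → IsUnit (algebraMap O O' (algebraMap R O n)) := by
    intro n hn
    rw [hunit]
    rwa [← hp, Ideal.mem_comap] at hn
  -- the minimal exponent
  obtain ⟨ϖ₀, hϖ₀⟩ := IsDiscreteValuationRing.exists_irreducible O'
  have hex : ∃ m, ∃ z : O', Associated (σ' z - z) (ϖ₀ ^ m) := by
    obtain ⟨c, hc⟩ := h.ne
    have h0 : algebraMap O O' (σ c - c) ≠ 0 := by
      intro h0
      apply hc
      rw [← sub_eq_zero]
      exact halg (by rw [h0, map_zero])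
    obtain ⟨m, hm⟩ := IsDiscreteValuationRing.associated_pow_irreducible h0 hϖ₀
    exact ⟨m, algebraMap O O' c, by rw [hσ'c, ← map_sub]; exact hm⟩
  classical
  obtain ⟨r, hr⟩ : ∃ r, r = Nat.find hex := ⟨_, rfl⟩
  obtain ⟨z₁, hz₁⟩ : ∃ z : O', Associated (σ' z - z) (ϖ₀ ^ r) := hr ▸ Nat.find_spec hex
  have hmin : ∀ z : O', ϖ₀ ^ r ∣ σ' z - z := by
    intro z
    by_cases h0 : σ' z - z = 0
    · rw [h0]; exact dvd_zero _
    · obtain ⟨m, hm⟩ := IsDiscreteValuationRing.associated_pow_irreducible h0 hϖ₀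
      have hrm : r ≤ m := hr ▸ Nat.find_min' hex ⟨z, hm⟩
      exact (pow_dvd_pow ϖ₀ hrm).trans hm.symm.dvd
  have hlarge : ∀ z : O', ¬ Associated (σ' z - z) (ϖ₀ ^ r) → ϖ₀ ^ (r + 1) ∣ σ' z - z := by
    intro z hz
    obtain ⟨y, hy⟩ := hmin z
    have hyu : ¬ IsUnit y := by
      intro hyu
      apply hz
      rw [hy]
      exact (associated_mul_unit_left _ _ hyu)
    have : ϖ₀ ∣ y := by
      rw [← Ideal.mem_span_singleton, ← hϖ₀.maximalIdeal_eq]
      exact hyu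
    rw [hy, pow_succ]
    exact mul_dvd_mul_left _ this
  -- `r` is positive
  have hr1 : 1 ≤ r := by
    by_contra hr0
    have hr0 : r = 0 := by omega
    rw [hr0, pow_zero, associated_one_iff_isUnit] at hz₁
    obtain ⟨n, a, hn, hna⟩ := hden z₁
    have h1 : algebraMap O O' (σ a - a) = algebraMap O O' (algebraMap R O n) * (σ' z₁ - z₁) := by
      rw [map_sub, ← hσ'c, ← hna, map_mul, hσ'c, h.fix]
      ring
    have h2 : IsUnit (algebraMap O O' (σ a - a)) := by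
      rw [h1]
      exact (hnp n hn).mul hz₁
    rw [hunit] at h2
    exact h2 (hσ a)
  -- a uniformizer whose difference is minimal
  obtain ⟨ϖ', hϖ', hϖ'2⟩ : ∃ ϖ' : O', Associated ϖ' ϖ₀ ∧ Associated (σ' ϖ' - ϖ') (ϖ₀ ^ r) := by
    by_cases h0 : Associated (σ' ϖ₀ - ϖ₀) (ϖ₀ ^ r)
    · exact ⟨ϖ₀, Associated.refl _, h0⟩
    obtain ⟨n, a, hn, hna⟩ := hden z₁
    obtain ⟨a', ha'⟩ := h.exists_add_mem hp hσ a
    obtain ⟨d, hd⟩ : ϖ₀ ∣ algebraMap O O' (a - algebraMap R O a') := by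
      rw [← Ideal.mem_span_singleton, ← hϖ₀.maximalIdeal_eq]
      exact (IsLocalization.AtPrime.to_map_mem_maximal_iff O' 𝔓 _).mpr ha'
    have h1 : σ' (ϖ₀ * d) - ϖ₀ * d = algebraMap O O' (algebraMap R O n) * (σ' z₁ - z₁) := by
      rw [← hd, hσ'c, map_sub, h.fix, map_sub, map_sub, ← hσ'c, ← hna, map_mul, hσ'c, h.fix]
      ring
    have h2 : Associated (σ' (ϖ₀ * d) - ϖ₀ * d) (ϖ₀ ^ r) := by
      rw [h1]
      exact (associated_unit_mul_left _ _ (hnp n hn)).trans hz₁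
    by_cases hdu : IsUnit d
    · exact ⟨ϖ₀ * d, associated_mul_unit_left _ _ hdu, h2⟩
    · have h3 : IsUnit (1 + d) := by
        by_contra h3
        have h4 := Ideal.sub_mem (IsLocalRing.maximalIdeal O') (a := 1 + d) (b := d) h3 hdu
        rw [add_sub_cancel_right] at h4
        exact (IsLocalRing.maximalIdeal.isMaximal O').ne_top ((Ideal.eq_top_iff_one _).mpr h4)
      refine ⟨ϖ₀ * (1 + d), associated_mul_unit_left _ _ h3, ?_⟩
      obtain ⟨y, hy⟩ := hlarge ϖ₀ h0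
      obtain ⟨u, hu⟩ := h2.symm
      have h4 : σ' (ϖ₀ * (1 + d)) - ϖ₀ * (1 + d) = ϖ₀ ^ r * (u + ϖ₀ * y) := by
        rw [mul_add, mul_one, map_add]
        linear_combination hy - hu
      have h5 : IsUnit ((u : O') + ϖ₀ * y) := by
        by_contra h5
        have h6 : ϖ₀ * y ∈ IsLocalRing.maximalIdeal O' := Ideal.mul_mem_right _ _ hϖ₀.not_isUnit
        have h7 := Ideal.sub_mem (IsLocalRing.maximalIdeal O') (a := u + ϖ₀ * y) h5 h6
        rw [add_sub_cancel_right] at h7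
        exact h7 u.isUnit
      rw [h4]
      exact associated_mul_unit_left _ _ h5
  -- clear the denominator of `ϖ'`
  obtain ⟨n₀, ϖ, hn₀, hn₀ϖ⟩ := hden ϖ'
  have hϖa : Associated (algebraMap O O' ϖ) ϖ₀ := by
    rw [← hn₀ϖ]
    exact (associated_unit_mul_left _ _ (hnp n₀ hn₀)).trans hϖ'
  have hΔϖ : Associated (algebraMap O O' (σ ϖ - ϖ)) (algebraMap O O' (ϖ ^ r)) := by
    have h1 : algebraMap O O' (σ ϖ - ϖ) = algebraMap O O' (algebraMap R O n₀) * (σ' ϖ' - ϖ') := by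
      rw [map_sub, ← hσ'c, ← hn₀ϖ, map_mul, hσ'c, h.fix]
      ring
    rw [h1, map_pow]
    exact ((associated_unit_mul_left _ _ (hnp n₀ hn₀)).trans hϖ'2).trans (hϖa.symm.pow_pow)
  refine ⟨ϖ, r, hr1, (hϖa.irreducible_iff).mpr hϖ₀, ?_, ?_⟩
  · obtain ⟨u, hu⟩ := hΔϖ.symm
    obtain ⟨n, ε, hn, hnε⟩ := hden (u : O')
    refine ⟨ε, ?_, n, hn, ?_⟩
    · rw [← hunit, ← hnε]
      exact (hnp n hn).mul u.isUnit
    · apply halg
      rw [map_mul, map_mul, ← hu, ← hnε]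
      ring
  · intro c
    have h1 : algebraMap O O' (ϖ ^ r) ∣ algebraMap O O' (σ c - c) := by
      rw [map_sub, ← hσ'c, map_pow]
      exact (hϖa.pow_pow.dvd).trans (hmin _)
    obtain ⟨y, hy⟩ := h1
    obtain ⟨n, a, hn, hna⟩ := hden y
    refine ⟨a, n, hn, ?_⟩
    apply halg
    rw [map_mul, hy, map_mul, ← hna]
    ring
-- END G4b

end CubExt

end Pool.Agent.Lib.MP_6a3dac_ag.W3
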