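import Pool.Agent.Lib.MP_6a3dac_ag.QD.Arith

/-!
# The arithmetic of a ramified prime of a cyclic cubic extension: consequences
-/

set_option autoImplicit false
set_option linter.unusedSectionVars false
set_option linter.unusedVariables false

namespace Pool.Agent.Lib.MP_6a3dac_ag.W3

open Pool.Agent.Lib.MP_6a3dac_ag Pool.Agent.Lib.MP_6a3dac_ag.QD

variable {R O L M : Type} [CommRing R] [CommRing O] [Algebra R O] [Field L] [Algebra R L]
  [Algebra O L] [IsScalarTower R O L] [CommRing M] [Algebra L M] [Algebra R M]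
  [IsScalarTower R L M]
  {τ : M →+* M} (hτ : ∀ m, τ (τ (τ m)) = m) {p : Ideal R} [hp : p.IsPrime] {ϖ : O} {s : ℕ}

-- BEGIN G4d1
/-- TASK G4d. The multiplier `η` of the uniformizer: `τ ϖ = η ϖ`, `η = 1 + ε ϖ ^ (s - 1)`; its norm is one
(apply `τ` twice and cancel `ϖ`). -/
theorem Ram.exists_mult [IsDomain M] (h : Ram O L M τ p ϖ s) (hϖ : oM O L M ϖ ≠ 0)
    (hτ : ∀ m, τ (τ (τ m)) = m) :
    ∃ η ∈ lamP O L M p, τ (oM O L M ϖ) = η * oM O L M ϖ ∧ η * τ η * τ (τ η) = 1 ∧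
      ∃ ε ∈ lamP O L M p, ∃ ε' ∈ lamP O L M p, ε * ε' = 1 ∧ η = 1 + ε * oM O L M ϖ ^ (s - 1) := by
  obtain ⟨w, hw⟩ : ∃ w, w = oM O L M ϖ := ⟨_, rfl⟩
  have hwm : w ∈ lamP O L M p := by rw [hw]; exact oM_mem_lamP p _
  have hw0 : w ≠ 0 := by rw [hw]; exact hϖ
  obtain ⟨ε, hε, ε', hε', h1, h2⟩ := h.eps
  rw [← hw] at h1 ⊢
  obtain ⟨η, hη⟩ : ∃ η, η = 1 + ε * w ^ (s - 1) := ⟨_, rfl⟩
  have hηm : η ∈ lamP O L M p := by
    rw [hη]
    exact Subring.add_mem _ (Subring.one_mem _) (Subring.mul_mem _ hε (Subring.pow_mem _ hwm _))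
  have hτw : τ w = η * w := by
    obtain ⟨k, hk⟩ : ∃ k, s = k + 1 := ⟨s - 1, by have := h.pos; omega⟩
    have e1 : s - 1 = k := by omega
    rw [hη, e1]
    rw [hk] at h1
    linear_combination h1
  refine ⟨η, hηm, hτw, ?_, ε, hε, ε', hε', h2, hη⟩
  have h3 : τ (τ (τ w)) = w := hτ w
  rw [hτw, map_mul, map_mul, hτw, map_mul, hτw] at h3
  have h4 : (η * τ η * τ (τ η)) * w = 1 * w := by rw [one_mul]; linear_combination h3
  exact mul_right_cancel₀ hw0 h4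

/-- TASK G4d. An invariant nonunit of `Λ` is not a uniformizer times a unit: if `c = ϖ c₁`, `c₁ c₁' = 1`
then `ϖ = c c₁'`, `τ ϖ - ϖ = c (τ c₁' - c₁') = ϖ c₁ d ϖ ^ s`, so `ε = ϖ c₁ d`, contradiction to `nonunit`
(first part of the proof of `Ram.fixed_dvd` in QD/Arith.lean). -/
theorem Ram.not_unif [IsDomain M] (h : Ram O L M τ p ϖ s) (hϖ : oM O L M ϖ ≠ 0) {c : M}
    (hτc : τ c = c) {c₁ c₁' : M} (hc₁ : c₁ ∈ lamP O L M p) (hc₁' : c₁' ∈ lamP O L M p)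
    (hcc : c = oM O L M ϖ * c₁) (hu : c₁ * c₁' = 1) : False := by
  obtain ⟨w, hw⟩ : ∃ w, w = oM O L M ϖ := ⟨_, rfl⟩
  have hw0 : w ≠ 0 := by rw [hw]; exact hϖ
  obtain ⟨ε, hε, ε', hε', h1, h2⟩ := h.eps
  obtain ⟨d, hd, h4⟩ := h.diff c₁' hc₁'
  rw [← hw] at h1 h4 hcc
  have h5 : w = c * c₁' := by rw [hcc, mul_assoc, hu, mul_one]
  have h6 : τ w = c * τ c₁' := by
    conv_lhs => rw [h5, map_mul, hτc]
  have h7 : w ^ s * ε = w ^ s * (w * c₁ * d) := by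
    have h8 : τ w - w = c * (τ c₁' - c₁') := by
      rw [h6]
      conv_lhs => rw [h5]
      ring
    rw [h1, h4, hcc] at h8
    linear_combination h8
  have h9 : ε = w * c₁ * d := mul_left_cancel₀ (pow_ne_zero _ hw0) h7
  refine h.nonunit (c₁ * d * ε') (Subring.mul_mem _ (Subring.mul_mem _ hc₁ hd) hε') ?_
  rw [← hw]
  linear_combination h2 - ε' * h9
-- END G4d1

-- BEGIN G4d2
/-- TASK G4d. The invariant nonunits are divisible by the norm of the uniformizer. By `dvr` and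
`Ram.not_unif`, `c = ϖ ^ 2 c₂`. If `c₂` is a unit, `c₂ c₂' = 1`: let `N = ϖ τ ϖ τ² ϖ` and
`η` as in `Ram.exists_mult`: `N = ϖ ^ 3 η ^ 2 τ η` (`τ² ϖ = τ η η ϖ`), so `N = c w` with
`w = ϖ (η ^ 2 τ η c₂')`; `N` and `c ≠ 0` are invariant, so `w` is invariant (cancel `c`), contradiction
to `Ram.not_unif`. So `c = ϖ ^ 3 c₃ = N (c₃ (η ^ 2 τ η)⁻¹)` and the last factor is invariant
(cancel `N`); `(η ^ 2 τ η)⁻¹ = τ η (τ² η) ^ 2`-like products from `η τ η τ² η = 1`. -/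
theorem Ram.fixed_dvd3 [IsDomain M] (h : Ram O L M τ p ϖ s) (hϖ : oM O L M ϖ ≠ 0)
    (hτ : ∀ m, τ (τ (τ m)) = m) {c : M}
    (hc : c ∈ lamP O L M p) (hτc : τ c = c) (hcn : ∀ c' ∈ lamP O L M p, c * c' ≠ 1) :
    ∃ c' ∈ lamP O L M p, τ c' = c' ∧
      c = oM O L M ϖ * τ (oM O L M ϖ) * τ (τ (oM O L M ϖ)) * c' := by
  obtain ⟨η, hη, hτw, hnorm, -⟩ := W3.Ram.exists_mult h hϖ hτ
  obtain ⟨w, hw⟩ : ∃ w, w = oM O L M ϖ := ⟨_, rfl⟩
  have hw0 : w ≠ 0 := by rw [hw]; exact hϖ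
  have hτη := h.map_mem hη
  have hττη := h.map_mem hτη
  obtain ⟨u, hu⟩ : ∃ u, u = η ^ 2 * τ η := ⟨_, rfl⟩
  obtain ⟨x, hx⟩ : ∃ x, x = τ η * τ (τ η) ^ 2 := ⟨_, rfl⟩
  have hum : u ∈ lamP O L M p := by
    rw [hu]; exact Subring.mul_mem _ (Subring.pow_mem _ hη _) hτη
  have hxm : x ∈ lamP O L M p := by
    rw [hx]; exact Subring.mul_mem _ hτη (Subring.pow_mem _ hττη _)
  have hux : u * x = 1 := by
    have h1 : u * x = (η * τ η * τ (τ η)) ^ 2 := by rw [hu, hx]; ring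
    rw [h1, hnorm, one_pow]
  rw [← hw] at hτw ⊢
  have hττw : τ (τ w) = τ η * (η * w) := by rw [hτw, map_mul, hτw]
  obtain ⟨n, hn⟩ : ∃ n, n = w * τ w * τ (τ w) := ⟨_, rfl⟩
  have hnu : n = w ^ 3 * u := by
    rw [hn, hττw, hτw, hu]; ring
  have hτn : τ n = n := by
    rw [hn, map_mul, map_mul, hτ w]; ring
  have hu0 : u ≠ 0 := by
    rintro rfl
    rw [zero_mul] at hux
    exact zero_ne_one hux
  have hn0 : n ≠ 0 := by rw [hnu]; exact mul_ne_zero (pow_ne_zero _ hw0) hu0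
  obtain ⟨c₁, hc₁, hcc⟩ : ∃ c₁ ∈ lamP O L M p, c = w * c₁ := by
    rcases h.dvr c hc with ⟨c', hc', h3⟩ | ⟨c', hc', h3⟩
    · exact absurd h3 (hcn c' hc')
    · exact ⟨c', hc', by rw [hw]; exact h3⟩
  obtain ⟨c₂, hc₂, hcc₂⟩ : ∃ c₂ ∈ lamP O L M p, c₁ = w * c₂ := by
    rcases h.dvr c₁ hc₁ with ⟨c', hc', h3⟩ | ⟨c', hc', h3⟩
    · exact (W3.Ram.not_unif h hϖ hτc hc₁ hc' (by rw [← hw]; exact hcc) h3).elim
    · exact ⟨c', hc', by rw [hw]; exact h3⟩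
  obtain ⟨c₃, hc₃, hcc₃⟩ : ∃ c₃ ∈ lamP O L M p, c₂ = w * c₃ := by
    rcases h.dvr c₂ hc₂ with ⟨c', hc', h3⟩ | ⟨c', hc', h3⟩
    · exfalso
      have hc20 : c₂ ≠ 0 := by
        rintro rfl
        rw [zero_mul] at h3
        exact zero_ne_one h3
      have hc0 : c ≠ 0 := by
        rw [hcc, hcc₂]
        exact mul_ne_zero hw0 (mul_ne_zero hw0 hc20)
      obtain ⟨v, hv⟩ : ∃ v, v = w * (u * c') := ⟨_, rfl⟩
      have hcv : c * v = n := by
        rw [hv, hnu, hcc, hcc₂]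
        linear_combination (w ^ 3 * u) * h3
      have hτv : τ v = v := by
        apply mul_left_cancel₀ hc0
        have h4 : τ (c * v) = c * τ v := by rw [map_mul, hτc]
        rw [← h4, hcv, hτn]
      refine W3.Ram.not_unif h hϖ hτv (Subring.mul_mem _ hum hc') (Subring.mul_mem _ hxm hc₂)
        (by rw [← hw]; exact hv) ?_
      linear_combination (c' * c₂) * hux + h3
    · exact ⟨c', hc', by rw [hw]; exact h3⟩
  have hfin : c = n * (x * c₃) := by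
    rw [hnu, hcc, hcc₂, hcc₃]
    linear_combination -(w ^ 3 * c₃) * hux
  refine ⟨x * c₃, Subring.mul_mem _ hxm hc₃, ?_, by rw [← hn]; exact hfin⟩
  apply mul_left_cancel₀ hn0
  have h4 : τ (n * (x * c₃)) = n * τ (x * c₃) := by rw [map_mul τ n, hτn]
  rw [← h4, ← hfin, hτc]
-- END G4d2

-- BEGIN G4d3
/-- TASK G4d. If `3` is invertible then `s = 1`. Otherwise let `c = ϖ + τ ϖ + τ² ϖ` (invariant);
`τ ϖ = ϖ + ε ϖ ^ s`, `τ² ϖ = τ ϖ + τ (ε ϖ ^ s)` and `τ (ε ϖ ^ s)` is `ϖ ^ s` times an element of `Λ`, so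
`c = ϖ (3 + ϖ e)` with `e ∈ Λ` (`s ≥ 2`), and `3 + ϖ e` is a unit of `Λ` (`dvr`, `nonunit`):
contradiction to `Ram.not_unif`. -/
theorem Ram.eq_one3 [IsDomain M] (h : Ram O L M τ p ϖ s) (hϖ : oM O L M ϖ ≠ 0)
    (hτ : ∀ m, τ (τ (τ m)) = m) (h3 : ∃ c ∈ lamP O L M p, (3 : M) * c = 1) : s = 1 := by
  by_contra hs
  obtain ⟨r, rfl⟩ : ∃ r, s = r + 2 := ⟨s - 2, by have := h.pos; omega⟩
  obtain ⟨ε, hε, ε', hε', hτϖ, hεε⟩ := h.eps
  obtain ⟨u, hu, hu1⟩ := h3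
  have hx : oM O L M ϖ ∈ lamP O L M p := oM_mem_lamP p ϖ
  obtain ⟨x, hxdef⟩ : ∃ x, x = oM O L M ϖ := ⟨_, rfl⟩
  rw [← hxdef] at hτϖ hx
  have e1 : τ x = x + ε * x ^ (r + 2) := by
    rw [← hτϖ]
    ring
  have hthree : (3 : M) ∈ lamP O L M p := by
    have h4 := Subring.add_mem (lamP O L M p) (Subring.add_mem _ (Subring.one_mem _)
      (Subring.one_mem _)) (Subring.one_mem _)
    have h5 : (1 : M) + 1 + 1 = 3 := by norm_num
    rwa [h5] at h4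
  have htwo : (2 : M) ∈ lamP O L M p := by
    have := Subring.add_mem (lamP O L M p) (Subring.one_mem _) (Subring.one_mem _)
    rwa [one_add_one_eq_two] at this
  obtain ⟨g, hgdef⟩ : ∃ g, g = τ ε * (1 + ε * x ^ (r + 1)) ^ (r + 2) := ⟨_, rfl⟩
  have hg : g ∈ lamP O L M p := by
    rw [hgdef]
    exact Subring.mul_mem _ (QD.Ram.map_mem h hε) (Subring.pow_mem _ (Subring.add_mem _
      (Subring.one_mem _) (Subring.mul_mem _ hε (Subring.pow_mem _ hx _))) _)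
  have e2 : τ (τ x) = x + ε * x ^ (r + 2) + x ^ (r + 2) * g := by
    have e3 : τ x = x * (1 + ε * x ^ (r + 1)) := by
      rw [e1]
      ring
    have e4 : τ (τ x) = τ x + τ ε * τ x ^ (r + 2) := by
      conv_lhs => rw [e1, map_add, map_mul, map_pow]
    rw [e4, hgdef]
    conv_lhs => rw [e3]
    rw [mul_pow]
    ring
  obtain ⟨e, hedef⟩ : ∃ e, e = 2 * (ε * x ^ r) + x ^ r * g := ⟨_, rfl⟩
  have he : e ∈ lamP O L M p := by
    rw [hedef]
    exact Subring.add_mem _ (Subring.mul_mem _ htwo (Subring.mul_mem _ hε (Subring.pow_mem _ hx _)))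
      (Subring.mul_mem _ (Subring.pow_mem _ hx _) hg)
  have hcc : x + τ x + τ (τ x) = x * (3 + x * e) := by
    rw [e2, e1, hedef]
    ring
  have hc₁ : 3 + x * e ∈ lamP O L M p :=
    Subring.add_mem _ hthree (Subring.mul_mem _ hx he)
  have hτc : τ (x + τ x + τ (τ x)) = x + τ x + τ (τ x) := by
    rw [map_add, map_add, hτ x]
    ring
  rcases h.dvr _ hc₁ with ⟨c', hc', h4⟩ | ⟨c', hc', h4⟩
  · exact Ram.not_unif h hϖ hτc hc₁ hc' (by rw [← hxdef]; exact hcc) h4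
  · rw [← hxdef] at h4
    refine h.nonunit ((c' - e) * u) (Subring.mul_mem _ (Subring.sub_mem _ hc' he) hu) ?_
    rw [← hxdef]
    linear_combination hu1 - u * h4

/-- TASK G4d. If `3` is not invertible then `2 ≤ s`. Suppose `s = 1`, `η = 1 + ε`, `ε` a unit. As
`τ η - η`, `τ² η - η` are divisible by `ϖ` (`diff`), `1 = η τ η τ² η = η ^ 3 + ϖ e`, and `3 = ϖ t`
(`dvr`), so `ε ^ 3 = (η - 1) ^ 3 = η ^ 3 - 1 - 3 η ^ 2 + 3 η` is divisible by `ϖ`: contradiction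
(`ε ε' = 1`, `nonunit`). -/
theorem Ram.two_le3 [IsDomain M] (h : Ram O L M τ p ϖ s) (hϖ : oM O L M ϖ ≠ 0)
    (hτ : ∀ m, τ (τ (τ m)) = m) (h3 : ∀ c ∈ lamP O L M p, (3 : M) * c ≠ 1) : 2 ≤ s := by
  by_contra hs
  obtain rfl : s = 1 := by have := h.pos; omega
  obtain ⟨η, hη, -, hηη, ε, hε, ε', hε', hεε, hηε⟩ := Ram.exists_mult h hϖ hτ
  have hx : oM O L M ϖ ∈ lamP O L M p := oM_mem_lamP p ϖ
  have hthree : (3 : M) ∈ lamP O L M p := by
    have h4 := Subring.add_mem (lamP O L M p) (Subring.add_mem _ (Subring.one_mem _)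
      (Subring.one_mem _)) (Subring.one_mem _)
    have h5 : (1 : M) + 1 + 1 = 3 := by norm_num
    rwa [h5] at h4
  have hτη : τ η ∈ lamP O L M p := QD.Ram.map_mem h hη
  obtain ⟨d, hd, hd1⟩ := h.diff η hη
  obtain ⟨d', hd', hd2⟩ := h.diff (τ η) hτη
  rcases h.dvr 3 hthree with ⟨c', hc', h4⟩ | ⟨t, ht, h4⟩
  · exact h3 c' hc' h4
  · obtain ⟨x, hxdef⟩ : ∃ x, x = oM O L M ϖ := ⟨_, rfl⟩
    rw [← hxdef] at hd1 hd2 h4 hηε hx
    rw [pow_one] at hd1 hd2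
    have hε1 : ε = η - 1 := by
      rw [hηε]
      simp
    have e1 : τ η = η + d * x := by linear_combination hd1
    have e2 : τ (τ η) = η + d * x + d' * x := by linear_combination hd2 + hd1
    rw [e2, e1] at hηη
    refine h.nonunit ((-(η ^ 2 * (d + d') + η ^ 2 * d + η * d * (d + d') * x) - t * η ^ 2 +
      t * η) * ε' ^ 3) ?_ ?_
    · refine Subring.mul_mem _ (Subring.add_mem _ (Subring.sub_mem _ (Subring.neg_mem _
        (Subring.add_mem _ (Subring.add_mem _ ?_ ?_) ?_)) ?_) ?_) (Subring.pow_mem _ hε' _)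
      · exact Subring.mul_mem _ (Subring.pow_mem _ hη _) (Subring.add_mem _ hd hd')
      · exact Subring.mul_mem _ (Subring.pow_mem _ hη _) hd
      · exact Subring.mul_mem _ (Subring.mul_mem _ (Subring.mul_mem _ hη hd)
          (Subring.add_mem _ hd hd')) hx
      · exact Subring.mul_mem _ ht (Subring.pow_mem _ hη _)
      · exact Subring.mul_mem _ ht hη
    · rw [← hxdef]
      have h5 : x * (-(η ^ 2 * (d + d') + η ^ 2 * d + η * d * (d + d') * x) - t * η ^ 2 + t * η) =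
          ε ^ 3 := by
        rw [hε1]
        linear_combination (η ^ 2 - η) * h4 - hηη
      have h6 : (ε * ε') ^ 3 = 1 := by rw [hεε, one_pow]
      linear_combination ε' ^ 3 * h5 + h6
-- END G4d3

end Pool.Agent.Lib.MP_6a3dac_ag.W3
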