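import Mathlib

/-!
# Automorphisms of order three: twisted traces
-/

set_option autoImplicit false
set_option linter.unusedSectionVars false
set_option linter.unusedVariables false

namespace Pool.Agent.Lib.MP_6a3dac_ag.W3

section Tw

variable {X : Type} [CommRing X] (τ : X →+* X)

/-- The twisted trace. -/
def tw (θ a : X) : X := a + θ * τ a + θ * τ θ * τ (τ a)

variable {τ}

/-- The twisted traces are eigenvectors. -/
theorem tw_eig (hτ : ∀ a, τ (τ (τ a)) = a) {θ κ : X} (hn : θ * τ θ * τ (τ θ) = 1) (h : θ * κ = 1)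
    (a : X) : τ (tw τ θ a) = κ * tw τ θ a := by
  have h1 : τ θ * τ (τ θ) = κ := by linear_combination κ * hn - τ θ * τ (τ θ) * h
  simp only [tw, map_add, map_mul, hτ]
  linear_combination a * h1 - (τ a + τ θ * τ (τ a)) * h

/-- Twisted traces of multiples of eigenvectors (`κ` arbitrary). -/
theorem tw_mul {g κ : X} (hg : τ g = κ * g) (θ c : X) : tw τ θ (c * g) = tw τ (θ * κ) c * g := by
  simp only [tw, map_mul, hg]
  ring

theorem tw_add (θ a b : X) : tw τ θ (a + b) = tw τ θ a + tw τ θ b := by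
  simp only [tw, map_add]
  ring

theorem tw_one (a : X) : tw τ 1 a = a + τ a + τ (τ a) := by
  simp only [tw, map_one]
  ring

/-- If `θ κ = 1` then `tw θ g = 3 g` for the eigenvectors `g` with `τ g = κ g`. -/
theorem tw_self {g κ θ : X} (hg : τ g = κ * g) (h : θ * κ = 1) : tw τ θ g = 3 * g := by
  have h1 := congrArg τ h
  rw [map_mul, map_one] at h1
  simp only [tw, map_mul, hg]
  linear_combination (θ * κ * g) * h1 + (2 * g) * h

theorem map_tw {Y : Type} [CommRing Y] {τ' : Y →+* Y} (φ : X →+* Y) (h : ∀ a, φ (τ a) = τ' (φ a))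
    (θ a : X) : φ (tw τ θ a) = tw τ' (φ θ) (φ a) := by
  simp only [tw, map_add, map_mul, h]

end Tw

/-- The arithmetic data of a tamely ramified automorphism of order three. -/
structure TEta {X : Type} [CommRing X] (τ : X →+* X) (η η' ϖ : X) : Prop where
  cube : ∀ a, τ (τ (τ a)) = a
  norm : η * τ η * τ (τ η) = 1
  inv : η * η' = 1
  sub : IsUnit (η - 1)
  add : IsUnit (η + 1)
  quad : ∃ a, η ^ 2 + η + 1 = a * ϖ
  unif : τ ϖ = η * ϖ
  three : IsUnit (3 : X)
  map : ∃ a, τ η - η = a * ϖ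

namespace TEta

variable {X : Type} [CommRing X] {τ : X →+* X} {η η' ϖ : X} (h : TEta τ η η' ϖ)
include h

theorem inv₁ : τ η * τ η' = 1 := by
  rw [← map_mul, h.inv, map_one]

theorem inv₂ : τ (τ η) * τ (τ η') = 1 := by
  rw [← map_mul, h.inv₁, map_one]

/-- The norm of `η'` is one. -/
theorem norm' : η' * τ η' * τ (τ η') = 1 := by
  have h1 := h.inv
  have h2 := h.inv₁
  have h3 := h.inv₂
  have h4 := h.norm
  have h5 : (η * η') * (τ η * τ η') * (τ (τ η) * τ (τ η')) = 1 := by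
    rw [h1, h2, h3]
    ring
  linear_combination h5 - (η' * τ η' * τ (τ η')) * h4

theorem norm_sq : η ^ 2 * τ (η ^ 2) * τ (τ (η ^ 2)) = 1 := by
  simp only [map_pow]
  linear_combination (η * τ η * τ (τ η) + 1) * h.norm

theorem norm_sq' : η' ^ 2 * τ (η' ^ 2) * τ (τ (η' ^ 2)) = 1 := by
  simp only [map_pow]
  linear_combination (η' * τ η' * τ (τ η') + 1) * h.norm'

theorem isUnit : IsUnit η := IsUnit.of_mul_eq_one _ h.inv

theorem isUnit' : IsUnit η' := IsUnit.of_mul_eq_one _ (by rw [mul_comm]; exact h.inv)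

theorem sub_sq : IsUnit (η ^ 2 - 1) := by
  have h1 : η ^ 2 - 1 = (η - 1) * (η + 1) := by ring
  rw [h1]
  exact h.sub.mul h.add

theorem sub' : IsUnit (η' - 1) := by
  have h1 : η' - 1 = -η' * (η - 1) := by linear_combination h.inv
  rw [h1]
  exact h.isUnit'.neg.mul h.sub

theorem inv_sub_sq : ∃ a, η' - η ^ 2 = a * ϖ := by
  obtain ⟨a, ha⟩ := h.quad
  refine ⟨-η' * (η - 1) * a, ?_⟩
  linear_combination (-η' * (η - 1)) * ha + η ^ 2 * h.inv

/-- `tw η'` has the eigenvalue `η`. -/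
theorem tw1 (a : X) : τ (tw τ η' a) = η * tw τ η' a :=
  tw_eig h.cube h.norm' (by rw [mul_comm]; exact h.inv) a

/-- `tw (η' ^ 2)` has the eigenvalue `η ^ 2`. -/
theorem tw2 (a : X) : τ (tw τ (η' ^ 2) a) = η ^ 2 * tw τ (η' ^ 2) a :=
  tw_eig h.cube h.norm_sq' (by rw [← mul_pow, mul_comm, h.inv, one_pow]) a

/-- `tw η` has the eigenvalue `η'`. -/
theorem tw3 (a : X) : τ (tw τ η a) = η' * tw τ η a :=
  tw_eig h.cube h.norm h.inv a

theorem tr (a : X) : τ (tw τ 1 a) = tw τ 1 a := by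
  rw [tw_one, map_add, map_add, h.cube]
  ring

theorem map' : ∃ a, τ η' - η' = a * ϖ := by
  obtain ⟨a, ha⟩ := h.map
  refine ⟨-η' * τ η' * a, ?_⟩
  linear_combination (-η' * τ η') * ha - τ η' * h.inv + η' * h.inv₁

theorem quad' : ∃ a, η' ^ 2 + η' + 1 = a * ϖ := by
  obtain ⟨a, ha⟩ := h.quad
  refine ⟨η' ^ 2 * a, ?_⟩
  linear_combination η' ^ 2 * ha - (η * η' + 1 + η') * h.inv

omit h in
/-- **The decomposition into eigenvectors** modulo `ϖ`. -/
theorem three_eq_aux {b q : X} (hb : τ η' - η' = b * ϖ) (hq : η' ^ 2 + η' + 1 = q * ϖ) (a : X) :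
    3 * a = tw τ 1 a + tw τ η' a + tw τ (η' ^ 2) a + (-q * τ a +
      -(q * (1 - η' + η' ^ 2) + η' * b + η' ^ 2 * (τ η' + η') * b) * τ (τ a)) * ϖ := by
  simp only [tw, map_one, map_pow]
  linear_combination (-(τ a) - τ (τ a) * (1 - η' + η' ^ 2)) * hq -
    (η' * τ (τ a) + η' ^ 2 * (τ η' + η') * τ (τ a)) * hb

theorem three_eq : ∃ c₁ c₂, ∀ a, 3 * a =
    tw τ 1 a + tw τ η' a + tw τ (η' ^ 2) a + (c₁ * τ a + c₂ * τ (τ a)) * ϖ := by
  obtain ⟨b, hb⟩ := h.map'
  obtain ⟨q, hq⟩ := h.quad'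
  exact ⟨_, _, fun a => three_eq_aux hb hq a⟩

/-- The differences. -/
theorem three_sub (a : X) : ∃ c, 3 * (τ a - a) =
    (η - 1) * tw τ η' a + (η ^ 2 - 1) * tw τ (η' ^ 2) a + c * ϖ := by
  obtain ⟨c₁, c₂, hc⟩ := h.three_eq
  have h1 := hc a
  have h2 := congrArg τ h1
  simp only [map_mul, map_add, h.tw1, h.tw2, h.tr, h.unif] at h2
  rw [map_ofNat] at h2
  refine ⟨(τ c₁ * τ (τ a) + τ c₂ * τ (τ (τ a))) * η - (c₁ * τ a + c₂ * τ (τ a)), ?_⟩
  linear_combination h2 - h1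

end TEta

end Pool.Agent.Lib.MP_6a3dac_ag.W3
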