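import Pool.Agent.Lib.MP_6a3dac_ag.W3.G5a
import Pool.Agent.Lib.MP_6a3dac_ag.QD.Tame

/-!
# Automorphisms of order three of regular local rings, `3` invertible: parameters
-/

set_option autoImplicit false
set_option linter.unusedSectionVars false
set_option linter.unusedVariables false

namespace Pool.Agent.Lib.MP_6a3dac_ag.W3

open Pool.Agent.Lib.MP_6a3dac_ag Pool.Agent.Lib.MP_6a3dac_ag.QD IsLocalRing

variable {A : Type} [CommRing A] [IsRegularLocalRing A] {τ : A →+* A} {η η' ϖ : A}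

-- BEGIN G5b1
/-- TASK G5b1. The eigenvectors generate the maximal ideal (the model is `l2_span` in QD/Tame.lean): for
`a ∈ 𝔪` use `h.three_eq` (`3` is a unit, `τ a ∈ 𝔪` by `htriv`, so the twisted traces of `a` lie in `𝔪`)
with `h.tw1`, `h.tw2`, `h.tr`; `ϖ ∈ 𝔪` is an eigenvector with `τ ϖ = η ϖ`. -/
theorem span_eigen3 (h : TEta τ η η' ϖ) (hϖ : ϖ ∈ maximalIdeal A)
    (htriv : ∀ a, τ a - a ∈ maximalIdeal A) :
    Ideal.span ({y | y ∈ maximalIdeal A ∧ τ y = η * y} ∪ ({y | y ∈ maximalIdeal A ∧ τ y = η ^ 2 * y} ∪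
      {y | y ∈ maximalIdeal A ∧ τ y = y})) = maximalIdeal A := by
  apply le_antisymm
  · rw [Ideal.span_le]
    rintro y (hy | hy | hy)
    · exact hy.1
    · exact hy.1
    · exact hy.1
  · intro a ha
    have hmax : ∀ b ∈ maximalIdeal A, τ b ∈ maximalIdeal A := by
      intro b hb
      have h1 := (maximalIdeal A).add_mem (htriv b) hb
      rwa [sub_add_cancel] at h1
    have htw : ∀ θ : A, tw τ θ a ∈ maximalIdeal A := fun θ =>
      (maximalIdeal A).add_mem ((maximalIdeal A).add_mem ha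
        ((maximalIdeal A).mul_mem_left _ (hmax a ha)))
        ((maximalIdeal A).mul_mem_left _ (hmax _ (hmax a ha)))
    obtain ⟨c₁, c₂, hc⟩ := h.three_eq
    rw [← Ideal.unit_mul_mem_iff_mem _ h.three, hc a]
    refine Ideal.add_mem _ (Ideal.add_mem _ (Ideal.add_mem _ ?_ ?_) ?_)
      (Ideal.mul_mem_left _ _ ?_)
    · exact Ideal.subset_span (Or.inr (Or.inr ⟨htw _, h.tr a⟩))
    · exact Ideal.subset_span (Or.inl ⟨htw _, h.tw1 a⟩)
    · exact Ideal.subset_span (Or.inr (Or.inl ⟨htw _, h.tw2 a⟩))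
    · exact Ideal.subset_span (Or.inl ⟨hϖ, h.unif⟩)
-- END G5b1

-- BEGIN G5b2
theorem g5b2_max (htriv : ∀ a, τ a - a ∈ maximalIdeal A) {a : A}
    (ha : a ∈ maximalIdeal A) : τ a ∈ maximalIdeal A := by
  have h1 := (maximalIdeal A).add_mem (htriv a) ha
  rwa [sub_add_cancel] at h1

theorem g5b2_one (htriv : ∀ a, τ a - a ∈ maximalIdeal A) {s₁ s₂ t : Set A} {κ₁ κ₂ : A}
    (hs₁ : ∀ y ∈ s₁, τ y = κ₁ * y) (hs₂ : ∀ y ∈ s₂, τ y = κ₂ * y) (ht : ∀ y ∈ t, τ y = y)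
    (hst : Ideal.span (s₁ ∪ (s₂ ∪ t)) = maximalIdeal A) {b : A} (hb : b ∈ maximalIdeal A) :
    τ b - b ∈ maximalIdeal A ^ 2 ⊔ Ideal.span (s₁ ∪ s₂) := by
  have key : ∀ b ∈ Ideal.span (s₁ ∪ (s₂ ∪ t)),
      τ b - b ∈ maximalIdeal A ^ 2 ⊔ Ideal.span (s₁ ∪ s₂) := by
    intro b hb
    induction hb using Submodule.span_induction with
    | mem y hy =>
      rcases hy with hy | hy | hy
      · apply Ideal.mem_sup_right
        rw [hs₁ y hy]
        have h1 : y ∈ Ideal.span (s₁ ∪ s₂) := Ideal.subset_span (Or.inl hy)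
        exact Ideal.sub_mem _ (Ideal.mul_mem_left _ _ h1) h1
      · apply Ideal.mem_sup_right
        rw [hs₂ y hy]
        have h1 : y ∈ Ideal.span (s₁ ∪ s₂) := Ideal.subset_span (Or.inr hy)
        exact Ideal.sub_mem _ (Ideal.mul_mem_left _ _ h1) h1
      · rw [ht y hy, sub_self]
        exact Ideal.zero_mem _
    | zero =>
      rw [map_zero, sub_self]
      exact Ideal.zero_mem _
    | add x y _ _ hx hy =>
      have e : τ (x + y) - (x + y) = (τ x - x) + (τ y - y) := by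
        rw [map_add]
        ring
      rw [e]
      exact Ideal.add_mem _ hx hy
    | smul r y hy' hy =>
      have e : τ (r • y) - r • y = (τ r - r) * τ y + r * (τ y - y) := by
        rw [smul_eq_mul, map_mul]
        ring
      rw [e]
      have hym : y ∈ maximalIdeal A := by
        rw [← hst]
        exact hy'
      refine Ideal.add_mem _ (Ideal.mem_sup_left ?_) (Ideal.mul_mem_left _ _ hy)
      rw [pow_two]
      exact Ideal.mul_mem_mul (htriv r) (g5b2_max htriv hym)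
  exact key b (by rw [hst]; exact hb)

/-- TASK G5b2. The model is `l2_pow` in QD/Tame.lean (with `l2_max`, `l2_one`), `J = (s₁ ∪ s₂)`:
`τ h - h ∈ 𝔪 ^ (k + 1) ⊔ J` for `h ∈ 𝔪 ^ k`; for `y ∈ s₁`, `τ y - y = (η - 1) y ∈ J`. -/
theorem diff_pow3 (htriv : ∀ a, τ a - a ∈ maximalIdeal A) {s₁ s₂ t : Set A} {κ₁ κ₂ : A}
    (hs₁ : ∀ y ∈ s₁, τ y = κ₁ * y) (hs₂ : ∀ y ∈ s₂, τ y = κ₂ * y) (ht : ∀ y ∈ t, τ y = y)
    (hst : Ideal.span (s₁ ∪ (s₂ ∪ t)) = maximalIdeal A) (k : ℕ) :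
    ∀ a ∈ maximalIdeal A ^ k, τ a - a ∈ maximalIdeal A ^ (k + 1) ⊔ Ideal.span (s₁ ∪ s₂) := by
  induction k with
  | zero =>
    intro h _
    apply Ideal.mem_sup_left
    rw [zero_add, pow_one]
    exact htriv h
  | succ k ih =>
    intro h hh
    rw [pow_succ] at hh
    induction hh using Submodule.mul_induction_on' with
    | mem_mul_mem a ha b hb =>
      have e : τ (a * b) - a * b = (τ a - a) * τ b + a * (τ b - b) := by
        rw [map_mul]
        ring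
      rw [e]
      apply Ideal.add_mem
      · obtain ⟨u, hu, v, hv, huv⟩ := Submodule.mem_sup.1 (ih a ha)
        rw [← huv, add_mul]
        apply Ideal.add_mem
        · apply Ideal.mem_sup_left
          rw [pow_succ]
          exact Ideal.mul_mem_mul hu (g5b2_max htriv hb)
        · apply Ideal.mem_sup_right
          exact Ideal.mul_mem_right _ _ hv
      · obtain ⟨u, hu, v, hv, huv⟩ := Submodule.mem_sup.1 (g5b2_one htriv hs₁ hs₂ ht hst hb)
        rw [← huv, mul_add]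
        apply Ideal.add_mem
        · apply Ideal.mem_sup_left
          rw [show k + 1 + 1 = k + 2 from rfl, pow_add]
          exact Ideal.mul_mem_mul ha hu
        · apply Ideal.mem_sup_right
          exact Ideal.mul_mem_left _ _ hv
    | add x hx y hy hx' hy' =>
      have e : τ (x + y) - (x + y) = (τ x - x) + (τ y - y) := by
        rw [map_add]
        ring
      rw [e]
      exact Ideal.add_mem _ hx' hy'

theorem g5b2_J {s₁ s₂ : Set A} {κ₁ κ₂ : A} (hs₁ : ∀ y ∈ s₁, τ y = κ₁ * y)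
    (hs₂ : ∀ y ∈ s₂, τ y = κ₂ * y) : ∀ j ∈ Ideal.span (s₁ ∪ s₂), τ j ∈ Ideal.span (s₁ ∪ s₂) := by
  intro j hj
  induction hj using Submodule.span_induction with
  | mem y hy =>
    rcases hy with hy | hy
    · rw [hs₁ y hy]
      exact Ideal.mul_mem_left _ _ (Ideal.subset_span (Or.inl hy))
    · rw [hs₂ y hy]
      exact Ideal.mul_mem_left _ _ (Ideal.subset_span (Or.inr hy))
  | zero =>
    rw [map_zero]
    exact Ideal.zero_mem _
  | add x y _ _ hx hy =>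
    rw [map_add]
    exact Ideal.add_mem _ hx hy
  | smul r y _ hy =>
    rw [smul_eq_mul, map_mul]
    exact Ideal.mul_mem_left _ _ hy

theorem g5b2_krull {J : Ideal A} {g : A} (h : ∀ k : ℕ, g ∈ maximalIdeal A ^ k ⊔ J) :
    g ∈ J := by
  have h1 := Ideal.iInf_pow_smul_eq_bot_of_isLocalRing (M := A ⧸ J) (maximalIdeal A)
    (Ideal.IsPrime.ne_top')
  have h2 : (Ideal.Quotient.mk J g : A ⧸ J) ∈
      (⨅ i : ℕ, maximalIdeal A ^ i • (⊤ : Submodule A (A ⧸ J))) := by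
    rw [Submodule.mem_iInf]
    intro i
    obtain ⟨u, hu, v, hv, huv⟩ := Submodule.mem_sup.1 (h i)
    have h3 : (Ideal.Quotient.mk J g : A ⧸ J) = u • (1 : A ⧸ J) := by
      rw [← huv, map_add, Ideal.Quotient.eq_zero_iff_mem.2 hv, add_zero, Algebra.smul_def, mul_one]
      rfl
    rw [h3]
    exact Submodule.smul_mem_smul hu Submodule.mem_top
  rw [h1, Submodule.mem_bot] at h2
  exact Ideal.Quotient.eq_zero_iff_mem.1 h2

/-- TASK G5b2. The eigenvectors with an eigenvalue `κ`, `κ - 1` a unit, lie in `J = (s₁ ∪ s₂)`: the models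
are `l2_anti` and `l2_krull` in QD/Tame.lean (`l2_J`: `τ J ⊆ J`): if `g ∈ 𝔪 ^ k ⊔ J` then
`(κ - 1) g = τ g - g ∈ 𝔪 ^ (k + 1) ⊔ J`. -/
theorem eigen_mem3 (htriv : ∀ a, τ a - a ∈ maximalIdeal A) {s₁ s₂ t : Set A} {κ₁ κ₂ : A}
    (hs₁ : ∀ y ∈ s₁, τ y = κ₁ * y) (hs₂ : ∀ y ∈ s₂, τ y = κ₂ * y) (ht : ∀ y ∈ t, τ y = y)
    (hst : Ideal.span (s₁ ∪ (s₂ ∪ t)) = maximalIdeal A) {κ g : A} (hκ : IsUnit (κ - 1))
    (hg : τ g = κ * g) : g ∈ Ideal.span (s₁ ∪ s₂) := by
  refine g5b2_krull fun k => ?_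
  induction k with
  | zero =>
    apply Ideal.mem_sup_left
    rw [pow_zero, Ideal.one_eq_top]
    exact Submodule.mem_top
  | succ k ih =>
    obtain ⟨u, hu, v, hv, huv⟩ := Submodule.mem_sup.1 ih
    have h3 : τ g - g ∈ maximalIdeal A ^ (k + 1) ⊔ Ideal.span (s₁ ∪ s₂) := by
      have e : τ g - g = (τ u - u) + (τ v - v) := by
        rw [← huv, map_add]
        ring
      rw [e]
      apply Ideal.add_mem
      · exact diff_pow3 htriv hs₁ hs₂ ht hst k u hu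
      · exact Ideal.mem_sup_right (Ideal.sub_mem _ (g5b2_J hs₁ hs₂ v hv) hv)
    obtain ⟨w, hw⟩ := hκ
    have h4 : g = (↑w⁻¹ : A) * (τ g - g) := by
      have h5 : τ g - g = (w : A) * g := by
        rw [hg, hw]
        ring
      rw [h5, ← mul_assoc, Units.inv_mul, one_mul]
    rw [h4]
    exact Ideal.mul_mem_left _ _ h3
-- END G5b2

-- BEGIN G5b3
/-- TASK G5b3. Eigenparameters. `exists_par_subset` (QD/Tame.lean) with `span_eigen3` gives `u`; `s₁`, `s₂`,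
`t` are the parts of `u` with `τ y = η y`, with `τ y ≠ η y` and `τ y = η ^ 2 y`, and the rest. The last
statement: `h.three_sub a`, where `tw τ η' a`, `tw τ (η' ^ 2) a` and `ϖ` lie in `(s₁ ∪ s₂)` by
`eigen_mem3` (`h.sub`, `h.sub_sq`), and `3` is a unit. -/
theorem exists_tame_par3 [DecidableEq A] (h : TEta τ η η' ϖ) (hϖ : ϖ ∈ maximalIdeal A)
    (htriv : ∀ a, τ a - a ∈ maximalIdeal A) :
    ∃ s₁ s₂ t : Finset A, (∀ y ∈ s₁, τ y = η * y) ∧ (∀ y ∈ s₂, τ y = η ^ 2 * y) ∧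
      (∀ y ∈ t, τ y = y) ∧ Disjoint s₁ s₂ ∧
      Ideal.span ((s₁ ∪ (s₂ ∪ t) : Finset A) : Set A) = maximalIdeal A ∧
      (((s₁ ∪ (s₂ ∪ t)).card : ℕ) : WithBot ℕ∞) ≤ ringKrullDim A ∧
      ∀ a, τ a - a ∈ Ideal.span ((s₁ : Set A) ∪ s₂) := by
  obtain ⟨u, hu, hu1, hu2⟩ := exists_par_subset (span_eigen3 h hϖ htriv)
  obtain ⟨s₁, hs₁⟩ : ∃ s₁ : Finset A, s₁ = u.filter (fun y => τ y = η * y) := ⟨_, rfl⟩
  obtain ⟨u', hu'⟩ : ∃ u' : Finset A, u' = u.filter (fun y => ¬ τ y = η * y) := ⟨_, rfl⟩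
  obtain ⟨s₂, hs₂⟩ : ∃ s₂ : Finset A, s₂ = u'.filter (fun y => τ y = η ^ 2 * y) := ⟨_, rfl⟩
  obtain ⟨t, ht⟩ : ∃ t : Finset A, t = u'.filter (fun y => ¬ τ y = η ^ 2 * y) := ⟨_, rfl⟩
  have hun' : s₂ ∪ t = u' := by
    rw [hs₂, ht]
    exact Finset.filter_union_filter_not_eq _ _
  have hun : s₁ ∪ (s₂ ∪ t) = u := by
    rw [hun', hs₁, hu']
    exact Finset.filter_union_filter_not_eq _ _
  have h1 : ∀ y ∈ s₁, τ y = η * y := fun y hy => by
    rw [hs₁] at hy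
    exact (Finset.mem_filter.1 hy).2
  have h2 : ∀ y ∈ s₂, τ y = η ^ 2 * y := fun y hy => by
    rw [hs₂] at hy
    exact (Finset.mem_filter.1 hy).2
  have h3 : ∀ y ∈ t, τ y = y := fun y hy => by
    rw [ht, hu'] at hy
    obtain ⟨h4, h5⟩ := Finset.mem_filter.1 hy
    obtain ⟨h6, h7⟩ := Finset.mem_filter.1 h4
    rcases hu h6 with h8 | h8 | h8
    · exact absurd h8.2 h7
    · exact absurd h8.2 h5
    · exact h8.2
  have hdis : Disjoint s₁ s₂ := by
    rw [Finset.disjoint_left]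
    intro y hy hy2
    rw [hs₂, hu'] at hy2
    exact (Finset.mem_filter.1 (Finset.mem_filter.1 hy2).1).2 (h1 y hy)
  refine ⟨s₁, s₂, t, h1, h2, h3, hdis, by rw [hun]; exact hu1, by rw [hun]; exact hu2, ?_⟩
  intro a
  have hst : Ideal.span ((s₁ : Set A) ∪ ((s₂ : Set A) ∪ (t : Set A))) = maximalIdeal A := by
    rw [← Finset.coe_union, ← Finset.coe_union, hun]
    exact hu1
  have k1 : ∀ y ∈ (s₁ : Set A), τ y = η * y := fun y hy => h1 y (Finset.mem_coe.1 hy)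
  have k2 : ∀ y ∈ (s₂ : Set A), τ y = η ^ 2 * y := fun y hy => h2 y (Finset.mem_coe.1 hy)
  have k3 : ∀ y ∈ (t : Set A), τ y = y := fun y hy => h3 y (Finset.mem_coe.1 hy)
  have e1 := eigen_mem3 htriv k1 k2 k3 hst h.sub (h.tw1 a)
  have e2 := eigen_mem3 htriv k1 k2 k3 hst h.sub_sq (h.tw2 a)
  have e3 := eigen_mem3 htriv k1 k2 k3 hst h.sub h.unif
  obtain ⟨c, hc⟩ := h.three_sub a
  obtain ⟨w, hw⟩ := h.three.exists_right_inv
  have e4 : 3 * (τ a - a) ∈ Ideal.span ((s₁ : Set A) ∪ s₂) := by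
    rw [hc]
    exact Ideal.add_mem _ (Ideal.add_mem _ (Ideal.mul_mem_left _ _ e1) (Ideal.mul_mem_left _ _ e2))
      (Ideal.mul_mem_left _ _ e3)
  have e5 : τ a - a = w * (3 * (τ a - a)) := by linear_combination -(τ a - a) * hw
  rw [e5]
  exact Ideal.mul_mem_left _ _ e4
-- END G5b3

end Pool.Agent.Lib.MP_6a3dac_ag.W3
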