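import Pool.Agent.Lib.MP_6a3dac_ag.W3.G5a

/-!
# The second ideal which is blown up, tame case
-/

set_option autoImplicit false
set_option linter.unusedSectionVars false
set_option linter.unusedVariables false

namespace Pool.Agent.Lib.MP_6a3dac_ag.W3

variable {A : Type} [CommRing A]

/-- The ideal `(G₁ G₂, G₁ ^ 3, G₂ ^ 3)`. -/
def kT (G₁ G₂ : Set A) : Ideal A :=
  Ideal.span G₁ * Ideal.span G₂ ⊔ (Ideal.span G₁ ^ 3 ⊔ Ideal.span G₂ ^ 3)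

theorem kT_comm (G₁ G₂ : Set A) : kT G₁ G₂ = kT G₂ G₁ := by
  unfold kT
  rw [mul_comm, sup_comm (Ideal.span G₁ ^ 3)]

-- BEGIN G5c1
/-- TASK G5c1. `Ideal.mul_mem_mul`, `Ideal.mem_sup_left`, `Ideal.subset_span`. -/
theorem mul_mem_kT {G₁ G₂ : Set A} {a b : A} (ha : a ∈ Ideal.span G₁) (hb : b ∈ Ideal.span G₂) :
    a * b ∈ kT G₁ G₂ :=
  Ideal.mem_sup_left (Ideal.mul_mem_mul ha hb)

/-- TASK G5c1. -/
theorem cube_mem_kT {G₁ G₂ : Set A} {a b c : A} (ha : a ∈ Ideal.span G₁) (hb : b ∈ Ideal.span G₁)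
    (hc : c ∈ Ideal.span G₁) : a * b * c ∈ kT G₁ G₂ := by
  refine Ideal.mem_sup_right (Ideal.mem_sup_left ?_)
  rw [pow_succ, pow_two]
  exact Ideal.mul_mem_mul (Ideal.mul_mem_mul ha hb) hc

/-- TASK G5c1. -/
theorem cube_mem_kT' {G₁ G₂ : Set A} {a b c : A} (ha : a ∈ Ideal.span G₂) (hb : b ∈ Ideal.span G₂)
    (hc : c ∈ Ideal.span G₂) : a * b * c ∈ kT G₁ G₂ := by
  refine Ideal.mem_sup_right (Ideal.mem_sup_right ?_)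
  rw [pow_succ, pow_two]
  exact Ideal.mul_mem_mul (Ideal.mul_mem_mul ha hb) hc

theorem g5c1_cube {G : Set A} {J : Ideal A} (h : ∀ a ∈ G, ∀ b ∈ G, ∀ c ∈ G, a * b * c ∈ J) :
    Ideal.span G ^ 3 ≤ J := by
  rw [pow_succ, pow_two, Ideal.span_mul_span', Ideal.span_mul_span', Ideal.span_le]
  intro x hx
  obtain ⟨y, hy, c, hc, rfl⟩ := Set.mem_mul.mp hx
  obtain ⟨a, ha, b, hb, rfl⟩ := Set.mem_mul.mp hy
  exact h a ha b hb c hc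

/-- TASK G5c1. To be contained in an ideal, it suffices to check products of generators
(`Ideal.span_mul_span'`, `pow_succ`, `Ideal.mul_le`, `Submodule.mul_induction_on'`, or
`Ideal.span_mul_span` twice). -/
theorem kT_le {G₁ G₂ : Set A} {J : Ideal A} (h1 : ∀ a ∈ G₁, ∀ b ∈ G₂, a * b ∈ J)
    (h2 : ∀ a ∈ G₁, ∀ b ∈ G₁, ∀ c ∈ G₁, a * b * c ∈ J)
    (h3 : ∀ a ∈ G₂, ∀ b ∈ G₂, ∀ c ∈ G₂, a * b * c ∈ J) : kT G₁ G₂ ≤ J := by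
  refine sup_le ?_ (sup_le (g5c1_cube h2) (g5c1_cube h3))
  rw [Ideal.span_mul_span', Ideal.span_le]
  intro x hx
  obtain ⟨a, ha, b, hb, rfl⟩ := Set.mem_mul.mp hx
  exact h1 a ha b hb
-- END G5c1

-- BEGIN G5c2
theorem g5c2_aux (N₁ N₂ : Ideal A) : N₁ * N₂ ≤ N₁ * N₂ ⊔ (N₁ ^ 3 ⊔ N₂ ^ 3) ∧
    (N₁ ⊔ N₂ ^ 2) ^ 3 ≤ N₁ * N₂ ⊔ (N₁ ^ 3 ⊔ N₂ ^ 3) ∧
    (N₁ ⊔ N₂ ^ 2) * (N₂ ⊔ N₁ ^ 2) ≤ N₁ * N₂ ⊔ (N₁ ^ 3 ⊔ N₂ ^ 3) := by
  have hA : ∀ X : Ideal A, N₁ * N₂ * X ≤ N₁ * N₂ ⊔ (N₁ ^ 3 ⊔ N₂ ^ 3) := fun X =>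
    Ideal.mul_le_left.trans le_sup_left
  have hB : ∀ X : Ideal A, N₁ ^ 3 * X ≤ N₁ * N₂ ⊔ (N₁ ^ 3 ⊔ N₂ ^ 3) := fun X =>
    Ideal.mul_le_left.trans (le_sup_left.trans le_sup_right)
  have hC : ∀ X : Ideal A, N₂ ^ 3 * X ≤ N₁ * N₂ ⊔ (N₁ ^ 3 ⊔ N₂ ^ 3) := fun X =>
    Ideal.mul_le_left.trans (le_sup_right.trans le_sup_right)
  refine ⟨le_sup_left, ?_, ?_⟩
  · rw [pow_succ, pow_two]
    simp only [Ideal.sup_mul, Ideal.mul_sup]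
    have t1 : N₁ * N₁ * N₁ = N₁ ^ 3 * 1 := by ring
    have t2 : N₂ ^ 2 * N₁ * N₁ = N₁ * N₂ * (N₂ * N₁) := by ring
    have t3 : N₁ * N₂ ^ 2 * N₁ = N₁ * N₂ * (N₂ * N₁) := by ring
    have t4 : N₂ ^ 2 * N₂ ^ 2 * N₁ = N₁ * N₂ * (N₂ ^ 3) := by ring
    have t5 : N₁ * N₁ * N₂ ^ 2 = N₁ * N₂ * (N₂ * N₁) := by ring
    have t6 : N₂ ^ 2 * N₁ * N₂ ^ 2 = N₁ * N₂ * (N₂ ^ 3) := by ring
    have t7 : N₁ * N₂ ^ 2 * N₂ ^ 2 = N₁ * N₂ * (N₂ ^ 3) := by ring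
    have t8 : N₂ ^ 2 * N₂ ^ 2 * N₂ ^ 2 = N₂ ^ 3 * N₂ ^ 3 := by ring
    rw [t1, t2, t3, t4, t5, t6, t7, t8]
    simp only [sup_le_iff]
    simp only [hA, hB, hC, and_self]
  · simp only [Ideal.sup_mul, Ideal.mul_sup]
    have t1 : N₁ * N₁ ^ 2 = N₁ ^ 3 * 1 := by ring
    have t2 : N₂ ^ 2 * N₂ = N₂ ^ 3 * 1 := by ring
    have t3 : N₂ ^ 2 * N₁ ^ 2 = N₁ * N₂ * (N₁ * N₂) := by ring
    have t4 : N₁ * N₂ ≤ N₁ * N₂ ⊔ (N₁ ^ 3 ⊔ N₂ ^ 3) := le_sup_left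
    rw [t1, t2, t3]
    simp only [sup_le_iff]
    exact ⟨⟨t4, hC 1⟩, hB 1, hA _⟩

/-- TASK G5c2. Let `N₁ = (S₁)`, `N₂ = (S₂)`. If `G₁ ⊆ N₁ + N₂ ^ 2` and `G₂ ⊆ N₂ + N₁ ^ 2` then
`kT G₁ G₂ ≤ kT S₁ S₂` (work with ideals: `Ideal.span G₁ ≤ N₁ ⊔ N₂ ^ 2`, and the products
`(N₁ ⊔ N₂ ^ 2) * (N₂ ⊔ N₁ ^ 2)`, `(N₁ ⊔ N₂ ^ 2) ^ 3`, `(N₂ ⊔ N₁ ^ 2) ^ 3` are contained in
`N₁ N₂ ⊔ (N₁ ^ 3 ⊔ N₂ ^ 3)`; e.g. expand with `Ideal.sup_mul`, `Ideal.mul_sup`, each term contains a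
factor `N₁ N₂` or `N₁ ^ 3` or `N₂ ^ 3`). -/
theorem kT_le_kT {G₁ G₂ S₁ S₂ : Set A}
    (h1 : ∀ g ∈ G₁, g ∈ Ideal.span S₁ ⊔ Ideal.span S₂ ^ 2)
    (h2 : ∀ g ∈ G₂, g ∈ Ideal.span S₂ ⊔ Ideal.span S₁ ^ 2) : kT G₁ G₂ ≤ kT S₁ S₂ := by
  have h1' : Ideal.span G₁ ≤ Ideal.span S₁ ⊔ Ideal.span S₂ ^ 2 := Ideal.span_le.mpr h1
  have h2' : Ideal.span G₂ ≤ Ideal.span S₂ ⊔ Ideal.span S₁ ^ 2 := Ideal.span_le.mpr h2
  obtain ⟨-, e1, e2⟩ := g5c2_aux (Ideal.span S₁) (Ideal.span S₂)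
  obtain ⟨-, e3, -⟩ := g5c2_aux (Ideal.span S₂) (Ideal.span S₁)
  unfold kT
  refine sup_le ((Ideal.mul_mono h1' h2').trans e2) (sup_le ((Ideal.pow_right_mono h1' 3).trans e1) ?_)
  refine (Ideal.pow_right_mono h2' 3).trans (e3.trans ?_)
  rw [mul_comm (Ideal.span S₂), sup_comm (Ideal.span S₂ ^ 3)]
-- END G5c2

variable {τ : A →+* A} {η η' ϖ : A}

-- BEGIN G5c3
/-- If a unit multiple of an element lies in an ideal, then so does the element. -/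
private theorem g5c3_unit {J : Ideal A} {u x : A} (hu : IsUnit u) (h : u * x ∈ J) : x ∈ J := by
  obtain ⟨v, hv⟩ := hu.exists_left_inv
  have h1 : x = v * (u * x) := by rw [← mul_assoc, hv, one_mul]
  rw [h1]
  exact J.mul_mem_left _ h

private theorem g5c3_mul {S₁ S₂ : Set A} {x g : A} (hx : x ∈ Ideal.span (S₁ ∪ S₂)) (hg : g ∈ S₂) :
    x * g ∈ Ideal.span S₁ ⊔ Ideal.span S₂ ^ 2 := by
  rw [Ideal.span_union] at hx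
  obtain ⟨a, ha, b, hb, rfl⟩ := Submodule.mem_sup.1 hx
  rw [add_mul]
  refine Ideal.add_mem _ (Ideal.mem_sup_left (Ideal.mul_mem_right _ _ ha))
    (Ideal.mem_sup_right ?_)
  rw [pow_two]
  exact Ideal.mul_mem_mul hb (Ideal.subset_span hg)

private theorem g5c3_zero (τ : A →+* A) (θ : A) : tw τ θ (0 : A) = 0 := by
  simp only [tw, map_zero]
  ring

/-- TASK G5c3. The eigenvectors in `(S₁ ∪ S₂)` modulo a square. Let `N₁ = (S₁)`, `N₂ = (S₂)`, `N = N₁ ⊔ N₂`.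
Claim: for all `a ∈ N`, `tw τ η' a ∈ N₁ ⊔ N₂ ^ 2` (by `Submodule.span_induction` for `a ∈ (S₁ ∪ S₂)` one
proves more precisely the claim for all multiples `c * a`; additive: `tw_add`; generators
`g ∈ S₁`: `tw τ η' (c g) = tw τ (η' η) c * g ∈ N₁` by `tw_mul`; `g ∈ S₂`:
`tw τ η' (c g) = tw τ (η' η ^ 2) c * g = tw τ η c * g` and `(η' - 1) tw τ η c = τ (tw τ η c) - tw τ η c` by
`h.tw3`, so `tw τ η c ∈ N` by `hN`, `h.sub'`, and `N N₂ ≤ N₁ ⊔ N₂ ^ 2`). Finally `tw τ η' g = 3 g`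
(`tw_self`) and `3` is a unit. -/
theorem eigen_mem_sup₁ (h : TEta τ η η' ϖ) {S₁ S₂ : Set A} (hS₁ : ∀ g ∈ S₁, τ g = η * g)
    (hS₂ : ∀ g ∈ S₂, τ g = η ^ 2 * g) (hN : ∀ a, τ a - a ∈ Ideal.span (S₁ ∪ S₂)) {g : A}
    (hg : τ g = η * g) (hgN : g ∈ Ideal.span (S₁ ∪ S₂)) :
    g ∈ Ideal.span S₁ ⊔ Ideal.span S₂ ^ 2 := by
  have key : ∀ a ∈ Ideal.span (S₁ ∪ S₂), ∀ c : A,
      tw τ η' (c * a) ∈ Ideal.span S₁ ⊔ Ideal.span S₂ ^ 2 := by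
    intro a ha
    refine Submodule.span_induction (p := fun a _ => ∀ c : A,
      tw τ η' (c * a) ∈ Ideal.span S₁ ⊔ Ideal.span S₂ ^ 2) ?_ ?_ ?_ ?_ ha
    · rintro x (hx | hx) c
      · rw [tw_mul (hS₁ x hx)]
        exact Ideal.mem_sup_left (Ideal.mul_mem_left _ _ (Ideal.subset_span hx))
      · rw [tw_mul (hS₂ x hx)]
        have h1 : η' * η ^ 2 = η := by linear_combination η * h.inv
        rw [h1]
        refine g5c3_mul ?_ hx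
        refine g5c3_unit h.sub' ?_
        have h2 : (η' - 1) * tw τ η c = τ (tw τ η c) - tw τ η c := by
          rw [h.tw3]
          ring
        rw [h2]
        exact hN _
    · intro c
      rw [mul_zero, g5c3_zero]
      exact Ideal.zero_mem _
    · intro x y _ _ hx hy c
      rw [mul_add, tw_add]
      exact Ideal.add_mem _ (hx c) (hy c)
    · intro r x _ hx c
      rw [smul_eq_mul, ← mul_assoc]
      exact hx (c * r)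
  have h1 := key g hgN 1
  rw [one_mul, tw_self hg (by rw [mul_comm]; exact h.inv)] at h1
  exact g5c3_unit h.three h1

/-- TASK G5c3. The same for the other eigenvalue, with `tw τ (η' ^ 2)`: `tw τ (η' ^ 2) (c g) =
tw τ (η' ^ 2 * η ^ 2) c * g` for `g ∈ S₂`, and `= tw τ η' c * g` for `g ∈ S₁`, `h.tw1`, `h.sub`. -/
theorem eigen_mem_sup₂ (h : TEta τ η η' ϖ) {S₁ S₂ : Set A} (hS₁ : ∀ g ∈ S₁, τ g = η * g)
    (hS₂ : ∀ g ∈ S₂, τ g = η ^ 2 * g) (hN : ∀ a, τ a - a ∈ Ideal.span (S₁ ∪ S₂)) {g : A}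
    (hg : τ g = η ^ 2 * g) (hgN : g ∈ Ideal.span (S₁ ∪ S₂)) :
    g ∈ Ideal.span S₂ ⊔ Ideal.span S₁ ^ 2 := by
  have key : ∀ a ∈ Ideal.span (S₁ ∪ S₂), ∀ c : A,
      tw τ (η' ^ 2) (c * a) ∈ Ideal.span S₂ ⊔ Ideal.span S₁ ^ 2 := by
    intro a ha
    refine Submodule.span_induction (p := fun a _ => ∀ c : A,
      tw τ (η' ^ 2) (c * a) ∈ Ideal.span S₂ ⊔ Ideal.span S₁ ^ 2) ?_ ?_ ?_ ?_ ha
    · rintro x (hx | hx) c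
      · rw [tw_mul (hS₁ x hx)]
        have h1 : η' ^ 2 * η = η' := by linear_combination η' * h.inv
        rw [h1]
        have h3 : tw τ η' c ∈ Ideal.span (S₂ ∪ S₁) := by
          rw [Set.union_comm]
          refine g5c3_unit h.sub ?_
          have h2 : (η - 1) * tw τ η' c = τ (tw τ η' c) - tw τ η' c := by
            rw [h.tw1]
            ring
          rw [h2]
          exact hN _
        exact g5c3_mul h3 hx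
      · rw [tw_mul (hS₂ x hx)]
        exact Ideal.mem_sup_left (Ideal.mul_mem_left _ _ (Ideal.subset_span hx))
    · intro c
      rw [mul_zero, g5c3_zero]
      exact Ideal.zero_mem _
    · intro x y _ _ hx hy c
      rw [mul_add, tw_add]
      exact Ideal.add_mem _ (hx c) (hy c)
    · intro r x _ hx c
      rw [smul_eq_mul, ← mul_assoc]
      exact hx (c * r)
  have h1 := key g hgN 1
  rw [one_mul, tw_self hg (by rw [← mul_pow, mul_comm, h.inv, one_pow])] at h1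
  exact g5c3_unit h.three h1
-- END G5c3

/-- The ideal does not depend on the generators. -/
theorem kT_eq (h : TEta τ η η' ϖ) {G₁ G₂ S₁ S₂ : Set A} (hG₁ : ∀ g ∈ G₁, τ g = η * g)
    (hG₂ : ∀ g ∈ G₂, τ g = η ^ 2 * g) (hS₁ : ∀ g ∈ S₁, τ g = η * g)
    (hS₂ : ∀ g ∈ S₂, τ g = η ^ 2 * g) (hG : Ideal.span (G₁ ∪ G₂) = Ideal.span (S₁ ∪ S₂))
    (hN : ∀ a, τ a - a ∈ Ideal.span (S₁ ∪ S₂)) : kT G₁ G₂ = kT S₁ S₂ := by
  have hsub₁ : ∀ {X Y : Set A}, ∀ g ∈ X, g ∈ Ideal.span (X ∪ Y) :=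
    fun {X Y} g hg => Ideal.subset_span (Set.mem_union_left _ hg)
  have hsub₂ : ∀ {X Y : Set A}, ∀ g ∈ Y, g ∈ Ideal.span (X ∪ Y) :=
    fun {X Y} g hg => Ideal.subset_span (Set.mem_union_right _ hg)
  have hN' : ∀ a, τ a - a ∈ Ideal.span (G₁ ∪ G₂) := fun a => hG ▸ hN a
  apply le_antisymm
  · exact kT_le_kT (fun g hg => eigen_mem_sup₁ h hS₁ hS₂ hN (hG₁ g hg) (hG ▸ hsub₁ g hg))
      (fun g hg => eigen_mem_sup₂ h hS₁ hS₂ hN (hG₂ g hg) (hG ▸ hsub₂ g hg))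
  · exact kT_le_kT (fun g hg => eigen_mem_sup₁ h hG₁ hG₂ hN' (hS₁ g hg) (hG ▸ hsub₁ g hg))
      (fun g hg => eigen_mem_sup₂ h hG₁ hG₂ hN' (hS₂ g hg) (hG ▸ hsub₂ g hg))

end Pool.Agent.Lib.MP_6a3dac_ag.W3
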