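import Pool.Agent.Lib.MP_6a3dac_ag.QD.ChDcl

/-!
# Families of elements which are part of a regular system of parameters
-/

set_option autoImplicit false
set_option linter.unusedSectionVars false
set_option linter.unusedVariables false

namespace Pool.Agent.Lib.MP_6a3dac_ag.W3

open IsLocalRing
open Pool.Agent.Lib.MP_6a3dac_ag Pool.Agent.Lib.MP_6a3dac_ag.QD

variable {D : Type} [CommRing D] [IsDomain D] [IsLocalRing D]

/-- The elements `f k` lie in the regular dominated subring `R`, and those of them which are not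
units of `D` are different elements of a regular system of parameters of `R`. -/
def PRS (R : Subring D) {κ : Type} (f : κ → D) : Prop :=
  ∃ s : Finset D, RSP R s ∧ (∀ k, f k ∈ R) ∧ (∀ k, f k ∈ maximalIdeal D → f k ∈ s) ∧
    ∀ k l, f k ∈ maximalIdeal D → f k = f l → k = l

section Basic

variable {R : Subring D} {κ : Type} {f : κ → D}

theorem PRS.dom (h : PRS R f) : Dom R := by
  obtain ⟨s, hs, -⟩ := h
  exact hs.dom

theorem PRS.mem (h : PRS R f) (k : κ) : f k ∈ R := by
  obtain ⟨s, -, hs, -⟩ := h
  exact hs k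

theorem PRS.isRegularLocalRing (h : PRS R f) : IsRegularLocalRing R := by
  obtain ⟨s, hs, -⟩ := h
  exact hs.isRegularLocalRing

theorem PRS.ne_zero (h : PRS R f) (k : κ) : f k ≠ 0 := by
  obtain ⟨s, hs, -, h1, -⟩ := h
  intro h0
  have h2 : f k ∈ maximalIdeal D := by
    rw [h0]
    exact Ideal.zero_mem _
  exact hs.ne_zero (h1 k h2) h0

theorem PRS.comp {κ' : Type} (h : PRS R f) (g : κ' → κ) (hg : Function.Injective g) :
    PRS R (fun k => f (g k)) := by
  obtain ⟨s, hs, h1, h2, h3⟩ := h
  exact ⟨s, hs, fun k => h1 _, fun k => h2 _, fun k l hk hkl => hg (h3 _ _ hk hkl)⟩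

/-- The ring is regular if it is everything. -/
theorem PRS.regular_of_top (h : PRS R f) (hR : R = ⊤) : IsRegularLocalRing D := by
  obtain ⟨s, hs, -⟩ := h
  exact isRegularLocalRing_of_top hs hR

end Basic

-- BEGIN A1
theorem a1_gen_iff {R : Subring D} {t : Finset D} {z : D} :
    (∃ c : D → D, (∀ x ∈ t, c x ∈ R) ∧ z = ∑ x ∈ t, c x * x) ↔
      z ∈ Submodule.span R (t : Set D) := by
  constructor
  · rintro ⟨c, hc, rfl⟩
    refine Submodule.sum_mem _ fun x hx => ?_
    exact Submodule.smul_mem _ (⟨c x, hc x hx⟩ : R) (Submodule.subset_span hx)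
  · intro hz
    obtain ⟨f, -, hf⟩ := Submodule.mem_span_finset.1 hz
    exact ⟨fun x => (f x : D), fun x _ => (f x).2, hf.symm⟩

/-- TASK A1 (first statement). Change of one parameter: `x` is replaced by `c x + r y`, where `y` is another parameter
and `c` a unit. `dom`, `noeth` are unchanged, `mem` clear; `gen`: if `z = ∑ c_a a` over `s`, then
`x = c⁻¹ (c x + r y) - c⁻¹ r y` (`c⁻¹ ∈ R` by `hs.dom`); `card`: `Finset.card_insert_le`,
`Finset.card_erase_of_mem`. -/
theorem RSP.replace [DecidableEq D] {R : Subring D} {s : Finset D} (hs : RSP R s) {x y c r : D} (hx : x ∈ s)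
    (hy : y ∈ s) (hxy : x ≠ y) (hc : c ∈ R) (hcu : IsUnit c) (hr : r ∈ R) :
    RSP R (insert (c * x + r * y) (s.erase x)) := by
  refine ⟨hs.dom, hs.noeth, ?_, ?_, ?_⟩
  · intro z hz
    rcases Finset.mem_insert.1 hz with rfl | hz
    · refine ⟨R.add_mem (R.mul_mem hc (hs.mem x hx).1) (R.mul_mem hr (hs.mem y hy).1), ?_⟩
      exact Ideal.add_mem _ (Ideal.mul_mem_left _ _ (hs.mem x hx).2)
        (Ideal.mul_mem_left _ _ (hs.mem y hy).2)
    · exact hs.mem z (Finset.mem_of_mem_erase hz)
  · intro z hz hzm
    rw [a1_gen_iff]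
    have h1 := a1_gen_iff.1 (hs.gen z hz hzm)
    refine (Submodule.span_le.2 ?_) h1
    intro a ha
    obtain ⟨c', hc'⟩ := hcu.exists_right_inv
    have hc'R : c' ∈ R := hs.dom c hc c' hc'
    by_cases hax : a = x
    · subst hax
      have h2 : a = (⟨c', hc'R⟩ : R) • (c * a + r * y) -
          (⟨c' * r, R.mul_mem hc'R hr⟩ : R) • y := by
        change a = c' * (c * a + r * y) - (c' * r) * y
        linear_combination (-a) * hc'
      rw [SetLike.mem_coe, h2]
      refine Submodule.sub_mem _ (Submodule.smul_mem _ _ (Submodule.subset_span ?_))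
        (Submodule.smul_mem _ _ (Submodule.subset_span ?_))
      · rw [← h2]
        exact Finset.mem_coe.2 (Finset.mem_insert_self _ _)
      · rw [← h2]
        exact Finset.mem_coe.2 (Finset.mem_insert_of_mem (Finset.mem_erase.2 ⟨hxy.symm, hy⟩))
    · exact Submodule.subset_span
        (Finset.mem_coe.2 (Finset.mem_insert_of_mem (Finset.mem_erase.2 ⟨hax, ha⟩)))
  · refine le_trans ?_ hs.card
    have h1 := Finset.card_insert_le (c * x + r * y) (s.erase x)
    rw [Finset.card_erase_of_mem hx] at h1
    have h2 : 0 < s.card := Finset.card_pos.2 ⟨x, hx⟩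
    have h3 : (insert (c * x + r * y) (s.erase x)).card ≤ s.card := by omega
    exact_mod_cast h3

/-- TASK A1 (second statement). The new parameter is not one of the old ones. Otherwise `s.erase x` would be a
regular system of parameters by the first statement, a contradiction to `RSP.card_le` (both `s` and `s.erase x`
generate). -/
theorem RSP.replace_notMem [DecidableEq D] {R : Subring D} {s : Finset D} (hs : RSP R s) {x y c r : D} (hx : x ∈ s)
    (hy : y ∈ s) (hxy : x ≠ y) (hc : c ∈ R) (hcu : IsUnit c) (hr : r ∈ R) :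
    c * x + r * y ∉ s.erase x := by
  intro h
  have h1 := RSP.replace hs hx hy hxy hc hcu hr
  rw [Finset.insert_eq_self.2 h] at h1
  have h2 := hs.card_le h1.mem h1.gen
  have h3 := Finset.card_erase_lt_of_mem hx
  omega
-- END A1

-- BEGIN A2
/-- TASK A2. **Linear change of the family.** The `f k`, `k ∈ T`, are replaced by `c k * f k + r k * f (g k)`, where
`g k ∉ T`. Induction on the finite set `T` (or on a subset `T₁ ⊆ T` of the indices already replaced) by A1
(`RSP.replace`, `RSP.replace_notMem`): at each step one `f k` with `k ∈ T` is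
replaced; `f k`, `f (g k)` lie in the maximal ideal, hence in `s`, and are different since `k ≠ g k`. -/
theorem PRS.lin {R : Subring D} {κ : Type} [Fintype κ] [DecidableEq κ] {f f' : κ → D}
    (h : PRS R f) (T : Finset κ) (g : κ → κ) (hg : ∀ k ∈ T, g k ∉ T) (c r : κ → D)
    (hc : ∀ k ∈ T, c k ∈ R ∧ IsUnit (c k)) (hr : ∀ k ∈ T, r k ∈ R)
    (hm : ∀ k ∈ T, f k ∈ maximalIdeal D ∧ f (g k) ∈ maximalIdeal D)
    (h1 : ∀ k ∈ T, f' k = c k * f k + r k * f (g k)) (h2 : ∀ k, k ∉ T → f' k = f k) :
    PRS R f' := by
  have key : ∀ T₁ : Finset κ, T₁ ⊆ T → PRS R (fun k => if k ∈ T₁ then f' k else f k) := by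
    intro T₁
    induction T₁ using Finset.induction_on with
    | empty =>
      intro _
      simpa using h
    | insert k₁ T₁ hk₁ ih =>
      intro hsub
      have hk₁T : k₁ ∈ T := hsub (Finset.mem_insert_self _ _)
      have hT₁ : T₁ ⊆ T := fun k hk => hsub (Finset.mem_insert_of_mem hk)
      obtain ⟨s, hs, a1, a2, a3⟩ := ih hT₁
      classical
      obtain ⟨F, hF⟩ : ∃ F : κ → D, F = fun k => if k ∈ T₁ then f' k else f k := ⟨_, rfl⟩
      have b1 : ∀ k, F k ∈ R := fun k => by rw [hF]; exact a1 k
      have b2 : ∀ k, F k ∈ maximalIdeal D → F k ∈ s := fun k => by rw [hF]; exact a2 k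
      have b3 : ∀ k l, F k ∈ maximalIdeal D → F k = F l → k = l := fun k l => by
        rw [hF]; exact a3 k l
      have hgk : g k₁ ∉ T₁ := fun hcon => hg k₁ hk₁T (hT₁ hcon)
      have e1 : F k₁ = f k₁ := by rw [hF]; exact if_neg hk₁
      have e2 : F (g k₁) = f (g k₁) := by rw [hF]; exact if_neg hgk
      have hne : k₁ ≠ g k₁ := fun hcon => hg k₁ hk₁T (hcon ▸ hk₁T)
      obtain ⟨m1, m2⟩ := hm k₁ hk₁T
      rw [← e1] at m1
      rw [← e2] at m2
      have hne' : F k₁ ≠ F (g k₁) := fun hcon => hne (b3 _ _ m1 hcon)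
      have hn : f' k₁ = c k₁ * F k₁ + r k₁ * F (g k₁) := by rw [e1, e2]; exact h1 k₁ hk₁T
      have r1 := RSP.replace hs (b2 _ m1) (b2 _ m2) hne' (hc k₁ hk₁T).1 (hc k₁ hk₁T).2
        (hr k₁ hk₁T)
      have r2 := RSP.replace_notMem hs (b2 _ m1) (b2 _ m2) hne' (hc k₁ hk₁T).1 (hc k₁ hk₁T).2
        (hr k₁ hk₁T)
      rw [← hn] at r1 r2
      have c1 : ∀ k, k ≠ k₁ → (if k ∈ insert k₁ T₁ then f' k else f k) = F k := by
        intro k hk
        rw [hF]
        simp only [Finset.mem_insert, hk, false_or]
      have c2 : (if k₁ ∈ insert k₁ T₁ then f' k₁ else f k₁) = f' k₁ :=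
        if_pos (Finset.mem_insert_self _ _)
      have c3 : ∀ k, k ≠ k₁ → F k ∈ maximalIdeal D → F k ∈ s.erase (F k₁) := by
        intro k hk hkm
        exact Finset.mem_erase.2 ⟨fun hcon => hk (b3 _ _ hkm hcon), b2 k hkm⟩
      refine ⟨_, r1, ?_, ?_, ?_⟩
      · intro k
        by_cases hk : k = k₁
        · subst hk
          change (if k ∈ insert k T₁ then f' k else f k) ∈ R
          rw [c2]
          exact (r1.mem _ (Finset.mem_insert_self _ _)).1
        · change (if k ∈ insert k₁ T₁ then f' k else f k) ∈ R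
          rw [c1 k hk]
          exact b1 k
      · intro k
        by_cases hk : k = k₁
        · subst hk
          change (if k ∈ insert k T₁ then f' k else f k) ∈ _ →
            (if k ∈ insert k T₁ then f' k else f k) ∈ _
          rw [c2]
          intro _
          exact Finset.mem_insert_self _ _
        · change (if k ∈ insert k₁ T₁ then f' k else f k) ∈ _ →
            (if k ∈ insert k₁ T₁ then f' k else f k) ∈ _
          rw [c1 k hk]
          intro hkm
          exact Finset.mem_insert_of_mem (c3 k hk hkm)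
      · intro k l
        change (if k ∈ insert k₁ T₁ then f' k else f k) ∈ _ →
            (if k ∈ insert k₁ T₁ then f' k else f k) =
            (if l ∈ insert k₁ T₁ then f' l else f l) → k = l
        by_cases hk : k = k₁
        · by_cases hl : l = k₁
          · intro _ _
            rw [hk, hl]
          · rw [hk, c2, c1 l hl]
            intro hkm hkl
            exfalso
            apply r2
            rw [hkl]
            rw [hkl] at hkm
            exact c3 l hl hkm
        · by_cases hl : l = k₁
          · rw [hl, c2, c1 k hk]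
            intro hkm hkl
            exfalso
            apply r2
            rw [← hkl]
            exact c3 k hk hkm
          · rw [c1 k hk, c1 l hl]
            exact b3 k l
  have h3 := key T (Finset.Subset.refl _)
  have h4 : (fun k => if k ∈ T then f' k else f k) = f' := by
    funext k
    by_cases hk : k ∈ T
    · simp [hk]
    · simp [hk, h2 k hk]
  rw [h4] at h3
  exact h3
-- END A2

-- BEGIN A3
/-- TASK A3. **Blow-up.** All `f k` are replaced by `w k = f k / f k₀ ^ e k` (`e k₀ = 0`, so `w k₀ = f k₀`). Induction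
on a finite set `T` of indices with `e k ≥ 1` (for all `k ∈ T`): the family `fun k => if k ∈ T then w k else f k` is
`PRS` in `dcl (R ∪ w '' T)`. The step is `exists_pow_step_dcl` (QD/ChDcl.lean) with `a = f k₀`, `u = f k`
(in the maximal ideal since `e k ≥ 1`), `w = w k`; `dcl_union_dcl`. For `e k = 0` one has `w k = f k ∈ R`, so finally
`dcl (R ∪ w '' T) = dcl (R ∪ range w)` for `T = {k | 1 ≤ e k}` (`c2_absorb`, QD/ChDcl.lean). -/
theorem PRS.blow {R : Subring D} {κ : Type} [Fintype κ] [DecidableEq κ] {f w : κ → D} {e : κ → ℕ}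
    {k₀ : κ} (h : PRS R f) (h0 : f k₀ ∈ maximalIdeal D) (he : e k₀ = 0)
    (hw : ∀ k, f k₀ ^ e k * w k = f k) :
    PRS (dcl ((R : Set D) ∪ Set.range w)) w := by
  have key : ∀ T : Finset κ, (∀ k ∈ T, 1 ≤ e k) →
      PRS (dcl ((R : Set D) ∪ w '' T)) (fun k => if k ∈ T then w k else f k) := by
    intro T
    induction T using Finset.induction_on with
    | empty =>
      intro _
      have e1 : dcl ((R : Set D) ∪ w '' (∅ : Finset κ)) = R := c2_self h.dom (by simp)
      rw [e1]
      simpa using h
    | insert k₁ T hk₁ ih =>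
      intro hT
      have hT1 : ∀ k ∈ T, 1 ≤ e k := fun k hk => hT k (Finset.mem_insert_of_mem hk)
      have hek₁ : 1 ≤ e k₁ := hT k₁ (Finset.mem_insert_self _ _)
      obtain ⟨s, hs, a1, a2, a3⟩ := ih hT1
      obtain ⟨F, hF⟩ : ∃ F : κ → D, F = fun k => if k ∈ T then w k else f k := ⟨_, rfl⟩
      have b1 : ∀ k, F k ∈ dcl ((R : Set D) ∪ w '' T) := fun k => by rw [hF]; exact a1 k
      have b2 : ∀ k, F k ∈ maximalIdeal D → F k ∈ s := fun k => by rw [hF]; exact a2 k
      have b3 : ∀ k l, F k ∈ maximalIdeal D → F k = F l → k = l := fun k l => by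
        rw [hF]; exact a3 k l
      have hk₀ : k₀ ∉ T := fun hcon => by
        have := hT1 k₀ hcon
        omega
      have e1 : F k₁ = f k₁ := by rw [hF]; exact if_neg hk₁
      have e0 : F k₀ = f k₀ := by rw [hF]; exact if_neg hk₀
      have hne : k₀ ≠ k₁ := by
        rintro rfl
        omega
      have m0 : F k₀ ∈ maximalIdeal D := by rw [e0]; exact h0
      have m1 : F k₁ ∈ maximalIdeal D := by
        rw [e1, ← hw k₁]
        exact Ideal.mul_mem_right _ _ (Ideal.pow_mem_of_mem _ h0 _ (by omega))
      have hw' : F k₀ ^ e k₁ * w k₁ = F k₁ := by rw [e0, e1]; exact hw k₁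
      obtain ⟨s', g1, g2, g3⟩ := exists_pow_step_dcl (e k₁) hek₁ hs (b2 _ m0) (b2 _ m1)
        (fun hcon => hne (b3 _ _ m0 hcon)) hw'
      have hR' : dcl (((dcl ((R : Set D) ∪ w '' T) : Subring D) : Set D) ∪ {w k₁}) =
          dcl ((R : Set D) ∪ w '' (insert k₁ T : Finset κ)) := by
        rw [dcl_union_dcl, Set.union_assoc, Finset.coe_insert, Set.image_insert_eq,
          Set.insert_eq, Set.union_comm (w '' (T : Set κ))]
      rw [hR'] at g1
      have c1 : ∀ k, k ≠ k₁ → (if k ∈ insert k₁ T then w k else f k) = F k := by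
        intro k hk
        rw [hF]
        simp only [Finset.mem_insert, hk, false_or]
      have c2 : (if k₁ ∈ insert k₁ T then w k₁ else f k₁) = w k₁ :=
        if_pos (Finset.mem_insert_self _ _)
      have c3 : ∀ k, k ≠ k₁ → F k ∈ maximalIdeal D → F k ≠ F k₁ :=
        fun k hk hkm hcon => hk (b3 _ _ hkm hcon)
      refine ⟨s', g1, ?_, ?_, ?_⟩
      · intro k
        change (if k ∈ insert k₁ T then w k else f k) ∈ _
        by_cases hk : k = k₁
        · rw [hk, c2]
          exact subset_dcl _ (Or.inr ⟨k₁, by simp, rfl⟩)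
        · rw [c1 k hk]
          refine dcl_mono ?_ (b1 k)
          refine Set.union_subset_union_right _ (Set.image_mono ?_)
          rw [Finset.coe_insert]
          exact Set.subset_insert _ _
      · intro k
        change (if k ∈ insert k₁ T then w k else f k) ∈ _ →
          (if k ∈ insert k₁ T then w k else f k) ∈ _
        by_cases hk : k = k₁
        · rw [hk, c2]
          exact fun hm => (g3 hm).1
        · rw [c1 k hk]
          exact fun hm => g2 _ (b2 k hm) (c3 k hk hm)
      · intro k l
        change (if k ∈ insert k₁ T then w k else f k) ∈ _ →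
            (if k ∈ insert k₁ T then w k else f k) =
            (if l ∈ insert k₁ T then w l else f l) → k = l
        by_cases hk : k = k₁
        · by_cases hl : l = k₁
          · intro _ _
            rw [hk, hl]
          · rw [hk, c2, c1 l hl]
            intro hkm hkl
            exfalso
            have hlm : F l ∈ maximalIdeal D := by rw [← hkl]; exact hkm
            exact (g3 hkm).2 (F l) (b2 l hlm) (c3 l hl hlm) hkl.symm
        · by_cases hl : l = k₁
          · rw [hl, c2, c1 k hk]
            intro hkm hkl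
            exfalso
            have hwm : w k₁ ∈ maximalIdeal D := by rw [← hkl]; exact hkm
            exact (g3 hwm).2 (F k) (b2 k hkm) (c3 k hk hkm) hkl
          · rw [c1 k hk, c1 l hl]
            exact b3 k l
  have h1 := key (Finset.univ.filter fun k => 1 ≤ e k) (fun k hk => (Finset.mem_filter.1 hk).2)
  have h2 : ∀ k, ¬ 1 ≤ e k → w k = f k := by
    intro k hk
    have h3 : e k = 0 := by omega
    have h4 := hw k
    rw [h3, pow_zero, one_mul] at h4
    exact h4
  have h5 : (fun k => if k ∈ (Finset.univ.filter fun k => 1 ≤ e k) then w k else f k) = w := by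
    funext k
    by_cases hk : 1 ≤ e k
    · simp [hk]
    · rw [if_neg (by simpa using hk), h2 k hk]
  have h6 : dcl ((R : Set D) ∪ w '' ((Finset.univ.filter fun k => 1 ≤ e k : Finset κ) : Set κ)) =
      dcl ((R : Set D) ∪ Set.range w) := by
    apply le_antisymm
    · exact dcl_mono (Set.union_subset_union_right _ (Set.image_subset_range _ _))
    · refine dcl_le (dom_dcl _) (Set.union_subset ?_ ?_)
      · exact Set.subset_union_left.trans (subset_dcl _)
      · rintro _ ⟨k, rfl⟩
        by_cases hk : 1 ≤ e k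
        · exact subset_dcl _ (Or.inr ⟨k, by simpa using hk, rfl⟩)
        · rw [h2 k hk]
          exact subset_dcl _ (Or.inl (h.mem k))
  rw [h5, h6] at h1
  exact h1
-- END A3

/-- The ring of a second blow-up. -/
theorem dcl_dcl_range {S : Set D} {κ : Type} {w : κ → D} :
    dcl (((dcl S : Subring D) : Set D) ∪ Set.range w) = dcl (S ∪ Set.range w) :=
  dcl_union_dcl

end Pool.Agent.Lib.MP_6a3dac_ag.W3
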