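import Pool.Agent.Lib.MP_6a3dac_ag.W3.G5b
import Pool.Agent.Lib.MP_6a3dac_ag.W3.G5c
import Pool.Agent.Lib.MP_6a3dac_ag.W3.Prs

/-!
# The local theorem for tame automorphisms of order three
-/

set_option autoImplicit false
set_option linter.unusedSectionVars false
set_option linter.unusedVariables false

namespace Pool.Agent.Lib.MP_6a3dac_ag.W3

open Pool.Agent.Lib.MP_6a3dac_ag Pool.Agent.Lib.MP_6a3dac_ag.QD IsLocalRing

variable {D : Type} [CommRing D] [IsDomain D] [IsLocalRing D] {A : Subring D}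

section Pivot

variable {J J' : Type} [Fintype J] [DecidableEq J] [Fintype J'] [DecidableEq J'] {f : J → A}
  {g : J' → A}

-- BEGIN G5d1
/-- TASK G5d1. **First blow-up.** `a j`, `c j` are the quotients by the pivot `f j₀` (`choose`; redefine
`a j₀ = f j₀`). `PRS.blow` (W3/Prs.lean) with `k₀ = Sum.inl j₀`, `w = Sum.elim a c`,
`e = Sum.elim (fun j => if j = j₀ then 0 else 1) (fun _ => 1)`. -/
theorem pivot_step1 (hP : PRS A (Sum.elim (fun j => (f j : D)) fun j => (g j : D)))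
    {j₀ : J} (hf : (f j₀ : D) ∈ maximalIdeal D) (hf₀ : ∀ j, (f j₀ : D) ∣ f j)
    (hg₀ : ∀ j, (f j₀ : D) ∣ g j) :
    ∃ (a : J → D) (c : J' → D), a j₀ = f j₀ ∧ (∀ j, j ≠ j₀ → (f j₀ : D) * a j = f j) ∧
      (∀ j, (f j₀ : D) * c j = g j) ∧
      PRS (dcl ((A : Set D) ∪ Set.range (Sum.elim a c))) (Sum.elim a c) := by
  classical
  choose q hq using hf₀
  choose c hc using hg₀
  obtain ⟨a, ha⟩ : ∃ a : J → D, a = fun j => if j = j₀ then (f j₀ : D) else q j := ⟨_, rfl⟩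
  have ha₀ : a j₀ = f j₀ := by
    rw [ha]
    exact if_pos rfl
  have ha₁ : ∀ j, j ≠ j₀ → (f j₀ : D) * a j = f j := by
    intro j hj
    have h1 : a j = q j := by
      rw [ha]
      exact if_neg hj
    rw [h1]
    exact (hq j).symm
  refine ⟨a, c, ha₀, ha₁, fun j => (hc j).symm, ?_⟩
  refine PRS.blow (e := Sum.elim (fun j => if j = j₀ then 0 else 1) (fun _ => 1))
    (k₀ := Sum.inl j₀) hP hf ?_ ?_
  · change (if j₀ = j₀ then 0 else 1) = 0
    exact if_pos rfl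
  · rintro (j | j)
    · change (f j₀ : D) ^ (if j = j₀ then 0 else 1) * a j = f j
      by_cases hj : j = j₀
      · rw [if_pos hj, pow_zero, one_mul, hj, ha₀]
      · rw [if_neg hj, pow_one, ha₁ j hj]
    · change (f j₀ : D) ^ 1 * c j = g j
      rw [pow_one]
      exact (hc j).symm

/-- TASK G5d1. **Second blow-up.** Here `F o₀` divides all `F o` and lies in the
maximal ideal. `PRS.blow` with `e o = if o = o₀ then 0 else 1`, `w o₀ = F o₀`. -/
theorem pivot_step2 {R : Subring D} {κ : Type} [Fintype κ] [DecidableEq κ] {F : κ → D}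
    (hP : PRS R F) {o₀ : κ} (h0 : F o₀ ∈ maximalIdeal D) (hF : ∀ o, F o₀ ∣ F o) :
    ∃ w : κ → D, w o₀ = F o₀ ∧ (∀ o, o ≠ o₀ → F o₀ * w o = F o) ∧
      PRS (dcl ((R : Set D) ∪ Set.range w)) w := by
  choose q hq using hF
  obtain ⟨w, hw⟩ : ∃ w : κ → D, w = fun o => if o = o₀ then F o₀ else q o := ⟨_, rfl⟩
  have hw₀ : w o₀ = F o₀ := by
    rw [hw]
    exact if_pos rfl
  have hw₁ : ∀ o, o ≠ o₀ → F o₀ * w o = F o := by
    intro o ho
    have h1 : w o = q o := by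
      rw [hw]
      exact if_neg ho
    rw [h1]
    exact (hq o).symm
  refine ⟨w, hw₀, hw₁, ?_⟩
  refine PRS.blow (e := fun o => if o = o₀ then 0 else 1) (k₀ := o₀) hP h0 (if_pos rfl) ?_
  intro o
  by_cases ho : o = o₀
  · rw [if_pos ho, pow_zero, one_mul, ho, hw₀]
  · rw [if_neg ho, pow_one, hw₁ o ho]
-- END G5d1

-- BEGIN G5d2
/-- TASK G5d2. The ideal `kT` after the first blow-up: with `F none = f j₀`, `F (some j) = c j` one has
`kT D = f j₀ ^ 2 (F o)`. This statement: by `kT_le` (G5c) for the ideal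
`(Ideal.span {(f j₀ : D) ^ 2} * Ideal.span (Set.range F)).comap A.subtype`: `f j * g j' = f j₀ ^ 2 (q j * c j')`
where `f j = f j₀ * q j`, `g j = f j₀ * c j`, and `f f f = f j₀ ^ 3 (..)`, `g g g = f j₀ ^ 3 (..)`; then
write an element of the span of the range of `F` as a sum (`Ideal.mem_span_range_iff_exists_fun`). -/
theorem kT_sub {j₀ : J} (hf₀ : ∀ j, (f j₀ : D) ∣ f j) {c : J' → D}
    (hc : ∀ j, (f j₀ : D) * c j = g j) : ∀ y ∈ kT (Set.range f) (Set.range g),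
      ∃ e : Option J' → D, (y : D) = (f j₀ : D) ^ 2 * ∑ o, e o * (o.elim (f j₀ : D) c) := by
  have hle : kT (Set.range f) (Set.range g) ≤ (Ideal.span {(f j₀ : D) ^ 2} *
      Ideal.span (Set.range fun o : Option J' => o.elim (f j₀ : D) c)).comap A.subtype := by
    have hn : ∀ q : D, (f j₀ : D) ^ 2 * (q * (f j₀ : D)) ∈ Ideal.span {(f j₀ : D) ^ 2} *
        Ideal.span (Set.range fun o : Option J' => o.elim (f j₀ : D) c) := fun q =>
      Ideal.mul_mem_mul (Ideal.mem_span_singleton_self _)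
        (Ideal.mul_mem_left _ _ (Ideal.subset_span ⟨none, rfl⟩))
    apply kT_le
    · rintro _ ⟨j, rfl⟩ _ ⟨j', rfl⟩
      obtain ⟨q, hq⟩ := hf₀ j
      rw [Ideal.mem_comap]
      have h1 : A.subtype (f j * g j') = (f j₀ : D) ^ 2 * (q * c j') := by
        show ((f j : A) : D) * ((g j' : A) : D) = _
        rw [hq, ← hc]
        ring
      rw [h1]
      exact Ideal.mul_mem_mul (Ideal.mem_span_singleton_self _)
        (Ideal.mul_mem_left _ _ (Ideal.subset_span ⟨some j', rfl⟩))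
    · rintro _ ⟨j₁, rfl⟩ _ ⟨j₂, rfl⟩ _ ⟨j₃, rfl⟩
      obtain ⟨q₁, hq₁⟩ := hf₀ j₁
      obtain ⟨q₂, hq₂⟩ := hf₀ j₂
      obtain ⟨q₃, hq₃⟩ := hf₀ j₃
      rw [Ideal.mem_comap]
      have h1 : A.subtype (f j₁ * f j₂ * f j₃) =
          (f j₀ : D) ^ 2 * ((q₁ * q₂ * q₃) * (f j₀ : D)) := by
        show ((f j₁ : A) : D) * ((f j₂ : A) : D) * ((f j₃ : A) : D) = _
        rw [hq₁, hq₂, hq₃]
        ring
      rw [h1]
      exact hn _
    · rintro _ ⟨j₁, rfl⟩ _ ⟨j₂, rfl⟩ _ ⟨j₃, rfl⟩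
      rw [Ideal.mem_comap]
      have h1 : A.subtype (g j₁ * g j₂ * g j₃) =
          (f j₀ : D) ^ 2 * ((c j₁ * c j₂ * c j₃) * (f j₀ : D)) := by
        show ((g j₁ : A) : D) * ((g j₂ : A) : D) * ((g j₃ : A) : D) = _
        rw [← hc, ← hc, ← hc]
        ring
      rw [h1]
      exact hn _
  intro y hy
  have h1 := hle hy
  rw [Ideal.mem_comap, Ideal.mem_span_singleton_mul] at h1
  obtain ⟨z, hz, hzy⟩ := h1
  obtain ⟨e, he⟩ := Ideal.mem_span_range_iff_exists_fun.1 hz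
  refine ⟨e, ?_⟩
  rw [he, hzy]
  rfl

/-- TASK G5d2. `f j₀ ^ 3` and `f j₀ * g j = f j₀ ^ 2 * c j` lie in `kT D` (`cube_mem_kT`, `mul_mem_kT`,
`Ideal.mem_map_of_mem`). -/
theorem kT_sup {j₀ : J} {c : J' → D} (hc : ∀ j, (f j₀ : D) * c j = g j) (o : Option J') :
    (f j₀ : D) ^ 2 * (o.elim (f j₀ : D) c) ∈
      (kT (Set.range f) (Set.range g)).map A.subtype := by
  have hf : f j₀ ∈ Ideal.span (Set.range f) := Ideal.subset_span ⟨j₀, rfl⟩
  cases o with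
  | none =>
    have h1 : (f j₀ : D) ^ 2 * ((none : Option J').elim (f j₀ : D) c) =
        A.subtype (f j₀ * f j₀ * f j₀) := by
      show (f j₀ : D) ^ 2 * (f j₀ : D) = (f j₀ : D) * (f j₀ : D) * (f j₀ : D)
      ring
    rw [h1]
    exact Ideal.mem_map_of_mem _ (cube_mem_kT hf hf hf)
  | some j =>
    have h1 : (f j₀ : D) ^ 2 * ((some j : Option J').elim (f j₀ : D) c) =
        A.subtype (f j₀ * g j) := by
      show (f j₀ : D) ^ 2 * c j = (f j₀ : D) * (g j : D)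
      rw [← hc]
      ring
    rw [h1]
    exact Ideal.mem_map_of_mem _ (mul_mem_kT hf (Ideal.subset_span ⟨j, rfl⟩))

/-- TASK G5d2. By `kT_le`: `f g = f j₀ ^ 2 z (q q')`, `f f f = f j₀ ^ 2 z (..)`, `g g g = f j₀ ^ 2 z (..)`. -/
theorem kT_le_mulId {R : Subring D} (hA : A ≤ R) {j₀ : J} {z : D} (hz : z ∈ R)
    (h1 : ∀ j, ∃ q ∈ R, (f j : D) = f j₀ * q) (h2 : ∀ j, ∃ q ∈ R, (g j : D) = f j₀ * (z * q))
    (h3 : ∃ q ∈ R, (f j₀ : D) = z * q) :
    kT (Set.range f) (Set.range g) ≤ mulId R hA ((f j₀ : D) ^ 2 * z) := by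
  obtain ⟨p, hp, hfp⟩ := h3
  have hfR : (f j₀ : D) ∈ R := hA (f j₀).2
  apply kT_le
  · rintro _ ⟨j, rfl⟩ _ ⟨j', rfl⟩
    obtain ⟨q, hq, hfq⟩ := h1 j
    obtain ⟨q', hq', hgq'⟩ := h2 j'
    refine mem_mulId.2 ⟨q * q', R.mul_mem hq hq', ?_⟩
    show ((f j : A) : D) * ((g j' : A) : D) = _
    rw [hfq, hgq']
    ring
  · rintro _ ⟨j₁, rfl⟩ _ ⟨j₂, rfl⟩ _ ⟨j₃, rfl⟩
    obtain ⟨q₁, hq₁, h₁⟩ := h1 j₁
    obtain ⟨q₂, hq₂, h₂⟩ := h1 j₂
    obtain ⟨q₃, hq₃, h₃⟩ := h1 j₃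
    refine mem_mulId.2 ⟨p * (q₁ * q₂ * q₃),
      R.mul_mem hp (R.mul_mem (R.mul_mem hq₁ hq₂) hq₃), ?_⟩
    show ((f j₁ : A) : D) * ((f j₂ : A) : D) * ((f j₃ : A) : D) = _
    rw [h₁, h₂, h₃]
    linear_combination ((f j₀ : D) ^ 2 * (q₁ * q₂ * q₃)) * hfp
  · rintro _ ⟨j₁, rfl⟩ _ ⟨j₂, rfl⟩ _ ⟨j₃, rfl⟩
    obtain ⟨q₁, hq₁, h₁⟩ := h2 j₁
    obtain ⟨q₂, hq₂, h₂⟩ := h2 j₂
    obtain ⟨q₃, hq₃, h₃⟩ := h2 j₃
    refine mem_mulId.2 ⟨(f j₀ : D) * z ^ 2 * (q₁ * q₂ * q₃),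
      R.mul_mem (R.mul_mem hfR (R.pow_mem hz 2)) (R.mul_mem (R.mul_mem hq₁ hq₂) hq₃), ?_⟩
    show ((g j₁ : A) : D) * ((g j₂ : A) : D) * ((g j₃ : A) : D) = _
    rw [h₁, h₂, h₃]
    ring
-- END G5d2

-- BEGIN G5d3
/-- TASK G5d3. **The tower.** Let `R₁ = dcl (A ∪ range (Sum.elim a₁ c))` be the ring of `pivot_step1`,
`F : Option J' → D`, `F o = o.elim (f j₀) c`. By `exists_gen` (QD/ChDcl.lean) with `p = f j₀ ^ 2`, `kT_sub`,
`kT_sup`, some `F o₀ ≠ 0` divides all the `F o`.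
Case 1: `F o₀` is a unit. Then `Pr R₁ (kT ..) (f j₀ ^ 2 * F o₀)`: `kT_le_mulId` with `z = F o₀`, whose inverse
lies in `R₁` (`dom_dcl`), and `kT_sup`; so by `Pr.mem` and `hgen` `R₁ = ⊤`; `PRS.regular_of_top`.
Case 2: `F o₀` lies in the maximal ideal. `hP₁.comp` along `Option J' → J ⊕ J'`, `none ↦ Sum.inl j₀`,
`some j ↦ Sum.inr j` gives `PRS R₁ F`; `pivot_step2` gives `R₂`; `Pr R₂ (kT ..) (f j₀ ^ 2 * F o₀)` by
`kT_le_mulId` with `z = F o₀`; so `R₂ = ⊤` by `hgen` and `Pr.mem`; `PRS.regular_of_top`.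
Output: `a j` is the true quotient (`a j₀ = 1`), `w o` the true quotient (`w o₀ = 1`). The `dcl` at the end is
`⊤` since it contains `R₁` (case 1), `R₂` (case 2): `dcl_le`, `dom_dcl`. -/
theorem pivot_tower (hP : PRS A (Sum.elim (fun j => (f j : D)) fun j => (g j : D)))
    {j₀ : J} (hf : (f j₀ : D) ∈ maximalIdeal D) (hf₀ : ∀ j, (f j₀ : D) ∣ f j)
    (hg₀ : ∀ j, (f j₀ : D) ∣ g j) {k : A} (hk0 : (k : D) ≠ 0)
    (hkm : k ∈ kT (Set.range f) (Set.range g))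
    (hkd : ∀ y ∈ kT (Set.range f) (Set.range g), (k : D) ∣ y)
    (hgen : ∀ R' : Subring D, Dom R' → A ≤ R' → (∀ j, ∃ q ∈ R', (f j : D) = f j₀ * q) →
      (∀ j, ∃ q ∈ R', (g j : D) = f j₀ * q) →
      (∀ y ∈ kT (Set.range f) (Set.range g), ∀ q : D, (k : D) * q = y → q ∈ R') → R' = ⊤) :
    ∃ (a : J → D) (c : J' → D) (o₀ : Option J') (w : Option J' → D),
      (∀ j, (f j₀ : D) * a j = f j) ∧ (∀ j, (f j₀ : D) * c j = g j) ∧
      (∀ o, (o₀.elim (f j₀ : D) c) * w o = o.elim (f j₀ : D) c) ∧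
      o₀.elim (f j₀ : D) c ≠ 0 ∧
      dcl ((A : Set D) ∪ (Set.range a ∪ (Set.range c ∪ Set.range w))) = ⊤ ∧
      IsRegularLocalRing D := by
  obtain ⟨a₁, c, ha₁0, ha₁, hc, hP₁⟩ := pivot_step1 hP hf hf₀ hg₀
  obtain ⟨F, hF⟩ : ∃ F : Option J' → D, ∀ o, F o = o.elim (f j₀ : D) c := ⟨_, fun _ => rfl⟩
  have hFn : F none = f j₀ := hF none
  have hFs : ∀ j, F (some j) = c j := fun j => hF (some j)
  have hsup : ∀ o, (f j₀ : D) ^ 2 * F o ∈ (kT (Set.range f) (Set.range g)).map A.subtype := fun o => by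
    rw [hF]; exact kT_sup hc o
  obtain ⟨o₀, ho₀, hdiv⟩ := exists_gen (A := A) (I := kT (Set.range f) (Set.range g)) (p := (f j₀ : D) ^ 2)
    (κ := Option J') (g := F) (fun y hy => by
      obtain ⟨e, he⟩ := kT_sub hf₀ hc y hy
      refine ⟨e, ?_⟩
      rw [he]
      congr 1
      exact Finset.sum_congr rfl fun o _ => by rw [hF]) hsup hk0 hkm hkd
  choose w hw using hdiv
  -- the ring `R₁`
  obtain ⟨R₁, hR₁⟩ : ∃ R₁ : Subring D, R₁ = dcl ((A : Set D) ∪ Set.range (Sum.elim a₁ c)) := ⟨_, rfl⟩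
  rw [← hR₁] at hP₁
  have hdom₁ : Dom R₁ := hP₁.dom
  have hA₁ : A ≤ R₁ := fun y hy => by
    rw [hR₁]; exact subset_dcl _ (Or.inl hy)
  have ha₁R : ∀ j, a₁ j ∈ R₁ := fun j => by
    rw [hR₁]; exact subset_dcl _ (Or.inr ⟨Sum.inl j, rfl⟩)
  have hcR : ∀ j, c j ∈ R₁ := fun j => by
    rw [hR₁]; exact subset_dcl _ (Or.inr ⟨Sum.inr j, rfl⟩)
  have hFR : ∀ o, F o ∈ R₁ := by
    rintro (_ | j)
    · rw [hFn]; exact hA₁ (f j₀).2
    · rw [hFs]; exact hcR j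
  -- the true quotients
  obtain ⟨a, ha⟩ : ∃ a : J → D, ∀ j, a j = if j = j₀ then 1 else a₁ j := ⟨_, fun _ => rfl⟩
  have haj₀ : a j₀ = 1 := by rw [ha, if_pos rfl]
  have hane : ∀ j, j ≠ j₀ → a j = a₁ j := fun j hj => by rw [ha, if_neg hj]
  have hfa : ∀ j, (f j₀ : D) * a j = f j := by
    intro j
    by_cases hj : j = j₀
    · rw [hj, haj₀, mul_one]
    · rw [hane j hj]; exact ha₁ j hj
  have haR : ∀ j, a j ∈ R₁ := by
    intro j
    by_cases hj : j = j₀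
    · rw [hj, haj₀]; exact R₁.one_mem
    · rw [hane j hj]; exact ha₁R j
  have hfq : ∀ R' : Subring D, R₁ ≤ R' → ∀ j, ∃ q ∈ R', (f j : D) = f j₀ * q := fun R' hR' j =>
    ⟨a j, hR' (haR j), (hfa j).symm⟩
  have hgq : ∀ R' : Subring D, R₁ ≤ R' → ∀ j, ∃ q ∈ R', (g j : D) = f j₀ * q := fun R' hR' j =>
    ⟨c j, hR' (hcR j), (hc j).symm⟩
  -- the last ring
  obtain ⟨T, hT⟩ : ∃ T : Subring D, T = dcl ((A : Set D) ∪ (Set.range a ∪ (Set.range c ∪ Set.range w))) := ⟨_, rfl⟩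
  have hdomT : Dom T := by rw [hT]; exact dom_dcl _
  have hAT : ∀ y : A, (y : D) ∈ T := fun y => by
    rw [hT]; exact subset_dcl _ (Or.inl y.2)
  have haT : ∀ j, a j ∈ T := fun j => by
    rw [hT]; exact subset_dcl _ (Or.inr (Or.inl ⟨j, rfl⟩))
  have hcT : ∀ j, c j ∈ T := fun j => by
    rw [hT]; exact subset_dcl _ (Or.inr (Or.inr (Or.inl ⟨j, rfl⟩)))
  have hwT : ∀ o, w o ∈ T := fun o => by
    rw [hT]; exact subset_dcl _ (Or.inr (Or.inr (Or.inr ⟨o, rfl⟩)))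
  have hR₁T : R₁ ≤ T := by
    rw [hR₁]
    refine dcl_le hdomT ?_
    rintro z (hz | ⟨j | j, rfl⟩)
    · exact hAT ⟨z, hz⟩
    · show a₁ j ∈ T
      by_cases hj : j = j₀
      · rw [hj, ha₁0]; exact hAT _
      · rw [← hane j hj]; exact haT j
    · exact hcT j
  -- it suffices to find a regular ring
  have hfin : ∀ R' : Subring D, R' = ⊤ → R' ≤ T → IsRegularLocalRing D →
      ∃ (a : J → D) (c : J' → D) (o₀ : Option J') (w : Option J' → D),
      (∀ j, (f j₀ : D) * a j = f j) ∧ (∀ j, (f j₀ : D) * c j = g j) ∧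
      (∀ o, (o₀.elim (f j₀ : D) c) * w o = o.elim (f j₀ : D) c) ∧
      o₀.elim (f j₀ : D) c ≠ 0 ∧
      dcl ((A : Set D) ∪ (Set.range a ∪ (Set.range c ∪ Set.range w))) = ⊤ ∧
      IsRegularLocalRing D := by
    intro R' hR' hR'T hreg
    refine ⟨a, c, o₀, w, hfa, hc, fun o => ?_, ?_, ?_, hreg⟩
    · rw [← hF, ← hF]; exact (hw o).symm
    · rw [← hF]; exact ho₀
    · rw [← hT]
      rw [hR'] at hR'T
      exact top_le_iff.mp hR'T
  have hgen' : ∀ R' : Subring D, Dom R' → R₁ ≤ R' →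
      Pr R' (kT (Set.range f) (Set.range g)) ((f j₀ : D) ^ 2 * F o₀) → R' = ⊤ := by
    intro R' hdom' hR' hPr
    exact hgen R' hdom' (hA₁.trans hR') (hfq R' hR') (hgq R' hR') fun y hy q hq =>
      hPr.mem hdom' hk0 hkm hkd hy hq
  by_cases hunit : IsUnit (F o₀)
  · obtain ⟨v, hv⟩ := hunit.exists_right_inv
    have hvR : v ∈ R₁ := hdom₁ _ (hFR o₀) _ hv
    have hPr : Pr R₁ (kT (Set.range f) (Set.range g)) ((f j₀ : D) ^ 2 * F o₀) := by
      refine ⟨fun y hy => ?_, hsup o₀⟩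
      have h1 := kT_le_mulId (A := A) (f := f) (g := g) hA₁ (j₀ := j₀) (z := F o₀) (hFR o₀) (hfq R₁ le_rfl)
        (fun j => ⟨v * c j, R₁.mul_mem hvR (hcR j), by
          rw [← hc j]
          linear_combination -((f j₀ : D) * c j) * hv⟩)
        ⟨v * f j₀, R₁.mul_mem hvR (hA₁ (f j₀).2), by linear_combination -(f j₀ : D) * hv⟩
      exact h1 hy
    have htop := hgen' R₁ hdom₁ le_rfl hPr
    exact hfin R₁ htop hR₁T (hP₁.regular_of_top htop)
  · have hmax : F o₀ ∈ maximalIdeal D := (IsLocalRing.mem_maximalIdeal _).mpr hunit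
    have hPF : PRS R₁ F := by
      have h1 := hP₁.comp (fun o : Option J' => o.elim (Sum.inl j₀) Sum.inr) (by
        rintro (_ | x) (_ | y) hxy
        · rfl
        · exact absurd hxy (by simp)
        · exact absurd hxy (by simp)
        · simpa using hxy)
      have h2 : (fun o : Option J' => Sum.elim a₁ c (o.elim (Sum.inl j₀) Sum.inr)) = F := by
        funext o
        rcases o with _ | x
        · show a₁ j₀ = F none
          rw [ha₁0, hFn]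
        · show c x = F (some x)
          rw [hFs]
      rw [h2] at h1
      exact h1
    obtain ⟨w', hw'0, hw', hP₂⟩ := pivot_step2 hPF hmax (fun o => ⟨w o, hw o⟩)
    obtain ⟨R₂, hR₂⟩ : ∃ R₂ : Subring D, R₂ = dcl ((R₁ : Set D) ∪ Set.range w') := ⟨_, rfl⟩
    rw [← hR₂] at hP₂
    have hR₁₂ : R₁ ≤ R₂ := fun y hy => by rw [hR₂]; exact subset_dcl _ (Or.inl hy)
    have hw'R : ∀ o, w' o ∈ R₂ := fun o => by rw [hR₂]; exact subset_dcl _ (Or.inr ⟨o, rfl⟩)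
    have hww' : ∀ o, o ≠ o₀ → w' o = w o := fun o ho => by
      apply mul_left_cancel₀ ho₀
      rw [hw' o ho]
      exact hw o
    have hwo₀ : w o₀ = 1 := by
      apply mul_left_cancel₀ ho₀
      rw [mul_one]
      exact (hw o₀).symm
    have hwR : ∀ o, w o ∈ R₂ := by
      intro o
      by_cases ho : o = o₀
      · rw [ho, hwo₀]; exact R₂.one_mem
      · rw [← hww' o ho]; exact hw'R o
    have hPr : Pr R₂ (kT (Set.range f) (Set.range g)) ((f j₀ : D) ^ 2 * F o₀) := by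
      refine ⟨fun y hy => ?_, hsup o₀⟩
      have h1 := kT_le_mulId (A := A) (f := f) (g := g) (hA₁.trans hR₁₂) (j₀ := j₀) (z := F o₀) (hR₁₂ (hFR o₀))
        (hfq R₂ hR₁₂)
        (fun j => ⟨w (some j), hwR _, by
          rw [← hw (some j), hFs j]
          exact (hc j).symm⟩)
        ⟨w none, hwR _, by rw [← hw none, hFn]⟩
      exact h1 hy
    have htop := hgen' R₂ hP₂.dom hR₁₂ hPr
    refine hfin R₂ htop ?_ (hP₂.regular_of_top htop)
    rw [hR₂]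
    refine dcl_le hdomT ?_
    rintro z (hz | ⟨o, rfl⟩)
    · exact hR₁T hz
    · by_cases ho : o = o₀
      · rw [ho, hw'0]; exact hR₁T (hFR o₀)
      · rw [hww' o ho]; exact hwT o
-- END G5d3

-- BEGIN G5d4
/-- TASK G5d4. **The augmentation ideal after the two blow-ups** is generated by `z = F o₀`,
`F o = o.elim (f j₀) c`. The eigenvalues: `τ (a j) = a j` (apply `τ` to `f j₀ * a j = f j`, cancel
`θ * f j₀`), `τ (c j) = κ * c j`, so `τ (F o) = m o * F o` with `m none = θ`, `m (some j) = κ`, and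
`m o₀ * τ (w o) = m o * w o`. `f j₀ = z * w none` is a multiple of `z`. So the differences of the elements
of `A`, `a j`, `c j = z * w (some j)`, `w o` (`m o₀ * (τ (w o) - w o) = (m o - m o₀) * w o`, where
`m o - m o₀` is `0`, `κ - θ` or `θ - κ`) are multiples of `z`; `diff_of_dcl`, and `principal_of_top`
(QD/ChDcl.lean) with `c = z`, `v = z`, `t = m o₀ - 1`. -/
theorem pivot_principal {j₀ : J} (hf0 : (f j₀ : D) ≠ 0) {a : J → D} {c : J' → D} {o₀ : Option J'}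
    {w : Option J' → D} (ha : ∀ j, (f j₀ : D) * a j = f j) (hc : ∀ j, (f j₀ : D) * c j = g j)
    (hw : ∀ o, (o₀.elim (f j₀ : D) c) * w o = o.elim (f j₀ : D) c)
    (hz : o₀.elim (f j₀ : D) c ≠ 0)
    (htop : dcl ((A : Set D) ∪ (Set.range a ∪ (Set.range c ∪ Set.range w))) = ⊤)
    {τ : D →+* D} {θ κ : D} (hτf : ∀ j, τ (f j) = θ * f j) (hτg : ∀ j, τ (g j) = θ * κ * g j)
    (hθ : IsUnit θ) (hκ : IsUnit κ) (hθ1 : IsUnit (θ - 1)) (hκ1 : IsUnit (κ - 1))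
    (hκθ : ∃ b, κ - θ = b * f j₀) (hA : ∀ y : A, ∃ b, τ y - y = b * f j₀) :
    ∃ y, τ y - y ≠ 0 ∧ ∀ v, ∃ b, τ v - v = b * (τ y - y) := by
  obtain ⟨F, hF⟩ : ∃ F : Option J' → D, ∀ o, F o = o.elim (f j₀ : D) c := ⟨_, fun _ => rfl⟩
  obtain ⟨m, hm⟩ : ∃ m : Option J' → D, ∀ o, m o = o.elim θ fun _ => κ := ⟨_, fun _ => rfl⟩
  have hFn : F none = f j₀ := hF none
  have hFs : ∀ j, F (some j) = c j := fun j => hF (some j)
  have hmn : m none = θ := hm none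
  have hms : ∀ j, m (some j) = κ := fun j => hm (some j)
  have hw' : ∀ o, F o₀ * w o = F o := fun o => by rw [hF, hF]; exact hw o
  have hz' : F o₀ ≠ 0 := by rw [hF]; exact hz
  have hmu : ∀ o, IsUnit (m o) := by
    rintro (_ | j)
    · rw [hmn]; exact hθ
    · rw [hms]; exact hκ
  have hmu1 : ∀ o, IsUnit (m o - 1) := by
    rintro (_ | j)
    · rw [hmn]; exact hθ1
    · rw [hms]; exact hκ1
  have hτa : ∀ j, τ (a j) = a j := by
    intro j
    have h1 := congrArg τ (ha j)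
    rw [map_mul, hτf, hτf, ← ha j] at h1
    apply mul_left_cancel₀ (mul_ne_zero hθ.ne_zero hf0)
    linear_combination h1
  have hτc : ∀ j, τ (c j) = κ * c j := by
    intro j
    have h1 := congrArg τ (hc j)
    rw [map_mul, hτf, hτg, ← hc j] at h1
    apply mul_left_cancel₀ (mul_ne_zero hθ.ne_zero hf0)
    linear_combination h1
  have hτF : ∀ o, τ (F o) = m o * F o := by
    rintro (_ | j)
    · rw [hFn, hmn]; exact hτf j₀
    · rw [hFs, hms]; exact hτc j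
  have hτw : ∀ o, m o₀ * τ (w o) = m o * w o := by
    intro o
    have h1 := congrArg τ (hw' o)
    rw [map_mul, hτF, hτF, ← hw' o] at h1
    apply mul_left_cancel₀ hz'
    linear_combination h1
  obtain ⟨b₀, hb₀⟩ := hκθ
  have hfz : (f j₀ : D) = F o₀ * w none := by rw [hw' none, hFn]
  have hmm : ∀ o, ∃ b, m o - m o₀ = b * F o₀ := by
    have h1 : ∀ o o', ∃ b, m o - m o' = b * (f j₀ : D) := by
      rintro (_ | j) (_ | j')
      · exact ⟨0, by rw [hmn]; ring⟩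
      · exact ⟨-b₀, by rw [hmn, hms]; linear_combination -hb₀⟩
      · exact ⟨b₀, by rw [hmn, hms]; exact hb₀⟩
      · exact ⟨0, by rw [hms, hms]; ring⟩
    intro o
    obtain ⟨b, hb⟩ := h1 o o₀
    exact ⟨b * w none, by rw [hb]; linear_combination b * hfz⟩
  refine principal_of_top (R := dcl ((A : Set D) ∪ (Set.range a ∪ (Set.range c ∪ Set.range w)))) (c := F o₀)
    (v := F o₀) (t := m o₀ - 1) hz' (hmu1 o₀) (by rw [hτF]; ring) ?_ htop
  refine diff_of_dcl ?_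
  rintro z (hz₁ | ⟨j, rfl⟩ | ⟨j, rfl⟩ | ⟨o, rfl⟩)
  · obtain ⟨b, hb⟩ := hA ⟨z, hz₁⟩
    refine ⟨b * w none, ?_⟩
    have h2 : τ z - z = b * f j₀ := hb
    rw [h2]
    linear_combination b * hfz
  · exact ⟨0, by rw [hτa]; ring⟩
  · refine ⟨(κ - 1) * w (some j), ?_⟩
    have h2 : c j = F o₀ * w (some j) := by rw [hw' (some j), hFs]
    rw [hτc]
    linear_combination (κ - 1) * h2
  · obtain ⟨b, hb⟩ := hmm o
    obtain ⟨n, hn⟩ := (hmu o₀).exists_right_inv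
    refine ⟨n * b * w o, ?_⟩
    linear_combination n * hτw o + n * w o * hb - (τ (w o) - w o) * hn
-- END G5d4

end Pivot

-- BEGIN G5d5
/-- TASK G5d5. The family of eigenparameters. `RSP.of_span` (QWStruct.lean) for `T = s₁ ∪ (s₂ ∪ t)` as in
`local_tame_type` (QD/Tame.lean); the witness in `PRS` is `T.image Subtype.val`; injectivity by `hd`. -/
theorem prs_of_par [IsRegularLocalRing A] (hdom : Dom A) [DecidableEq A] {s₁ s₂ t : Finset A}
    (hd : Disjoint s₁ s₂) (hspan : Ideal.span ((s₁ ∪ (s₂ ∪ t) : Finset A) : Set A) = maximalIdeal A)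
    (hcard : (((s₁ ∪ (s₂ ∪ t)).card : ℕ) : WithBot ℕ∞) ≤ ringKrullDim A) :
    PRS A (Sum.elim (fun j : {y // y ∈ s₁} => ((j : A) : D)) fun j : {y // y ∈ s₂} => ((j : A) : D)) := by
  classical
  have hfr : (s₁ ∪ (s₂ ∪ t)).card ≤ (maximalIdeal A).spanFinrank := by
    have h1 := (isRegularLocalRing_iff A).mp inferInstance
    rw [← h1] at hcard
    exact_mod_cast hcard
  have hRSP : RSP A ((s₁ ∪ (s₂ ∪ t)).image Subtype.val) :=
    RSP.of_span hdom inferInstance (s₁ ∪ (s₂ ∪ t)) hspan hfr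
  refine ⟨_, hRSP, ?_, ?_, ?_⟩
  · rintro (j | j)
    · exact (j : A).2
    · exact (j : A).2
  · rintro (j | j) -
    · exact Finset.mem_image.mpr ⟨j, Finset.mem_union_left _ j.2, rfl⟩
    · exact Finset.mem_image.mpr ⟨j, Finset.mem_union_right _ (Finset.mem_union_left _ j.2), rfl⟩
  · rintro (j | j) (l | l) - hjl
    · have h1 : (j : A) = (l : A) := Subtype.ext hjl
      rw [Subtype.ext h1]
    · have h1 : (j : A) = (l : A) := Subtype.ext hjl
      exact absurd (h1 ▸ j.2) (Finset.disjoint_right.mp hd l.2)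
    · have h1 : (j : A) = (l : A) := Subtype.ext hjl
      exact absurd (h1 ▸ j.2) (Finset.disjoint_left.mp hd l.2)
    · have h1 : (j : A) = (l : A) := Subtype.ext hjl
      rw [Subtype.ext h1]
-- END G5d5

-- BEGIN G5d6
/-- The local theorem if the pivot is one of the `f j`. -/
theorem g5d6_aux {J J' : Type} [Fintype J] [DecidableEq J] [Fintype J'] [DecidableEq J']
    {f : J → A} {g : J' → A} {I : Ideal A} (hI : I = Ideal.span (Set.range f ∪ Set.range g))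
    (hP : PRS A (Sum.elim (fun j => (f j : D)) fun j => (g j : D)))
    {j₀ : J} (hf : (f j₀ : D) ∈ maximalIdeal D) (hf₀ : ∀ j, (f j₀ : D) ∣ f j)
    (hg₀ : ∀ j, (f j₀ : D) ∣ g j) {b : A} (hb0 : (b : D) ≠ 0) (hbm : b ∈ I)
    (hbd : ∀ y ∈ I, (b : D) ∣ y) {k : A} (hk0 : (k : D) ≠ 0)
    (hkm : k ∈ kT (Set.range f) (Set.range g))
    (hkd : ∀ y ∈ kT (Set.range f) (Set.range g), (k : D) ∣ y)
    (hgen : ∀ R' : Subring D, Dom R' → A ≤ R' →
      (∀ y ∈ I, ∀ q : D, (b : D) * q = y → q ∈ R') →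
      (∀ y ∈ kT (Set.range f) (Set.range g), ∀ q : D, (k : D) * q = y → q ∈ R') → R' = ⊤)
    {τA : A →+* A} {θ κ : A} (hτf : ∀ j, τA (f j) = θ * f j) (hτg : ∀ j, τA (g j) = θ * κ * g j)
    (hθ : IsUnit θ) (hκ : IsUnit κ) (hθ1 : IsUnit (θ - 1)) (hκ1 : IsUnit (κ - 1))
    (hκθ : κ - θ ∈ I) (hA : ∀ y : A, τA y - y ∈ I) :
    IsRegularLocalRing D ∧ ∀ τ : D →+* D, (∀ a : A, τ a = τA a) →
      ∃ y, τ y - y ≠ 0 ∧ ∀ w, ∃ c, τ w - w = c * (τ y - y) := by
  have hf0 : (f j₀ : D) ≠ 0 := hP.ne_zero (Sum.inl j₀)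
  have hmul : ∀ R' : Subring D, ∀ hAR : A ≤ R', (∀ j, ∃ q ∈ R', (f j : D) = f j₀ * q) →
      (∀ j, ∃ q ∈ R', (g j : D) = f j₀ * q) → I ≤ mulId R' hAR (f j₀ : D) := by
    intro R' hAR h1 h2
    rw [hI, Ideal.span_le]
    rintro _ (⟨j, rfl⟩ | ⟨j, rfl⟩)
    · exact h1 j
    · exact h2 j
  have hdiv : ∀ y ∈ I, ∃ q : D, (y : D) = q * f j₀ := by
    intro y hy
    obtain ⟨q, -, hq⟩ := hmul ⊤ le_top (fun j => by
      obtain ⟨q, hq⟩ := hf₀ j
      exact ⟨q, Subring.mem_top q, hq⟩) (fun j => by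
      obtain ⟨q, hq⟩ := hg₀ j
      exact ⟨q, Subring.mem_top q, hq⟩) hy
    exact ⟨q, by rw [hq, mul_comm]⟩
  obtain ⟨a, c, o₀, w, ha, hc, hw, hz, htop, hreg⟩ := pivot_tower hP hf hf₀ hg₀ hk0 hkm hkd (by
    intro R' hR' hAR h1 h2 h3
    refine hgen R' hR' hAR ?_ h3
    have hPr : Pr R' I (f j₀ : D) := by
      refine ⟨fun y hy => hmul R' hAR h1 h2 hy, Ideal.mem_map_of_mem A.subtype ?_⟩
      rw [hI]
      exact Ideal.subset_span (Or.inl ⟨j₀, rfl⟩)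
    exact fun y hy q hq => hPr.mem hR' hb0 hbm hbd hy hq)
  refine ⟨hreg, fun τ hτ => ?_⟩
  refine pivot_principal hf0 ha hc hw hz htop (τ := τ) (θ := (θ : D)) (κ := (κ : D)) ?_ ?_
    (hθ.map A.subtype) (hκ.map A.subtype) ?_ ?_ ?_ ?_
  · intro j
    rw [hτ, hτf]
    rfl
  · intro j
    rw [hτ, hτg]
    rfl
  · exact hθ1.map A.subtype
  · exact hκ1.map A.subtype
  · exact hdiv _ hκθ
  · intro y
    rw [hτ]
    exact hdiv _ (hA y)

/-- TASK G5d6. **The local theorem at a tame fixed point.** Let `s₁`, `s₂`, `t` be as in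
`exists_tame_par3` (G5b), `f`, `g` the inclusions of `s₁`, `s₂` (`Set.range f = s₁`). The ideal
`I = (G₁ ∪ G₂)` is `(s₁ ∪ s₂)`: for `y ∈ G₁`, `(η - 1) y = τ y - y ∈ (s₁ ∪ s₂)` by the last statement of
`exists_tame_par3` and `η - 1` is a unit (`h.sub`, `h.sub_sq` for `G₂`), and conversely with `hG`. So
`kT G₁ G₂ = kT s₁ s₂` by `kT_eq` (G5c). `b` divides all elements of `I` in `D`. By `exists_gen` with
`p = 1` and the family `Sum.elim f g` (as in `local_tame_type`, QD/Tame.lean) one of them, the pivot,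
divides the others and is not zero. Note that `ϖ ∈ I` (`(η - 1) ϖ = τ ϖ - ϖ`), so `ϖ` and all `τ a - a`, `a ∈ A`, are
multiples of the pivot in `D`.
If the pivot is `f j₀`: `pivot_tower`, `prs_of_par`, `pivot_principal` with `θ = κ = η`. In `hgen` of
`pivot_tower`: the quotients of the `f j`, `g j` give `Pr R' I (f j₀)` (`mulId`), so `Pr.mem` gives the first
condition of our `hgen`.
If the pivot is `g j₀`: the same with the roles of `f` and `g` exchanged (`PRS.comp` with `Sum.swap`,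
`kT_comm`), `θ = η ^ 2`, `κ = η'`: `θ κ = η`, `κ - θ` by `h.inv_sub_sq`, units by `h.sub_sq`, `h.sub'`. -/
theorem local_tame_type3 [IsRegularLocalRing A] {τA : A →+* A} {η η' ϖ : A}
    (h : TEta τA η η' ϖ) (hdom : Dom A) (hϖ : ϖ ∈ maximalIdeal A)
    (htriv : ∀ a, τA a - a ∈ maximalIdeal A) {G₁ G₂ : Set A} (hG₁ : ∀ y ∈ G₁, τA y = η * y)
    (hG₂ : ∀ y ∈ G₂, τA y = η ^ 2 * y) (hG : ∀ a, τA a - a ∈ Ideal.span (G₁ ∪ G₂))
    {b : A} (hb0 : (b : D) ≠ 0) (hbm : b ∈ Ideal.span (G₁ ∪ G₂))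
    (hbd : ∀ y ∈ Ideal.span (G₁ ∪ G₂), (b : D) ∣ y) {k : A} (hk0 : (k : D) ≠ 0)
    (hkm : k ∈ kT G₁ G₂) (hkd : ∀ y ∈ kT G₁ G₂, (k : D) ∣ y)
    (hgen : ∀ R' : Subring D, Dom R' → A ≤ R' →
      (∀ y ∈ Ideal.span (G₁ ∪ G₂), ∀ q : D, (b : D) * q = y → q ∈ R') →
      (∀ y ∈ kT G₁ G₂, ∀ q : D, (k : D) * q = y → q ∈ R') → R' = ⊤) :
    IsRegularLocalRing D ∧ ∀ τ : D →+* D, (∀ a : A, τ a = τA a) →
      ∃ y, τ y - y ≠ 0 ∧ ∀ w, ∃ c, τ w - w = c * (τ y - y) := by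
  classical
  obtain ⟨s₁, s₂, t, hs₁, hs₂, ht, hdisj, hspan, hcard, hdiff⟩ := exists_tame_par3 h hϖ htriv
  -- the ideals
  have hI : Ideal.span (G₁ ∪ G₂) = Ideal.span ((s₁ : Set A) ∪ s₂) := by
    apply le_antisymm
    · rw [Ideal.span_le]
      rintro y (hy | hy)
      · have h1 : (η - 1) * y ∈ Ideal.span ((s₁ : Set A) ∪ s₂) := by
          have h2 := hdiff y
          rwa [hG₁ y hy, show η * y - y = (η - 1) * y by ring] at h2
        exact (Ideal.unit_mul_mem_iff_mem _ h.sub).1 h1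
      · have h1 : (η ^ 2 - 1) * y ∈ Ideal.span ((s₁ : Set A) ∪ s₂) := by
          have h2 := hdiff y
          rwa [hG₂ y hy, show η ^ 2 * y - y = (η ^ 2 - 1) * y by ring] at h2
        exact (Ideal.unit_mul_mem_iff_mem _ h.sub_sq).1 h1
    · rw [Ideal.span_le]
      rintro y (hy | hy)
      · have h1 : (η - 1) * y ∈ Ideal.span (G₁ ∪ G₂) := by
          have h2 := hG y
          rwa [hs₁ y hy, show η * y - y = (η - 1) * y by ring] at h2
        exact (Ideal.unit_mul_mem_iff_mem _ h.sub).1 h1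
      · have h1 : (η ^ 2 - 1) * y ∈ Ideal.span (G₁ ∪ G₂) := by
          have h2 := hG y
          rwa [hs₂ y hy, show η ^ 2 * y - y = (η ^ 2 - 1) * y by ring] at h2
        exact (Ideal.unit_mul_mem_iff_mem _ h.sub_sq).1 h1
  have hkT : kT G₁ G₂ = kT (s₁ : Set A) (s₂ : Set A) :=
    kT_eq h hG₁ hG₂ (fun y hy => hs₁ y hy) (fun y hy => hs₂ y hy) hI hdiff
  have hϖI : ϖ ∈ Ideal.span (G₁ ∪ G₂) := by
    have h1 : (η - 1) * ϖ ∈ Ideal.span (G₁ ∪ G₂) := by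
      have h2 := hG ϖ
      rwa [h.unif, show η * ϖ - ϖ = (η - 1) * ϖ by ring] at h2
    exact (Ideal.unit_mul_mem_iff_mem _ h.sub).1 h1
  -- the families
  have hr₁ : Set.range (fun j : {y // y ∈ s₁} => (j : A)) = (s₁ : Set A) := Subtype.range_coe
  have hr₂ : Set.range (fun j : {y // y ∈ s₂} => (j : A)) = (s₂ : Set A) := Subtype.range_coe
  have hP := prs_of_par (D := D) hdom hdisj hspan hcard
  have hmax : ∀ y ∈ s₁ ∪ s₂, (y : D) ∈ maximalIdeal D := by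
    intro y hy
    have h1 : y ∈ maximalIdeal A := by
      rw [← hspan]
      refine Ideal.subset_span (Finset.mem_coe.2 ?_)
      rcases Finset.mem_union.1 hy with hy | hy
      · exact Finset.mem_union_left _ hy
      · exact Finset.mem_union_right _ (Finset.mem_union_left _ hy)
    rw [mem_maximalIdeal, mem_nonunits_iff] at h1 ⊢
    exact fun h2 => h1 ((hdom.isUnit_iff y).2 h2)
  -- the pivot
  obtain ⟨i₀, -, hi₀⟩ := exists_gen (A := A) (I := Ideal.span (G₁ ∪ G₂)) (p := 1)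
    (κ := {y // y ∈ s₁} ⊕ {y // y ∈ s₂})
    (g := Sum.elim (fun j : {y // y ∈ s₁} => ((j : A) : D)) fun j : {y // y ∈ s₂} => ((j : A) : D))
    (by
      intro y hy
      rw [hI, ← hr₁, ← hr₂, ← Set.Sum.elim_range] at hy
      obtain ⟨c, hc⟩ := Ideal.mem_span_range_iff_exists_fun.1 hy
      refine ⟨fun i => (c i : D), ?_⟩
      rw [one_mul, ← hc, AddSubmonoidClass.coe_finsetSum]
      refine Finset.sum_congr rfl fun i _ => ?_
      rcases i with j | j <;> rfl)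
    (by
      intro i
      rw [one_mul]
      rcases i with j | j
      · refine Ideal.mem_map_of_mem A.subtype ?_
        rw [hI]
        exact Ideal.subset_span (Or.inl j.2)
      · refine Ideal.mem_map_of_mem A.subtype ?_
        rw [hI]
        exact Ideal.subset_span (Or.inr j.2)) hb0 hbm hbd
  rw [hkT] at hkm hkd hgen
  rcases i₀ with j₀ | j₀
  · refine g5d6_aux (f := fun j : {y // y ∈ s₁} => (j : A)) (g := fun j : {y // y ∈ s₂} => (j : A))
      (I := Ideal.span (G₁ ∪ G₂)) (by rw [hI, hr₁, hr₂]) hP (j₀ := j₀)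
      (hmax _ (Finset.mem_union_left _ j₀.2)) (fun j => hi₀ (Sum.inl j)) (fun j => hi₀ (Sum.inr j))
      hb0 hbm hbd hk0 (by rwa [hr₁, hr₂]) (by rwa [hr₁, hr₂]) (by rwa [hr₁, hr₂])
      (θ := η) (κ := η) (fun j => hs₁ _ j.2) (fun j => by rw [hs₂ _ j.2]; ring) h.isUnit h.isUnit
      h.sub h.sub (by rw [sub_self]; exact Ideal.zero_mem _) hG
  · have hP' : PRS A (Sum.elim (fun j : {y // y ∈ s₂} => ((j : A) : D))
        fun j : {y // y ∈ s₁} => ((j : A) : D)) := by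
      have h1 := hP.comp (Sum.swap : {y // y ∈ s₂} ⊕ {y // y ∈ s₁} → _)
        (Function.LeftInverse.injective Sum.swap_leftInverse)
      have h2 : (fun k : {y // y ∈ s₂} ⊕ {y // y ∈ s₁} =>
          Sum.elim (fun j : {y // y ∈ s₁} => ((j : A) : D))
            (fun j : {y // y ∈ s₂} => ((j : A) : D)) (Sum.swap k)) =
          Sum.elim (fun j : {y // y ∈ s₂} => ((j : A) : D))
            fun j : {y // y ∈ s₁} => ((j : A) : D) := by
        funext k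
        rcases k with j | j <;> rfl
      rwa [h2] at h1
    rw [kT_comm] at hkm hkd hgen
    obtain ⟨a, ha⟩ := h.inv_sub_sq
    refine g5d6_aux (f := fun j : {y // y ∈ s₂} => (j : A)) (g := fun j : {y // y ∈ s₁} => (j : A))
      (I := Ideal.span (G₁ ∪ G₂)) (by rw [hI, hr₁, hr₂, Set.union_comm]) hP' (j₀ := j₀)
      (hmax _ (Finset.mem_union_right _ j₀.2)) (fun j => hi₀ (Sum.inr j)) (fun j => hi₀ (Sum.inl j))
      hb0 hbm hbd hk0 (by rwa [hr₁, hr₂]) (by rwa [hr₁, hr₂]) (by rwa [hr₁, hr₂])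
      (θ := η ^ 2) (κ := η') (fun j => hs₂ _ j.2)
      (fun j => by rw [hs₁ _ j.2]; linear_combination (-η * (j : A)) * h.inv) (h.isUnit.pow 2)
      h.isUnit' h.sub_sq h.sub' (by rw [ha]; exact Ideal.mul_mem_left _ _ hϖI) hG
-- END G5d6


end Pool.Agent.Lib.MP_6a3dac_ag.W3
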