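import Pool.Agent.Lib.MP_6a3dac_ag.W3.G4d
import Pool.Agent.Lib.MP_6a3dac_ag.W3.G5a
import Pool.Agent.Lib.MP_6a3dac_ag.QD.Gens

/-!
# The arithmetic of tamely ramified primes, and the ideals which are blown up
-/

set_option autoImplicit false
set_option linter.unusedSectionVars false
set_option linter.unusedVariables false

namespace Pool.Agent.Lib.MP_6a3dac_ag.W3

open Pool.Agent.Lib.MP_6a3dac_ag Pool.Agent.Lib.MP_6a3dac_ag.QD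

section Eta

/-- The multiplier of the uniformizer, in a subring `Λ`. -/
structure TLam {M : Type} [CommRing M] (τ : M →+* M) (Λ : Subring M) (η η' ϖ : M) : Prop where
  ϖmem : ϖ ∈ Λ
  mem : η ∈ Λ
  mem' : η' ∈ Λ
  norm : η * τ η * τ (τ η) = 1
  inv : η * η' = 1
  sub : ∃ c ∈ Λ, (η - 1) * c = 1
  add : ∃ c ∈ Λ, (η + 1) * c = 1
  quad : ∃ c ∈ Λ, η ^ 2 + η + 1 = c * ϖ
  unif : τ ϖ = η * ϖ
  three : ∃ c ∈ Λ, (3 : M) * c = 1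
  diff : ∀ c ∈ Λ, ∃ d ∈ Λ, τ c - c = d * ϖ

theorem TLam.teta_self {M : Type} [CommRing M] {τ : M →+* M} {Λ : Subring M} {η η' ϖ : M}
    (h : TLam τ Λ η η' ϖ) (hτ : ∀ m, τ (τ (τ m)) = m) : TEta τ η η' ϖ := by
  obtain ⟨c1, -, h1⟩ := h.sub
  obtain ⟨c2, -, h2⟩ := h.add
  obtain ⟨c3, -, h3⟩ := h.quad
  obtain ⟨c4, -, h4⟩ := h.three
  obtain ⟨c5, -, h5⟩ := h.diff η h.mem
  exact ⟨hτ, h.norm, h.inv, IsUnit.of_mul_eq_one _ h1, IsUnit.of_mul_eq_one _ h2, ⟨c3, h3⟩, h.unif,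
    IsUnit.of_mul_eq_one _ h4, ⟨c5, h5⟩⟩

variable {R O L M : Type} [CommRing R] [CommRing O] [Algebra R O] [Field L] [Algebra R L]
  [Algebra O L] [IsScalarTower R O L] [CommRing M] [Algebra L M] [Algebra R M]
  [IsScalarTower R L M]
  {τ : M →+* M} {p : Ideal R} [hp : p.IsPrime] {ϖ : O}

-- BEGIN G5e1
/-- TASK G5e1. `η`, `ε` from `Ram.exists_mult` (G4d, `s = 1`), `η = 1 + ε`, so `sub` with `ε'`;
`η' = τ η * τ (τ η)`, in `Λ = lamP O L M p` by `Ram.map_mem` (QD/Arith.lean). `quad`: by `diff`, `τ η = η + d ϖ`,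
`τ (τ η) = τ η + ...`, so `1 = η τ η τ² η = η ^ 3 + ϖ e` with `e ∈ Λ` and
`η ^ 2 + η + 1 = (η ^ 3 - 1) ε'`. `add`: `η (η + 1) = -1 + c ϖ`; `η + 1` is a unit of `Λ` by `h.dvr`:
otherwise `η + 1 = ϖ c'`, so `1 = ϖ (c - η c')`, a contradiction to `h.nonunit`. -/
theorem Ram.exists_tlam [IsDomain M] (h : Ram O L M τ p ϖ 1) (hϖ : oM O L M ϖ ≠ 0)
    (hτ : ∀ m, τ (τ (τ m)) = m) (h3 : ∃ c ∈ lamP O L M p, (3 : M) * c = 1) :
    ∃ η η', TLam τ (lamP O L M p) η η' (oM O L M ϖ) := by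
  obtain ⟨η, hη, hτϖ, hnorm, ε, hε, ε', hε', hεε, hη1⟩ := Ram.exists_mult h hϖ hτ
  rw [Nat.sub_self, pow_zero, mul_one] at hη1
  have hdiff : ∀ c ∈ lamP O L M p, ∃ d ∈ lamP O L M p, τ c - c = d * oM O L M ϖ := by
    intro c hc
    obtain ⟨d, hd, h1⟩ := h.diff c hc
    rw [pow_one] at h1
    exact ⟨d, hd, h1⟩
  have hτη := Ram.map_mem h hη
  have hττη := Ram.map_mem h hτη
  obtain ⟨d, hd, e1⟩ := hdiff η hη
  obtain ⟨d', hd', e2⟩ := hdiff (τ η) hτη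
  have hsub : (η - 1) * ε' = 1 := by
    rw [hη1]
    linear_combination hεε
  have hW := oM_mem_lamP (O := O) (L := L) (M := M) p ϖ
  obtain ⟨c, hc, hquad⟩ : ∃ c ∈ lamP O L M p, η ^ 2 + η + 1 = c * oM O L M ϖ := by
    refine ⟨-(ε' * (η * (η * (d + d') + d * η + d * (d + d') * oM O L M ϖ))), ?_, ?_⟩
    · refine Subring.neg_mem _ (Subring.mul_mem _ hε' (Subring.mul_mem _ hη ?_))
      exact Subring.add_mem _ (Subring.add_mem _ (Subring.mul_mem _ hη (Subring.add_mem _ hd hd'))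
        (Subring.mul_mem _ hd hη)) (Subring.mul_mem _ (Subring.mul_mem _ hd
          (Subring.add_mem _ hd hd')) hW)
    · have e3 : τ η = η + d * oM O L M ϖ := by linear_combination e1
      have e4 : τ (τ η) = η + (d + d') * oM O L M ϖ := by linear_combination e1 + e2
      have e5 := hnorm
      rw [e4, e3] at e5
      linear_combination (-(η ^ 2 + η + 1)) * hsub + ε' * e5
  refine ⟨η, τ η * τ (τ η), hW, hη, Subring.mul_mem _ hτη hττη, hnorm, ?_, ⟨ε', hε', hsub⟩, ?_,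
    ⟨c, hc, hquad⟩, hτϖ, h3, hdiff⟩
  · rw [← mul_assoc]
    exact hnorm
  · rcases h.dvr (η + 1) (Subring.add_mem _ hη (Subring.one_mem _)) with h4 | ⟨c', hc', h4⟩
    · exact h4
    · exfalso
      refine h.nonunit (c - η * c') (Subring.sub_mem _ hc (Subring.mul_mem _ hη hc')) ?_
      linear_combination -hquad + η * h4
-- END G5e1

end Eta

section Cent

variable {M I : Type} [CommRing M] (x : I → M) (τ : M →+* M) (η' ϖ : M)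

/-- The forms of the first kind. -/
def tL1 : Set M := {m | ∃ k, m = tw τ η' (x k) ∨ m = ϖ * x k}

/-- The forms of the second kind. -/
def tL2 : Set M := {m | ∃ k, m = tw τ (η' ^ 2) (x k)}

/-- The generators of the ideals which are blown up. -/
def tB : ℕ → Set M
  | 1 => {b | ∃ l ∈ tL1 x τ η' ϖ ∪ tL2 x τ η', ∃ i k, b = l * (x i * x k)}
  | 2 => {b | ∃ l ∈ tL1 x τ η' ϖ ∪ tL2 x τ η', ∃ l' ∈ tL1 x τ η' ϖ ∪ tL2 x τ η', ∃ i,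
      b = l * l' * x i}
  | 3 => {b | ∃ l ∈ tL1 x τ η' ϖ, ∃ l' ∈ tL2 x τ η', ∃ i, b = l * l' * x i} ∪
      ({b | ∃ l ∈ tL1 x τ η' ϖ, ∃ l' ∈ tL1 x τ η' ϖ, ∃ l'' ∈ tL1 x τ η' ϖ, b = l * l' * l''} ∪
        {b | ∃ l ∈ tL2 x τ η', ∃ l' ∈ tL2 x τ η', ∃ l'' ∈ tL2 x τ η', b = l * l' * l''})
  | j => {b | ∃ i, b = ϖ ^ j * x i ^ 3}

end Cent

section Cent'

variable {R O L M I : Type} [CommRing R] [CommRing O] [Algebra R O] [Field L] [Algebra R L]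
  [Algebra O L] [IsScalarTower R O L] [CommRing M] [Algebra L M] [Algebra R M]
  [IsScalarTower R L M] {ℳ : ℕ → Submodule L M} [GradedAlgebra ℳ]
  {τ : M →+* M} {p : Ideal R} [hp : p.IsPrime] {ϖ : O} [Finite I] {x : I → M} {η η' : M}

-- BEGIN G5e2
private theorem g5e2_default {M I : Type} [CommRing M] (x : I → M) (τ : M →+* M) (η' ϖ : M)
    (j : ℕ) (h1 : j ≠ 1) (h2 : j ≠ 2) (h3 : j ≠ 3) :
    tB x τ η' ϖ j = {b | ∃ i, b = ϖ ^ j * x i ^ 3} := by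
  match j with
  | 0 => rfl
  | 1 => exact absurd rfl h1
  | 2 => exact absurd rfl h2
  | 3 => exact absurd rfl h3
  | j + 4 => rfl

private theorem g5e2_fin {M I : Type} [CommRing M] [Finite I] {x : I → M} {τ : M →+* M}
    {η' ϖ : M} (j : ℕ) : (tB x τ η' ϖ j).Finite := by
  have hT1 : (tL1 x τ η' ϖ).Finite := by
    refine ((Set.finite_range fun k => tw τ η' (x k)).union
      (Set.finite_range fun k => ϖ * x k)).subset ?_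
    rintro m ⟨k, hm | hm⟩
    · exact Or.inl ⟨k, hm.symm⟩
    · exact Or.inr ⟨k, hm.symm⟩
  have hT2 : (tL2 x τ η').Finite := by
    refine (Set.finite_range fun k => tw τ (η' ^ 2) (x k)).subset ?_
    rintro m ⟨k, hm⟩
    exact ⟨k, hm.symm⟩
  have hX : (Set.range x).Finite := Set.finite_range x
  have key : ∀ S T U : Set M, S.Finite → T.Finite → U.Finite →
      {b | ∃ l ∈ S, ∃ l' ∈ T, ∃ l'' ∈ U, b = l * l' * l''}.Finite := by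
    intro S T U hS hT hU
    refine (((hS.prod hT).prod hU).image fun q => q.1.1 * q.1.2 * q.2).subset ?_
    rintro b ⟨l, hl, l', hl', l'', hl'', rfl⟩
    exact ⟨((l, l'), l''), ⟨⟨hl, hl'⟩, hl''⟩, rfl⟩
  have hS := hT1.union hT2
  by_cases h1 : j = 1
  · subst h1
    refine (key _ _ _ hS hX hX).subset ?_
    rintro b ⟨l, hl, i, k, rfl⟩
    exact ⟨l, hl, x i, ⟨i, rfl⟩, x k, ⟨k, rfl⟩, (mul_assoc _ _ _).symm⟩
  by_cases h2 : j = 2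
  · subst h2
    refine (key _ _ _ hS hS hX).subset ?_
    rintro b ⟨l, hl, l', hl', i, rfl⟩
    exact ⟨l, hl, l', hl', x i, ⟨i, rfl⟩, rfl⟩
  by_cases h3 : j = 3
  · subst h3
    refine Set.Finite.union ?_ ((key _ _ _ hT1 hT1 hT1).union (key _ _ _ hT2 hT2 hT2))
    refine (key _ _ _ hT1 hT2 hX).subset ?_
    rintro b ⟨l, hl, l', hl', i, rfl⟩
    exact ⟨l, hl, l', hl', x i, ⟨i, rfl⟩, rfl⟩
  rw [g5e2_default x τ η' ϖ j h1 h2 h3]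
  refine (Set.finite_range fun i => ϖ ^ j * x i ^ 3).subset ?_
  rintro b ⟨i, rfl⟩
  exact ⟨i, rfl⟩

private theorem g5e2_pow {M I : Type} [CommRing M] {x : I → M} {τ : M →+* M}
    {η' ϖ : M} (j : ℕ) (i : I) : ϖ ^ j * x i ^ 3 ∈ tB x τ η' ϖ j := by
  have hl : ϖ * x i ∈ tL1 x τ η' ϖ := ⟨i, Or.inr rfl⟩
  by_cases h1 : j = 1
  · subst h1
    exact ⟨ϖ * x i, Or.inl hl, i, i, by ring⟩
  by_cases h2 : j = 2
  · subst h2
    exact ⟨ϖ * x i, Or.inl hl, ϖ * x i, Or.inl hl, i, by ring⟩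
  by_cases h3 : j = 3
  · subst h3
    exact Or.inr (Or.inl ⟨ϖ * x i, hl, ϖ * x i, hl, ϖ * x i, hl, by ring⟩)
  rw [g5e2_default x τ η' ϖ j h1 h2 h3]
  exact ⟨i, rfl⟩

private theorem g5e2_deg (hη' : η' ∈ ℳ 0) {q : M} (hq : q ∈ ℳ 0)
    (hτgr : ∀ n m, m ∈ ℳ n → τ m ∈ ℳ n) (hxdeg : ∀ i, x i ∈ ℳ 1) (j : ℕ) :
    ∀ b ∈ tB x τ η' q j, b ∈ ℳ 3 := by
  have hm01 : ∀ {a b : M}, a ∈ ℳ 0 → b ∈ ℳ 1 → a * b ∈ ℳ 1 := by
    intro a b ha hb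
    have h := SetLike.mul_mem_graded ha hb
    rwa [zero_add] at h
  have hm00 : ∀ {a b : M}, a ∈ ℳ 0 → b ∈ ℳ 0 → a * b ∈ ℳ 0 := by
    intro a b ha hb
    have h := SetLike.mul_mem_graded ha hb
    rwa [zero_add] at h
  have hm3 : ∀ {a b c : M}, a ∈ ℳ 1 → b ∈ ℳ 1 → c ∈ ℳ 1 → a * b * c ∈ ℳ 3 :=
    fun ha hb hc => SetLike.mul_mem_graded (SetLike.mul_mem_graded ha hb) hc
  have htw : ∀ θ ∈ ℳ 0, ∀ k, tw τ θ (x k) ∈ ℳ 1 := fun θ hθ k =>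
    Submodule.add_mem _ (Submodule.add_mem _ (hxdeg k) (hm01 hθ (hτgr _ _ (hxdeg k))))
      (hm01 (hm00 hθ (hτgr _ _ hθ)) (hτgr _ _ (hτgr _ _ (hxdeg k))))
  have hsq : η' ^ 2 ∈ ℳ 0 := by
    rw [sq]
    exact hm00 hη' hη'
  have hT1 : ∀ l ∈ tL1 x τ η' q, l ∈ ℳ 1 := by
    rintro l ⟨k, rfl | rfl⟩
    · exact htw _ hη' k
    · exact hm01 hq (hxdeg k)
  have hT2 : ∀ l ∈ tL2 x τ η', l ∈ ℳ 1 := by
    rintro l ⟨k, rfl⟩
    exact htw _ hsq k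
  have hS : ∀ l ∈ tL1 x τ η' q ∪ tL2 x τ η', l ∈ ℳ 1 := by
    rintro l (hl | hl)
    · exact hT1 l hl
    · exact hT2 l hl
  by_cases h1 : j = 1
  · subst h1
    rintro b ⟨l, hl, i, k, rfl⟩
    rw [← mul_assoc]
    exact hm3 (hS l hl) (hxdeg i) (hxdeg k)
  by_cases h2 : j = 2
  · subst h2
    rintro b ⟨l, hl, l', hl', i, rfl⟩
    exact hm3 (hS l hl) (hS l' hl') (hxdeg i)
  by_cases h3 : j = 3
  · subst h3
    rintro b (⟨l, hl, l', hl', i, rfl⟩ | ⟨l, hl, l', hl', l'', hl'', rfl⟩ |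
      ⟨l, hl, l', hl', l'', hl'', rfl⟩)
    · exact hm3 (hT1 l hl) (hT2 l' hl') (hxdeg i)
    · exact hm3 (hT1 l hl) (hT1 l' hl') (hT1 l'' hl'')
    · exact hm3 (hT2 l hl) (hT2 l' hl') (hT2 l'' hl'')
  rw [g5e2_default x τ η' q j h1 h2 h3]
  rintro b ⟨i, rfl⟩
  have h4 : q ^ j ∈ ℳ 0 := by
    have h := SetLike.pow_mem_graded j hq
    rwa [smul_zero] at h
  have h5 : x i ^ 3 ∈ ℳ 3 := by
    have h := SetLike.pow_mem_graded 3 (hxdeg i)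
    rwa [smul_eq_mul, mul_one] at h
  have h6 := SetLike.mul_mem_graded h4 h5
  rwa [zero_add] at h6

private theorem g5e2_star {M I : Type} [CommRing M] {x : I → M} {τ : M →+* M} {Λ : Subring M}
    {η η' q : M} (h : TLam τ Λ η η' q) (hτ : ∀ m, τ (τ (τ m)) = m)
    (hstar : ∀ l, ∃ l', τ (x l) = x l') (j : ℕ) :
    ∀ b ∈ tB x τ η' q j, ∃ c ∈ Λ, ∃ b' ∈ tB x τ η' q j, τ b = c * b' := by
  have ht := h.teta_self hτ
  have hT1 : ∀ l ∈ tL1 x τ η' q, ∃ c ∈ Λ, ∃ l' ∈ tL1 x τ η' q, τ l = c * l' := by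
    rintro l ⟨k, rfl | rfl⟩
    · exact ⟨η, h.mem, _, ⟨k, Or.inl rfl⟩, ht.tw1 (x k)⟩
    · obtain ⟨k', hk'⟩ := hstar k
      refine ⟨η, h.mem, q * x k', ⟨k', Or.inr rfl⟩, ?_⟩
      rw [map_mul, h.unif, hk', mul_assoc]
  have hT2 : ∀ l ∈ tL2 x τ η', ∃ c ∈ Λ, ∃ l' ∈ tL2 x τ η', τ l = c * l' := by
    rintro l ⟨k, rfl⟩
    exact ⟨η ^ 2, Λ.pow_mem h.mem 2, _, ⟨k, rfl⟩, ht.tw2 (x k)⟩
  have hS : ∀ l ∈ tL1 x τ η' q ∪ tL2 x τ η', ∃ c ∈ Λ, ∃ l' ∈ tL1 x τ η' q ∪ tL2 x τ η',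
      τ l = c * l' := by
    rintro l (hl | hl)
    · obtain ⟨c, hc, l', hl', h1⟩ := hT1 l hl
      exact ⟨c, hc, l', Or.inl hl', h1⟩
    · obtain ⟨c, hc, l', hl', h1⟩ := hT2 l hl
      exact ⟨c, hc, l', Or.inr hl', h1⟩
  by_cases h1 : j = 1
  · subst h1
    rintro b ⟨l, hl, i, k, rfl⟩
    obtain ⟨c, hc, l', hl', e1⟩ := hS l hl
    obtain ⟨i', hi'⟩ := hstar i
    obtain ⟨k', hk'⟩ := hstar k
    refine ⟨c, hc, l' * (x i' * x k'), ⟨l', hl', i', k', rfl⟩, ?_⟩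
    rw [map_mul, map_mul, e1, hi', hk']
    ring
  by_cases h2 : j = 2
  · subst h2
    rintro b ⟨l, hl, l', hl', i, rfl⟩
    obtain ⟨c, hc, m, hm, e1⟩ := hS l hl
    obtain ⟨c', hc', m', hm', e2⟩ := hS l' hl'
    obtain ⟨i', hi'⟩ := hstar i
    refine ⟨c * c', Λ.mul_mem hc hc', m * m' * x i', ⟨m, hm, m', hm', i', rfl⟩, ?_⟩
    rw [map_mul, map_mul, e1, e2, hi']
    ring
  by_cases h3 : j = 3
  · subst h3
    rintro b (⟨l, hl, l', hl', i, rfl⟩ | ⟨l, hl, l', hl', l'', hl'', rfl⟩ |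
      ⟨l, hl, l', hl', l'', hl'', rfl⟩)
    · obtain ⟨c, hc, m, hm, e1⟩ := hT1 l hl
      obtain ⟨c', hc', m', hm', e2⟩ := hT2 l' hl'
      obtain ⟨i', hi'⟩ := hstar i
      refine ⟨c * c', Λ.mul_mem hc hc', m * m' * x i', Or.inl ⟨m, hm, m', hm', i', rfl⟩, ?_⟩
      rw [map_mul, map_mul, e1, e2, hi']
      ring
    · obtain ⟨c, hc, m, hm, e1⟩ := hT1 l hl
      obtain ⟨c', hc', m', hm', e2⟩ := hT1 l' hl'
      obtain ⟨c'', hc'', m'', hm'', e3⟩ := hT1 l'' hl''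
      refine ⟨c * c' * c'', Λ.mul_mem (Λ.mul_mem hc hc') hc'', m * m' * m'',
        Or.inr (Or.inl ⟨m, hm, m', hm', m'', hm'', rfl⟩), ?_⟩
      rw [map_mul, map_mul, e1, e2, e3]
      ring
    · obtain ⟨c, hc, m, hm, e1⟩ := hT2 l hl
      obtain ⟨c', hc', m', hm', e2⟩ := hT2 l' hl'
      obtain ⟨c'', hc'', m'', hm'', e3⟩ := hT2 l'' hl''
      refine ⟨c * c' * c'', Λ.mul_mem (Λ.mul_mem hc hc') hc'', m * m' * m'',
        Or.inr (Or.inr ⟨m, hm, m', hm', m'', hm'', rfl⟩), ?_⟩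
      rw [map_mul, map_mul, e1, e2, e3]
      ring
  rw [g5e2_default x τ η' q j h1 h2 h3]
  rintro b ⟨i, rfl⟩
  obtain ⟨i', hi'⟩ := hstar i
  refine ⟨η ^ j, Λ.pow_mem h.mem j, q ^ j * x i' ^ 3, ⟨i', rfl⟩, ?_⟩
  rw [map_mul, map_pow, map_pow, h.unif, hi', mul_pow, mul_assoc]

/-- TASK G5e2. The hypotheses on the generators. `δ = 3`. `fin`: images of finite types (`Set.finite_range`, or
`Set.Finite.subset` / `Set.Finite.image2`; `tL1`, `tL2` are finite as `I` is). `deg`: `tw τ θ (x k) ∈ ℳ 1` for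
`θ ∈ Λ` (`lamP_deg` in QWGens.lean: elements of `lamP` lie in `ℳ 0`; `SetLike.mul_mem_graded`, `hτgr`). `pow`:
`ϖ x · x x`, `(ϖ x) (ϖ x) x`, `(ϖ x) (ϖ x) (ϖ x)` for `j = 1, 2, 3`. `star`: `τ (tw τ η' (x k)) = η * tw τ η' (x k)` (`tw_eig`,
`τ (ϖ * x k) = η * (ϖ * x k')`, `τ (tw τ (η' ^ 2) (x k)) = η ^ 2 * tw τ (η' ^ 2) (x k)`, as in
`TEta.tw1`, `TEta.tw2` (G5a) for `h.teta_self hτ`), and for `j ≠ 1, 2, 3` `τ (ϖ ^ j) = η ^ j ϖ ^ j`. -/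
theorem cent_tB (h : TLam τ (lamP O L M p) η η' (oM O L M ϖ)) (hϖ0 : ϖ ≠ 0)
    (hτ : ∀ m, τ (τ (τ m)) = m) (hτgr : ∀ n m, m ∈ ℳ n → τ m ∈ ℳ n) (hxdeg : ∀ i, x i ∈ ℳ 1)
    (hstar : ∀ l, ∃ l', τ (x l) = x l') :
    Cent ℳ x τ p ϖ 3 3 (tB x τ η' (oM O L M ϖ)) where
  ϖ0 := hϖ0
  δpos := by norm_num
  fin j := g5e2_fin j
  deg j := g5e2_deg (lamP_deg p h.mem') (lamP_deg p h.ϖmem) hτgr hxdeg j
  pow j i := g5e2_pow j i
  η := ⟨η, h.mem, h.unif⟩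
  star j := g5e2_star h hτ hstar j
-- END G5e2

end Cent'

end Pool.Agent.Lib.MP_6a3dac_ag.W3
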