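import Pool.Agent.Lib.MP_6a3dac_ag.W3.CaseV
import Pool.Agent.Lib.MP_6a3dac_ag.W3.CaseU
import Pool.Agent.Lib.MP_6a3dac_ag.W3.CaseP

/-!
# The local theorem at a wild fixed point of an automorphism of order three
-/

set_option autoImplicit false
set_option linter.unusedSectionVars false
set_option linter.unusedVariables false

namespace Pool.Agent.Lib.MP_6a3dac_ag.W3

open IsLocalRing
open Pool.Agent.Lib.MP_6a3dac_ag Pool.Agent.Lib.MP_6a3dac_ag.QD

variable {D : Type} [CommRing D] [IsDomain D] [IsLocalRing D] {A : Subring D} {J : Type}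
  [Fintype J] [DecidableEq J] {ϖ c : A} {u v : J → A} {n : ℕ}

/-- The ring `D` is a local ring of the blow-up of all the ideals. -/
structure Blow (ϖ c : A) (u v : J → A) (n : ℕ) (b : ℕ → A) : Prop where
  ne : ∀ j ≤ 3 * n + 2, (b j : D) ≠ 0
  mem : ∀ j ≤ 3 * n + 2, b j ∈ cenI ϖ u v c n j
  dvd : ∀ j ≤ 3 * n + 2, ∀ y ∈ cenI ϖ u v c n j, (b j : D) ∣ y
  top : ∀ R' : Subring D, Dom R' → A ≤ R' →
    (∀ j ≤ 3 * n + 2, ∀ y ∈ cenI ϖ u v c n j, ∀ q : D, (b j : D) * q = y → q ∈ R') → R' = ⊤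

theorem cenI_k {l : ℕ} (hl : 1 ≤ l) (hl2 : l ≤ 2 * n + 2) :
    cenI ϖ u v c n (l - 1) = kI ϖ u v l := by
  have h1 : l - 1 < 2 * n + 2 := by omega
  have h2 : l - 1 + 1 = l := by omega
  rw [cenI, if_pos h1, h2]

theorem cenI_r {k : ℕ} (hk : k < n) : cenI ϖ u v c n (2 * n + 2 + k) = rI ϖ u v k := by
  have h1 : ¬ 2 * n + 2 + k < 2 * n + 2 := by omega
  have h2 : 2 * n + 2 + k < 3 * n + 2 := by omega
  have h3 : 2 * n + 2 + k - (2 * n + 2) = k := by omega
  rw [cenI, if_neg h1, if_pos h2, h3]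

theorem cenI_s : cenI ϖ u v c n (3 * n + 2) = sI ϖ u v c n := by
  have h1 : ¬ 3 * n + 2 < 2 * n + 2 := by omega
  have h2 : ¬ 3 * n + 2 < 3 * n + 2 := by omega
  rw [cenI, if_neg h1, if_neg h2]

theorem cenI_cases {P : Ideal A → Prop} (h1 : ∀ l, 1 ≤ l → l ≤ 2 * n + 2 → P (kI ϖ u v l))
    (h2 : ∀ k < n, P (rI ϖ u v k)) (h3 : P (sI ϖ u v c n)) {j : ℕ} (hj : j ≤ 3 * n + 2) :
    P (cenI ϖ u v c n j) := by
  rw [cenI]
  split_ifs with h4 h5
  · exact h1 _ (by omega) (by omega)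
  · exact h2 _ (by omega)
  · exact h3

theorem Blow.eq_top {b : ℕ → A} (hB : Blow ϖ c u v n b) {R : Subring D} (hR : Dom R)
    (hA : A ≤ R) (hk : ∀ l, 1 ≤ l → l ≤ 2 * n + 2 → ∃ p, Pr R (kI ϖ u v l) p)
    (hr : ∀ k < n, ∃ p, Pr R (rI ϖ u v k) p) (hs : ∃ p, Pr R (sI ϖ u v c n) p) : R = ⊤ := by
  refine hB.top R hR hA fun j hj y hy q hq => ?_
  obtain ⟨p, hp⟩ := cenI_cases (P := fun I => ∃ p, Pr R I p) hk hr hs hj
  exact hp.mem hR (hB.ne j hj) (hB.mem j hj) (hB.dvd j hj) hy hq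

/-- The ideal becomes principal in `D`, generated by an element of `A`. -/
def Gen (I : Ideal A) : Prop := ∃ b : A, (b : D) ≠ 0 ∧ b ∈ I ∧ ∀ y ∈ I, (b : D) ∣ y

theorem Blow.gen {b : ℕ → A} (hB : Blow ϖ c u v n b) {j : ℕ} (hj : j ≤ 3 * n + 2) :
    Gen (cenI ϖ u v c n j) := ⟨b j, hB.ne j hj, hB.mem j hj, hB.dvd j hj⟩

theorem Blow.gen_k {b : ℕ → A} (hB : Blow ϖ c u v n b) {l : ℕ} (hl : 1 ≤ l) (hl2 : l ≤ 2 * n + 2) :
    Gen (kI ϖ u v l) := by
  rw [← cenI_k (c := c) hl hl2]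
  exact hB.gen (by omega)

theorem Blow.gen_r {b : ℕ → A} (hB : Blow ϖ c u v n b) {k : ℕ} (hk : k < n) :
    Gen (rI ϖ u v k) := by
  rw [← cenI_r (c := c) hk]
  exact hB.gen (by omega)

theorem Blow.gen_s {b : ℕ → A} (hB : Blow ϖ c u v n b) : Gen (sI ϖ u v c n) := by
  rw [← cenI_s]
  exact hB.gen le_rfl

/-- The conclusion of the local theorem. -/
def LocRes (ϖ c : A) (u v : J → A) (n : ℕ) : Prop :=
  IsRegularLocalRing D ∧ ∀ (τ : D →+* D) (ε κ l μ : D), WTau τ ϖ c u v n ε κ l μ →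
    (∀ j, ∃ x, τ x - x = u j) → ∃ y, τ y - y ≠ 0 ∧ ∀ w, ∃ a, τ w - w = a * (τ y - y)

section Span

theorem exists_gen_of_le {I : Ideal A} {p : D} {κ : Type} [Fintype κ] {g : κ → D}
    (h1 : I.map A.subtype ≤ Ideal.span {p} * Ideal.span (Set.range g))
    (h2 : ∀ i, p * g i ∈ I.map A.subtype) (hI : Gen I) :
    ∃ i₀, g i₀ ≠ 0 ∧ ∀ i, ∃ q, g i₀ * q = g i := by
  obtain ⟨b, hb0, hbm, hbd⟩ := hI
  have h0 : ∀ y ∈ I, ∃ c : κ → D, (y : D) = p * ∑ i, c i * g i := by
    intro y hy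
    have h3 := h1 (Ideal.mem_map_of_mem A.subtype hy)
    rw [Ideal.mem_span_singleton_mul] at h3
    obtain ⟨z, hz, hyz⟩ := h3
    obtain ⟨d, hd⟩ := (Ideal.mem_span_range_iff_exists_fun).mp hz
    exact ⟨d, by rw [hd, hyz]; rfl⟩
  obtain ⟨i₀, h3, h4⟩ := exists_gen h0 h2 hb0 hbm hbd
  refine ⟨i₀, h3, fun i => ?_⟩
  obtain ⟨q, hq⟩ := h4 i
  exact ⟨q, hq.symm⟩

theorem map_le_of_pr {R : Subring D} {I : Ideal A} {p : D} (hp : Pr R I p) :
    I.map A.subtype ≤ Ideal.span {p} := by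
  rw [Ideal.map_le_iff_le_comap]
  intro y hy
  obtain ⟨q, -, hq⟩ := hp.1 y hy
  exact Ideal.mem_span_singleton'.mpr ⟨q, by rw [mul_comm, ← hq]; rfl⟩

theorem map_le_of_mulId {R : Subring D} {hA : A ≤ R} {I : Ideal A} {p : D}
    (hp : I ≤ mulId R hA p) : I.map A.subtype ≤ Ideal.span {p} := by
  rw [Ideal.map_le_iff_le_comap]
  intro y hy
  obtain ⟨q, -, hq⟩ := hp hy
  exact Ideal.mem_span_singleton'.mpr ⟨q, by rw [mul_comm, ← hq]; rfl⟩

theorem mem_of_eq {p : D} {κ : Type} {g : κ → D} {x y : D} (hy : y ∈ Ideal.span (Set.range g))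
    (hx : x = p * y) : x ∈ Ideal.span {p} * Ideal.span (Set.range g) :=
  Ideal.mem_span_singleton_mul.mpr ⟨y, hy, hx.symm⟩

theorem mem_gen {κ : Type} (g : κ → D) (i : κ) (d : D) : g i * d ∈ Ideal.span (Set.range g) :=
  Ideal.mul_mem_right _ _ (Ideal.subset_span ⟨i, rfl⟩)

theorem map_aI_le {k : ℕ} {I : Ideal D} (h1 : (ϖ : D) ^ k ∈ I) (h2 : ∀ j, (u j : D) ∈ I) :
    (aI ϖ u k).map A.subtype ≤ I := by
  rw [aI, Ideal.map_le_iff_le_comap, Ideal.span_le]
  rintro x (rfl | ⟨j, rfl⟩)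
  · exact h1
  · exact h2 j

theorem map_kI_le {l : ℕ} {I₁ I₂ I : Ideal D} (h1 : (aI ϖ u (l / 2)).map A.subtype ≤ I₁)
    (h2 : (aI ϖ u ((l + 1) / 2)).map A.subtype ≤ I₂) (h3 : I₁ * I₂ ≤ I)
    (h4 : ∀ j, (v j : D) ∈ I) : (kI ϖ u v l).map A.subtype ≤ I := by
  rw [kI, Ideal.map_sup, Ideal.map_mul]
  refine sup_le ((Ideal.mul_mono h1 h2).trans h3) ?_
  rw [Ideal.map_le_iff_le_comap, Ideal.span_le]
  rintro x ⟨j, rfl⟩
  exact h4 j

theorem map_sI_le {I : Ideal D} (h1 : ∀ j, (v j : D) - c * (ϖ : D) ^ n * u j ∈ I)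
    (h2 : ∀ j k, (u j : D) * u k ∈ I) (h3 : ∀ j, (ϖ : D) ^ (n + 1) * u j ∈ I)
    (h4 : (ϖ : D) ^ (2 * n + 1) ∈ I) : (sI ϖ u v c n).map A.subtype ≤ I := by
  rw [Ideal.map_le_iff_le_comap, sI, pow_two, Ideal.span_mul_span', Ideal.span_mul_span']
  refine sup_le (sup_le (sup_le ?_ ?_) ?_) ?_ <;> rw [Ideal.span_le]
  · rintro _ ⟨j, rfl⟩
    exact h1 j
  · rintro _ ⟨_, ⟨j, rfl⟩, _, ⟨k, rfl⟩, rfl⟩
    exact h2 j k
  · rintro _ ⟨_, rfl, _, ⟨k, rfl⟩, rfl⟩
    exact h3 k
  · rintro _ rfl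
    exact h4

theorem map_rI_le {m : ℕ} {I₁ I₂ I : Ideal D} (h1 : (kI ϖ u v (2 * m + 2)).map A.subtype ≤ I₁)
    (h2 : I₁ ^ 2 ≤ I) (h3 : (aI ϖ u (m + 1)).map A.subtype ≤ I₂)
    (h4 : ∀ x ∈ I₂ ^ 3, (ϖ : D) ^ m * x ∈ I)
    (h5 : ∀ j, (ϖ : D) ^ m * ((ϖ : D) ^ (m + 1) * v j) ∈ I)
    (h6 : ∀ j k, (ϖ : D) ^ m * ((u j : D) * v k - u k * v j) ∈ I) :
    (rI ϖ u v m).map A.subtype ≤ I := by
  rw [rI, Ideal.map_sup, Ideal.map_mul, Ideal.map_pow]
  refine sup_le ((Ideal.pow_right_mono h1 2).trans h2) ?_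
  rw [Ideal.map_span, Set.image_singleton, Ideal.span_singleton_mul_le_iff]
  rw [Ideal.map_sup, Ideal.map_sup, Ideal.map_pow]
  intro x hx
  have h7 : (aI ϖ u (m + 1)).map A.subtype ^ 3 ⊔
      (Ideal.span {ϖ ^ (m + 1)} * Ideal.span (Set.range v)).map A.subtype ⊔
      (mI u v).map A.subtype ≤ Submodule.comap (LinearMap.mulLeft D ((ϖ : D) ^ m)) I := by
    refine sup_le (sup_le ?_ ?_) ?_
    · intro y hy
      exact h4 y (Ideal.pow_right_mono h3 3 hy)
    · rw [Ideal.span_mul_span', Ideal.map_span, Ideal.span_le]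
      rintro _ ⟨_, ⟨_, rfl, _, ⟨j, rfl⟩, rfl⟩, rfl⟩
      exact h5 j
    · rw [mI, Ideal.map_span, Ideal.span_le]
      rintro _ ⟨_, ⟨⟨j, k⟩, rfl⟩, rfl⟩
      exact h6 j k
  exact h7 hx

end Span

theorem le_dcl {S : Set D} : A ≤ dcl ((A : Set D) ∪ S) := fun _ hx => subset_dcl _ (Or.inl hx)

theorem subset_dcl' {S : Set D} : S ⊆ dcl ((A : Set D) ∪ S) := fun _ hx =>
  subset_dcl _ (Or.inr hx)

section Cases

variable {b : ℕ → A} (h : WHyp A ϖ c u v n) (hB : Blow ϖ c u v n b) {i : ℕ} {u' v' : J → D}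

include h hB

theorem case_L (hL : Lev ϖ u v i u' v') (hi : i = n + 1) : LocRes ϖ c u v n := by
  have hA : A ≤ dcl ((A : Set D) ∪ levSet u' v') := le_dcl
  have hu : ∀ j, u' j ∈ dcl ((A : Set D) ∪ levSet u' v') := fun j =>
    subset_dcl' (Or.inl ⟨j, rfl⟩)
  have hv : ∀ j, v' j ∈ dcl ((A : Set D) ∪ levSet u' v') := fun j =>
    subset_dcl' (Or.inr ⟨j, rfl⟩)
  have htop : dcl ((A : Set D) ∪ levSet u' v') = ⊤ := by
    refine hB.eq_top (dom_dcl _) hA ?_ ?_ ?_
    · exact fun l _ hl => ⟨_, hL.pr_kI hA hu hv (by omega)⟩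
    · exact fun k hk => ⟨_, hL.pr_rI hA hu hv (by omega)⟩
    · exact ⟨_, hL.pr_sI hA hu hv hi⟩
  exact ⟨(hL.prs h).regular_of_top htop, fun τ ε κ l μ hτ _ => hL.principal h hi hτ htop⟩

theorem case_unit (hL : Lev ϖ u v i u' v') (hi : i ≤ n)
    (hun : ∃ j, IsUnit (u' j) ∨ IsUnit (v' j)) : LocRes ϖ c u v n := by
  have hA : A ≤ dcl ((A : Set D) ∪ levSet u' v') := le_dcl
  have hu : ∀ j, u' j ∈ dcl ((A : Set D) ∪ levSet u' v') := fun j =>
    subset_dcl' (Or.inl ⟨j, rfl⟩)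
  have hv : ∀ j, v' j ∈ dcl ((A : Set D) ∪ levSet u' v') := fun j =>
    subset_dcl' (Or.inr ⟨j, rfl⟩)
  have htop : dcl ((A : Set D) ∪ levSet u' v') = ⊤ := by
    refine hB.eq_top (dom_dcl _) hA ?_ ?_ ?_
    · intro l _ hl
      by_cases h1 : l ≤ 2 * i
      · exact ⟨_, hL.pr_kI hA hu hv h1⟩
      · exact ⟨_, hL.unit_kI hA hun hu hv (by omega)⟩
    · intro k hk
      by_cases h1 : k < i
      · exact ⟨_, hL.pr_rI hA hu hv h1⟩
      · exact ⟨_, hL.unit_rI hA hun hu hv (by omega)⟩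
    · exact ⟨_, hL.unit_sI hA hi hun hu hv⟩
  exact ⟨(hL.prs h).regular_of_top htop, fun τ ε κ l μ hτ hx =>
    hL.unit_principal hi hun h hτ hx htop⟩

theorem case_P {m : J} {V : J → D} {P : D} (hP : PHyp ϖ u v n i u' v' m V P) :
    LocRes ϖ c u v n := by
  have hA : A ≤ dcl ((A : Set D) ∪ pSet u' v' V P) := le_dcl
  have hR : pSet u' v' V P ⊆ dcl ((A : Set D) ∪ pSet u' v' V P) := subset_dcl'
  have htop : dcl ((A : Set D) ∪ pSet u' v' V P) = ⊤ := by
    refine hB.eq_top (dom_dcl _) hA ?_ ?_ ?_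
    · intro l _ hl
      by_cases h1 : l ≤ 2 * i
      · exact ⟨_, hP.pr_kI_le hA hR h1⟩
      by_cases h2 : l = 2 * i + 1
      · rw [h2]
        exact ⟨_, hP.pr_kI_one hA hR⟩
      · exact ⟨_, hP.pr_kI_ge hA hR (by omega)⟩
    · intro k hk
      by_cases h1 : k < i
      · exact ⟨_, hP.pr_rI_lt hA hR h1⟩
      by_cases h2 : k = i
      · rw [h2]
        exact ⟨_, hP.pr_rI_eq hA hR⟩
      · exact ⟨_, hP.pr_rI_gt hA hR (by omega)⟩
    · by_cases h1 : i < n
      · exact ⟨_, hP.pr_sI_lt hA hR h h1⟩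
      · exact ⟨_, hP.pr_sI_eq hA hR (le_antisymm hP.le (not_lt.mp h1))⟩
  obtain ⟨κ, f, hf⟩ := hP.prs h
  exact ⟨hf.regular_of_top htop, fun τ ε κ l μ hτ _ => hP.principal h hτ htop⟩

theorem case_V {m : J} {U V : J → D} {P : D} (hV : VHyp ϖ u v n i u' v' m U V P) :
    LocRes ϖ c u v n := by
  classical
  have hk : ∀ (R : Subring D) (hA : A ≤ R) (hR : vSet u' v' U V P ⊆ R) (l : ℕ),
      ∃ p, Pr R (kI ϖ u v l) p := by
    intro R hA hR l
    by_cases h1 : l ≤ 2 * i
    · exact ⟨_, hV.lev.pr_kI hA (fun j => hR (Or.inl (Or.inl ⟨j, rfl⟩)))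
        (fun j => hR (Or.inl (Or.inr ⟨j, rfl⟩))) h1⟩
    · exact ⟨_, hV.pr_kI hA hR (by omega)⟩
  have hr : ∀ (R : Subring D) (hA : A ≤ R) (hR : vSet u' v' U V P ⊆ R) (k : ℕ),
      ∃ p, Pr R (rI ϖ u v k) p := by
    intro R hA hR k
    by_cases h1 : k < i
    · exact ⟨_, hV.lev.pr_rI hA (fun j => hR (Or.inl (Or.inl ⟨j, rfl⟩)))
        (fun j => hR (Or.inl (Or.inr ⟨j, rfl⟩))) h1⟩
    · exact ⟨_, hV.pr_rI hA hR (by omega)⟩
  by_cases hun : i < n ∨ (i = n ∧ (IsUnit P ∨ ∃ j, IsUnit (V j - c * U j)))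
  · have htop : dcl ((A : Set D) ∪ vSet u' v' U V P) = ⊤ := by
      refine hB.eq_top (dom_dcl _) le_dcl ?_ ?_ ?_
      · exact fun l _ _ => hk _ le_dcl subset_dcl' l
      · exact fun k _ => hr _ le_dcl subset_dcl' k
      · rcases hun with h1 | ⟨h1, h2⟩
        · exact ⟨_, hV.pr_sI_lt le_dcl subset_dcl' h h1⟩
        · exact ⟨_, hV.pr_sI_eq le_dcl subset_dcl' h h1 h2⟩
    exact ⟨(hV.prs h).regular_of_top htop, fun τ ε κ l μ hτ _ => hV.principal h hτ hun htop⟩
  · obtain ⟨h1, h2⟩ := not_or.mp hun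
    have hi : i = n := le_antisymm hV.le (not_lt.mp h1)
    have h3 : ¬ (IsUnit P ∨ ∃ j, IsUnit (V j - c * U j)) := fun h4 => h2 ⟨hi, h4⟩
    obtain ⟨h4, h5⟩ := not_or.mp h3
    have hmP : P ∈ maximalIdeal D := (IsLocalRing.mem_maximalIdeal _).mpr h4
    have hmS : ∀ j, V j - c * U j ∈ maximalIdeal D := fun j =>
      (IsLocalRing.mem_maximalIdeal _).mpr fun h6 => h5 ⟨j, h6⟩
    subst hi
    have hUm : IsUnit (U m) := by
      have h6 := hmS m
      rw [hV.V_self h] at h6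
      have h7 : IsUnit ((1 : D) + -(1 - c * U m)) := isUnit_one_add (neg_mem h6)
      have h8 : (1 : D) + -(1 - c * U m) = c * U m := by ring
      rw [h8] at h7
      exact isUnit_of_mul_isUnit_right h7
    have hgen := exists_gen_of_le (I := sI ϖ u v c i)
      (p := (ϖ : D) ^ (2 * i) * v' m) (g := vG v' U V m P c) ?_ ?_ hB.gen_s
    · obtain ⟨o₀, h6, h7⟩ := hgen
      choose q hq using h7
      have hD : VDHyp ϖ c u v i u' v' m U V P o₀ q := ⟨hV, hmP, hmS, h6, hq⟩
      have hR : vSet u' v' U V P ⊆ dcl ((A : Set D) ∪ (vSet u' v' U V P ∪ Set.range q)) :=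
        fun x hx => subset_dcl' (Or.inl hx)
      have htop : dcl ((A : Set D) ∪ (vSet u' v' U V P ∪ Set.range q)) = ⊤ := by
        refine hB.eq_top (dom_dcl _) le_dcl ?_ ?_ ?_
        · exact fun l _ _ => hk _ le_dcl hR l
        · exact fun k _ => hr _ le_dcl hR k
        · exact ⟨_, hD.pr_sI h le_dcl hR fun o => subset_dcl' (Or.inr ⟨o, rfl⟩)⟩
      obtain ⟨κ, f, hf⟩ := hD.prs h
      exact ⟨hf.regular_of_top htop, fun τ ε κ l μ hτ _ => hD.principal h hτ htop⟩
    · have g1 := mem_gen (vG v' U V m P (c : D)) none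
      have g2 := mem_gen (vG v' U V m P (c : D)) (some none)
      have g3 := fun j => mem_gen (vG v' U V m P (c : D)) (some (some j))
      refine map_sI_le ?_ ?_ ?_ ?_
      · intro j
        refine mem_of_eq (g3 j 1) ?_
        change _ = _ * ((V j - c * U j) * 1)
        rw [← hV.lev.ev j, ← hV.lev.eu j, ← hV.eV j, ← hV.eU j]
        ring
      · intro j k
        refine mem_of_eq (g2 (U j * U k)) ?_
        change _ = _ * (v' m * (U j * U k))
        rw [← hV.lev.eu j, ← hV.lev.eu k, ← hV.eU j, ← hV.eU k]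
        ring
      · intro j
        refine mem_of_eq (g1 (v' m * U j)) ?_
        change _ = _ * (P * (v' m * U j))
        rw [← hV.lev.eu j, ← hV.eU j]
        linear_combination (-(ϖ : D) ^ (2 * i) * (v' m * U j)) * hV.eP
      · refine mem_of_eq (g1 1) ?_
        change _ = _ * (P * 1)
        linear_combination (-(ϖ : D) ^ (2 * i)) * hV.eP
    · rintro (_ | _ | j)
      · have h8 := Ideal.mem_map_of_mem A.subtype (pow_mem_sI ϖ u v c i)
        have h9 : A.subtype (ϖ ^ (2 * i + 1)) = (ϖ : D) ^ (2 * i) * v' m * P := by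
          change (ϖ : D) ^ (2 * i + 1) = _
          linear_combination (-(ϖ : D) ^ (2 * i)) * hV.eP
        rw [h9] at h8
        exact h8
      · have h8 := Ideal.mem_map_of_mem A.subtype (uu_mem_sI ϖ u v c i m m)
        obtain ⟨r, hr⟩ := hUm.exists_right_inv
        have h9 : (ϖ : D) ^ (2 * i) * v' m * v' m = A.subtype (u m * u m) * r ^ 2 := by
          change _ = ((u m : D) * u m) * r ^ 2
          rw [← hV.lev.eu m, ← hV.eU m]
          linear_combination (-(ϖ : D) ^ (2 * i) * v' m ^ 2 * (U m * r + 1)) * hr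
        change (ϖ : D) ^ (2 * i) * v' m * v' m ∈ _
        rw [h9]
        exact Ideal.mul_mem_right _ _ h8
      · have h8 := Ideal.mem_map_of_mem A.subtype (s_mem_sI ϖ u v c i j)
        have h9 : A.subtype (v j - c * ϖ ^ i * u j) = (ϖ : D) ^ (2 * i) * v' m * (V j - c * U j) := by
          change (v j : D) - c * (ϖ : D) ^ i * u j = _
          rw [← hV.lev.ev j, ← hV.lev.eu j, ← hV.eV j, ← hV.eU j]
          ring
        rw [h9] at h8
        exact h8

theorem case_U1 {m : J} {U W : J → D} {P : D} {Z : J → D}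
    (hU : U1Hyp ϖ u v n i u' v' m U W P Z) : LocRes ϖ c u v n := by
  have hA : A ≤ dcl ((A : Set D) ∪ (uSet u' v' U W P ∪ Set.range Z)) := le_dcl
  have hR : uSet u' v' U W P ⊆ dcl ((A : Set D) ∪ (uSet u' v' U W P ∪ Set.range Z)) :=
    fun x hx => subset_dcl' (Or.inl hx)
  have hZ : ∀ j, Z j ∈ dcl ((A : Set D) ∪ (uSet u' v' U W P ∪ Set.range Z)) := fun j =>
    subset_dcl' (Or.inr ⟨j, rfl⟩)
  have hu : ∀ j, u' j ∈ dcl ((A : Set D) ∪ (uSet u' v' U W P ∪ Set.range Z)) := fun j =>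
    hR (Or.inl (Or.inl ⟨j, rfl⟩))
  have hv : ∀ j, v' j ∈ dcl ((A : Set D) ∪ (uSet u' v' U W P ∪ Set.range Z)) := fun j =>
    hR (Or.inl (Or.inr ⟨j, rfl⟩))
  have htop : dcl ((A : Set D) ∪ (uSet u' v' U W P ∪ Set.range Z)) = ⊤ := by
    refine hB.eq_top (dom_dcl _) hA ?_ ?_ ?_
    · intro l _ hl
      by_cases h1 : l ≤ 2 * i
      · exact ⟨_, hU.hyp.lev.pr_kI hA hu hv h1⟩
      by_cases h2 : l = 2 * i + 1
      · rw [h2]
        exact ⟨_, hU.hyp.pr_kI_one hA hR⟩
      · exact ⟨_, hU.pr_kI hA hR hZ (by omega)⟩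
    · intro k hk
      by_cases h1 : k < i
      · exact ⟨_, hU.hyp.lev.pr_rI hA hu hv h1⟩
      · exact ⟨_, hU.pr_rI hA hR hZ (by omega)⟩
    · by_cases h1 : i < n
      · exact ⟨_, hU.pr_sI_lt hA hR hZ h1⟩
      · exact ⟨_, hU.hyp.pr_sI_eq hA hR h (le_antisymm hU.hyp.le (not_lt.mp h1))⟩
  obtain ⟨κ, f, hf⟩ := hU.prs h
  exact ⟨hf.regular_of_top htop, fun τ ε κ l μ hτ hx => hU.principal h hτ hx htop⟩

theorem case_UD {m : J} {U W : J → D} {P : D} {V : J → D} {w' : D}
    (hU : U2Hyp ϖ u v n i u' v' m U W P m V w') (hi : i < n) (hmP : P ∈ maximalIdeal D)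
    (hmV : ∀ j, V j - U j ∈ maximalIdeal D) : LocRes ϖ c u v n := by
  have hUm := hU.hyp.U_self h
  have hVm := hU.V_self h
  have hgen := exists_gen_of_le (I := rI ϖ u v i)
    (p := (ϖ : D) ^ (4 * i) * (u' m ^ 2 * W m)) (g := uG U W V m P w') ?_ ?_ (hB.gen_r hi)
  · obtain ⟨o₀, h6, h7⟩ := hgen
    choose r hr using h7
    have hD : UDHyp ϖ u v n i u' v' m U W P V w' o₀ r := ⟨hU, hi, hmP, hmV, h6, hr⟩
    have hA : A ≤ dcl ((A : Set D) ∪ (u2Set u' v' U W P V w' ∪ Set.range r)) := le_dcl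
    have hR2 : u2Set u' v' U W P V w' ⊆
        dcl ((A : Set D) ∪ (u2Set u' v' U W P V w' ∪ Set.range r)) :=
      fun x hx => subset_dcl' (Or.inl hx)
    have hR : uSet u' v' U W P ⊆
        dcl ((A : Set D) ∪ (u2Set u' v' U W P V w' ∪ Set.range r)) :=
      fun x hx => hR2 (Or.inl hx)
    have hu : ∀ j, u' j ∈ dcl ((A : Set D) ∪ (u2Set u' v' U W P V w' ∪ Set.range r)) :=
      fun j => hR (Or.inl (Or.inl ⟨j, rfl⟩))
    have hv : ∀ j, v' j ∈ dcl ((A : Set D) ∪ (u2Set u' v' U W P V w' ∪ Set.range r)) :=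
      fun j => hR (Or.inl (Or.inr ⟨j, rfl⟩))
    have htop : dcl ((A : Set D) ∪ (u2Set u' v' U W P V w' ∪ Set.range r)) = ⊤ := by
      refine hB.eq_top (dom_dcl _) hA ?_ ?_ ?_
      · intro l _ hl
        by_cases h1 : l ≤ 2 * i
        · exact ⟨_, hU.hyp.lev.pr_kI hA hu hv h1⟩
        by_cases h2 : l = 2 * i + 1
        · rw [h2]
          exact ⟨_, hU.hyp.pr_kI_one hA hR⟩
        · exact ⟨_, hU.pr_kI hA hR2 h (by omega)⟩
      · intro k hk
        by_cases h1 : k < i
        · exact ⟨_, hU.hyp.lev.pr_rI hA hu hv h1⟩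
        by_cases h2 : k = i
        · rw [h2]
          exact ⟨_, hD.pr_rI h hA hR2 fun o => subset_dcl' (Or.inr ⟨o, rfl⟩)⟩
        · exact ⟨_, hU.pr_rI hA hR2 h (by omega)⟩
      · exact ⟨_, hU.pr_sI_lt hA hR2 h hi⟩
    obtain ⟨κ, f, hf⟩ := hD.prs h
    exact ⟨hf.regular_of_top htop, fun τ ε κ l μ hτ _ => hD.principal h hτ htop⟩
  · have hA : A ≤ (⊤ : Subring D) := le_top
    have g1 := mem_gen (uG U W V m P w') none
    have g2 := mem_gen (uG U W V m P w') (some none)
    have g3 := mem_gen (uG U W V m P w') (some (some none))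
    have g4 := fun j => mem_gen (uG U W V m P w') (some (some (some j)))
    have hk := map_le_of_pr (hU.pr_kI hA (fun x _ => Subring.mem_top x) h (le_refl (2 * i + 2)))
    have ha := map_le_of_mulId (hU.hyp.aI_le hA (fun x _ => Subring.mem_top x) (le_refl (i + 1)))
    refine map_rI_le hk ?_ ha ?_ ?_ ?_
    · rw [Ideal.span_singleton_pow, Ideal.span_singleton_le_iff_mem]
      refine mem_of_eq (g2 1) ?_
      change _ = _ * (W m * 1)
      ring
    · intro x hx
      rw [Ideal.span_singleton_pow, Ideal.mem_span_singleton'] at hx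
      obtain ⟨d, rfl⟩ := hx
      refine mem_of_eq (g1 d) ?_
      change _ = _ * (w' * d)
      have h1 := hU.ew
      linear_combination (-(ϖ : D) ^ (4 * i) * u' m ^ 2 * d) * h1
    · intro j
      refine mem_of_eq (g3 (V j)) ?_
      change _ = _ * (P * V j)
      rw [← hU.hyp.lev.ev j, ← hU.hyp.eW j, ← hU.eV j]
      linear_combination (-(ϖ : D) ^ (4 * i) * u' m * W m * V j) * hU.hyp.eP
    · intro j k
      have g5 := Ideal.sub_mem _ (g4 k (U j)) (g4 j (U k))
      refine mem_of_eq g5 ?_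
      change _ = _ * ((V k - U k) * U j - (V j - U j) * U k)
      rw [← hU.hyp.lev.ev j, ← hU.hyp.lev.ev k, ← hU.hyp.lev.eu j, ← hU.hyp.lev.eu k,
        ← hU.hyp.eW j, ← hU.hyp.eW k, ← hU.hyp.eU j, ← hU.hyp.eU k, ← hU.eV j, ← hU.eV k]
      ring
  · rintro (_ | _ | _ | j)
    · have h8 := Ideal.mem_map_of_mem A.subtype (cube_mem_rI ϖ u v i (u_mem_aI ϖ u (i + 1) m)
        (u_mem_aI ϖ u (i + 1) m) (u_mem_aI ϖ u (i + 1) m))
      have h9 : A.subtype (ϖ ^ i * (u m * u m * u m)) =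
          (ϖ : D) ^ (4 * i) * (u' m ^ 2 * W m) * w' := by
        change (ϖ : D) ^ i * ((u m : D) * u m * u m) = _
        rw [← hU.hyp.lev.eu m]
        linear_combination (-(ϖ : D) ^ (4 * i) * u' m ^ 2) * hU.ew
      rw [h9] at h8
      exact h8
    · have h8 := Ideal.mem_map_of_mem A.subtype (sq_mem_rI ϖ u v i (v_mem_kI ϖ u v (2 * i + 2) m)
        (v_mem_kI ϖ u v (2 * i + 2) m))
      have h9 : A.subtype (v m * v m) = (ϖ : D) ^ (4 * i) * (u' m ^ 2 * W m) * W m := by
        change (v m : D) * v m = _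
        rw [← hU.hyp.lev.ev m, ← hU.hyp.eW m]
        ring
      rw [h9] at h8
      exact h8
    · have h8 := Ideal.mem_map_of_mem A.subtype (pv_mem_rI ϖ u v i m)
      have h9 : A.subtype (ϖ ^ i * (ϖ ^ (i + 1) * v m)) =
          (ϖ : D) ^ (4 * i) * (u' m ^ 2 * W m) * P := by
        change (ϖ : D) ^ i * ((ϖ : D) ^ (i + 1) * v m) = _
        rw [← hU.hyp.lev.ev m, ← hU.hyp.eW m]
        linear_combination (-(ϖ : D) ^ (4 * i) * u' m * W m) * hU.hyp.eP
      rw [h9] at h8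
      exact h8
    · have h8 := Ideal.mem_map_of_mem A.subtype (minor_mem_rI ϖ u v i m j)
      have h9 : A.subtype (ϖ ^ i * (u m * v j - u j * v m)) =
          (ϖ : D) ^ (4 * i) * (u' m ^ 2 * W m) * (V j - U j) := by
        change (ϖ : D) ^ i * ((u m : D) * v j - u j * v m) = _
        rw [← hU.hyp.lev.ev j, ← hU.hyp.lev.ev m, ← hU.hyp.lev.eu j, ← hU.hyp.lev.eu m,
          ← hU.hyp.eW j, ← hU.hyp.eW m, ← hU.hyp.eU j, ← hU.eV j]
        ring
      rw [h9] at h8
      exact h8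

theorem case_U2 {m q : J} {U W : J → D} {P : D} {V : J → D} {w' : D}
    (hU : U2Hyp ϖ u v n i u' v' m U W P q V w') : LocRes ϖ c u v n := by
  by_cases hun : i = n ∨ IsUnit P ∨ ∃ j k, IsUnit (U j * V k - U k * V j)
  · have hA : A ≤ dcl ((A : Set D) ∪ u2Set u' v' U W P V w') := le_dcl
    have hR2 : u2Set u' v' U W P V w' ⊆ dcl ((A : Set D) ∪ u2Set u' v' U W P V w') :=
      subset_dcl'
    have hR : uSet u' v' U W P ⊆ dcl ((A : Set D) ∪ u2Set u' v' U W P V w') :=
      fun x hx => hR2 (Or.inl hx)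
    have hu : ∀ j, u' j ∈ dcl ((A : Set D) ∪ u2Set u' v' U W P V w') :=
      fun j => hR (Or.inl (Or.inl ⟨j, rfl⟩))
    have hv : ∀ j, v' j ∈ dcl ((A : Set D) ∪ u2Set u' v' U W P V w') :=
      fun j => hR (Or.inl (Or.inr ⟨j, rfl⟩))
    have htop : dcl ((A : Set D) ∪ u2Set u' v' U W P V w') = ⊤ := by
      refine hB.eq_top (dom_dcl _) hA ?_ ?_ ?_
      · intro l _ hl
        by_cases h1 : l ≤ 2 * i
        · exact ⟨_, hU.hyp.lev.pr_kI hA hu hv h1⟩
        by_cases h2 : l = 2 * i + 1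
        · rw [h2]
          exact ⟨_, hU.hyp.pr_kI_one hA hR⟩
        · exact ⟨_, hU.pr_kI hA hR2 h (by omega)⟩
      · intro k hk
        by_cases h1 : k < i
        · exact ⟨_, hU.hyp.lev.pr_rI hA hu hv h1⟩
        by_cases h2 : k = i
        · rw [h2]
          exact ⟨_, hU.pr_rI_eq hA hR2 h (hun.resolve_left (by omega))⟩
        · exact ⟨_, hU.pr_rI hA hR2 h (by omega)⟩
      · by_cases h1 : i < n
        · exact ⟨_, hU.pr_sI_lt hA hR2 h h1⟩
        · exact ⟨_, hU.hyp.pr_sI_eq hA hR h (le_antisymm hU.hyp.le (not_lt.mp h1))⟩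
    exact ⟨(hU.prs h).regular_of_top htop, fun τ ε κ l μ hτ _ => hU.principal h hτ hun htop⟩
  · obtain ⟨h1, h2⟩ := not_or.mp hun
    obtain ⟨h3, h4⟩ := not_or.mp h2
    have hi : i < n := lt_of_le_of_ne hU.hyp.le h1
    have hmP : P ∈ maximalIdeal D := (IsLocalRing.mem_maximalIdeal _).mpr h3
    have hm : ∀ j k, U j * V k - U k * V j ∈ maximalIdeal D := fun j k =>
      (IsLocalRing.mem_maximalIdeal _).mpr fun h6 => h4 ⟨j, k, h6⟩
    obtain ⟨V', w'', hU', hV'⟩ := hU.change h hm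
    exact case_UD h hB hU' hi hmP hV'

/-- **All cases above a level which is not followed by another one.** -/
theorem case_level (hL : Lev ϖ u v i u' v') (hi : i ≤ n)
    (hno : ¬ ∃ u'' v'' : J → D, Lev ϖ u v (i + 1) u'' v'') : LocRes ϖ c u v n := by
  have hϖ0 := h.unif_ne_zero
  by_cases hun : ∃ j, IsUnit (u' j) ∨ IsUnit (v' j)
  · exact case_unit h hB hL hi hun
  have hmu : ∀ j, u' j ∈ maximalIdeal D := fun j =>
    (IsLocalRing.mem_maximalIdeal _).mpr fun h6 => hun ⟨j, Or.inl h6⟩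
  have hmv : ∀ j, v' j ∈ maximalIdeal D := fun j =>
    (IsLocalRing.mem_maximalIdeal _).mpr fun h6 => hun ⟨j, Or.inr h6⟩
  have hgen := exists_gen_of_le (I := kI ϖ u v (2 * i + 1))
    (p := (ϖ : D) ^ (2 * i)) (g := fam (ϖ : D) u' v') ?_ ?_ (hB.gen_k (by omega) (by omega))
  · obtain ⟨o₀, h6, h7⟩ := hgen
    -- case V
    have hcV : ∀ m : J, (∀ o, ∃ q, v' m * q = fam (ϖ : D) u' v' o) → LocRes ϖ c u v n := by
      intro m h8
      choose q hq using h8
      exact case_V h hB (m := m) (U := fun j => q (some (Sum.inl j)))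
        (V := fun j => q (some (Sum.inr j))) (P := q none)
        ⟨hL, hi, hmu, hmv, fun j => hq (some (Sum.inl j)), fun j => hq (some (Sum.inr j)), hq none⟩
    rcases o₀ with _ | m | m
    · -- case P
      choose q hq using h7
      have hu : ∀ j, (ϖ : D) * q (some (Sum.inl j)) = u' j := fun j => hq (some (Sum.inl j))
      have hv : ∀ j, (ϖ : D) * q (some (Sum.inr j)) = v' j := fun j => hq (some (Sum.inr j))
      have hgen2 := exists_gen_of_le (I := kI ϖ u v (2 * i + 2))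
        (p := (ϖ : D) ^ (2 * i + 1))
        (g := fun o : Option J => o.elim (ϖ : D) fun j => q (some (Sum.inr j))) ?_ ?_
        (hB.gen_k (by omega) (by omega))
      · obtain ⟨o₁, h8, h9⟩ := hgen2
        have hno' : ¬ ∀ j, ∃ r, (ϖ : D) * r = q (some (Sum.inr j)) := by
          intro h10
          choose r hr using h10
          refine hno ⟨fun j => q (some (Sum.inl j)), r, fun j => ?_, fun j => ?_⟩
          · rw [← hL.eu j, ← hu j]
            ring
          · rw [← hL.ev j, ← hv j, ← hr j]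
            ring
        rcases o₁ with _ | m
        · exact absurd (fun j => h9 (some j)) hno'
        · choose r hr using h9
          have hr0 : q (some (Sum.inr m)) * r none = (ϖ : D) := hr none
          have hrj : ∀ j, q (some (Sum.inr m)) * r (some j) = q (some (Sum.inr j)) :=
            fun j => hr (some j)
          refine case_P h hB (i := i) (u' := fun j => q (some (Sum.inl j)))
            (v' := fun j => q (some (Sum.inr j))) (m := m) (V := fun j => r (some j))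
            (P := r none) ⟨hi, fun j => ?_, fun j => ?_, hrj, hr0, ?_⟩
          · rw [← hL.eu j, ← hu j]
            ring
          · rw [← hL.ev j, ← hv j]
            ring
          · by_contra h10
            rw [IsLocalRing.mem_maximalIdeal, mem_nonunits_iff, not_not] at h10
            obtain ⟨r', hr'⟩ := h10.exists_right_inv
            apply hno'
            intro j
            refine ⟨r' * r (some j), ?_⟩
            rw [← hrj j, ← hr0]
            linear_combination (q (some (Sum.inr m)) * r (some j)) * hr'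
      · have g1 := mem_gen (fun o : Option J => o.elim (ϖ : D) fun j => q (some (Sum.inr j))) none
        have g2 := fun j => mem_gen (fun o : Option J => o.elim (ϖ : D) fun j =>
          q (some (Sum.inr j))) (some j)
        have e1 : (2 * i + 2) / 2 = i + 1 := by omega
        have e2 : (2 * i + 2 + 1) / 2 = i + 1 := by omega
        have ha : (aI ϖ u (i + 1)).map A.subtype ≤ Ideal.span {(ϖ : D) ^ (i + 1)} := by
          refine map_aI_le (Ideal.mem_span_singleton_self _) fun j => ?_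
          rw [Ideal.mem_span_singleton']
          exact ⟨q (some (Sum.inl j)), by rw [← hL.eu j, ← hu j]; ring⟩
        refine map_kI_le (I₁ := Ideal.span {(ϖ : D) ^ (i + 1)})
          (I₂ := Ideal.span {(ϖ : D) ^ (i + 1)}) (by rw [e1]; exact ha) (by rw [e2]; exact ha) ?_ ?_
        · rw [Ideal.span_singleton_mul_span_singleton, Ideal.span_singleton_le_iff_mem]
          refine mem_of_eq (g1 1) ?_
          change _ = _ * ((ϖ : D) * 1)
          ring
        · intro j
          refine mem_of_eq (g2 j 1) ?_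
          change _ = _ * (q (some (Sum.inr j)) * 1)
          rw [← hL.ev j, ← hv j]
          ring
      · rintro (_ | j)
        · have h8 := Ideal.mem_map_of_mem A.subtype (pow_mem_kI ϖ u v (2 * i + 2))
          have h9 : A.subtype (ϖ ^ (2 * i + 2)) = (ϖ : D) ^ (2 * i + 1) * ϖ := by
            change (ϖ : D) ^ (2 * i + 2) = _
            ring
          rw [h9] at h8
          exact h8
        · have h8 := Ideal.mem_map_of_mem A.subtype (v_mem_kI ϖ u v (2 * i + 2) j)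
          have h9 : A.subtype (v j) = (ϖ : D) ^ (2 * i + 1) * q (some (Sum.inr j)) := by
            change (v j : D) = _
            rw [← hL.ev j, ← hv j]
            ring
          rw [h9] at h8
          exact h8
    · -- case U
      choose q hq using h7
      have hw0 : u' m ≠ 0 := h6
      have hu : ∀ j, u' m * q (some (Sum.inl j)) = u' j := fun j => hq (some (Sum.inl j))
      have hv : ∀ j, u' m * q (some (Sum.inr j)) = v' j := fun j => hq (some (Sum.inr j))
      have hP : u' m * q none = (ϖ : D) := hq none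
      by_cases hW : ∃ k, IsUnit (q (some (Sum.inr k)))
      · obtain ⟨k, hk⟩ := hW
        obtain ⟨r, hr⟩ := hk.exists_right_inv
        refine hcV k fun o => ⟨r * q o, ?_⟩
        rw [← hq o, ← hv k]
        change _ = u' m * q o
        linear_combination (u' m * q o) * hr
      have hmW : ∀ j, q (some (Sum.inr j)) ∈ maximalIdeal D := fun j =>
        (IsLocalRing.mem_maximalIdeal _).mpr fun h8 => hW ⟨j, h8⟩
      have hU : UHyp ϖ u v n i u' v' m (fun j => q (some (Sum.inl j)))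
          (fun j => q (some (Sum.inr j))) (q none) := ⟨hL, hi, hmu, hmv, hmW, hu, hv, hP⟩
      have hgen2 := exists_gen_of_le (I := kI ϖ u v (2 * i + 2))
        (p := (ϖ : D) ^ (2 * i) * u' m)
        (g := fun o : Option J => o.elim (u' m) fun j => q (some (Sum.inr j))) ?_ ?_
        (hB.gen_k (by omega) (by omega))
      · obtain ⟨o₁, h8, h9⟩ := hgen2
        have hcU1 : (∀ j, ∃ r, u' m * r = q (some (Sum.inr j))) → LocRes ϖ c u v n := by
          intro h10
          choose r hr using h10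
          exact case_U1 h hB ⟨hU, hr⟩
        rcases o₁ with _ | k
        · exact hcU1 fun j => h9 (some j)
        · choose r hr using h9
          have hr0 : q (some (Sum.inr k)) * r none = u' m := hr none
          have hrj : ∀ j, q (some (Sum.inr k)) * r (some j) = q (some (Sum.inr j)) :=
            fun j => hr (some j)
          by_cases hw' : IsUnit (r none)
          · obtain ⟨r', hr'⟩ := hw'.exists_right_inv
            refine hcU1 fun j => ⟨r' * r (some j), ?_⟩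
            rw [← hrj j, ← hr0]
            linear_combination (q (some (Sum.inr k)) * r (some j)) * hr'
          · exact case_U2 h hB ⟨hU, hrj, hr0, (IsLocalRing.mem_maximalIdeal _).mpr hw'⟩
      · have g1 := mem_gen (fun o : Option J => o.elim (u' m) fun j => q (some (Sum.inr j))) none
        have g2 := fun j => mem_gen (fun o : Option J => o.elim (u' m) fun j =>
          q (some (Sum.inr j))) (some j)
        have e1 : (2 * i + 2) / 2 = i + 1 := by omega
        have e2 : (2 * i + 2 + 1) / 2 = i + 1 := by omega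
        have ha := map_le_of_mulId (hU.aI_le (le_top : A ≤ (⊤ : Subring D))
          (fun x _ => Subring.mem_top x) (le_refl (i + 1)))
        refine map_kI_le (I₁ := Ideal.span {(ϖ : D) ^ i * u' m})
          (I₂ := Ideal.span {(ϖ : D) ^ i * u' m}) (by rw [e1]; exact ha) (by rw [e2]; exact ha) ?_ ?_
        · rw [Ideal.span_singleton_mul_span_singleton, Ideal.span_singleton_le_iff_mem]
          refine mem_of_eq (g1 1) ?_
          change _ = _ * (u' m * 1)
          ring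
        · intro j
          refine mem_of_eq (g2 j 1) ?_
          change _ = _ * (q (some (Sum.inr j)) * 1)
          rw [← hL.ev j, ← hv j]
          ring
      · rintro (_ | j)
        · have h8 := Ideal.mem_map_of_mem A.subtype (uu_mem_kI ϖ u v (2 * i + 2) m m)
          have h9 : A.subtype (u m * u m) = (ϖ : D) ^ (2 * i) * u' m * u' m := by
            change (u m : D) * u m = _
            rw [← hL.eu m]
            ring
          rw [h9] at h8
          exact h8
        · have h8 := Ideal.mem_map_of_mem A.subtype (v_mem_kI ϖ u v (2 * i + 2) j)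
          have h9 : A.subtype (v j) = (ϖ : D) ^ (2 * i) * u' m * q (some (Sum.inr j)) := by
            change (v j : D) = _
            rw [← hL.ev j, ← hv j]
            ring
          rw [h9] at h8
          exact h8
    · -- case V
      exact hcV m h7
  · have g1 := mem_gen (fam (ϖ : D) u' v') none
    have g2 := fun j => mem_gen (fam (ϖ : D) u' v') (some (Sum.inl j))
    have g3 := fun j => mem_gen (fam (ϖ : D) u' v') (some (Sum.inr j))
    have e1 : (2 * i + 1) / 2 = i := by omega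
    have e2 : (2 * i + 1 + 1) / 2 = i + 1 := by omega
    refine map_kI_le (I₁ := Ideal.span {(ϖ : D) ^ i})
      (I₂ := Ideal.span {(ϖ : D) ^ i} * Ideal.span (Set.range (fam (ϖ : D) u' v'))) ?_ ?_ ?_ ?_
    · rw [e1]
      refine map_aI_le (Ideal.mem_span_singleton_self _) fun j => ?_
      rw [Ideal.mem_span_singleton']
      exact ⟨u' j, by rw [← hL.eu j]; ring⟩
    · rw [e2]
      refine map_aI_le (mem_of_eq (g1 1) ?_) fun j => mem_of_eq (g2 j 1) ?_
      · change _ = _ * ((ϖ : D) * 1)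
        ring
      · change _ = _ * (u' j * 1)
        rw [← hL.eu j]
        ring
    · rw [← mul_assoc, Ideal.span_singleton_mul_span_singleton]
      have e3 : (ϖ : D) ^ i * (ϖ : D) ^ i = (ϖ : D) ^ (2 * i) := by ring
      rw [e3]
    · intro j
      refine mem_of_eq (g3 j 1) ?_
      change _ = _ * (v' j * 1)
      rw [← hL.ev j]
      ring
  · rintro (_ | j | j)
    · have h8 := Ideal.mem_map_of_mem A.subtype (pow_mem_kI ϖ u v (2 * i + 1))
      have h9 : A.subtype (ϖ ^ (2 * i + 1)) = (ϖ : D) ^ (2 * i) * ϖ := by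
        change (ϖ : D) ^ (2 * i + 1) = _
        ring
      rw [h9] at h8
      exact h8
    · have h8 := Ideal.mem_map_of_mem A.subtype (pu_mem_kI ϖ u v (2 * i + 1) j)
      have e1 : (2 * i + 1) / 2 = i := by omega
      have h9 : A.subtype (ϖ ^ ((2 * i + 1) / 2) * u j) = (ϖ : D) ^ (2 * i) * u' j := by
        rw [e1]
        change (ϖ : D) ^ i * (u j : D) = _
        rw [← hL.eu j]
        ring
      rw [h9] at h8
      exact h8
    · have h8 := Ideal.mem_map_of_mem A.subtype (v_mem_kI ϖ u v (2 * i + 1) j)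
      have h9 : A.subtype (v j) = (ϖ : D) ^ (2 * i) * v' j := by
        change (v j : D) = _
        rw [← hL.ev j]
      rw [h9] at h8
      exact h8

/-- **The local theorem.** -/
theorem w3_local_main : LocRes ϖ c u v n := by
  by_cases hn : ∃ u' v' : J → D, Lev ϖ u v (n + 1) u' v'
  · obtain ⟨u', v', hL⟩ := hn
    exact case_L h hB hL rfl
  · obtain ⟨k, hkn, ⟨u', v', hk⟩, hk1⟩ : ∃ k ≤ n, (∃ u' v' : J → D, Lev ϖ u v k u' v') ∧
        ¬ ∃ u' v' : J → D, Lev ϖ u v (k + 1) u' v' := by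
      by_contra hcon
      have hall : ∀ j ≤ n + 1, ∃ u' v' : J → D, Lev ϖ u v j u' v' := by
        intro j
        induction j with
        | zero =>
          intro _
          exact ⟨fun j => u j, fun j => v j, fun j => by simp, fun j => by simp⟩
        | succ j ih =>
          intro hj
          by_contra hcon'
          exact hcon ⟨j, by omega, ih (by omega), hcon'⟩
      exact hn (hall (n + 1) le_rfl)
    exact case_level h hB hk hkn hk1

end Cases

end Pool.Agent.Lib.MP_6a3dac_ag.W3
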