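import Pool.Agent.Lib.MP_6a3dac_ag.QWWeilModel

/-!
# Products of conjugates: the multihomogeneous coordinate ring

For a family `ψ : Φ → (O →+* N)` of ring homomorphisms and a homogeneous ideal `𝔟` of
`O[x_1, ..., x_n]` the ring `MultRing ψ 𝔟` is the quotient of the polynomial ring over `N` in the
variables `X (φ, i)` by the polynomials `f^(ψ φ)(X_φ)`, `f ∈ 𝔟`, `φ ∈ Φ`: the multihomogeneous
coordinate ring of the product of the conjugates.
-/

set_option autoImplicit false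

namespace Pool.Agent.Lib.MP_6a3dac_ag.W3

open MvPolynomial Pool.Agent.Lib.MP_6a3dac_ag

section Defs

variable {O N : Type} [CommRing O] [CommRing N] {Φ : Type} {n : ℕ}

/-- The map `f ↦ f^(ψ φ)(X_φ)`. -/
noncomputable def fHom (ψ : Φ → O →+* N) (n : ℕ) (φ : Φ) :
    MvPolynomial (Fin n) O →+* MvPolynomial (Φ × Fin n) N :=
  eval₂Hom (C.comp (ψ φ)) fun i => X (φ, i)

/-- The ideal generated by the conjugates. -/
noncomputable def multIdeal (ψ : Φ → O →+* N) (𝔟 : Ideal (MvPolynomial (Fin n) O)) :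
    Ideal (MvPolynomial (Φ × Fin n) N) := ⨆ φ, 𝔟.map (fHom ψ n φ)

/-- The multihomogeneous coordinate ring of the product of the conjugates. -/
abbrev MultRing (ψ : Φ → O →+* N) (𝔟 : Ideal (MvPolynomial (Fin n) O)) : Type :=
  MvPolynomial (Φ × Fin n) N ⧸ multIdeal ψ 𝔟

/-- The class of `X (φ, i)`. -/
noncomputable def cl (ψ : Φ → O →+* N) (𝔟 : Ideal (MvPolynomial (Fin n) O)) (φ : Φ) (i : Fin n) :
    MultRing ψ 𝔟 := Ideal.Quotient.mk _ (X (φ, i))

/-- The product of coordinates, one for each factor. -/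
noncomputable def segX (ψ : Φ → O →+* N) (𝔟 : Ideal (MvPolynomial (Fin n) O)) [Fintype Φ]
    (k : Φ → Fin n) : MultRing ψ 𝔟 := ∏ φ, cl ψ 𝔟 φ (k φ)

/-- The homogeneous coordinate ring of the Segre embedding of the product of the conjugates. -/
noncomputable def segAlg (ψ : Φ → O →+* N) (𝔟 : Ideal (MvPolynomial (Fin n) O)) [Fintype Φ] :
    Subalgebra N (MultRing ψ 𝔟) := Algebra.adjoin N (Set.range (segX ψ 𝔟))

/-- The map which permutes the factors by `π` and applies `s` to the coefficients. -/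
noncomputable def permPoly (s : N →+* N) (π : Φ → Φ) (n : ℕ) :
    MvPolynomial (Φ × Fin n) N →+* MvPolynomial (Φ × Fin n) N :=
  eval₂Hom (C.comp s) fun i => X (π i.1, i.2)

end Defs

section Basic

variable {O N : Type} [CommRing O] [CommRing N] {Φ : Type} {n : ℕ} (ψ : Φ → O →+* N)
  (𝔟 : Ideal (MvPolynomial (Fin n) O))

theorem fHom_C (φ : Φ) (c : O) : fHom ψ n φ (C c) = C (ψ φ c) := by
  simp [fHom]

theorem fHom_X (φ : Φ) (i : Fin n) : fHom ψ n φ (X i) = X (φ, i) := by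
  simp [fHom]

theorem fHom_eq (φ : Φ) (f : MvPolynomial (Fin n) O) :
    fHom ψ n φ f = rename (fun i => (φ, i)) (MvPolynomial.map (ψ φ) f) := by
  have h : fHom ψ n φ = ((rename fun i => (φ, i) : MvPolynomial (Fin n) N →ₐ[N]
      MvPolynomial (Φ × Fin n) N).toRingHom).comp (MvPolynomial.map (ψ φ)) := by
    apply MvPolynomial.ringHom_ext
    · intro r
      rw [fHom_C]
      simp
    · intro i
      rw [fHom_X]
      simp
  rw [h]
  rfl

theorem fHom_mem {f : MvPolynomial (Fin n) O} (hf : f ∈ 𝔟) (φ : Φ) :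
    fHom ψ n φ f ∈ multIdeal ψ 𝔟 :=
  (le_iSup (fun φ => 𝔟.map (fHom ψ n φ)) φ) (Ideal.mem_map_of_mem _ hf)

/-- An ideal contains `multIdeal` if it contains the conjugates. -/
theorem multIdeal_le {I : Ideal (MvPolynomial (Φ × Fin n) N)}
    (h : ∀ φ, ∀ f ∈ 𝔟, fHom ψ n φ f ∈ I) : multIdeal ψ 𝔟 ≤ I := by
  refine iSup_le fun φ => ?_
  rw [Ideal.map_le_iff_le_comap]
  exact fun f hf => h φ f hf

theorem segX_mem [Fintype Φ] (k : Φ → Fin n) : segX ψ 𝔟 k ∈ segAlg ψ 𝔟 :=
  Algebra.subset_adjoin ⟨k, rfl⟩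

/-- Maps out of the multihomogeneous coordinate ring. -/
theorem exists_theta {T : Type} [CommRing T] [Algebra N T] (η : Φ → Fin n → T)
    (hη : ∀ φ, ∀ f ∈ 𝔟, eval₂ ((algebraMap N T).comp (ψ φ)) (η φ) f = 0) :
    ∃ θ : MultRing ψ 𝔟 →ₐ[N] T, ∀ φ k, θ (cl ψ 𝔟 φ k) = η φ k := by
  let θ₀ : MvPolynomial (Φ × Fin n) N →ₐ[N] T := aeval fun i => η i.1 i.2
  have h1 : ∀ φ (f : MvPolynomial (Fin n) O), θ₀ (fHom ψ n φ f) =
      eval₂ ((algebraMap N T).comp (ψ φ)) (η φ) f := by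
    intro φ f
    have h : (θ₀.toRingHom).comp (fHom ψ n φ) =
        eval₂Hom ((algebraMap N T).comp (ψ φ)) (η φ) := by
      apply MvPolynomial.ringHom_ext
      · intro r
        rw [RingHom.comp_apply, fHom_C]
        simp [θ₀]
      · intro i
        rw [RingHom.comp_apply, fHom_X]
        simp [θ₀]
    exact RingHom.congr_fun h f
  have h2 : multIdeal ψ 𝔟 ≤ RingHom.ker θ₀ := by
    apply multIdeal_le
    intro φ f hf
    rw [RingHom.mem_ker, h1, hη φ f hf]
  refine ⟨Ideal.Quotient.liftₐ _ θ₀ fun g hg => h2 hg, fun φ k => ?_⟩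
  change θ₀ (X (φ, k)) = _
  simp [θ₀]

/-- Ring homomorphisms out of the multihomogeneous coordinate ring agree if they agree on the
constants and the variables. -/
theorem multRing_hom_ext {T : Type} [CommRing T] {a b : MultRing ψ 𝔟 →+* T}
    (h1 : ∀ c, a (algebraMap N _ c) = b (algebraMap N _ c))
    (h2 : ∀ φ k, a (cl ψ 𝔟 φ k) = b (cl ψ 𝔟 φ k)) : a = b := by
  apply Ideal.Quotient.ringHom_ext
  apply MvPolynomial.ringHom_ext
  · intro r
    exact h1 r
  · rintro ⟨φ, k⟩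
    exact h2 φ k

section Perm

variable {ψ} {s : N →+* N} {π : Φ → Φ} (hs : ∀ φ c, s (ψ φ c) = ψ (π φ) c)

theorem permPoly_C (c : N) : permPoly s π n (C c) = C (s c) := by
  simp [permPoly]

theorem permPoly_X (i : Φ × Fin n) : permPoly s π n (X i) = X (π i.1, i.2) := by
  simp [permPoly]

include hs in
theorem permPoly_fHom (φ : Φ) (f : MvPolynomial (Fin n) O) :
    permPoly s π n (fHom ψ n φ f) = fHom ψ n (π φ) f := by
  have h : (permPoly s π n).comp (fHom ψ n φ) = fHom ψ n (π φ) := by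
    apply MvPolynomial.ringHom_ext
    · intro r
      rw [RingHom.comp_apply, fHom_C, permPoly_C, fHom_C, hs]
    · intro i
      rw [RingHom.comp_apply, fHom_X, permPoly_X, fHom_X]
  exact RingHom.congr_fun h f

include hs in
theorem multIdeal_le_comap : multIdeal ψ 𝔟 ≤ (multIdeal ψ 𝔟).comap (permPoly s π n) := by
  apply multIdeal_le
  intro φ f hf
  rw [Ideal.mem_comap, permPoly_fHom hs]
  exact fHom_mem ψ 𝔟 hf _

/-- The map of the multihomogeneous coordinate ring which permutes the factors by `π` and applies `s`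
to the coefficients. -/
noncomputable def permRing : MultRing ψ 𝔟 →+* MultRing ψ 𝔟 :=
  Ideal.quotientMap _ (permPoly s π n) (multIdeal_le_comap 𝔟 hs)

theorem permRing_mk (P : MvPolynomial (Φ × Fin n) N) :
    permRing 𝔟 hs (Ideal.Quotient.mk _ P) = Ideal.Quotient.mk _ (permPoly s π n P) :=
  Ideal.quotientMap_mk

theorem permRing_algebraMap (c : N) : permRing 𝔟 hs (algebraMap N (MultRing ψ 𝔟) c) =
    algebraMap N (MultRing ψ 𝔟) (s c) := by
  change permRing 𝔟 hs (Ideal.Quotient.mk _ (C c)) = Ideal.Quotient.mk _ (C (s c))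
  rw [permRing_mk, permPoly_C]

theorem permRing_cl (φ : Φ) (k : Fin n) : permRing 𝔟 hs (cl ψ 𝔟 φ k) = cl ψ 𝔟 (π φ) k := by
  rw [cl, permRing_mk, permPoly_X]
  rfl

theorem permRing_segX [Fintype Φ] (hπ : Function.Bijective π) {k k' : Φ → Fin n}
    (hk : ∀ φ, k' (π φ) = k φ) : permRing 𝔟 hs (segX ψ 𝔟 k) = segX ψ 𝔟 k' := by
  rw [segX, segX, map_prod]
  exact Fintype.prod_bijective π hπ _ _ fun φ => by rw [permRing_cl, hk]

theorem permRing_mem_segAlg [Fintype Φ] (hπ : Function.Bijective π) {z : MultRing ψ 𝔟}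
    (hz : z ∈ segAlg ψ 𝔟) : permRing 𝔟 hs z ∈ segAlg ψ 𝔟 := by
  rw [segAlg] at hz
  induction hz using Algebra.adjoin_induction with
  | mem x hx =>
    obtain ⟨k, rfl⟩ := hx
    rw [permRing_segX 𝔟 hs hπ (k' := k ∘ (Equiv.ofBijective π hπ).symm) (fun φ => by
      change k ((Equiv.ofBijective π hπ).symm ((Equiv.ofBijective π hπ) φ)) = k φ
      rw [Equiv.symm_apply_apply])]
    exact segX_mem _ _ _
  | algebraMap c =>
    rw [permRing_algebraMap]
    exact Subalgebra.algebraMap_mem _ _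
  | add x y _ _ hx hy =>
    rw [map_add]
    exact add_mem hx hy
  | mul x y _ _ hx hy =>
    rw [map_mul]
    exact mul_mem hx hy

/-- The map of the Segre algebra. -/
noncomputable def permSeg [Fintype Φ] (hπ : Function.Bijective π) : segAlg ψ 𝔟 →+* segAlg ψ 𝔟 :=
  ((permRing 𝔟 hs).comp (segAlg ψ 𝔟).val.toRingHom).codRestrict (segAlg ψ 𝔟).toSubring
    fun z => permRing_mem_segAlg 𝔟 hs hπ z.2

theorem coe_permSeg [Fintype Φ] (hπ : Function.Bijective π) (z : segAlg ψ 𝔟) :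
    (permSeg 𝔟 hs hπ z : MultRing ψ 𝔟) = permRing 𝔟 hs z := rfl

end Perm

end Basic

end Pool.Agent.Lib.MP_6a3dac_ag.W3
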