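import Pool.Agent.Lib.MP_6a3dac_ag.W3.T1

/-!
# Charts of a triple product
-/

set_option autoImplicit false
set_option linter.unusedSectionVars false

namespace Pool.Agent.Lib.MP_6a3dac_ag.W3

open MvPolynomial TensorProduct Pool.Agent.Lib.MP_6a3dac_ag

section Injective

variable {O' L F P G ι : Type} [CommRing O'] [Field L] [Algebra O' L] [Field F]
  [Algebra L F] [Algebra O' F] [IsScalarTower O' L F] [CommRing P] [Algebra L P]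
  [CommRing G] [Algebra O' G]

/-- **Injectivity of the map of a chart to the field.** -/
theorem injective_of_theta (hO'L : Function.Injective (algebraMap O' L))
    (ιP : P →ₐ[L] F) (hιP : Function.Injective ιP) (φ : G →ₐ[O'] F) [Module.Flat O' G]
    (η : ι → G) (hη : Algebra.adjoin O' (Set.range η) = ⊤) (X : ι → P) (u : P)
    (hX : ∀ k, ιP (X k) = ιP u * φ (η k)) (θ : P →ₐ[L] L ⊗[O'] G)
    (hθX : ∀ k, θ (X k) = 1 ⊗ₜ η k) (hθu : θ u = 1) : Function.Injective φ := by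
  -- the property
  let inc : G →+* L ⊗[O'] G :=
    (Algebra.TensorProduct.includeRight : G →ₐ[O'] L ⊗[O'] G)
  have hinc : ∀ t, inc t = 1 ⊗ₜ t := fun _ => rfl
  have hincinj : Function.Injective inc := by
    have h := Module.Flat.rTensor_preserves_injective_linearMap (M := G)
      (Algebra.linearMap O' L) hO'L
    intro s t hst
    have h1 : (Algebra.linearMap O' L).rTensor G (1 ⊗ₜ s) =
        (Algebra.linearMap O' L).rTensor G (1 ⊗ₜ t) := by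
      rw [LinearMap.rTensor_tmul, LinearMap.rTensor_tmul, Algebra.linearMap_apply, map_one]
      exact hst
    have h2 := h h1
    have h3 := congrArg (TensorProduct.lid O' G) h2
    simpa using h3
  let U : Subring G :=
    { carrier := {t | ∃ z N, θ z = inc t ∧ ιP z = ιP u ^ N * φ t}
      mul_mem' := by
        rintro s t ⟨z, N, h1, h2⟩ ⟨w, N', h3, h4⟩
        refine ⟨z * w, N + N', by rw [map_mul, h1, h3, map_mul], ?_⟩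
        rw [map_mul, h2, h4, map_mul, pow_add]
        ring
      one_mem' := ⟨1, 0, by rw [map_one, map_one], by rw [map_one, map_one, pow_zero, mul_one]⟩
      add_mem' := by
        rintro s t ⟨z, N, h1, h2⟩ ⟨w, N', h3, h4⟩
        refine ⟨z * u ^ N' + w * u ^ N, N + N', ?_, ?_⟩
        · rw [map_add, map_mul, map_mul, map_pow, map_pow, hθu, one_pow, one_pow, mul_one, mul_one,
            h1, h3, map_add]
        · rw [map_add, map_mul, map_mul, map_pow, map_pow, h2, h4, map_add, pow_add]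
          ring
      zero_mem' := ⟨0, 0, by rw [map_zero, map_zero], by rw [map_zero, map_zero, mul_zero]⟩
      neg_mem' := by
        rintro s ⟨z, N, h1, h2⟩
        exact ⟨-z, N, by rw [map_neg, h1, map_neg], by rw [map_neg, h2, map_neg]; ring⟩ }
  have hU1 : ∀ c : O', algebraMap O' G c ∈ U := by
    intro c
    refine ⟨algebraMap L P (algebraMap O' L c), 0, ?_, ?_⟩
    · rw [AlgHom.commutes]
      change (algebraMap O' L c) ⊗ₜ[O'] (1 : G) = 1 ⊗ₜ _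
      rw [Algebra.algebraMap_eq_smul_one, Algebra.algebraMap_eq_smul_one, TensorProduct.smul_tmul]
    · rw [AlgHom.commutes, pow_zero, one_mul, AlgHom.commutes,
        IsScalarTower.algebraMap_apply O' L F]
  have hall : ∀ t, t ∈ U := by
    intro t
    have ht : t ∈ Algebra.adjoin O' (Set.range η) := by rw [hη]; exact Algebra.mem_top
    induction ht using Algebra.adjoin_induction with
    | mem c hc =>
      obtain ⟨k, rfl⟩ := hc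
      exact ⟨X k, 1, by rw [hθX, hinc], by rw [hX, pow_one]⟩
    | algebraMap c => exact hU1 c
    | add a b _ _ ha hb => exact U.add_mem ha hb
    | mul a b _ _ ha hb => exact U.mul_mem ha hb
  rw [injective_iff_map_eq_zero]
  intro t ht
  obtain ⟨z, N, h1, h2⟩ := hall t
  rw [ht, mul_zero] at h2
  have h3 : z = 0 := hιP (by rw [h2, map_zero])
  apply hincinj
  rw [← h1, h3, map_zero, map_zero]

end Injective

section Adjoin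

variable {O' B₁ B₂ ι₁ ι₂ : Type} [CommRing O'] [CommRing B₁] [Algebra O' B₁] [CommRing B₂]
  [Algebra O' B₂]

/-- Generators of a tensor product. -/
theorem adjoin_tensor {ξ₁ : ι₁ → B₁} {ξ₂ : ι₂ → B₂} {a : ι₁} {b : ι₂}
    (h₁ : Algebra.adjoin O' (Set.range ξ₁) = ⊤) (h₂ : Algebra.adjoin O' (Set.range ξ₂) = ⊤)
    (ha : ξ₁ a = 1) (hb : ξ₂ b = 1) :
    Algebra.adjoin O' (Set.range fun p : ι₁ × ι₂ => (ξ₁ p.1 ⊗ₜ ξ₂ p.2 : B₁ ⊗[O'] B₂)) = ⊤ := by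
  obtain ⟨S, hS⟩ : ∃ S, S = Algebra.adjoin O'
    (Set.range fun p : ι₁ × ι₂ => (ξ₁ p.1 ⊗ₜ ξ₂ p.2 : B₁ ⊗[O'] B₂)) := ⟨_, rfl⟩
  rw [← hS, eq_top_iff]
  have hgen : ∀ i j, (ξ₁ i ⊗ₜ ξ₂ j : B₁ ⊗[O'] B₂) ∈ S := fun i j => by
    rw [hS]
    exact Algebra.subset_adjoin ⟨(i, j), rfl⟩
  have hL : ∀ c : B₁, (c ⊗ₜ 1 : B₁ ⊗[O'] B₂) ∈ S := by
    intro c
    have hc : c ∈ Algebra.adjoin O' (Set.range ξ₁) := by rw [h₁]; exact Algebra.mem_top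
    induction hc using Algebra.adjoin_induction with
    | mem c hc =>
      obtain ⟨k, rfl⟩ := hc
      rw [← hb]
      exact hgen k b
    | algebraMap c => exact Subalgebra.algebraMap_mem S c
    | add a b _ _ ha hb =>
      rw [TensorProduct.add_tmul]
      exact add_mem ha hb
    | mul a b _ _ ha hb =>
      rw [show ((a * b) ⊗ₜ 1 : B₁ ⊗[O'] B₂) = (a ⊗ₜ 1) * (b ⊗ₜ 1) by
        rw [Algebra.TensorProduct.tmul_mul_tmul, mul_one]]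
      exact mul_mem ha hb
  have hR : ∀ c : B₂, (1 ⊗ₜ c : B₁ ⊗[O'] B₂) ∈ S := by
    intro c
    have hc : c ∈ Algebra.adjoin O' (Set.range ξ₂) := by rw [h₂]; exact Algebra.mem_top
    induction hc using Algebra.adjoin_induction with
    | mem c hc =>
      obtain ⟨k, rfl⟩ := hc
      rw [← ha]
      exact hgen a k
    | algebraMap c =>
      rw [one_tmul_algebraMap']
      exact Subalgebra.algebraMap_mem S c
    | add a b _ _ ha hb =>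
      rw [TensorProduct.tmul_add]
      exact add_mem ha hb
    | mul a b _ _ ha hb =>
      rw [show (1 ⊗ₜ (a * b) : B₁ ⊗[O'] B₂) = (1 ⊗ₜ a) * (1 ⊗ₜ b) by
        rw [Algebra.TensorProduct.tmul_mul_tmul, mul_one]]
      exact mul_mem ha hb
  rintro z -
  induction z using TensorProduct.induction_on with
  | zero => exact zero_mem _
  | tmul c b =>
    rw [show (c ⊗ₜ b : B₁ ⊗[O'] B₂) = (c ⊗ₜ 1) * (1 ⊗ₜ b) by
      rw [Algebra.TensorProduct.tmul_mul_tmul, mul_one, one_mul]]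
    exact mul_mem (hL c) (hR b)
  | add s t hs ht => exact add_mem hs ht

end Adjoin

section Factor

variable {O O' F : Type} [CommRing O] [CommRing O'] [Field F] [Algebra O' F] {n : ℕ}

/-- A chart of one of the factors: `B` is a flat regular algebra over `O'`, generated by the
affine coordinates `ξ k = x k / x a`. -/
structure Factor (𝔟 : Ideal (MvPolynomial (Fin n) O)) (h : O →+* O') (x : Fin n → F) (a : Fin n)
    {B : Type} [CommRing B] [Algebra O' B] (ξ : Fin n → B) (f : B →ₐ[O'] F) : Prop where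
  one : ξ a = 1
  gen : Algebra.adjoin O' (Set.range ξ) = ⊤
  rel : ∀ g ∈ 𝔟, eval₂ ((algebraMap O' B).comp h) ξ g = 0
  flat : Module.Flat O' B
  reg : IsRegularRing B
  map : ∀ k, f (ξ k) * x a = x k

/-- The coordinates of a triple product. -/
noncomputable def tripX {B₀ B₁ B₂ : Type} [CommRing B₀] [Algebra O' B₀] [CommRing B₁]
    [Algebra O' B₁] [CommRing B₂] [Algebra O' B₂] (ξ₀ : Fin n → B₀) (ξ₁ : Fin n → B₁)
    (ξ₂ : Fin n → B₂) (k : Fin 3 → Fin n) : B₀ ⊗[O'] (B₁ ⊗[O'] B₂) :=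
  ξ₀ (k 0) ⊗ₜ (ξ₁ (k 1) ⊗ₜ ξ₂ (k 2))

section Triple

variable {𝔟 : Ideal (MvPolynomial (Fin n) O)} {B₀ B₁ B₂ : Type} [CommRing B₀] [Algebra O' B₀]
  [CommRing B₁] [Algebra O' B₁] [CommRing B₂] [Algebra O' B₂] {h₀ h₁ h₂ : O →+* O'}
  {x₀ x₁ x₂ : Fin n → F} {a₀ a₁ a₂ : Fin n} {ξ₀ : Fin n → B₀} {ξ₁ : Fin n → B₁} {ξ₂ : Fin n → B₂}
  {f₀ : B₀ →ₐ[O'] F} {f₁ : B₁ →ₐ[O'] F} {f₂ : B₂ →ₐ[O'] F}
  (H₀ : Factor 𝔟 h₀ x₀ a₀ ξ₀ f₀) (H₁ : Factor 𝔟 h₁ x₁ a₁ ξ₁ f₁) (H₂ : Factor 𝔟 h₂ x₂ a₂ ξ₂ f₂)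

include H₀ H₁ H₂

theorem adjoin_tripX : Algebra.adjoin O' (Set.range (tripX (O' := O') ξ₀ ξ₁ ξ₂)) = ⊤ := by
  have h1 := adjoin_tensor (O' := O') H₁.gen H₂.gen H₁.one H₂.one
  have h2 : (fun p : Fin n × Fin n => (ξ₁ p.1 ⊗ₜ ξ₂ p.2 : B₁ ⊗[O'] B₂)) (a₁, a₂) = 1 := by
    change ξ₁ a₁ ⊗ₜ ξ₂ a₂ = _
    rw [H₁.one, H₂.one]
    rfl
  have h3 := adjoin_tensor (O' := O') H₀.gen h1 H₀.one h2
  rw [← h3]
  congr 1
  ext z
  constructor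
  · rintro ⟨k, rfl⟩
    exact ⟨(k 0, (k 1, k 2)), rfl⟩
  · rintro ⟨⟨i, j, l⟩, rfl⟩
    exact ⟨![i, j, l], rfl⟩

omit H₀ H₁ H₂ in
theorem prodF₃_tripX (k : Fin 3 → Fin n) : prodF f₀ (prodF f₁ f₂) (tripX ξ₀ ξ₁ ξ₂ k) =
    f₀ (ξ₀ (k 0)) * (f₁ (ξ₁ (k 1)) * f₂ (ξ₂ (k 2))) := by
  rw [tripX, prodF_tmul, prodF_tmul]

/-- The triple product is regular if two of the factors are smooth. -/
theorem triple_reg (hsm : (Algebra.Smooth O' B₁ ∧ Algebra.Smooth O' B₂) ∨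
    (Algebra.Smooth O' B₀ ∧ Algebra.Smooth O' B₂) ∨ (Algebra.Smooth O' B₀ ∧ Algebra.Smooth O' B₁)) :
    IsRegularRing (B₀ ⊗[O'] (B₁ ⊗[O'] B₂)) := by
  have hr₀ := H₀.reg
  have hr₁ := H₁.reg
  have hr₂ := H₂.reg
  have hcomm : IsRegularRing (B₁ ⊗[O'] B₂) → Algebra.Smooth O' B₀ →
      IsRegularRing (B₀ ⊗[O'] (B₁ ⊗[O'] B₂)) := by
    intro hr hs
    have h3 : IsRegularRing ((B₁ ⊗[O'] B₂) ⊗[O'] B₀) :=
      isRegularRing_of_smooth (B₁ ⊗[O'] B₂) _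
    exact IsRegularRing.of_ringEquiv
      (Algebra.TensorProduct.comm O' (B₁ ⊗[O'] B₂) B₀).toRingEquiv
  rcases hsm with ⟨s₁, s₂⟩ | ⟨s₀, s₂⟩ | ⟨s₀, s₁⟩
  · have h1 : Algebra.Smooth O' (B₁ ⊗[O'] B₂) := Algebra.Smooth.comp O' B₁ _
    exact isRegularRing_of_smooth B₀ _
  · exact hcomm (isRegularRing_of_smooth B₁ _) s₀
  · refine hcomm ?_ s₀
    have h3 : IsRegularRing (B₂ ⊗[O'] B₁) := isRegularRing_of_smooth B₂ _
    exact IsRegularRing.of_ringEquiv (Algebra.TensorProduct.comm O' B₂ B₁).toRingEquiv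

end Triple

section Generic

theorem theta_segX {O N T : Type} [CommRing O] [CommRing N] {Φ : Type} [Fintype Φ] {n : ℕ}
    {ψ : Φ → O →+* N} {𝔟 : Ideal (MvPolynomial (Fin n) O)} [CommRing T] [Algebra N T]
    (θ : MultRing ψ 𝔟 →ₐ[N] T) {η : Φ → Fin n → T} (hθ : ∀ φ k, θ (cl ψ 𝔟 φ k) = η φ k)
    (k : Φ → Fin n) : θ (segX ψ 𝔟 k) = ∏ φ, η φ (k φ) := by
  rw [segX, map_prod]
  exact Finset.prod_congr rfl fun φ _ => hθ _ _

theorem eval₂_zero_of_factor {O O' L B T : Type} [CommRing O] [CommRing O'] [CommRing L]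
    [Algebra O' L] [CommRing B] [Algebra O' B] [CommRing T] [Algebra O' T] [Algebra L T]
    [IsScalarTower O' L T] {n : ℕ} (i : B →ₐ[O'] T) {h : O →+* O'}
    {ψ' : O →+* L} (hψ' : ∀ c, algebraMap O' L (h c) = ψ' c) {ξ : Fin n → B}
    {g : MvPolynomial (Fin n) O} (hg : eval₂ ((algebraMap O' B).comp h) ξ g = 0) :
    eval₂ ((algebraMap L T).comp ψ') (fun k => i (ξ k)) g = 0 := by
  have h1 : i.toRingHom (eval₂ ((algebraMap O' B).comp h) ξ g) = 0 := by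
    rw [hg, map_zero]
  rw [← h1, eval₂_comp_left]
  congr 1
  ext c
  change algebraMap L T (ψ' c) = i (algebraMap O' B (h c))
  rw [i.commutes, ← hψ', ← IsScalarTower.algebraMap_apply]

end Generic

section Inj

/-- The base change of the triple product. -/
abbrev TT (L O' B₀ B₁ B₂ : Type) [CommRing L] [CommRing O'] [Algebra O' L] [CommRing B₀]
    [Algebra O' B₀] [CommRing B₁] [Algebra O' B₁] [CommRing B₂] [Algebra O' B₂] : Type :=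
  L ⊗[O'] (B₀ ⊗[O'] (B₁ ⊗[O'] B₂))

variable {L : Type} [Field L] [Algebra O' L] [Algebra L F] [IsScalarTower O' L F]
  {ψ : Fin 3 → O →+* L} {𝔟 : Ideal (MvPolynomial (Fin n) O)} {B₀ B₁ B₂ : Type}
  [CommRing B₀] [Algebra O' B₀]
  [CommRing B₁] [Algebra O' B₁] [CommRing B₂] [Algebra O' B₂] {h₀ h₁ h₂ : O →+* O'}
  {ιP : MultRing ψ 𝔟 →ₐ[L] F}
  {a₀ a₁ a₂ : Fin n} {ξ₀ : Fin n → B₀} {ξ₁ : Fin n → B₁} {ξ₂ : Fin n → B₂}
  {f₀ : B₀ →ₐ[O'] F} {f₁ : B₁ →ₐ[O'] F} {f₂ : B₂ →ₐ[O'] F}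
  (H₀ : Factor 𝔟 h₀ (fun k => ιP (cl ψ 𝔟 0 k)) a₀ ξ₀ f₀)
  (H₁ : Factor 𝔟 h₁ (fun k => ιP (cl ψ 𝔟 1 k)) a₁ ξ₁ f₁)
  (H₂ : Factor 𝔟 h₂ (fun k => ιP (cl ψ 𝔟 2 k)) a₂ ξ₂ f₂)
  (hψ₀ : ∀ c, algebraMap O' L (h₀ c) = ψ 0 c) (hψ₁ : ∀ c, algebraMap O' L (h₁ c) = ψ 1 c)
  (hψ₂ : ∀ c, algebraMap O' L (h₂ c) = ψ 2 c)

include H₀ H₁ H₂

/-- The homogeneous coordinates in terms of the affine ones. -/
theorem segX_eq (k : Fin 3 → Fin n) : ιP (segX ψ 𝔟 k) =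
    ιP (segX ψ 𝔟 ![a₀, a₁, a₂]) * prodF f₀ (prodF f₁ f₂) (tripX ξ₀ ξ₁ ξ₂ k) := by
  rw [prodF₃_tripX, segX, segX, Fin.prod_univ_three, Fin.prod_univ_three]
  have e0 := H₀.map (k 0)
  have e1 := H₁.map (k 1)
  have e2 := H₂.map (k 2)
  rw [map_mul, map_mul, ← e0, ← e1, ← e2]
  simp only [Matrix.cons_val_zero, Matrix.cons_val_one, Matrix.cons_val, map_mul]
  ring

omit H₀ H₁ H₂ in
/-- Maps of the multihomogeneous coordinate ring to an algebra. -/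
theorem exists_theta_triple {T : Type} [CommRing T] [Algebra L T] [Algebra O' T]
    [IsScalarTower O' L T] (hrel₀ : ∀ g ∈ 𝔟, eval₂ ((algebraMap O' B₀).comp h₀) ξ₀ g = 0)
    (hrel₁ : ∀ g ∈ 𝔟, eval₂ ((algebraMap O' B₁).comp h₁) ξ₁ g = 0)
    (hrel₂ : ∀ g ∈ 𝔟, eval₂ ((algebraMap O' B₂).comp h₂) ξ₂ g = 0)
    (hψ₀ : ∀ c, algebraMap O' L (h₀ c) = ψ 0 c) (hψ₁ : ∀ c, algebraMap O' L (h₁ c) = ψ 1 c)
    (hψ₂ : ∀ c, algebraMap O' L (h₂ c) = ψ 2 c)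
    (i₀ : B₀ →ₐ[O'] T) (i₁ : B₁ →ₐ[O'] T) (i₂ : B₂ →ₐ[O'] T) :
    ∃ θ : MultRing ψ 𝔟 →ₐ[L] T, ∀ k : Fin 3 → Fin n,
      θ (segX ψ 𝔟 k) = i₀ (ξ₀ (k 0)) * i₁ (ξ₁ (k 1)) * i₂ (ξ₂ (k 2)) := by
  obtain ⟨η, hη⟩ : ∃ η : Fin 3 → Fin n → T, η = ![fun k => i₀ (ξ₀ k), fun k => i₁ (ξ₁ k),
    fun k => i₂ (ξ₂ k)] := ⟨_, rfl⟩
  have e0 : η 0 = fun k => i₀ (ξ₀ k) := by rw [hη]; rfl
  have e1 : η 1 = fun k => i₁ (ξ₁ k) := by rw [hη]; rfl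
  have e2 : η 2 = fun k => i₂ (ξ₂ k) := by rw [hη]; rfl
  have key : ∀ φ, ∀ f ∈ 𝔟, eval₂ ((algebraMap L T).comp (ψ φ)) (η φ) f = 0 := by
    intro φ f hf
    have h3 : φ = 0 ∨ φ = 1 ∨ φ = 2 := by omega
    rcases h3 with rfl | rfl | rfl
    · rw [e0]
      exact eval₂_zero_of_factor i₀ hψ₀ (hrel₀ f hf)
    · rw [e1]
      exact eval₂_zero_of_factor i₁ hψ₁ (hrel₁ f hf)
    · rw [e2]
      exact eval₂_zero_of_factor i₂ hψ₂ (hrel₂ f hf)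
  obtain ⟨θ, hθ⟩ := exists_theta ψ 𝔟 (T := T) η key
  refine ⟨θ, fun k => ?_⟩
  rw [theta_segX θ hθ, Fin.prod_univ_three, e0, e1, e2]

omit H₀ H₁ H₂ in
theorem exists_theta_tensor₃ (hrel₀ : ∀ g ∈ 𝔟, eval₂ ((algebraMap O' B₀).comp h₀) ξ₀ g = 0)
    (hrel₁ : ∀ g ∈ 𝔟, eval₂ ((algebraMap O' B₁).comp h₁) ξ₁ g = 0)
    (hrel₂ : ∀ g ∈ 𝔟, eval₂ ((algebraMap O' B₂).comp h₂) ξ₂ g = 0)
    (hψ₀ : ∀ c, algebraMap O' L (h₀ c) = ψ 0 c) (hψ₁ : ∀ c, algebraMap O' L (h₁ c) = ψ 1 c)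
    (hψ₂ : ∀ c, algebraMap O' L (h₂ c) = ψ 2 c) :
    ∃ θ : MultRing ψ 𝔟 →ₐ[L] TT L O' B₀ B₁ B₂, ∀ k : Fin 3 → Fin n,
      θ (segX ψ 𝔟 k) = 1 ⊗ₜ tripX ξ₀ ξ₁ ξ₂ k := by
  obtain ⟨θ, hθ⟩ := exists_theta_triple (ψ := ψ) (𝔟 := 𝔟) (T := TT L O' B₀ B₁ B₂) hrel₀ hrel₁ hrel₂
    hψ₀ hψ₁ hψ₂
    ((Algebra.TensorProduct.includeRight : (B₀ ⊗[O'] (B₁ ⊗[O'] B₂)) →ₐ[O'] _).comp
      Algebra.TensorProduct.includeLeft)
    (((Algebra.TensorProduct.includeRight : (B₀ ⊗[O'] (B₁ ⊗[O'] B₂)) →ₐ[O'] _).comp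
      Algebra.TensorProduct.includeRight).comp Algebra.TensorProduct.includeLeft)
    (((Algebra.TensorProduct.includeRight : (B₀ ⊗[O'] (B₁ ⊗[O'] B₂)) →ₐ[O'] _).comp
      Algebra.TensorProduct.includeRight).comp Algebra.TensorProduct.includeRight)
  refine ⟨θ, fun k => ?_⟩
  rw [hθ]
  change ((1 : L) ⊗ₜ[O'] (ξ₀ (k 0) ⊗ₜ[O'] (1 : B₁ ⊗[O'] B₂))) *
      ((1 : L) ⊗ₜ[O'] ((1 : B₀) ⊗ₜ[O'] (ξ₁ (k 1) ⊗ₜ[O'] (1 : B₂)))) *
      ((1 : L) ⊗ₜ[O'] ((1 : B₀) ⊗ₜ[O'] ((1 : B₁) ⊗ₜ[O'] ξ₂ (k 2)))) = _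
  rw [tripX]
  simp only [Algebra.TensorProduct.tmul_mul_tmul, mul_one, one_mul]

include hψ₀ hψ₁ hψ₂ in
theorem triple_inj (hO'L : Function.Injective (algebraMap O' L)) (hιP : Function.Injective ιP) :
    Function.Injective (prodF f₀ (prodF f₁ f₂)) := by
  have hfl₀ := H₀.flat
  have hfl₁ := H₁.flat
  have hfl₂ := H₂.flat
  have hfl₃ : Module.Flat O' (B₁ ⊗[O'] B₂) := inferInstance
  have hfl₄ : Module.Flat O' (B₀ ⊗[O'] (B₁ ⊗[O'] B₂)) := inferInstance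
  obtain ⟨θ, hθseg⟩ := exists_theta_tensor₃ (ψ := ψ) (𝔟 := 𝔟) H₀.rel H₁.rel H₂.rel hψ₀ hψ₁ hψ₂
  refine injective_of_theta hO'L ιP hιP (prodF f₀ (prodF f₁ f₂)) (tripX ξ₀ ξ₁ ξ₂)
    (adjoin_tripX H₀ H₁ H₂) (segX ψ 𝔟) (segX ψ 𝔟 ![a₀, a₁, a₂]) (fun k => ?_) θ hθseg ?_
  · exact segX_eq H₀ H₁ H₂ k
  · rw [hθseg, tripX]
    simp only [Matrix.cons_val_zero, Matrix.cons_val_one, Matrix.cons_val]
    rw [H₀.one, H₁.one, H₂.one]
    rfl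

end Inj

end Factor

end Pool.Agent.Lib.MP_6a3dac_ag.W3
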