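import Pool.Agent.Lib.MP_6a3dac_ag.W3.T2a
import Pool.Agent.Lib.MP_6a3dac_ag.QD.Around

/-!
# The local rings of the triple product
-/

set_option autoImplicit false
set_option linter.unusedSectionVars false

namespace Pool.Agent.Lib.MP_6a3dac_ag.W3

open MvPolynomial TensorProduct Pool.Agent.Lib.MP_6a3dac_ag IsLocalRing

section LocF

variable {G F : Type} [CommRing G] [Field F]

/-- The elements of `F` which are quotients of elements of `G` with a denominator which is a unit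
of `D`. -/
def locF (φ : G →+* F) (D : Subring F) (hφ : ∀ g, φ g ∈ D) : Subring F :=
  (locIn (φ.codRestrict D hφ)).map D.subtype

variable {φ : G →+* F} {D : Subring F} {hφ : ∀ g, φ g ∈ D}

theorem mem_locF {z : F} : z ∈ locF φ D hφ ↔ z ∈ D ∧ ∃ a s : G, (∃ w ∈ D, φ s * w = 1) ∧
    z * φ s = φ a := by
  constructor
  · rintro ⟨y, ⟨a, s, hs, h1⟩, rfl⟩
    obtain ⟨w, hw⟩ := hs.exists_right_inv
    exact ⟨y.2, a, s, ⟨w, w.2, congrArg Subtype.val hw⟩, congrArg Subtype.val h1⟩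
  · rintro ⟨hz, a, s, ⟨w, hw, h1⟩, h2⟩
    exact ⟨⟨z, hz⟩, ⟨a, s, IsUnit.of_mul_eq_one ⟨w, hw⟩ (Subtype.ext h1), Subtype.ext h2⟩, rfl⟩

theorem map_mem_locF (g : G) : φ g ∈ locF φ D hφ :=
  mem_locF.mpr ⟨hφ g, g, 1, ⟨1, D.one_mem, by rw [map_one, mul_one]⟩, by rw [map_one, mul_one]⟩

theorem locF_le : locF φ D hφ ≤ D := fun _ hz => (mem_locF.mp hz).1

theorem locF_dom {a b : F} (ha : a ∈ locF φ D hφ) (hb : b ∈ D) (hab : a * b = 1) :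
    b ∈ locF φ D hφ := by
  obtain ⟨haD, c, s, ⟨w, hw, h1⟩, h2⟩ := mem_locF.mp ha
  refine mem_locF.mpr ⟨hb, s, c, ⟨b * w, D.mul_mem hb hw, ?_⟩, ?_⟩
  · rw [← h2]
    linear_combination (φ s * w) * hab + h1
  · rw [← h2]
    linear_combination (φ s) * hab

/-- The local ring `locF` as the subring of the local ring `D`. -/
noncomputable def locFEquiv (φ : G →+* F) (D : Subring F) (hφ : ∀ g, φ g ∈ D) :
    locIn (φ.codRestrict D hφ) ≃+* locF φ D hφ :=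
  Subring.equivMapOfInjective _ D.subtype Subtype.val_injective

variable [IsLocalRing D]

theorem isRegularLocalRing_locF (hinj : Function.Injective φ) [IsRegularRing G] :
    IsRegularLocalRing (locF φ D hφ) := by
  have h1 : Function.Injective (φ.codRestrict D hφ) := fun a b hab =>
    hinj (congrArg Subtype.val hab)
  have h2 : IsRegularLocalRing (locIn (φ.codRestrict D hφ)) := isRegularLocalRing_locIn _ h1
  exact IsRegularLocalRing.of_ringEquiv (locFEquiv φ D hφ)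

/-- The local ring of the original scheme. -/
theorem around_of_chart {M I : Type} [CommRing M] (ι : M →+* F) (x : I → M) (Λ : Subring M)
    (i : I) (hinj : Function.Injective φ) (hreg : IsRegularRing G)
    (hlam : ∀ c ∈ Λ, ∃ g, φ g = ι c) (hcoord : ∀ k, ∃ g, φ g = ι (x k) / ι (x i))
    (hgen : ∀ N : Subring F, (∀ a ∈ N, ∀ b ∈ D, a * b = 1 → b ∈ N) →
      (∀ c ∈ Λ, ι c ∈ N) → (∀ k, ι (x k) / ι (x i) ∈ N) → ∀ g, φ g ∈ N) :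
    QD.Around ι x Λ D i (locF φ D hφ) where
  le := locF_le
  dom := fun _ ha _ hb hab => locF_dom ha hb hab
  reg := isRegularLocalRing_locF hinj
  lam := fun c hc => by
    obtain ⟨g, hg⟩ := hlam c hc
    rw [← hg]
    exact map_mem_locF g
  coord := fun k => by
    obtain ⟨g, hg⟩ := hcoord k
    rw [← hg]
    exact map_mem_locF g
  min := by
    intro N hN hdom hNΛ hNx z hz
    have hdom' : ∀ a ∈ N, ∀ b ∈ D, a * b = 1 → b ∈ N := fun a ha b hb hab =>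
      hdom a ha b (locF_dom (hN ha) hb hab) hab
    have hNφ := hgen N hdom' hNΛ hNx
    obtain ⟨hzD, a, s, ⟨w, hw, h1⟩, h2⟩ := mem_locF.mp hz
    have h3 : z = φ a * w := by rw [← h2]; linear_combination (-z) * h1
    rw [h3]
    exact N.mul_mem (hNφ a) (hdom' _ (hNφ s) w hw h1)

end LocF

section Triple

variable {O O' F L : Type} [CommRing O] [CommRing O'] [Field F] [Algebra O' F] {n : ℕ}
  [Field L] [Algebra O' L] [Algebra L F] [IsScalarTower O' L F]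
  {ψ : Fin 3 → O →+* L} {𝔟 : Ideal (MvPolynomial (Fin n) O)} {B₀ B₁ B₂ : Type}
  [CommRing B₀] [Algebra O' B₀]
  [CommRing B₁] [Algebra O' B₁] [CommRing B₂] [Algebra O' B₂] {h₀ h₁ h₂ : O →+* O'}
  {ιP : MultRing ψ 𝔟 →ₐ[L] F}
  {a₀ a₁ a₂ : Fin n} {ξ₀ : Fin n → B₀} {ξ₁ : Fin n → B₁} {ξ₂ : Fin n → B₂}
  {f₀ : B₀ →ₐ[O'] F} {f₁ : B₁ →ₐ[O'] F} {f₂ : B₂ →ₐ[O'] F}
  (H₀ : Factor 𝔟 h₀ (fun k => ιP (cl ψ 𝔟 0 k)) a₀ ξ₀ f₀)
  (H₁ : Factor 𝔟 h₁ (fun k => ιP (cl ψ 𝔟 1 k)) a₁ ξ₁ f₁)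
  (H₂ : Factor 𝔟 h₂ (fun k => ιP (cl ψ 𝔟 2 k)) a₂ ξ₂ f₂)

variable (ιP) in
/-- The map from the Segre algebra to the field. -/
noncomputable def segMap₃ : segAlg ψ 𝔟 →+* F :=
  (ιP : MultRing ψ 𝔟 →+* F).comp (segAlg ψ 𝔟).val.toRingHom

variable (ψ 𝔟) in
/-- The coordinates in the Segre algebra. -/
noncomputable def xx₃ {Φ : Type} [Fintype Φ] (ψ : Φ → O →+* L) (k : Φ → Fin n) : segAlg ψ 𝔟 :=
  ⟨segX ψ 𝔟 k, segX_mem ψ 𝔟 k⟩

theorem segMap₃_xx (k : Fin 3 → Fin n) : segMap₃ ιP (xx₃ 𝔟 ψ k) = ιP (segX ψ 𝔟 k) := rfl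

include H₀ H₁ H₂

theorem coord_eq {k : Fin 3 → Fin n} (hx0 : ιP (segX ψ 𝔟 ![a₀, a₁, a₂]) ≠ 0) :
    prodF f₀ (prodF f₁ f₂) (tripX ξ₀ ξ₁ ξ₂ k) =
      segMap₃ ιP (xx₃ 𝔟 ψ k) / segMap₃ ιP (xx₃ 𝔟 ψ ![a₀, a₁, a₂]) := by
  rw [segMap₃_xx, segMap₃_xx, segX_eq H₀ H₁ H₂ k, mul_div_cancel_left₀ _ hx0]

theorem triple_mem {D : Subring F} (hD : ∀ c : O', algebraMap O' F c ∈ D)
    (hx0 : ιP (segX ψ 𝔟 ![a₀, a₁, a₂]) ≠ 0)
    (hcoord : ∀ k, segMap₃ ιP (xx₃ 𝔟 ψ k) / segMap₃ ιP (xx₃ 𝔟 ψ ![a₀, a₁, a₂]) ∈ D)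
    (g : B₀ ⊗[O'] (B₁ ⊗[O'] B₂)) : prodF f₀ (prodF f₁ f₂) g ∈ D := by
  refine mem_of_adjoin _ (adjoin_tripX H₀ H₁ H₂) hD (fun k => ?_) g
  rw [coord_eq H₀ H₁ H₂ hx0]
  exact hcoord k

/-- **The local rings of the triple product are regular.** -/
theorem triple_around (hψ₀ : ∀ c, algebraMap O' L (h₀ c) = ψ 0 c)
    (hψ₁ : ∀ c, algebraMap O' L (h₁ c) = ψ 1 c) (hψ₂ : ∀ c, algebraMap O' L (h₂ c) = ψ 2 c)
    (hO'L : Function.Injective (algebraMap O' L)) (hιP : Function.Injective ιP)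
    (hsm : (Algebra.Smooth O' B₁ ∧ Algebra.Smooth O' B₂) ∨
    (Algebra.Smooth O' B₀ ∧ Algebra.Smooth O' B₂) ∨ (Algebra.Smooth O' B₀ ∧ Algebra.Smooth O' B₁))
    {Λ : Subring (segAlg ψ 𝔟)} {D : Subring F} [IsLocalRing D]
    (hΛ : ∀ m ∈ Λ, ∃ c : O', algebraMap O' F c = segMap₃ ιP m)
    (hΛ' : ∀ c : O', ∃ m ∈ Λ, ∃ s ∈ Λ, (∃ w ∈ D, segMap₃ ιP s * w = 1) ∧
      algebraMap O' F c * segMap₃ ιP s = segMap₃ ιP m)
    (hD : ∀ c : O', algebraMap O' F c ∈ D)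
    (hx0 : ιP (segX ψ 𝔟 ![a₀, a₁, a₂]) ≠ 0)
    (hcoord : ∀ k, segMap₃ ιP (xx₃ 𝔟 ψ k) / segMap₃ ιP (xx₃ 𝔟 ψ ![a₀, a₁, a₂]) ∈ D) :
    QD.Around (segMap₃ ιP) (xx₃ 𝔟 ψ) Λ D ![a₀, a₁, a₂]
      (locF (prodF f₀ (prodF f₁ f₂)).toRingHom D (triple_mem H₀ H₁ H₂ hD hx0 hcoord)) := by
  have hreg := triple_reg H₀ H₁ H₂ hsm
  have hinj := triple_inj H₀ H₁ H₂ hψ₀ hψ₁ hψ₂ hO'L hιP
  refine around_of_chart (segMap₃ ιP) (xx₃ 𝔟 ψ) Λ ![a₀, a₁, a₂] hinj hreg ?_ ?_ ?_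
  · intro m hm
    obtain ⟨c, hc⟩ := hΛ m hm
    refine ⟨algebraMap O' _ c, ?_⟩
    rw [← hc]
    exact (prodF f₀ (prodF f₁ f₂)).commutes c
  · intro k
    exact ⟨tripX ξ₀ ξ₁ ξ₂ k, coord_eq H₀ H₁ H₂ hx0⟩
  · intro N hdom hNΛ hNx g
    refine mem_of_adjoin (prodF f₀ (prodF f₁ f₂)) (adjoin_tripX H₀ H₁ H₂) ?_ (fun k => ?_) g
    · intro c
      obtain ⟨m, hm, s, hs, ⟨w, hw, h1⟩, h2⟩ := hΛ' c
      have h3 : algebraMap O' F c = segMap₃ ιP m * w := by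
        rw [← h2]
        linear_combination (-(algebraMap O' F c)) * h1
      rw [h3]
      exact N.mul_mem (hNΛ m hm) (hdom _ (hNΛ s hs) w hw h1)
    · rw [coord_eq H₀ H₁ H₂ hx0]
      exact hNx k

end Triple

end Pool.Agent.Lib.MP_6a3dac_ag.W3
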