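import Mathlib

/-!
# Elements which are independent in the cotangent space, and a choice of coordinates
-/

set_option autoImplicit false
set_option linter.unusedSectionVars false

namespace Pool.Agent.Lib.MP_6a3dac_ag.W3

open IsLocalRing

section Cotangent

/-- Elements whose classes in the cotangent space are independent are part of a minimal system of
generators of the maximal ideal. -/
theorem exists_par_of_indep {A : Type} [CommRing A] [IsLocalRing A] [IsNoetherianRing A] {κ : Type}
    [Fintype κ] {f : κ → A} (hf : ∀ k, f k ∈ maximalIdeal A)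
    (hind : ∀ c : κ → A, ∑ k, c k * f k ∈ maximalIdeal A ^ 2 → ∀ k, c k ∈ maximalIdeal A) :
    Function.Injective f ∧ ∃ T : Finset A, (∀ k, f k ∈ T) ∧
      Ideal.span (T : Set A) = maximalIdeal A ∧ T.card ≤ (maximalIdeal A).spanFinrank := by
  classical
  obtain ⟨v, hv⟩ : ∃ v : κ → CotangentSpace A,
    v = fun k => (maximalIdeal A).toCotangent ⟨f k, hf k⟩ := ⟨_, rfl⟩
  have hlin : LinearIndependent (ResidueField A) v := by
    rw [Fintype.linearIndependent_iff]
    intro g hg k
    obtain ⟨c, hc⟩ : ∃ c : κ → A, ∀ k, residue A (c k) = g k := by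
      choose c hc using fun k => residue_surjective (g k)
      exact ⟨c, hc⟩
    have h1 : ∑ k, c k * f k ∈ maximalIdeal A ^ 2 := by
      have h2 : (maximalIdeal A).toCotangent (∑ k, c k • (⟨f k, hf k⟩ : maximalIdeal A)) = 0 := by
        rw [map_sum, ← hg]
        refine Finset.sum_congr rfl fun k _ => ?_
        rw [map_smul, hv, ← hc]
        rfl
      rw [Ideal.toCotangent_eq_zero] at h2
      rw [AddSubmonoidClass.coe_finsetSum] at h2
      exact h2
    rw [← hc, residue_eq_zero_iff]
    exact hind c h1 k
  have hvinj : Function.Injective v := hlin.injective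
  refine ⟨fun k l hkl => hvinj ?_, ?_⟩
  · rw [hv]
    change (maximalIdeal A).toCotangent ⟨f k, hf k⟩ = (maximalIdeal A).toCotangent ⟨f l, hf l⟩
    congr 2
  · obtain ⟨ι', b, s, hbs⟩ : ∃ (ι' : Type) (b : Module.Basis ι' (ResidueField A) (CotangentSpace A))
        (s : κ → ι'), ∀ k, b (s k) = v k := by
      refine ⟨_, Module.Basis.extend hlin.linearIndepOn_id,
        fun k => ⟨v k, Module.Basis.subset_extend _ (Set.mem_range_self k)⟩, fun k => ?_⟩
      rw [Module.Basis.extend_apply_self]
    have hfin : Finite ι' := Module.Finite.finite_basis b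
    have : Fintype ι' := Fintype.ofFinite _
    have hlift : ∀ i, ∃ y : maximalIdeal A, (maximalIdeal A).toCotangent y = b i ∧
        ∀ k, i = s k → (y : A) = f k := by
      intro i
      by_cases hi : ∃ k, i = s k
      · obtain ⟨k, rfl⟩ := hi
        refine ⟨⟨f k, hf k⟩, by rw [hbs, hv], ?_⟩
        intro l hl
        have h1 : v k = v l := by rw [← hbs, ← hbs, hl]
        rw [hvinj h1]
      · obtain ⟨y, hy⟩ := (maximalIdeal A).toCotangent_surjective (b i)
        exact ⟨y, hy, fun k hk => absurd ⟨k, hk⟩ hi⟩
    choose g hg1 hg2 using hlift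
    have hspan : Ideal.span (Set.range fun i => (g i : A)) = maximalIdeal A := by
      have h1 : Submodule.span (ResidueField A) ((maximalIdeal A).toCotangent '' Set.range g) =
          ⊤ := by
        rw [← Set.range_comp]
        have h2 : (maximalIdeal A).toCotangent ∘ g = b := funext hg1
        rw [h2]
        exact b.span_eq
      rw [CotangentSpace.span_image_eq_top_iff] at h1
      have h3 := congrArg (Submodule.map (maximalIdeal A).subtype) h1
      rw [Submodule.map_span, Submodule.map_top, Submodule.range_subtype, ← Set.range_comp] at h3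
      exact h3
    refine ⟨Finset.univ.image fun i => (g i : A), fun k => ?_, ?_, ?_⟩
    · exact Finset.mem_image.mpr ⟨s k, Finset.mem_univ _, hg2 _ k rfl⟩
    · rw [Finset.coe_image, Finset.coe_univ, Set.image_univ]
      exact hspan
    · have h1 : (Finset.univ.image fun i => (g i : A)).card ≤ Fintype.card ι' :=
        Finset.card_image_le
      have h2 : (maximalIdeal A).spanFinrank =
          Module.finrank (ResidueField A) (CotangentSpace A) :=
        spanFinrank_maximalIdeal_eq_finrank_cotangentSpace A
      rw [h2, Module.finrank_eq_card_basis b]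
      exact h1

end Cotangent

section Choice

/-- For a subspace `V` of `K ^ ι` there is a set of coordinates such that the projection of `V` is
bijective. -/
theorem exists_coords {K ι : Type} [Field K] [Finite ι] (V : Submodule K (ι → K)) :
    ∃ J : Set ι, (∀ v ∈ V, (∀ j ∈ J, v j = 0) → v = 0) ∧
      ∀ g : ι → K, ∃ v ∈ V, ∀ j ∈ J, v j = g j := by
  classical
  have := Fintype.ofFinite ι
  obtain ⟨J, hJ⟩ : ∃ J : Finset ι, Maximal
      (fun J : Finset ι => ∀ g : ι → K, ∃ v ∈ V, ∀ j ∈ J, v j = g j) J := by
    obtain ⟨J, -, hJ⟩ := Finset.exists_le_maximal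
      (Finset.univ.filter fun J : Finset ι => ∀ g : ι → K, ∃ v ∈ V, ∀ j ∈ J, v j = g j)
      (a := ∅) (by simpa using ⟨0, V.zero_mem⟩)
    refine ⟨J, ?_, fun J' h1 h2 => ?_⟩
    · exact (Finset.mem_filter.mp hJ.1).2
    · exact hJ.2 (Finset.mem_filter.mpr ⟨Finset.mem_univ _, h1⟩) h2
  refine ⟨J, fun v hv h0 => ?_, fun g => ?_⟩
  · by_contra hne
    obtain ⟨l, hl⟩ : ∃ l, v l ≠ 0 := by
      by_contra h
      apply hne
      funext l
      by_contra h'
      exact h ⟨l, h'⟩
    have hlJ : l ∉ J := fun h => hl (h0 l h)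
    have h1 : insert l J ≤ J := hJ.2 (fun g => by
      obtain ⟨w, hw, hwg⟩ := hJ.1 g
      refine ⟨w + ((g l - w l) / v l) • v, V.add_mem hw (V.smul_mem _ hv), ?_⟩
      intro j hj
      rcases Finset.mem_insert.mp hj with rfl | hj
      · rw [Pi.add_apply, Pi.smul_apply, smul_eq_mul, div_mul_cancel₀ _ hl]
        ring
      · rw [Pi.add_apply, Pi.smul_apply, smul_eq_mul, h0 j hj, mul_zero, add_zero, hwg j hj])
      (Finset.subset_insert _ _)
    exact hlJ (h1 (Finset.mem_insert_self _ _))
  · obtain ⟨w, hw, hwg⟩ := hJ.1 g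
    exact ⟨w, hw, hwg⟩

end Choice

end Pool.Agent.Lib.MP_6a3dac_ag.W3
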