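import Pool.Agent.Lib.MP_6a3dac_ag.W3.T3a

/-!
# The local structure of a triple product at a point of the diagonal

`g₀`, `g₁`, `g₂ : B → A` are ring homomorphisms to a local ring which are congruent modulo the
maximal ideal.
-/

set_option autoImplicit false
set_option linter.unusedSectionVars false

namespace Pool.Agent.Lib.MP_6a3dac_ag.W3

open IsLocalRing

section Der

/-- A derivation over the ring homomorphism `h`. -/
structure IsDer {B K : Type} [CommRing B] [CommRing K] (h : B →+* K) (δ : B → K) : Prop where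
  add : ∀ b c, δ (b + c) = δ b + δ c
  mul : ∀ b c, δ (b * c) = h b * δ c + h c * δ b

variable {B K : Type} [CommRing B] [CommRing K] {h : B →+* K} {δ : B → K}

theorem IsDer.zero (hδ : IsDer h δ) : δ 0 = 0 := by
  have h1 := hδ.add 0 0
  rw [add_zero] at h1
  exact left_eq_add.mp h1

theorem IsDer.neg (hδ : IsDer h δ) (b : B) : δ (-b) = -δ b := by
  have h1 := hδ.add b (-b)
  rw [add_neg_cancel, hδ.zero] at h1
  exact eq_neg_of_add_eq_zero_right h1.symm

theorem IsDer.sub (hδ : IsDer h δ) (b c : B) : δ (b - c) = δ b - δ c := by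
  rw [sub_eq_add_neg, hδ.add, hδ.neg, sub_eq_add_neg]

theorem IsDer.sum (hδ : IsDer h δ) {ι : Type} (s : Finset ι) (f : ι → B) :
    δ (∑ i ∈ s, f i) = ∑ i ∈ s, δ (f i) := by
  classical
  induction s using Finset.induction_on with
  | empty => simpa using hδ.zero
  | insert a s ha ih => rw [Finset.sum_insert ha, Finset.sum_insert ha, hδ.add, ih]

/-- A derivation is zero if it is zero on generators. -/
theorem IsDer.eq_zero {O' ν : Type} [CommRing O'] [Algebra O' B] (hδ : IsDer h δ) {ξ : ν → B}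
    (hξ : Algebra.adjoin O' (Set.range ξ) = ⊤) (h1 : ∀ c : O', δ (algebraMap O' B c) = 0)
    (h2 : ∀ l, δ (ξ l) = 0) (b : B) : δ b = 0 := by
  have hb : b ∈ Algebra.adjoin O' (Set.range ξ) := by rw [hξ]; exact Algebra.mem_top
  induction hb using Algebra.adjoin_induction with
  | mem b hb =>
    obtain ⟨l, rfl⟩ := hb
    exact h2 l
  | algebraMap c => exact h1 c
  | add a b _ _ ha hb => rw [hδ.add, ha, hb, add_zero]
  | mul a b _ _ ha hb => rw [hδ.mul, ha, hb, mul_zero, mul_zero, add_zero]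

/-- A derivation of a local ring is zero on the square of the maximal ideal. -/
theorem IsDer.sq {A : Type} [CommRing A] [IsLocalRing A] {Δ : A → ResidueField A}
    (hΔ : IsDer (residue A) Δ) {x : A} (hx : x ∈ maximalIdeal A ^ 2) : Δ x = 0 := by
  rw [pow_two] at hx
  induction hx using Submodule.mul_induction_on' with
  | mem_mul_mem a ha b hb =>
    have h1 : residue A a = 0 := (residue_eq_zero_iff a).mpr ha
    have h2 : residue A b = 0 := (residue_eq_zero_iff b).mpr hb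
    rw [hΔ.mul, h1, h2, zero_mul, zero_mul, add_zero]
  | add a _ b _ ha hb => rw [hΔ.add, ha, hb, add_zero]

end Der

section Functional

/-- If the ideal `I` is not contained in `I₀` there is a functional on `I` which is zero on
`I₀`. -/
theorem exists_functional {A : Type} [CommRing A] [IsLocalRing A] [IsNoetherianRing A]
    {I I₀ : Ideal A} (hne : ¬ I ≤ I₀) : ∃ f : I →ₗ[A] ResidueField A,
      (∀ y : I, (y : A) ∈ I₀ → f y = 0) ∧ ∃ y, f y ≠ 0 := by
  have h0 : Submodule.comap I.subtype I₀ ≠ ⊤ := by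
    intro h
    apply hne
    intro y hy
    have h1 : (⟨y, hy⟩ : I) ∈ Submodule.comap I.subtype I₀ := by
      rw [h]
      trivial
    exact h1
  rcases eq_top_or_exists_le_coatom (Submodule.comap I.subtype I₀) with h | ⟨N, hN, hle⟩
  · exact absurd h h0
  have hs : IsSimpleModule A (I ⧸ N) := isSimpleModule_iff_isCoatom.mpr hN
  obtain ⟨m, hm, ⟨e⟩⟩ := isSimpleModule_iff_quot_maximal.mp hs
  have hmm := IsLocalRing.eq_maximalIdeal hm
  subst hmm
  let f : I →ₗ[A] ResidueField A := e.toLinearMap.comp N.mkQ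
  refine ⟨f, fun y hy => ?_, ?_⟩
  · have h1 : y ∈ N := hle hy
    have h2 : N.mkQ y = 0 := (Submodule.Quotient.mk_eq_zero N).mpr h1
    change e (N.mkQ y) = 0
    rw [h2]
    exact map_zero e
  · by_contra hcon
    push Not at hcon
    apply hN.1
    rw [eq_top_iff]
    intro y _
    have h1 : e (N.mkQ y) = 0 := hcon y
    have h2 : N.mkQ y = 0 := e.injective (by rw [h1]; exact (map_zero e).symm)
    exact (Submodule.Quotient.mk_eq_zero N).mp h2

end Functional

section Tri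

variable {O' B A ν : Type} [CommRing O'] [CommRing B] [Algebra O' B] [CommRing A] [IsLocalRing A]

variable (O') in
/-- Three ring homomorphisms to a local ring which are congruent modulo the maximal ideal, such
that every derivation of `B` over `O'` extends to the local ring with arbitrary weights. -/
structure Tri (g₀ g₁ g₂ : B →+* A) (ϖ : A) (ξ : ν → B) : Prop where
  gen : Algebra.adjoin O' (Set.range ξ) = ⊤
  unif : ϖ ∈ maximalIdeal A
  notMem : ϖ ∉ maximalIdeal A ^ 2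
  const₁ : ∀ c : O', ∃ y, g₁ (algebraMap O' B c) - g₀ (algebraMap O' B c) = y * ϖ
  const₂ : ∀ c : O', ∃ y, g₂ (algebraMap O' B c) - g₁ (algebraMap O' B c) = y * ϖ
  diff₁ : ∀ l, g₁ (ξ l) - g₀ (ξ l) ∈ maximalIdeal A
  diff₂ : ∀ l, g₂ (ξ l) - g₁ (ξ l) ∈ maximalIdeal A
  ext : ∀ δ : B → ResidueField A, IsDer ((residue A).comp g₀) δ →
    (∀ c : O', δ (algebraMap O' B c) = 0) → ∀ s₀ s₁ s₂ : ResidueField A,
      ∃ Δ : A → ResidueField A, IsDer (residue A) Δ ∧ Δ ϖ = 0 ∧ (∀ b, Δ (g₀ b) = s₀ * δ b) ∧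
        (∀ b, Δ (g₁ b) = s₁ * δ b) ∧ ∀ b, Δ (g₂ b) = s₂ * δ b

variable {g₀ g₁ g₂ : B →+* A} {ϖ : A} {ξ : ν → B}

/-- Differences of two ring homomorphisms. -/
theorem sub_mem_of_gen (hξ : Algebra.adjoin O' (Set.range ξ) = ⊤) {I : Ideal A} {f g : B →+* A}
    (h1 : ∀ c : O', f (algebraMap O' B c) - g (algebraMap O' B c) ∈ I)
    (h2 : ∀ l, f (ξ l) - g (ξ l) ∈ I) (b : B) : f b - g b ∈ I := by
  have hb : b ∈ Algebra.adjoin O' (Set.range ξ) := by rw [hξ]; exact Algebra.mem_top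
  induction hb using Algebra.adjoin_induction with
  | mem b hb =>
    obtain ⟨l, rfl⟩ := hb
    exact h2 l
  | algebraMap c => exact h1 c
  | add a b _ _ ha hb =>
    rw [map_add, map_add, add_sub_add_comm]
    exact I.add_mem ha hb
  | mul a b _ _ ha hb =>
    have h3 : f (a * b) - g (a * b) = f a * (f b - g b) + g b * (f a - g a) := by
      rw [map_mul, map_mul]
      ring
    rw [h3]
    exact I.add_mem (I.mul_mem_left _ hb) (I.mul_mem_left _ ha)

variable (O') in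
/-- The values of the derivations at the generators. -/
def derV {K : Type} [Field K] (h : B →+* K) (ξ : ν → B) : Submodule K (ν → K) where
  carrier := {v | ∃ δ, IsDer h δ ∧ (∀ c : O', δ (algebraMap O' B c) = 0) ∧ ∀ l, v l = δ (ξ l)}
  add_mem' := by
    rintro v w ⟨δ, h1, h2, h3⟩ ⟨δ', h4, h5, h6⟩
    refine ⟨fun b => δ b + δ' b, ⟨fun b c => ?_, fun b c => ?_⟩, fun c => ?_, fun l => ?_⟩
    · rw [h1.add, h4.add]
      ring
    · rw [h1.mul, h4.mul]
      ring
    · change δ _ + δ' _ = 0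
      rw [h2, h5, add_zero]
    · rw [Pi.add_apply, h3, h6]
  zero_mem' := ⟨fun _ => 0, ⟨fun _ _ => (add_zero 0).symm, fun _ _ => by ring⟩, fun _ => rfl,
    fun _ => rfl⟩
  smul_mem' := by
    rintro a v ⟨δ, h1, h2, h3⟩
    refine ⟨fun b => a * δ b, ⟨fun b c => ?_, fun b c => ?_⟩, fun c => ?_, fun l => ?_⟩
    · rw [h1.add]
      ring
    · rw [h1.mul]
      ring
    · change a * δ _ = 0
      rw [h2, mul_zero]
    · rw [Pi.smul_apply, h3, smul_eq_mul]

theorem Tri.mem₁ (H : Tri O' g₀ g₁ g₂ ϖ ξ) (b : B) : g₁ b - g₀ b ∈ maximalIdeal A := by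
  refine sub_mem_of_gen H.gen (fun c => ?_) H.diff₁ b
  obtain ⟨y, hy⟩ := H.const₁ c
  rw [hy]
  exact Ideal.mul_mem_left _ _ H.unif

theorem Tri.mem₂ (H : Tri O' g₀ g₁ g₂ ϖ ξ) (b : B) : g₂ b - g₁ b ∈ maximalIdeal A := by
  refine sub_mem_of_gen H.gen (fun c => ?_) H.diff₂ b
  obtain ⟨y, hy⟩ := H.const₂ c
  rw [hy]
  exact Ideal.mul_mem_left _ _ H.unif

/-- The independence of the parameters. -/
theorem Tri.indep (H : Tri O' g₀ g₁ g₂ ϖ ξ) {J : Set ν} [Fintype J]
    (hJ : ∀ g : ν → ResidueField A, ∃ v ∈ derV O' ((residue A).comp g₀) ξ, ∀ j ∈ J, v j = g j)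
    {c₀ : A} {c d : J → A}
    (hc : c₀ * ϖ + ∑ j, c j * (g₁ (ξ j) - g₀ (ξ j)) + ∑ j, d j * (g₂ (ξ j) - g₁ (ξ j)) ∈
      maximalIdeal A ^ 2) :
    c₀ ∈ maximalIdeal A ∧ (∀ j, c j ∈ maximalIdeal A) ∧ ∀ j, d j ∈ maximalIdeal A := by
  classical
  have hϖ0 : residue A ϖ = 0 := (residue_eq_zero_iff ϖ).mpr H.unif
  have hu0 : ∀ b, residue A (g₁ b - g₀ b) = 0 := fun b => (residue_eq_zero_iff _).mpr (H.mem₁ b)
  have ht0 : ∀ b, residue A (g₂ b - g₁ b) = 0 := fun b => (residue_eq_zero_iff _).mpr (H.mem₂ b)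
  -- the general relation
  have key : ∀ δ : B → ResidueField A, IsDer ((residue A).comp g₀) δ →
      (∀ c : O', δ (algebraMap O' B c) = 0) → ∀ s₀ s₁ s₂ : ResidueField A,
      ∑ j, residue A (c j) * ((s₁ - s₀) * δ (ξ j)) +
        ∑ j, residue A (d j) * ((s₂ - s₁) * δ (ξ j)) = 0 := by
    intro δ h1 h2 s₀ s₁ s₂
    obtain ⟨Δ, e1, e2, e3, e4, e5⟩ := H.ext δ h1 h2 s₀ s₁ s₂
    have h3 := e1.sq hc
    rw [e1.add, e1.add, e1.mul, e2, hϖ0, mul_zero, zero_mul, add_zero, zero_add, e1.sum,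
      e1.sum] at h3
    rw [← h3]
    congr 1
    · refine Finset.sum_congr rfl fun j _ => ?_
      rw [e1.mul, hu0, zero_mul, add_zero, e1.sub, e4, e3]
      ring
    · refine Finset.sum_congr rfl fun j _ => ?_
      rw [e1.mul, ht0, zero_mul, add_zero, e1.sub, e5, e4]
      ring
  have hcm : ∀ j, c j ∈ maximalIdeal A := by
    intro j₀
    obtain ⟨v, ⟨δ, h1, h2, h3⟩, h4⟩ := hJ (Pi.single (j₀ : ν) 1)
    have h5 := key δ h1 h2 0 1 1
    rw [sub_self, sub_zero] at h5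
    have h6 : ∑ j, residue A (d j) * (0 * δ (ξ j)) = 0 :=
      Finset.sum_eq_zero fun j _ => by ring
    rw [h6, add_zero, Finset.sum_eq_single j₀] at h5
    · rw [one_mul, ← h3, h4 _ j₀.2, Pi.single_eq_same, mul_one] at h5
      exact (residue_eq_zero_iff _).mp h5
    · intro j _ hj
      rw [one_mul, ← h3, h4 _ j.2, Pi.single_eq_of_ne (fun h => hj (Subtype.ext h)), mul_zero]
    · intro h
      exact absurd (Finset.mem_univ _) h
  have hdm : ∀ j, d j ∈ maximalIdeal A := by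
    intro j₀
    obtain ⟨v, ⟨δ, h1, h2, h3⟩, h4⟩ := hJ (Pi.single (j₀ : ν) 1)
    have h5 := key δ h1 h2 0 0 1
    rw [sub_self, sub_zero] at h5
    have h6 : ∑ j, residue A (c j) * (0 * δ (ξ j)) = 0 :=
      Finset.sum_eq_zero fun j _ => by ring
    rw [h6, zero_add, Finset.sum_eq_single j₀] at h5
    · rw [one_mul, ← h3, h4 _ j₀.2, Pi.single_eq_same, mul_one] at h5
      exact (residue_eq_zero_iff _).mp h5
    · intro j _ hj
      rw [one_mul, ← h3, h4 _ j.2, Pi.single_eq_of_ne (fun h => hj (Subtype.ext h)), mul_zero]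
    · intro h
      exact absurd (Finset.mem_univ _) h
  refine ⟨?_, hcm, hdm⟩
  have h1 : c₀ * ϖ ∈ maximalIdeal A ^ 2 := by
    have h2 : ∑ j, c j * (g₁ (ξ j) - g₀ (ξ j)) ∈ maximalIdeal A ^ 2 := by
      refine Ideal.sum_mem _ fun j _ => ?_
      rw [sq]
      exact Ideal.mul_mem_mul (hcm j) (H.mem₁ _)
    have h3 : ∑ j, d j * (g₂ (ξ j) - g₁ (ξ j)) ∈ maximalIdeal A ^ 2 := by
      refine Ideal.sum_mem _ fun j _ => ?_
      rw [sq]
      exact Ideal.mul_mem_mul (hdm j) (H.mem₂ _)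
    have h4 := Ideal.sub_mem _ (Ideal.sub_mem _ hc h3) h2
    rw [add_sub_cancel_right, add_sub_cancel_right] at h4
    exact h4
  by_contra hc₀
  rw [mem_maximalIdeal, mem_nonunits_iff, not_not] at hc₀
  obtain ⟨w, hw⟩ := hc₀.exists_left_inv
  apply H.notMem
  have h2 : ϖ = w * (c₀ * ϖ) := by rw [← mul_assoc, hw, one_mul]
  rw [h2]
  exact Ideal.mul_mem_left _ _ h1

/-- The generators of the ideal of the diagonal. -/
theorem Tri.span [IsNoetherianRing A] (H : Tri O' g₀ g₁ g₂ ϖ ξ) {J : Set ν}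
    (hJ : ∀ v ∈ derV O' ((residue A).comp g₀) ξ, (∀ j ∈ J, v j = 0) → v = 0) :
    Ideal.span (insert ϖ ((Set.range fun l => g₁ (ξ l) - g₀ (ξ l)) ∪
        Set.range fun l => g₂ (ξ l) - g₁ (ξ l))) ≤
      Ideal.span (insert ϖ ((Set.range fun j : J => g₁ (ξ j) - g₀ (ξ j)) ∪
        Set.range fun j : J => g₂ (ξ j) - g₁ (ξ j))) := by
  by_contra hne
  obtain ⟨I, hI⟩ : ∃ I, I = Ideal.span (insert ϖ ((Set.range fun l => g₁ (ξ l) - g₀ (ξ l)) ∪
        Set.range fun l => g₂ (ξ l) - g₁ (ξ l))) := ⟨_, rfl⟩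
  obtain ⟨I₀, hI₀⟩ : ∃ I₀, I₀ = Ideal.span
    (insert ϖ ((Set.range fun j : J => g₁ (ξ j) - g₀ (ξ j)) ∪
        Set.range fun j : J => g₂ (ξ j) - g₁ (ξ j))) := ⟨_, rfl⟩
  rw [← hI, ← hI₀] at hne
  obtain ⟨f, hf0, y, hy⟩ := exists_functional hne
  have hϖI : ϖ ∈ I := by
    rw [hI]
    exact Ideal.subset_span (Set.mem_insert _ _)
  have huI : ∀ l, g₁ (ξ l) - g₀ (ξ l) ∈ I := fun l => by
    rw [hI]
    exact Ideal.subset_span (Set.mem_insert_of_mem _ (Or.inl ⟨l, rfl⟩))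
  have htI : ∀ l, g₂ (ξ l) - g₁ (ξ l) ∈ I := fun l => by
    rw [hI]
    exact Ideal.subset_span (Set.mem_insert_of_mem _ (Or.inr ⟨l, rfl⟩))
  have hϖI₀ : ϖ ∈ I₀ := by
    rw [hI₀]
    exact Ideal.subset_span (Set.mem_insert _ _)
  have huI₀ : ∀ j ∈ J, g₁ (ξ j) - g₀ (ξ j) ∈ I₀ := fun j hj => by
    rw [hI₀]
    exact Ideal.subset_span (Set.mem_insert_of_mem _ (Or.inl ⟨⟨j, hj⟩, rfl⟩))
  have htI₀ : ∀ j ∈ J, g₂ (ξ j) - g₁ (ξ j) ∈ I₀ := fun j hj => by
    rw [hI₀]
    exact Ideal.subset_span (Set.mem_insert_of_mem _ (Or.inr ⟨⟨j, hj⟩, rfl⟩))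
  have hbu : ∀ b, g₁ b - g₀ b ∈ I := sub_mem_of_gen H.gen (fun c => by
    obtain ⟨z, hz⟩ := H.const₁ c
    rw [hz]
    exact I.mul_mem_left _ hϖI) huI
  have hbt : ∀ b, g₂ b - g₁ b ∈ I := sub_mem_of_gen H.gen (fun c => by
    obtain ⟨z, hz⟩ := H.const₂ c
    rw [hz]
    exact I.mul_mem_left _ hϖI) htI
  have hr1 : ∀ b, residue A (g₁ b) = residue A (g₀ b) := fun b => by
    rw [← sub_eq_zero, ← map_sub]
    exact (residue_eq_zero_iff _).mpr (H.mem₁ b)
  have hr2 : ∀ b, residue A (g₂ b) = residue A (g₀ b) := fun b => by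
    rw [← hr1, ← sub_eq_zero, ← map_sub]
    exact (residue_eq_zero_iff _).mpr (H.mem₂ b)
  have hsmul : ∀ (a : A) (z : I), f (a • z) = residue A a * f z := fun a z => by
    rw [map_smul, Algebra.smul_def]
    rfl
  have hfϖ : ∀ a (h : a * ϖ ∈ I), f ⟨a * ϖ, h⟩ = 0 := fun a h =>
    hf0 _ (I₀.mul_mem_left _ hϖI₀)
  -- the two derivations
  have hd1 : ∀ l, f ⟨g₁ (ξ l) - g₀ (ξ l), huI l⟩ = 0 := by
    have hδ : IsDer ((residue A).comp g₀) (fun b => f ⟨g₁ b - g₀ b, hbu b⟩) := by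
      refine ⟨fun b c => ?_, fun b c => ?_⟩
      · rw [← map_add]
        congr 1
        apply Subtype.ext
        change g₁ (b + c) - g₀ (b + c) = (g₁ b - g₀ b) + (g₁ c - g₀ c)
        rw [map_add, map_add]
        ring
      · rw [RingHom.comp_apply, RingHom.comp_apply, ← hr1 b, ← hsmul, ← hsmul, ← map_add]
        congr 1
        apply Subtype.ext
        change g₁ (b * c) - g₀ (b * c) = g₁ b * (g₁ c - g₀ c) + g₀ c * (g₁ b - g₀ b)
        rw [map_mul, map_mul]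
        ring
    have h0 := hJ (fun l => f ⟨g₁ (ξ l) - g₀ (ξ l), huI l⟩) ⟨_, hδ, fun c => by
      obtain ⟨z, hz⟩ := H.const₁ c
      exact hf0 _ (by
        change g₁ (algebraMap O' B c) - g₀ (algebraMap O' B c) ∈ I₀
        rw [hz]
        exact I₀.mul_mem_left _ hϖI₀), fun l => rfl⟩ (fun j hj => hf0 _ (huI₀ j hj))
    exact fun l => congrFun h0 l
  have hd2 : ∀ l, f ⟨g₂ (ξ l) - g₁ (ξ l), htI l⟩ = 0 := by
    have hδ : IsDer ((residue A).comp g₀) (fun b => f ⟨g₂ b - g₁ b, hbt b⟩) := by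
      refine ⟨fun b c => ?_, fun b c => ?_⟩
      · rw [← map_add]
        congr 1
        apply Subtype.ext
        change g₂ (b + c) - g₁ (b + c) = (g₂ b - g₁ b) + (g₂ c - g₁ c)
        rw [map_add, map_add]
        ring
      · rw [RingHom.comp_apply, RingHom.comp_apply, ← hr2 b, ← hr1 c, ← hsmul, ← hsmul, ← map_add]
        congr 1
        apply Subtype.ext
        change g₂ (b * c) - g₁ (b * c) = g₂ b * (g₂ c - g₁ c) + g₁ c * (g₂ b - g₁ b)
        rw [map_mul, map_mul]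
        ring
    have h0 := hJ (fun l => f ⟨g₂ (ξ l) - g₁ (ξ l), htI l⟩) ⟨_, hδ, fun c => by
      obtain ⟨z, hz⟩ := H.const₂ c
      exact hf0 _ (by
        change g₂ (algebraMap O' B c) - g₁ (algebraMap O' B c) ∈ I₀
        rw [hz]
        exact I₀.mul_mem_left _ hϖI₀), fun l => rfl⟩ (fun j hj => hf0 _ (htI₀ j hj))
    exact fun l => congrFun h0 l
  -- the functional is zero
  apply hy
  have hall : ∀ z (hz : z ∈ I), f ⟨z, hz⟩ = 0 := by
    have hgen : ∀ z ∈ Ideal.span (insert ϖ ((Set.range fun l => g₁ (ξ l) - g₀ (ξ l)) ∪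
        Set.range fun l => g₂ (ξ l) - g₁ (ξ l))), ∀ hz : z ∈ I, f ⟨z, hz⟩ = 0 := by
      intro z hz
      induction hz using Submodule.span_induction with
      | mem z hz =>
        rcases hz with rfl | ⟨l, rfl⟩ | ⟨l, rfl⟩
        · exact fun hz => hf0 _ hϖI₀
        · exact fun _ => hd1 l
        · exact fun _ => hd2 l
      | zero => exact fun _ => map_zero f
      | add a b ha' hb' ha hb =>
        intro hz
        have ha1 : a ∈ I := by rw [hI]; exact ha'
        have hb1 : b ∈ I := by rw [hI]; exact hb'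
        have h1 : (⟨a + b, hz⟩ : I) = ⟨a, ha1⟩ + ⟨b, hb1⟩ := rfl
        rw [h1, map_add, ha ha1, hb hb1, add_zero]
      | smul a z hz' ih =>
        intro hz
        have h2 : z ∈ I := by rw [hI]; exact hz'
        have h1 : (⟨a • z, hz⟩ : I) = a • ⟨z, h2⟩ := rfl
        rw [h1, hsmul, ih h2, mul_zero]
    intro z hz
    exact hgen z (by rw [← hI]; exact hz) hz
  exact hall y.1 y.2

end Tri

end Pool.Agent.Lib.MP_6a3dac_ag.W3
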