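import Pool.Agent.Lib.MP_6a3dac_ag.W3.T3b

/-!
# Extension of derivations to a triple product and to its local rings
-/

set_option autoImplicit false
set_option linter.unusedSectionVars false

namespace Pool.Agent.Lib.MP_6a3dac_ag.W3

open IsLocalRing TensorProduct

section Dual

variable {B K : Type} [CommRing B] [Field K]

theorem isDer_one {h : B →+* K} {δ : B → K} (hδ : IsDer h δ) : δ 1 = 0 := by
  have h1 := hδ.mul 1 1
  rw [mul_one, map_one, one_mul] at h1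
  exact left_eq_add.mp h1

/-- The homomorphism to the dual numbers given by a derivation. -/
def dualHom (h : B →+* K) (δ : B → K) (hδ : IsDer h δ) : B →+* TrivSqZeroExt K K where
  toFun b := (h b, δ b)
  map_one' := TrivSqZeroExt.ext (map_one h) (isDer_one hδ)
  map_mul' b c := TrivSqZeroExt.ext (map_mul h b c) (by
    change δ (b * c) = h b * δ c + δ b * h c
    rw [hδ.mul, mul_comm (δ b)])
  map_zero' := TrivSqZeroExt.ext (map_zero h) hδ.zero
  map_add' b c := TrivSqZeroExt.ext (map_add h b c) (hδ.add b c)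

theorem isDer_snd {G : Type} [CommRing G] (Ψ : G →+* TrivSqZeroExt K K) {h : G →+* K}
    (hh : ∀ g, (Ψ g).fst = h g) : IsDer h (fun g => (Ψ g).snd) := by
  refine ⟨fun b c => ?_, fun b c => ?_⟩
  · rw [map_add]
    rfl
  · rw [map_mul, TrivSqZeroExt.snd_mul, hh, hh, smul_eq_mul, MulOpposite.smul_eq_mul_unop,
      MulOpposite.unop_op, mul_comm (Ψ b).snd]

/-- A derivation extends to a localization. -/
theorem exists_der_loc {G A : Type} [CommRing G] [CommRing A] [IsLocalRing A] [Algebra G A]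
    (𝔮 : Ideal G) [𝔮.IsPrime] [IsLocalization.AtPrime A 𝔮]
    (Ψ : G →+* TrivSqZeroExt (ResidueField A) (ResidueField A))
    (hΨ : ∀ g, (Ψ g).fst = residue A (algebraMap G A g)) :
    ∃ Δ : A → ResidueField A, IsDer (residue A) Δ ∧ ∀ g, Δ (algebraMap G A g) = (Ψ g).snd := by
  have hu : ∀ s : 𝔮.primeCompl, IsUnit (Ψ s) := by
    intro s
    rw [TrivSqZeroExt.isUnit_iff_isUnit_fst, hΨ]
    exact (IsLocalization.map_units A s).map (residue A)
  let Ψ' : A →+* TrivSqZeroExt (ResidueField A) (ResidueField A) :=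
    IsLocalization.lift (M := 𝔮.primeCompl) hu
  have h1 : ∀ g, Ψ' (algebraMap G A g) = Ψ g := fun g => IsLocalization.lift_eq _ _
  have h2 : ∀ a, (Ψ' a).fst = residue A a := by
    have h3 : (TrivSqZeroExt.fstHom (ResidueField A) (ResidueField A)
        (ResidueField A)).toRingHom.comp Ψ' = residue A := by
      apply IsLocalization.ringHom_ext 𝔮.primeCompl
      ext g
      change (Ψ' (algebraMap G A g)).fst = residue A (algebraMap G A g)
      rw [h1, hΨ]
    exact fun a => RingHom.congr_fun h3 a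
  exact ⟨fun a => (Ψ' a).snd, isDer_snd Ψ' h2, fun g => by
    change (Ψ' (algebraMap G A g)).snd = _
    rw [h1]⟩

end Dual

section Tensor

variable {O' B₀ B₁ B₂ K : Type} [CommRing O'] [CommRing B₀] [CommRing B₁] [CommRing B₂]
  [Algebra O' B₀] [Algebra O' B₁] [Algebra O' B₂] [Field K]

/-- Derivations of the factors over the same homomorphism of the constants give a homomorphism of
the tensor product to the dual numbers. -/
theorem exists_dual_tensor (k : O' →+* K) {h₀ : B₀ →+* K} {δ₀ : B₀ → K} (H₀ : IsDer h₀ δ₀)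
    (c₀ : ∀ c, h₀ (algebraMap O' B₀ c) = k c) (d₀ : ∀ c, δ₀ (algebraMap O' B₀ c) = 0)
    {h₁ : B₁ →+* K} {δ₁ : B₁ → K} (H₁ : IsDer h₁ δ₁)
    (c₁ : ∀ c, h₁ (algebraMap O' B₁ c) = k c) (d₁ : ∀ c, δ₁ (algebraMap O' B₁ c) = 0)
    {h₂ : B₂ →+* K} {δ₂ : B₂ → K} (H₂ : IsDer h₂ δ₂)
    (c₂ : ∀ c, h₂ (algebraMap O' B₂ c) = k c) (d₂ : ∀ c, δ₂ (algebraMap O' B₂ c) = 0) :
    ∃ Ψ : B₀ ⊗[O'] (B₁ ⊗[O'] B₂) →+* TrivSqZeroExt K K, ∀ b₀ b₁ b₂,
      Ψ (b₀ ⊗ₜ (b₁ ⊗ₜ b₂)) = dualHom h₀ δ₀ H₀ b₀ * (dualHom h₁ δ₁ H₁ b₁ * dualHom h₂ δ₂ H₂ b₂) := by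
  let : Algebra O' (TrivSqZeroExt K K) := ((TrivSqZeroExt.inlHom K K).comp k).toAlgebra
  let p₀ : B₀ →ₐ[O'] TrivSqZeroExt K K :=
    { dualHom h₀ δ₀ H₀ with commutes' := fun c => TrivSqZeroExt.ext (c₀ c) (d₀ c) }
  let p₁ : B₁ →ₐ[O'] TrivSqZeroExt K K :=
    { dualHom h₁ δ₁ H₁ with commutes' := fun c => TrivSqZeroExt.ext (c₁ c) (d₁ c) }
  let p₂ : B₂ →ₐ[O'] TrivSqZeroExt K K :=
    { dualHom h₂ δ₂ H₂ with commutes' := fun c => TrivSqZeroExt.ext (c₂ c) (d₂ c) }
  refine ⟨(Algebra.TensorProduct.productMap p₀ (Algebra.TensorProduct.productMap p₁ p₂)).toRingHom,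
    fun b₀ b₁ b₂ => ?_⟩
  change Algebra.TensorProduct.productMap p₀ (Algebra.TensorProduct.productMap p₁ p₂) _ = _
  rw [Algebra.TensorProduct.productMap_apply_tmul, Algebra.TensorProduct.productMap_apply_tmul]
  rfl

end Tensor

end Pool.Agent.Lib.MP_6a3dac_ag.W3
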