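import Pool.Agent.Lib.MP_6a3dac_ag.W3.T3d

/-!
# The local structure of the triple product of the twists around the diagonal
-/

set_option autoImplicit false
set_option linter.unusedSectionVars false

namespace Pool.Agent.Lib.MP_6a3dac_ag.W3

open IsLocalRing TensorProduct Pool.Agent.Lib.MP_6a3dac_ag

section Struct

variable {O' B ν : Type} [CommRing O'] [CommRing B] [Algebra O' B] {s₀ s₁ s₂ : O' →+* O'}
  (hs₀ : ∀ c, s₀ c = c) (hb₁ : Function.Bijective s₁) (hb₂ : Function.Bijective s₂)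
  {ϖ : O'} {r : ℕ} (hr : 1 ≤ r) (hΔ₁ : ∀ c, ∃ y, s₁ c - c = y * ϖ ^ r)
  (hΔ₂ : ∀ c, ∃ y, s₂ c - c = y * ϖ ^ r)
  {ξ : ν → B} (hξ : Algebra.adjoin O' (Set.range ξ) = ⊤)
  {A : Type} [CommRing A] [IsRegularLocalRing A] [Algebra (G3 s₀ s₁ s₂ B) A]
  (𝔮 : Ideal (G3 s₀ s₁ s₂ B)) [𝔮.IsPrime] [IsLocalization.AtPrime A 𝔮]

variable (s₀ s₁ s₂ A) in
/-- The maps to the local ring. -/
noncomputable def gA₀ : B →+* A := (algebraMap (G3 s₀ s₁ s₂ B) A).comp (em₀ s₀ s₁ s₂)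

variable (s₀ s₁ s₂ A) in
/-- The maps to the local ring. -/
noncomputable def gA₁ : B →+* A := (algebraMap (G3 s₀ s₁ s₂ B) A).comp (em₁ s₀ s₁ s₂)

variable (s₀ s₁ s₂ A) in
/-- The maps to the local ring. -/
noncomputable def gA₂ : B →+* A := (algebraMap (G3 s₀ s₁ s₂ B) A).comp (em₂ s₀ s₁ s₂)

variable {ϖA : A} (hϖA : algebraMap (G3 s₀ s₁ s₂ B) A (algebraMap O' _ ϖ) = ϖA)
  (hϖ : ϖA ∈ maximalIdeal A)
  (hd₁ : ∀ l, gA₁ s₀ s₁ s₂ A (ξ l) - gA₀ s₀ s₁ s₂ A (ξ l) ∈ maximalIdeal A)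
  (hd₂ : ∀ l, gA₂ s₀ s₁ s₂ A (ξ l) - gA₁ s₀ s₁ s₂ A (ξ l) ∈ maximalIdeal A)

include hs₀ hϖA in
theorem gA₀_unif : gA₀ s₀ s₁ s₂ A (algebraMap O' B ϖ) = ϖA := by
  rw [← hϖA, algebraMap_em₀ hs₀]
  rfl

include hs₀ hb₁ hr hΔ₁ hϖA in
theorem gA_const₁ (c : O') : ∃ y, gA₁ s₀ s₁ s₂ A (algebraMap O' B c) -
    gA₀ s₀ s₁ s₂ A (algebraMap O' B c) = y * ϖA := by
  obtain ⟨c, rfl⟩ := hb₁.2 c
  obtain ⟨y, hy⟩ := hΔ₁ c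
  have h1 : gA₁ s₀ s₁ s₂ A (algebraMap O' B (s₁ c)) = gA₀ s₀ s₁ s₂ A (algebraMap O' B c) := by
    rw [gA₁, gA₀, RingHom.comp_apply, RingHom.comp_apply, em₁_algebraMap, algebraMap_em₀ hs₀]
  have h2 := congrArg (fun z => gA₀ s₀ s₁ s₂ A (algebraMap O' B z)) hy
  simp only [map_sub, map_mul, map_pow] at h2
  rw [gA₀_unif hs₀ hϖA] at h2
  obtain ⟨r', rfl⟩ : ∃ r', r = r' + 1 := ⟨r - 1, by omega⟩
  refine ⟨-(gA₀ s₀ s₁ s₂ A (algebraMap O' B y) * ϖA ^ r'), ?_⟩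
  rw [h1, ← neg_sub, h2, pow_succ]
  ring

include hs₀ hb₂ hr hΔ₂ hϖA in
theorem gA_const₂ (c : O') : ∃ y, gA₂ s₀ s₁ s₂ A (algebraMap O' B c) -
    gA₀ s₀ s₁ s₂ A (algebraMap O' B c) = y * ϖA := by
  obtain ⟨c, rfl⟩ := hb₂.2 c
  obtain ⟨y, hy⟩ := hΔ₂ c
  have h1 : gA₂ s₀ s₁ s₂ A (algebraMap O' B (s₂ c)) = gA₀ s₀ s₁ s₂ A (algebraMap O' B c) := by
    rw [gA₂, gA₀, RingHom.comp_apply, RingHom.comp_apply, em₂_algebraMap, algebraMap_em₀ hs₀]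
  have h2 := congrArg (fun z => gA₀ s₀ s₁ s₂ A (algebraMap O' B z)) hy
  simp only [map_sub, map_mul, map_pow] at h2
  rw [gA₀_unif hs₀ hϖA] at h2
  obtain ⟨r', rfl⟩ : ∃ r', r = r' + 1 := ⟨r - 1, by omega⟩
  refine ⟨-(gA₀ s₀ s₁ s₂ A (algebraMap O' B y) * ϖA ^ r'), ?_⟩
  rw [h1, ← neg_sub, h2, pow_succ]
  ring

include hs₀ hb₁ hb₂ hr hΔ₁ hΔ₂ hξ 𝔮 hϖA hϖ hd₁ hd₂ in
/-- The extension of the derivations. -/
theorem gA_ext (δ : B → ResidueField A) (hδ : IsDer ((residue A).comp (gA₀ s₀ s₁ s₂ A)) δ)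
    (hδc : ∀ c : O', δ (algebraMap O' B c) = 0) (t₀ t₁ t₂ : ResidueField A) :
    ∃ Δ : A → ResidueField A, IsDer (residue A) Δ ∧ Δ ϖA = 0 ∧
      (∀ b, Δ (gA₀ s₀ s₁ s₂ A b) = t₀ * δ b) ∧ (∀ b, Δ (gA₁ s₀ s₁ s₂ A b) = t₁ * δ b) ∧
      ∀ b, Δ (gA₂ s₀ s₁ s₂ A b) = t₂ * δ b := by
  obtain ⟨h, hh⟩ : ∃ h : B →+* ResidueField A, h = (residue A).comp (gA₀ s₀ s₁ s₂ A) :=
    ⟨_, rfl⟩
  rw [← hh] at hδ
  have hm1 : ∀ b, gA₁ s₀ s₁ s₂ A b - gA₀ s₀ s₁ s₂ A b ∈ maximalIdeal A :=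
    sub_mem_of_gen hξ (fun c => by
      obtain ⟨y, hy⟩ := gA_const₁ hs₀ hb₁ hr hΔ₁ hϖA c
      rw [hy]
      exact Ideal.mul_mem_left _ _ hϖ) hd₁
  have hm2 : ∀ b, gA₂ s₀ s₁ s₂ A b - gA₀ s₀ s₁ s₂ A b ∈ maximalIdeal A :=
    sub_mem_of_gen hξ (fun c => by
      obtain ⟨y, hy⟩ := gA_const₂ hs₀ hb₂ hr hΔ₂ hϖA c
      rw [hy]
      exact Ideal.mul_mem_left _ _ hϖ) (fun l => by
      rw [← sub_add_sub_cancel _ (gA₁ s₀ s₁ s₂ A (ξ l))]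
      exact Ideal.add_mem _ (hd₂ l) (hd₁ l))
  have e0 : ∀ b, residue A (gA₀ s₀ s₁ s₂ A b) = h b := fun b => by rw [hh]; rfl
  have e1 : ∀ b, residue A (gA₁ s₀ s₁ s₂ A b) = h b := fun b => by
    rw [← e0, ← sub_eq_zero, ← map_sub]
    exact (residue_eq_zero_iff _).mpr (hm1 b)
  have e2 : ∀ b, residue A (gA₂ s₀ s₁ s₂ A b) = h b := fun b => by
    rw [← e0, ← sub_eq_zero, ← map_sub]
    exact (residue_eq_zero_iff _).mpr (hm2 b)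
  have hhϖ : h (algebraMap O' B ϖ) = 0 := by
    rw [← e0, gA₀_unif hs₀ hϖA]
    exact (residue_eq_zero_iff _).mpr hϖ
  have htw : ∀ s : O' →+* O', (∀ c, ∃ y, s c - c = y * ϖ ^ r) → ∀ c,
      h (algebraMap O' B (s c)) = h (algebraMap O' B c) := by
    intro s hs c
    obtain ⟨y, hy⟩ := hs c
    rw [← sub_eq_zero, ← map_sub, ← map_sub, hy, map_mul, map_pow, map_mul, map_pow, hhϖ,
      zero_pow (by omega), mul_zero]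
  have hder : ∀ (s : O' →+* O') (t : ResidueField A), IsDer (h.comp (toTw s B).symm.toRingHom)
      (fun b => t * δ ((toTw s B).symm b)) := by
    intro s t
    refine ⟨fun b c => ?_, fun b c => ?_⟩
    · rw [map_add, hδ.add]
      ring
    · rw [map_mul, hδ.mul]
      change _ = h ((toTw s B).symm b) * _ + h ((toTw s B).symm c) * _
      ring
  obtain ⟨Ψ, hΨ⟩ := exists_dual_tensor (h.comp (algebraMap O' B)) (hder s₀ t₀)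
    (fun c => by
      change h (algebraMap O' B (s₀ c)) = h (algebraMap O' B c)
      rw [hs₀]) (fun c => by
      change t₀ * δ (algebraMap O' B (s₀ c)) = 0
      rw [hδc, mul_zero]) (hder s₁ t₁)
    (fun c => htw s₁ hΔ₁ c) (fun c => by
      change t₁ * δ (algebraMap O' B (s₁ c)) = 0
      rw [hδc, mul_zero]) (hder s₂ t₂)
    (fun c => htw s₂ hΔ₂ c) (fun c => by
      change t₂ * δ (algebraMap O' B (s₂ c)) = 0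
      rw [hδc, mul_zero])
  have p0 : ∀ b, Ψ (em₀ s₀ s₁ s₂ b) = dualHom _ _ (hder s₀ t₀) (toTw s₀ B b) := fun b => by
    have h1 := hΨ (toTw s₀ B b) 1 1
    rw [map_one, map_one, mul_one, mul_one] at h1
    exact h1
  have p1 : ∀ b, Ψ (em₁ s₀ s₁ s₂ b) = dualHom _ _ (hder s₁ t₁) (toTw s₁ B b) := fun b => by
    have h1 := hΨ 1 (toTw s₁ B b) 1
    rw [map_one, map_one, one_mul, mul_one] at h1
    exact h1
  have p2 : ∀ b, Ψ (em₂ s₀ s₁ s₂ b) = dualHom _ _ (hder s₂ t₂) (toTw s₂ B b) := fun b => by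
    have h1 := hΨ 1 1 (toTw s₂ B b)
    rw [map_one, map_one, one_mul, one_mul] at h1
    exact h1
  have hfst : ∀ g, (Ψ g).fst = residue A (algebraMap (G3 s₀ s₁ s₂ B) A g) := by
    obtain ⟨U, hU⟩ : ∃ U : Subring (G3 s₀ s₁ s₂ B), U = RingHom.eqLocus
      ((TrivSqZeroExt.fstHom (ResidueField A) (ResidueField A)
        (ResidueField A)).toRingHom.comp Ψ) ((residue A).comp (algebraMap (G3 s₀ s₁ s₂ B) A)) :=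
      ⟨_, rfl⟩
    have hmem : ∀ g, g ∈ U ↔ (Ψ g).fst = residue A (algebraMap (G3 s₀ s₁ s₂ B) A g) := fun g => by
      rw [hU]
      rfl
    intro g
    rw [← hmem]
    refine g3_induction U (fun b => ?_) (fun b => ?_) (fun b => ?_) g
    · rw [hmem, p0]
      exact (e0 b).symm
    · rw [hmem, p1]
      exact (e1 b).symm
    · rw [hmem, p2]
      exact (e2 b).symm
  obtain ⟨Δ, hΔ, hΔg⟩ := exists_der_loc 𝔮 Ψ hfst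
  have q0 : ∀ b, Δ (gA₀ s₀ s₁ s₂ A b) = t₀ * δ b := fun b => by
    rw [gA₀, RingHom.comp_apply, hΔg, p0]
    rfl
  refine ⟨Δ, hΔ, ?_, q0, fun b => ?_, fun b => ?_⟩
  · rw [← gA₀_unif hs₀ hϖA, q0, hδc, mul_zero]
  · rw [gA₁, RingHom.comp_apply, hΔg, p1]
    rfl
  · rw [gA₂, RingHom.comp_apply, hΔg, p2]
    rfl

include hs₀ hb₁ hb₂ hr hΔ₁ hΔ₂ hξ 𝔮 hϖA hϖ hd₁ hd₂ in
/-- The structure `Tri`. -/
theorem gA_tri (hϖ2 : ϖA ∉ maximalIdeal A ^ 2) :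
    Tri O' (gA₀ s₀ s₁ s₂ A) (gA₁ s₀ s₁ s₂ A) (gA₂ s₀ s₁ s₂ A) ϖA ξ where
  gen := hξ
  unif := hϖ
  notMem := hϖ2
  const₁ := gA_const₁ hs₀ hb₁ hr hΔ₁ hϖA
  const₂ := fun c => by
    obtain ⟨y, hy⟩ := gA_const₁ (s₂ := s₂) hs₀ hb₁ hr hΔ₁ hϖA c
    obtain ⟨z, hz⟩ := gA_const₂ (s₁ := s₁) hs₀ hb₂ hr hΔ₂ hϖA c
    refine ⟨z - y, ?_⟩
    linear_combination hz - hy
  diff₁ := hd₁
  diff₂ := hd₂
  ext := gA_ext hs₀ hb₁ hb₂ hr hΔ₁ hΔ₂ hξ 𝔮 hϖA hϖ hd₁ hd₂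

include hb₁ hb₂ hs₀ in
/-- The triple product of a smooth algebra is smooth. -/
theorem smooth_g3 [Algebra.Smooth O' B] : Algebra.Smooth O' (G3 s₀ s₁ s₂ B) := by
  have hb₀ : Function.Bijective s₀ := by
    have h1 : ⇑s₀ = id := funext hs₀
    rw [h1]
    exact Function.bijective_id
  have := smooth_tw s₀ hb₀ B
  have := smooth_tw s₁ hb₁ B
  have := smooth_tw s₂ hb₂ B
  have h1 : Algebra.Smooth O' (Tw s₁ B ⊗[O'] Tw s₂ B) := Algebra.Smooth.comp O' (Tw s₁ B) _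
  exact Algebra.Smooth.comp O' (Tw s₀ B) _

include hs₀ hb₁ hb₂ 𝔮 hϖA hϖ in
theorem unif_notMem_sq [Algebra.Smooth O' B] (hmax : (Ideal.span {ϖ}).IsMaximal)
    (hreg : ϖA ∈ nonZeroDivisors A) : ϖA ∉ maximalIdeal A ^ 2 := by
  apply notMem_sq_of_quotient hϖ hreg
  have hsm := smooth_g3 (B := B) hs₀ hb₁ hb₂
  have h1 := isRegularRing_quotient_of_smooth (X := G3 s₀ s₁ s₂ B) ϖ hmax
  have h2 : Ideal.span {algebraMap O' (G3 s₀ s₁ s₂ B) ϖ} ≤ 𝔮 := by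
    rw [Ideal.span_singleton_le_iff_mem, ← IsLocalization.AtPrime.to_map_mem_maximal_iff A 𝔮, hϖA]
    exact hϖ
  have h3 := isRegularLocalRing_quotient_atPrime (B := A) 𝔮 _ h2 h1
  rw [Ideal.map_span, Set.image_singleton, hϖA] at h3
  exact h3

include hs₀ hb₁ hb₂ hr hΔ₁ hΔ₂ hξ 𝔮 hϖA hϖ hd₁ hd₂ in
/-- **The local structure around the diagonal.** -/
theorem exists_struct₃ [Finite ν] [Algebra.Smooth O' B] (hmax : (Ideal.span {ϖ}).IsMaximal)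
    (hreg : ϖA ∈ nonZeroDivisors A) (htf : ∀ b : B, algebraMap O' B ϖ * b = 0 → b = 0) :
    ∃ (J : Set ν) (_ : Fintype J), (∀ (c₀ : A) (c d : J → A),
      c₀ * ϖA + ∑ j, c j * (gA₁ s₀ s₁ s₂ A (ξ j) - gA₀ s₀ s₁ s₂ A (ξ j)) +
        ∑ j, d j * (gA₂ s₀ s₁ s₂ A (ξ j) - gA₁ s₀ s₁ s₂ A (ξ j)) ∈ maximalIdeal A ^ 2 →
        c₀ ∈ maximalIdeal A ∧ (∀ j, c j ∈ maximalIdeal A) ∧ ∀ j, d j ∈ maximalIdeal A) ∧
      (∀ l, gA₁ s₀ s₁ s₂ A (ξ l) - gA₀ s₀ s₁ s₂ A (ξ l) ∈ Ideal.span (insert (ϖA ^ r)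
        ((Set.range fun j : J => gA₁ s₀ s₁ s₂ A (ξ j) - gA₀ s₀ s₁ s₂ A (ξ j)) ∪
          Set.range fun j : J => gA₂ s₀ s₁ s₂ A (ξ j) - gA₁ s₀ s₁ s₂ A (ξ j)))) ∧
      ∀ l, gA₂ s₀ s₁ s₂ A (ξ l) - gA₁ s₀ s₁ s₂ A (ξ l) ∈ Ideal.span (insert (ϖA ^ r)
        ((Set.range fun j : J => gA₁ s₀ s₁ s₂ A (ξ j) - gA₀ s₀ s₁ s₂ A (ξ j)) ∪
          Set.range fun j : J => gA₂ s₀ s₁ s₂ A (ξ j) - gA₁ s₀ s₁ s₂ A (ξ j))) := by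
  have H := gA_tri hs₀ hb₁ hb₂ hr hΔ₁ hΔ₂ hξ 𝔮 hϖA hϖ hd₁ hd₂
    (unif_notMem_sq hs₀ hb₁ hb₂ 𝔮 hϖA hϖ hmax hreg)
  obtain ⟨J, hJ1, hJ2⟩ := exists_coords (derV O' ((residue A).comp (gA₀ s₀ s₁ s₂ A)) ξ)
  have hJf : Fintype J := Fintype.ofFinite J
  refine ⟨J, hJf, fun c₀ c d hc => H.indep hJ2 hc, ?_⟩
  have h1 := H.span hJ1
  obtain ⟨Z, hZ⟩ : ∃ Z : Set A, Z = algebraMap (G3 s₀ s₁ s₂ B) A '' (dZ s₀ s₁ s₂ ξ) := ⟨_, rfl⟩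
  obtain ⟨Z₀, hZ₀⟩ : ∃ Z₀ : Set A, Z₀ =
    ((Set.range fun j : J => gA₁ s₀ s₁ s₂ A (ξ j) - gA₀ s₀ s₁ s₂ A (ξ j)) ∪
          Set.range fun j : J => gA₂ s₀ s₁ s₂ A (ξ j) - gA₁ s₀ s₁ s₂ A (ξ j)) := ⟨_, rfl⟩
  have hZ' : Z = (Set.range fun l => gA₁ s₀ s₁ s₂ A (ξ l) - gA₀ s₀ s₁ s₂ A (ξ l)) ∪
        Set.range fun l => gA₂ s₀ s₁ s₂ A (ξ l) - gA₁ s₀ s₁ s₂ A (ξ l) := by
    rw [hZ, dZ, Set.image_union, ← Set.range_comp, ← Set.range_comp]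
    congr 1
    · congr 1
      funext l
      exact map_sub _ _ _
    · congr 1
      funext l
      exact map_sub _ _ _
  rw [← hZ', ← hZ₀] at h1
  have hsub : Z₀ ⊆ Z := by
    rw [hZ₀, hZ']
    apply Set.union_subset_union
    · rintro _ ⟨j, rfl⟩
      exact ⟨j, rfl⟩
    · rintro _ ⟨j, rfl⟩
      exact ⟨j, rfl⟩
  have h2 : Ideal.span (insert ϖA Z₀) = Ideal.span (insert ϖA Z) :=
    le_antisymm (Ideal.span_mono (Set.insert_subset_insert hsub)) h1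
  have h3 := span_insert_pow_eq hϖ hr hsub h2 (fun x hx => by
    rw [hZ, ← hϖA] at hx ⊢
    exact flat_loc 𝔮 (diag_flat₃ hs₀ hb₁ hb₂ hΔ₁ hΔ₂ hξ hr htf) x hx)
  rw [← hZ₀, ← h3, hZ']
  exact ⟨fun l => Ideal.subset_span (Set.mem_insert_of_mem _ (Or.inl ⟨l, rfl⟩)),
    fun l => Ideal.subset_span (Set.mem_insert_of_mem _ (Or.inr ⟨l, rfl⟩))⟩

end Struct

end Pool.Agent.Lib.MP_6a3dac_ag.W3
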