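import Pool.Agent.Lib.MP_6a3dac_ag.W3.Base
import Pool.Agent.Lib.MP_6a3dac_ag.Mg.G002

/-!
# The automorphism on quotients by powers of the uniformizer
-/

set_option autoImplicit false
set_option linter.unusedSectionVars false
set_option linter.unusedVariables false

namespace Pool.Agent.Lib.MP_6a3dac_ag.W3

open IsLocalRing
open Pool.Agent.Lib.MP_6a3dac_ag Pool.Agent.Lib.MP_6a3dac_ag.QD

variable {D : Type} [CommRing D] [IsDomain D] [IsLocalRing D]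

section Gen

variable {τ : D →+* D}

-- BEGIN T1
/-- TASK T1 (first statement). `1 + x` is a unit for `x` in the maximal ideal. -/
theorem isUnit_one_add {x : D} (hx : x ∈ maximalIdeal D) : IsUnit (1 + x) := by
  by_contra h
  have h1 : 1 + x ∈ maximalIdeal D := (mem_maximalIdeal _).2 h
  have h2 : (1 : D) ∈ maximalIdeal D := by
    have := Ideal.sub_mem _ h1 hx
    rwa [add_sub_cancel_right] at this
  exact ((mem_maximalIdeal _).1 h2) isUnit_one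

/-- TASK T1 (second statement). `1 + x y` is a unit for `x` in the maximal ideal. -/
theorem isUnit_one_add_mul {x : D} (hx : x ∈ maximalIdeal D) (y : D) : IsUnit (1 + x * y) := by
  exact isUnit_one_add (Ideal.mul_mem_right _ _ hx)

/-- TASK T1 (third statement). A unit plus an element of the maximal ideal is a unit. -/
theorem isUnit_add_of {x y : D} (hx : IsUnit x) (hy : y ∈ maximalIdeal D) : IsUnit (x + y) := by
  by_contra h
  have h1 : x + y ∈ maximalIdeal D := (mem_maximalIdeal _).2 h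
  have h2 : x ∈ maximalIdeal D := by
    have := Ideal.sub_mem _ h1 hy
    rwa [add_sub_cancel_right] at this
  exact ((mem_maximalIdeal _).1 h2) hx

/-- TASK T1 (fourth statement). Quotients of eigenvectors: `h = (1 + e)⁻¹`; `τ x τ q = τ y`, cancel `x`. -/
theorem eigen_quot {x y q e f : D} (hx : x ≠ 0) (hq : x * q = y) (h1 : τ x = x * (1 + e))
    (h2 : τ y = y * (1 + f)) (he : IsUnit (1 + e)) :
    ∃ h, IsUnit h ∧ (1 + e) * h = 1 ∧ τ q = q * (1 + f) * h ∧ τ q - q = q * (f - e) * h := by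
  obtain ⟨h, hh⟩ := he.exists_right_inv
  have hu : IsUnit h := IsUnit.of_mul_eq_one (1 + e) (by rw [mul_comm]; exact hh)
  have h3 : τ x * τ q = τ y := by rw [← map_mul, hq]
  have h4 : (1 + e) * τ q = q * (1 + f) := by
    have h5 : x * ((1 + e) * τ q) = x * (q * (1 + f)) := by
      rw [h1, h2, ← hq] at h3
      linear_combination h3
    exact mul_left_cancel₀ hx h5
  have h6 : τ q = q * (1 + f) * h := by
    linear_combination (-(τ q)) * hh + h * h4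
  refine ⟨h, hu, hh, h6, ?_⟩
  rw [h6]
  linear_combination q * hh

/-- TASK T1 (fifth statement). The criterion for principality: `a c = (a t⁻¹) (c t)`. -/
theorem principal_of {c y t : D} (hc : c ≠ 0) (ht : IsUnit t) (hy : τ y - y = c * t)
    (hall : ∀ w, ∃ a, τ w - w = a * c) :
    ∃ y, τ y - y ≠ 0 ∧ ∀ w, ∃ a, τ w - w = a * (τ y - y) := by
  obtain ⟨s, hs⟩ := ht.exists_right_inv
  refine ⟨y, by rw [hy]; exact mul_ne_zero hc ht.ne_zero, fun w => ?_⟩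
  obtain ⟨a, ha⟩ := hall w
  refine ⟨a * s, ?_⟩
  rw [ha, hy]
  linear_combination (-(a * c)) * hs
-- END T1

end Gen

section Level

variable {A : Subring D} {J : Type} {τ : D →+* D} {ϖ c : A} {u v : J → A} {n : ℕ} {ε κ l μ : D}
  (h : WTau τ ϖ c u v n ε κ l μ) (hn : 1 ≤ n) (hϖ : (ϖ : D) ∈ maximalIdeal D)
  (hϖ0 : (ϖ : D) ≠ 0)

-- BEGIN T2
include hn hϖ in
/-- TASK T2 (first statement). The inverse of `(1 + ε ϖ ^ n) ^ k`. By induction on `k`,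
`(1 + ε ϖ ^ n) ^ k = 1 + ϖ ^ n ζ` with `ζ = k ε + a ϖ` (`1 ≤ n`). It is a unit; with the inverse `ω`,
`ω = 1 - ϖ ^ n ζ ω`, so `z = - ζ ω`, and `z = - ζ + ζ (1 - ω) = - ζ + ζ ϖ ^ n ζ ω`. -/
theorem exists_omega (ε : D) (k : ℕ) : ∃ ω z : D, (1 + ε * (ϖ : D) ^ n) ^ k * ω = 1 ∧
    ω = 1 + (ϖ : D) ^ n * z ∧ ∃ a, z = - (k : D) * ε + a * ϖ := by
  obtain ⟨n', rfl⟩ := Nat.exists_eq_add_of_le hn
  have key : ∃ ζ b : D, (1 + ε * (ϖ : D) ^ (1 + n')) ^ k = 1 + (ϖ : D) ^ (1 + n') * ζ ∧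
      ζ = (k : D) * ε + b * ϖ := by
    induction k with
    | zero => exact ⟨0, 0, by simp, by simp⟩
    | succ k ih =>
      obtain ⟨ζ, b, h1, h2⟩ := ih
      refine ⟨ζ + ε + (ϖ : D) ^ (1 + n') * ζ * ε, b + (ϖ : D) ^ n' * ζ * ε, ?_, ?_⟩
      · rw [pow_succ, h1]; ring
      · rw [h2]; push_cast; ring
  obtain ⟨ζ, b, h1, h2⟩ := key
  have hu : IsUnit (1 + (ϖ : D) ^ (1 + n') * ζ) :=
    isUnit_one_add_mul (Ideal.pow_mem_of_mem _ hϖ _ (by omega)) ζ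
  obtain ⟨ω, hω⟩ := hu.exists_right_inv
  refine ⟨ω, -ζ * ω, by rw [h1, hω], ?_, -b + (ϖ : D) ^ n' * ζ ^ 2 * ω, ?_⟩
  · linear_combination hω
  · linear_combination (-ζ) * hω - h2

include h hϖ0 in
/-- TASK T2 (second statement). Division by `ϖ ^ k`: `τ ϖ = (1 + ε ϖ ^ n) ϖ`, apply `τ` to `ϖ ^ k f' = f` and cancel
`ϖ ^ k`. -/
theorem WTau.div_eq {k : ℕ} {f f' g g' e ω : D} (hf : (ϖ : D) ^ k * f' = f)
    (hg : (ϖ : D) ^ k * g' = g) (hω : (1 + ε * (ϖ : D) ^ n) ^ k * ω = 1)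
    (hτ : τ f = f * (1 + (ϖ : D) ^ n * e) + g) :
    τ f' = ω * (f' * (1 + (ϖ : D) ^ n * e) + g') := by
  have h1 : τ ϖ = (1 + ε * (ϖ : D) ^ n) * ϖ := by rw [h.unif]; ring
  have h2 : τ f = ((1 + ε * (ϖ : D) ^ n) * ϖ) ^ k * τ f' := by
    rw [← hf, map_mul, map_pow, h1]
  have h3 : (ϖ : D) ^ k * ((1 + ε * (ϖ : D) ^ n) ^ k * τ f') =
      (ϖ : D) ^ k * (f' * (1 + (ϖ : D) ^ n * e) + g') := by
    rw [mul_pow] at h2
    linear_combination (-1 : D) * h2 + hτ - (1 + (ϖ : D) ^ n * e) * hf - hg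
  have h4 := mul_left_cancel₀ (pow_ne_zero k hϖ0) h3
  linear_combination (-(τ f')) * hω + ω * h4
-- END T2

-- BEGIN T3
include h hn hϖ hϖ0 in
/-- TASK T3 (three statements). The automorphism on `u / ϖ ^ i`, `v / ϖ ^ k`. By T2 with `e = κ`, `g = v`,
`g' = ϖ ^ (k - i) v'`; `ω (1 + ϖ ^ n κ) = 1 + ϖ ^ n κ'` with `κ' = z + κ + ϖ ^ n z κ`. -/
theorem WTau.level_u {i k : ℕ} (hk : i ≤ k) {u' v' : J → D} (hu : ∀ j, (ϖ : D) ^ i * u' j = u j)
    (hv : ∀ j, (ϖ : D) ^ k * v' j = v j) :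
    ∃ ω κ' : D, (∃ a : D, ω = 1 + a * ϖ) ∧ IsUnit ω ∧ (∃ a, κ' = (n + 1 - i) * ε + a * ϖ) ∧
      ∀ j, τ (u' j) = u' j * (1 + (ϖ : D) ^ n * κ') + ω * (ϖ : D) ^ (k - i) * v' j := by
  obtain ⟨ω, z, h1, h2, a, ha⟩ := exists_omega hn hϖ ε i
  obtain ⟨b, hb⟩ := h.hκ
  obtain ⟨n', rfl⟩ := Nat.exists_eq_add_of_le hn
  refine ⟨ω, z + κ + (ϖ : D) ^ (1 + n') * z * κ, ⟨(ϖ : D) ^ n' * z, ?_⟩, ?_,
    ⟨a + b + (ϖ : D) ^ n' * z * κ, ?_⟩, fun j => ?_⟩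
  · rw [h2]; ring
  · exact IsUnit.of_mul_eq_one _ (by rw [mul_comm]; exact h1)
  · have e1 : z + κ + (ϖ : D) ^ (1 + n') * z * κ = (-(i : D) * ε + a * ϖ) +
        ((((1 + n' : ℕ) : D) + 1) * ε + b * ϖ) + (ϖ : D) ^ (1 + n') * z * κ := by
      rw [← ha, ← hb]
    rw [e1]
    ring
  · have h3 := h.div_eq hϖ0 (k := i) (f := u j) (f' := u' j) (g := v j)
      (g' := (ϖ : D) ^ (k - i) * v' j) (e := κ) (ω := ω) (hu j) (by
        rw [← hv j, ← mul_assoc, ← pow_add, Nat.add_sub_cancel' hk]) h1 (by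
        rw [h.map_u]; ring)
    rw [h3, h2]
    ring

include h hn hϖ hϖ0 in
theorem WTau.level_v {k : ℕ} {v' : J → D} (hv : ∀ j, (ϖ : D) ^ k * v' j = v j) :
    ∃ l', (∃ a, l' = (2 * n + 2 - k) * ε + a * ϖ) ∧
      ∀ j, τ (v' j) = v' j * (1 + (ϖ : D) ^ n * l') := by
  obtain ⟨ω, z, h1, h2, a, ha⟩ := exists_omega hn hϖ ε k
  obtain ⟨b, hb⟩ := h.hl
  obtain ⟨n', rfl⟩ := Nat.exists_eq_add_of_le hn
  refine ⟨z + l + (ϖ : D) ^ (1 + n') * z * l,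
    ⟨a + b + (ϖ : D) ^ n' * z * l, ?_⟩, fun j => ?_⟩
  · have e1 : z + l + (ϖ : D) ^ (1 + n') * z * l = (-(k : D) * ε + a * ϖ) +
        ((2 * ((1 + n' : ℕ) : D) + 2) * ε + b * ϖ) + (ϖ : D) ^ (1 + n') * z * l := by
      rw [← ha, ← hb]
    rw [e1]
    ring
  · have h3 := h.div_eq hϖ0 (k := k) (f := v j) (f' := v' j) (g := 0)
      (g' := 0) (e := l) (ω := ω) (hv j) (by rw [mul_zero]) h1 (by
        rw [h.map_v]; ring)
    rw [h3, h2]
    ring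

include h hn hϖ hϖ0 in
/-- `v - c ϖ ^ n u = ϖ ^ (2 n) (v' - c u')`. -/
theorem WTau.level_s {u' v' : J → D} (hu : ∀ j, (ϖ : D) ^ n * u' j = u j)
    (hv : ∀ j, (ϖ : D) ^ (2 * n) * v' j = v j) :
    ∃ μ', (∃ a, μ' = (1 - n - 2 * n) * ε + a * ϖ) ∧
      ∀ j, τ (v' j - c * u' j) = (v' j - c * u' j) * (1 + (ϖ : D) ^ n * μ') := by
  obtain ⟨ω, z, h1, h2, a, ha⟩ := exists_omega hn hϖ ε (2 * n)
  obtain ⟨b, hb⟩ := h.hμ
  obtain ⟨n', rfl⟩ := Nat.exists_eq_add_of_le hn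
  refine ⟨z + μ + (ϖ : D) ^ (1 + n') * z * μ,
    ⟨a + b + (ϖ : D) ^ n' * z * μ, ?_⟩, fun j => ?_⟩
  · have e1 : z + μ + (ϖ : D) ^ (1 + n') * z * μ = (-((2 * (1 + n') : ℕ) : D) * ε + a * ϖ) +
        ((1 - ((1 + n' : ℕ) : D)) * ε + b * ϖ) + (ϖ : D) ^ (1 + n') * z * μ := by
      rw [← ha, ← hb]
    rw [e1]
    push_cast
    ring
  · have h3 := h.div_eq hϖ0 (k := 2 * (1 + n')) (f := (v j : D) - c * (ϖ : D) ^ (1 + n') * u j)
      (f' := v' j - c * u' j) (g := 0)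
      (g' := 0) (e := μ) (ω := ω) (by
        have e1 := hv j
        have e2 := hu j
        linear_combination e1 - c * (ϖ : D) ^ (1 + n') * e2) (by rw [mul_zero]) h1 (by
        rw [h.map_s]; ring)
    rw [h3, h2]
    ring
-- END T3

include h in
/-- The differences of the elements of `A`: all `ϖ ^ (n + 1)`, `u_j`, `v_j` are multiples of `d`. -/
theorem WTau.aug_dvd {d : D} (h1 : ∃ a, (ϖ : D) ^ (n + 1) = a * d) (h2 : ∀ j, ∃ a, (u j : D) = a * d)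
    (h3 : ∀ j, ∃ a, (v j : D) = a * d) (a : A) : ∃ b, τ a - a = b * d := by
  have h4 : Ideal.span (insert ((ϖ : D) ^ (n + 1))
      (Set.range (fun j => (u j : D)) ∪ Set.range fun j => (v j : D))) ≤ Ideal.span {d} := by
    rw [Ideal.span_le]
    rintro x (rfl | ⟨j, rfl⟩ | ⟨j, rfl⟩)
    · obtain ⟨b, hb⟩ := h1
      exact Ideal.mem_span_singleton'.mpr ⟨b, hb.symm⟩
    · obtain ⟨b, hb⟩ := h2 j
      exact Ideal.mem_span_singleton'.mpr ⟨b, hb.symm⟩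
    · obtain ⟨b, hb⟩ := h3 j
      exact Ideal.mem_span_singleton'.mpr ⟨b, hb.symm⟩
  obtain ⟨b, hb⟩ := Ideal.mem_span_singleton'.mp (h4 (h.aug a))
  exact ⟨b, hb.symm⟩

end Level

end Pool.Agent.Lib.MP_6a3dac_ag.W3
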